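import Pool.Agent.P.MP_ea46f5_nt.QM.D

/-! Statements, part 1: toolbox, Poisson, Euler products. -/

namespace Pool.Agent.QM

open Complex MeasureTheory Finset
open scoped Real ComplexConjugate

/-! Contours -/

def SH0 : Prop := ∀ (a b C : ℝ) (f : ℂ → ℂ), a ≤ b → Nice a b f →
  (∀ s ∈ Strip a b, ‖f s‖ ≤ C / br s.im ^ 2) → Iv b f = Iv a f

def SH1 : Prop := ∀ (a b C : ℝ) (f : ℂ → ℂ) (z : ℂ), a < z.re → z.re < b → Nice a b f →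
  (∀ s ∈ Strip a b, ‖f s‖ ≤ C / br s.im) →
  Iv b (fun s => f s / (s - z)) = Iv a (fun s => f s / (s - z)) + 2 * π * f z

def SH2 : Prop := ∀ (a b C ρ : ℝ) (f : ℂ → ℂ) (z : ℂ), 0 < ρ → a < z.re - ρ → z.re + ρ < b →
  Nice a b f → (∀ s ∈ Strip a b, ‖f s‖ ≤ C / br s.im) →
  Iv b (fun s => f s / (s - z) ^ 2) =
    Iv a (fun s => f s / (s - z) ^ 2) + Oc z ρ (fun s => f s / (s - z) ^ 2)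

def SD0 : Prop := ∀ (a b C : ℝ) (G : ℂ → ℂ → ℂ), a ≤ b → Nice2 a b G →
  (∀ s₁ ∈ Strip a b, ∀ s₂ ∈ Strip a b, ‖G s₁ s₂‖ ≤ C / (br s₁.im ^ 2 * br s₂.im ^ 2)) →
  I2 b G = I2 a G

def SD2 : Prop := ∀ (a b C ρ : ℝ) (G : ℂ → ℂ → ℂ) (z : ℂ), 0 < ρ → a < z.re - ρ → z.re + ρ < b →
  Nice2 a b G →
  (∀ s₁ ∈ Strip a b, ∀ s₂ ∈ Strip a b, ‖G s₁ s₂‖ ≤ C / (br s₁.im ^ 2 * br s₂.im ^ 2)) →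
  I2 b (fun s₁ s₂ => G s₁ s₂ / ((s₁ - z) ^ 2 * (s₂ - z) ^ 2)) =
    I2 a (fun s₁ s₂ => G s₁ s₂ / ((s₁ - z) ^ 2 * (s₂ - z) ^ 2)) +
    Iv a (fun s₁ => Oc z ρ fun s₂ => G s₁ s₂ / ((s₁ - z) ^ 2 * (s₂ - z) ^ 2)) +
    Iv a (fun s₂ => Oc z ρ fun s₁ => G s₁ s₂ / ((s₁ - z) ^ 2 * (s₂ - z) ^ 2)) +
    Oc z ρ (fun s₁ => Oc z ρ fun s₂ => G s₁ s₂ / ((s₁ - z) ^ 2 * (s₂ - z) ^ 2))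

/-- Double circle integrals: holomorphy in a parameter, norm bound, vanishing. -/
def PH2 : Prop :=
  (∀ (U : Set ℂ) (ρ : ℝ) (g : ℂ → ℂ → ℂ → ℂ), IsOpen U → 0 < ρ →
    ContinuousOn (fun x : ℂ × ℂ × ℂ => g x.1 x.2.1 x.2.2)
      (U ×ˢ Metric.sphere 0 ρ ×ˢ Metric.sphere 0 ρ) →
    (∀ a₁ ∈ Metric.sphere (0 : ℂ) ρ, ∀ a₂ ∈ Metric.sphere (0 : ℂ) ρ,
      DifferentiableOn ℂ (fun z => g z a₁ a₂) U) →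
    DifferentiableOn ℂ (fun z => Oc 0 ρ fun a₁ => Oc 0 ρ fun a₂ => g z a₁ a₂) U) ∧
  (∀ (z : ℂ) (ρ M : ℝ) (f : ℂ → ℂ), 0 < ρ → (∀ s ∈ Metric.sphere z ρ, ‖f s‖ ≤ M) →
    ‖Oc z ρ f‖ ≤ 2 * π * ρ * M) ∧
  (∀ (z : ℂ) (ρ : ℝ) (f g : ℂ → ℂ), 0 < ρ → (∀ s ∈ Metric.sphere z ρ, f s = g s) →
    DifferentiableOn ℂ g (Metric.closedBall z ρ) → Oc z ρ f = 0)

/-- Elementary decay facts. -/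
def DEC : Prop :=
  (∀ t u : ℝ, br (t + u) ≤ br t * br u) ∧
  (∀ n : ℕ, ∃ C : ℝ, 0 < C ∧ ∀ t u : ℝ,
    Real.exp (-|t - u| / 2) * br t ^ n ≤ C * br u ^ n) ∧
  (∀ u : ℝ, Integrable (fun t : ℝ => Real.exp (-|t - u| / 2)) ∧
    ∫ t : ℝ, Real.exp (-|t - u| / 2) ≤ 4) ∧
  (Integrable (fun t : ℝ => 1 / br t ^ 2) ∧ ∫ t : ℝ, 1 / br t ^ 2 ≤ 2) ∧
  (∃ C : ℝ, 0 < C ∧ ∀ (ε : ℝ) (m : ℕ), 0 < ε → 2 ≤ m → m ≤ 6 →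
    Integrable (fun t : ℝ => 1 / ‖(ε + t * I : ℂ)‖ ^ m) ∧
      ∫ t : ℝ, 1 / ‖(ε + t * I : ℂ)‖ ^ m ≤ C * ε / ε ^ m)

/-! Gamma, zeta, L -/

def GAM1 : Prop := ∀ n : ℕ, ∃ C : ℝ, 0 < C ∧ ∀ z : ℂ, 0 < z.re → z.re ≤ 15 →
  ‖Gammaℝ z‖ ≤ C / (‖z‖ * br z.im ^ n)

def GAM2 : Prop := ∃ (h : ℕ) (C : ℝ), 0 < C ∧ ∀ (a : ℕ) (t : ℝ) (s : ℂ), a ≤ 1 →
  -(1 / 4) ≤ s.re → s.re ≤ 13 →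
  ‖Gammaℝ (1 / 2 + a + t * I + s)‖ ≤
    C * br t ^ h * br s.im ^ h * Real.exp |s.im| * ‖Gammaℝ (1 / 2 + a + t * I)‖

def ZT : Prop :=
  (∀ s : ℂ, 0 < s.re → ‖riemannZeta₀ s‖ ≤ 1 + ‖s‖ / s.re) ∧
  (∃ C : ℝ, 0 < C ∧ ∀ s : ℂ, 0 < s.re → s.re ≤ 30 →
    ‖riemannZeta (1 + s)‖ ≤ C * br s.im * (1 + 1 / ‖s‖)) ∧
  (∃ C : ℝ, 0 < C ∧ ∀ s : ℂ, 1 / 4 ≤ s.re → s.re ≤ 30 → ‖riemannZeta₁ s‖ ≤ C * br s.im ^ 2)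

def KZ : Prop := ∀ n : ℕ, ∃ C : ℝ, 0 < C ∧ ∀ z : ℂ,
  (0 < z.re → z.re ≤ 1 / 8 → ‖Gammaℝ z * riemannZeta (2 * z)‖ ≤ C / (z.re * br z.im ^ n)) ∧
  (1 / 2 < z.re → z.re ≤ 7 →
    ‖Gammaℝ z * riemannZeta (2 * z)‖ ≤ C * (1 + 1 / (z.re - 1 / 2)) / br z.im ^ n) ∧
  (0 < z.re → z.re ≤ 1 →
    ‖Gammaℝ z * riemannZeta₁ (2 * z)‖ ≤ C / (z.re ^ 2 * br z.im ^ n))

def IZ : Prop :=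
  (∀ s : ℂ, 1 ≤ s.re → DifferentiableAt ℂ iz s) ∧
  (∃ C : ℝ, 0 < C ∧ ∀ s : ℂ, 1 ≤ s.re → ‖iz s‖ ≤ C * br s.im ^ 2) ∧
  (∀ s : ℂ, 1 < s.re →
    HasProd (fun p : Nat.Primes => if (p : ℕ) = 2 then 1 else 1 - ((p : ℕ) : ℂ) ^ (-s)) (iz s))

def LSP : Prop :=
  (∀ (m : ℤ) (s : ℂ), 1 < s.re → HasSum (fun n : ℕ => jo m n * (n : ℂ) ^ (-s)) (LS m s)) ∧
  (∀ (m : ℤ) (s : ℂ), 1 < s.re →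
    HasProd (fun p : Nat.Primes => (1 - jo m p * ((p : ℕ) : ℂ) ^ (-s))⁻¹) (LS m s)) ∧
  (∀ (m : ℤ) (s : ℂ), 2 ≤ s.re → ‖LS m s‖ ≤ 2) ∧
  (∀ m : ℤ, DifferentiableOn ℂ (LS m) {s | 1 < s.re}) ∧
  (∀ (m : ℤ) (s : ℂ), 1 < s.re → conj (LS m (conj s)) = LS m s) ∧
  (∀ (k : ℤ) (r : ℕ) (s : ℂ), r.Prime → r ≠ 2 → 1 < s.re →
    LS (k * (r : ℤ) ^ 2) s = LS k s * (1 - jo k r * (r : ℂ) ^ (-s)))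

def LOP : Prop :=
  (∀ (k : ℤ) (s : ℂ), k ≠ 0 → 1 < s.re → Lo k s = LS k s) ∧
  (∀ k : ℤ, Squarefree k → k ≠ 1 → Differentiable ℂ (Lo k)) ∧
  (∀ s : ℂ, s ≠ 1 → Lo 1 s = (1 - (2 : ℂ) ^ (-s)) * riemannZeta₁ s / (s - 1))

def LOB : Prop := ∀ (k : ℤ) (s : ℂ), Squarefree k → k ≠ 1 → 0 < s.re →
  ‖Lo k s‖ ≤ 4 * |(k : ℝ)| * ‖s‖ / s.re

/-! Primes -/

def PZ : Prop :=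
  (∀ x : ℝ, 0 < x → Summable (fun p : Nat.Primes => ((p : ℕ) : ℝ) ^ (-(1 + x))) ∧
    Real.exp (∑' p : Nat.Primes, ((p : ℕ) : ℝ) ^ (-(1 + x))) ≤ 1 + 1 / x) ∧
  (∃ C : ℝ, 0 < C ∧ ∀ s : ℂ, 0 < s.re → s.re ≤ 1 →
    Real.exp (∑' p : Nat.Primes, (((p : ℕ) : ℂ) ^ (-(1 + s))).re) ≤
      C * br s.im * (1 + 1 / ‖s‖))

def PL : Prop := ∃ C : ℝ, 0 < C ∧
  (∀ ε : ℝ, 0 < ε → ε ≤ 1 →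
    Summable (fun p : Nat.Primes => Real.log (p : ℕ) * ((p : ℕ) : ℝ) ^ (-(1 + ε))) ∧
      ∑' p : Nat.Primes, Real.log (p : ℕ) * ((p : ℕ) : ℝ) ^ (-(1 + ε)) ≤ C / ε) ∧
  (∀ (P : Finset ℕ) (lam τ : ℝ), (∀ p ∈ P, p.Prime ∧ (p : ℝ) ≤ Real.exp lam) → 0 ≤ lam → 0 ≤ τ →
    ∑ p ∈ P, min 1 (τ * Real.log p) / p ≤ Real.log (1 + lam * τ) + C) ∧
  (∀ (P : Finset ℕ) (lam : ℝ), (∀ p ∈ P, p.Prime ∧ (p : ℝ) ≤ Real.exp lam) → 0 ≤ lam →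
    ∑ p ∈ P, Real.log p / p ≤ lam + 2)

def PC : Prop :=
  (∃ c R₀ : ℝ, 0 < c ∧ 200 ≤ R₀ ∧ ∀ R : ℝ, R₀ ≤ R →
    c * R / Real.log R ≤ (((Ioc 100 ⌊R⌋₊).filter Nat.Prime).card : ℝ)) ∧
  (∀ lam : ℝ, 1 ≤ lam →
    |sg ((Ioc 2 ⌊Real.exp lam⌋₊).filter Nat.Prime) - Real.log lam| ≤ 7)

/-- Norm of an infinite product. -/
def PRD : Prop := ∀ u : Nat.Primes → ℂ, Summable (fun p => ‖u p‖) →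
  Summable (fun p => (u p).re + ‖u p‖ ^ 2 / 2) ∧
    ‖∏' p, (1 + u p)‖ ≤ Real.exp (∑' p, ((u p).re + ‖u p‖ ^ 2 / 2)) ∧
    ‖∏' p, (1 + u p)‖ ≤ Real.exp (∑' p, ‖u p‖)

/-! Poisson -/

/-- Poisson in real form; the tail bound for a Gaussian sum. -/
def PS : Prop :=
  (∀ a : ℝ, 0 < a →
    Summable (fun h : ℤ => Real.exp (-π * ((h : ℝ) * a) ^ 2)) ∧
      ∑' h : ℤ, Real.exp (-π * ((h : ℝ) * a) ^ 2) ≤ 1 + 1 / a) ∧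
  (∀ (X : ℝ) (n : ℕ), 0 < X → Odd n →
    Sg X n = X * T0 n + X / √(n0 n : ℝ) * ∑ e ∈ (n2 n).divisors,
      (ArithmeticFunction.moebius e : ℝ) / e * ∑' h : ℤ, if h = 0 then 0 else
        (jacobiSym (h * e) (n0 n) : ℝ) * Real.exp (-π * ((h : ℝ) * (X / (n0 n * e))) ^ 2))

def P2 : Prop := ∀ (X : ℝ) (n : ℕ), 0 < X → Odd n →
  Summable (fun m : ℤ => GX X m) ∧ ∑' m : ℤ, GX X m ≤ 1 + X ∧ |Sg X n - X * T0 n| ≤ √(n : ℝ)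

def PA : Prop := ∀ (X : ℝ) (n : ℕ), 0 < X → Odd n →
  HasSum (fun k : SF => X * Ap k X n) (Sg X n - X * T0 n)

def MEL : Prop := ∀ x σ : ℝ, 0 < x → 0 < σ → σ ≤ 7 →
  (Real.exp (-π * x ^ 2) : ℂ) = 1 / (2 * π) * Iv σ fun z => Gammaℝ z / 2 * (x : ℂ) ^ (-z)

def EP1 : Prop := ∀ (Q : Finset ℕ) (α β : ℕ → ℂ) (w : ℂ), (∀ p ∈ Q, p.Prime) → 1 < w.re →
  HasSum (fun j : ℕ => ((j : ℂ) + 1) ^ (-w) * ∏ p ∈ Q, if p ∣ j + 1 then β p else α p)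
    (riemannZeta w * ∏ p ∈ Q, (α p * (1 - (p : ℂ) ^ (-w)) + β p * (p : ℂ) ^ (-w)))

def PB : Prop := ∀ (k : ℤ) (X σ : ℝ) (n : ℕ), Squarefree k → 0 < X → 1 / 2 < σ → σ ≤ 6 → Odd n →
  (Ap k X n : ℂ) = Ak k X σ n

def P1 : Prop := ∀ (X : ℝ) (n : ℕ) (σ : ℤ → ℝ), 0 < X → Odd n → (∀ k, 1 / 2 < σ k ∧ σ k ≤ 6) →
  HasSum (fun k : SF => (X : ℂ) * Ak k X (σ k) n) ((Sg X n - X * T0 n : ℝ) : ℂ)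

/-- Size and continuity of the local data. -/
def TKB : Prop :=
  (∀ n : ℕ, Odd n → Tk 1 0 n = (T0 n : ℂ)) ∧
  (∀ (k : ℤ) (z : ℂ) (n : ℕ), 0 ≤ z.re → z.re ≤ 6 → n ≠ 0 → ‖Tk k z n‖ ≤ (n : ℝ) ^ 7) ∧
  (∀ (k : ℤ) (n : ℕ), Continuous fun z => Tk k z n) ∧
  (∀ n : ℕ, 0 ≤ T0 n ∧ T0 n ≤ 1 ∧ (n ≠ 0 → ¬ IsSquare n → T0 n = 0))

/-! Euler products -/

def E0 : Prop :=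
  (∀ (χ : ℕ → ℂ) (s₁ s₂ : ℂ), χ 1 = 1 → (∀ a b, χ (a * b) = χ a * χ b) →
    Summable (fun n => ‖po s₁ n * χ n‖) → Summable (fun n => ‖po s₂ n * χ n‖) →
    Summable (fun n => ‖Cf s₁ s₂ n * χ n‖) ∧
      ∑' n, Cf s₁ s₂ n * χ n = (∑' n, po s₁ n * χ n) ^ 2 * (∑' n, po s₂ n * χ n) ^ 2) ∧
  (∀ s₁ s₂ : ℂ, (Cf s₁ s₂).IsMultiplicative) ∧
  (∀ (s₁ s₂ : ℂ) (n : ℕ), ¬ Odd n → Cf s₁ s₂ n = 0) ∧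
  (∀ (s₁ s₂ : ℂ) (n : ℕ), s₁.re = 12 → s₂.re = 12 → ‖Cf s₁ s₂ n‖ ≤ (n : ℝ) ^ (-(19 / 2) : ℝ)) ∧
  (∀ n : ℕ, Continuous fun x : ℂ × ℂ => Cf x.1 x.2 n) ∧
  (∀ (m : ℤ) (s₁ s₂ : ℂ), s₁.re = 12 → s₂.re = 12 →
    HasSum (fun n : ℕ => Cf s₁ s₂ n * (jacobiSym m n : ℂ))
      (LS m (1 / 2 + s₁) ^ 2 * LS m (1 / 2 + s₂) ^ 2)) ∧
  (∀ (s₁ s₂ : ℂ) (p : ℕ) (y : ℤ), p.Prime → p ≠ 2 → 0 ≤ s₁.re → 0 ≤ s₂.re → y ∈ T3 →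
    HasSum (fun j : ℕ => Cf s₁ s₂ (p ^ j) * (y : ℂ) ^ j) (Fy s₁ s₂ p y))

/-- Algebra of `Ex` and `mon`. -/
def EXL : Prop :=
  (∀ (P : Finset ℕ) (μ f : ℕ → ℤ → ℂ),
    Ex P μ (fun x => ∏ p ∈ P, f p (x p)) = ∏ p ∈ P, ∑ y ∈ T3, μ p y * f p y) ∧
  (∀ (P : Finset ℕ) (μ f : ℕ → ℤ → ℝ),
    Ex P μ (fun x => ∏ p ∈ P, f p (x p)) = ∏ p ∈ P, ∑ y ∈ T3, μ p y * f p y) ∧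
  (∀ (P : Finset ℕ) (x : ℕ → ℤ) (l : ℕ), l.primeFactors ⊆ P →
    mon x l = ∏ p ∈ P, x p ^ l.factorization p) ∧
  (∀ (m : ℤ) (l : ℕ), l ≠ 0 → Odd l → mon (jv m) l = jacobiSym m l) ∧
  (∀ (x : ℕ → ℤ) (a b : ℕ), a ≠ 0 → b ≠ 0 → mon x (a * b) = mon x a * mon x b) ∧
  (∀ (P : Finset ℕ) (μ : ℕ → ℤ → ℂ) (c : ℕ → ℂ) (R : (ℕ → ℤ) → ℝ), (∀ x, 0 ≤ R x) →
    ‖Ex P (fun p y => μ p y * c p) (fun x => (R x : ℂ))‖ ≤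
      (∏ p ∈ P, ‖c p‖) * Ex P (fun p y => ‖μ p y‖) R) ∧
  (∀ (P : Finset ℕ) (ν : ℕ → ℤ → ℝ) (R R' : (ℕ → ℤ) → ℝ), (∀ p ∈ P, ∀ y, 0 ≤ ν p y) →
    (∀ x, R x ≤ R' x) → Ex P ν R ≤ Ex P ν R')

/-- Factorisation of `Ex` over disjoint blocks. -/
def EXF : Prop := ∀ (S : Finset ℕ) (Bl : ℕ → Finset ℕ) (ν : ℕ → ℤ → ℝ) (f : ℕ → ℝ → ℝ),
  (∀ i ∈ S, ∀ j ∈ S, i ≠ j → Disjoint (Bl i) (Bl j)) →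
  Ex (S.biUnion Bl) ν (fun x => ∏ i ∈ S, f i (Pb (Bl i) x)) =
    ∏ i ∈ S, Ex (Bl i) ν (fun x => f i (Pb (Bl i) x))

def E1 : Prop := ∀ (P : Finset ℕ) (l : ℕ) (k : ℤ) (z s₁ s₂ : ℂ), OP P → l ≠ 0 →
  l.primeFactors ⊆ P → 0 ≤ z.re → z.re ≤ 6 → s₁.re = 12 → s₂.re = 12 →
  Z1 l k z s₁ s₂ = Zk P (fun x => (mon x l : ℝ)) k z s₁ s₂

def LOC : Prop := ∃ (C : ℝ) (B : ℕ), 0 < C ∧ 1 ≤ B ∧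
  ∀ (p : ℕ) (k : ℤ) (z s₁ s₂ : ℂ), p.Prime → p ≠ 2 → UU z s₁ s₂ →
    ‖locv k z s₁ s₂ p 0 * fp k z s₁ s₂ p - 1 - Qp s₁ s₂ p + 2 * Up k z s₁ s₂ p‖ ≤
      C * (p : ℝ) ^ (-(27 / 20) : ℝ) ∧
    ∀ v : ℕ, 1 ≤ v → ‖locv k z s₁ s₂ p v * fp k z s₁ s₂ p‖ ≤ (p : ℝ) ^ B

def LOC0 : Prop := ∃ C : ℝ, 0 < C ∧
  (∀ (p : ℕ) (s₁ s₂ : ℂ), p.Prime → p ≠ 2 → 0 ≤ s₁.re → 0 ≤ s₂.re →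
    ‖locv 1 0 s₁ s₂ p 0 - 1 - Qp s₁ s₂ p‖ ≤ C / (p : ℝ) ^ 2) ∧
  (∀ (p : ℕ) (z a₁ a₂ : ℂ) (ε : ℝ), p.Prime → p ≠ 2 → ε ≤ 1 / 100 → ‖a₁‖ ≤ ε → ‖a₂‖ ≤ ε →
    ε * Real.log p ≤ 1 →
    ‖fp 1 z (z + a₁) (z + a₂) p‖ ≤
      Real.exp (-4 / p + C * (ε * Real.log p / p + (p : ℝ) ^ (-(3 / 2) : ℝ))))

def HA : Prop := ∀ (P : Finset ℕ) (R : (ℕ → ℤ) → ℝ) (k : ℤ), OP P →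
  ContinuousOn (fun x : ℂ × ℂ × ℂ => Hh P R k x.1 x.2.1 x.2.2) {x | UU x.1 x.2.1 x.2.2} ∧
  ∀ z s₁ s₂ : ℂ, UU z s₁ s₂ →
    DifferentiableAt ℂ (fun u => Hh P R k z u s₂) s₁ ∧
    DifferentiableAt ℂ (fun u => Hh P R k z s₁ u) s₂ ∧
    DifferentiableAt ℂ (fun u => Hh P R k u (u + (s₁ - z)) (u + (s₂ - z))) z

def H1 : Prop := ∃ (C : ℝ) (B : ℕ), 0 < C ∧ 1 ≤ B ∧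
  ∀ (P : Finset ℕ) (R : (ℕ → ℤ) → ℝ) (Y : ℝ) (k : ℤ) (z s₁ s₂ : ℂ), OP P → HasLen P B R Y →
    UU z s₁ s₂ →
    ‖Hh P R k z s₁ s₂‖ ≤ C * Y * (1 + 1 / s₁.re) ^ 3 * (1 + 1 / (s₁.re + s₂.re)) ^ 4 *
      (1 + 1 / s₂.re) ^ 3 * (1 + 1 / (z.re + s₁.re)) ^ 2 * (1 + 1 / (z.re + s₂.re)) ^ 2

def E2 : Prop := ∀ (P : Finset ℕ) (R : (ℕ → ℤ) → ℝ) (k : ℤ) (z s₁ s₂ : ℂ), OP P → k ≠ 0 →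
  0 < z.re → z.re ≤ 6 → s₁.re = 12 → s₂.re = 12 → Zk P R k z s₁ s₂ = Zc P R k z s₁ s₂

def MG : Prop := ∃ C : ℝ, 0 < C ∧ ∀ (p : ℕ) (z s₁ s₂ : ℂ) (θ : ℝ), p.Prime → p ≠ 2 →
  0 ≤ z.re → 0 ≤ s₁.re → 0 ≤ s₂.re → (z.re + s₁.re + s₂.re) * Real.log p ≤ 5 → |θ| ≤ 36 →
  ∑ y ∈ T3, ‖mu 1 z s₁ s₂ p y‖ * Real.exp (θ * y / √(p : ℝ)) ≤
    Real.exp ((10 + 4 * θ + θ ^ 2 / 2) / p +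
      C * (min 1 ((‖z‖ + ‖s₁‖ + ‖s₂‖) * Real.log p) / p + (p : ℝ) ^ (-(3 / 2) : ℝ)))

def EXB : Prop := ∃ (C : ℝ) (c : ℕ), 0 < C ∧
  ∀ (P : Finset ℕ) (B : ℕ) (R : (ℕ → ℤ) → ℝ) (lam T Y : ℝ) (z s₁ s₂ : ℂ), Tw P B R lam T Y →
    0 ≤ z.re → 0 ≤ s₁.re → 0 ≤ s₂.re → (z.re + s₁.re + s₂.re) * lam ≤ 5 →
    Ex P (fun p y => ‖mu 1 z s₁ s₂ p y‖) R ≤
      C * T * Real.exp (10 * sg P) * (1 + lam * (‖z‖ + ‖s₁‖ + ‖s₂‖)) ^ c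

def ZD : Prop := ∃ (C : ℝ) (c : ℕ), 0 < C ∧
  ∀ (P : Finset ℕ) (B : ℕ) (R : (ℕ → ℤ) → ℝ) (lam T Y ε : ℝ) (s₁ s₂ : ℂ), Tw P B R lam T Y →
    0 < ε → ε ≤ 1 / 100 → ε * lam ≤ 1 → s₁.re = ε → s₂.re = ε →
    ‖Zk P R 1 0 s₁ s₂‖ ≤ C * T * (1 + lam * |s₁.im|) ^ c * (1 + lam * |s₂.im|) ^ c / ε ^ 4 *
      (br s₁.im * (1 + 1 / ‖s₁‖)) ^ 3 * (br s₂.im * (1 + 1 / ‖s₂‖)) ^ 3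

def ZDA : Prop := ∀ (P : Finset ℕ) (R : (ℕ → ℤ) → ℝ) (a b : ℝ), OP P → 0 < a → a ≤ b →
  Nice2 a b (Zk P R 1 0) ∧
    ∃ M : ℝ, ∀ s₁ ∈ Strip a b, ∀ s₂ ∈ Strip a b, ‖Zk P R 1 0 s₁ s₂‖ ≤ M

def HC : Prop := ∃ (C : ℝ) (c : ℕ), 0 < C ∧
  ∀ (P : Finset ℕ) (B : ℕ) (R : (ℕ → ℤ) → ℝ) (lam T Y ε : ℝ) (z s₁ s₂ : ℂ), Tw P B R lam T Y →
    0 < ε → ε ≤ 1 / 100 → ε * lam ≤ 1 → z.re = ε → ‖s₁ - z‖ ≤ ε / 2 → ‖s₂ - z‖ ≤ ε / 2 →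
    ‖Hh P R 1 z s₁ s₂‖ ≤ C * T * (1 + lam * |z.im|) ^ c * (br z.im * (1 + 1 / ‖z‖)) ^ 6

end Pool.Agent.QM
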