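import Pool.Agent.P.MP_ea46f5_nt.QM.S1

/-! Statements, part 2: twisted mean value, moments, multi-scale argument. -/

namespace Pool.Agent.QM

open Complex MeasureTheory Finset
open scoped Real ComplexConjugate

/-! Expansion -/

def EXA : Prop := ∀ (w : ℂ → ℂ) (X : ℝ) (l : ℕ), LI w → 0 < X → Odd l →
  HasSum (fun m : ℤ => ((GX X m * ‖Dw w m‖ ^ 2 * (jacobiSym m l : ℝ) : ℝ) : ℂ)) (PsI w X l)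

/-- Integrability of the pieces of the expansion. -/
def INT : Prop := ∀ (w : ℂ → ℂ) (l : ℕ) (k : ℤ), LI w → l ≠ 0 →
  (∀ z : ℂ, 0 ≤ z.re → z.re ≤ 6 →
    Integrable (fun t : ℝ × ℝ =>
      w (12 + t.1 * I) * wt w (12 + t.2 * I) * Z1 l k z (12 + t.1 * I) (12 + t.2 * I))) ∧
  (∀ X σ : ℝ, k ≠ 0 → 0 < X → 1 / 2 < σ → σ ≤ 6 →
    Integrable (fun y : ℝ => Kz k X (σ + y * I) * J1 w l k (σ + y * I)))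

def EXC : Prop := ∀ (w : ℂ → ℂ) (X K : ℝ) (l : ℕ) (σ : ℤ → ℝ), LI w → 0 < X → Odd l →
  (∀ k, 1 / 2 < σ k ∧ σ k ≤ 6) → (∀ k : ℤ, K < |(k : ℝ)| → σ k = 6) →
  HasSum (fun k : SF => (X : ℂ) * (1 / (2 * π) * Iv (σ k) fun z => Kz k X z * J1 w l k z))
    (PsI w X l - X * J1 w l 1 0)

def TME : Prop := ∀ (w : ℂ → ℂ) (P : Finset ℕ) (B : ℕ) (R : (ℕ → ℤ) → ℝ) (X K Y σ₁ b : ℝ),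
  LI w → 0 < X → OP P → HasLen P B R Y → (∀ x, 0 ≤ R x) → 1 / 2 < σ₁ → σ₁ ≤ 6 →
  Integrable (fun y : ℝ => Kz 1 X (σ₁ + y * I) * Jk w P R 1 (σ₁ + y * I)) ∧
  ((∀ F : Finset ℤ, SQ F → ∑ k ∈ F, ‖Yk w P R X k (sk K k)‖ ≤ b) →
    ∀ F : Finset ℤ, ∑ m ∈ F, GX X m * ‖Dw w m‖ ^ 2 * R (jv m) ≤
      X * (‖Jk w P R 1 0‖ + ‖Yk w P R X 1 σ₁‖ + b))

/-- Consequences of `Far` and `Near` for `w` and `wt w`. -/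
def FW : Prop :=
  (∀ (w : ℂ → ℂ) (ε N t₀ W : ℝ), Far w ε N t₀ W → Far (wt w) ε N (-t₀) W) ∧
  (∀ (w : ℂ → ℂ) (ε N t₀ W : ℝ), 0 < ε → ε ≤ 1 → Far w ε N t₀ W →
    DifferentiableOn ℂ w {s | 0 < s.re} ∧ LI w ∧ (0 < N → 0 ≤ W)) ∧
  (∀ (w : ℂ → ℂ) (ε lam t₀ W : ℝ) (α C₀ : ℕ), Near w ε lam t₀ α C₀ W →
    Near (wt w) ε lam t₀ α C₀ W) ∧
  (∀ (w : ℂ → ℂ) (ε N t₀ W b : ℝ), 0 < ε → 1 ≤ b → Far w ε N t₀ W →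
    Far (fun s => w s * (b : ℂ) ^ (-s)) ε N t₀ W) ∧
  (∀ (w : ℂ → ℂ) (ε lam t₀ W b : ℝ) (α C₀ : ℕ), 0 < ε → 1 ≤ b → Near w ε lam t₀ α C₀ W →
    Near (fun s => w s * (b : ℂ) ^ (-s)) ε lam t₀ α C₀ W)

def TMD : Prop := ∃ (C : ℝ) (c : ℕ), 0 < C ∧
  ∀ (w : ℂ → ℂ) (P : Finset ℕ) (B : ℕ) (R : (ℕ → ℤ) → ℝ) (lam T Y ε N t₀ W₀ W₁ : ℝ) (α C₀ : ℕ),
    Tw P B R lam T Y → 0 < ε → ε ≤ 1 / 100 → ε * lam ≤ 1 → 1 ≤ N → α ≤ 1 → c ≤ C₀ → 0 ≤ W₀ →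
    Far w ε N t₀ W₁ → Near w ε lam t₀ α C₀ W₀ →
    ‖Jk w P R 1 0‖ ≤ C * br t₀ ^ 8 * T * W₀ ^ 2 * ε ^ (2 * α) / ε ^ 8

def TK1 : Prop := ∃ (C : ℝ) (B c : ℕ), 0 < C ∧ 1 ≤ B ∧
  ∀ (w : ℂ → ℂ) (P : Finset ℕ) (R : (ℕ → ℤ) → ℝ) (Y ε N t₀ W : ℝ) (k : ℤ) (z : ℂ),
    OP P → HasLen P B R Y → 0 < ε → ε ≤ 1 / 100 → 1 ≤ N → Far w ε N t₀ W →
    Squarefree k → k ≠ 1 → 3 / 4 ≤ z.re → z.re ≤ 6 →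
    ‖Jk w P R k z‖ ≤ C * Y * W ^ 2 * N ^ (2 * z.re - 1) * br t₀ ^ c * br z.im ^ c *
      (Lw k (t₀ - z.im) + Lw k (-t₀ - z.im))

def TK2 : Prop := ∀ A : ℕ, ∃ C : ℝ, 0 < C ∧ ∀ (K M u : ℝ) (F : Finset ℤ), Dual A K M → SQ F →
  ∑ k ∈ F, om (|(k : ℝ)| / K) * Lw k u ≤ C * M * br u ^ A

def TMK : Prop := ∃ (B c : ℕ), 1 ≤ B ∧ ∀ A : ℕ, ∃ C : ℝ, 0 < C ∧
  ∀ (w : ℂ → ℂ) (P : Finset ℕ) (R : (ℕ → ℤ) → ℝ) (Y ε X N t₀ W M : ℝ) (F : Finset ℤ),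
    OP P → HasLen P B R Y → 0 < ε → ε ≤ 1 / 100 → 1 ≤ X → 1 ≤ N → Far w ε N t₀ W →
    Dual A (N ^ 2 / X) M → SQ F →
    ∑ k ∈ F, ‖Yk w P R X k (sk (N ^ 2 / X) k)‖ ≤ C * Y * W ^ 2 * br t₀ ^ (c + A) * M / N

/-- The four-term decomposition for `k = 1`. -/
def TA1 : Prop := ∀ (w : ℂ → ℂ) (P : Finset ℕ) (B : ℕ) (R : (ℕ → ℤ) → ℝ) (Y ε N t₀ W : ℝ) (z : ℂ),
  OP P → HasLen P B R Y → 0 < ε → ε ≤ 1 / 100 → 1 ≤ N → Far w ε N t₀ W → z.re = 1 / 2 + ε →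
  Jk w P R 1 z = I2 ε (fun s₁ s₂ => w s₁ * wt w s₂ * Zc P R 1 z s₁ s₂) +
    Iv ε (fun s₁ => Oc z (ε / 2) fun s₂ => w s₁ * wt w s₂ * Zc P R 1 z s₁ s₂) +
    Iv ε (fun s₂ => Oc z (ε / 2) fun s₁ => w s₁ * wt w s₂ * Zc P R 1 z s₁ s₂) + Jc w P R ε z

def TA2 : Prop := ∃ (C : ℝ) (B c : ℕ), 0 < C ∧ 1 ≤ B ∧
  ∀ (w : ℂ → ℂ) (P : Finset ℕ) (R : (ℕ → ℤ) → ℝ) (Y ε N t₀ W : ℝ) (z : ℂ),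
    OP P → HasLen P B R Y → 0 < ε → ε ≤ 1 / 100 → 1 ≤ N → Far w ε N t₀ W → z.re = 1 / 2 + ε →
    ‖Jk w P R 1 z - Jc w P R ε z‖ ≤ C * Y * W ^ 2 * br t₀ ^ c * br z.im ^ c *
      (N ^ (2 * ε) / ε ^ 10 + N ^ (1 / 2 + 3 * ε) / ε ^ 4)

def JCA : Prop := ∀ (w : ℂ → ℂ) (P : Finset ℕ) (B : ℕ) (R : (ℕ → ℤ) → ℝ) (Y ε N t₀ W : ℝ),
  OP P → HasLen P B R Y → 0 < ε → ε ≤ 1 / 100 → 1 ≤ N → Far w ε N t₀ W →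
  DifferentiableOn ℂ (Jc w P R ε) (OStrip (ε / 2) 6) ∧ Jc w P R ε (1 / 2) = 0 ∧
    ∃ M : ℝ, ∀ z ∈ Strip ε (1 / 2 + ε), ‖Jc w P R ε z‖ ≤ M

def TC1 : Prop := ∀ (Φ : ℂ → ℂ) (X ε M : ℝ), 1 ≤ X → 0 < ε → ε ≤ 1 / 100 →
  DifferentiableOn ℂ Φ (OStrip (ε / 2) 6) → Φ (1 / 2) = 0 →
  (∀ z ∈ Strip ε (1 / 2 + ε), ‖Φ z‖ ≤ M) →
  Integrable (fun y : ℝ =>
    Kz 1 X (((1 / 2 + ε : ℝ) : ℂ) + y * I) * Φ (((1 / 2 + ε : ℝ) : ℂ) + y * I)) ∧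
  Iv (1 / 2 + ε) (fun z => Kz 1 X z * Φ z) = Iv ε (fun z => Kz 1 X z * Φ z)

def TC2 : Prop := ∃ (C : ℝ) (c : ℕ), 0 < C ∧
  ∀ (w : ℂ → ℂ) (P : Finset ℕ) (B : ℕ) (R : (ℕ → ℤ) → ℝ) (lam T Y ε X t₀ W₀ : ℝ) (α C₀ : ℕ),
    Tw P B R lam T Y → 0 < ε → ε ≤ 1 / 100 → ε * lam ≤ 1 → 1 ≤ X → α ≤ 1 → c ≤ C₀ → 0 ≤ W₀ →
    Near w ε lam t₀ α C₀ W₀ →
    ‖Iv ε fun z => Kz 1 X z * Jc w P R ε z‖ ≤ C * T * W₀ ^ 2 * ε ^ (2 * α) / ε ^ 8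

def TM : Prop := ∃ (C₀ B c : ℕ), 1 ≤ B ∧ ∀ A : ℕ, ∃ C : ℝ, 0 < C ∧
  ∀ (w : ℂ → ℂ) (P : Finset ℕ) (R : (ℕ → ℤ) → ℝ) (lam T Y ε X N t₀ W₀ W₁ M : ℝ) (α : ℕ)
    (F : Finset ℤ), Tw P B R lam T Y → 0 < ε → ε ≤ 1 / 100 → ε * lam ≤ 1 → 1 ≤ X → 1 ≤ N →
    α ≤ 1 → 0 ≤ W₀ → Far w ε N t₀ W₁ → Near w ε lam t₀ α C₀ W₀ → Dual A (N ^ 2 / X) M →
    ∑ m ∈ F, GX X m * ‖Dw w m‖ ^ 2 * R (jv m) ≤ C * br t₀ ^ c *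
      (X * T * W₀ ^ 2 * ε ^ (2 * α) / ε ^ 8 + Y * W₁ ^ 2 * (X / N * M * br t₀ ^ A +
        N ^ (3 * ε) * √(X * N) / ε ^ 5 + N ^ (3 * ε) * √X / ε ^ 11))

/-! Characters, functional equation -/

def KR : Prop := ∀ k : ℤ, Squarefree k → k ≠ 1 →
  (∀ n : ℕ, Odd n → (kron (disc k) n : ℂ) = jo k n) ∧ kron (disc k) 2 = gam k ∧
  (∀ a b : ℕ, kron (disc k) (a * b) = kron (disc k) a * kron (disc k) b) ∧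
  (∀ n : ℕ, kron (disc k) (n + (disc k).natAbs) = kron (disc k) n) ∧
  kron (disc k) ((disc k).natAbs - 1) = (-1) ^ par k ∧ 1 < (disc k).natAbs ∧
  (∀ n : ℕ, ¬ n.Coprime (disc k).natAbs → kron (disc k) n = 0) ∧
  (∀ n : ℕ, n.Coprime (disc k).natAbs → kron (disc k) n ^ 2 = 1)

/-- Primitivity in elementary form. -/
def PRI : Prop := ∀ k : ℤ, Squarefree k → k ≠ 1 → ∀ p : ℕ, p.Prime → p ∣ (disc k).natAbs →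
  ∃ n : ℕ, n ≡ 1 [MOD (disc k).natAbs / p] ∧ kron (disc k) n = -1

def FE : Prop := ∀ k : ℤ, Squarefree k → k ≠ 1 →
  (∃ W : ℂ, W ^ 2 = 1 ∧ ∀ s : ℂ, 0 < s.re → s.re < 1 → Lam k (1 - s) = W * Lam k s) ∧
    Lhalf (disc k) = Lf k (1 / 2)

def BRG : Prop :=
  (∀ d : ℤ, IsFund d → ∃ k : ℤ, Squarefree k ∧ k ≠ 1 ∧ disc k = d) ∧
  (∀ k : ℤ, |(k : ℝ)| ≤ qk k ∧ qk k ≤ 4 * |(k : ℝ)| ∧ par k ≤ 1 ∧ gam k ∈ T3) ∧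
  (∀ (k : ℤ) (s : ℂ), 1 / 4 ≤ s.re →
    ‖Lo k s‖ ≤ 2 * ‖Lf k s‖ ∧ ‖Lf k s‖ ≤ 7 * ‖Lo k s‖) ∧
  (∀ k : ℤ, Squarefree k → k ≠ 1 → DifferentiableOn ℂ (Lf k) {s | 0 < s.re})

def HB : Prop := ∃ (h : ℕ) (C : ℝ), 0 < C ∧ ∀ (a : ℕ) (γ : ℤ) (t : ℝ), a ≤ 1 → γ ∈ T3 →
  (∀ s : ℂ, -(1 / 4) ≤ s.re → s.re ≤ 13 →
    ‖hh a γ t s‖ ≤ C * br t ^ h * Real.exp (-s.im ^ 2 / 2)) ∧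
  (∃ g : ℂ → ℂ, DifferentiableOn ℂ g {s | -(1 / 2) < s.re} ∧
    ∀ s : ℂ, hh a γ t s = (s - (1 / 2 - t * I)) ^ 2 * g s) ∧
  hh a γ t 0 = 1 / (1 - γ * (2 : ℂ) ^ (-(1 / 2 + t * I : ℂ))) ^ 2

def AFE : Prop := ∀ (k : ℤ) (t : ℝ), Squarefree k → k ≠ 1 →
  2 * π * ‖Lf k (1 / 2 + t * I)‖ ^ 2 ≤ ‖Dq t (fun s => 1 / s) k‖ + ‖Dq (-t) (fun s => 1 / s) k‖

def WT : Prop := ∃ (h : ℕ) (C : ℝ), 0 < C ∧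
  ∀ (a : ℕ) (γ : ℤ) (t y X Δ lam V₀ V₁ : ℝ) (φ : ℂ → ℂ) (α C₀ : ℕ), a ≤ 1 → γ ∈ T3 →
    100 ≤ Real.log X → 1 ≤ X → 0 ≤ lam → 0 ≤ V₀ →
    (FarP φ (1 / Real.log X) Δ V₁ → Far (ww a γ t (phy φ y) X) (1 / Real.log X)
      (X * Real.exp (-Δ)) t (C * br t ^ h * V₁ * Real.exp (-|y|))) ∧
    (NearP φ (1 / Real.log X) lam t α C₀ V₀ → Near (ww a γ t (phy φ y) X) (1 / Real.log X) lam t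
      α C₀ (C * br t ^ h * V₀ * Real.exp (-|y|)))

def SEP : Prop := ∃ C : ℝ, 0 < C ∧
  ∀ (F : Finset ℤ) (G : ℤ → ℂ → ℂ) (ρ v : ℤ → ℝ) (t M : ℝ),
    (∀ k ∈ F, LI (G k) ∧ 0 ≤ ρ k ∧ |v k| ≤ 2) →
    (∀ y : ℝ, ∑ k ∈ F, ρ k * ‖Iv 12 fun s => G k s * cexp ((s - t * I + y * I) ^ 2 / 4)‖ ^ 2 ≤
      M * Real.exp (-2 * |y|)) →
    ∑ k ∈ F, ρ k * ‖Iv 12 fun s => G k s * cexp (v k * (s - t * I))‖ ^ 2 ≤ C * M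

/-- Linearity of `Dq` in the cut-off. -/
def DL : Prop := ∀ (t : ℝ) (k : ℤ) (n : ℕ) (φ : ℂ → ℂ) (ψ : ℕ → ℂ → ℂ) (ε : ℝ), k ≠ 0 → ε ≤ 1 →
  (∀ j, j < n → ∃ V, FarP (ψ j) ε 0 V) →
  (∀ s : ℂ, s.re = 12 → φ s = ∑ j ∈ range n, ψ j s) →
  Dq t φ k = ∑ j ∈ range n, Dq t (ψ j) k

def FL : Prop := ∃ C R₀ : ℝ, 0 < C ∧ 200 ≤ R₀ ∧
  ∀ (w : ℂ → ℂ) (X R M : ℝ) (F : Finset ℤ), LI w → 0 < X → R₀ ≤ R →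
    (∀ k ∈ F, Squarefree k ∧ |(k : ℝ)| ≤ X) →
    (∀ b : ℝ, 1 ≤ b → ∀ F' : Finset ℤ,
      ∑ m ∈ F', GX (X * R ^ 2) m * ‖Dw (fun s => w s * (b : ℂ) ^ (-s)) m‖ ^ 2 ≤ M) →
    ∑ k ∈ F, ‖Dw w k‖ ^ 2 ≤ C * (Real.log R / R) * M

/-- From a bound for the fixed weights to a bound for `Dq`. -/
def SQD : Prop := ∃ C : ℝ, 0 < C ∧
  ∀ (φ : ℂ → ℂ) (ρ : ℤ → ℝ) (X t M ε V : ℝ), 1 ≤ X → ε ≤ 1 → FarP φ ε 0 V → (∀ k, 0 ≤ ρ k) →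
    (∀ (a : ℕ) (γ : ℤ) (y : ℝ), a ≤ 1 → γ ∈ T3 →
      ∑ k ∈ Sq X, ρ k * ‖Dw (ww a γ t (phy φ y) X) k‖ ^ 2 ≤ M * Real.exp (-2 * |y|)) →
    ∑ k ∈ Sq X, ρ k * ‖Dq t φ k‖ ^ 2 ≤ C * M

def TQ : Prop := ∃ (C₀ B c : ℕ), 1 ≤ B ∧ ∀ A : ℕ, ∃ C : ℝ, 0 < C ∧
  ∀ (φ : ℂ → ℂ) (P : Finset ℕ) (R : (ℕ → ℤ) → ℝ) (lam T Y X Δ t V₀ V₁ M : ℝ) (α : ℕ),
    Tw P B R lam T Y → 1 ≤ X → 100 ≤ Real.log X → lam ≤ Real.log X → 0 ≤ Δ → Δ ≤ Real.log X →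
    α ≤ 1 → 0 ≤ V₀ → FarP φ (1 / Real.log X) Δ V₁ → NearP φ (1 / Real.log X) lam t α C₀ V₀ →
    Dual A (X * Real.exp (-2 * Δ)) M →
    ∑ k ∈ Sq X, R (jv k) * ‖Dq t φ k‖ ^ 2 ≤ C * br t ^ c *
      (X * T * V₀ ^ 2 * Real.log X ^ 8 / Real.log X ^ (2 * α) + Y * V₁ ^ 2 *
        (Real.exp Δ * M * br t ^ A + Real.log X ^ 5 * X * Real.exp (-Δ / 2) +
          Real.log X ^ 11 * √X))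

def TQF : Prop := ∃ (c : ℕ) (R₀ : ℝ), 200 ≤ R₀ ∧ ∀ A : ℕ, ∃ C : ℝ, 0 < C ∧
  ∀ (φ : ℂ → ℂ) (X R t V₀ V₁ M : ℝ) (α : ℕ), 1 ≤ X → 100 ≤ Real.log X → R₀ ≤ R → α ≤ 1 →
    0 ≤ V₀ → FarP φ (1 / Real.log X) 0 V₁ → NearP φ (1 / Real.log X) 0 t α 0 V₀ →
    Dual A (X / R ^ 2) M →
    ∑ k ∈ Sq X, ‖Dq t φ k‖ ^ 2 ≤ C * br t ^ c * (Real.log R / R) *
      (X * R ^ 2 * V₀ ^ 2 * Real.log X ^ 8 / Real.log X ^ (2 * α) + V₁ ^ 2 *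
        (R ^ 2 * M * br t ^ A + Real.log X ^ 5 * X * R + Real.log X ^ 11 * √X * R))

/-- The trivial twist. -/
def TW0 : Prop := ∀ B : ℕ, Tw ∅ B (fun _ => 1) 0 1 1

/-! Fourth moment -/

def MT : Prop := ∃ C : ℝ, 0 < C ∧ ∀ (A : ℕ) (μ Y K : ℝ), 0 ≤ μ → 1 ≤ Y → 0 < K → H4 A μ Y →
  Dual A K (C * μ * K * lg K ^ 10 * max 1 (K / Y) ^ 4)

def TRV : Prop := ∃ C : ℝ, 0 < C ∧ ∀ Z t : ℝ, 1 ≤ Z →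
  M4 Z t ≤ C * Z ^ 5 * br t ^ 4 ∧ ((Sq Z).card : ℝ) ≤ 5 * Z

/-- The short part of the step; `δ` is the gain. -/
def STS : Prop := ∃ c : ℕ, ∀ (A B' : ℕ) (δ : ℝ), c ≤ B' → c ≤ A → 0 < δ → ∃ C Z₀ : ℝ, 0 < C ∧
  ∀ μ Y X t : ℝ, 0 ≤ μ → 1 ≤ Y → H4 A μ Y → Z₀ ≤ X → br t ^ (2 * B') ≤ X →
    ∑ k ∈ Sq X, ‖Dq t (phs (Real.log (Real.log X ^ 3 * br t ^ B'))) k‖ ^ 2 ≤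
      (C + δ * μ) * X * lg X ^ 10 * br t ^ A * max 1 (X / Y) ^ 4

def STM : Prop := ∃ c : ℕ, ∀ (A B' : ℕ) (δ : ℝ), c ≤ B' → 2 * B' ≤ A → 0 < δ → ∃ C Z₀ : ℝ, 0 < C ∧
  ∀ μ Y X t : ℝ, 0 ≤ μ → 1 ≤ Y → H4 A μ Y → Z₀ ≤ X →
    ∑ k ∈ Sq X, ‖Dq t (phm (Real.log (Real.log X ^ 3 * br t ^ B'))) k‖ ^ 2 ≤
      (C + δ * μ) * X * lg X ^ 10 * br t ^ A * max 1 (X / Y) ^ 4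

def STEP : Prop := ∃ (A : ℕ) (C Z₀ : ℝ), 4 ≤ A ∧ 0 < C ∧
  ∀ μ Y X t : ℝ, 0 ≤ μ → 1 ≤ Y → H4 A μ Y → Z₀ ≤ X →
    M4 X t ≤ (C + μ / 2) * X * lg X ^ 10 * br t ^ A * max 1 (X / Y) ^ 4

def FOUR : Prop := ∃ (A : ℕ) (C : ℝ), 0 < C ∧ ∀ K : ℝ, 0 < K → Dual A K (C * K * lg K ^ 10)

/-! Second moment -/

def G0B : Prop := ∃ C : ℝ, 0 < C ∧ ∀ (a : ℕ) (γ : ℤ), a ≤ 1 → γ ∈ T3 →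
  DifferentiableOn ℂ (g0 a γ) {s | 0 < s.re} ∧
    ∀ s : ℂ, 0 < s.re → s.re ≤ 13 → ‖g0 a γ s‖ ≤ C * Real.exp (-s.im ^ 2 / 2) / ‖s‖

def AF1 : Prop := ∀ k : ℤ, Squarefree k → k ≠ 1 →
  π * ‖Lf k (1 / 2)‖ ≤
    ‖Iv 12 fun s => g0 (par k) (gam k) s * (qk k : ℂ) ^ (s / 2) * LS k (1 / 2 + s)‖

def VB : Prop := ∀ δ : ℝ, 0 < δ → ∃ C : ℝ, 0 < C ∧ ∀ (a : ℕ) (γ : ℤ) (X y : ℝ), a ≤ 1 → γ ∈ T3 →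
  1 ≤ X → 100 ≤ Real.log X →
  (∀ n : ℕ, n ≠ 0 →
    ‖Vn a γ X y n‖ ≤ C * Real.exp (-|y|) * Real.log X ^ δ * (n : ℝ) ^ (-(1 / Real.log X)) ∧
    ‖Vn a γ X y n‖ ≤ C * Real.exp (-|y|) * X / (n : ℝ) ^ 2) ∧
  ∀ m : ℤ, (Iv 12 fun s => w1 a γ X y s * LS m (1 / 2 + s)) =
    ∑' n : ℕ, jo m n * (n : ℂ) ^ (-(1 / 2 : ℂ)) * Vn a γ X y n

def QF : Prop := ∃ C : ℝ, 0 < C ∧ ∀ (V : ℕ → ℂ) (X ε W : ℝ) (F : Finset ℤ), 1 ≤ X → 0 < ε → ε ≤ 1 →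
  0 ≤ W → (∀ n : ℕ, n ≠ 0 → ‖V n‖ ≤ W * (n : ℝ) ^ (-ε) ∧ ‖V n‖ ≤ W * X / (n : ℝ) ^ 2) →
  ∑ m ∈ F, GX X m * ‖∑' n : ℕ, jo m n * (n : ℂ) ^ (-(1 / 2 : ℂ)) * V n‖ ^ 2 ≤ C * W ^ 2 * X / ε ^ 3

def SEC : Prop := ∀ δ : ℝ, 0 < δ → ∃ C : ℝ, 0 < C ∧ ∀ X : ℝ, 1 ≤ X → 100 ≤ Real.log X →
  ∑ k ∈ Sq X, ‖Lf k (1 / 2)‖ ^ 2 ≤ C * X * Real.log X ^ (3 + δ)

/-! Truncated exponentials -/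

def TE : Prop :=
  (∀ (l : ℕ) (x : ℝ), 1 ≤ l → |x| ≤ l / 8 → |Et l x - Real.exp x| ≤ Real.exp x / 2 ^ l) ∧
  (∀ (l : ℕ) (x : ℝ), 1 ≤ l → Et l x ^ 2 ≤ (1 + 1 / 2 ^ l) ^ 2 * Real.exp (2 * x) +
    Real.exp (-2 * l) * (Real.exp (18 * x) + Real.exp (-18 * x))) ∧
  (∀ (l : ℕ) (x : ℝ), 1 ≤ l →
    (40 * x / l) ^ (2 * l) ≤ Real.exp (-2 * l) * (Real.exp (80 * x) + Real.exp (-80 * x)))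

def HRP : Prop := ∃ C : ℝ, 0 < C ∧
  ∀ (S : Finset ℕ) (Bl : ℕ → Finset ℕ) (l : ℕ → ℕ) (β : ℝ), Blk S Bl l → 0 ≤ β → β ≤ 2 →
    HR (S.biUnion Bl) (RR S Bl l (-β / 2)) (C * Real.exp ((β ^ 2 / 2 - 4 * β) * sg (S.biUnion Bl)))

def Z0 : Prop := ∀ (P : Finset ℕ) (B : ℕ) (R : (ℕ → ℤ) → ℝ) (X Y : ℝ) (F : Finset ℤ), OP P →
  1 ≤ B → HasLen P B R Y → (∀ x, 0 ≤ R x) → 0 < X →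
  ∑ m ∈ F, GX X m * R (jv m) ≤ X * Ex P mu0 R + Y

def Z0E : Prop := ∃ C : ℝ, 0 < C ∧
  ∀ (S : Finset ℕ) (Bl : ℕ → Finset ℕ) (l : ℕ → ℕ) (κ : ℝ), 0 ≤ κ → κ ≤ 4 →
    (Blk S Bl l → Ex (S.biUnion Bl) mu0 (RR S Bl l (κ / 2)) ≤
      C * Real.exp (κ ^ 2 / 2 * sg (S.biUnion Bl))) ∧
    ∀ j : ℕ, j ∉ S → Blk (insert j S) Bl l →
      Ex ((insert j S).biUnion Bl) mu0 (fun x => RR S Bl l (κ / 2) x * QQ (Bl j) (l j) x) ≤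
        C * Real.exp (κ ^ 2 / 2 * sg (S.biUnion Bl)) * Real.exp (-(l j : ℝ))

def LEN : Prop :=
  (∀ (P P' : Finset ℕ) (B B' : ℕ) (R : (ℕ → ℤ) → ℝ) (Y Y' : ℝ), HasLen P B R Y → P ⊆ P' → B' ≤ B →
    Y ≤ Y' → HasLen P' B' R Y') ∧
  (∀ (P : Finset ℕ) (B : ℕ) (R : (ℕ → ℤ) → ℝ) (Y : ℝ), HasLen P B R Y →
    0 ≤ Y ∧ ∀ B' : ℕ, ∃ Y', HasLen P B' R Y') ∧
  (∀ (P : Finset ℕ) (B : ℕ) (R R' : (ℕ → ℤ) → ℝ) (Y Y' : ℝ), HasLen P B R Y → HasLen P B R' Y' →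
    HasLen P B (fun x => R x * R' x) (Y * Y')) ∧
  (∀ (S : Finset ℕ) (Bl : ℕ → Finset ℕ) (l : ℕ → ℕ) (lam : ℕ → ℝ) (θ : ℝ) (B : ℕ), |θ| ≤ 2 →
    (∀ i ∈ S, 0 ≤ lam i ∧ ∀ p ∈ Bl i, p.Prime ∧ (p : ℝ) ≤ Real.exp (lam i)) →
    HasLen (S.biUnion Bl) B (RR S Bl l θ)
      (Real.exp (∑ i ∈ S, (4 + 2 * (B + 1) * lam i * l i)))) ∧
  (∀ (Bl : Finset ℕ) (l : ℕ) (lam : ℝ) (B : ℕ), 0 ≤ lam →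
    (∀ p ∈ Bl, p.Prime ∧ (p : ℝ) ≤ Real.exp lam) →
    HasLen Bl B (QQ Bl l) (Real.exp (2 * (l : ℝ) * (4 + (B + 1) * lam))))

/-! The multi-scale argument -/

def PAR : Prop := ∀ (κ : ℝ) (B : ℕ), 2 < κ → κ < 4 → ∃ Cs L₀ : ℝ, 0 < Cs ∧ ∀ L : ℝ, L₀ ≤ L →
  ∃ (J : ℕ) (Bl : ℕ → Finset ℕ) (l : ℕ → ℕ) (lam : ℕ → ℝ), Sys κ B Cs L J Bl l lam

def THB : Prop := ∀ A : ℕ, ∃ C : ℝ, 0 < C ∧ DifferentiableOn ℂ (th (A + 1)) {z | -1 < z.re} ∧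
  ∀ z : ℂ, 0 ≤ z.re →
    ‖th (A + 1) z‖ ≤ C * Real.exp (-z.re) / ‖1 + z‖ ^ A ∧ ‖th (A + 1) z - 1‖ ≤ C * ‖z‖ ^ 2

def PHI : Prop := ∀ A : ℕ, ∃ C : ℝ, 0 < C ∧ ∀ κ L : ℝ, 2 < κ → κ < 4 → 100 ≤ L →
  (∀ j : ℕ, FarP (phj (A + 1) (Del κ L) j) (1 / L) (Del κ L j) (C * L)) ∧
  (∀ lam : ℝ, 0 ≤ lam → lam ≤ L → NearP (phj (A + 1) (Del κ L) 0) (1 / L) lam 0 0 A (C * L)) ∧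
  (∀ (j : ℕ) (lam : ℝ), j ≠ 0 → 0 ≤ lam → lam ≤ Del κ L j →
    NearP (phj (A + 1) (Del κ L) j) (1 / L) lam 0 1 A (C * Del κ L j ^ 2)) ∧
  (∀ D : ℝ, 0 < D → FarP (phF (A + 1) D) (1 / L) 0 (C * D) ∧
    NearP (phF (A + 1) D) (1 / L) 0 0 1 0 (C * D ^ 2)) ∧
  (∀ (J : ℕ) (s : ℂ), 1 / s = ∑ j ∈ range (J + 1), phj (A + 1) (Del κ L) j s +
    phF (A + 1) (Del κ L J) s)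

def BJ : Prop := ∃ A B : ℕ, 1 ≤ B ∧ ∀ κ Cs : ℝ, 2 < κ → κ < 4 → ∃ C : ℝ, 0 < C ∧
  ∀ (X : ℝ) (J : ℕ) (Bl : ℕ → Finset ℕ) (l : ℕ → ℕ) (lam : ℕ → ℝ), 1 ≤ X → 100 ≤ Real.log X →
    Sys κ B Cs (Real.log X) J Bl l lam → ∀ j i : ℕ, j ≤ J → j ≤ i → i ≤ J + 1 →
    ∑ k ∈ Sq X, RR (Icc i J) Bl l (-(4 - κ) / 2) (jv k) *
        ‖Dq 0 (phj (A + 1) (Del κ (Real.log X)) j) k‖ ^ 2 ≤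
      C * X * Del κ (Real.log X) j ^ 4 * Real.log X ^ 6 *
        Real.exp (((4 - κ) ^ 2 / 2 - 4 * (4 - κ)) * sg (PP Bl i J))

/-- Classes and Hölder's inequality. -/
def CLA : Prop := ∃ C : ℝ, 0 < C ∧
  ∀ (κ : ℝ) (J j : ℕ) (Bl : ℕ → Finset ℕ) (l : ℕ → ℕ) (F : Finset ℤ) (b : ℤ → ℝ), 2 < κ → κ < 4 →
    Blk (Icc 0 J) Bl l → j ≤ J → (∀ k, 0 ≤ b k) →
    ∑ k ∈ F, b k ^ (κ / 2) ≤ C * ∑ i ∈ Icc j (J + 1),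
      (∑ k ∈ F, RR (Icc i J) Bl l (-(4 - κ) / 2) (jv k) * b k ^ 2) ^ (κ / 4) *
        (∑ k ∈ F, RR (Icc i J) Bl l (κ / 2) (jv k) * Qc Bl l j i (jv k)) ^ ((4 - κ) / 4)

def CLZ : Prop := ∃ C : ℝ, 0 < C ∧
  ∀ (κ Cs X : ℝ) (B J : ℕ) (Bl : ℕ → Finset ℕ) (l : ℕ → ℕ) (lam : ℕ → ℝ), 2 < κ → κ < 4 → 1 ≤ B →
    1 ≤ X → 100 ≤ Real.log X → Sys κ B Cs (Real.log X) J Bl l lam →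
    ∀ j i : ℕ, j ≤ J → j ≤ i → i ≤ J + 1 →
    ∑ k ∈ Sq X, RR (Icc i J) Bl l (κ / 2) (jv k) * Qc Bl l j i (jv k) ≤
      C * X * Real.exp (κ ^ 2 / 2 * sg (PP Bl i J)) * ec l j i

def CLS : Prop := ∃ A B : ℕ, ∀ κ Cs : ℝ, 2 < κ → κ < 4 → 0 < Cs → ∃ C : ℝ, 0 < C ∧
  ∀ (X : ℝ) (J : ℕ) (Bl : ℕ → Finset ℕ) (l : ℕ → ℕ) (lam : ℕ → ℝ), 1 ≤ X → 100 ≤ Real.log X →
    Sys κ B Cs (Real.log X) J Bl l lam → ∀ j : ℕ, j ≤ J →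
    ∑ k ∈ Sq X, ‖Dq 0 (phj (A + 1) (Del κ (Real.log X)) j) k‖ ^ (κ / 2) ≤
      C * X * Real.log X ^ (κ * (κ + 1) / 2) * Real.exp (-((κ - 2) / 2) * j)

def FF : Prop := ∀ A : ℕ, ∃ C X₀ : ℝ, 0 < C ∧ ∀ X D : ℝ, X₀ ≤ X → 1 ≤ D →
  ∑ k ∈ Sq X, ‖Dq 0 (phF (A + 1) D) k‖ ^ 2 ≤
    C * X * D ^ 4 * Real.log X ^ 8 * Real.log (Real.log X)

def DY : Prop := ∀ κ : ℝ, 2 < κ → κ < 4 → ∃ C X₀ : ℝ, 0 < C ∧ ∀ X : ℝ, X₀ ≤ X →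
  ∑ k ∈ Sq X, ‖Lf k (1 / 2)‖ ^ κ ≤ C * X * Real.log X ^ (κ * (κ + 1) / 2)

def MAIN : Prop := ∀ κ : ℝ, 2 < κ → κ < 4 → ∃ C : ℝ, ∀ X : ℝ, 3 ≤ X →
  ∑ d ∈ Fund X, ‖Lhalf d‖ ^ κ ≤ C * X * Real.log X ^ (κ * (κ + 1) / 2)

end Pool.Agent.QM
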