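import Pool.Agent.P.MP_ea46f5_nt.QM.D0

/-! Definitions for the moment bound (paper: MP_ea46f5_nt_paper_h99.md). -/

namespace Pool.Agent.QM

open Complex MeasureTheory Finset
open scoped Real ComplexConjugate

noncomputable section

/-! Section 1: symbols and contours -/

def br (t : ℝ) : ℝ := 1 + |t|

def lg (Z : ℝ) : ℝ := Real.log (2 + Z)

def Iv (c : ℝ) (f : ℂ → ℂ) : ℂ := ∫ t : ℝ, f (c + t * I)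

def I2 (c : ℝ) (G : ℂ → ℂ → ℂ) : ℂ := ∫ t : ℝ × ℝ, G (c + t.1 * I) (c + t.2 * I)

/-- `1 / i` times the integral over the circle of centre `z` and radius `ρ`. -/
def Oc (z : ℂ) (ρ : ℝ) (f : ℂ → ℂ) : ℂ :=
  ∫ θ in (0 : ℝ)..(2 * π), (ρ * cexp (θ * I)) * f (z + ρ * cexp (θ * I))

def Strip (a b : ℝ) : Set ℂ := {s | a ≤ s.re ∧ s.re ≤ b}

def OStrip (a b : ℝ) : Set ℂ := {s | a < s.re ∧ s.re < b}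

def Nice (a b : ℝ) (f : ℂ → ℂ) : Prop :=
  ContinuousOn f (Strip a b) ∧ DifferentiableOn ℂ f (OStrip a b)

def Nice2 (a b : ℝ) (G : ℂ → ℂ → ℂ) : Prop :=
  ContinuousOn (fun x : ℂ × ℂ => G x.1 x.2) (Strip a b ×ˢ Strip a b) ∧
    (∀ s ∈ Strip a b, DifferentiableOn ℂ (fun u => G u s) (OStrip a b)) ∧
    (∀ s ∈ Strip a b, DifferentiableOn ℂ (fun u => G s u) (OStrip a b))

def jo (m : ℤ) (n : ℕ) : ℂ := if Odd n then (jacobiSym m n : ℂ) else 0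

def LS (m : ℤ) (s : ℂ) : ℂ := LSeries (jo m) s

def Lo (k : ℤ) (s : ℂ) : ℂ :=
  if h : 4 * k.natAbs = 0 then 0 else
    haveI : NeZero (4 * k.natAbs) := ⟨h⟩
    ZMod.LFunction (fun a : ZMod (4 * k.natAbs) => jo k a.val) s

def iz (s : ℂ) : ℂ := (s - 1) / ((1 - (2 : ℂ) ^ (-s)) * riemannZeta₁ s)

def Dw (w : ℂ → ℂ) (m : ℤ) : ℂ := Iv 12 fun s => w s * LS m (1 / 2 + s) ^ 2

def GX (X : ℝ) (m : ℤ) : ℝ := Real.exp (-π * (m : ℝ) ^ 2 / X ^ 2)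

def wt (w : ℂ → ℂ) (s : ℂ) : ℂ := conj (w (conj s))

def sg (P : Finset ℕ) : ℝ := ∑ p ∈ P, 1 / (p : ℝ)

/-- `P` consists of odd primes. -/
def OP (P : Finset ℕ) : Prop := ∀ p ∈ P, p.Prime ∧ p ≠ 2

/-- `F` consists of squarefree integers different from `1`. -/
def SQ (F : Finset ℤ) : Prop := ∀ k ∈ F, Squarefree k ∧ k ≠ 1

abbrev SF : Type := {k : ℤ // Squarefree k}

/-! Section 2: Poisson -/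

def Sg (X : ℝ) (n : ℕ) : ℝ := ∑' m : ℤ, GX X m * (jacobiSym m n : ℝ)

def T0 (n : ℕ) : ℝ :=
  ∏ p ∈ n.primeFactors, if Odd (n.factorization p) then 0 else 1 - 1 / (p : ℝ)

def ok (k : ℤ) (z : ℂ) (p : ℕ) : ℂ :=
  (jacobiSym k p : ℂ) * (p : ℂ) ^ (-(1 / 2 : ℂ)) * ((p : ℂ) ^ z - (p : ℂ) ^ (-z))

def ek (k : ℤ) (z : ℂ) (p : ℕ) : ℂ :=
  if (p : ℤ) ∣ k then 1 - (p : ℂ) ^ (2 * z - 1) else 1 - 1 / (p : ℂ)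

def Tk (k : ℤ) (z : ℂ) (n : ℕ) : ℂ :=
  ∏ p ∈ n.primeFactors, if Odd (n.factorization p) then ok k z p else ek k z p

def Kz (k : ℤ) (X : ℝ) (z : ℂ) : ℂ :=
  Gammaℝ z / 2 * riemannZeta (2 * z) * ((|(k : ℝ)| * X : ℝ) : ℂ) ^ (-z)

def Ak (k : ℤ) (X σ : ℝ) (n : ℕ) : ℂ := 1 / (2 * π) * Iv σ fun z => Kz k X z * Tk k z n

def n0 (n : ℕ) : ℕ := ∏ p ∈ n.primeFactors with Odd (n.factorization p), p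

def n2 (n : ℕ) : ℕ := ∏ p ∈ n.primeFactors with ¬ Odd (n.factorization p), p

/-- The term with `H = h e` of the dual sum. -/
def dH (X : ℝ) (n : ℕ) (H : ℤ) : ℝ :=
  (jacobiSym H (n0 n) : ℝ) * ∑ e ∈ (n2 n).divisors.filter (fun e : ℕ => (e : ℤ) ∣ H),
    (ArithmeticFunction.moebius e : ℝ) / e *
      Real.exp (-π * (|(H : ℝ)| * X / (n0 n * (e : ℝ) ^ 2)) ^ 2)

def Ap (k : ℤ) (X : ℝ) (n : ℕ) : ℝ :=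
  1 / √(n0 n : ℝ) * ∑' j : ℕ, dH X n (k * ((j : ℤ) + 1) ^ 2)

/-! Section 3: Euler products, local weights -/

def po (s : ℂ) : ArithmeticFunction ℂ :=
  ⟨fun n => if Odd n then (n : ℂ) ^ (-(1 / 2 + s)) else 0, by simp⟩

def Cf (s₁ s₂ : ℂ) : ArithmeticFunction ℂ := po s₁ * po s₁ * (po s₂ * po s₂)

def T3 : Finset ℤ := {-1, 0, 1}

def ext0 (P : Finset ℕ) (x : P → ℤ) (p : ℕ) : ℤ := if h : p ∈ P then x ⟨p, h⟩ else 0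

def Ex {A : Type} [CommSemiring A] (P : Finset ℕ) (μ : ℕ → ℤ → A) (R : (ℕ → ℤ) → A) : A :=
  ∑ x ∈ Fintype.piFinset (fun _ : P => T3), (∏ p : P, μ p (x p)) * R (ext0 P x)

def mon (x : ℕ → ℤ) (l : ℕ) : ℤ := ∏ p ∈ l.primeFactors, x p ^ l.factorization p

def jv (m : ℤ) (p : ℕ) : ℤ := jacobiSym m p

/-- `R` is a polynomial in the variables `x p`, `p ∈ P`, of weighted length at most `Y`. -/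
def HasLen (P : Finset ℕ) (B : ℕ) (R : (ℕ → ℤ) → ℝ) (Y : ℝ) : Prop :=
  ∃ (ι : Type) (_ : Fintype ι) (l : ι → ℕ) (r : ι → ℝ),
    (∀ i, l i ≠ 0 ∧ (l i).primeFactors ⊆ P) ∧ (∀ x, R x = ∑ i, r i * (mon x (l i) : ℝ)) ∧
      ∑ i, |r i| * (l i : ℝ) ^ B ≤ Y

def xs (s : ℂ) (p : ℕ) : ℂ := (p : ℂ) ^ (-(1 / 2 + s))

def Fy (s₁ s₂ : ℂ) (p : ℕ) (y : ℤ) : ℂ := 1 / ((1 - xs s₁ p * y) ^ 2 * (1 - xs s₂ p * y) ^ 2)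

def mu (k : ℤ) (z s₁ s₂ : ℂ) (p : ℕ) (y : ℤ) : ℂ :=
  if y = 0 then 1 - ek k z p else (ek k z p + y * ok k z p) * Fy s₁ s₂ p y / 2

def locv (k : ℤ) (z s₁ s₂ : ℂ) (p v : ℕ) : ℂ := ∑ y ∈ T3, mu k z s₁ s₂ p y * (y : ℂ) ^ v

def fp (k : ℤ) (z s₁ s₂ : ℂ) (p : ℕ) : ℂ :=
  (1 - jo k p * (p : ℂ) ^ (-(1 + (s₁ - z)))) ^ 2 * (1 - jo k p * (p : ℂ) ^ (-(1 + (s₂ - z)))) ^ 2 /
    ((1 - (p : ℂ) ^ (-(2 + 2 * (s₁ - z)))) ^ 3 * (1 - (p : ℂ) ^ (-(2 + (s₁ - z) + (s₂ - z)))) ^ 4 *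
      (1 - (p : ℂ) ^ (-(2 + 2 * (s₂ - z)))) ^ 3)

def Qp (s₁ s₂ : ℂ) (p : ℕ) : ℂ := 3 * xs s₁ p ^ 2 + 4 * (xs s₁ p * xs s₂ p) + 3 * xs s₂ p ^ 2

def Up (k : ℤ) (z s₁ s₂ : ℂ) (p : ℕ) : ℂ :=
  jo k p * (p : ℂ) ^ (-(z + 1 / 2)) * (xs s₁ p + xs s₂ p)

def Zk (P : Finset ℕ) (R : (ℕ → ℤ) → ℝ) (k : ℤ) (z s₁ s₂ : ℂ) : ℂ :=
  Ex P (mu k z s₁ s₂) (fun x => (R x : ℂ)) *
    ∏' p : Nat.Primes, if (p : ℕ) = 2 ∨ (p : ℕ) ∈ P then 1 else locv k z s₁ s₂ p 0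

def Hh (P : Finset ℕ) (R : (ℕ → ℤ) → ℝ) (k : ℤ) (z s₁ s₂ : ℂ) : ℂ :=
  Ex P (fun p y => mu k z s₁ s₂ p y * fp k z s₁ s₂ p) (fun x => (R x : ℂ)) *
    ∏' p : Nat.Primes,
      if (p : ℕ) = 2 ∨ (p : ℕ) ∈ P then 1 else locv k z s₁ s₂ p 0 * fp k z s₁ s₂ p

def IZ3 (z s₁ s₂ : ℂ) : ℂ :=
  iz (2 + 2 * (s₁ - z)) ^ 3 * iz (2 + (s₁ - z) + (s₂ - z)) ^ 4 * iz (2 + 2 * (s₂ - z)) ^ 3

def Zc (P : Finset ℕ) (R : (ℕ → ℤ) → ℝ) (k : ℤ) (z s₁ s₂ : ℂ) : ℂ :=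
  Lo k (1 + (s₁ - z)) ^ 2 * Lo k (1 + (s₂ - z)) ^ 2 * IZ3 z s₁ s₂ * Hh P R k z s₁ s₂

/-- The region `U` of the paper. -/
def UU (z s₁ s₂ : ℂ) : Prop :=
  -(11 / 20) < (s₁ - z).re ∧ -(11 / 20) < (s₂ - z).re ∧ 0 < s₁.re ∧ 0 < s₂.re ∧
    0 < z.re ∧ z.re < 7

/-! Section 4: the twisted mean value -/

def HR (P : Finset ℕ) (R : (ℕ → ℤ) → ℝ) (T : ℝ) : Prop :=
  ∀ (ν : ℕ → ℤ → ℝ) (η : ℕ → ℝ), (∀ p y, 0 ≤ ν p y) → (∀ p, 0 ≤ η p) →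
    (∀ p ∈ P, ∀ θ : ℝ, |θ| ≤ 36 → ∑ y ∈ T3, ν p y * Real.exp (θ * y / √(p : ℝ)) ≤
      Real.exp ((10 + 4 * θ + θ ^ 2 / 2) / p + η p)) →
    Ex P ν R ≤ T * Real.exp (10 * sg P + ∑ p ∈ P, η p)

def om (x : ℝ) : ℝ := min (x ^ (-(3 / 4) : ℝ)) (x ^ (-6 : ℝ))

def Dual (A : ℕ) (K M : ℝ) : Prop :=
  ∀ F : Finset ℤ, SQ F → ∀ τ : ℝ,
    ∑ k ∈ F, om (|(k : ℝ)| / K) * ‖Lo k (1 / 2 + τ * I)‖ ^ 4 ≤ M * br τ ^ A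

/-- Holomorphy, the double zero at `1 / 2` and the far bound. -/
def Far (w : ℂ → ℂ) (ε N t₀ W : ℝ) : Prop :=
  (∃ g : ℂ → ℂ, DifferentiableOn ℂ g {s | 0 < s.re} ∧
      ∀ s : ℂ, 0 < s.re → w s = (s - 1 / 2) ^ 2 * g s) ∧
    ∀ s : ℂ, ε / 2 ≤ s.re → s.re ≤ 13 → ‖w s‖ ≤ W * N ^ s.re * Real.exp (-|s.im - t₀|)

def Near (w : ℂ → ℂ) (ε lam t₀ : ℝ) (α C₀ : ℕ) (W : ℝ) : Prop :=
  ∀ (s : ℂ) (t : ℝ), ‖s - (ε + t * I)‖ ≤ ε / 2 →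
    ‖w s‖ ≤ W * ‖(ε + t * I : ℂ)‖ ^ α / (1 + lam * |t|) ^ C₀ *
      (Real.exp (-|t - t₀|) + Real.exp (-|t + t₀|))

/-- The data of a twist. -/
structure Tw (P : Finset ℕ) (B : ℕ) (R : (ℕ → ℤ) → ℝ) (lam T Y : ℝ) : Prop where
  op : OP P
  le : ∀ p ∈ P, (p : ℝ) ≤ Real.exp lam
  lam0 : 0 ≤ lam
  pos : ∀ x, 0 ≤ R x
  len : HasLen P B R Y
  hr : HR P R T
  T0 : 0 ≤ T

def Z1 (l : ℕ) (k : ℤ) (z s₁ s₂ : ℂ) : ℂ := ∑' n : ℕ, Cf s₁ s₂ n * Tk k z (n * l)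

def J1 (w : ℂ → ℂ) (l : ℕ) (k : ℤ) (z : ℂ) : ℂ :=
  I2 12 fun s₁ s₂ => w s₁ * wt w s₂ * Z1 l k z s₁ s₂

def PsI (w : ℂ → ℂ) (X : ℝ) (l : ℕ) : ℂ :=
  I2 12 fun s₁ s₂ => w s₁ * wt w s₂ * ∑' n : ℕ, Cf s₁ s₂ n * (Sg X (n * l) : ℂ)

def Jk (w : ℂ → ℂ) (P : Finset ℕ) (R : (ℕ → ℤ) → ℝ) (k : ℤ) (z : ℂ) : ℂ :=
  I2 12 fun s₁ s₂ => w s₁ * wt w s₂ * Zk P R k z s₁ s₂

def Yk (w : ℂ → ℂ) (P : Finset ℕ) (R : (ℕ → ℤ) → ℝ) (X : ℝ) (k : ℤ) (σ : ℝ) : ℂ :=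
  1 / (2 * π) * Iv σ fun z => Kz k X z * Jk w P R k z

def Jc (w : ℂ → ℂ) (P : Finset ℕ) (R : (ℕ → ℤ) → ℝ) (ε : ℝ) (z : ℂ) : ℂ :=
  Oc z (ε / 2) fun s₁ => Oc z (ε / 2) fun s₂ => w s₁ * wt w s₂ * Zc P R 1 z s₁ s₂

def sk (K : ℝ) (k : ℤ) : ℝ := if |(k : ℝ)| ≤ K then 3 / 4 else 6

def Lw (k : ℤ) (u : ℝ) : ℝ := ∫ τ : ℝ, Real.exp (-|τ - u| / 2) * ‖Lo k (1 / 2 + τ * I)‖ ^ 4

/-- Line integrability of a weight. -/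
def LI (w : ℂ → ℂ) : Prop := Integrable fun t : ℝ => w (12 + t * I)

/-! Section 5: from values of L to `Dw` -/

def disc (k : ℤ) : ℤ := if k % 4 = 1 then k else 4 * k

def par (k : ℤ) : ℕ := if 0 < k then 0 else 1

def gam (k : ℤ) : ℤ := if k % 8 = 1 then 1 else if k % 8 = 5 then -1 else 0

def qk (k : ℤ) : ℝ := |(disc k : ℝ)|

def Lf (k : ℤ) (s : ℂ) : ℂ := Lo k s / (1 - gam k * (2 : ℂ) ^ (-s))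

def Lam (k : ℤ) (s : ℂ) : ℂ := (qk k : ℂ) ^ (s / 2) * Gammaℝ (s + par k) * Lf k s

def gt (t : ℝ) (s : ℂ) : ℂ :=
  cexp (s ^ 2) * ((s ^ 2 - (1 / 2 - t * I) ^ 2) * (s ^ 2 - (1 / 2 + t * I) ^ 2)) ^ 2 /
    (1 / 4 + (t : ℂ) ^ 2) ^ 4

def hh (a : ℕ) (γ : ℤ) (t : ℝ) (s : ℂ) : ℂ :=
  (Gammaℝ (1 / 2 + a + t * I + s) / Gammaℝ (1 / 2 + a + t * I)) ^ 2 * gt t s /
    (1 - γ * (2 : ℂ) ^ (-(1 / 2 + t * I + s))) ^ 2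

def ww (a : ℕ) (γ : ℤ) (t : ℝ) (φ : ℂ → ℂ) (Y : ℝ) (s : ℂ) : ℂ :=
  hh a γ t (s - t * I) * (Y : ℂ) ^ (s - t * I) * φ (s - t * I)

def phy (φ : ℂ → ℂ) (y : ℝ) (s : ℂ) : ℂ := φ s * cexp ((s + y * I) ^ 2 / 4)

def Dq (t : ℝ) (φ : ℂ → ℂ) (k : ℤ) : ℂ := Dw (ww (par k) (gam k) t φ (qk k)) k

/-- Holomorphy and the far bound for a cut-off. -/
def FarP (φ : ℂ → ℂ) (ε Δ V : ℝ) : Prop :=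
  DifferentiableOn ℂ φ {s | 0 < s.re} ∧
    ∀ s : ℂ, ε / 2 ≤ s.re → s.re ≤ 13 → ‖φ s‖ ≤ V * Real.exp (-Δ * s.re)

def NearP (φ : ℂ → ℂ) (ε lam t : ℝ) (α C₀ : ℕ) (V : ℝ) : Prop :=
  ∀ (s : ℂ) (τ : ℝ), ‖s - (ε + τ * I)‖ ≤ ε / 2 →
    ‖φ (s - t * I)‖ ≤ V * ‖(ε + τ * I : ℂ)‖ ^ α / (1 + lam * |τ|) ^ C₀

open Classical in
/-- Squarefree `k ≠ 1` with `Z / 2 < |k| ≤ Z`. -/
def Sq (Z : ℝ) : Finset ℤ :=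
  (Icc (-⌈Z⌉) ⌈Z⌉).filter fun k => Squarefree k ∧ k ≠ 1 ∧ Z / 2 < |(k : ℝ)| ∧ |(k : ℝ)| ≤ Z

/-! Section 6: fourth moment -/

def M4 (Z t : ℝ) : ℝ := ∑ k ∈ Sq Z, ‖Lo k (1 / 2 + t * I)‖ ^ 4

def H4 (A : ℕ) (μ Y : ℝ) : Prop :=
  ∀ Z : ℝ, 1 ≤ Z → ∀ t : ℝ, M4 Z t ≤ μ * Z * lg Z ^ 10 * br t ^ A * max 1 (Z / Y) ^ 4

def phs (Δ : ℝ) (s : ℂ) : ℂ := cexp (-(s * Δ)) / s

def phm (Δ : ℝ) (s : ℂ) : ℂ := (1 - cexp (-(s * Δ))) / s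

/-! Section 7: second moment -/

def g0 (a : ℕ) (γ : ℤ) (s : ℂ) : ℂ :=
  Gammaℝ (1 / 2 + a + s) / Gammaℝ (1 / 2 + a) * cexp (s ^ 2) /
    (1 - γ * (2 : ℂ) ^ (-(1 / 2 + s))) / s

def w1 (a : ℕ) (γ : ℤ) (X y : ℝ) (s : ℂ) : ℂ :=
  g0 a γ s * (X : ℂ) ^ (s / 2) * cexp ((s + y * I) ^ 2 / 4)

def Vn (a : ℕ) (γ : ℤ) (X y : ℝ) (n : ℕ) : ℂ := Iv 12 fun s => w1 a γ X y s * (n : ℂ) ^ (-s)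

/-! Section 8: truncated exponentials -/

def Et (l : ℕ) (x : ℝ) : ℝ := ∑ j ∈ range (l + 1), x ^ j / (j.factorial : ℝ)

def Pb (Bl : Finset ℕ) (x : ℕ → ℤ) : ℝ := ∑ p ∈ Bl, (x p : ℝ) / √(p : ℝ)

def RR (S : Finset ℕ) (Bl : ℕ → Finset ℕ) (l : ℕ → ℕ) (θ : ℝ) (x : ℕ → ℤ) : ℝ :=
  ∏ i ∈ S, Et (l i) (θ * Pb (Bl i) x) ^ 2

def QQ (Bl : Finset ℕ) (l : ℕ) (x : ℕ → ℤ) : ℝ := (40 * Pb Bl x / l) ^ (2 * l)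

def mu0 (p : ℕ) (y : ℤ) : ℝ := if y = 0 then 1 / (p : ℝ) else (1 - 1 / (p : ℝ)) / 2

/-- Disjoint blocks of odd primes with long enough truncations. -/
structure Blk (S : Finset ℕ) (Bl : ℕ → Finset ℕ) (l : ℕ → ℕ) : Prop where
  op : ∀ i ∈ S, OP (Bl i)
  disj : ∀ i ∈ S, ∀ j ∈ S, i ≠ j → Disjoint (Bl i) (Bl j)
  ell : ∀ i ∈ S, 3300 * sg (Bl i) + 10 ≤ (l i : ℝ)
  lin : ∀ i ∈ S, 12 * (i + 1) ≤ l i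

/-! Section 9: the multi-scale system -/

def th (A : ℕ) (z : ℂ) : ℂ := cexp (-z) * (1 + (A + 1) * z) / (1 + z) ^ A

def phj (A : ℕ) (Δ : ℕ → ℝ) (j : ℕ) (s : ℂ) : ℂ :=
  if j = 0 then th A (s * Δ 0) / s else (th A (s * Δ j) - th A (s * Δ (j - 1))) / s

def phF (A : ℕ) (D : ℝ) (s : ℂ) : ℂ := (1 - th A (s * D)) / s

def Del (κ L : ℝ) (j : ℕ) : ℝ := L * Real.exp (-(1 - (κ - 2) / 32) * j)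

def PP (Bl : ℕ → Finset ℕ) (i J : ℕ) : Finset ℕ := (Icc i J).biUnion Bl

structure Sys (κ : ℝ) (B : ℕ) (Cs L : ℝ) (J : ℕ) (Bl : ℕ → Finset ℕ) (l : ℕ → ℕ)
    (lam : ℕ → ℝ) : Prop where
  blk : Blk (Icc 0 J) Bl l
  le : ∀ i i', i ≤ i' → i' ≤ J → ∀ p ∈ Bl i', (p : ℝ) ≤ Real.exp (lam i)
  lam1 : ∀ i, i ≤ J → 1 ≤ lam i
  lamD : ∀ i j, j ≤ i → i ≤ J → lam i ≤ Del κ L j
  lL : ∀ i, i ≤ J → (l i : ℝ) ≤ L / 50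
  lJ : 8 * (Real.log L + Cs) ≤ (l J : ℝ)
  sig : ∀ i, i ≤ J → |sg (PP Bl i J) - (Real.log L - i)| ≤ Cs
  D1 : 1 ≤ Del κ L J
  D2 : Del κ L J ≤ 3 * L ^ ((κ - 2) / 16)
  len1 : ∀ j, j ≤ J → ∑ i ∈ Icc j J, (4 + 2 * (B + 1) * lam i * l i) ≤ Del κ L j / 4
  len2 : ∀ i, i ≤ J → 2 * (l i : ℝ) * (4 + (B + 1) * lam i) ≤ L / 25
  big : L ^ 13 ≤ Real.exp (Del κ L J / 4)

/-- The extra factor of the class `(j, i)`. -/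
def Qc (Bl : ℕ → Finset ℕ) (l : ℕ → ℕ) (j i : ℕ) (x : ℕ → ℤ) : ℝ :=
  if i = j then 1 else QQ (Bl (i - 1)) (l (i - 1)) x

def ec (l : ℕ → ℕ) (j i : ℕ) : ℝ := if i = j then 1 else Real.exp (-(l (i - 1) : ℝ))

end

end Pool.Agent.QM
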