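import Pool.Agent.P.MP_ea46f5_nt.QM.S2

namespace Pool.Agent.QM

open Complex MeasureTheory Finset
open scoped Real ComplexConjugate

/-- The function whose value at `0` is the central value. -/
noncomputable def af1F (k : ℤ) (s : ℂ) : ℂ :=
  Gammaℝ (1 / 2 + par k + s) / Gammaℝ (1 / 2 + par k) * cexp (s ^ 2) * (qk k : ℂ) ^ (s / 2) *
    Lf k (1 / 2 + s)

theorem af1_gam_diff {s : ℂ} (hs : 0 < s.re) : DifferentiableAt ℂ Gammaℝ s := by
  have e : Gammaℝ = fun s : ℂ => (π : ℂ) ^ (-s / 2) * Gamma (s / 2) := funext Gammaℝ_def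
  rw [e]
  refine DifferentiableAt.mul (DifferentiableAt.const_cpow (by fun_prop)
    (Or.inl (ofReal_ne_zero.mpr Real.pi_ne_zero))) ?_
  refine DifferentiableAt.comp (g := Gamma) (f := fun s : ℂ => s / 2) s
    (Complex.differentiableAt_Gamma _ fun m h => ?_) (by fun_prop)
  have := congrArg Complex.re h
  simp at this
  have : (0 : ℝ) ≤ m := Nat.cast_nonneg m
  linarith

theorem af1_q1 (hBRG : BRG) {k : ℤ} (hk : Squarefree k) : 1 ≤ qk k := by
  have h := (hBRG.2.1 k).1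
  have : (1 : ℝ) ≤ |(k : ℝ)| := by exact_mod_cast Int.one_le_abs hk.ne_zero
  linarith

theorem af1_diff (hBRG : BRG) {k : ℤ} (hk : Squarefree k) (h1 : k ≠ 1) {s : ℂ}
    (hs : -(1 / 2) < s.re) : DifferentiableAt ℂ (af1F k) s := by
  have hO : IsOpen {s : ℂ | 0 < s.re} := isOpen_lt continuous_const Complex.continuous_re
  have hp : (0 : ℝ) ≤ par k := Nat.cast_nonneg _
  have hq : (qk k : ℂ) ≠ 0 := ofReal_ne_zero.mpr (by linarith [af1_q1 hBRG hk])
  have d₁ : DifferentiableAt ℂ (fun s : ℂ => Gammaℝ (1 / 2 + par k + s)) s :=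
    DifferentiableAt.comp (g := Gammaℝ) (f := fun s : ℂ => 1 / 2 + par k + s) s
      (af1_gam_diff (by simp; linarith)) (by fun_prop)
  have d₂ : DifferentiableAt ℂ (fun s : ℂ => (qk k : ℂ) ^ (s / 2)) s :=
    DifferentiableAt.const_cpow (by fun_prop) (Or.inl hq)
  have d₃ : DifferentiableAt ℂ (fun s : ℂ => Lf k (1 / 2 + s)) s :=
    DifferentiableAt.comp (g := Lf k) (f := fun s : ℂ => 1 / 2 + s) s
      ((hBRG.2.2.2 k hk h1).differentiableAt (hO.mem_nhds (by simp; linarith))) (by fun_prop)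
  unfold af1F
  exact (((d₁.div_const _).mul (by fun_prop)).mul d₂).mul d₃

theorem af1_zero (k : ℤ) : af1F k 0 = Lf k (1 / 2) := by
  have hp : (0 : ℝ) ≤ par k := Nat.cast_nonneg _
  have hg : Gammaℝ (1 / 2 + par k) ≠ 0 := Gammaℝ_ne_zero_of_re_pos (by simp; linarith)
  simp only [af1F, add_zero, div_self hg]
  simp

theorem af1_lam (hBRG : BRG) {k : ℤ} (hk : Squarefree k) (s : ℂ) :
    af1F k s = Lam k (1 / 2 + s) * cexp (s ^ 2) /
      ((qk k : ℂ) ^ (1 / 4 : ℂ) * Gammaℝ (1 / 2 + par k)) := by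
  have hp : (0 : ℝ) ≤ par k := Nat.cast_nonneg _
  have hg : Gammaℝ (1 / 2 + par k) ≠ 0 := Gammaℝ_ne_zero_of_re_pos (by simp; linarith)
  have hq : (qk k : ℂ) ≠ 0 := ofReal_ne_zero.mpr (by linarith [af1_q1 hBRG hk])
  have hq4 : (qk k : ℂ) ^ (1 / 4 : ℂ) ≠ 0 := by
    rw [Ne, Complex.cpow_eq_zero_iff]
    exact fun h => hq h.1
  have e₁ : (1 / 2 + s) / 2 = 1 / 4 + s / 2 := by ring
  have e₂ : 1 / 2 + s + par k = 1 / 2 + par k + s := by ring
  unfold af1F Lam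
  rw [e₁, e₂, Complex.cpow_add _ _ hq]
  field_simp

theorem af1_bound (hGAM2 : GAM2) (hLOB : LOB) (hBRG : BRG) (hDEC : DEC) {k : ℤ}
    (hk : Squarefree k) (h1 : k ≠ 1) : ∃ C : ℝ, 0 ≤ C ∧ ∀ s : ℂ, -(1 / 4) ≤ s.re → s.re ≤ 13 →
      ‖af1F k s‖ ≤ C / br s.im ^ 2 := by
  obtain ⟨h, C, hC, hG⟩ := hGAM2
  obtain ⟨D, hD, hE⟩ := hDEC.2.1 (h + 3)
  have hq := af1_q1 hBRG hk
  have hp : (0 : ℝ) ≤ par k := Nat.cast_nonneg _
  have hg : Gammaℝ (1 / 2 + par k) ≠ 0 := Gammaℝ_ne_zero_of_re_pos (by simp; linarith)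
  refine ⟨C * Real.exp 170 * qk k ^ (7 : ℝ) * (7 * (16 * |(k : ℝ)| * 14)) * D, by positivity,
    fun s l u => ?_⟩
  have hb : 1 ≤ br s.im := by unfold br; linarith [abs_nonneg s.im]
  have b0 : br 0 = 1 := by simp [br]
  have b₁ : ‖Gammaℝ (1 / 2 + par k + s) / Gammaℝ (1 / 2 + par k)‖ ≤
      C * br s.im ^ h * Real.exp |s.im| := by
    have := hG (par k) 0 s (hBRG.2.1 k).2.2.1 l u
    simp only [ofReal_zero, zero_mul, add_zero, b0, one_pow, mul_one] at this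
    rw [norm_div, div_le_iff₀ (norm_pos_iff.mpr hg)]
    exact this
  have b₂ : ‖cexp (s ^ 2)‖ ≤ Real.exp (169 - s.im ^ 2) := by
    rw [Complex.norm_exp]
    refine Real.exp_le_exp.mpr ?_
    have : (s ^ 2).re = s.re ^ 2 - s.im ^ 2 := by simp [pow_two]
    rw [this]
    nlinarith
  have b₃ : ‖(qk k : ℂ) ^ (s / 2)‖ ≤ qk k ^ (7 : ℝ) := by
    rw [Complex.norm_cpow_eq_rpow_re_of_pos (by linarith)]
    refine Real.rpow_le_rpow_of_exponent_le hq ?_
    simp
    linarith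
  have hre : (1 / 2 + s).re = 1 / 2 + s.re := by simp
  have b₄ : ‖Lf k (1 / 2 + s)‖ ≤ 7 * (16 * |(k : ℝ)| * 14) * br s.im := by
    have r : 1 / 4 ≤ (1 / 2 + s).re := by rw [hre]; linarith
    have n : ‖1 / 2 + s‖ ≤ 14 * br s.im := by
      refine (Complex.norm_le_abs_re_add_abs_im _).trans ?_
      have e : (1 / 2 + s).im = s.im := by simp
      rw [e, abs_of_nonneg (by linarith), hre]
      unfold br
      linarith [abs_nonneg s.im]
    calc ‖Lf k (1 / 2 + s)‖ ≤ 7 * ‖Lo k (1 / 2 + s)‖ := (hBRG.2.2.1 k _ r).2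
      _ ≤ 7 * (4 * |(k : ℝ)| * ‖1 / 2 + s‖ / (1 / 2 + s).re) := by
        gcongr
        exact hLOB k _ hk h1 (by linarith)
      _ ≤ 7 * (4 * |(k : ℝ)| * (14 * br s.im) / (1 / 4)) := by gcongr
      _ = 7 * (16 * |(k : ℝ)| * 14) * br s.im := by ring
  have b₅ : Real.exp |s.im| * Real.exp (169 - s.im ^ 2) ≤
      Real.exp 170 * Real.exp (-|s.im - 0| / 2) := by
    rw [← Real.exp_add, ← Real.exp_add, sub_zero]
    refine Real.exp_le_exp.mpr ?_
    nlinarith [sq_abs s.im, sq_nonneg (|s.im| - 1), abs_nonneg s.im]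
  have b₆ := hE s.im 0
  rw [b0, one_pow, mul_one] at b₆
  rw [le_div_iff₀ (by positivity)]
  unfold af1F
  rw [norm_mul, norm_mul, norm_mul]
  calc _ ≤ C * br s.im ^ h * Real.exp |s.im| * Real.exp (169 - s.im ^ 2) * qk k ^ (7 : ℝ) *
        (7 * (16 * |(k : ℝ)| * 14) * br s.im) * br s.im ^ 2 := by gcongr
    _ = C * qk k ^ (7 : ℝ) * (7 * (16 * |(k : ℝ)| * 14)) *
        (Real.exp |s.im| * Real.exp (169 - s.im ^ 2)) * br s.im ^ (h + 3) := by ring
    _ ≤ C * qk k ^ (7 : ℝ) * (7 * (16 * |(k : ℝ)| * 14)) *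
        (Real.exp 170 * Real.exp (-|s.im - 0| / 2)) * br s.im ^ (h + 3) := by gcongr
    _ = C * Real.exp 170 * qk k ^ (7 : ℝ) * (7 * (16 * |(k : ℝ)| * 14)) *
        (Real.exp (-|s.im - 0| / 2) * br s.im ^ (h + 3)) := by ring
    _ ≤ _ := by gcongr

theorem af1_refl {F : ℂ → ℂ} {W : ℂ} (hF : ∀ s : ℂ, s.re = 1 / 4 → F (-s) = W * F s) :
    Iv (-(1 / 4)) (fun s => F s / (s - 0)) = -W * Iv (1 / 4) (fun s => F s / (s - 0)) := by
  unfold Iv
  rw [← integral_neg_eq_self, ← integral_const_mul]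
  refine integral_congr_ae (Filter.Eventually.of_forall fun t => ?_)
  have e : ((-(1 / 4) : ℝ) : ℂ) + ((-t : ℝ) : ℂ) * I = -(((1 / 4 : ℝ) : ℂ) + t * I) := by
    push_cast
    ring
  simp only [sub_zero]
  rw [e, hF _ (by simp), div_neg]
  ring

theorem pAF1 (hFE : FE) (hSH0 : SH0) (hSH1 : SH1) (hGAM2 : GAM2) (hG0B : G0B) (hLOP : LOP) (hLOB : LOB) (hBRG : BRG) (hDEC : DEC) : AF1 := by
  intro k hk h1
  obtain ⟨⟨W, hW, hL⟩, -⟩ := hFE k hk h1
  obtain ⟨C, hC, hB⟩ := af1_bound hGAM2 hLOB hBRG hDEC hk h1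
  have hb : ∀ t : ℝ, 1 ≤ br t := fun t => by unfold br; linarith [abs_nonneg t]
  have s₁ := hSH1 (-(1 / 4)) (1 / 4) C (af1F k) 0 (by norm_num) (by norm_num)
    ⟨fun s hs => (af1_diff hBRG hk h1 (by linarith [hs.1])).continuousAt.continuousWithinAt,
      fun s hs => (af1_diff hBRG hk h1 (by linarith [hs.1])).differentiableWithinAt⟩
    (fun s hs => (hB s hs.1 (by linarith [hs.2])).trans (by
      have := hb s.im
      gcongr
      nlinarith))
  have hd : ∀ s : ℂ, 1 / 4 ≤ s.re → DifferentiableAt ℂ (fun s => af1F k s / (s - 0)) s := by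
    intro s hs
    refine (af1_diff hBRG hk h1 (by linarith)).div (by fun_prop) fun h => ?_
    rw [sub_zero] at h
    rw [h] at hs
    norm_num at hs
  have s₂ := hSH0 (1 / 4) 12 (4 * C) (fun s => af1F k s / (s - 0)) (by norm_num)
    ⟨fun s hs => (hd s hs.1).continuousAt.continuousWithinAt,
      fun s hs => (hd s hs.1.le).differentiableWithinAt⟩
    (fun s hs => by
      have n : 1 / 4 ≤ ‖s‖ := hs.1.trans (Complex.re_le_norm s)
      have := hb s.im
      rw [sub_zero, norm_div]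
      calc ‖af1F k s‖ / ‖s‖ ≤ C / br s.im ^ 2 / (1 / 4) := by
            gcongr
            exact hB s (by linarith [hs.1]) (by linarith [hs.2])
        _ = 4 * C / br s.im ^ 2 := by ring)
  have hr : ∀ s : ℂ, s.re = 1 / 4 → af1F k (-s) = W * af1F k s := by
    intro s hs
    have hre : (1 / 2 + s).re = 3 / 4 := by simp [hs]; norm_num
    have e : 1 / 2 + -s = 1 - (1 / 2 + s) := by ring
    rw [af1_lam hBRG hk, af1_lam hBRG hk, e, hL _ (by rw [hre]; norm_num) (by rw [hre]; norm_num),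
      neg_sq]
    ring
  have e₃ : (Iv 12 fun s => g0 (par k) (gam k) s * (qk k : ℂ) ^ (s / 2) * LS k (1 / 2 + s)) =
      Iv 12 fun s => af1F k s / (s - 0) := by
    unfold Iv
    refine integral_congr_ae (Filter.Eventually.of_forall fun t => ?_)
    simp only [sub_zero]
    rw [← hLOP.1 k _ hk.ne_zero (by simp; norm_num)]
    unfold g0 af1F Lf
    ring
  rw [e₃, s₂]
  rw [af1_refl hr, af1_zero] at s₁
  have hW1 : ‖W‖ = 1 := by
    have := congrArg norm hW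
    rw [norm_pow, norm_one] at this
    exact (pow_eq_one_iff_of_nonneg (norm_nonneg _) two_ne_zero).mp this
  have e₄ : 2 * (π : ℂ) * Lf k (1 / 2) = (1 + W) * Iv (1 / 4) fun s => af1F k s / (s - 0) := by
    linear_combination -s₁
  have e₅ := congrArg norm e₄
  rw [norm_mul, norm_mul, norm_mul, Complex.norm_real, Real.norm_of_nonneg Real.pi_pos.le,
    Complex.norm_ofNat] at e₅
  have n : ‖1 + W‖ ≤ 2 := (norm_add_le _ _).trans (by rw [norm_one, hW1]; norm_num)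
  have := mul_le_mul_of_nonneg_right n (norm_nonneg (Iv (1 / 4) fun s => af1F k s / (s - 0)))
  linarith

end Pool.Agent.QM
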