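import Mathlib

/-!
Dyadic summation against the dual weight `min (x ^ (-3/4)) (x ^ (-6))`.
-/

namespace Pool.Agent.QM

open Real Finset

theorem min_inv_le_tel {r x : ℝ} (hr : 1 < r) (hx : 0 < x) :
    min x x⁻¹ ≤ 4 * r / (r - 1) * (r * x / (1 + r * x) - x / (1 + x)) := by
  have h1 : 0 < r - 1 := by linarith
  have h2 : 0 < 1 + x := by linarith
  have h3 : 0 < 1 + r * x := by positivity
  have e : 4 * r / (r - 1) * (r * x / (1 + r * x) - x / (1 + x)) =
      4 * r * x / ((1 + r * x) * (1 + x)) := by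
    field_simp
    ring
  rw [e, le_div_iff₀ (by positivity)]
  have h4 : 1 + r * x ≤ r * (1 + x) := by nlinarith
  have h5 : min x x⁻¹ * (1 + x) ^ 2 ≤ 4 * x := by
    rcases le_total x 1 with h | h
    · calc min x x⁻¹ * (1 + x) ^ 2 ≤ x * (1 + x) ^ 2 := by gcongr; exact min_le_left _ _
        _ ≤ x * 2 ^ 2 := by gcongr; linarith
        _ = 4 * x := by ring
    · calc min x x⁻¹ * (1 + x) ^ 2 ≤ x⁻¹ * (1 + x) ^ 2 := by gcongr; exact min_le_right _ _
        _ ≤ x⁻¹ * (2 * x) ^ 2 := by gcongr; linarith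
        _ = 4 * x := by field_simp; ring
  have h6 : 0 ≤ min x x⁻¹ := le_min hx.le (by positivity)
  calc min x x⁻¹ * ((1 + r * x) * (1 + x)) ≤ min x x⁻¹ * ((r * (1 + x)) * (1 + x)) := by gcongr
    _ = r * (min x x⁻¹ * (1 + x) ^ 2) := by ring
    _ ≤ r * (4 * x) := by gcongr
    _ = 4 * r * x := by ring

theorem geo_min_sum {r v : ℝ} (hr : 1 < r) (hv : 0 < v) (n : ℕ) :
    ∑ j ∈ range n, min (v * r ^ j) (v * r ^ j)⁻¹ ≤ 4 * r / (r - 1) := by
  have h1 : 0 < r - 1 := by linarith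
  have hr0 : 0 < r := by linarith
  set g : ℕ → ℝ := fun j => v * r ^ j / (1 + v * r ^ j) with hg
  have hb : ∀ j, min (v * r ^ j) (v * r ^ j)⁻¹ ≤ 4 * r / (r - 1) * (g (j + 1) - g j) := by
    intro j
    have := min_inv_le_tel hr (x := v * r ^ j) (by positivity)
    have e : r * (v * r ^ j) = v * r ^ (j + 1) := by ring
    rw [e] at this
    exact this
  calc ∑ j ∈ range n, min (v * r ^ j) (v * r ^ j)⁻¹
      ≤ ∑ j ∈ range n, 4 * r / (r - 1) * (g (j + 1) - g j) := sum_le_sum fun j _ => hb j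
    _ = 4 * r / (r - 1) * (g n - g 0) := by rw [← mul_sum, sum_range_sub]
    _ ≤ 4 * r / (r - 1) * 1 := by
        gcongr
        have a1 : g n ≤ 1 := by
          simp only [hg]
          rw [div_le_one (by positivity)]
          linarith
        have a2 : 0 ≤ g 0 := by simp only [hg]; positivity
        linarith
    _ = 4 * r / (r - 1) := mul_one _

theorem lg_ge {K : ℝ} (hK : 0 ≤ K) : 2 / 3 ≤ log (2 + K) := by
  have h := Real.log_two_gt_d9
  have : log 2 ≤ log (2 + K) := log_le_log (by norm_num) (by linarith)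
  linarith

/-- One dyadic block. -/
theorem mt_block {y K Y : ℝ} (hy : 0 < y) (hK : 0 < K) (hY : 0 < Y) :
    min ((y ^ 40 / 2) ^ (-3 / 4 : ℝ)) ((y ^ 40 / 2) ^ (-6 : ℝ)) *
        ((y ^ 40 * K) * log (2 + y ^ 40 * K) ^ 10 * max 1 (y ^ 40 * K / Y) ^ 4) ≤
      64 * 61 ^ 10 * (K * log (2 + K) ^ 10 * max 1 (K / Y) ^ 4) * min y y⁻¹ := by
  have hl := lg_ge hK.le
  have hu : 0 < y ^ 40 := by positivity
  have hl2 := lg_ge (K := y ^ 40 * K) (by positivity)
  have hm : (0 : ℝ) ≤ max 1 (K / Y) := le_trans zero_le_one (le_max_left _ _)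
  have hm2 : (0 : ℝ) ≤ max 1 (y ^ 40 * K / Y) := le_trans zero_le_one (le_max_left _ _)
  rcases le_total y 1 with h | h
  · have hu1 : y ^ 40 ≤ 1 := pow_le_one₀ hy.le h
    have e1 : min y y⁻¹ = y := min_eq_left (le_trans h (one_le_inv₀ hy |>.2 h))
    have e2 : (y ^ 40 / 2) ^ (-3 / 4 : ℝ) ≤ 2 * (y ^ 30)⁻¹ := by
      rw [div_rpow hu.le (by norm_num), ← rpow_natCast, ← rpow_mul hy.le]
      have a1 : ((40 : ℕ) : ℝ) * (-3 / 4) = -((30 : ℕ) : ℝ) := by norm_num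
      rw [a1, rpow_neg hy.le, rpow_natCast, div_eq_mul_inv, ← rpow_neg (by norm_num), mul_comm]
      gcongr
      calc (2 : ℝ) ^ (-(-3 / 4 : ℝ)) ≤ 2 ^ (1 : ℝ) :=
            rpow_le_rpow_of_exponent_le (by norm_num) (by norm_num)
        _ = 2 := rpow_one _
    have e3 : y ^ 40 * K ≤ K := by nlinarith
    have e4 : log (2 + y ^ 40 * K) ≤ log (2 + K) := log_le_log (by positivity) (by linarith)
    have e5 : max 1 (y ^ 40 * K / Y) ≤ max 1 (K / Y) := by gcongr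
    have e6 : y ^ 10 ≤ y := by
      calc y ^ 10 ≤ y ^ 1 := pow_le_pow_of_le_one hy.le h (by norm_num)
        _ = y := pow_one _
    rw [e1]
    calc _ ≤ (2 * (y ^ 30)⁻¹) * ((y ^ 40 * K) * log (2 + K) ^ 10 * max 1 (K / Y) ^ 4) := by
          gcongr
          exact (min_le_left _ _).trans e2
      _ = 2 * (K * log (2 + K) ^ 10 * max 1 (K / Y) ^ 4) * y ^ 10 := by field_simp
      _ ≤ 64 * 61 ^ 10 * (K * log (2 + K) ^ 10 * max 1 (K / Y) ^ 4) * y := by
          gcongr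
          norm_num
  · have hu1 : 1 ≤ y ^ 40 := one_le_pow₀ h
    have e1 : min y y⁻¹ = y⁻¹ := min_eq_right (le_trans (inv_le_one_of_one_le₀ h) h)
    have e2 : (y ^ 40 / 2) ^ (-6 : ℝ) = 64 * (y ^ 240)⁻¹ := by
      have a1 : (-6 : ℝ) = -((6 : ℕ) : ℝ) := by norm_num
      rw [a1, rpow_neg (by positivity), rpow_natCast]
      field_simp
      norm_num
    have e4 : log (2 + y ^ 40 * K) ≤ 61 * y * log (2 + K) := by
      have a1 : log (2 + y ^ 40 * K) ≤ log (y ^ 40 * (2 + K)) :=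
        log_le_log (by positivity) (by nlinarith)
      rw [log_mul hu.ne' (by positivity), log_pow] at a1
      have a2 : log y ≤ y := (log_le_sub_one_of_pos hy).trans (by linarith)
      push_cast at a1
      nlinarith
    have e5 : max 1 (y ^ 40 * K / Y) ≤ y ^ 40 * max 1 (K / Y) := by
      refine max_le ?_ ?_
      · have := le_max_left (1 : ℝ) (K / Y)
        nlinarith
      · rw [mul_div_assoc]
        gcongr
        exact le_max_right _ _
    have e6 : (y ^ 30)⁻¹ ≤ y⁻¹ := by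
      apply inv_anti₀ hy
      calc y = y ^ 1 := (pow_one _).symm
        _ ≤ y ^ 30 := pow_le_pow_right₀ h (by norm_num)
    rw [e1]
    calc _ ≤ (64 * (y ^ 240)⁻¹) *
          ((y ^ 40 * K) * (61 * y * log (2 + K)) ^ 10 * (y ^ 40 * max 1 (K / Y)) ^ 4) := by
          gcongr
          exact (min_le_right _ _).trans e2.le
      _ = 64 * 61 ^ 10 * (K * log (2 + K) ^ 10 * max 1 (K / Y) ^ 4) * (y ^ 30)⁻¹ := by
          field_simp
      _ ≤ _ := by gcongr

/-- Dyadic bounds give the dual bound. -/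
theorem mt_abs : ∃ C : ℝ, 0 < C ∧ ∀ {ι : Type} (P : ι → Prop) (n a : ι → ℝ) (ν Y K : ℝ),
    0 ≤ ν → 0 < Y → 0 < K → (∀ k, 0 ≤ a k) → (∀ k, P k → 1 ≤ n k) →
    (∀ Z : ℝ, 1 ≤ Z → ∀ S : Finset ι, (∀ k ∈ S, P k ∧ Z / 2 < n k ∧ n k ≤ Z) →
      ∑ k ∈ S, a k ≤ ν * (Z * log (2 + Z) ^ 10 * max 1 (Z / Y) ^ 4)) →
    ∀ S : Finset ι, (∀ k ∈ S, P k) →
      ∑ k ∈ S, min ((n k / K) ^ (-3 / 4 : ℝ)) ((n k / K) ^ (-6 : ℝ)) * a k ≤
        C * ν * (K * log (2 + K) ^ 10 * max 1 (K / Y) ^ 4) := by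
  classical
  set r : ℝ := 2 ^ (1 / 40 : ℝ) with hr
  have hr1 : 1 < r := one_lt_rpow (by norm_num) (by norm_num)
  have hr40 : r ^ 40 = 2 := by
    rw [hr, ← rpow_natCast, ← rpow_mul (by norm_num)]
    norm_num
  have hc : 0 < 4 * r / (r - 1) := div_pos (by linarith) (by linarith)
  refine ⟨64 * 61 ^ 10 * (4 * r / (r - 1)), by positivity, ?_⟩
  intro ι P n a ν Y K hν hY hK ha hn H S hS
  set v : ℝ := K ^ (-1 / 40 : ℝ) with hv
  have hv0 : 0 < v := rpow_pos_of_pos hK _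
  have hv40 : v ^ 40 * K = 1 := by
    rw [hv, ← rpow_natCast, ← rpow_mul hK.le]
    have : (-1 / 40 : ℝ) * ((40 : ℕ) : ℝ) = -1 := by norm_num
    rw [this, rpow_neg_one]
    field_simp
  have hZ : ∀ j : ℕ, (v * r ^ j) ^ 40 * K = 2 ^ j := by
    intro j
    rw [mul_pow, ← pow_mul, mul_comm j, pow_mul, hr40]
    linear_combination (2 : ℝ) ^ j * hv40
  have hex : ∀ k, ∃ j : ℕ, n k ≤ 2 ^ j := fun k =>
    (pow_unbounded_of_one_lt (n k) (by norm_num : (1 : ℝ) < 2)).imp fun _ h => h.le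
  set c : ι → ℕ := fun k => Nat.find (hex k) with hcdef
  have hc1 : ∀ k, n k ≤ 2 ^ c k := fun k => Nat.find_spec (hex k)
  have hc2 : ∀ k, P k → (2 : ℝ) ^ c k / 2 < n k := by
    intro k hk
    rcases h0 : c k with _ | j
    · have := hn k hk
      norm_num
      linarith
    · have hj : j < Nat.find (hex k) := by
        change j < c k
        omega
      have := Nat.find_min (hex k) hj
      rw [pow_succ]
      push Not at this
      linarith
  set B : ℝ := K * log (2 + K) ^ 10 * max 1 (K / Y) ^ 4 with hB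
  have hB0 : 0 ≤ B := by
    have := lg_ge hK.le
    have hm : (0 : ℝ) ≤ max 1 (K / Y) := le_trans zero_le_one (le_max_left _ _)
    positivity
  obtain ⟨N, hN⟩ : ∃ N, ∀ k ∈ S, c k ∈ range N :=
    ⟨S.sup c + 1, fun k hk => mem_range.2 (Nat.lt_succ_of_le (le_sup hk))⟩
  rw [← sum_fiberwise_of_maps_to hN]
  have key : ∀ j ∈ range N, ∑ k ∈ S with c k = j,
      min ((n k / K) ^ (-3 / 4 : ℝ)) ((n k / K) ^ (-6 : ℝ)) * a k ≤
        64 * 61 ^ 10 * ν * B * min (v * r ^ j) (v * r ^ j)⁻¹ := by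
    intro j _
    set y := v * r ^ j with hy
    have hy0 : 0 < y := by positivity
    have hb := mt_block hy0 hK hY
    have hw : 0 ≤ min ((y ^ 40 / 2) ^ (-3 / 4 : ℝ)) ((y ^ 40 / 2) ^ (-6 : ℝ)) :=
      le_min (by positivity) (by positivity)
    have hH := H (2 ^ j) (one_le_pow₀ (by norm_num)) (S.filter fun k => c k = j) (by
      intro k hk
      obtain ⟨h1, h2⟩ := mem_filter.1 hk
      exact ⟨hS k h1, h2 ▸ hc2 k (hS k h1), h2 ▸ hc1 k⟩)
    rw [← hZ j, ← hy] at hH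
    calc _ ≤ ∑ k ∈ S with c k = j,
          min ((y ^ 40 / 2) ^ (-3 / 4 : ℝ)) ((y ^ 40 / 2) ^ (-6 : ℝ)) * a k := by
          refine sum_le_sum fun k hk => ?_
          obtain ⟨h1, h2⟩ := mem_filter.1 hk
          have h3 := hc2 k (hS k h1)
          rw [h2, ← hZ j, ← hy] at h3
          have h4 : y ^ 40 / 2 ≤ n k / K := by
            rw [le_div_iff₀ hK]
            linarith
          refine mul_le_mul_of_nonneg_right (min_le_min ?_ ?_) (ha k)
          · exact rpow_le_rpow_of_nonpos (by positivity) h4 (by norm_num)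
          · exact rpow_le_rpow_of_nonpos (by positivity) h4 (by norm_num)
      _ = min ((y ^ 40 / 2) ^ (-3 / 4 : ℝ)) ((y ^ 40 / 2) ^ (-6 : ℝ)) *
          ∑ k ∈ S with c k = j, a k := by rw [mul_sum]
      _ ≤ min ((y ^ 40 / 2) ^ (-3 / 4 : ℝ)) ((y ^ 40 / 2) ^ (-6 : ℝ)) *
          (ν * ((y ^ 40 * K) * log (2 + y ^ 40 * K) ^ 10 * max 1 (y ^ 40 * K / Y) ^ 4)) := by
          gcongr
      _ = ν * (min ((y ^ 40 / 2) ^ (-3 / 4 : ℝ)) ((y ^ 40 / 2) ^ (-6 : ℝ)) *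
          ((y ^ 40 * K) * log (2 + y ^ 40 * K) ^ 10 * max 1 (y ^ 40 * K / Y) ^ 4)) := by ring
      _ ≤ ν * (64 * 61 ^ 10 * B * min y y⁻¹) := by gcongr
      _ = _ := by ring
  calc _ ≤ ∑ j ∈ range N, 64 * 61 ^ 10 * ν * B * min (v * r ^ j) (v * r ^ j)⁻¹ := sum_le_sum key
    _ = 64 * 61 ^ 10 * ν * B * ∑ j ∈ range N, min (v * r ^ j) (v * r ^ j)⁻¹ := by rw [mul_sum]
    _ ≤ 64 * 61 ^ 10 * ν * B * (4 * r / (r - 1)) := by
        gcongr
        exact geo_min_sum hr1 hv0 N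
    _ = _ := by ring

end Pool.Agent.QM
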