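import Pool.Agent.P.MP_ea46f5_nt.QM.S2
import Pool.Agent.P.MP_ea46f5_nt.QM.MtAbs

namespace Pool.Agent.QM

open Complex MeasureTheory Finset
open scoped Real ComplexConjugate

theorem mt_mem_Sq {Z : ℝ} {k : ℤ} :
    k ∈ Sq Z ↔ Squarefree k ∧ k ≠ 1 ∧ Z / 2 < |(k : ℝ)| ∧ |(k : ℝ)| ≤ Z := by
  classical
  unfold Sq
  rw [mem_filter, and_iff_right_iff_imp]
  rintro ⟨-, -, -, h⟩
  have h1 : |(k : ℝ)| ≤ (⌈Z⌉ : ℝ) := h.trans (Int.le_ceil Z)
  have h2 : |k| ≤ ⌈Z⌉ := by exact_mod_cast h1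
  exact mem_Icc.2 (abs_le.1 h2)

theorem pMT : MT := by
  obtain ⟨C, hC, H⟩ := mt_abs
  refine ⟨C, hC, fun A μ Y K hμ hY hK h4 F hF τ => ?_⟩
  have hb : 0 ≤ br τ ^ A := by unfold br; positivity
  have := H (fun k : ℤ => Squarefree k ∧ k ≠ 1) (fun k => |(k : ℝ)|)
    (fun k => ‖Lo k (1 / 2 + τ * I)‖ ^ 4) (μ * br τ ^ A) Y K (mul_nonneg hμ hb) (by linarith) hK
    (fun k => by positivity)
    (fun k hk => by
      have h0 : k ≠ 0 := hk.1.ne_zero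
      have : 1 ≤ |k| := Int.one_le_abs h0
      exact_mod_cast this)
    (fun Z hZ S hS => by
      have h1 := h4 Z hZ τ
      have h2 : ∑ k ∈ S, ‖Lo k (1 / 2 + τ * I)‖ ^ 4 ≤ M4 Z τ :=
        sum_le_sum_of_subset_of_nonneg
          (fun k hk => mt_mem_Sq.2 ⟨(hS k hk).1.1, (hS k hk).1.2, (hS k hk).2⟩)
          (fun k _ _ => by positivity)
      refine h2.trans (h1.trans (le_of_eq ?_))
      unfold lg
      ring) F hF
  have e : (-3 / 4 : ℝ) = -(3 / 4) := by norm_num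
  rw [e] at this
  refine le_trans this (le_of_eq ?_)
  unfold lg
  ring

end Pool.Agent.QM
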