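import Pool.Agent.P.MP_ea46f5_nt.QM.S2

namespace Pool.Agent.QM

open Complex MeasureTheory Finset
open scoped Real ComplexConjugate

theorem tk2_br1 (t : ℝ) : 1 ≤ br t := by
  unfold br; linarith [abs_nonneg t]

theorem tk2_br0 (t : ℝ) : 0 < br t := lt_of_lt_of_le one_pos (tk2_br1 t)

theorem tk2_brneg (t : ℝ) : br (-t) = br t := by simp [br]

theorem tk2_M {A : ℕ} {K M : ℝ} (h : Dual A K M) : 0 ≤ M := by
  have := h ∅ (fun k hk => by simp at hk) 0
  simpa [br] using this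

theorem tk2_exp (hDEC : DEC) (A : ℕ) : ∃ C : ℝ, 0 < C ∧ ∀ τ u : ℝ,
    Real.exp (-|τ - u| / 2) * br τ ^ A ≤ C * br u ^ A * (1 / br (τ - u) ^ 2) := by
  obtain ⟨C, hC, h⟩ := hDEC.2.1 (A + 2)
  refine ⟨C, hC, fun τ u => ?_⟩
  have h1 := h (τ - u) 0
  have h2 : br τ ≤ br (τ - u) * br u := by simpa using hDEC.1 (τ - u) u
  have h3 : br τ ^ A ≤ br (τ - u) ^ A * br u ^ A := by
    rw [← mul_pow]; exact pow_le_pow_left₀ (tk2_br0 _).le h2 A
  have h4 : br 0 = 1 := by simp [br]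
  rw [sub_zero, h4, one_pow, mul_one, pow_add] at h1
  have h5 := tk2_br0 (τ - u)
  have h6 := tk2_br0 u
  rw [mul_one_div, le_div_iff₀ (by positivity)]
  calc _ ≤ Real.exp (-|τ - u| / 2) * (br (τ - u) ^ A * br u ^ A) * br (τ - u) ^ 2 := by gcongr
    _ = Real.exp (-|τ - u| / 2) * (br (τ - u) ^ A * br (τ - u) ^ 2) * br u ^ A := by ring
    _ ≤ _ := by gcongr

theorem tk2_shift (hDEC : DEC) (u : ℝ) : Integrable (fun τ : ℝ => 1 / br (τ - u) ^ 2) ∧
    ∫ τ : ℝ, 1 / br (τ - u) ^ 2 ≤ 2 := by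
  refine ⟨hDEC.2.2.2.1.1.comp_sub_right u, ?_⟩
  rw [integral_sub_right_eq_self (fun t : ℝ => 1 / br t ^ 2) u]
  exact hDEC.2.2.2.1.2

theorem tk2_int (hLOP : LOP) (hLOB : LOB) (hDEC : DEC) (k : ℤ) (h1 : Squarefree k) (h2 : k ≠ 1)
    (u : ℝ) :
    Integrable fun τ : ℝ => Real.exp (-|τ - u| / 2) * ‖Lo k (1 / 2 + τ * I)‖ ^ 4 := by
  obtain ⟨C, hC, h⟩ := tk2_exp hDEC 4
  have hc : Continuous (Lo k) := (hLOP.2.1 k h1 h2).continuous
  refine Integrable.mono' ((tk2_shift hDEC u).1.const_mul ((8 * |(k : ℝ)|) ^ 4 * (C * br u ^ 4)))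
    (Continuous.aestronglyMeasurable (by fun_prop)) (Filter.Eventually.of_forall fun τ => ?_)
  rw [Real.norm_of_nonneg (by positivity)]
  have e1 : (1 / 2 + τ * I : ℂ).re = 1 / 2 := by simp
  have e2 : ‖(1 / 2 + τ * I : ℂ)‖ ≤ br τ := by
    refine (norm_add_le _ _).trans ?_
    unfold br
    simp only [norm_div, norm_one, Complex.norm_ofNat, norm_mul, Complex.norm_real, Complex.norm_I,
      mul_one, Real.norm_eq_abs]
    linarith
  have e3 := hLOB k (1 / 2 + τ * I) h1 h2 (by rw [e1]; norm_num)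
  rw [e1] at e3
  have e4 : ‖Lo k (1 / 2 + τ * I)‖ ≤ 8 * |(k : ℝ)| * br τ := by
    refine e3.trans ?_
    have := mul_le_mul_of_nonneg_left e2 (abs_nonneg (k : ℝ))
    linarith
  calc _ ≤ Real.exp (-|τ - u| / 2) * (8 * |(k : ℝ)| * br τ) ^ 4 := by gcongr
    _ = (8 * |(k : ℝ)|) ^ 4 * (Real.exp (-|τ - u| / 2) * br τ ^ 4) := by ring
    _ ≤ (8 * |(k : ℝ)|) ^ 4 * (C * br u ^ 4 * (1 / br (τ - u) ^ 2)) :=
      mul_le_mul_of_nonneg_left (h τ u) (by positivity)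
    _ = _ := by ring

theorem pTK2 (hLOP : LOP) (hLOB : LOB) (hDEC : DEC) : TK2 := by
  intro A
  obtain ⟨C, hC, h⟩ := tk2_exp hDEC A
  refine ⟨2 * C, by positivity, fun K M u F hD hF => ?_⟩
  have hM := tk2_M hD
  have hi : ∀ k ∈ F, Integrable fun τ : ℝ =>
      om (|(k : ℝ)| / K) * (Real.exp (-|τ - u| / 2) * ‖Lo k (1 / 2 + τ * I)‖ ^ 4) :=
    fun k hk => (tk2_int hLOP hLOB hDEC k (hF k hk).1 (hF k hk).2 u).const_mul _
  unfold Lw
  simp only [← integral_const_mul]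
  rw [← integral_finsetSum F hi]
  have hb := tk2_br0 u
  refine (integral_mono (integrable_finsetSum F hi)
    ((tk2_shift hDEC u).1.const_mul (M * (C * br u ^ A))) fun τ => ?_).trans ?_
  · calc _ = Real.exp (-|τ - u| / 2) *
          ∑ k ∈ F, om (|(k : ℝ)| / K) * ‖Lo k (1 / 2 + τ * I)‖ ^ 4 := by
          rw [Finset.mul_sum]; exact sum_congr rfl fun k _ => by ring
      _ ≤ Real.exp (-|τ - u| / 2) * (M * br τ ^ A) :=
          mul_le_mul_of_nonneg_left (hD F hF τ) (Real.exp_pos _).le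
      _ = M * (Real.exp (-|τ - u| / 2) * br τ ^ A) := by ring
      _ ≤ M * (C * br u ^ A * (1 / br (τ - u) ^ 2)) := mul_le_mul_of_nonneg_left (h τ u) hM
      _ = _ := by ring
  · rw [integral_const_mul]
    calc _ ≤ M * (C * br u ^ A) * 2 :=
          mul_le_mul_of_nonneg_left (tk2_shift hDEC u).2 (by positivity)
      _ = _ := by ring

theorem tk2_sum (F : Finset ℤ) (f : ℤ → ℝ → ℂ) (G : ℝ → ℝ) (hG : Integrable G)
    (h : ∀ y, ∑ k ∈ F, ‖f k y‖ ≤ G y) : ∑ k ∈ F, ‖∫ y, f k y‖ ≤ ∫ y, G y := by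
  classical
  obtain ⟨F', hs, hi, h0⟩ : ∃ F' : Finset ℤ, F' ⊆ F ∧ (∀ k ∈ F', Integrable (f k)) ∧
      ∀ k ∈ F, k ∉ F' → ¬ Integrable (f k) :=
    ⟨F.filter fun k => Integrable (f k), filter_subset _ _, fun k hk => (mem_filter.1 hk).2,
      fun k hk h1 h2 => h1 (mem_filter.2 ⟨hk, h2⟩)⟩
  have hi' : ∀ k ∈ F', Integrable fun y => ‖f k y‖ := fun k hk => (hi k hk).norm
  have e1 : ∑ k ∈ F', ‖∫ y, f k y‖ = ∑ k ∈ F, ‖∫ y, f k y‖ :=
    sum_subset hs fun k hk h1 => by rw [integral_undef (h0 k hk h1), norm_zero]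
  have e2 : ∑ k ∈ F', ‖∫ y, f k y‖ ≤ ∑ k ∈ F', ∫ y, ‖f k y‖ :=
    sum_le_sum fun k _ => norm_integral_le_integral_norm _
  rw [← e1]
  refine e2.trans ?_
  rw [← integral_finsetSum F' hi']
  refine integral_mono (integrable_finsetSum F' hi') hG fun y => ?_
  exact (sum_le_sum_of_subset_of_nonneg hs fun _ _ _ => norm_nonneg _).trans (h y)

theorem tk2_om (k : ℤ) (hk : k ≠ 0) (X N : ℝ) (hX : 1 ≤ X) (hN : 1 ≤ N) :
    (|(k : ℝ)| * X) ^ (-sk (N ^ 2 / X) k) * N ^ (2 * sk (N ^ 2 / X) k - 1) =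
      om (|(k : ℝ)| / (N ^ 2 / X)) / N := by
  have hk0 : 0 < |(k : ℝ)| := abs_pos.2 (by exact_mod_cast hk)
  have hN0 : 0 < N := by linarith
  have hX0 : 0 < X := by linarith
  have hK : 0 < N ^ 2 / X := by positivity
  have e1 : om (|(k : ℝ)| / (N ^ 2 / X)) = (|(k : ℝ)| / (N ^ 2 / X)) ^ (-sk (N ^ 2 / X) k) := by
    unfold om sk
    split_ifs with h
    · exact min_eq_left (Real.rpow_le_rpow_of_exponent_ge (by positivity)
        ((div_le_one hK).2 h) (by norm_num))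
    · exact min_eq_right (Real.rpow_le_rpow_of_exponent_le
        ((one_le_div hK).2 (not_le.1 h).le) (by norm_num))
  rw [e1]
  generalize sk (N ^ 2 / X) k = σ
  have e2 : |(k : ℝ)| / (N ^ 2 / X) = |(k : ℝ)| * X / N ^ (2 : ℝ) := by
    rw [Real.rpow_two]; field_simp
  rw [e2, Real.div_rpow (by positivity) (by positivity), ← Real.rpow_mul hN0.le,
    Real.rpow_sub_one hN0.ne', mul_neg, Real.rpow_neg hN0.le]
  field_simp

theorem pTMK (hTK1 : TK1) (hTK2 : TK2) (hKZ : KZ) (hDEC : DEC) (hLEN : LEN) : TMK := by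
  obtain ⟨C2, B, c, hC2, hB, h1⟩ := hTK1
  refine ⟨B, c, hB, fun A => ?_⟩
  obtain ⟨C3, hC3, h3⟩ := hTK2 A
  obtain ⟨C1, hC1, h2⟩ := hKZ (c + A + 2)
  refine ⟨10 * C1 * C2 * C3, by positivity, ?_⟩
  intro w P R Y ε X N t₀ W M F hP hL hε hε' hX hN hw hD hF
  have hY : 0 ≤ Y := (hLEN.2.1 P B R Y hL).1
  have hM := tk2_M hD
  have hN0 : 0 < N := by linarith
  have hX0 : 0 < X := by linarith
  have ht := tk2_br0 t₀
  set K := N ^ 2 / X with hK
  set Q := 5 * C1 * C2 * C3 * Y * W ^ 2 * br t₀ ^ (c + A) * M / N with hQ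
  have hQ0 : 0 ≤ Q := by positivity
  have key : ∀ y : ℝ, ∑ k ∈ F, ‖Kz k X (sk K k + y * I) * Jk w P R k (sk K k + y * I)‖ ≤
      Q * (1 / br y ^ 2) := by
    intro y
    have hy := tk2_br0 y
    set D := 5 * C1 / br y ^ (c + A + 2) / 2 * (C2 * Y * W ^ 2 * br t₀ ^ c * br y ^ c / N) with hD'
    have hD0 : 0 ≤ D := by positivity
    have e1 : ∀ k ∈ F, ‖Kz k X (sk K k + y * I) * Jk w P R k (sk K k + y * I)‖ ≤
        D * (om (|(k : ℝ)| / K) * Lw k (t₀ - y) + om (|(k : ℝ)| / K) * Lw k (-t₀ - y)) := by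
      intro k hk
      have hk0 : k ≠ 0 := (hF k hk).1.ne_zero
      have hk1 : 0 < |(k : ℝ)| := abs_pos.2 (by exact_mod_cast hk0)
      have r1 : ((sk K k : ℂ) + y * I).re = sk K k := by simp
      have r2 : ((sk K k : ℂ) + y * I).im = y := by simp
      have s1 : 3 / 4 ≤ sk K k := by unfold sk; split_ifs <;> norm_num
      have s2 : sk K k ≤ 6 := by unfold sk; split_ifs <;> norm_num
      have g1 := h1 w P R Y ε N t₀ W k (sk K k + y * I) hP hL hε hε' hN hw (hF k hk).1 (hF k hk).2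
        (by rw [r1]; exact s1) (by rw [r1]; exact s2)
      have g2 := (h2 (sk K k + y * I)).2.1 (by rw [r1]; linarith) (by rw [r1]; linarith)
      rw [r1, r2] at g1 g2
      have g3 : 1 / (sk K k - 1 / 2) ≤ 4 := by
        rw [div_le_iff₀ (by linarith)]; linarith
      have g4 : ‖Gammaℝ (sk K k + y * I) * riemannZeta (2 * (sk K k + y * I))‖ ≤
          5 * C1 / br y ^ (c + A + 2) := by
        refine g2.trans (div_le_div_of_nonneg_right ?_ (by positivity))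
        nlinarith
      have g5 : ‖Kz k X (sk K k + y * I)‖ ≤
          5 * C1 / br y ^ (c + A + 2) / 2 * (|(k : ℝ)| * X) ^ (-sk K k) := by
        unfold Kz
        rw [norm_mul, Complex.norm_cpow_eq_rpow_re_of_pos (by positivity), Complex.neg_re, r1,
          div_mul_eq_mul_div, norm_div, Complex.norm_ofNat]
        gcongr
      rw [norm_mul]
      refine (mul_le_mul g5 g1 (norm_nonneg _) (by positivity)).trans (le_of_eq ?_)
      have g6 := tk2_om k hk0 X N hX hN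
      calc _ = 5 * C1 / br y ^ (c + A + 2) / 2 * (C2 * Y * W ^ 2 * br t₀ ^ c * br y ^ c) *
            (Lw k (t₀ - y) + Lw k (-t₀ - y)) *
            ((|(k : ℝ)| * X) ^ (-sk K k) * N ^ (2 * sk K k - 1)) := by ring
        _ = _ := by rw [g6, hD']; ring
    have b1 : br (t₀ - y) ^ A ≤ (br t₀ * br y) ^ A := by
      refine pow_le_pow_left₀ (tk2_br0 _).le ?_ A
      have := hDEC.1 t₀ (-y)
      rwa [tk2_brneg, ← sub_eq_add_neg] at this
    have b2 : br (-t₀ - y) ^ A ≤ (br t₀ * br y) ^ A := by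
      refine pow_le_pow_left₀ (tk2_br0 _).le ?_ A
      have := hDEC.1 (-t₀) (-y)
      rwa [tk2_brneg, tk2_brneg, ← sub_eq_add_neg] at this
    have b3 := (h3 K M (t₀ - y) F hD hF).trans
      (mul_le_mul_of_nonneg_left b1 (by positivity))
    have b4 := (h3 K M (-t₀ - y) F hD hF).trans
      (mul_le_mul_of_nonneg_left b2 (by positivity))
    refine (sum_le_sum e1).trans ?_
    rw [← Finset.mul_sum, sum_add_distrib]
    refine (mul_le_mul_of_nonneg_left (add_le_add b3 b4) hD0).trans (le_of_eq ?_)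
    rw [hD', hQ]
    field_simp
    ring
  have k2 := tk2_sum F (fun k y => Kz k X (sk K k + y * I) * Jk w P R k (sk K k + y * I)) _
    (hDEC.2.2.2.1.1.const_mul Q) key
  rw [integral_const_mul] at k2
  have k3 := k2.trans (mul_le_mul_of_nonneg_left hDEC.2.2.2.1.2 hQ0)
  refine le_trans (sum_le_sum fun k _ => ?_) (k3.trans (le_of_eq ?_))
  · unfold Yk Iv
    rw [norm_mul]
    refine mul_le_of_le_one_left (norm_nonneg _) ?_
    rw [norm_div, norm_one, norm_mul, Complex.norm_ofNat, Complex.norm_real,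
      Real.norm_of_nonneg Real.pi_pos.le, div_le_one (by positivity)]
    linarith [Real.pi_gt_three]
  · rw [hQ]; ring

end Pool.Agent.QM
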