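import Pool.Agent.P.MP_ea46f5_nt.QM.S1

namespace Pool.Agent.QM

open Complex MeasureTheory Finset
open scoped Real ComplexConjugate

theorem e0_term (f : ℕ → ℂ) (h0 : f 0 = 0) : LSeries.term f 0 = f := by
  funext n
  rcases eq_or_ne n 0 with rfl | hn
  · simp [h0]
  · rw [LSeries.term_of_ne_zero hn, Complex.cpow_zero, div_one]

theorem e0_conv (f g : ArithmeticFunction ℂ) (χ : ℕ → ℂ) (hχ : ∀ a b, χ (a * b) = χ a * χ b)
    (a b : ℂ) (hf : HasSum (fun n => f n * χ n) a) (hg : HasSum (fun n => g n * χ n) b) :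
    HasSum (fun n => (f * g) n * χ n) (a * b) := by
  have h1 : LSeriesHasSum (fun n => f n * χ n) 0 a := by
    unfold LSeriesHasSum
    rw [e0_term _ (by simp)]
    exact hf
  have h2 : LSeriesHasSum (fun n => g n * χ n) 0 b := by
    unfold LSeriesHasSum
    rw [e0_term _ (by simp)]
    exact hg
  have h3 := LSeriesHasSum.convolution h1 h2
  unfold LSeriesHasSum at h3
  rw [e0_term _ (LSeries.convolution_map_zero _ _), LSeries.convolution_def] at h3
  have h4 : (fun n => (f * g) n * χ n) =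
      fun n : ℕ => ∑ p ∈ n.divisorsAntidiagonal, f p.1 * χ p.1 * (g p.2 * χ p.2) := by
    funext n
    rw [ArithmeticFunction.mul_apply, Finset.sum_mul]
    refine Finset.sum_congr rfl fun p hp => ?_
    rw [← (Nat.mem_divisorsAntidiagonal.mp hp).1, hχ]
    ring
  rw [h4]
  exact h3

theorem e0_cf (χ : ℕ → ℂ) (hχ : ∀ a b, χ (a * b) = χ a * χ b) (s₁ s₂ a b : ℂ)
    (h1 : HasSum (fun n => po s₁ n * χ n) a) (h2 : HasSum (fun n => po s₂ n * χ n) b) :
    HasSum (fun n => Cf s₁ s₂ n * χ n) (a ^ 2 * b ^ 2) := by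
  have h := e0_conv _ _ χ hχ _ _ (e0_conv _ _ χ hχ _ _ h1 h1) (e0_conv _ _ χ hχ _ _ h2 h2)
  rw [sq, sq]
  exact h

theorem e0_po (s : ℂ) (n : ℕ) :
    po s n = if Odd n then (n : ℂ) ^ (-(1 / 2 + s)) else 0 := rfl

theorem e0_po_mul (s : ℂ) (a b : ℕ) : po s (a * b) = po s a * po s b := by
  rw [e0_po, e0_po, e0_po]
  by_cases ha : Odd a
  · by_cases hb : Odd b
    · rw [if_pos ha, if_pos hb, if_pos (ha.mul hb), Nat.cast_mul, Complex.natCast_mul_natCast_cpow]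
    · rw [if_neg hb, if_neg (fun h => hb (Nat.odd_mul.mp h).2), mul_zero]
  · rw [if_neg ha, if_neg (fun h => ha (Nat.odd_mul.mp h).1), zero_mul]

theorem e0_po_mult (s : ℂ) : (po s).IsMultiplicative :=
  ⟨by rw [e0_po]; simp, fun {a b} _ => e0_po_mul s a b⟩

theorem e0_even (f g : ArithmeticFunction ℂ) (hf : ∀ n, ¬ Odd n → f n = 0)
    (hg : ∀ n, ¬ Odd n → g n = 0) (n : ℕ) (hn : ¬ Odd n) : (f * g) n = 0 := by
  rw [ArithmeticFunction.mul_apply]
  refine Finset.sum_eq_zero fun p hp => ?_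
  have h := (Nat.mem_divisorsAntidiagonal.mp hp).1
  by_cases ha : Odd p.1
  · have hb : ¬ Odd p.2 := fun hb => hn (h ▸ ha.mul hb)
    rw [hg _ hb, mul_zero]
  · rw [hf _ ha, zero_mul]

theorem e0_po_even (s : ℂ) (n : ℕ) (hn : ¬ Odd n) : po s n = 0 := by
  rw [e0_po, if_neg hn]

theorem e0_cf_even (s₁ s₂ : ℂ) (n : ℕ) (hn : ¬ Odd n) : Cf s₁ s₂ n = 0 :=
  e0_even _ _ (e0_even _ _ (e0_po_even s₁) (e0_po_even s₁))
    (e0_even _ _ (e0_po_even s₂) (e0_po_even s₂)) n hn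

theorem e0_card (n : ℕ) : n.divisorsAntidiagonal.card ≤ n := by
  rw [← Nat.map_div_right_divisors, Finset.card_map]
  exact Nat.card_divisors_le_self n

theorem e0_bd (f g : ArithmeticFunction ℂ) (c : ℝ) (hf : ∀ n : ℕ, ‖f n‖ ≤ (n : ℝ) ^ c)
    (hg : ∀ n : ℕ, ‖g n‖ ≤ (n : ℝ) ^ c) (n : ℕ) : ‖(f * g) n‖ ≤ (n : ℝ) ^ (c + 1) := by
  rcases eq_or_ne n 0 with rfl | hn
  · rw [ArithmeticFunction.map_zero, norm_zero]
    exact Real.rpow_nonneg (Nat.cast_nonneg _) _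
  have hn' : (0 : ℝ) < n := by exact_mod_cast Nat.pos_of_ne_zero hn
  rw [ArithmeticFunction.mul_apply]
  refine (norm_sum_le _ _).trans ?_
  have h1 : ∀ p ∈ n.divisorsAntidiagonal, ‖f p.1 * g p.2‖ ≤ (n : ℝ) ^ c := by
    intro p hp
    rw [norm_mul, ← (Nat.mem_divisorsAntidiagonal.mp hp).1, Nat.cast_mul,
      Real.mul_rpow (Nat.cast_nonneg _) (Nat.cast_nonneg _)]
    exact mul_le_mul (hf _) (hg _) (norm_nonneg _) (Real.rpow_nonneg (Nat.cast_nonneg _) _)
  refine (Finset.sum_le_card_nsmul _ _ _ h1).trans ?_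
  rw [nsmul_eq_mul, Real.rpow_add hn', Real.rpow_one, mul_comm]
  refine mul_le_mul_of_nonneg_left ?_ (Real.rpow_nonneg hn'.le _)
  exact_mod_cast e0_card n

theorem e0_po_bd (s : ℂ) (hs : s.re = 12) (n : ℕ) : ‖po s n‖ ≤ (n : ℝ) ^ (-(25 / 2) : ℝ) := by
  rw [e0_po]
  split_ifs with h
  · rw [Complex.norm_natCast_cpow_of_pos h.pos]
    have : (-(1 / 2 + s)).re = -(25 / 2) := by
      simp [hs]
      norm_num
    rw [this]
  · rw [norm_zero]
    exact Real.rpow_nonneg (Nat.cast_nonneg _) _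

theorem e0_cf_bd (s₁ s₂ : ℂ) (n : ℕ) (h1 : s₁.re = 12) (h2 : s₂.re = 12) :
    ‖Cf s₁ s₂ n‖ ≤ (n : ℝ) ^ (-(19 / 2) : ℝ) := by
  rcases eq_or_ne n 0 with rfl | hn
  · rw [ArithmeticFunction.map_zero, norm_zero]
    exact Real.rpow_nonneg (Nat.cast_nonneg _) _
  have h := e0_bd _ _ _ (e0_bd _ _ _ (e0_po_bd s₁ h1) (e0_po_bd s₁ h1))
    (e0_bd _ _ _ (e0_po_bd s₂ h2) (e0_po_bd s₂ h2)) n
  refine le_trans h (Real.rpow_le_rpow_of_exponent_le ?_ (by norm_num))
  exact_mod_cast Nat.pos_of_ne_zero hn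

theorem e0_po_cont (n : ℕ) : Continuous fun s : ℂ => po s n := by
  simp only [e0_po]
  by_cases h : Odd n
  · simp only [if_pos h]
    have hn : (n : ℂ) ≠ 0 := by exact_mod_cast h.pos.ne'
    exact Continuous.const_cpow (by fun_prop) (Or.inl hn)
  · simp only [if_neg h]
    exact continuous_const

theorem e0_mul_cont (f g : ℂ × ℂ → ArithmeticFunction ℂ) (hf : ∀ n, Continuous fun x => f x n)
    (hg : ∀ n, Continuous fun x => g x n) (n : ℕ) : Continuous fun x => (f x * g x) n := by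
  simp only [ArithmeticFunction.mul_apply]
  exact continuous_finsetSum _ fun p _ => (hf _).mul (hg _)

theorem e0_cf_cont (n : ℕ) : Continuous fun x : ℂ × ℂ => Cf x.1 x.2 n := by
  have h1 : ∀ n, Continuous fun x : ℂ × ℂ => po x.1 n :=
    fun n => (e0_po_cont n).comp continuous_fst
  have h2 : ∀ n, Continuous fun x : ℂ × ℂ => po x.2 n :=
    fun n => (e0_po_cont n).comp continuous_snd
  exact e0_mul_cont (fun x => po x.1 * po x.1) (fun x => po x.2 * po x.2)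
    (e0_mul_cont (fun x => po x.1) (fun x => po x.1) h1 h1)
    (e0_mul_cont (fun x => po x.2) (fun x => po x.2) h2 h2) n

theorem e0_jo_mul (m : ℤ) (a b : ℕ) : jo m (a * b) = jo m a * jo m b := by
  unfold jo
  by_cases ha : Odd a
  · by_cases hb : Odd b
    · rw [if_pos ha, if_pos hb, if_pos (ha.mul hb),
        jacobiSym.mul_right' m ha.pos.ne' hb.pos.ne', Int.cast_mul]
    · rw [if_neg hb, if_neg (fun h => hb (Nat.odd_mul.mp h).2), mul_zero]
  · rw [if_neg ha, if_neg (fun h => ha (Nat.odd_mul.mp h).1), zero_mul]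

theorem e0_po_jo (hLSP : LSP) (m : ℤ) (s : ℂ) (hs : s.re = 12) :
    HasSum (fun n => po s n * jo m n) (LS m (1 / 2 + s)) := by
  have h := hLSP.1 m (1 / 2 + s) (by simp [hs]; norm_num)
  have h2 : (fun n => po s n * jo m n) = fun n : ℕ => jo m n * (n : ℂ) ^ (-(1 / 2 + s)) := by
    funext n
    rw [e0_po]
    by_cases hn : Odd n
    · rw [if_pos hn, mul_comm]
    · rw [if_neg hn, jo, if_neg hn, zero_mul, zero_mul]
  rw [h2]
  exact h

theorem e0_six (hLSP : LSP) (m : ℤ) (s₁ s₂ : ℂ) (h1 : s₁.re = 12) (h2 : s₂.re = 12) :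
    HasSum (fun n : ℕ => Cf s₁ s₂ n * (jacobiSym m n : ℂ))
      (LS m (1 / 2 + s₁) ^ 2 * LS m (1 / 2 + s₂) ^ 2) := by
  have h := e0_cf (jo m) (e0_jo_mul m) s₁ s₂ _ _ (e0_po_jo hLSP m s₁ h1) (e0_po_jo hLSP m s₂ h2)
  have h3 : (fun n : ℕ => Cf s₁ s₂ n * (jacobiSym m n : ℂ)) = fun n => Cf s₁ s₂ n * jo m n := by
    funext n
    by_cases hn : Odd n
    · rw [jo, if_pos hn]
    · rw [e0_cf_even s₁ s₂ n hn, zero_mul, zero_mul]
  rw [h3]
  exact h

/-- The completely multiplicative function with value `y` at `p` and `0` at the other primes. -/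
noncomputable def e0_chi (p : ℕ) (y : ℂ) (n : ℕ) : ℂ :=
  if n = 0 then 0 else n.factorization.prod fun q e => (if q = p then y else 0) ^ e

theorem e0_chi_mul (p : ℕ) (y : ℂ) (a b : ℕ) :
    e0_chi p y (a * b) = e0_chi p y a * e0_chi p y b := by
  unfold e0_chi
  rcases eq_or_ne a 0 with rfl | ha
  · simp
  rcases eq_or_ne b 0 with rfl | hb
  · simp
  rw [if_neg ha, if_neg hb, if_neg (mul_ne_zero ha hb), Nat.factorization_mul ha hb,
    Finsupp.prod_add_index' (fun _ => pow_zero _) (fun _ _ _ => pow_add _ _ _)]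

theorem e0_chi_pow (p : ℕ) (hp : p.Prime) (y : ℂ) (j : ℕ) : e0_chi p y (p ^ j) = y ^ j := by
  unfold e0_chi
  rw [if_neg (pow_ne_zero j hp.ne_zero), hp.factorization_pow,
    Finsupp.prod_single_index (h := fun q e => (if q = p then y else 0) ^ e) (pow_zero _),
    if_pos rfl]

theorem e0_chi_zero (p : ℕ) (y : ℂ) (n : ℕ) (hn : n ∉ Set.range fun j : ℕ => p ^ j) :
    e0_chi p y n = 0 := by
  unfold e0_chi
  split_ifs with h0
  · rfl
  by_contra hne
  refine hn ⟨n.primeFactorsList.length, (Nat.eq_prime_pow_of_unique_prime_dvd h0 ?_).symm⟩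
  intro d hd hdn
  by_contra hdp
  apply hne
  have hmem : d ∈ n.factorization.support := by
    rw [Nat.support_factorization]
    exact Nat.mem_primeFactors.mpr ⟨hd, hdn, h0⟩
  refine Finset.prod_eq_zero hmem ?_
  show (if d = p then y else 0) ^ n.factorization d = 0
  rw [if_neg hdp]
  exact zero_pow (Finsupp.mem_support_iff.mp hmem)

theorem e0_restrict (p : ℕ) (hp : p.Prime) (y a : ℂ) (f : ℕ → ℂ) :
    HasSum (fun j : ℕ => f (p ^ j) * y ^ j) a ↔ HasSum (fun n => f n * e0_chi p y n) a := by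
  have hinj : Function.Injective fun j : ℕ => p ^ j := Nat.pow_right_injective hp.two_le
  rw [← hinj.hasSum_iff (f := fun n => f n * e0_chi p y n)
    (fun n hn => by rw [e0_chi_zero p y n hn, mul_zero])]
  have : ((fun n => f n * e0_chi p y n) ∘ fun j : ℕ => p ^ j) =
      fun j : ℕ => f (p ^ j) * y ^ j := by
    funext j
    simp only [Function.comp, e0_chi_pow p hp]
  rw [this]

theorem e0_geom (s : ℂ) (p : ℕ) (y : ℤ) (hp : p.Prime) (h2 : p ≠ 2) (hs : 0 ≤ s.re)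
    (hy : y ∈ T3) :
    HasSum (fun j : ℕ => po s (p ^ j) * (y : ℂ) ^ j) (1 - xs s p * y)⁻¹ := by
  have hodd : Odd p := hp.odd_of_ne_two h2
  have hpo : ∀ j : ℕ, po s (p ^ j) = xs s p ^ j := by
    intro j
    induction j with
    | zero => rw [pow_zero, pow_zero]; exact (e0_po_mult s).1
    | succ j ih => rw [pow_succ, pow_succ, e0_po_mul, ih, e0_po, if_pos hodd, xs]
  have hy1 : ‖(y : ℂ)‖ ≤ 1 := by
    simp only [T3, Finset.mem_insert, Finset.mem_singleton] at hy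
    rcases hy with rfl | rfl | rfl <;> simp
  have hx : ‖xs s p‖ < 1 := by
    rw [xs, Complex.norm_natCast_cpow_of_pos hp.pos]
    refine Real.rpow_lt_one_of_one_lt_of_neg (by exact_mod_cast hp.one_lt) ?_
    have : (-(1 / 2 + s)).re = -(1 / 2 + s.re) := by simp
    rw [this]
    linarith
  have hn : ‖xs s p * y‖ < 1 := by
    rw [norm_mul]
    exact lt_of_le_of_lt (mul_le_of_le_one_right (norm_nonneg _) hy1) hx
  have h := hasSum_geometric_of_norm_lt_one hn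
  simp only [hpo, ← mul_pow]
  exact h

theorem e0_seven (s₁ s₂ : ℂ) (p : ℕ) (y : ℤ) (hp : p.Prime) (h2 : p ≠ 2) (hs₁ : 0 ≤ s₁.re)
    (hs₂ : 0 ≤ s₂.re) (hy : y ∈ T3) :
    HasSum (fun j : ℕ => Cf s₁ s₂ (p ^ j) * (y : ℂ) ^ j) (Fy s₁ s₂ p y) := by
  rw [e0_restrict p hp y _ (fun n => Cf s₁ s₂ n)]
  have h := e0_cf (e0_chi p y) (e0_chi_mul p y) s₁ s₂ _ _
    ((e0_restrict p hp y _ (fun n => po s₁ n)).mp (e0_geom s₁ p y hp h2 hs₁ hy))
    ((e0_restrict p hp y _ (fun n => po s₂ n)).mp (e0_geom s₂ p y hp h2 hs₂ hy))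
  rw [Fy, one_div, mul_inv, ← inv_pow, ← inv_pow]
  exact h

theorem pE0 (hLSP : LSP) : E0 := by
  refine ⟨?_, ?_, e0_cf_even, e0_cf_bd, e0_cf_cont, e0_six hLSP, e0_seven⟩
  · intro χ s₁ s₂ _ hχ h1 h2
    have h := e0_cf χ hχ s₁ s₂ _ _ h1.of_norm.hasSum h2.of_norm.hasSum
    exact ⟨h.summable.norm, h.tsum_eq⟩
  · intro s₁ s₂
    exact ((e0_po_mult s₁).mul (e0_po_mult s₁)).mul ((e0_po_mult s₂).mul (e0_po_mult s₂))

end Pool.Agent.QM
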