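import Pool.Agent.P.MP_ea46f5_nt.QM.S1

namespace Pool.Agent.QM

open Complex MeasureTheory Finset
open scoped Real ComplexConjugate

/-- The local value of `Tk` at a prime power. -/
noncomputable def e1_t (k : ℤ) (z : ℂ) (p v : ℕ) : ℂ :=
  if v = 0 then 1 else if Odd v then ok k z p else ek k z p

/-- The signed measure whose moments are the local values. -/
noncomputable def e1_m (k : ℤ) (z : ℂ) (p : ℕ) (y : ℤ) : ℂ :=
  if y = 0 then 1 - ek k z p else (ek k z p + y * ok k z p) / 2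

theorem e1_sumT3 (f : ℤ → ℂ) : ∑ y ∈ T3, f y = f (-1) + f 0 + f 1 := by
  rw [T3, sum_insert (by decide), sum_insert (by decide), sum_singleton, add_assoc]

theorem e1_mom (k : ℤ) (z : ℂ) (p v : ℕ) :
    e1_t k z p v = ∑ y ∈ T3, e1_m k z p y * (y : ℂ) ^ v := by
  rw [e1_sumT3, e1_t]
  rw [e1_m, e1_m, e1_m, if_neg (show (-1 : ℤ) ≠ 0 by decide), if_pos (rfl : (0 : ℤ) = 0),
    if_neg (show (1 : ℤ) ≠ 0 by decide)]
  push_cast
  split_ifs with h0 ho
  · subst h0; ring
  · rw [ho.neg_one_pow, zero_pow h0]; ring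
  · rw [(Nat.not_odd_iff_even.1 ho).neg_one_pow, zero_pow h0]; ring

theorem e1_mu (k : ℤ) (z s₁ s₂ : ℂ) (p : ℕ) (y : ℤ) :
    mu k z s₁ s₂ p y = e1_m k z p y * Fy s₁ s₂ p y := by
  unfold mu e1_m
  split_ifs with h
  · subst h; simp [Fy]
  · ring

theorem e1_Tk (k : ℤ) (z : ℂ) (n : ℕ) (S : Finset ℕ) (hS : n.primeFactors ⊆ S) :
    Tk k z n = ∏ p ∈ S, e1_t k z p (n.factorization p) := by
  rw [← prod_subset hS fun p _ hp => by
    rw [← Nat.support_factorization, Finsupp.notMem_support_iff] at hp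
    rw [hp, e1_t, if_pos rfl]]
  refine prod_congr rfl fun p hp => ?_
  rw [← Nat.support_factorization, Finsupp.mem_support_iff] at hp
  rw [e1_t, if_neg hp]

/-- The local factor of the multiplicative function attached to a point. -/
noncomputable def e1_g (P : Finset ℕ) (x : ℕ → ℤ) (k : ℤ) (z : ℂ) (p v : ℕ) : ℂ :=
  if p ∈ P then (x p : ℂ) ^ v else e1_t k z p v

/-- The multiplicative function attached to a point. -/
noncomputable def e1_W (P : Finset ℕ) (x : ℕ → ℤ) (k : ℤ) (z : ℂ) (n : ℕ) : ℂ :=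
  n.factorization.prod (e1_g P x k z)

theorem e1_W_mul (P : Finset ℕ) (x : ℕ → ℤ) (k : ℤ) (z : ℂ) {m n : ℕ} (h : Nat.Coprime m n) :
    e1_W P x k z (m * n) = e1_W P x k z m * e1_W P x k z n := by
  unfold e1_W
  rw [Nat.factorization_mul_of_coprime h, Finsupp.prod_add_index_of_disjoint]
  simpa using h.disjoint_primeFactors

theorem e1_W_pow (P : Finset ℕ) (x : ℕ → ℤ) (k : ℤ) (z : ℂ) {p : ℕ} (hp : p.Prime) (v : ℕ) :
    e1_W P x k z (p ^ v) = e1_g P x k z p v := by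
  rw [e1_W, hp.factorization_pow, Finsupp.prod_single_index]
  simp [e1_g, e1_t]

theorem e1_W_split (P : Finset ℕ) (x : ℕ → ℤ) (k : ℤ) (z : ℂ) (n : ℕ) :
    e1_W P x k z n = (∏ p ∈ P, (x p : ℂ) ^ n.factorization p) *
      ∏ p ∈ n.primeFactors \ P, e1_t k z p (n.factorization p) := by
  rw [e1_W, Nat.prod_factorization_eq_prod_primeFactors,
    ← prod_inter_mul_prod_sdiff n.primeFactors P]
  congr 1
  · refine (prod_congr rfl fun p hp => if_pos (mem_inter.1 hp).2).trans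
      (prod_subset inter_subset_right fun p hp hp' => ?_)
    have : p ∉ n.primeFactors := fun h => hp' (mem_inter.2 ⟨h, hp⟩)
    rw [← Nat.support_factorization, Finsupp.notMem_support_iff] at this
    rw [this, pow_zero]
  · exact prod_congr rfl fun p hp => if_neg (mem_sdiff.1 hp).2

theorem e1_Tk_mul (P : Finset ℕ) (k : ℤ) (z : ℂ) {n l : ℕ} (hn : n ≠ 0) (hl : l ≠ 0)
    (hP : l.primeFactors ⊆ P) : Tk k z (n * l) =
      (∏ p ∈ P, e1_t k z p (l.factorization p + n.factorization p)) *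
        ∏ p ∈ n.primeFactors \ P, e1_t k z p (n.factorization p) := by
  rw [e1_Tk k z (n * l) (P ∪ n.primeFactors \ P) (by
      rw [Nat.primeFactors_mul hn hl, union_sdiff_self_eq_union]
      exact union_subset subset_union_right (hP.trans subset_union_left)),
    prod_union disjoint_sdiff, Nat.factorization_mul hn hl]
  congr 1
  · exact prod_congr rfl fun p _ => by rw [Finsupp.add_apply, add_comm]
  · refine prod_congr rfl fun p hp => ?_
    have : p ∉ l.primeFactors := fun h => (mem_sdiff.1 hp).2 (hP h)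
    rw [← Nat.support_factorization, Finsupp.notMem_support_iff] at this
    rw [Finsupp.add_apply, this, add_zero]

theorem e1_norm_T3 {y : ℤ} (hy : y ∈ T3) : ‖(y : ℂ)‖ ≤ 1 := by
  simp only [T3, mem_insert, mem_singleton] at hy
  rcases hy with rfl | rfl | rfl <;> simp

theorem e1_W_le (hTKB : TKB) (P : Finset ℕ) {x : ℕ → ℤ} (hx : ∀ p, x p ∈ T3) (k : ℤ) {z : ℂ}
    (h0 : 0 ≤ z.re) (h6 : z.re ≤ 6) {n : ℕ} (hn : n ≠ 0) : ‖e1_W P x k z n‖ ≤ (n : ℝ) ^ 7 := by
  have h1 : (n : ℝ) ^ 7 = ∏ p ∈ n.primeFactors, ((p ^ n.factorization p : ℕ) : ℝ) ^ 7 := by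
    conv_lhs => rw [← Nat.prod_factorization_pow_eq_self hn]
    rw [Nat.prod_factorization_eq_prod_primeFactors, Nat.cast_prod, prod_pow]
  rw [h1, e1_W, Nat.prod_factorization_eq_prod_primeFactors, norm_prod]
  refine prod_le_prod (fun _ _ => norm_nonneg _) fun p hp => ?_
  have hpp := Nat.prime_of_mem_primeFactors hp
  have hv : p ^ n.factorization p ≠ 0 := pow_ne_zero _ hpp.ne_zero
  unfold e1_g
  split_ifs
  · rw [norm_pow]
    exact (pow_le_one₀ (norm_nonneg _) (e1_norm_T3 (hx p))).trans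
      (one_le_pow₀ (by exact_mod_cast Nat.pos_of_ne_zero hv))
  · have h2 := hTKB.2.1 k z _ h0 h6 hv
    rwa [e1_Tk k z _ {p} (by
      intro q hq
      rw [mem_singleton]
      exact (Nat.prime_dvd_prime_iff_eq (Nat.prime_of_mem_primeFactors hq) hpp).1
        ((Nat.prime_of_mem_primeFactors hq).dvd_of_dvd_pow (Nat.dvd_of_mem_primeFactors hq))),
      prod_singleton, hpp.factorization_pow, Finsupp.single_eq_same] at h2

theorem e1_summable (hE0 : E0) (hTKB : TKB) (P : Finset ℕ) {x : ℕ → ℤ} (hx : ∀ p, x p ∈ T3)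
    (k : ℤ) {z s₁ s₂ : ℂ} (h0 : 0 ≤ z.re) (h6 : z.re ≤ 6) (h1 : s₁.re = 12) (h2 : s₂.re = 12) :
    Summable fun n => ‖Cf s₁ s₂ n * e1_W P x k z n‖ := by
  refine Summable.of_nonneg_of_le (fun _ => norm_nonneg _) (fun n => ?_)
    (Real.summable_nat_rpow.2 (show (-(5 / 2) : ℝ) < -1 by norm_num))
  rcases eq_or_ne n 0 with rfl | hn
  · simp only [ArithmeticFunction.map_zero, zero_mul, norm_zero]; positivity
  · have hn0 : (0 : ℝ) < n := by exact_mod_cast Nat.pos_of_ne_zero hn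
    rw [norm_mul]
    calc _ ≤ (n : ℝ) ^ (-(19 / 2) : ℝ) * (n : ℝ) ^ 7 := by
          gcongr
          · exact hE0.2.2.2.1 s₁ s₂ n h1 h2
          · exact e1_W_le hTKB P hx k h0 h6 hn
      _ = _ := by
          rw [← Real.rpow_natCast, ← Real.rpow_add hn0]; norm_num

theorem e1_hasProd_mem {P : Finset ℕ} (hP : ∀ p ∈ P, p.Prime) (g : ℕ → ℂ) :
    HasProd (fun p : Nat.Primes => if (p : ℕ) ∈ P then g p else 1) (∏ p ∈ P, g p) := by
  have h := hasProd_prod_of_ne_finset_one (L := SummationFilter.unconditional Nat.Primes)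
    (f := fun p : Nat.Primes => if (p : ℕ) ∈ P then g p else 1) (s := P.subtype Nat.Prime)
    (fun p hp => if_neg fun h => hp (mem_subtype.2 h))
  have h2 := prod_subtype_of_mem (fun p : ℕ => if p ∈ P then g p else 1) hP
  rw [prod_congr rfl fun p hp => if_pos hp] at h2
  exact h2 ▸ h

theorem e1_euler (hE0 : E0) (hTKB : TKB) {P : Finset ℕ} (hP : OP P) {x : ℕ → ℤ}
    (hx : ∀ p, x p ∈ T3) (k : ℤ) {z s₁ s₂ : ℂ} (h0 : 0 ≤ z.re) (h6 : z.re ≤ 6) (h1 : s₁.re = 12)
    (h2 : s₂.re = 12) :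
    HasProd (fun p : Nat.Primes => (if (p : ℕ) ∈ P then Fy s₁ s₂ p (x p) else 1) *
      if (p : ℕ) = 2 ∨ (p : ℕ) ∈ P then 1 else locv k z s₁ s₂ p 0)
      (∑' n, Cf s₁ s₂ n * e1_W P x k z n) := by
  have hm := hE0.2.1 s₁ s₂
  have h := EulerProduct.eulerProduct_hasProd (f := fun n => Cf s₁ s₂ n * e1_W P x k z n)
    (by simp [hm.map_one, e1_W])
    (fun {m n} hmn => by rw [hm.map_mul_of_coprime hmn, e1_W_mul P x k z hmn]; ring)
    (e1_summable hE0 hTKB P hx k h0 h6 h1 h2) (by simp)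
  refine h.congr_fun fun p => ?_
  have hF := fun (hp2 : (p : ℕ) ≠ 2) (y : ℤ) (hy : y ∈ T3) =>
    hE0.2.2.2.2.2.2 s₁ s₂ p y p.2 hp2 (by rw [h1]; norm_num) (by rw [h2]; norm_num) hy
  simp only [e1_W_pow P x k z p.2]
  by_cases hp : (p : ℕ) ∈ P
  · simp only [e1_g, hp, or_true, if_true, mul_one]
    exact (hF (hP p hp).2 _ (hx p)).tsum_eq.symm
  · by_cases hp2 : (p : ℕ) = 2
    · rw [if_neg hp, if_pos (Or.inl hp2), one_mul, tsum_eq_single 0]
      · simp [hm.map_one, e1_g, e1_t]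
      · intro e he
        rw [hE0.2.2.1 s₁ s₂ _ (by
          rw [hp2, Nat.not_odd_iff_even]; exact (Nat.even_pow' he).2 even_two), zero_mul]
    · rw [if_neg hp, if_neg (not_or.2 ⟨hp2, hp⟩), one_mul]
      simp only [e1_g, if_neg hp, e1_mom, mul_sum, locv, pow_zero, mul_one, e1_mu]
      refine (HasSum.tsum_eq (hasSum_sum fun y hy => ?_)).symm
      exact ((hF hp2 y hy).mul_left _).congr_fun fun e => by ring

theorem pE1 (hE0 : E0) (hEXL : EXL) (hTKB : TKB) : E1 := by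
  intro P l k z s₁ s₂ hP hl hlP h0 h6 h1 h2
  have hT0 : (0 : ℤ) ∈ T3 := by decide
  have hb := (e1_euler hE0 hTKB hP (x := fun _ => 0) (fun _ => hT0) k h0 h6 h1 h2)
  simp only [Fy, Int.cast_zero, mul_zero, sub_zero, one_pow, mul_one, div_one, ite_self,
    one_mul] at hb
  set B : ℂ := ∏' p : Nat.Primes, if (p : ℕ) = 2 ∨ (p : ℕ) ∈ P then 1 else locv k z s₁ s₂ p 0
    with hB
  have hsum : ∀ x : ℕ → ℤ, (∀ p, x p ∈ T3) →
      HasSum (fun n => Cf s₁ s₂ n * e1_W P x k z n) ((∏ p ∈ P, Fy s₁ s₂ p (x p)) * B) := by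
    intro x hx
    have a1 := e1_euler hE0 hTKB hP hx k h0 h6 h1 h2
    have a2 := (e1_hasProd_mem (fun p hp => (hP p hp).1) fun p => Fy s₁ s₂ p (x p)).mul
      hb.multipliable.hasProd
    rw [← a1.unique a2]
    exact (e1_summable hE0 hTKB P hx k h0 h6 h1 h2).of_norm.hasSum
  have hext : ∀ x ∈ Fintype.piFinset (fun _ : P => T3), ∀ p, ext0 P x p ∈ T3 := by
    intro x hx p
    unfold ext0
    split_ifs with h
    · exact Fintype.mem_piFinset.1 hx _
    · exact hT0
  have h3 := hasSum_sum fun x hx => (hsum _ (hext x hx)).mul_left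
    ((∏ p : P, e1_m k z p (x p)) * ∏ p ∈ P, (ext0 P x p : ℂ) ^ l.factorization p)
  have h4 : Z1 l k z s₁ s₂ = _ := (h3.congr_fun fun n => ?_).tsum_eq
  · rw [h4, Zk, ← hB, Ex, sum_mul]
    refine sum_congr rfl fun x _ => ?_
    have : ∏ p ∈ P, Fy s₁ s₂ p (ext0 P x p) = ∏ p : P, Fy s₁ s₂ p (x p) := by
      rw [← prod_coe_sort P]
      exact prod_congr rfl fun p _ => by simp [ext0]
    rw [this, hEXL.2.2.1 P _ l hlP]
    simp only [e1_mu, prod_mul_distrib]
    push_cast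
    ring
  · rcases eq_or_ne n 0 with rfl | hn
    · simp
    · rw [e1_Tk_mul P k z hn hl hlP]
      simp only [e1_mom k z _ (_ + _)]
      rw [← hEXL.1 P (e1_m k z) (fun p y => (y : ℂ) ^ (l.factorization p + n.factorization p)),
        Ex, sum_mul, mul_sum]
      refine sum_congr rfl fun x _ => ?_
      simp only [e1_W_split, pow_add, prod_mul_distrib]
      ring

end Pool.Agent.QM
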