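import Pool.Agent.P.MP_ea46f5_nt.QM.S1

namespace Pool.Agent.QM

open Complex MeasureTheory Finset
open scoped Real ComplexConjugate

lemma e2_jo_norm (k : ℤ) (n : ℕ) : ‖jo k n‖ ≤ 1 := by
  unfold jo
  split_ifs
  · rcases jacobiSym.trichotomy k n with h | h | h <;> simp [h]
  · simp

lemma e2_pow_norm (p : ℕ) (hp : p.Prime) (s : ℂ) : ‖(p : ℂ) ^ s‖ = (p : ℝ) ^ s.re :=
  Complex.norm_natCast_cpow_of_pos hp.pos s

lemma e2_ne (p : ℕ) (hp : p.Prime) (c s : ℂ) (hc : ‖c‖ ≤ 1) (hs : 0 < s.re) :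
    1 - c * (p : ℂ) ^ (-s) ≠ 0 := by
  intro h
  have h1 : c * (p : ℂ) ^ (-s) = 1 := (sub_eq_zero.mp h).symm
  have h2 : ‖(p : ℂ) ^ (-s)‖ < 1 := by
    rw [e2_pow_norm p hp]
    exact Real.rpow_lt_one_of_one_lt_of_neg (by exact_mod_cast hp.one_lt) (by simpa using hs)
  have h3 : ‖c * (p : ℂ) ^ (-s)‖ < 1 := by
    rw [norm_mul]
    calc ‖c‖ * ‖(p : ℂ) ^ (-s)‖ ≤ 1 * ‖(p : ℂ) ^ (-s)‖ := by gcongr
      _ < 1 := by simpa using h2
  rw [h1] at h3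
  simp at h3

lemma e2_xs (p : ℕ) (hp : p.Prime) (s : ℂ) (hs : s.re = 12) :
    ‖xs s p‖ ≤ (p : ℝ) ^ (-(27 / 20) : ℝ) ∧ ‖xs s p‖ ≤ 1 := by
  have h1 : (1 : ℝ) ≤ p := by exact_mod_cast hp.one_lt.le
  have hre : (-(1 / 2 + s)).re = -(25 / 2) := by
    simp [hs]
    norm_num
  unfold xs
  rw [e2_pow_norm p hp, hre]
  exact ⟨Real.rpow_le_rpow_of_exponent_le h1 (by norm_num),
    Real.rpow_le_one_of_one_le_of_nonpos h1 (by norm_num)⟩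

lemma e2_loc (hLOC : LOC) : ∃ C : ℝ, ∀ (p : ℕ) (k : ℤ) (z s₁ s₂ : ℂ), p.Prime → p ≠ 2 →
    0 < z.re → z.re ≤ 6 → s₁.re = 12 → s₂.re = 12 →
    ‖locv k z s₁ s₂ p 0 * fp k z s₁ s₂ p - 1‖ ≤ C * (p : ℝ) ^ (-(27 / 20) : ℝ) := by
  obtain ⟨C, B, -, -, h⟩ := hLOC
  refine ⟨C + 14, fun p k z s₁ s₂ hp h2 hz hz6 h₁ h₂ => ?_⟩
  have hU : UU z s₁ s₂ := by
    unfold UU
    simp only [sub_re, h₁, h₂]
    refine ⟨by linarith, by linarith, by norm_num, by norm_num, hz, by linarith⟩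
  have h0 := (h p k z s₁ s₂ hp h2 hU).1
  obtain ⟨a1, b1⟩ := e2_xs p hp s₁ h₁
  obtain ⟨a2, b2⟩ := e2_xs p hp s₂ h₂
  set r := (p : ℝ) ^ (-(27 / 20) : ℝ)
  have m : ∀ x y : ℂ, ‖x‖ ≤ 1 → ‖y‖ ≤ r → ‖x * y‖ ≤ r := fun x y hx hy => by
    rw [norm_mul]
    calc ‖x‖ * ‖y‖ ≤ 1 * r := by gcongr
      _ = r := one_mul r
  have hQ : ‖Qp s₁ s₂ p‖ ≤ 10 * r := by
    unfold Qp
    have e1 : ‖3 * xs s₁ p ^ 2‖ ≤ 3 * r := by
      rw [norm_mul, sq]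
      have := m _ _ b1 a1
      simp only [Complex.norm_ofNat]
      linarith
    have e2 : ‖4 * (xs s₁ p * xs s₂ p)‖ ≤ 4 * r := by
      rw [norm_mul]
      have := m _ _ b1 a2
      simp only [Complex.norm_ofNat]
      linarith
    have e3 : ‖3 * xs s₂ p ^ 2‖ ≤ 3 * r := by
      rw [norm_mul, sq]
      have := m _ _ b2 a2
      simp only [Complex.norm_ofNat]
      linarith
    have := norm_add₃_le (a := 3 * xs s₁ p ^ 2) (b := 4 * (xs s₁ p * xs s₂ p))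
      (c := 3 * xs s₂ p ^ 2)
    linarith
  have hV : ‖2 * Up k z s₁ s₂ p‖ ≤ 4 * r := by
    unfold Up
    have h1 : (1 : ℝ) ≤ p := by exact_mod_cast hp.one_lt.le
    have e0 : ‖(p : ℂ) ^ (-(z + 1 / 2))‖ ≤ 1 := by
      rw [e2_pow_norm p hp]
      refine Real.rpow_le_one_of_one_le_of_nonpos h1 ?_
      simp
      linarith
    have e1 : ‖jo k p * (p : ℂ) ^ (-(z + 1 / 2))‖ ≤ 1 := by
      rw [norm_mul]
      exact mul_le_one₀ (e2_jo_norm k p) (norm_nonneg _) e0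
    have e2 := m _ _ e1 a1
    have e3 := m _ _ e1 a2
    rw [norm_mul, mul_add]
    have := norm_add_le (jo k p * (p : ℂ) ^ (-(z + 1 / 2)) * xs s₁ p)
      (jo k p * (p : ℂ) ^ (-(z + 1 / 2)) * xs s₂ p)
    simp only [Complex.norm_ofNat]
    linarith
  have e : locv k z s₁ s₂ p 0 * fp k z s₁ s₂ p - 1 =
      (locv k z s₁ s₂ p 0 * fp k z s₁ s₂ p - 1 - Qp s₁ s₂ p + 2 * Up k z s₁ s₂ p) +
        Qp s₁ s₂ p - 2 * Up k z s₁ s₂ p := by ring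
  rw [e]
  have t1 := norm_sub_le ((locv k z s₁ s₂ p 0 * fp k z s₁ s₂ p - 1 - Qp s₁ s₂ p +
    2 * Up k z s₁ s₂ p) + Qp s₁ s₂ p) (2 * Up k z s₁ s₂ p)
  have t2 := norm_add_le (locv k z s₁ s₂ p 0 * fp k z s₁ s₂ p - 1 - Qp s₁ s₂ p +
    2 * Up k z s₁ s₂ p) (Qp s₁ s₂ p)
  linarith

lemma e2_ex (P : Finset ℕ) (μ : ℕ → ℤ → ℂ) (c : ℕ → ℂ) (R : (ℕ → ℤ) → ℂ) :
    Ex P (fun p y => μ p y * c p) R = (∏ p ∈ P, c p) * Ex P μ R := by
  unfold Ex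
  rw [Finset.mul_sum]
  refine Finset.sum_congr rfl fun x _ => ?_
  rw [Finset.prod_mul_distrib, Finset.prod_coe_sort P c]
  ring

lemma e2_fin (P : Finset ℕ) (hP : OP P) (c : ℕ → ℂ) :
    HasProd (fun p : Nat.Primes => if (p : ℕ) ∈ P then c p else 1) (∏ p ∈ P, c p) := by
  have h1 : HasProd (fun p : Nat.Primes => if (p : ℕ) ∈ P then c p else 1)
      (∏ p ∈ (P.subtype Nat.Prime : Finset Nat.Primes), if (p : ℕ) ∈ P then c p else 1) := by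
    refine hasProd_prod_of_ne_finset_one fun b hb => ?_
    exact if_neg fun h => hb (Finset.mem_subtype.mpr h)
  have h2 : (∏ p ∈ (P.subtype Nat.Prime : Finset Nat.Primes), if (p : ℕ) ∈ P then c p else 1) =
      ∏ p ∈ P, c p := by
    rw [← Finset.prod_subtype_of_mem c (p := Nat.Prime) fun x hx => (hP x hx).1]
    exact Finset.prod_congr rfl fun x hx => if_pos (Finset.mem_subtype.mp hx)
  rwa [h2] at h1

lemma e2_alg (v a b c d e : ℂ) (ha : a ≠ 0) (hb : b ≠ 0) (hc : c ≠ 0) (hd : d ≠ 0) (he : e ≠ 0) :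
    1 = a⁻¹ ^ 2 * b⁻¹ ^ 2 * (c ^ 3 * d ^ 4 * e ^ 3) * 1 * (a ^ 2 * b ^ 2 / (c ^ 3 * d ^ 4 * e ^ 3)) ∧
    v = a⁻¹ ^ 2 * b⁻¹ ^ 2 * (c ^ 3 * d ^ 4 * e ^ 3) *
      (v * (a ^ 2 * b ^ 2 / (c ^ 3 * d ^ 4 * e ^ 3))) * 1 := by
  constructor <;> field_simp

theorem pE2 (hLOC : LOC) (hLSP : LSP) (hLOP : LOP) (hIZ : IZ) : E2 := by
  intro P R k z s₁ s₂ hP hk hz hz6 h₁ h₂
  obtain ⟨C, hC⟩ := e2_loc hLOC
  have r1 : 1 < (1 + (s₁ - z)).re := by simp [h₁]; linarith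
  have r2 : 1 < (1 + (s₂ - z)).re := by simp [h₂]; linarith
  have r3 : 1 < (2 + 2 * (s₁ - z)).re := by simp [h₁]; linarith
  have r4 : 1 < (2 + (s₁ - z) + (s₂ - z)).re := by simp [h₁, h₂]; linarith
  have r5 : 1 < (2 + 2 * (s₂ - z)).re := by simp [h₂]; linarith
  have hW := ((((hLSP.2.1 k _ r1).pow 2).mul ((hLSP.2.1 k _ r2).pow 2)).mul
    ((((hIZ.2.2 _ r3).pow 3).mul ((hIZ.2.2 _ r4).pow 4)).mul ((hIZ.2.2 _ r5).pow 3)))
  have hs : Summable fun p : Nat.Primes =>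
      ‖(if (p : ℕ) = 2 ∨ (p : ℕ) ∈ P then 1 else locv k z s₁ s₂ p 0 * fp k z s₁ s₂ p) - 1‖ := by
    refine Summable.of_nonneg_of_le (fun _ => norm_nonneg _) (fun p => ?_)
      ((Nat.Primes.summable_rpow.mpr (show (-(27 / 20) : ℝ) < -1 by norm_num)).mul_left |C|)
    have h0 : (0 : ℝ) ≤ ((p : ℕ) : ℝ) ^ (-(27 / 20) : ℝ) := by positivity
    split_ifs with h
    · simp only [sub_self, norm_zero]
      positivity
    · exact (hC p k z s₁ s₂ p.2 (fun e => h (Or.inl e)) hz hz6 h₁ h₂).trans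
        (mul_le_mul_of_nonneg_right (le_abs_self C) h0)
  have hM : Multipliable fun p : Nat.Primes =>
      (if (p : ℕ) = 2 ∨ (p : ℕ) ∈ P then 1 else locv k z s₁ s₂ p 0 * fp k z s₁ s₂ p) := by
    simpa using multipliable_one_add_of_summable hs
  have hA := (hW.mul hM.hasProd).mul (e2_fin P hP (fp k z s₁ s₂))
  have hB : HasProd (fun p : Nat.Primes =>
      if (p : ℕ) = 2 ∨ (p : ℕ) ∈ P then 1 else locv k z s₁ s₂ p 0) _ := hA.congr_fun fun p => by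
    by_cases h2 : (p : ℕ) = 2
    · have hn : (2 : ℕ) ∉ P := fun h => (hP 2 h).2 rfl
      have hj : jo k 2 = 0 := by simp [jo]
      simp [h2, hn, hj]
    · have n1 := e2_ne p p.2 _ _ (e2_jo_norm k p) (lt_trans zero_lt_one r1)
      have n2 := e2_ne p p.2 _ _ (e2_jo_norm k p) (lt_trans zero_lt_one r2)
      have n3 := e2_ne p p.2 1 _ (by simp) (lt_trans zero_lt_one r3)
      have n4 := e2_ne p p.2 1 _ (by simp) (lt_trans zero_lt_one r4)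
      have n5 := e2_ne p p.2 1 _ (by simp) (lt_trans zero_lt_one r5)
      rw [one_mul] at n3 n4 n5
      by_cases hp : (p : ℕ) ∈ P
      · simp only [h2, hp, or_true, if_true, if_false, fp]
        exact (e2_alg 1 _ _ _ _ _ n1 n2 n3 n4 n5).1
      · simp only [h2, hp, or_false, if_false, fp]
        exact (e2_alg _ _ _ _ _ _ n1 n2 n3 n4 n5).2
  unfold Zk Zc Hh IZ3
  rw [hB.tprod_eq, e2_ex, hLOP.1 k _ hk r1, hLOP.1 k _ hk r2]
  ring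

end Pool.Agent.QM
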