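import Pool.Agent.P.MP_ea46f5_nt.QM.S2

namespace Pool.Agent.QM

open Complex MeasureTheory Finset
open scoped Real ComplexConjugate

theorem tc1_gamma {z : ℂ} (hz : 0 < z.re) : DifferentiableAt ℂ Gammaℝ z := by
  have h1 : DifferentiableAt ℂ (fun s : ℂ => ((Gammaℝ s)⁻¹)⁻¹) z :=
    (differentiable_Gammaℝ_inv z).inv (inv_ne_zero (Gammaℝ_ne_zero_of_re_pos hz))
  simpa only [inv_inv] using h1

/-- The numerator. -/
noncomputable def tc1_f (X : ℝ) (Φ : ℂ → ℂ) (z : ℂ) : ℂ :=
  Gammaℝ z * riemannZeta₁ (2 * z) / 4 * (X : ℂ) ^ (-z) * Φ z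

theorem tc1_eq (X : ℝ) (Φ : ℂ → ℂ) {z : ℂ} (hz : z.re ≠ 1 / 2) :
    Kz 1 X z * Φ z = tc1_f X Φ z / (z - 1 / 2) := by
  have h0 : z - 1 / 2 ≠ 0 := by
    intro h
    apply hz
    have := congrArg Complex.re h
    simp at this
    linarith
  have h1 : 2 * z ≠ 1 := by
    intro h
    apply h0
    linear_combination h / 2
  have h2 : 2 * z - 1 ≠ 0 := sub_ne_zero.mpr h1
  have e : z - 1 / 2 = (2 * z - 1) / 2 := by ring
  unfold Kz tc1_f
  rw [riemannZeta_eq_inv_sub_mul h1, e]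
  simp only [Int.cast_one, abs_one, one_mul]
  field_simp
  ring

theorem tc1_br (t : ℝ) : 1 ≤ br t := by
  unfold br
  linarith [abs_nonneg t]

theorem pTC1 (hSH1 : SH1) (hKZ : KZ) (hDEC : DEC) : TC1 := by
  intro Φ X ε M hX hε hε1 hΦ h0 hM
  obtain ⟨C, hC, hK⟩ := hKZ 2
  have hX0 : (0 : ℝ) < X := by linarith
  have hXc : (X : ℂ) ≠ 0 := by exact_mod_cast hX0.ne'
  have hopen : IsOpen (OStrip (ε / 2) 6) :=
    (isOpen_lt continuous_const continuous_re).inter (isOpen_lt continuous_re continuous_const)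
  have hd : ∀ z ∈ Strip ε (1 / 2 + ε), DifferentiableAt ℂ (tc1_f X Φ) z := by
    intro z hz
    have hz1 : z ∈ OStrip (ε / 2) 6 := ⟨by linarith [hz.1], by linarith [hz.2]⟩
    have a1 := tc1_gamma (z := z) (by linarith [hz.1])
    have a2 : DifferentiableAt ℂ (fun z : ℂ => riemannZeta₁ (2 * z)) z :=
      (differentiable_riemannZeta₁ _).comp z (by fun_prop)
    have a3 : DifferentiableAt ℂ (fun z : ℂ => (X : ℂ) ^ (-z)) z :=
      DifferentiableAt.const_cpow (by fun_prop) (Or.inl hXc)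
    have a4 := hΦ.differentiableAt (hopen.mem_nhds hz1)
    exact (((a1.mul a2).div_const 4).mul a3).mul a4
  have hM0 : 0 ≤ M := by
    have := hM (ε : ℂ) ⟨by simp, by simp⟩
    exact (norm_nonneg _).trans this
  set D : ℝ := C / ε ^ 2 / 4 * M with hD
  have hD0 : 0 ≤ D := by positivity
  have hb : ∀ z ∈ Strip ε (1 / 2 + ε), ‖tc1_f X Φ z‖ ≤ D / br z.im ^ 2 := by
    intro z hz
    have hz0 : 0 < z.re := by linarith [hz.1]
    have b1 := (hK z).2.2 hz0 (by linarith [hz.2])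
    have hbr := tc1_br z.im
    have b2 : ‖(X : ℂ) ^ (-z)‖ ≤ 1 := by
      rw [Complex.norm_cpow_eq_rpow_re_of_pos hX0]
      exact Real.rpow_le_one_of_one_le_of_nonpos hX (by simp; linarith)
    have b3 : C / (z.re ^ 2 * br z.im ^ 2) ≤ C / (ε ^ 2 * br z.im ^ 2) := by
      have := hz.1
      gcongr
    unfold tc1_f
    rw [norm_mul, norm_mul, norm_div]
    have e4 : ‖(4 : ℂ)‖ = 4 := by simp
    rw [e4]
    calc ‖Gammaℝ z * riemannZeta₁ (2 * z)‖ / 4 * ‖(X : ℂ) ^ (-z)‖ * ‖Φ z‖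
        ≤ C / (ε ^ 2 * br z.im ^ 2) / 4 * 1 * M := by
          have b4 := b1.trans b3
          have b5 := hM z hz
          gcongr
      _ = D / br z.im ^ 2 := by rw [hD]; field_simp
  have hline : ∀ y : ℝ, (((1 / 2 + ε : ℝ) : ℂ) + y * I) ∈ Strip ε (1 / 2 + ε) := fun y =>
    ⟨by simp, by simp⟩
  have hre : ∀ y : ℝ, (((1 / 2 + ε : ℝ) : ℂ) + y * I).re ≠ 1 / 2 := fun y => by
    simp [hε.ne']
  have hre' : ∀ y : ℝ, ((ε : ℂ) + y * I).re ≠ 1 / 2 := fun y => by
    simp only [add_re, ofReal_re, mul_re, I_re, mul_zero, ofReal_im, I_im, mul_one, sub_self,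
      add_zero]
    linarith
  constructor
  · simp only [fun y : ℝ => tc1_eq X Φ (hre y)]
    have hne : ∀ y : ℝ, ε ≤ ‖(((1 / 2 + ε : ℝ) : ℂ) + y * I) - 1 / 2‖ := by
      intro y
      refine le_trans ?_ (Complex.re_le_norm _)
      simp
    refine Integrable.mono' (hDEC.2.2.2.1.1.const_mul (D / ε)) ?_ (ae_of_all _ fun y => ?_)
    · refine Continuous.aestronglyMeasurable (Continuous.div ?_ (by fun_prop) fun y => ?_)
      · refine continuous_iff_continuousAt.mpr fun y => ?_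
        exact ContinuousAt.comp (f := fun y : ℝ => (((1 / 2 + ε : ℝ) : ℂ) + y * I))
          (hd _ (hline y)).continuousAt (by fun_prop)
      · exact norm_pos_iff.mp (hε.trans_le (hne y))
    · have b1 := hb _ (hline y)
      have e : (((1 / 2 + ε : ℝ) : ℂ) + y * I).im = y := by simp
      rw [e] at b1
      have hbr := tc1_br y
      rw [norm_div]
      calc _ ≤ D / br y ^ 2 / ε := by
            have := hne y
            gcongr
        _ = D / ε * (1 / br y ^ 2) := by field_simp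
  · have key := hSH1 ε (1 / 2 + ε) D (tc1_f X Φ) (1 / 2) (by simp; linarith) (by simp; linarith)
      ⟨fun z hz => (hd z hz).continuousAt.continuousWithinAt,
        fun z hz => (hd z ⟨hz.1.le, hz.2.le⟩).differentiableWithinAt⟩
      (fun s hs => (hb s hs).trans (by
        have hbr := tc1_br s.im
        refine div_le_div_of_nonneg_left hD0 (by linarith) ?_
        nlinarith))
    have e0 : tc1_f X Φ (1 / 2) = 0 := by unfold tc1_f; rw [h0, mul_zero]
    rw [e0, mul_zero, add_zero] at key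
    unfold Iv at key ⊢
    simp only [fun y : ℝ => tc1_eq X Φ (hre y), fun y : ℝ => tc1_eq X Φ (hre' y)]
    exact key

end Pool.Agent.QM
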