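import Pool.Agent.P.MP_ea46f5_nt.QM.S2

namespace Pool.Agent.QM

open Complex MeasureTheory Finset
open scoped Real ComplexConjugate

theorem fl_inj {k k' : ℤ} {r r' : ℕ} (hk' : Squarefree k') (hr : r.Prime) (hr' : r'.Prime)
    (h : k * (r : ℤ) ^ 2 = k' * (r' : ℤ) ^ 2) : k = k' ∧ r = r' := by
  have e : r = r' := by
    by_contra hne
    have hc : IsCoprime ((r : ℤ) ^ 2) ((r' : ℤ) ^ 2) :=
      (Nat.isCoprime_iff_coprime.2 ((Nat.coprime_primes hr hr').2 hne)).pow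
    have hd : (r : ℤ) ^ 2 ∣ k' := hc.dvd_of_dvd_mul_right ⟨k, by rw [← h]; ring⟩
    have hu := hk' (r : ℤ) (by rwa [← sq])
    have h1 := Int.isUnit_iff_natAbs_eq.1 hu
    simp only [Int.natAbs_natCast] at h1
    exact hr.one_lt.ne' h1
  subst e
  refine ⟨mul_right_cancel₀ (pow_ne_zero 2 ?_) h, rfl⟩
  exact_mod_cast hr.ne_zero

/-- FL (inflation), abstract form: `d b m` plays the role of `‖D_{w b^{-s}}(m)‖`. -/
theorem fl_abs (K : Finset ℤ) (hK : ∀ k ∈ K, Squarefree k) (P : Finset ℕ)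
    (hP : ∀ r ∈ P, r.Prime ∧ 100 < r) (hPne : P.Nonempty)
    (d : ℝ → ℤ → ℝ) (hd0 : ∀ b m, 0 ≤ d b m)
    (hrel : ∀ b : ℝ, 1 ≤ b → ∀ k ∈ K, ∀ r ∈ P, d b k ≤ d b (k * (r : ℤ) ^ 2) +
      2 / Real.sqrt r * d (b * r) k + 1 / r * d (b * (r : ℝ) ^ 2) k)
    (B : ℝ) (hB : ∀ b : ℝ, 1 ≤ b → ∀ k ∈ K, d b k ≤ B)
    (G : ℤ → ℝ) (g : ℝ) (hg : 0 < g) (hG : ∀ k ∈ K, ∀ r ∈ P, g ≤ G (k * (r : ℤ) ^ 2))
    (M : ℝ) (hM : ∀ b : ℝ, 1 ≤ b → ∀ T : Finset ℤ, ∑ m ∈ T, G m * d b m ^ 2 ≤ M) :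
    ∑ k ∈ K, d 1 k ^ 2 ≤ 2 * M / (g * P.card) := by
  classical
  have hc : (0 : ℝ) < P.card := by exact_mod_cast hPne.card_pos
  set M' := M / (g * P.card) with hM'
  let N : ℝ → ℝ := fun b => ∑ k ∈ K, d b k ^ 2
  let S : Set ℝ := N '' Set.Ici 1
  have hSne : S.Nonempty := ⟨N 1, 1, Set.mem_Ici.2 le_rfl, rfl⟩
  have hSb : BddAbove S := by
    refine ⟨∑ _k ∈ K, B ^ 2, ?_⟩
    rintro _ ⟨b, hb, rfl⟩
    exact sum_le_sum fun k hk => pow_le_pow_left₀ (hd0 _ _) (hB b hb k hk) 2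
  have hΓ : ∀ b : ℝ, 1 ≤ b → N b ≤ sSup S := fun b hb => le_csSup hSb ⟨b, hb, rfl⟩
  have hsel : ∀ b : ℝ, 1 ≤ b → ∃ r ∈ P, ∑ k ∈ K, d b (k * (r : ℤ) ^ 2) ^ 2 ≤ M' := by
    intro b hb
    refine exists_le_of_sum_le hPne ?_
    have hinj : Set.InjOn (fun q : ℕ × ℤ => q.2 * (q.1 : ℤ) ^ 2) (P ×ˢ K : Finset (ℕ × ℤ)) := by
      intro q hq q' hq' e
      rw [mem_coe, mem_product] at hq hq'
      have := fl_inj (hK _ hq'.2) (hP _ hq.1).1 (hP _ hq'.1).1 e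
      exact Prod.ext this.2 this.1
    have h1 := hM b hb ((P ×ˢ K).image fun q : ℕ × ℤ => q.2 * (q.1 : ℤ) ^ 2)
    rw [sum_image hinj, sum_product] at h1
    have h2 : g * ∑ r ∈ P, ∑ k ∈ K, d b (k * (r : ℤ) ^ 2) ^ 2 ≤ M := by
      refine le_trans ?_ h1
      rw [mul_sum]
      refine sum_le_sum fun r hr => ?_
      rw [mul_sum]
      exact sum_le_sum fun k hk => mul_le_mul_of_nonneg_right (hG k hk r hr) (sq_nonneg _)
    rw [sum_const, nsmul_eq_mul, hM']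
    have : (P.card : ℝ) * (M / (g * P.card)) = M / g := by field_simp
    rw [this, le_div_iff₀ hg]
    linarith
  have hstep : ∀ b : ℝ, 1 ≤ b → N b ≤ 100 / 79 * M' + 21 / 100 * sSup S := by
    intro b hb
    obtain ⟨r, hr, hrM⟩ := hsel b hb
    have hr100 : (100 : ℝ) < r := by exact_mod_cast (hP r hr).2
    have hs : (10 : ℝ) ≤ Real.sqrt r := Real.le_sqrt_of_sq_le (by linarith)
    have ha : 2 / Real.sqrt r ≤ 1 / 5 := by
      rw [div_le_div_iff₀ (by linarith) (by norm_num)]; linarith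
    have hc' : 1 / (r : ℝ) ≤ 1 / 100 := by
      rw [div_le_div_iff₀ (by linarith) (by norm_num)]; linarith
    have hb1 : 1 ≤ b * r := by nlinarith
    have hb2 : 1 ≤ b * (r : ℝ) ^ 2 := by nlinarith
    have h1 : N b ≤ ∑ k ∈ K, (100 / 79 * d b (k * (r : ℤ) ^ 2) ^ 2 +
        1 / 5 * d (b * r) k ^ 2 + 1 / 100 * d (b * (r : ℝ) ^ 2) k ^ 2) := by
      refine sum_le_sum fun k hk => ?_
      have h2 := hrel b hb k hk r hr
      have hx := hd0 b (k * (r : ℤ) ^ 2)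
      have hy := hd0 (b * r) k
      have hz := hd0 (b * (r : ℝ) ^ 2) k
      set x := d b (k * (r : ℤ) ^ 2)
      set y := d (b * r) k
      set z := d (b * (r : ℝ) ^ 2) k
      have h3 : d b k ≤ x + 1 / 5 * y + 1 / 100 * z := by
        nlinarith [mul_le_mul_of_nonneg_right ha hy, mul_le_mul_of_nonneg_right hc' hz]
      have h4 := pow_le_pow_left₀ (hd0 b k) h3 2
      nlinarith [sq_nonneg (100 / 79 * x - y), sq_nonneg (100 / 79 * x - z), sq_nonneg (y - z)]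
    rw [sum_add_distrib, sum_add_distrib, ← mul_sum, ← mul_sum, ← mul_sum] at h1
    have h5 := hΓ _ hb1
    have h6 := hΓ _ hb2
    simp only [N] at h5 h6
    linarith
  have hfin : sSup S ≤ 100 / 79 * M' + 21 / 100 * sSup S := by
    refine csSup_le hSne ?_
    rintro _ ⟨b, hb, rfl⟩
    exact hstep b hb
  have hM0 : 0 ≤ M' := by
    have := hM 1 le_rfl ∅
    rw [sum_empty] at this
    positivity
  have h7 := hΓ 1 le_rfl
  simp only [N] at h7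
  rw [mul_div_assoc, ← hM']
  linarith

/-- FL with the Gaussian weight of length `X R ^ 2` and complex values. -/
theorem fl_main (K : Finset ℤ) (X R : ℝ) (hX : 0 < X)
    (hK : ∀ k ∈ K, Squarefree k ∧ |(k : ℝ)| ≤ X) (P : Finset ℕ)
    (hP : ∀ r ∈ P, r.Prime ∧ 100 < r ∧ (r : ℝ) ≤ R) (hPne : P.Nonempty)
    (D : ℝ → ℤ → ℂ)
    (hrel : ∀ b : ℝ, 1 ≤ b → ∀ k ∈ K, ∀ r ∈ P, ‖D b k‖ ≤ ‖D b (k * (r : ℤ) ^ 2)‖ +
      2 / Real.sqrt r * ‖D (b * r) k‖ + 1 / r * ‖D (b * (r : ℝ) ^ 2) k‖)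
    (B : ℝ) (hB : ∀ b : ℝ, 1 ≤ b → ∀ k ∈ K, ‖D b k‖ ≤ B) (M : ℝ)
    (hM : ∀ b : ℝ, 1 ≤ b → ∀ T : Finset ℤ, ∑ m ∈ T,
      Real.exp (-Real.pi * (m : ℝ) ^ 2 / (X * R ^ 2) ^ 2) * ‖D b m‖ ^ 2 ≤ M) :
    ∑ k ∈ K, ‖D 1 k‖ ^ 2 ≤ 2 * Real.exp Real.pi * M / P.card := by
  have h := fl_abs K (fun k hk => (hK k hk).1) P (fun r hr => ⟨(hP r hr).1, (hP r hr).2.1⟩) hPne
    (fun b m => ‖D b m‖) (fun _ _ => norm_nonneg _) hrel B hB
    (fun m => Real.exp (-Real.pi * (m : ℝ) ^ 2 / (X * R ^ 2) ^ 2)) (Real.exp (-Real.pi))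
    (Real.exp_pos _) ?_ M hM
  · refine h.trans (le_of_eq ?_)
    rw [Real.exp_neg]
    have := Real.exp_pos Real.pi
    field_simp
  · intro k hk r hr
    have hr100 : (100 : ℝ) < r := by exact_mod_cast (hP r hr).2.1
    have hrR := (hP r hr).2.2
    have hR : 0 < R := by linarith
    have h1 : |(k : ℝ) * (r : ℝ) ^ 2| ≤ X * R ^ 2 := by
      rw [abs_mul, abs_of_nonneg (sq_nonneg (r : ℝ))]
      exact mul_le_mul (hK k hk).2 (pow_le_pow_left₀ (by linarith) hrR 2) (sq_nonneg _) hX.le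
    have h2 : ((k : ℝ) * (r : ℝ) ^ 2) ^ 2 ≤ (X * R ^ 2) ^ 2 := by
      rw [← sq_abs ((k : ℝ) * _)]; exact pow_le_pow_left₀ (abs_nonneg _) h1 2
    refine Real.exp_le_exp.2 ?_
    push_cast
    rw [le_div_iff₀ (by positivity)]
    nlinarith [Real.pi_pos]

theorem fl_cont (hLSP : LSP) (m : ℤ) :
    Continuous fun t : ℝ => LS m (1 / 2 + (12 + t * I)) := by
  refine (hLSP.2.2.2.1 m).continuousOn.comp_continuous (by fun_prop) fun t => ?_
  simp only [Set.mem_ofPred_eq, add_re, mul_re, ofReal_re, I_re, ofReal_im, I_im]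
  norm_num

theorem fl_bd (hLSP : LSP) (m : ℤ) (t : ℝ) : ‖LS m (1 / 2 + (12 + t * I)) ^ 2‖ ≤ 4 := by
  have h := hLSP.2.2.1 m (1 / 2 + (12 + t * I)) (by
    simp only [add_re, mul_re, ofReal_re, I_re, ofReal_im, I_im]
    norm_num)
  rw [norm_pow]
  nlinarith [norm_nonneg (LS m (1 / 2 + (12 + t * I)))]

theorem fl_pow {b : ℝ} (hb : 1 ≤ b) (t : ℝ) : ‖(b : ℂ) ^ (-(12 + t * I : ℂ))‖ ≤ 1 := by
  rw [norm_cpow_eq_rpow_re_of_pos (by linarith)]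
  refine Real.rpow_le_one_of_one_le_of_nonpos hb ?_
  simp

theorem fl_powc {b : ℝ} (hb : 1 ≤ b) : Continuous fun t : ℝ => (b : ℂ) ^ (-(12 + t * I : ℂ)) := by
  refine Continuous.const_cpow (by fun_prop) (Or.inl ?_)
  exact ofReal_ne_zero.2 (by linarith)

theorem fl_intg (hLSP : LSP) {w : ℂ → ℂ} (hw : LI w) {b : ℝ} (hb : 1 ≤ b) (m : ℤ) :
    Integrable fun t : ℝ => w (12 + t * I) * (b : ℂ) ^ (-(12 + t * I : ℂ)) *
      LS m (1 / 2 + (12 + t * I)) ^ 2 :=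
  (Integrable.mul_bdd hw (fl_powc hb).aestronglyMeasurable
    (Filter.Eventually.of_forall (fl_pow hb))).mul_bdd
    ((fl_cont hLSP m).pow 2).aestronglyMeasurable (Filter.Eventually.of_forall (fl_bd hLSP m))

theorem fl_Dw (w : ℂ → ℂ) (b : ℝ) (m : ℤ) : Dw (fun s => w s * (b : ℂ) ^ (-s)) m =
    ∫ t : ℝ, w (12 + t * I) * (b : ℂ) ^ (-(12 + t * I : ℂ)) *
      LS m (1 / 2 + (12 + t * I)) ^ 2 := by
  unfold Dw Iv
  simp only [ofReal_ofNat]

theorem fl_jo (k : ℤ) (r : ℕ) : ‖jo k r‖ ≤ 1 := by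
  unfold jo
  split_ifs
  · rcases jacobiSym.trichotomy k r with h | h | h <;> simp [h]
  · simp

theorem fl_rel (hLSP : LSP) {w : ℂ → ℂ} (hw : LI w) {b : ℝ} (hb : 1 ≤ b) (k : ℤ) {r : ℕ}
    (hr : r.Prime) (hr2 : r ≠ 2) :
    ‖Dw (fun s => w s * (b : ℂ) ^ (-s)) k‖ ≤
      ‖Dw (fun s => w s * (b : ℂ) ^ (-s)) (k * (r : ℤ) ^ 2)‖ +
      2 / Real.sqrt r * ‖Dw (fun s => w s * ((b * r : ℝ) : ℂ) ^ (-s)) k‖ +
      1 / r * ‖Dw (fun s => w s * ((b * (r : ℝ) ^ 2 : ℝ) : ℂ) ^ (-s)) k‖ := by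
  have hr1 : (1 : ℝ) ≤ r := by exact_mod_cast hr.one_le
  have hb1 : 1 ≤ b * r := by nlinarith
  have hb2 : 1 ≤ b * (r : ℝ) ^ 2 := by nlinarith
  have hr0 : (r : ℂ) ≠ 0 := by exact_mod_cast hr.ne_zero
  set a : ℂ := jo k r * (r : ℂ) ^ (-(1 / 2 : ℂ)) with ha
  have hna : ‖a‖ ≤ 1 / Real.sqrt r := by
    have e : ‖(r : ℂ) ^ (-(1 / 2 : ℂ))‖ = 1 / Real.sqrt r := by
      rw [norm_natCast_cpow_of_pos hr.pos, Real.sqrt_eq_rpow, one_div ((r : ℝ) ^ _),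
        ← Real.rpow_neg (by linarith)]
      congr 1
      simp
    rw [ha, norm_mul, e]
    exact mul_le_of_le_one_left (by positivity) (fl_jo k r)
  have hs : Real.sqrt r * Real.sqrt r = r := Real.mul_self_sqrt (by linarith)
  have hna2 : ‖a ^ 2‖ ≤ 1 / r := by
    rw [norm_pow]
    refine (pow_le_pow_left₀ (norm_nonneg _) hna 2).trans (le_of_eq ?_)
    rw [div_pow, one_pow, sq, hs]
  have key : Dw (fun s => w s * (b : ℂ) ^ (-s)) k =
      Dw (fun s => w s * (b : ℂ) ^ (-s)) (k * (r : ℤ) ^ 2) +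
      2 * a * Dw (fun s => w s * ((b * r : ℝ) : ℂ) ^ (-s)) k -
      a ^ 2 * Dw (fun s => w s * ((b * (r : ℝ) ^ 2 : ℝ) : ℂ) ^ (-s)) k := by
    rw [eq_sub_iff_add_eq, fl_Dw, fl_Dw, fl_Dw, fl_Dw, ← integral_const_mul, ← integral_const_mul,
      ← integral_add (fl_intg hLSP hw hb _) ((fl_intg hLSP hw hb1 _).const_mul _),
      ← integral_add (fl_intg hLSP hw hb _) ((fl_intg hLSP hw hb2 _).const_mul _)]
    refine integral_congr_ae (Filter.Eventually.of_forall fun t => ?_)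
    have h1 := hLSP.2.2.2.2.2 k r (1 / 2 + (12 + t * I)) hr hr2 (by
      simp only [add_re, mul_re, ofReal_re, I_re, ofReal_im, I_im]
      norm_num)
    have e1 : ((b * r : ℝ) : ℂ) ^ (-(12 + t * I : ℂ)) =
        (b : ℂ) ^ (-(12 + t * I : ℂ)) * (r : ℂ) ^ (-(12 + t * I : ℂ)) := by
      rw [ofReal_mul, mul_cpow_ofReal_nonneg (by linarith) (by linarith), ofReal_natCast]
    have e2 : ((b * (r : ℝ) ^ 2 : ℝ) : ℂ) ^ (-(12 + t * I : ℂ)) =
        (b : ℂ) ^ (-(12 + t * I : ℂ)) * (r : ℂ) ^ (-(12 + t * I : ℂ)) *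
          (r : ℂ) ^ (-(12 + t * I : ℂ)) := by
      rw [sq, ← mul_assoc, ofReal_mul, mul_cpow_ofReal_nonneg (by linarith) (by linarith), e1,
        ofReal_natCast]
    have e3 : (r : ℂ) ^ (-(1 / 2 + (12 + t * I) : ℂ)) =
        (r : ℂ) ^ (-(1 / 2 : ℂ)) * (r : ℂ) ^ (-(12 + t * I : ℂ)) := by
      rw [← cpow_add _ _ hr0]; congr 1; ring
    simp only
    rw [h1, e1, e2, e3, ha]
    ring
  rw [key]
  refine (norm_sub_le _ _).trans (add_le_add ((norm_add_le _ _).trans (add_le_add le_rfl ?_)) ?_)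
  · rw [norm_mul, norm_mul]
    refine mul_le_mul_of_nonneg_right ?_ (norm_nonneg _)
    rw [Complex.norm_two, div_eq_mul_one_div]
    linarith
  · rw [norm_mul]
    exact mul_le_mul_of_nonneg_right hna2 (norm_nonneg _)

theorem pFL (hLSP : LSP) (hPC : PC) : FL := by
  obtain ⟨⟨c, R₀, hc, hR₀, hP⟩, -⟩ := hPC
  refine ⟨2 * Real.exp π / c, R₀, by positivity, hR₀, fun w X R M F hw hX hR hF hM => ?_⟩
  have hR1 : 1 < R := by linarith
  have hL : 0 < Real.log R := Real.log_pos hR1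
  have hcard := hP R hR
  set P := (Ioc 100 ⌊R⌋₊).filter Nat.Prime with hPdef
  have hpos : 0 < c * R / Real.log R := by positivity
  have hPne : P.Nonempty := by
    rw [← card_pos]
    exact_mod_cast hpos.trans_le hcard
  have hM0 : 0 ≤ M := by simpa using hM 1 le_rfl ∅
  have hPm : ∀ r ∈ P, r.Prime ∧ 100 < r ∧ (r : ℝ) ≤ R := by
    intro r hr
    rw [hPdef, mem_filter, mem_Ioc] at hr
    exact ⟨hr.2, hr.1.1, (Nat.le_floor_iff (by linarith)).1 hr.1.2⟩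
  have h := fl_main F X R hX hF P hPm hPne (fun b m => Dw (fun s => w s * (b : ℂ) ^ (-s)) m)
    (fun b hb k _ r hr => fl_rel hLSP hw hb k (hPm r hr).1 (by have := (hPm r hr).2.1; omega))
    (∫ t : ℝ, 4 * ‖w (12 + t * I)‖) ?_ M hM
  · simp only [ofReal_one, one_cpow, mul_one] at h
    refine h.trans ?_
    have := Real.exp_pos π
    calc 2 * Real.exp π * M / P.card ≤ 2 * Real.exp π * M / (c * R / Real.log R) :=
          div_le_div_of_nonneg_left (by positivity) hpos hcard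
      _ = _ := by field_simp
  · intro b hb k _
    rw [fl_Dw]
    refine norm_integral_le_of_norm_le (hw.norm.const_mul 4)
      (Filter.Eventually.of_forall fun t => ?_)
    rw [norm_mul, norm_mul]
    have h1 := fl_pow hb t
    have h2 := fl_bd hLSP k t
    have h3 := norm_nonneg (w (12 + t * I))
    calc _ ≤ ‖w (12 + t * I)‖ * 1 * 4 := by gcongr
      _ = _ := by ring

end Pool.Agent.QM
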