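import Pool.Agent.P.MP_ad7a55_nt.SgB
import Pool.Agent.P.MP_ea46f5_nt.QM.D

/-!
The characters `n ↦ (m | n)` on odd `n` and their L-functions.
-/

namespace Pool.Agent.QM

open Complex Finset NumberTheorySymbols

/-- `χ_m(n)`: the Jacobi symbol `(m | n)` for odd `n`, zero for even `n`. -/
def chi (m : ℤ) (n : ℕ) : ℤ := if Odd n then J(m | n) else 0

theorem jo_eq (m : ℤ) (n : ℕ) : jo m n = (chi m n : ℂ) := by
  unfold jo chi
  split_ifs <;> simp

theorem exists_char (q : ℕ) [NeZero q] (f : ℕ → ℤ) (h1 : f 1 = 1)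
    (hm : ∀ a b, f (a * b) = f a * f b) (hp : ∀ a, f (a % q) = f a)
    (h0 : ∀ a, ¬ Nat.Coprime a q → f a = 0) :
    ∃ χ : DirichletCharacter ℂ q, ∀ n : ℕ, χ (n : ZMod q) = (f n : ℂ) := by
  let χ : DirichletCharacter ℂ q :=
    { toFun := fun x => (f x.val : ℂ)
      map_one' := by rw [ZMod.val_one_eq_one_mod, hp, h1, Int.cast_one]
      map_mul' := fun x y => by rw [ZMod.val_mul, hp, hm, Int.cast_mul]
      map_nonunit' := fun x hx => by
        have h2 : ¬ Nat.Coprime x.val q := fun h => hx (by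
          have := (ZMod.isUnit_iff_coprime x.val q).2 h
          rwa [ZMod.natCast_zmod_val] at this)
        simp only [h0 _ h2, Int.cast_zero] }
  refine ⟨χ, fun n => ?_⟩
  change (f (n : ZMod q).val : ℂ) = f n
  rw [ZMod.val_natCast, hp]

theorem LP_eq {q : ℕ} [NeZero q] {f : ℕ → ℂ} {χ : DirichletCharacter ℂ q}
    (h : ∀ n : ℕ, χ (n : ZMod q) = f n) (s : ℂ) :
    ZMod.LFunction (fun a : ZMod q => f a.val) s = χ.LFunction s := by
  rw [DirichletCharacter.LFunction]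
  congr 1
  funext a
  rw [← h, ZMod.natCast_zmod_val]

theorem chi_odd {n : ℕ} (m : ℤ) (h : Odd n) : chi m n = J(m | n) := if_pos h

theorem chi_even {n : ℕ} (m : ℤ) (h : ¬ Odd n) : chi m n = 0 := if_neg h

theorem chi_zero (m : ℤ) : chi m 0 = 0 := chi_even m (by decide)

theorem chi_two (m : ℤ) : chi m 2 = 0 := chi_even m (by decide)

theorem chi_one (m : ℤ) : chi m 1 = 1 := by rw [chi_odd m odd_one, jacobiSym.one_right]

theorem chi_mul (m : ℤ) (a b : ℕ) : chi m (a * b) = chi m a * chi m b := by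
  by_cases ha : Odd a
  · by_cases hb : Odd b
    · rw [chi_odd m ha, chi_odd m hb, chi_odd m (ha.mul hb),
        jacobiSym.mul_right' m ha.pos.ne' hb.pos.ne']
    · rw [chi_even m hb, chi_even m (fun h => hb (Nat.odd_mul.1 h).2), mul_zero]
  · rw [chi_even m ha, chi_even m (fun h => ha (Nat.odd_mul.1 h).1), zero_mul]

theorem chi_mul_left (m l : ℤ) (n : ℕ) : chi (m * l) n = chi m n * chi l n := by
  by_cases h : Odd n
  · rw [chi_odd _ h, chi_odd _ h, chi_odd _ h, jacobiSym.mul_left]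
  · rw [chi_even _ h, chi_even _ h, zero_mul]

theorem chi_mod (m : ℤ) (a : ℕ) : chi m (a % (4 * m.natAbs)) = chi m a := by
  have h : Odd (a % (4 * m.natAbs)) ↔ Odd a := by
    rw [Nat.odd_iff, Nat.odd_iff, Nat.mod_mod_of_dvd _ (Dvd.intro (2 * m.natAbs) (by ring))]
  by_cases ha : Odd a
  · rw [chi_odd m ha, chi_odd m (h.2 ha), ← jacobiSym.mod_right m ha]
  · rw [chi_even m ha, chi_even m (fun h' => ha (h.1 h'))]

theorem chi_tri (m : ℤ) (n : ℕ) : chi m n = 0 ∨ chi m n = 1 ∨ chi m n = -1 := by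
  by_cases h : Odd n
  · rw [chi_odd m h]; exact jacobiSym.trichotomy m n
  · exact Or.inl (chi_even m h)

theorem norm_chi_le (m : ℤ) (n : ℕ) : ‖(chi m n : ℂ)‖ ≤ 1 := by
  rcases chi_tri m n with h | h | h <;> simp [h]

theorem abs_chi_le (m : ℤ) (n : ℕ) : |(chi m n : ℝ)| ≤ 1 := by
  rcases chi_tri m n with h | h | h <;> simp [h]

theorem chi_not_coprime (m : ℤ) (a : ℕ) (h : ¬ Nat.Coprime a (4 * m.natAbs)) : chi m a = 0 := by
  by_cases ha : Odd a
  · rw [chi_odd m ha, jacobiSym.eq_zero_iff]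
    refine ⟨ha.pos.ne', fun h1 => h ?_⟩
    rw [Int.gcd_eq_natAbs, Int.natAbs_natCast] at h1
    refine Nat.Coprime.mul_right ?_ (Nat.Coprime.symm h1)
    have : Nat.Coprime a 2 := (Nat.coprime_two_right).2 ha
    exact this.pow_right 2
  · exact chi_even m ha

theorem four_ne {k : ℤ} (hk : k ≠ 0) : NeZero (4 * k.natAbs) := ⟨by omega⟩

/-- The character modulo `4|k|` behind `Lo k`. -/
theorem exists_chiO (k : ℤ) [NeZero (4 * k.natAbs)] :
    ∃ χ : DirichletCharacter ℂ (4 * k.natAbs), (∀ n : ℕ, χ (n : ZMod _) = (chi k n : ℂ)) ∧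
      Lo k = χ.LFunction := by
  obtain ⟨χ, h⟩ := exists_char (4 * k.natAbs) (chi k) (chi_one k) (chi_mul k) (chi_mod k)
    (chi_not_coprime k)
  refine ⟨χ, h, funext fun s => ?_⟩
  rw [Lo, dif_neg (NeZero.ne _)]
  exact LP_eq (f := jo k) (fun n => by rw [h, jo_eq]) s

theorem LSeriesSummable_chi (m : ℤ) {s : ℂ} (hs : 1 < s.re) :
    LSeriesSummable (fun n => (chi m n : ℂ)) s :=
  LSeriesSummable_of_bounded_of_one_lt_re (m := 1) (fun n _ => norm_chi_le m n) hs

/-- The Dirichlet series of `Lo k`. -/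
theorem Lo_eq_LSeries {k : ℤ} (hk : k ≠ 0) {s : ℂ} (hs : 1 < s.re) :
    Lo k s = LSeries (fun n => (chi k n : ℂ)) s := by
  have := four_ne hk
  obtain ⟨χ, h, e⟩ := exists_chiO k
  rw [e, χ.LFunction_eq_LSeries hs]
  congr 1
  funext n
  exact h n

theorem LSeries_term_chi (m : ℤ) (s : ℂ) (n : ℕ) :
    LSeries.term (fun n => (chi m n : ℂ)) s n = (chi m n : ℂ) * (n : ℂ) ^ (-s) := by
  rcases eq_or_ne n 0 with rfl | hn
  · simp [chi_zero]
  · rw [LSeries.term_of_ne_zero hn, cpow_neg, div_eq_mul_inv]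

theorem hasSum_LSeries_chi (m : ℤ) {s : ℂ} (hs : 1 < s.re) :
    HasSum (fun n : ℕ => (chi m n : ℂ) * (n : ℂ) ^ (-s)) (LSeries (fun n => (chi m n : ℂ)) s) := by
  have h := (LSeriesSummable_chi m hs).hasSum
  simpa only [LSeries, funext (LSeries_term_chi m s)] using h

theorem hasSum_Lo {k : ℤ} (hk : k ≠ 0) {s : ℂ} (hs : 1 < s.re) :
    HasSum (fun n : ℕ => (chi k n : ℂ) * (n : ℂ) ^ (-s)) (Lo k s) := by
  rw [Lo_eq_LSeries hk hs]
  exact hasSum_LSeries_chi k hs

/-- The Euler product of `Lo k`. -/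
theorem hasProd_Lo {k : ℤ} (hk : k ≠ 0) {s : ℂ} (hs : 1 < s.re) :
    HasProd (fun p : Nat.Primes => (1 - (chi k p : ℂ) * ((p : ℕ) : ℂ) ^ (-s))⁻¹) (Lo k s) := by
  have := four_ne hk
  obtain ⟨χ, h, e⟩ := exists_chiO k
  rw [e, χ.LFunction_eq_LSeries hs]
  simpa only [h] using χ.LSeries_eulerProduct_hasProd hs

theorem differentiableAt_Lo {k : ℤ} (hk : k ≠ 0) {s : ℂ} (hs : s ≠ 1) :
    DifferentiableAt ℂ (Lo k) s := by
  have := four_ne hk
  obtain ⟨χ, -, e⟩ := exists_chiO k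
  rw [e]
  exact χ.differentiableAt_LFunction s (Or.inl hs)

/-- For `k = 1` only the Euler factor at `2` of the zeta function is removed. -/
theorem Lo_one {s : ℂ} (hs : s ≠ 1) : Lo 1 s = (1 - (2 : ℂ) ^ (-s)) * riemannZeta s := by
  have := four_ne (k := 1) one_ne_zero
  obtain ⟨χ, h, e⟩ := exists_chiO 1
  have h1 : χ = 1 := by
    refine MulChar.ext fun a => ?_
    have hu : Nat.Coprime (a : ZMod (4 * (1 : ℤ).natAbs)).val (4 * (1 : ℤ).natAbs) :=
      ZMod.val_coe_unit_coprime a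
    have ho : Odd (a : ZMod (4 * (1 : ℤ).natAbs)).val :=
      (Nat.coprime_two_right).1 (hu.coprime_dvd_right (by decide))
    rw [MulChar.one_apply_coe, ← ZMod.natCast_zmod_val (a : ZMod (4 * (1 : ℤ).natAbs)), h,
      chi_odd _ ho, jacobiSym.one_left, Int.cast_one]
  rw [e, h1]
  have h2 := DirichletCharacter.LFunctionTrivChar_eq_mul_riemannZeta (N := 4 * (1 : ℤ).natAbs) hs
  have h3 : (4 * (1 : ℤ).natAbs).primeFactors = {2} := by
    rw [show 4 * (1 : ℤ).natAbs = 2 ^ 2 from rfl, Nat.primeFactors_prime_pow two_ne_zero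
      Nat.prime_two]
  rw [h3, prod_singleton] at h2
  exact_mod_cast h2

/-- An odd prime factor of a squarefree `k` is seen by `χ_k`. -/
theorem exists_neg_odd {k : ℤ} (hk : Squarefree k) {p : ℕ} (hp : p.Prime) (h2 : p ≠ 2)
    (hd : (p : ℤ) ∣ k) :
    ∃ a : ℕ, a ≡ 1 [MOD 4 * (k.natAbs / p)] ∧ chi k a = -1 := by
  obtain ⟨l, rfl⟩ := hd
  have := Fact.mk hp
  have e : ((p : ℤ) * l).natAbs / p = l.natAbs := by
    rw [Int.natAbs_mul, Int.natAbs_natCast, Nat.mul_div_cancel_left _ hp.pos]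
  rw [e]
  have hsq : Squarefree (p * l.natAbs) := by
    have := Int.squarefree_natAbs.2 hk
    rwa [Int.natAbs_mul, Int.natAbs_natCast] at this
  have hc : Nat.Coprime (4 * l.natAbs) p := by
    refine Nat.Coprime.mul_left ?_ (Nat.coprime_of_squarefree_mul hsq).symm
    exact (((Nat.coprime_primes Nat.prime_two hp).2 h2.symm).pow_left 2 :)
  have hc2 : ringChar (ZMod p) ≠ 2 := by rw [ZMod.ringChar_zmod_n]; exact h2
  obtain ⟨b, hb⟩ := quadraticChar_exists_neg_one hc2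
  obtain ⟨a, ha1, ha2⟩ := Nat.chineseRemainder hc 1 b.val
  have h4 : a % 4 = 1 := (ha1.of_mul_right l.natAbs :)
  have ho : Odd a := Nat.odd_iff.2 (by omega)
  have hl : l ≠ 0 := by
    rintro rfl
    simp at hk
  refine ⟨a, ha1, ?_⟩
  have e1 : J(l | a) = 1 := by
    rw [jacobiSym.mod_right l ho, ha1, Nat.mod_eq_of_lt (by omega), jacobiSym.one_right]
  have e2 : J(p | a) = -1 := by
    rw [jacobiSym.quadratic_reciprocity_one_mod_four' (hp.odd_of_ne_two h2) h4,
      ← jacobiSym.legendreSym.to_jacobiSym, legendreSym, Int.cast_natCast,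
      (ZMod.natCast_eq_natCast_iff _ _ _).2 ha2, ZMod.natCast_zmod_val, hb]
  rw [chi_odd _ ho, jacobiSym.mul_left, e1, e2, mul_one]

/-- The prime `2` is seen by `χ_k` when `k` is not `1` modulo `4`. -/
theorem exists_neg_two {k : ℤ} (hk : Squarefree k) (h4 : k % 4 ≠ 1) :
    chi k (1 + 2 * k.natAbs) = -1 := by
  have ho : Odd (1 + 2 * k.natAbs) := Nat.odd_iff.2 (by omega)
  have h0 : k % 4 ≠ 0 := fun h => by
    have h1 : (2 : ℤ) * 2 ∣ k := Int.dvd_of_emod_eq_zero h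
    have := Int.isUnit_iff.1 (hk 2 h1)
    omega
  rw [chi_odd _ ho]
  by_cases h2 : k % 2 = 0
  · obtain ⟨l, rfl⟩ := Int.dvd_of_emod_eq_zero h2
    have e : 1 + 2 * (2 * l).natAbs = 1 + 4 * l.natAbs := by omega
    rw [e] at ho ⊢
    have e1 : J(l | 1 + 4 * l.natAbs) = 1 := by
      rw [jacobiSym.mod_right l ho, Nat.add_mod_right, Nat.mod_eq_of_lt (by omega),
        jacobiSym.one_right]
    rw [jacobiSym.mul_left, e1, mul_one, jacobiSym.at_two ho, ZMod.χ₈_nat_eq_if_mod_eight,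
      if_neg (by omega), if_neg (by omega)]
  · have hn : Odd k.natAbs := Nat.odd_iff.2 (by omega)
    have e1 : J(((1 + 2 * k.natAbs : ℕ) : ℤ) | k.natAbs) = 1 := by
      rw [← jacobiSym.one_left k.natAbs]
      apply jacobiSym.mod_left'
      push_cast
      rw [Int.add_mul_emod_self_right]
    have h3 : (1 + 2 * k.natAbs) % 4 = 3 := by omega
    rcases Int.natAbs_eq k with h | h
    · have h5 : k.natAbs % 4 = 3 := by omega
      have e2 := jacobiSym.quadratic_reciprocity_three_mod_four h5 h3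
      rw [← h, e1] at e2
      exact e2
    · have h5 : k.natAbs % 4 = 1 := by omega
      have e2 := jacobiSym.quadratic_reciprocity_one_mod_four h5 ho
      have e3 := jacobiSym.neg (k.natAbs : ℤ) ho
      rw [← h, e2, e1, ZMod.χ₄_nat_three_mod_four h3] at e3
      rw [e3, mul_one]

theorem exists_neg {k : ℤ} (hk : Squarefree k) (h1 : k ≠ 1) : ∃ a : ℕ, chi k a = -1 := by
  by_cases h4 : k % 4 = 1
  · obtain ⟨p, hp, hd⟩ := Nat.exists_prime_and_dvd (n := k.natAbs) (by omega)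
    have h2 : p ≠ 2 := by
      rintro rfl
      omega
    obtain ⟨a, -, ha⟩ := exists_neg_odd hk hp h2 (Int.natCast_dvd.2 hd)
    exact ⟨a, ha⟩
  · exact ⟨_, exists_neg_two hk h4⟩

theorem ne_one_of_neg {q : ℕ} {χ : DirichletCharacter ℂ q} {a : ZMod q} (h : χ a = -1) :
    χ ≠ 1 := by
  rintro rfl
  by_cases h3 : IsUnit a
  · rw [MulChar.one_apply h3] at h
    norm_num at h
  · rw [MulChar.map_nonunit _ h3] at h
    norm_num at h

theorem exists_chiO_ne {k : ℤ} [NeZero (4 * k.natAbs)] (hk : Squarefree k) (h1 : k ≠ 1) :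
    ∃ χ : DirichletCharacter ℂ (4 * k.natAbs), χ ≠ 1 ∧
      (∀ n : ℕ, χ (n : ZMod _) = (chi k n : ℂ)) ∧ Lo k = χ.LFunction := by
  obtain ⟨χ, h, e⟩ := exists_chiO k
  obtain ⟨a, ha⟩ := exists_neg hk h1
  exact ⟨χ, ne_one_of_neg (a := a) (by rw [h, ha]; norm_num), h, e⟩

/-- `Lo k` is entire for squarefree `k ≠ 1`. -/
theorem differentiable_Lo {k : ℤ} (hk : Squarefree k) (h1 : k ≠ 1) : Differentiable ℂ (Lo k) := by
  have := four_ne hk.ne_zero
  obtain ⟨χ, h, -, e⟩ := exists_chiO_ne hk h1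
  rw [e]
  exact DirichletCharacter.differentiable_LFunction h

/-- The bound (L1). -/
theorem norm_Lo_le {k : ℤ} (hk : Squarefree k) (h1 : k ≠ 1) {s : ℂ} (hs : 0 < s.re) :
    ‖Lo k s‖ ≤ 4 * |(k : ℝ)| * ‖s‖ / s.re := by
  have := four_ne hk.ne_zero
  obtain ⟨χ, h, -, e⟩ := exists_chiO_ne hk h1
  have h2 := Pool.Agent.EQ.L_le h one_pos le_rfl (s := s) (by simpa using hs)
  rw [e]
  refine h2.trans (le_of_eq ?_)
  rw [Real.rpow_one, Nat.cast_mul, Nat.cast_natAbs, Int.cast_abs]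
  norm_num
  ring

end Pool.Agent.QM
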