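import Pool.Agent.P.MP_ea46f5_nt.QM.S1
import Pool.Agent.P.MP_ea46f5_nt.QM.LoB

namespace Pool.Agent.QM

open Complex MeasureTheory Finset
open scoped Real ComplexConjugate

theorem lsp_sum (m : ℤ) {s : ℂ} (hs : 1 < s.re) :
    HasSum (fun n : ℕ => jo m n * (n : ℂ) ^ (-s)) (LS m s) := by
  rw [LS, funext (jo_eq m)]
  exact hasSum_LSeries_chi m hs

theorem lsp_prod (m : ℤ) {s : ℂ} (hs : 1 < s.re) :
    HasProd (fun p : Nat.Primes => (1 - jo m p * ((p : ℕ) : ℂ) ^ (-s))⁻¹) (LS m s) := by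
  let f : ℕ →*₀ ℂ :=
    { toFun := fun n => jo m n * (n : ℂ) ^ (-s)
      map_zero' := by simp [jo_eq, chi_zero]
      map_one' := by simp [jo_eq, chi_one]
      map_mul' := fun a b => by
        simp only [jo_eq, chi_mul, Nat.cast_mul, Int.cast_mul, natCast_mul_natCast_cpow]
        ring }
  have h := lsp_sum m hs
  have h1 : Summable fun n => ‖f n‖ := summable_norm_iff.2 h.summable
  have h2 := EulerProduct.eulerProduct_completely_multiplicative_hasProd h1
  have h3 : ∑' n, f n = LS m s := h.tsum_eq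
  rw [h3] at h2
  exact h2

theorem lsp_term (m : ℤ) {n : ℕ} (hn : n ≠ 0) (s : ℂ) :
    ‖jo m n * (n : ℂ) ^ (-s)‖ ≤ (n : ℝ) ^ (-s.re) := by
  rw [norm_mul, norm_natCast_cpow_of_pos (Nat.pos_of_ne_zero hn), jo_eq, neg_re]
  exact mul_le_of_le_one_left (by positivity) (norm_chi_le m n)

theorem lsp_le (m : ℤ) {s : ℂ} (hs : 2 ≤ s.re) : ‖LS m s‖ ≤ 2 := by
  have h := lsp_sum m (s := s) (by linarith)
  have h1 : ‖LS m s‖ ≤ π ^ 2 / 6 := by
    refine h.norm_le_of_bounded hasSum_zeta_two fun n => ?_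
    rcases eq_or_ne n 0 with rfl | hn
    · simp [jo_eq, chi_zero]
    · refine (lsp_term m hn s).trans ?_
      have h1 : (1 : ℝ) ≤ n := by exact_mod_cast Nat.pos_of_ne_zero hn
      rw [one_div, ← Real.rpow_natCast, ← Real.rpow_neg (by positivity)]
      exact Real.rpow_le_rpow_of_exponent_le h1 (by push_cast; linarith)
  have h2 := Real.pi_lt_d2
  have h3 := Real.pi_pos
  nlinarith

theorem lsp_ne (m : ℤ) {r : ℕ} (hr : r.Prime) {s : ℂ} (hs : 1 < s.re) :
    1 - jo m r * (r : ℂ) ^ (-s) ≠ 0 := by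
  intro h
  have h1 := lsp_term m hr.ne_zero s
  rw [← sub_eq_zero.1 h, norm_one] at h1
  have h2 : (r : ℝ) ^ (-s.re) < 1 :=
    Real.rpow_lt_one_of_one_lt_of_neg (by exact_mod_cast hr.one_lt) (by linarith)
  linarith

theorem lsp_sq (k : ℤ) {r p : ℕ} (hr : r.Prime) (hp : p.Prime) (h2 : r ≠ 2) :
    jo (k * (r : ℤ) ^ 2) p = if p = r then 0 else jo k p := by
  rw [jo_eq, jo_eq, chi_mul_left]
  by_cases ho : Odd p
  · rw [chi_odd ((r : ℤ) ^ 2) ho]
    split_ifs with h
    · subst h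
      rw [jacobiSym.pow_left, (jacobiSym.eq_zero_iff).2 ⟨hp.ne_zero, by simpa using hp.ne_one⟩]
      simp
    · rw [jacobiSym.sq_one', mul_one]
      rw [Int.gcd_natCast_natCast]
      exact (Nat.coprime_primes hr hp).2 (Ne.symm h)
  · rw [chi_even k ho, if_neg (fun h : p = r => ho (by rw [h]; exact hr.odd_of_ne_two h2))]
    simp

theorem pLSP : LSP := by
  refine ⟨fun m s hs => lsp_sum m hs, fun m s hs => lsp_prod m hs, fun m s hs => lsp_le m hs,
    fun m => ?_, fun m s hs => ?_, fun k r s hr h2 hs => ?_⟩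
  · refine (LSeries_differentiableOn (jo m)).mono fun s hs => ?_
    have h1 : LSeries.abscissaOfAbsConv (jo m) ≤ (1 : ℝ) :=
      LSeries.abscissaOfAbsConv_le_of_forall_lt_LSeriesSummable fun y hy => by
        rw [funext (jo_eq m)]
        exact LSeriesSummable_chi m (by simpa using hy)
    exact h1.trans_lt (by exact_mod_cast hs)
  · have h := lsp_sum m (s := conj s) (by simpa using hs)
    have h1 := (Complex.hasSum_conj'.2 h :)
    refine h1.unique ?_
    have e : (fun n : ℕ => conj (jo m n * (n : ℂ) ^ (-conj s))) =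
        fun n : ℕ => jo m n * (n : ℂ) ^ (-s) := by
      funext n
      have ha : (n : ℂ).arg ≠ π := by
        rw [natCast_arg]
        exact Real.pi_pos.ne
      rw [map_mul, jo_eq, map_intCast, ← map_neg, cpow_conj _ _ ha, conj_conj, map_natCast]
    rw [e]
    exact lsp_sum m hs
  · have h1 := (lsp_prod k hs).mul (hasProd_ite_eq (⟨r, hr⟩ : Nat.Primes)
      (1 - jo k r * (r : ℂ) ^ (-s)))
    refine (lsp_prod _ hs).unique ?_
    have e : (fun p : Nat.Primes => (1 - jo (k * (r : ℤ) ^ 2) p * ((p : ℕ) : ℂ) ^ (-s))⁻¹) =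
        fun p : Nat.Primes => (1 - jo k p * ((p : ℕ) : ℂ) ^ (-s))⁻¹ *
          if p = ⟨r, hr⟩ then 1 - jo k r * (r : ℂ) ^ (-s) else 1 := by
      funext p
      rw [lsp_sq k hr p.2 h2]
      by_cases h : p = ⟨r, hr⟩
      · subst h
        rw [if_pos rfl, if_pos rfl, inv_mul_cancel₀ (lsp_ne k hr hs)]
        simp
      · rw [if_neg h, if_neg (fun h' => h (Subtype.ext h')), mul_one]
    rw [e]
    exact h1

end Pool.Agent.QM
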