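import Pool.Agent.Lib.Sieve.Mertens

/-! Sums over primes used by the twisted mean value theorem. -/

namespace Pool.Agent.QM

open Finset Real

/-- Primes in a range: the sum of reciprocals. -/
theorem pr_primes_block (S : Finset ℕ) {a b : ℝ} (ha : 0 < a) (hab : a ≤ b)
    (hS : ∀ r ∈ S, r.Prime ∧ a ≤ log r ∧ log r ≤ b) :
    ∑ r ∈ S, 1 / (r : ℝ) ≤ log (b / a) + 11 := by
  have hρ : 1 ≤ b / a := by rw [le_div_iff₀ ha]; linarith
  set ρ := b / a with hρd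
  have hb : b = ρ * a := by rw [hρd]; field_simp
  have hρ0 := log_nonneg hρ
  rcases S.eq_empty_or_nonempty with rfl | ⟨r₀, h₀⟩
  · rw [sum_empty]
    linarith
  have hpos : ∀ r ∈ S, (0 : ℝ) < r := fun r hr => by exact_mod_cast (hS r hr).1.pos
  set z := exp b with hzd
  set w := exp a with hwd
  have hz' : ∀ r ∈ S, (r : ℝ) ≤ z := fun r hr => by
    rw [hzd, ← log_le_iff_le_exp (hpos r hr)]; exact (hS r hr).2.2
  have hw' : ∀ r ∈ S, w ≤ (r : ℝ) := fun r hr => by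
    rw [hwd, ← le_log_iff_exp_le (hpos r hr)]; exact (hS r hr).2.1
  have hw : 1 ≤ w := one_le_exp ha.le
  have hz : log z ≤ ρ * log w := by rw [hzd, hwd, log_exp, log_exp, hb]
  have a1 := (hS r₀ h₀).1
  have hZ : ∀ r ∈ S, r ≤ ⌊z⌋₊ := fun r hr => Nat.le_floor (hz' r hr)
  have hZ2 : 2 ≤ ⌊z⌋₊ := a1.two_le.trans (hZ r₀ h₀)
  have hZ2' : (2 : ℝ) ≤ ⌊z⌋₊ := by exact_mod_cast hZ2
  have hz0 : 0 ≤ z := (exp_pos _).le
  have hl := Pool.Agent.Lib.Sieve.one_half_le_log hZ2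
  have h1 : log ⌊z⌋₊ ≤ log z := log_le_log (by linarith) (Nat.floor_le hz0)
  have h2 := Pool.Agent.Lib.Sieve.sum_inv_primes_le hZ2
  have l2 := log_two_lt_d9
  by_cases hw2 : w < 2
  · have h3 : log w ≤ 1 := (log_le_log (by linarith) hw2.le).trans (by linarith)
    have h4 : log ⌊z⌋₊ ≤ ρ := by nlinarith
    have h5 := log_le_log (by linarith) h4
    have h6 : ∑ r ∈ S, 1 / (r : ℝ) ≤ ∑ r ∈ Nat.primesLE ⌊z⌋₊, 1 / (r : ℝ) :=
      sum_le_sum_of_subset_of_nonneg (fun r hr => Nat.mem_primesLE.2 ⟨hZ r hr, (hS r hr).1⟩)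
        fun r _ _ => by positivity
    linarith
  · have hw2' : 2 ≤ w := not_lt.1 hw2
    have hW2 : 2 ≤ ⌊w⌋₊ := Nat.le_floor (by exact_mod_cast hw2')
    have hW2' : (2 : ℝ) ≤ ⌊w⌋₊ := by exact_mod_cast hW2
    have hWw : (⌊w⌋₊ : ℝ) ≤ w := Nat.floor_le (by linarith)
    have hWZ : ⌊w⌋₊ ≤ ⌊z⌋₊ := Nat.floor_mono ((hw' r₀ h₀).trans (hz' r₀ h₀))
    have hlW := Pool.Agent.Lib.Sieve.one_half_le_log hW2
    have h3 := Pool.Agent.Lib.Sieve.le_sum_inv_primes hW2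
    have h4 : log w ≤ 2 * log ⌊w⌋₊ := by
      have h5 := Nat.lt_floor_add_one w
      have h6 := log_le_log (by linarith) (show w ≤ (⌊w⌋₊ : ℝ) ^ 2 by nlinarith)
      rw [log_pow] at h6
      exact_mod_cast h6
    have h5 : log ⌊z⌋₊ ≤ ρ * (2 * log ⌊w⌋₊) :=
      h1.trans (hz.trans (mul_le_mul_of_nonneg_left h4 (by linarith)))
    have h6 := log_le_log (by linarith) h5
    rw [log_mul (by linarith) (by linarith), log_mul (by norm_num) (by linarith)] at h6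
    have hsub : Nat.primesLE ⌊w⌋₊ ⊆ Nat.primesLE ⌊z⌋₊ := fun r hr =>
      Nat.mem_primesLE.2 ⟨(Nat.mem_primesLE.1 hr).1.trans hWZ, (Nat.mem_primesLE.1 hr).2⟩
    have h7 := sum_sdiff (f := fun r : ℕ => 1 / (r : ℝ)) hsub
    have h8 : ∑ r ∈ S, 1 / (r : ℝ) ≤
        ∑ r ∈ insert ⌊w⌋₊ (Nat.primesLE ⌊z⌋₊ \ Nat.primesLE ⌊w⌋₊), 1 / (r : ℝ) := by
      refine sum_le_sum_of_subset_of_nonneg (fun r hr => ?_) fun r _ _ => by positivity
      have h9 : ⌊w⌋₊ ≤ r := by exact_mod_cast hWw.trans (hw' r hr)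
      rcases h9.eq_or_lt with h10 | h10
      · exact mem_insert.2 (Or.inl h10.symm)
      · exact mem_insert_of_mem (mem_sdiff.2 ⟨Nat.mem_primesLE.2 ⟨hZ r hr, (hS r hr).1⟩,
          fun h => absurd (Nat.mem_primesLE.1 h).1 (not_le.2 h10)⟩)
    have h9 : ∑ r ∈ insert ⌊w⌋₊ (Nat.primesLE ⌊z⌋₊ \ Nat.primesLE ⌊w⌋₊), 1 / (r : ℝ) ≤
        1 + ∑ r ∈ Nat.primesLE ⌊z⌋₊ \ Nat.primesLE ⌊w⌋₊, 1 / (r : ℝ) := by
      by_cases h : ⌊w⌋₊ ∈ Nat.primesLE ⌊z⌋₊ \ Nat.primesLE ⌊w⌋₊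
      · rw [insert_eq_of_mem h]
        linarith
      · rw [sum_insert h]
        have h10 : 1 / (⌊w⌋₊ : ℝ) ≤ 1 := by
          rw [div_le_one (by linarith)]
          linarith
        linarith
    linarith

/-- First Mertens bound for a finite set of primes below `exp b`. -/
theorem pr_primes_log_div (S : Finset ℕ) {b : ℝ} (hb : 0 ≤ b)
    (hS : ∀ r ∈ S, r.Prime ∧ log r ≤ b) : ∑ r ∈ S, log r / r ≤ b + log 4 := by
  have hz : 1 ≤ ⌊exp b⌋₊ := Nat.le_floor (by simpa using hb)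
  have h1 := Pool.Agent.Lib.Sieve.sum_log_div_le hz
  have hz' : (1 : ℝ) ≤ ⌊exp b⌋₊ := by exact_mod_cast hz
  have h2 : log ⌊exp b⌋₊ ≤ b := by
    rw [log_le_iff_le_exp (by linarith)]; exact Nat.floor_le (exp_pos _).le
  have h3 : ∑ r ∈ S, log r / r ≤ ∑ r ∈ Nat.primesLE ⌊exp b⌋₊, log r / (r : ℝ) := by
    refine sum_le_sum_of_subset_of_nonneg (fun r hr => Nat.mem_primesLE.2 ⟨?_, (hS r hr).1⟩)
      fun r _ _ => div_nonneg (log_natCast_nonneg r) (Nat.cast_nonneg r)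
    refine Nat.le_floor ?_
    have : (0 : ℝ) < r := by exact_mod_cast (hS r hr).1.pos
    rw [← log_le_iff_le_exp this]; exact (hS r hr).2
  linarith

/-- Second Mertens bound, upper side, for a finite set of primes below `exp b`. -/
theorem pr_primes_inv_le (S : Finset ℕ) {b : ℝ} (hb : 1 ≤ b)
    (hS : ∀ r ∈ S, r.Prime ∧ log r ≤ b) : ∑ r ∈ S, 1 / (r : ℝ) ≤ log b + 7 := by
  have he : (2 : ℝ) ≤ exp b := by linarith [add_one_le_exp b]
  have hz : 2 ≤ ⌊exp b⌋₊ := Nat.le_floor (by exact_mod_cast he)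
  have h1 := Pool.Agent.Lib.Sieve.sum_inv_primes_le hz
  have hl := Pool.Agent.Lib.Sieve.one_half_le_log hz
  have hz' : (2 : ℝ) ≤ ⌊exp b⌋₊ := by exact_mod_cast hz
  have h2 : log ⌊exp b⌋₊ ≤ b := by
    rw [log_le_iff_le_exp (by linarith)]; exact Nat.floor_le (exp_pos _).le
  have h4 := log_le_log (by linarith) h2
  have h3 : ∑ r ∈ S, 1 / (r : ℝ) ≤ ∑ r ∈ Nat.primesLE ⌊exp b⌋₊, 1 / (r : ℝ) := by
    refine sum_le_sum_of_subset_of_nonneg (fun r hr => Nat.mem_primesLE.2 ⟨?_, (hS r hr).1⟩)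
      fun r _ _ => by positivity
    refine Nat.le_floor ?_
    have : (0 : ℝ) < r := by exact_mod_cast (hS r hr).1.pos
    rw [← log_le_iff_le_exp this]; exact (hS r hr).2
  linarith

/-- Second Mertens bound, lower side, for a set holding all odd primes below `exp b`. -/
theorem pr_le_primes_inv (S : Finset ℕ) {b : ℝ} (hb : 1 ≤ b)
    (hS : ∀ r : ℕ, r.Prime → r ≠ 2 → log r ≤ b → r ∈ S) : log b - 5 ≤ ∑ r ∈ S, 1 / (r : ℝ) := by
  have he : (2 : ℝ) ≤ exp b := by linarith [add_one_le_exp b]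
  have hz : 2 ≤ ⌊exp b⌋₊ := Nat.le_floor (by exact_mod_cast he)
  have h1 := Pool.Agent.Lib.Sieve.le_sum_inv_primes hz
  have hl := Pool.Agent.Lib.Sieve.one_half_le_log hz
  have hz' : (2 : ℝ) ≤ ⌊exp b⌋₊ := by exact_mod_cast hz
  have h4 : b ≤ 2 * log ⌊exp b⌋₊ := by
    have h5 := Nat.lt_floor_add_one (exp b)
    have h6 := log_le_log (exp_pos b) (show exp b ≤ (⌊exp b⌋₊ : ℝ) ^ 2 by nlinarith)
    rw [log_pow, log_exp] at h6
    exact_mod_cast h6
  have h6 := log_le_log (by linarith) h4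
  rw [log_mul (by norm_num) (by linarith)] at h6
  have l2 := log_two_lt_d9
  have h3 : ∑ r ∈ Nat.primesLE ⌊exp b⌋₊, 1 / (r : ℝ) ≤ ∑ r ∈ insert 2 S, 1 / (r : ℝ) := by
    refine sum_le_sum_of_subset_of_nonneg (fun r hr => ?_) fun r _ _ => by positivity
    obtain ⟨h7, h8⟩ := Nat.mem_primesLE.1 hr
    by_cases h2 : r = 2
    · exact mem_insert.2 (Or.inl h2)
    · refine mem_insert_of_mem (hS r h8 h2 ?_)
      have : (0 : ℝ) < r := by exact_mod_cast h8.pos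
      rw [log_le_iff_le_exp this]
      exact le_trans (by exact_mod_cast h7) (Nat.floor_le (exp_pos _).le)
  have h9 : ∑ r ∈ insert 2 S, 1 / (r : ℝ) ≤ 1 + ∑ r ∈ S, 1 / (r : ℝ) := by
    by_cases h : 2 ∈ S
    · rw [insert_eq_of_mem h]
      linarith
    · rw [sum_insert h]
      norm_num
  linarith

/-- (PM) -/
theorem pr_PM (S : Finset ℕ) {lam τ : ℝ} (hl : 0 ≤ lam) (hτ : 0 ≤ τ)
    (hS : ∀ r ∈ S, r.Prime ∧ log r ≤ lam) :
    ∑ r ∈ S, min 1 (τ * log r) / r ≤ log (1 + lam * τ) + 15 := by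
  have hlt : 0 ≤ lam * τ := mul_nonneg hl hτ
  have hlog : 0 ≤ log (1 + lam * τ) := log_nonneg (by linarith)
  rcases hτ.eq_or_lt with rfl | hτ0
  · have : ∀ r ∈ S, min 1 (0 * log r) / (r : ℝ) = 0 := fun r _ => by simp
    rw [sum_congr rfl this, sum_const_zero]
    linarith
  rw [← sum_filter_add_sum_filter_not S (fun r : ℕ => 1 / τ ≤ log r)]
  have hi : 0 < 1 / τ := by positivity
  have h1 : ∑ r ∈ S.filter (fun r : ℕ => 1 / τ ≤ log r), min 1 (τ * log r) / (r : ℝ) ≤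
      log (1 + lam * τ) + 11 := by
    have h2 := pr_primes_block (S.filter (fun r : ℕ => 1 / τ ≤ log r)) hi
      (show 1 / τ ≤ 1 / τ + lam by linarith) (fun r hr => by
        obtain ⟨h3, h4⟩ := mem_filter.1 hr
        exact ⟨(hS r h3).1, h4, by linarith [(hS r h3).2]⟩)
    have h3 : (1 / τ + lam) / (1 / τ) = 1 + lam * τ := by field_simp
    rw [h3] at h2
    refine le_trans (sum_le_sum fun r _ => ?_) h2
    exact div_le_div_of_nonneg_right (min_le_left _ _) (Nat.cast_nonneg r)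
  have h2 : ∑ r ∈ S.filter (fun r : ℕ => ¬ 1 / τ ≤ log r), min 1 (τ * log r) / (r : ℝ) ≤ 4 := by
    have l2 := log_two_gt_d9
    have l2' := log_two_lt_d9
    by_cases h : τ ≤ 2
    · have h3 := pr_primes_log_div (S.filter (fun r : ℕ => ¬ 1 / τ ≤ log r)) hi.le (fun r hr => by
        obtain ⟨h3, h4⟩ := mem_filter.1 hr
        exact ⟨(hS r h3).1, (not_le.1 h4).le⟩)
      have h4 : log 4 = 2 * log 2 := by
        rw [show (4 : ℝ) = 2 ^ 2 by norm_num, log_pow]; norm_num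
      have h5 : ∑ r ∈ S.filter (fun r : ℕ => ¬ 1 / τ ≤ log r), min 1 (τ * log r) / (r : ℝ) ≤
          τ * ∑ r ∈ S.filter (fun r : ℕ => ¬ 1 / τ ≤ log r), log r / (r : ℝ) := by
        rw [mul_sum]
        refine sum_le_sum fun r _ => ?_
        rw [← mul_div_assoc]
        exact div_le_div_of_nonneg_right (min_le_right _ _) (Nat.cast_nonneg r)
      have h6 := mul_le_mul_of_nonneg_left h3 hτ
      have h7 : τ * (1 / τ + log 4) = 1 + τ * log 4 := by field_simp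
      nlinarith
    · have : S.filter (fun r : ℕ => ¬ 1 / τ ≤ log r) = ∅ := by
        refine filter_eq_empty_iff.2 fun r hr h4 => h4 ?_
        have h5 := Pool.Agent.Lib.Sieve.one_half_le_log (hS r hr).1.two_le
        have h6 : 1 / τ ≤ 1 / 2 := one_div_le_one_div_of_le (by norm_num) (not_le.1 h).le
        linarith
      rw [this, sum_empty]
      norm_num
  linarith

/-- (PL), finite form. -/
theorem pr_PL_fin {ε : ℝ} (h0 : 0 < ε) (h1 : ε ≤ 1) (S : Finset ℕ) (hS : ∀ r ∈ S, r.Prime) :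
    ∑ r ∈ S, log r * (r : ℝ) ^ (-(1 + ε)) ≤ 9 / ε := by
  have l2 := log_two_gt_d9
  have l2' := log_two_lt_d9
  have h4 : log 4 = 2 * log 2 := by
    rw [show (4 : ℝ) = 2 ^ 2 by norm_num, log_pow]; norm_num
  set q : ℝ := exp (-(ε * log 2)) with hq
  have hq0 : 0 < q := exp_pos _
  have hq1 : q * (1 + ε * log 2) ≤ 1 := by
    have h5 := add_one_le_exp (ε * log 2)
    have h6 : q * exp (ε * log 2) = 1 := by rw [hq, ← exp_add]; simp
    nlinarith
  have hq2 : ε / 3 ≤ 1 - q := by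
    have h5 : 0 < 1 + ε * log 2 := by positivity
    have h6 : (1 - ε / 3) * (1 + ε * log 2) ≥ 1 := by
      have : 0 ≤ ε * (log 2 - 1 / 3 - ε * log 2 / 3) := mul_nonneg h0.le (by nlinarith)
      nlinarith
    by_contra h7
    have h8 : 1 - ε / 3 < q := by linarith
    nlinarith
  have hq3 : q < 1 := by linarith
  rw [← sum_fiberwise_of_maps_to (g := fun r => Nat.log 2 r) (t := S.image (Nat.log 2))
    (fun r hr => mem_image_of_mem _ hr)]
  have h5 : ∀ j ∈ S.image (Nat.log 2),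
      ∑ r ∈ S.filter (fun r => Nat.log 2 r = j), log r * (r : ℝ) ^ (-(1 + ε)) ≤ 3 * q ^ j := by
    intro j _
    have h6 : ∀ r ∈ S.filter (fun r => Nat.log 2 r = j),
        log r * (r : ℝ) ^ (-(1 + ε)) ≤ log r * (q ^ j / 2 ^ j) := by
      intro r hr
      obtain ⟨h7, h8⟩ := mem_filter.1 hr
      refine mul_le_mul_of_nonneg_left ?_ (log_natCast_nonneg r)
      have h9 : 2 ^ j ≤ r := h8 ▸ Nat.pow_log_le_self 2 (hS r h7).ne_zero
      have h10 : ((2 : ℝ) ^ j) ≤ r := by exact_mod_cast h9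
      refine (rpow_le_rpow_of_nonpos (by positivity) h10 (by linarith)).trans (le_of_eq ?_)
      rw [rpow_def_of_pos (by positivity), log_pow, hq, ← exp_nat_mul, eq_div_iff (by positivity)]
      rw [show (2 : ℝ) ^ j = exp (j * log 2) by rw [exp_nat_mul, exp_log (by norm_num)], ← exp_add]
      congr 1; ring
    refine (sum_le_sum h6).trans ?_
    rw [← sum_mul]
    have h7 : ∑ r ∈ S.filter (fun r => Nat.log 2 r = j), log r ≤ log 4 * (2 ^ (j + 1) : ℕ) := by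
      refine le_trans ?_ (Chebyshev.theta_le_log4_mul_x (Nat.cast_nonneg _))
      rw [Chebyshev.theta_eq_sum_primesLE_log]
      refine sum_le_sum_of_subset_of_nonneg (fun r hr => ?_) fun r _ _ => log_natCast_nonneg r
      obtain ⟨h7, h8⟩ := mem_filter.1 hr
      exact Nat.mem_primesLE.2 ⟨(h8 ▸ Nat.lt_pow_succ_log_self (by norm_num) r).le, hS r h7⟩
    refine (mul_le_mul_of_nonneg_right h7 (by positivity)).trans ?_
    push_cast
    rw [show log 4 * 2 ^ (j + 1) * (q ^ j / 2 ^ j) = (2 * log 4) * q ^ j by field_simp; ring]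
    exact mul_le_mul_of_nonneg_right (by linarith) (by positivity)
  refine (sum_le_sum h5).trans ?_
  rw [← mul_sum]
  have h6 := (summable_geometric_of_lt_one hq0.le hq3).sum_le_tsum (S.image (Nat.log 2))
    (fun _ _ => by positivity)
  rw [tsum_geometric_of_lt_one hq0.le hq3] at h6
  have h7 : (1 - q)⁻¹ ≤ (ε / 3)⁻¹ := inv_anti₀ (by positivity) hq2
  have h8 : (ε / 3)⁻¹ = 3 / ε := by field_simp
  have h9 : 9 / ε = 3 * (3 / ε) := by ring
  linarith

theorem pr_summable_primes_rpow {δ : ℝ} (h : 0 < δ) :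
    Summable fun p : Nat.Primes => ((p : ℕ) : ℝ) ^ (-(1 + δ)) :=
  Nat.Primes.summable_rpow.2 (by linarith)

theorem pr_sum_primes_eq (f : ℕ → ℝ) (T : Finset Nat.Primes) :
    ∑ p ∈ T, f p = ∑ r ∈ T.image (fun p : Nat.Primes => (p : ℕ)), f r := by
  symm
  exact sum_image (fun a _ b _ h => Subtype.ext h)

theorem pr_PL_summable {ε : ℝ} (h0 : 0 < ε) (h1 : ε ≤ 1) :
    Summable fun p : Nat.Primes => log (p : ℕ) * ((p : ℕ) : ℝ) ^ (-(1 + ε)) := by
  refine summable_of_sum_le (c := 9 / ε)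
    (fun p => mul_nonneg (log_natCast_nonneg _) (by positivity)) fun T => ?_
  rw [pr_sum_primes_eq (fun r => log r * (r : ℝ) ^ (-(1 + ε)))]
  refine pr_PL_fin h0 h1 _ fun r hr => ?_
  obtain ⟨p, _, rfl⟩ := mem_image.1 hr
  exact p.2

/-- (PL) -/
theorem pr_PL {ε : ℝ} (h0 : 0 < ε) (h1 : ε ≤ 1) :
    ∑' p : Nat.Primes, log (p : ℕ) * ((p : ℕ) : ℝ) ^ (-(1 + ε)) ≤ 9 / ε := by
  refine (pr_PL_summable h0 h1).tsum_le_of_sum_le fun T => ?_
  rw [pr_sum_primes_eq (fun r => log r * (r : ℝ) ^ (-(1 + ε)))]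
  refine pr_PL_fin h0 h1 _ fun r hr => ?_
  obtain ⟨p, _, rfl⟩ := mem_image.1 hr
  exact p.2

theorem pr_norm_prime_cpow (p : Nat.Primes) (s : ℂ) :
    ‖((p : ℕ) : ℂ) ^ (-(1 + s))‖ = ((p : ℕ) : ℝ) ^ (-(1 + s.re)) := by
  rw [Complex.norm_natCast_cpow_of_pos p.2.pos]; simp

theorem pr_summable_norm_primes_cpow {s : ℂ} (h : 0 < s.re) :
    Summable fun p : Nat.Primes => ‖((p : ℕ) : ℂ) ^ (-(1 + s))‖ := by
  simp only [pr_norm_prime_cpow]; exact pr_summable_primes_rpow h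

theorem pr_summable_primes_cpow {s : ℂ} (h : 0 < s.re) :
    Summable fun p : Nat.Primes => ((p : ℕ) : ℂ) ^ (-(1 + s)) :=
  (pr_summable_norm_primes_cpow h).of_norm

theorem pr_prime_rpow_le_inv (p : Nat.Primes) {δ : ℝ} (h : 0 ≤ δ) :
    ((p : ℕ) : ℝ) ^ (-(1 + δ)) ≤ 1 / ((p : ℕ) : ℝ) := by
  have h1 : (1 : ℝ) ≤ (p : ℕ) := by exact_mod_cast p.2.one_le
  rw [one_div, ← rpow_neg_one]
  exact rpow_le_rpow_of_exponent_le h1 (by linarith)

theorem pr_summable_primes_inv_sq : Summable fun p : Nat.Primes => (1 / ((p : ℕ) : ℝ)) ^ 2 := by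
  refine (Nat.Primes.summable_rpow.2 (show (-2 : ℝ) < -1 by norm_num)).congr fun p => ?_
  rw [rpow_neg (Nat.cast_nonneg _), one_div, inv_pow]
  norm_num

theorem pr_tsum_primes_inv_sq_le : ∑' p : Nat.Primes, (1 / ((p : ℕ) : ℝ)) ^ 2 ≤ 1 := by
  refine pr_summable_primes_inv_sq.tsum_le_of_sum_le fun T => ?_
  rw [pr_sum_primes_eq (fun r => (1 / (r : ℝ)) ^ 2)]
  refine Pool.Agent.Lib.Sieve.sum_inv_sq_primes_le _ fun r hr => ?_
  obtain ⟨p, _, rfl⟩ := mem_image.1 hr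
  exact p.2

/-- The prime sum and the logarithm of zeta differ by at most one. -/
theorem pr_abs_log_zeta_sub {s : ℂ} (h : 0 < s.re) :
    |log ‖riemannZeta (1 + s)‖ - (∑' p : Nat.Primes, ((p : ℕ) : ℂ) ^ (-(1 + s))).re| ≤ 1 := by
  have h1 := riemannZeta_eulerProduct_exp_log (s := 1 + s) (by simpa using h)
  have hb : ∀ p : Nat.Primes, ‖-Complex.log (1 - ((p : ℕ) : ℂ) ^ (-(1 + s))) -
      ((p : ℕ) : ℂ) ^ (-(1 + s))‖ ≤ (1 / ((p : ℕ) : ℝ)) ^ 2 := by
    intro p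
    set x := ((p : ℕ) : ℂ) ^ (-(1 + s)) with hx
    have h2 : ‖x‖ ≤ 1 / ((p : ℕ) : ℝ) := by
      rw [hx, pr_norm_prime_cpow]; exact pr_prime_rpow_le_inv p h.le
    have h3 : (2 : ℝ) ≤ (p : ℕ) := by exact_mod_cast p.2.two_le
    have h4 : 1 / ((p : ℕ) : ℝ) ≤ 1 / 2 := one_div_le_one_div_of_le (by norm_num) h3
    have h5 := Complex.norm_log_one_add_sub_self_le (z := -x) (by rw [norm_neg]; linarith)
    rw [norm_neg] at h5
    have h6 : -Complex.log (1 - x) - x = -(Complex.log (1 + -x) - -x) := by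
      rw [← sub_eq_add_neg]; ring
    rw [h6, norm_neg]
    have h7 : (1 - ‖x‖)⁻¹ ≤ 2 := by
      rw [inv_le_comm₀ (by linarith) (by norm_num)]; linarith
    have h8 : ‖x‖ ^ 2 ≤ (1 / ((p : ℕ) : ℝ)) ^ 2 := pow_le_pow_left₀ (norm_nonneg _) h2 2
    have h9 : ‖x‖ ^ 2 * (1 - ‖x‖)⁻¹ ≤ ‖x‖ ^ 2 * 2 := mul_le_mul_of_nonneg_left h7 (by positivity)
    linarith
  have hs1 := Summable.of_norm_bounded pr_summable_primes_inv_sq hb
  have hs2 := pr_summable_primes_cpow h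
  have h2 : ∑' p : Nat.Primes, -Complex.log (1 - ((p : ℕ) : ℂ) ^ (-(1 + s))) =
      ∑' p : Nat.Primes, (-Complex.log (1 - ((p : ℕ) : ℂ) ^ (-(1 + s))) -
        ((p : ℕ) : ℂ) ^ (-(1 + s))) + ∑' p : Nat.Primes, ((p : ℕ) : ℂ) ^ (-(1 + s)) := by
    rw [← hs1.tsum_add hs2]; simp
  have h3 := (tsum_of_norm_bounded pr_summable_primes_inv_sq.hasSum hb).trans pr_tsum_primes_inv_sq_le
  rw [← h1, Complex.norm_exp, log_exp]
  erw [h2]
  rw [Complex.add_re, add_sub_cancel_right]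
  exact (Complex.abs_re_le_norm _).trans h3

/-- (PZ) -/
theorem pr_PZ {s : ℂ} (h : 0 < s.re) :
    exp (∑' p : Nat.Primes, ((p : ℕ) : ℂ) ^ (-(1 + s))).re ≤ exp 1 * ‖riemannZeta (1 + s)‖ := by
  have h0 : 0 < ‖riemannZeta (1 + s)‖ :=
    norm_pos_iff.2 (riemannZeta_ne_zero_of_one_lt_re (by simpa using h))
  have h1 := (abs_le.1 (pr_abs_log_zeta_sub h)).1
  rw [← exp_log h0, ← exp_add]
  exact exp_le_exp.2 (by linarith)

/-- (PZ), other direction. -/
theorem pr_PZlow {s : ℂ} (h : 0 < s.re) :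
    ‖riemannZeta (1 + s)‖ ≤ exp 1 * exp (∑' p : Nat.Primes, ((p : ℕ) : ℂ) ^ (-(1 + s))).re := by
  have h0 : 0 < ‖riemannZeta (1 + s)‖ :=
    norm_pos_iff.2 (riemannZeta_ne_zero_of_one_lt_re (by simpa using h))
  have h1 := (abs_le.1 (pr_abs_log_zeta_sub h)).2
  rw [← exp_log h0, ← exp_add]
  exact exp_le_exp.2 (by linarith)

/-- A real bound for the prime sum. -/
theorem pr_exp_tsum_primes_le {δ : ℝ} (h : 0 < δ) :
    exp (∑' p : Nat.Primes, ((p : ℕ) : ℝ) ^ (-(1 + δ))) ≤ 1 + 1 / δ := by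
  have hs := pr_summable_primes_rpow h
  have h1 := riemannZeta_eulerProduct_hasProd (s := 1 + δ) (by simpa using h)
  have h2 : ‖riemannZeta (1 + δ)‖ ≤ 1 + 1 / δ := by
    have h3 : 1 < ((1 : ℂ) + δ).re := by simpa using h
    have h4 : ∀ n : ℕ, ‖1 / (n : ℂ) ^ ((1 : ℂ) + δ)‖ =
        if n = 0 then 0 else (n : ℝ) ^ (-(1 + δ)) := by
      intro n
      split_ifs with h5
      · subst h5
        rw [Nat.cast_zero, Complex.zero_cpow (fun h6 => by rw [h6] at h3; norm_num at h3)]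
        simp
      · rw [norm_div, norm_one, Complex.norm_natCast_cpow_of_pos (Nat.pos_of_ne_zero h5),
          rpow_neg (Nat.cast_nonneg _), one_div]
        simp
    have h5 : ∀ T : Finset ℕ, ∑ n ∈ T, ‖1 / (n : ℂ) ^ ((1 : ℂ) + δ)‖ ≤ 1 + 1 / δ := by
      intro T
      refine le_trans ?_ (Pool.Agent.Lib.Sieve.sum_rpow_le h (T.sup id))
      simp only [h4]
      rw [← sum_filter_add_sum_filter_not T (fun n => n = 0), sum_eq_zero (fun n hn => by
        rw [if_pos (mem_filter.1 hn).2]), zero_add,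
        sum_congr rfl (fun n hn => if_neg (mem_filter.1 hn).2)]
      refine sum_le_sum_of_subset_of_nonneg (fun n hn => ?_) fun n _ _ => by positivity
      obtain ⟨h6, h7⟩ := mem_filter.1 hn
      exact mem_Ioc.2 ⟨Nat.pos_of_ne_zero h7, le_sup (f := id) h6⟩
    have h6 := summable_of_sum_le (fun n => norm_nonneg _) h5
    rw [zeta_eq_tsum_one_div_nat_cpow h3]
    exact (norm_tsum_le_tsum_norm h6).trans (h6.tsum_le_of_sum_le h5)
  have h3 := (continuous_exp.tendsto _).comp hs.hasSum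
  have h4 := (continuous_norm.tendsto _).comp h1
  refine le_trans (le_of_tendsto_of_tendsto' h3 h4 fun T => ?_) h2
  simp only [Function.comp]
  rw [exp_sum, norm_prod]
  refine prod_le_prod (fun p _ => (exp_pos _).le) fun p _ => ?_
  have h5 := pr_norm_prime_cpow p δ
  rw [Complex.ofReal_re] at h5
  have h6 := pr_prime_rpow_le_inv p h.le
  have h7 : (2 : ℝ) ≤ (p : ℕ) := by exact_mod_cast p.2.two_le
  have h8 : 1 / ((p : ℕ) : ℝ) ≤ 1 / 2 := one_div_le_one_div_of_le (by norm_num) h7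
  have h9 : ((p : ℕ) : ℂ) ^ (-((1 : ℂ) + δ)) = (((p : ℕ) : ℝ) ^ (-(1 + δ)) : ℝ) := by
    rw [Complex.ofReal_cpow (Nat.cast_nonneg _)]; push_cast; rfl
  rw [h9]
  set x := ((p : ℕ) : ℝ) ^ (-(1 + δ))
  rw [norm_inv, ← Complex.ofReal_one, ← Complex.ofReal_sub, Complex.norm_real, norm_eq_abs,
    abs_of_pos (by linarith), le_inv_comm₀ (exp_pos _) (by linarith), ← exp_neg]
  linarith [add_one_le_exp (-x)]

/-- Many primes between 100 and `R`. -/
theorem pr_many_primes_le : ∃ R₀ : ℝ, 3 ≤ R₀ ∧ ∀ R : ℝ, R₀ ≤ R →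
    R / (2 * log R) ≤ (((Ioc 100 ⌊R⌋₊).filter Nat.Prime).card : ℝ) := by
  have e1 := (isLittleO_log_id_atTop).bound (c := 1 / 2000) (by norm_num)
  obtain ⟨R₁, hR₁⟩ := Filter.eventually_atTop.1 e1
  refine ⟨max 100 R₁, le_trans (by norm_num) (le_max_left _ _), fun R hR => ?_⟩
  have h100 : 100 ≤ R := (le_max_left _ _).trans hR
  have h1 := hR₁ R ((le_max_right _ _).trans hR)
  have hl : 1 ≤ log R := by
    rw [le_log_iff_exp_le (by linarith)]; linarith [exp_one_lt_d9]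
  simp only [id, norm_eq_abs] at h1
  rw [abs_of_nonneg (by linarith), abs_of_nonneg (by linarith)] at h1
  have h2 := Chebyshev.pi_ge' (x := R) (by linarith)
  have h3 : (Nat.primeCounting ⌊R⌋₊ : ℝ) ≤ 101 + ((Ioc 100 ⌊R⌋₊).filter Nat.Prime).card := by
    rw [← Nat.primesLE_card_eq_primeCounting]
    have : Nat.primesLE ⌊R⌋₊ ⊆ range 101 ∪ (Ioc 100 ⌊R⌋₊).filter Nat.Prime := fun r hr => by
      obtain ⟨h4, h5⟩ := Nat.mem_primesLE.1 hr
      by_cases h6 : r < 101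
      · exact mem_union_left _ (mem_range.2 h6)
      · exact mem_union_right _ (mem_filter.2 ⟨mem_Ioc.2 ⟨by omega, h4⟩, h5⟩)
    have h7 := (card_le_card this).trans (card_union_le _ _)
    rw [card_range] at h7
    exact_mod_cast h7
  have h4 : log (R + 2) ≤ 2 * log R := by
    have h6 := log_le_log (by linarith) (show R + 2 ≤ R ^ 2 by nlinarith)
    rw [log_pow] at h6
    exact_mod_cast h6
  have l2 := log_two_gt_d9
  rw [div_le_iff₀ (by linarith)] at h2 ⊢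
  have h5 : (R - 1) * 0.69 ≤ (R - 1) * log 2 := mul_le_mul_of_nonneg_left (by linarith) (by linarith)
  have h6 := mul_le_mul_of_nonneg_right h3 (show 0 ≤ log R by linarith)
  nlinarith

end Pool.Agent.QM
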