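import Pool.Agent.P.MP_ea46f5_nt.QM.S1
import Pool.Agent.P.MP_ea46f5_nt.QM.FPLa

namespace Pool.Agent.QM

open Complex MeasureTheory Finset
open scoped Real ComplexConjugate

theorem pPC : PC := by
  obtain ⟨R₀, _, h⟩ := pr_many_primes_le
  refine ⟨⟨1 / 2, max 200 R₀, by norm_num, le_max_left _ _, fun R hR => ?_⟩, fun lam hl => ?_⟩
  · refine le_trans (le_of_eq ?_) (h R ((le_max_right _ _).trans hR))
    rw [div_mul_eq_mul_div, one_mul, div_div]
  · have h1 := pr_primes_inv_le ((Ioc 2 ⌊Real.exp lam⌋₊).filter Nat.Prime) hl (fun r hr => by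
      obtain ⟨h2, h3⟩ := mem_filter.1 hr
      refine ⟨h3, (Real.log_le_iff_le_exp (by exact_mod_cast h3.pos)).2 ?_⟩
      exact le_trans (by exact_mod_cast (mem_Ioc.1 h2).2) (Nat.floor_le (Real.exp_pos _).le))
    have h2 := pr_le_primes_inv ((Ioc 2 ⌊Real.exp lam⌋₊).filter Nat.Prime) hl (fun r h3 h4 h5 =>
      mem_filter.2 ⟨mem_Ioc.2 ⟨lt_of_le_of_ne h3.two_le (Ne.symm h4),
        Nat.le_floor ((Real.log_le_iff_le_exp (by exact_mod_cast h3.pos)).1 h5)⟩, h3⟩)
    unfold sg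
    rw [abs_le]
    constructor <;> linarith

end Pool.Agent.QM
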