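import Mathlib

/-! Local factors (LOC, MG): uniform second-order expansions. -/

namespace Pool.Agent.QM

open Complex

/-- `f` is uniformly `O(r ^ k)`. -/
def Og {ι : Type} (r : ι → ℝ) (k : ℕ) (f : ι → ℂ) : Prop :=
  ∃ C : ℝ, 0 ≤ C ∧ ∀ i, ‖f i‖ ≤ C * r i ^ k

section og
variable {ι : Type} {r : ι → ℝ} {k l : ℕ} {f g : ι → ℂ}

theorem Og.congr (h : Og r k f) (e : ∀ i, g i = f i) : Og r k g := by
  obtain ⟨C, h0, h⟩ := h
  exact ⟨C, h0, fun i => by rw [e i]; exact h i⟩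

theorem Og.add (hf : Og r k f) (hg : Og r k g) : Og r k (fun i => f i + g i) := by
  obtain ⟨C, h0, h⟩ := hf
  obtain ⟨D, h1, h'⟩ := hg
  refine ⟨C + D, add_nonneg h0 h1, fun i => ?_⟩
  calc ‖f i + g i‖ ≤ ‖f i‖ + ‖g i‖ := norm_add_le _ _
    _ ≤ C * r i ^ k + D * r i ^ k := add_le_add (h i) (h' i)
    _ = (C + D) * r i ^ k := by ring

theorem Og.neg (hf : Og r k f) : Og r k (fun i => -f i) := by
  obtain ⟨C, h0, h⟩ := hf
  exact ⟨C, h0, fun i => by rw [norm_neg]; exact h i⟩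

theorem Og.sub (hf : Og r k f) (hg : Og r k g) : Og r k (fun i => f i - g i) :=
  (hf.add hg.neg).congr fun i => by ring

theorem Og.mul (hf : Og r k f) (hg : Og r l g) : Og r (k + l) (fun i => f i * g i) := by
  obtain ⟨C, h0, h⟩ := hf
  obtain ⟨D, h1, h'⟩ := hg
  refine ⟨C * D, mul_nonneg h0 h1, fun i => ?_⟩
  calc ‖f i * g i‖ = ‖f i‖ * ‖g i‖ := norm_mul _ _
    _ ≤ (C * r i ^ k) * (D * r i ^ l) :=
        mul_le_mul (h i) (h' i) (norm_nonneg _) ((norm_nonneg _).trans (h i))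
    _ = C * D * r i ^ (k + l) := by ring

theorem Og.const (r : ι → ℝ) (c : ℂ) : Og r 0 (fun _ => c) :=
  ⟨‖c‖, norm_nonneg _, fun i => by simp⟩

theorem Og.zero (r : ι → ℝ) (k : ℕ) : Og r k (fun _ => 0) :=
  ⟨0, le_rfl, fun i => by simp⟩

theorem Og.cmul (c : ℂ) (hf : Og r k f) : Og r k (fun i => c * f i) := by
  have := (Og.const r c).mul hf
  rwa [zero_add] at this

theorem Og.mono (hr : ∀ i, 0 ≤ r i ∧ r i ≤ 1) (hkl : k ≤ l) (hf : Og r l f) : Og r k f := by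
  obtain ⟨C, h0, h⟩ := hf
  exact ⟨C, h0, fun i => (h i).trans
    (mul_le_mul_of_nonneg_left (pow_le_pow_of_le_one (hr i).1 (hr i).2 hkl) h0)⟩

theorem Og.of_le (h : ∀ i, ‖f i‖ ≤ r i ^ k) : Og r k f :=
  ⟨1, zero_le_one, fun i => by rw [one_mul]; exact h i⟩

theorem Og.inv_one_sub {q : ℝ} (hq : q < 1) (h : ∀ i, ‖f i‖ ≤ q) :
    Og r 0 (fun i => (1 - f i)⁻¹) := by
  refine ⟨(1 - q)⁻¹, inv_nonneg.2 (by linarith), fun i => ?_⟩
  rw [pow_zero, mul_one, norm_inv]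
  refine inv_anti₀ (by linarith) ?_
  have := norm_sub_norm_le (1 : ℂ) (f i)
  rw [norm_one] at this
  linarith [h i]

end og

theorem one_sub_ne {x : ℂ} {q : ℝ} (hq : q < 1) (h : ‖x‖ ≤ q) : 1 - x ≠ 0 := by
  intro e
  have : x = 1 := by linear_combination -e
  rw [this, norm_one] at h
  linarith

/-- `A = 1 + a + b + O(r^3)` with `a = O(r)`, `b = O(r^2)`. -/
def Jet {ι : Type} (r : ι → ℝ) (A a b : ι → ℂ) : Prop :=
  Og r 1 a ∧ Og r 2 b ∧ Og r 3 (fun i => A i - 1 - a i - b i)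

section jet
variable {ι : Type} {r : ι → ℝ} {A B a b c d : ι → ℂ}

theorem Jet.congr (h : Jet r A a b) {A' a' b' : ι → ℂ} (e0 : ∀ i, A' i = A i)
    (e1 : ∀ i, a' i = a i) (e2 : ∀ i, b' i = b i) : Jet r A' a' b' :=
  ⟨h.1.congr e1, h.2.1.congr e2, h.2.2.congr fun i => by rw [e0, e1, e2]⟩

theorem Jet.mul (hr : ∀ i, 0 ≤ r i ∧ r i ≤ 1) (h : Jet r A a b) (h' : Jet r B c d) :
    Jet r (fun i => A i * B i) (fun i => a i + c i) (fun i => b i + d i + a i * c i) := by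
  obtain ⟨ha, hb, he⟩ := h
  obtain ⟨hc, hd, hf⟩ := h'
  refine ⟨ha.add hc, (hb.add hd).add (ha.mul hc), ?_⟩
  have hB : Og r 0 B :=
    ((((Og.const r 1).add (hc.mono hr (by norm_num))).add (hd.mono hr (by norm_num))).add
      (hf.mono hr (by norm_num))).congr fun i => by ring
  have hT : Og r 0 (fun i => 1 + a i + b i) :=
    ((Og.const r 1).add (ha.mono hr (by norm_num))).add (hb.mono hr (by norm_num))
  have h1 : Og r 3 _ := he.mul hB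
  have h2 : Og r 3 _ := hT.mul hf
  have h3 : Og r 3 _ := ha.mul hd
  have h4 : Og r 3 _ := hb.mul hc
  have h5 : Og r 3 _ := (hb.mul hd).mono hr (by norm_num)
  exact ((((h1.add h2).add h3).add h4).add h5).congr fun i => by ring

theorem Jet.bdd (hr : ∀ i, 0 ≤ r i ∧ r i ≤ 1) (h : Jet r A a b) : Og r 0 A :=
  ((((Og.const r 1).add (h.1.mono hr (by norm_num))).add (h.2.1.mono hr (by norm_num))).add
    (h.2.2.mono hr (by norm_num))).congr fun i => by ring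

theorem Jet.lin (ha : Og r 1 a) : Jet r (fun i => 1 + a i) a (fun _ => 0) :=
  ⟨ha, Og.zero r 2, (Og.zero r 3).congr fun i => by ring⟩

theorem Jet.quad (hb : Og r 2 b) : Jet r (fun i => 1 + b i) (fun _ => 0) b :=
  ⟨Og.zero r 1, hb, (Og.zero r 3).congr fun i => by ring⟩

theorem Jet.inv1 {q : ℝ} (hq : q < 1) (ha : Og r 1 a) (h : ∀ i, ‖a i‖ ≤ q) :
    Jet r (fun i => (1 - a i)⁻¹) a (fun i => a i * a i) := by
  refine ⟨ha, ha.mul ha, ?_⟩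
  have h1 : Og r 3 _ := ((ha.mul ha).mul ha).mul (Og.inv_one_sub hq h)
  refine h1.congr fun i => ?_
  have := one_sub_ne hq (h i)
  field_simp
  ring

theorem Jet.inv2 (hr : ∀ i, 0 ≤ r i ∧ r i ≤ 1) {q : ℝ} (hq : q < 1) (hb : Og r 2 b)
    (h : ∀ i, ‖b i‖ ≤ q) : Jet r (fun i => (1 - b i)⁻¹) (fun _ => 0) b := by
  refine ⟨Og.zero r 1, hb, ?_⟩
  have h1 : Og r 3 _ := ((hb.mul hb).mul (Og.inv_one_sub hq h)).mono hr (by norm_num)
  refine h1.congr fun i => ?_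
  have := one_sub_ne hq (h i)
  field_simp
  ring

theorem Jet.exp (hr : ∀ i, 0 ≤ r i ∧ r i ≤ 1) (ha : Og r 1 a) (hb : Og r 2 b) :
    Jet r (fun i => cexp (a i + b i)) a (fun i => b i + a i * a i / 2) := by
  have hs : Og r 1 (fun i => a i + b i) := ha.add (hb.mono hr (by norm_num))
  refine ⟨ha, hb.add (((ha.mul ha).cmul (1 / 2)).congr fun i => by ring), ?_⟩
  have h1 : Og r 3 (fun i => cexp (a i + b i) -
      ∑ m ∈ Finset.range 3, (a i + b i) ^ m / (m.factorial : ℂ)) := by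
    obtain ⟨C, h0, h⟩ := hs
    refine ⟨C ^ 3 * Real.exp C, by positivity, fun i => ?_⟩
    have hi : ‖a i + b i‖ ≤ C * r i := by simpa using h i
    have hC : ‖a i + b i‖ ≤ C := hi.trans (mul_le_of_le_one_right h0 (hr i).2)
    calc _ ≤ ‖a i + b i‖ ^ 3 * Real.exp ‖a i + b i‖ :=
          Complex.norm_exp_sub_sum_le_norm_mul_exp _ _
      _ ≤ (C * r i) ^ 3 * Real.exp C := by
          have := (norm_nonneg _).trans hi
          gcongr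
      _ = C ^ 3 * Real.exp C * r i ^ 3 := by ring
  have h2 : Og r 3 _ := ha.mul hb
  have h3 : Og r 3 _ := ((hb.mul hb).cmul (1 / 2)).mono hr (by norm_num)
  refine ((h1.add h2).add h3).congr fun i => ?_
  simp [Finset.sum_range_succ, Nat.factorial]
  ring

/-- the jet of `((1 - x)^2 (1 - y)^2)⁻¹`. -/
theorem jet_F (hr : ∀ i, 0 ≤ r i ∧ r i ≤ 1) {q : ℝ} (hq : q < 1) {x y : ι → ℂ}
    (hx : Og r 1 x) (hy : Og r 1 y) (hx' : ∀ i, ‖x i‖ ≤ q) (hy' : ∀ i, ‖y i‖ ≤ q) :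
    Jet r (fun i => ((1 - x i) ^ 2 * (1 - y i) ^ 2)⁻¹) (fun i => 2 * x i + 2 * y i)
      (fun i => 3 * x i ^ 2 + 4 * x i * y i + 3 * y i ^ 2) := by
  have j1 := Jet.inv1 hq hx hx'
  have j2 := Jet.inv1 hq hy hy'
  exact ((j1.mul hr j1).mul hr (j2.mul hr j2)).congr
    (fun i => by rw [mul_inv, sq, sq, mul_inv, mul_inv]) (fun i => by ring) (fun i => by ring)

/-- the jet of `((1 - a)^3 (1 - b)^4 (1 - c)^3)⁻¹` for quadratic `a b c`. -/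
theorem jet_Z (hr : ∀ i, 0 ≤ r i ∧ r i ≤ 1) {q : ℝ} (hq : q < 1)
    (ha : Og r 2 a) (hb : Og r 2 b) (hc : Og r 2 c) (ha' : ∀ i, ‖a i‖ ≤ q)
    (hb' : ∀ i, ‖b i‖ ≤ q) (hc' : ∀ i, ‖c i‖ ≤ q) :
    Jet r (fun i => ((1 - a i) ^ 3 * (1 - b i) ^ 4 * (1 - c i) ^ 3)⁻¹) (fun _ => 0)
      (fun i => 3 * a i + 4 * b i + 3 * c i) := by
  have j1 := Jet.inv2 hr hq ha ha'
  have j2 := Jet.inv2 hr hq hb hb'
  have j3 := Jet.inv2 hr hq hc hc'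
  exact ((((j1.mul hr j1).mul hr j1).mul hr (((j2.mul hr j2).mul hr j2).mul hr j2)).mul hr
    ((j3.mul hr j3).mul hr j3)).congr
    (fun i => by rw [mul_inv, mul_inv, ← inv_pow, ← inv_pow, ← inv_pow]; ring)
    (fun i => by ring) (fun i => by ring)

end jet

/-- parameters of the unramified local factor. -/
structure LU (q : ℝ) where
  r : ℝ
  x : ℂ
  y : ℂ
  u : ℂ
  v : ℂ
  h0 : 0 ≤ r
  h1 : r ≤ q
  hx : ‖x‖ ≤ r
  hy : ‖y‖ ≤ r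
  hv : ‖v‖ ≤ r
  hux : ‖u * x‖ ≤ r
  huy : ‖u * y‖ ≤ r
  huv : ‖u * v‖ ≤ r ^ 2

/-- LOC, unramified case, free variables. -/
theorem loc_unram_abs {q : ℝ} (hq : q < 1) : ∃ C : ℝ, 0 ≤ C ∧ ∀ (r : ℝ) (x y u v : ℂ),
    0 ≤ r → r ≤ q → ‖x‖ ≤ r → ‖y‖ ≤ r → ‖v‖ ≤ r → ‖u * x‖ ≤ r → ‖u * y‖ ≤ r →
    ‖u * v‖ ≤ r ^ 2 →
    ‖(u * v + ((1 - u * v) + (u - v)) * ((1 - x) ^ 2 * (1 - y) ^ 2)⁻¹ / 2
        + ((1 - u * v) - (u - v)) * ((1 + x) ^ 2 * (1 + y) ^ 2)⁻¹ / 2)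
      * ((1 - u * x) ^ 2 * (1 - u * y) ^ 2 /
        ((1 - (u * x) * (u * x)) ^ 3 * (1 - (u * x) * (u * y)) ^ 4 * (1 - (u * y) * (u * y)) ^ 3))
      - 1 - (3 * x ^ 2 + 4 * x * y + 3 * y ^ 2) + 2 * v * (x + y)‖ ≤ C * r ^ 3 := by
  let r : LU q → ℝ := fun i => i.r
  have hr : ∀ i, 0 ≤ r i ∧ r i ≤ 1 := fun i => ⟨i.h0, i.h1.trans hq.le⟩
  have o1 : ∀ {f : LU q → ℂ}, (∀ i, ‖f i‖ ≤ i.r) → Og r 1 f :=
    fun h => Og.of_le fun i => by rw [pow_one]; exact h i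
  have hx : Og r 1 (fun i => i.x) := o1 fun i => i.hx
  have hy : Og r 1 (fun i => i.y) := o1 fun i => i.hy
  have hv : Og r 1 (fun i => i.v) := o1 fun i => i.hv
  have hux : Og r 1 (fun i => i.u * i.x) := o1 fun i => i.hux
  have huy : Og r 1 (fun i => i.u * i.y) := o1 fun i => i.huy
  have huv : Og r 2 (fun i => i.u * i.v) := Og.of_le fun i => i.huv
  have bx : ∀ i : LU q, ‖i.x‖ ≤ q := fun i => i.hx.trans i.h1
  have bY : ∀ i : LU q, ‖i.y‖ ≤ q := fun i => i.hy.trans i.h1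
  have bx' : ∀ i : LU q, ‖-i.x‖ ≤ q := fun i => by rw [norm_neg]; exact bx i
  have bY' : ∀ i : LU q, ‖-i.y‖ ≤ q := fun i => by rw [norm_neg]; exact bY i
  have bm : ∀ (i : LU q) (s t : ℂ), ‖s‖ ≤ i.r → ‖t‖ ≤ i.r → ‖s * t‖ ≤ q := by
    intro i s t hs ht
    rw [norm_mul]
    calc ‖s‖ * ‖t‖ ≤ i.r * 1 := mul_le_mul hs (ht.trans (hr i).2) (norm_nonneg _) i.h0
      _ ≤ q := by rw [mul_one]; exact i.h1
  have jp := jet_F hr hq hx hy bx bY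
  have jm := jet_F hr hq hx.neg hy.neg bx' bY'
  have jz := jet_Z hr hq (hux.mul hux) (hux.mul huy) (huy.mul huy)
    (fun i => bm i _ _ i.hux i.hux) (fun i => bm i _ _ i.hux i.huy) (fun i => bm i _ _ i.huy i.huy)
  have jn := (((Jet.lin hux.neg).mul hr (Jet.lin hux.neg)).mul hr
    ((Jet.lin huy.neg).mul hr (Jet.lin huy.neg))).mul hr jz
  have jw := ((Jet.quad (hx.mul hy)).mul hr jp).mul hr jm
  -- the local factor
  have hQ : Og r 2 (fun i => 3 * i.x ^ 2 + 4 * i.x * i.y + 3 * i.y ^ 2) := jp.2.1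
  have hvS : Og r 2 (fun i => 2 * i.v * (i.x + i.y)) :=
    ((hv.mul (hx.add hy)).cmul 2).congr fun i => by ring
  have hxi : Og r 1 (fun i => 2 * (i.u * i.x) + 2 * (i.u * i.y)) := (hux.cmul 2).add (huy.cmul 2)
  have hE : Og r 3 (fun i => (((1 - i.x) ^ 2 * (1 - i.y) ^ 2)⁻¹
      + ((1 + i.x) ^ 2 * (1 + i.y) ^ 2)⁻¹) / 2 - 1 - (3 * i.x ^ 2 + 4 * i.x * i.y + 3 * i.y ^ 2)) :=
    ((jp.2.2.add jm.2.2).cmul (1 / 2)).congr fun i => by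
      simp only [sub_neg_eq_add]; ring
  have hW : Og r 2 (fun i => (1 + i.x * i.y) * ((1 - i.x) ^ 2 * (1 - i.y) ^ 2)⁻¹
      * ((1 + i.x) ^ 2 * (1 + i.y) ^ 2)⁻¹ - 1) :=
    (jw.2.1.add (jw.2.2.mono hr (by norm_num))).congr fun i => by
      simp only [sub_neg_eq_add]; ring
  have jl : Jet r (fun i => i.u * i.v
      + ((1 - i.u * i.v) + (i.u - i.v)) * ((1 - i.x) ^ 2 * (1 - i.y) ^ 2)⁻¹ / 2
      + ((1 - i.u * i.v) - (i.u - i.v)) * ((1 + i.x) ^ 2 * (1 + i.y) ^ 2)⁻¹ / 2)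
      (fun i => 2 * (i.u * i.x) + 2 * (i.u * i.y))
      (fun i => (3 * i.x ^ 2 + 4 * i.x * i.y + 3 * i.y ^ 2) - 2 * i.v * (i.x + i.y)) := by
    refine ⟨hxi, hQ.sub hvS, ?_⟩
    have t1 : Og r 3 _ := (huv.mul (hQ.add (hE.mono hr (by norm_num)))).mono hr (by norm_num)
    have t2 : Og r 3 _ := (hxi.sub (hvS.mono hr (by norm_num))).mul hW
    refine ((hE.sub t1).add t2).congr fun i => ?_
    have n1 := one_sub_ne hq (bx i)
    have n2 := one_sub_ne hq (bY i)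
    have n3 : 1 + i.x ≠ 0 := by simpa using one_sub_ne hq (bx' i)
    have n4 : 1 + i.y ≠ 0 := by simpa using one_sub_ne hq (bY' i)
    field_simp
    ring
  obtain ⟨C, hC0, hC⟩ := (jl.mul hr jn).2.2
  refine ⟨C, hC0, fun r x y u v h0 h1 hx hy hv hux huy huv => ?_⟩
  have := hC ⟨r, x, y, u, v, h0, h1, hx, hy, hv, hux, huy, huv⟩
  refine le_of_eq_of_le (congrArg _ ?_) this
  simp only [div_eq_mul_inv]
  ring

/-- parameters of the ramified local factor. -/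
structure LR (q : ℝ) where
  r : ℝ
  x : ℂ
  y : ℂ
  w : ℂ
  h0 : 0 ≤ r
  h1 : r ≤ q
  hx : ‖x‖ ≤ r
  hy : ‖y‖ ≤ r
  h11 : ‖w * x * x‖ ≤ r ^ 2
  h12 : ‖w * x * y‖ ≤ r ^ 2
  h22 : ‖w * y * y‖ ≤ r ^ 2

/-- LOC, ramified case, free variables. -/
theorem loc_ram_abs {q : ℝ} (hq : q < 1) : ∃ C : ℝ, 0 ≤ C ∧ ∀ (r : ℝ) (x y w : ℂ),
    0 ≤ r → r ≤ q → ‖x‖ ≤ r → ‖y‖ ≤ r → ‖w * x * x‖ ≤ r ^ 2 → ‖w * x * y‖ ≤ r ^ 2 →
    ‖w * y * y‖ ≤ r ^ 2 →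
    ‖(w + (1 - w) * ((1 - x) ^ 2 * (1 - y) ^ 2)⁻¹ / 2
        + (1 - w) * ((1 + x) ^ 2 * (1 + y) ^ 2)⁻¹ / 2)
      * ((1 - w * x * x) ^ 3 * (1 - w * x * y) ^ 4 * (1 - w * y * y) ^ 3)⁻¹
      - 1 - (3 * x ^ 2 + 4 * x * y + 3 * y ^ 2)‖ ≤ C * r ^ 3 := by
  let r : LR q → ℝ := fun i => i.r
  have hr : ∀ i, 0 ≤ r i ∧ r i ≤ 1 := fun i => ⟨i.h0, i.h1.trans hq.le⟩
  have o1 : ∀ {f : LR q → ℂ}, (∀ i, ‖f i‖ ≤ i.r) → Og r 1 f :=
    fun h => Og.of_le fun i => by rw [pow_one]; exact h i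
  have hx : Og r 1 (fun i => i.x) := o1 fun i => i.hx
  have hy : Og r 1 (fun i => i.y) := o1 fun i => i.hy
  have h11 : Og r 2 (fun i => i.w * i.x * i.x) := Og.of_le fun i => i.h11
  have h12 : Og r 2 (fun i => i.w * i.x * i.y) := Og.of_le fun i => i.h12
  have h22 : Og r 2 (fun i => i.w * i.y * i.y) := Og.of_le fun i => i.h22
  have bx : ∀ i : LR q, ‖i.x‖ ≤ q := fun i => i.hx.trans i.h1
  have bY : ∀ i : LR q, ‖i.y‖ ≤ q := fun i => i.hy.trans i.h1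
  have bx' : ∀ i : LR q, ‖-i.x‖ ≤ q := fun i => by rw [norm_neg]; exact bx i
  have bY' : ∀ i : LR q, ‖-i.y‖ ≤ q := fun i => by rw [norm_neg]; exact bY i
  have b2 : ∀ i : LR q, i.r ^ 2 ≤ q := fun i =>
    (pow_le_of_le_one i.h0 (hr i).2 two_ne_zero).trans i.h1
  have jp := jet_F hr hq hx hy bx bY
  have jm := jet_F hr hq hx.neg hy.neg bx' bY'
  have jz := jet_Z hr hq h11 h12 h22 (fun i => i.h11.trans (b2 i)) (fun i => i.h12.trans (b2 i))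
    (fun i => i.h22.trans (b2 i))
  have jw := jp.mul hr jm
  have hQ : Og r 2 (fun i => 3 * i.x ^ 2 + 4 * i.x * i.y + 3 * i.y ^ 2) := jp.2.1
  have hZ : Og r 2 (fun i => 3 * (i.w * i.x * i.x) + 4 * (i.w * i.x * i.y)
      + 3 * (i.w * i.y * i.y)) := jz.2.1
  have hE : Og r 3 (fun i => (((1 - i.x) ^ 2 * (1 - i.y) ^ 2)⁻¹
      + ((1 + i.x) ^ 2 * (1 + i.y) ^ 2)⁻¹) / 2 - 1 - (3 * i.x ^ 2 + 4 * i.x * i.y + 3 * i.y ^ 2)) :=
    ((jp.2.2.add jm.2.2).cmul (1 / 2)).congr fun i => by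
      simp only [sub_neg_eq_add]; ring
  have hW : Og r 1 (fun i => ((1 - i.x) ^ 2 * (1 - i.y) ^ 2)⁻¹
      * ((1 + i.x) ^ 2 * (1 + i.y) ^ 2)⁻¹ - 1) :=
    ((jw.2.1.mono hr (by norm_num)).add (jw.2.2.mono hr (by norm_num))).congr fun i => by
      simp only [sub_neg_eq_add]; ring
  have hW0 : Og r 0 (fun i => ((1 - i.x) ^ 2 * (1 - i.y) ^ 2)⁻¹
      * ((1 + i.x) ^ 2 * (1 + i.y) ^ 2)⁻¹) :=
    ((hW.mono hr (by norm_num)).add (Og.const r 1)).congr fun i => by ring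
  have hxx : Og r 1 _ := (hx.mul hx).mono hr (by norm_num)
  have hxy : Og r 1 _ := (hx.mul hy).mono hr (by norm_num)
  have hyy : Og r 1 _ := (hy.mul hy).mono hr (by norm_num)
  have hN : Og r 3 (fun i => -(i.w * i.x * i.x) * (i.x * i.x) - (i.w * i.y * i.y) * (i.y * i.y)
      - 3 * ((i.w * i.x * i.y) * (i.x * i.y)) + 2 * ((i.w * i.x * i.x) * (i.y * i.y) * (i.y * i.y))
      + 2 * ((i.w * i.y * i.y) * (i.x * i.x) * (i.x * i.x))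
      - (i.w * i.x * i.y) * (i.x * i.y) * (i.x * i.y) * (i.x * i.y)) :=
    (((((h11.neg.mul hxx).sub (h22.mul hyy)).sub ((h12.mul hxy).cmul 3)).add
      ((((h11.mul hyy).mul hyy).mono hr (by norm_num)).cmul 2)).add
      ((((h22.mul hxx).mul hxx).mono hr (by norm_num)).cmul 2)).sub
      ((((h12.mul hxy).mul hxy).mul hxy).mono hr (by norm_num))
  have jl : Jet r (fun i => i.w + (1 - i.w) * ((1 - i.x) ^ 2 * (1 - i.y) ^ 2)⁻¹ / 2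
      + (1 - i.w) * ((1 + i.x) ^ 2 * (1 + i.y) ^ 2)⁻¹ / 2) (fun _ => 0)
      (fun i => (3 * i.x ^ 2 + 4 * i.x * i.y + 3 * i.y ^ 2) - (3 * (i.w * i.x * i.x)
        + 4 * (i.w * i.x * i.y) + 3 * (i.w * i.y * i.y))) := by
    refine ⟨Og.zero r 1, hQ.sub hZ, ?_⟩
    have t1 : Og r 3 _ := hZ.mul hW
    have t2 : Og r 3 _ := hN.mul hW0
    refine ((hE.sub t1).sub t2).congr fun i => ?_
    have n1 := one_sub_ne hq (bx i)
    have n2 := one_sub_ne hq (bY i)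
    have n3 : 1 + i.x ≠ 0 := by simpa using one_sub_ne hq (bx' i)
    have n4 : 1 + i.y ≠ 0 := by simpa using one_sub_ne hq (bY' i)
    field_simp
    ring
  obtain ⟨C, hC0, hC⟩ := (jl.mul hr jz).2.2
  refine ⟨C, hC0, fun r x y w h0 h1 hx hy h11 h12 h22 => ?_⟩
  have := hC ⟨r, x, y, w, h0, h1, hx, hy, h11, h12, h22⟩
  refine le_of_eq_of_le (congrArg _ ?_) this
  ring

theorem norm_inv_one_sub_le {x : ℂ} {q : ℝ} (hq : q < 1) (h : ‖x‖ ≤ q) :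
    ‖(1 - x)⁻¹‖ ≤ (1 - q)⁻¹ := by
  rw [norm_inv]
  refine inv_anti₀ (by linarith) ?_
  have := norm_sub_norm_le (1 : ℂ) x
  rw [norm_one] at this
  linarith

/-- norm of a power of a natural number `p ≥ 1`. -/
theorem norm_cp {p : ℕ} (hp : 0 < p) (s : ℂ) : ‖(p : ℂ) ^ s‖ = (p : ℝ) ^ s.re :=
  Complex.norm_natCast_cpow_of_pos hp s

theorem norm_cp_le {p : ℕ} (hp : 0 < p) {s : ℂ} {a : ℝ} (h : s.re ≤ a) :
    ‖(p : ℂ) ^ s‖ ≤ (p : ℝ) ^ a := by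
  rw [norm_cp hp]
  exact Real.rpow_le_rpow_of_exponent_le (by exact_mod_cast hp) h

theorem cp_add {p : ℕ} (hp : 0 < p) (s t : ℂ) : (p : ℂ) ^ s * (p : ℂ) ^ t = (p : ℂ) ^ (s + t) :=
  (Complex.cpow_add _ _ (by exact_mod_cast hp.ne')).symm

theorem three_le_of {p : ℕ} (hp : p.Prime) (h2 : p ≠ 2) : (3 : ℝ) ≤ p := by
  have := hp.two_le
  exact_mod_cast (by omega : 3 ≤ p)

theorem rpow_neg_le {p : ℕ} (h3 : (3 : ℝ) ≤ p) {a : ℝ} (ha : 1 / 3 ≤ a) :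
    (p : ℝ) ^ (-a) ≤ 7 / 10 := by
  have h1 : (p : ℝ) ^ (-a) ≤ (p : ℝ) ^ (-(1 / 3) : ℝ) :=
    Real.rpow_le_rpow_of_exponent_le (by linarith) (by linarith)
  have h2 : (p : ℝ) ^ (-(1 / 3) : ℝ) ≤ (3 : ℝ) ^ (-(1 / 3) : ℝ) :=
    Real.rpow_le_rpow_of_nonpos (by norm_num) h3 (by norm_num)
  have h4 : (3 : ℝ) ^ (-(1 / 3) : ℝ) ≤ 7 / 10 := by
    refine le_of_pow_le_pow_left₀ (n := 3) (by norm_num) (by norm_num) ?_
    rw [← Real.rpow_natCast, ← Real.rpow_mul (by norm_num)]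
    norm_num
  linarith

end Pool.Agent.QM
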