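import Pool.Agent.P.MP_ea46f5_nt.QM.S1

namespace Pool.Agent.QM

open Complex MeasureTheory Finset
open scoped Real ComplexConjugate

theorem ha_jo (k : ℤ) (n : ℕ) : ‖jo k n‖ ≤ 1 := by
  unfold jo
  split_ifs
  · rcases jacobiSym.trichotomy k n with h | h | h <;> simp [h]
  · simp

theorem ha_xs (p : ℕ) (hp : 0 < p) (s : ℂ) : ‖xs s p‖ = (p : ℝ) ^ (-(1 / 2 + s.re)) := by
  unfold xs
  rw [Complex.norm_natCast_cpow_of_pos hp]
  simp

theorem ha_QU (p : ℕ) (hp : 0 < p) (k : ℤ) (z s₁ s₂ : ℂ) :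
    ‖Qp s₁ s₂ p‖ ≤ 3 * (p : ℝ) ^ (-(1 + 2 * s₁.re)) + 4 * (p : ℝ) ^ (-(1 + (s₁.re + s₂.re))) +
      3 * (p : ℝ) ^ (-(1 + 2 * s₂.re)) ∧
    ‖Up k z s₁ s₂ p‖ ≤ (p : ℝ) ^ (-(1 + (z.re + s₁.re))) + (p : ℝ) ^ (-(1 + (z.re + s₂.re))) := by
  have hp' : (0 : ℝ) < p := by exact_mod_cast hp
  have e : ∀ a b : ℝ, (p : ℝ) ^ (-(1 / 2 + a)) * (p : ℝ) ^ (-(1 / 2 + b)) =
      (p : ℝ) ^ (-(1 + (a + b))) := by
    intro a b
    rw [← Real.rpow_add hp']
    congr 1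
    ring
  constructor
  · unfold Qp
    refine (norm_add₃_le).trans (le_of_eq ?_)
    simp only [norm_mul, ha_xs p hp, pow_two, e, Complex.norm_ofNat, two_mul]
  · unfold Up
    have h1 : ‖(p : ℂ) ^ (-(z + 1 / 2))‖ = (p : ℝ) ^ (-(1 / 2 + z.re)) := by
      rw [Complex.norm_natCast_cpow_of_pos hp]
      simp [add_comm]
    have h2 : ‖xs s₁ p + xs s₂ p‖ ≤ (p : ℝ) ^ (-(1 / 2 + s₁.re)) + (p : ℝ) ^ (-(1 / 2 + s₂.re)) := by
      rw [← ha_xs p hp, ← ha_xs p hp]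
      exact norm_add_le _ _
    rw [norm_mul, norm_mul, h1, ← e, ← e, ← mul_add]
    have h3 : (0 : ℝ) ≤ (p : ℝ) ^ (-(1 / 2 + z.re)) := by positivity
    exact mul_le_mul (mul_le_of_le_one_left h3 (ha_jo k p)) h2 (norm_nonneg _) h3

theorem ha_pow (p : ℕ) (hp : p ≠ 0) {f : ℂ × ℂ × ℂ → ℂ} {x : ℂ × ℂ × ℂ}
    (hf : DifferentiableAt ℂ f x) : DifferentiableAt ℂ (fun t => (p : ℂ) ^ f t) x :=
  hf.const_cpow (Or.inl (by exact_mod_cast hp))

theorem ha_div {f g : ℂ × ℂ × ℂ → ℂ} {x : ℂ × ℂ × ℂ} (hf : DifferentiableAt ℂ f x)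
    (hg : DifferentiableAt ℂ g x) (h : g x ≠ 0) : DifferentiableAt ℂ (fun t => f t / g t) x := by
  simp only [div_eq_mul_inv]
  exact hf.fun_mul (hg.fun_inv h)

theorem ha_prod {ι : Type} (s : Finset ι) {f : ι → ℂ × ℂ × ℂ → ℂ} {x : ℂ × ℂ × ℂ}
    (h : ∀ i ∈ s, DifferentiableAt ℂ (f i) x) :
    DifferentiableAt ℂ (fun t => ∏ i ∈ s, f i t) x := by
  classical
  exact (HasFDerivAt.finsetProd fun i hi => (h i hi).hasFDerivAt).differentiableAt

theorem ha_ne (p : ℕ) (hp : 2 ≤ p) (w : ℂ) (hw : 0 < w.re) (y : ℂ) (hy : ‖y‖ ≤ 1) :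
    1 - (p : ℂ) ^ (-w) * y ≠ 0 := by
  intro h
  have h1 : (p : ℂ) ^ (-w) * y = 1 := by linear_combination -h
  have h2 : ‖(p : ℂ) ^ (-w)‖ < 1 := by
    rw [Complex.norm_natCast_cpow_of_pos (by omega)]
    exact Real.rpow_lt_one_of_one_lt_of_neg (by exact_mod_cast hp) (by simpa using hw)
  have h3 : ‖(p : ℂ) ^ (-w) * y‖ < 1 := by
    rw [norm_mul]
    exact lt_of_le_of_lt (mul_le_of_le_one_right (norm_nonneg _) hy) h2
  rw [h1] at h3
  simp at h3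

theorem ha_ne1 (p : ℕ) (hp : 2 ≤ p) (w : ℂ) (hw : 0 < w.re) : 1 - (p : ℂ) ^ (-w) ≠ 0 := by
  simpa using ha_ne p hp w hw 1 (by simp)

theorem ha_T3 {y : ℤ} (hy : y ∈ T3) : ‖(y : ℂ)‖ ≤ 1 := by
  simp only [T3, mem_insert, mem_singleton] at hy
  rcases hy with h | h | h <;> simp [h]

theorem ha_mu (k : ℤ) (p : ℕ) (hp : 2 ≤ p) (y : ℤ) (hy : y ∈ T3) (x : ℂ × ℂ × ℂ)
    (hx : UU x.1 x.2.1 x.2.2) :
    DifferentiableAt ℂ (fun t : ℂ × ℂ × ℂ => mu k t.1 t.2.1 t.2.2 p y) x := by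
  have hp0 : p ≠ 0 := by omega
  have hek : DifferentiableAt ℂ (fun t : ℂ × ℂ × ℂ => ek k t.1 p) x := by
    unfold ek
    split_ifs
    · exact (differentiableAt_const _).sub (ha_pow p hp0 (by fun_prop))
    · exact differentiableAt_const _
  have hok : DifferentiableAt ℂ (fun t : ℂ × ℂ × ℂ => ok k t.1 p) x := by
    unfold ok
    exact (differentiableAt_const _).mul
      ((ha_pow p hp0 (by fun_prop)).sub (ha_pow p hp0 (by fun_prop)))
  have hx1 : DifferentiableAt ℂ (fun t : ℂ × ℂ × ℂ => xs t.2.1 p) x := by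
    unfold xs
    exact ha_pow p hp0 (by fun_prop)
  have hx2 : DifferentiableAt ℂ (fun t : ℂ × ℂ × ℂ => xs t.2.2 p) x := by
    unfold xs
    exact ha_pow p hp0 (by fun_prop)
  have hF : DifferentiableAt ℂ (fun t : ℂ × ℂ × ℂ => Fy t.2.1 t.2.2 p y) x := by
    unfold Fy
    refine ha_div (differentiableAt_const _)
      ((((differentiableAt_const _).fun_sub (hx1.mul_const _)).fun_pow 2).fun_mul
        (((differentiableAt_const _).fun_sub (hx2.mul_const _)).fun_pow 2)) ?_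
    refine mul_ne_zero (pow_ne_zero _ ?_) (pow_ne_zero _ ?_)
    · exact ha_ne p hp _ (by have := hx.2.2.1; simp only [add_re]; norm_num; linarith) _ (ha_T3 hy)
    · exact ha_ne p hp _ (by have := hx.2.2.2.1; simp only [add_re]; norm_num; linarith) _
        (ha_T3 hy)
  unfold mu
  split_ifs
  · exact (differentiableAt_const _).sub hek
  · exact ha_div ((hek.fun_add (hok.const_mul _)).fun_mul hF) (differentiableAt_const _)
      two_ne_zero

theorem ha_fp (k : ℤ) (p : ℕ) (hp : 2 ≤ p) (x : ℂ × ℂ × ℂ) (hx : UU x.1 x.2.1 x.2.2) :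
    DifferentiableAt ℂ (fun t : ℂ × ℂ × ℂ => fp k t.1 t.2.1 t.2.2 p) x := by
  have hp0 : p ≠ 0 := by omega
  obtain ⟨h1, h2, -⟩ := hx
  unfold fp
  refine ha_div (DifferentiableAt.fun_mul ?_ ?_)
    (DifferentiableAt.fun_mul (DifferentiableAt.fun_mul ?_ ?_) ?_) ?_
  · exact ((differentiableAt_const _).fun_sub ((ha_pow p hp0 (by fun_prop)).const_mul _)).fun_pow 2
  · exact ((differentiableAt_const _).fun_sub ((ha_pow p hp0 (by fun_prop)).const_mul _)).fun_pow 2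
  · exact ((differentiableAt_const _).fun_sub (ha_pow p hp0 (by fun_prop))).fun_pow 3
  · exact ((differentiableAt_const _).fun_sub (ha_pow p hp0 (by fun_prop))).fun_pow 4
  · exact ((differentiableAt_const _).fun_sub (ha_pow p hp0 (by fun_prop))).fun_pow 3
  · simp only [sub_re] at h1 h2
    refine mul_ne_zero (mul_ne_zero (pow_ne_zero _ ?_) (pow_ne_zero _ ?_)) (pow_ne_zero _ ?_)
    · exact ha_ne1 p hp _ (by simp; linarith)
    · exact ha_ne1 p hp _ (by simp; linarith)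
    · exact ha_ne1 p hp _ (by simp; linarith)

theorem ha_locv (k : ℤ) (p v : ℕ) (hp : 2 ≤ p) (x : ℂ × ℂ × ℂ) (hx : UU x.1 x.2.1 x.2.2) :
    DifferentiableAt ℂ (fun t : ℂ × ℂ × ℂ => locv k t.1 t.2.1 t.2.2 p v) x := by
  unfold locv
  exact DifferentiableAt.fun_sum fun y hy => (ha_mu k p hp y hy x hx).mul_const _

theorem ha_Ex (P : Finset ℕ) (R : (ℕ → ℤ) → ℝ) (k : ℤ) (hP : OP P) (x : ℂ × ℂ × ℂ)
    (hx : UU x.1 x.2.1 x.2.2) :
    DifferentiableAt ℂ (fun t : ℂ × ℂ × ℂ => Ex P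
      (fun p y => mu k t.1 t.2.1 t.2.2 p y * fp k t.1 t.2.1 t.2.2 p) (fun x => (R x : ℂ))) x := by
  unfold Ex
  refine DifferentiableAt.fun_sum fun y hy => DifferentiableAt.mul_const ?_ _
  refine ha_prod _ fun p _ => ?_
  have hp : 2 ≤ (p : ℕ) := (hP p p.2).1.two_le
  exact (ha_mu k p hp _ (Fintype.mem_piFinset.1 hy p) x hx).fun_mul (ha_fp k p hp x hx)

/-- The part of `UU` with both real parts above `δ`. -/
def haU (δ : ℝ) : Set (ℂ × ℂ × ℂ) := {x | UU x.1 x.2.1 x.2.2 ∧ δ < x.2.1.re ∧ δ < x.2.2.re}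

theorem ha_open (δ : ℝ) : IsOpen (haU δ) := by
  unfold haU UU
  simp only [Set.ofPred_and]
  refine IsOpen.inter (IsOpen.inter ?_ (IsOpen.inter ?_ (IsOpen.inter ?_ (IsOpen.inter ?_
    (IsOpen.inter ?_ ?_))))) (IsOpen.inter ?_ ?_) <;> exact isOpen_lt (by fun_prop) (by fun_prop)

/-- The factor of the infinite product. -/
noncomputable def haF (P : Finset ℕ) (k : ℤ) (p : Nat.Primes) (x : ℂ × ℂ × ℂ) : ℂ :=
  if (p : ℕ) = 2 ∨ (p : ℕ) ∈ P then 1 else locv k x.1 x.2.1 x.2.2 p 0 * fp k x.1 x.2.1 x.2.2 p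

theorem ha_F (P : Finset ℕ) (k : ℤ) (p : Nat.Primes) (x : ℂ × ℂ × ℂ) (hx : UU x.1 x.2.1 x.2.2) :
    DifferentiableAt ℂ (haF P k p) x := by
  unfold haF
  split_ifs
  · exact differentiableAt_const _
  · exact (ha_locv k p 0 p.2.two_le x hx).fun_mul (ha_fp k p p.2.two_le x hx)

theorem ha_loc (hLOC : LOC) (P : Finset ℕ) (k : ℤ) (δ : ℝ) (hδ : 0 < δ) :
    TendstoLocallyUniformlyOn (fun (s : Finset Nat.Primes) x => ∏ p ∈ s, haF P k p x)
      (fun x => ∏' p, haF P k p x) Filter.atTop (haU δ) := by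
  obtain ⟨C, B, hC, -, h⟩ := hLOC
  have hs : Summable fun p : Nat.Primes =>
      C * ((p : ℕ) : ℝ) ^ (-(27 / 20) : ℝ) + 14 * ((p : ℕ) : ℝ) ^ (-(1 + δ)) :=
    ((Nat.Primes.summable_rpow.2 (by norm_num)).mul_left C).add
      ((Nat.Primes.summable_rpow.2 (by linarith)).mul_left 14)
  have key := hs.hasProdLocallyUniformlyOn_one_add (f := fun p x => haF P k p x - 1)
    (ha_open δ) (Filter.Eventually.of_forall fun p x hx => ?_)
    (fun p x hx => ((ha_F P k p x hx.1).sub_const 1).continuousAt.continuousWithinAt)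
  · simpa only [HasProdLocallyUniformlyOn, add_sub_cancel] using key
  · have hp1 : (1 : ℝ) ≤ ((p : ℕ) : ℝ) := by exact_mod_cast p.2.one_le
    unfold haF
    split_ifs with hc
    · simp only [sub_self, norm_zero]
      positivity
    · have h0 := (h p k _ _ _ p.2 (fun e => hc (Or.inl e)) hx.1).1
      obtain ⟨hQ, hU⟩ := ha_QU p p.2.pos k x.1 x.2.1 x.2.2
      obtain ⟨⟨-, -, -, -, hz, -⟩, h1, h2⟩ := hx
      have m : ∀ a : ℝ, δ ≤ a → ((p : ℕ) : ℝ) ^ (-(1 + a)) ≤ ((p : ℕ) : ℝ) ^ (-(1 + δ)) :=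
        fun a ha => Real.rpow_le_rpow_of_exponent_le hp1 (by linarith)
      have a1 := m (2 * x.2.1.re) (by linarith)
      have a2 := m (x.2.1.re + x.2.2.re) (by linarith)
      have a3 := m (2 * x.2.2.re) (by linarith)
      have a4 := m (x.1.re + x.2.1.re) (by linarith)
      have a5 := m (x.1.re + x.2.2.re) (by linarith)
      set y := locv k x.1 x.2.1 x.2.2 p 0 * fp k x.1 x.2.1 x.2.2 p
      set Q := Qp x.2.1 x.2.2 p
      set U := Up k x.1 x.2.1 x.2.2 p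
      have e : y - 1 = (y - 1 - Q + 2 * U) + Q - 2 * U := by ring
      have n1 : ‖y - 1‖ ≤ ‖y - 1 - Q + 2 * U‖ + ‖Q‖ + 2 * ‖U‖ := by
        calc ‖y - 1‖ = ‖(y - 1 - Q + 2 * U) + Q - 2 * U‖ := by rw [← e]
          _ ≤ ‖(y - 1 - Q + 2 * U) + Q‖ + ‖2 * U‖ := norm_sub_le _ _
          _ ≤ _ := by
            rw [norm_mul, Complex.norm_ofNat]
            exact add_le_add_left (norm_add_le _ _) _
      linarith

theorem ha_mem (x : ℂ × ℂ × ℂ) (hx : UU x.1 x.2.1 x.2.2) : ∃ δ : ℝ, 0 < δ ∧ x ∈ haU δ := by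
  have h1 := hx.2.2.1
  have h2 := hx.2.2.2.1
  refine ⟨min x.2.1.re x.2.2.re / 2, by positivity, hx, ?_, ?_⟩
  · have := min_le_left x.2.1.re x.2.2.re
    linarith
  · have := min_le_right x.2.1.re x.2.2.re
    linarith

theorem ha_curve (hLOC : LOC) (P : Finset ℕ) (R : (ℕ → ℤ) → ℝ) (k : ℤ) (hP : OP P)
    (γ : ℂ → ℂ × ℂ × ℂ) (hγ : Differentiable ℂ γ) (u : ℂ) (hu : UU (γ u).1 (γ u).2.1 (γ u).2.2) :
    DifferentiableAt ℂ (fun t => Hh P R k (γ t).1 (γ t).2.1 (γ t).2.2) u := by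
  obtain ⟨δ, hδ, hm⟩ := ha_mem _ hu
  have ho : IsOpen (γ ⁻¹' haU δ) := (ha_open δ).preimage hγ.continuous
  have h1 := (ha_loc hLOC P k δ hδ).comp γ (Set.mapsTo_preimage γ _) hγ.continuous.continuousOn
  have h2 := h1.differentiableOn (Filter.Eventually.of_forall fun s t ht =>
    ((ha_prod s fun p _ => ha_F P k p (γ t) ht.1).comp t
      (hγ t)).differentiableWithinAt) ho
  exact ((ha_Ex P R k hP _ hu).comp u (hγ u)).fun_mul (h2.differentiableAt (ho.mem_nhds hm))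

theorem pHA (hLOC : LOC) : HA := by
  intro P R k hP
  refine ⟨fun x hx => ?_, fun z s₁ s₂ h => ⟨?_, ?_, ?_⟩⟩
  · obtain ⟨δ, hδ, hm⟩ := ha_mem x hx
    have h1 := (ha_loc hLOC P k δ hδ).continuousOn (Filter.Eventually.frequently
      (Filter.Eventually.of_forall fun s t ht =>
        (ha_prod s fun p _ =>
          ha_F P k p t ht.1).continuousAt.continuousWithinAt))
    exact ((ha_Ex P R k hP x hx).continuousAt.mul
      (h1.continuousAt ((ha_open δ).mem_nhds hm))).continuousWithinAt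
  · exact ha_curve hLOC P R k hP (fun u => (z, u, s₂)) (by fun_prop) s₁ h
  · exact ha_curve hLOC P R k hP (fun u => (z, s₁, u)) (by fun_prop) s₂ h
  · exact ha_curve hLOC P R k hP (fun u => (u, u + (s₁ - z), u + (s₂ - z))) (by fun_prop) z
      (by simpa using h)

end Pool.Agent.QM
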