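import Pool.Agent.P.MP_ea46f5_nt.QM.S1

namespace Pool.Agent.QM

open Complex MeasureTheory Finset
open scoped Real ComplexConjugate

lemma dec_abs {f : ℝ → ℝ} (h : IntegrableOn f (Set.Ioi 0)) : Integrable fun x => f |x| := by
  have hf : IntegrableOn (fun x => f |x|) (Set.Ioi 0) :=
    h.congr_fun (fun x hx => by simp only [abs_of_pos (show (0 : ℝ) < x from hx)])
      measurableSet_Ioi
  have hi : IntegrableOn (fun x => f |x|) (Set.Iic 0) := by
    rw [← Measure.map_neg_eq_self (volume : Measure ℝ)]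
    let m : MeasurableEmbedding fun x : ℝ => -x := (Homeomorph.neg ℝ).measurableEmbedding
    rw [m.integrableOn_map_iff]
    simp_rw [Function.comp_def, abs_neg, Set.neg_preimage, Set.neg_Iic, neg_zero]
    exact Iff.mpr integrableOn_Ici_iff_integrableOn_Ioi hf
  rw [← integrableOn_univ, ← Set.Iic_union_Ioi (a := (0 : ℝ))]
  exact hi.union hf

lemma dec_br (t u : ℝ) : br (t + u) ≤ br t * br u := by
  unfold br
  have h1 := abs_add_le t u
  have h2 := mul_nonneg (abs_nonneg t) (abs_nonneg u)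
  nlinarith

lemma dec_pos (t : ℝ) : 0 < br t := by
  unfold br
  positivity

lemma dec_pow (n : ℕ) (x : ℝ) :
    Real.exp (-|x| / 2) * br x ^ n ≤ 2 ^ n * (n.factorial : ℝ) * Real.exp (1 / 2) := by
  have hb := dec_pos x
  have h1 := Real.pow_div_factorial_le_exp (br x / 2) (by positivity) n
  have hn : (0 : ℝ) < n.factorial := by exact_mod_cast n.factorial_pos
  rw [div_le_iff₀ hn] at h1
  have h2 : br x ^ n = 2 ^ n * (br x / 2) ^ n := by
    rw [← mul_pow]
    congr 1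
    ring
  have h3 : Real.exp (-|x| / 2) * Real.exp (br x / 2) = Real.exp (1 / 2) := by
    rw [← Real.exp_add]
    congr 1
    unfold br
    ring
  calc Real.exp (-|x| / 2) * br x ^ n = 2 ^ n * Real.exp (-|x| / 2) * (br x / 2) ^ n := by
        rw [h2]; ring
    _ ≤ 2 ^ n * Real.exp (-|x| / 2) * (Real.exp (br x / 2) * n.factorial) := by gcongr
    _ = 2 ^ n * (n.factorial : ℝ) * (Real.exp (-|x| / 2) * Real.exp (br x / 2)) := by ring
    _ = _ := by rw [h3]

lemma dec_exp : Integrable (fun t : ℝ => Real.exp (-|t| / 2)) ∧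
    ∫ t : ℝ, Real.exp (-|t| / 2) = 4 := by
  have e : (fun t : ℝ => Real.exp (-|t| / 2)) =
      fun t : ℝ => (fun x : ℝ => Real.exp (-(1 / 2) * x)) |t| := by
    funext t
    congr 1
    ring
  rw [e]
  refine ⟨dec_abs (integrableOn_exp_mul_Ioi (by norm_num) 0), ?_⟩
  rw [integral_comp_abs (f := fun x : ℝ => Real.exp (-(1 / 2) * x)),
    integral_exp_mul_Ioi (by norm_num)]
  norm_num

lemma dec_sq : Integrable (fun t : ℝ => 1 / br t ^ 2) ∧ ∫ t : ℝ, 1 / br t ^ 2 ≤ 2 := by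
  have hd : ∀ x ∈ Set.Ici (0 : ℝ),
      HasDerivAt (fun x : ℝ => -(1 + x)⁻¹) (1 / (1 + x) ^ 2) x := by
    intro x hx
    have hx0 : (1 + x) ≠ 0 := by
      have : (0 : ℝ) ≤ x := hx
      positivity
    have h1 : HasDerivAt (fun x : ℝ => 1 + x) 1 x := (hasDerivAt_id x).const_add 1
    have h2 := (h1.inv hx0).neg
    refine h2.congr_deriv ?_
    ring
  have hp : ∀ x ∈ Set.Ioi (0 : ℝ), 0 ≤ 1 / (1 + x) ^ 2 := fun x _ => by positivity
  have hl : Filter.Tendsto (fun x : ℝ => -(1 + x)⁻¹) Filter.atTop (nhds 0) := by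
    have := (Filter.tendsto_atTop_add_const_left Filter.atTop (1 : ℝ)
      Filter.tendsto_id).inv_tendsto_atTop.neg
    simpa using this
  refine ⟨dec_abs (f := fun x => 1 / (1 + x) ^ 2)
    (integrableOn_Ioi_deriv_of_nonneg' hd hp hl), ?_⟩
  have := integral_comp_abs (f := fun x : ℝ => 1 / (1 + x) ^ 2)
  unfold br
  rw [this, integral_Ioi_of_hasDerivAt_of_nonneg' hd hp hl]
  norm_num

lemma dec_line (ε : ℝ) (m : ℕ) (hε : 0 < ε) (hm : 2 ≤ m) :
    Integrable (fun t : ℝ => 1 / ‖(ε + t * I : ℂ)‖ ^ m) ∧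
      ∫ t : ℝ, 1 / ‖(ε + t * I : ℂ)‖ ^ m ≤ π * ε / ε ^ m := by
  obtain ⟨k, rfl⟩ := Nat.exists_eq_add_of_le hm
  have hsq : ∀ t : ℝ, ‖(ε + t * I : ℂ)‖ ^ 2 = ε ^ 2 + t ^ 2 := by
    intro t
    rw [← Complex.normSq_eq_norm_sq, Complex.normSq_add_mul_I]
  have hge : ∀ t : ℝ, ε ≤ ‖(ε + t * I : ℂ)‖ := by
    intro t
    have := Complex.re_le_norm (ε + t * I : ℂ)
    simpa using this
  have hb : ∀ t : ℝ, 1 / ‖(ε + t * I : ℂ)‖ ^ (2 + k) ≤
      (1 / ε ^ (2 + k)) * (1 + (t / ε) ^ 2)⁻¹ := by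
    intro t
    have e : (1 / ε ^ (2 + k)) * (1 + (t / ε) ^ 2)⁻¹ = 1 / ((ε ^ 2 + t ^ 2) * ε ^ k) := by
      field_simp
      ring
    rw [e, pow_add, hsq]
    apply one_div_le_one_div_of_le (by positivity)
    have := pow_le_pow_left₀ hε.le (hge t) k
    gcongr
  have hi : Integrable fun t : ℝ => (1 / ε ^ (2 + k)) * (1 + (t / ε) ^ 2)⁻¹ :=
    ((integrable_comp_div_iff (fun x : ℝ => (1 + x ^ 2)⁻¹) hε.ne').2
      integrable_inv_one_add_sq).const_mul _
  have hc : Continuous fun t : ℝ => 1 / ‖(ε + t * I : ℂ)‖ ^ (2 + k) := by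
    refine continuous_const.div (by fun_prop) fun t => ?_
    exact (pow_pos (hε.trans_le (hge t)) _).ne'
  have hf : Integrable fun t : ℝ => 1 / ‖(ε + t * I : ℂ)‖ ^ (2 + k) := by
    refine hi.mono' hc.aestronglyMeasurable (Filter.Eventually.of_forall fun t => ?_)
    rw [Real.norm_of_nonneg (by positivity)]
    exact hb t
  refine ⟨hf, (integral_mono hf hi hb).trans (le_of_eq ?_)⟩
  rw [integral_const_mul, Measure.integral_comp_div (fun x : ℝ => (1 + x ^ 2)⁻¹),
    integral_univ_inv_one_add_sq, abs_of_pos hε, smul_eq_mul]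
  ring

theorem pDEC : DEC := by
  refine ⟨dec_br, fun n => ⟨2 ^ n * (n.factorial : ℝ) * Real.exp (1 / 2), by positivity,
    fun t u => ?_⟩, fun u => ⟨dec_exp.1.comp_sub_right u, ?_⟩, dec_sq,
    π, Real.pi_pos, fun ε m hε hm _ => dec_line ε m hε hm⟩
  · have h1 : br t ≤ br (t - u) * br u := by simpa using dec_br (t - u) u
    have h2 := dec_pos t
    have h3 := dec_pos u
    calc Real.exp (-|t - u| / 2) * br t ^ n
        ≤ Real.exp (-|t - u| / 2) * (br (t - u) * br u) ^ n := by gcongr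
      _ = Real.exp (-|t - u| / 2) * br (t - u) ^ n * br u ^ n := by rw [mul_pow]; ring
      _ ≤ _ := by
        have := dec_pow n (t - u)
        gcongr
  · rw [integral_sub_right_eq_self (fun t : ℝ => Real.exp (-|t| / 2)) u, dec_exp.2]

lemma prd_one (z : ℂ) : ‖1 + z‖ ≤ Real.exp (z.re + ‖z‖ ^ 2 / 2) := by
  have h1 : ‖1 + z‖ ^ 2 = 1 + 2 * z.re + ‖z‖ ^ 2 := by
    rw [← Complex.normSq_eq_norm_sq, ← Complex.normSq_eq_norm_sq, Complex.normSq_apply,
      Complex.normSq_apply]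
    simp
    ring
  have h2 : Real.exp (z.re + ‖z‖ ^ 2 / 2) ^ 2 = Real.exp (2 * z.re + ‖z‖ ^ 2) := by
    rw [← Real.exp_nat_mul]
    congr 1
    push_cast
    ring
  refine le_of_sq_le_sq ?_ (Real.exp_pos _).le
  rw [h1, h2]
  have := Real.add_one_le_exp (2 * z.re + ‖z‖ ^ 2)
  linarith

lemma prd_le {u : Nat.Primes → ℂ} (hu : Summable fun p => ‖u p‖) {g : Nat.Primes → ℝ}
    (hg : Summable g) (h : ∀ p, ‖1 + u p‖ ≤ Real.exp (g p)) :
    ‖∏' p, (1 + u p)‖ ≤ Real.exp (∑' p, g p) := by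
  have h1 := (multipliable_one_add_of_summable hu).hasProd.norm
  have h2 := hg.hasSum.rexp
  refine le_of_tendsto_of_tendsto' h1 h2 fun s => ?_
  exact Finset.prod_le_prod (fun p _ => norm_nonneg _) fun p _ => h p

theorem pPRD : PRD := by
  intro u hu
  have h1 : Summable fun p => (u p).re :=
    hu.of_norm_bounded fun p => by simpa using Complex.abs_re_le_norm (u p)
  have h2 : Summable fun p => ‖u p‖ ^ 2 := by
    refine (hu.mul_left (∑' p, ‖u p‖)).of_nonneg_of_le (fun p => by positivity) fun p => ?_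
    have := hu.le_tsum p fun q _ => norm_nonneg _
    rw [sq]
    gcongr
  have h3 : Summable fun p => (u p).re + ‖u p‖ ^ 2 / 2 := h1.add (h2.div_const 2)
  refine ⟨h3, prd_le hu h3 fun p => prd_one _, prd_le hu hu fun p => ?_⟩
  have h4 := norm_add_le (1 : ℂ) (u p)
  have h5 := Real.add_one_le_exp ‖u p‖
  rw [norm_one] at h4
  linarith

end Pool.Agent.QM
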