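import Pool.Agent.P.MP_ea46f5_nt.QM.S2
import Pool.Agent.P.MP_ea46f5_nt.QM.LoB

namespace Pool.Agent.QM

open Complex MeasureTheory Finset
open scoped Real ComplexConjugate

theorem fe_mod {f : ℕ → ℤ} {q : ℕ} (h : ∀ n, f (n + q) = f n) (a : ℕ) : f (a % q) = f a := by
  have h1 : ∀ j b : ℕ, f (b + q * j) = f b := by
    intro j b
    induction j with
    | zero => simp
    | succ j ih => rw [Nat.mul_succ, ← add_assoc, h, ih]
  conv_rhs => rw [← Nat.mod_add_div a q, h1]

theorem fe_prim {q : ℕ} [NeZero q] (χ : DirichletCharacter ℂ q)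
    (h : ∀ p : ℕ, p.Prime → p ∣ q → ∃ n : ℕ, n ≡ 1 [MOD q / p] ∧ χ (n : ZMod q) = -1) :
    χ.IsPrimitive := by
  by_contra hn
  obtain ⟨c, hc⟩ := χ.conductor_dvd_level
  have hc1 : c ≠ 1 := fun h1 => hn (by rw [h1, mul_one] at hc; exact hc.symm)
  obtain ⟨p, hp, e, rfl⟩ := Nat.exists_prime_and_dvd hc1
  have hq : q = p * (χ.conductor * e) := by rw [← mul_left_comm]; exact hc
  obtain ⟨n, hn1, hn2⟩ := h p hp ⟨_, hq⟩
  have hd : q / p = χ.conductor * e := Nat.div_eq_of_eq_mul_right hp.pos hq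
  rw [hd] at hn1
  have hn3 : n ≡ 1 [MOD χ.conductor] := hn1.of_mul_right e
  obtain ⟨hdv, χ₀, h0⟩ := χ.factorsThrough_conductor
  have hne : χ ((n : ℤ) : ZMod q) ≠ 0 := by
    rw [Int.cast_natCast, hn2]
    norm_num
  have hco := (χ.apply_ne_zero_iff n).1 hne
  have h2 := DirichletCharacter.changeLevel_eq_cast_of_dvd' χ₀ hdv hco
  rw [← h0, Int.cast_natCast, Int.cast_natCast, hn2, (ZMod.natCast_eq_natCast_iff _ _ _).2 hn3,
    Nat.cast_one, map_one] at h2
  norm_num at h2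

/-- The functional equation of a primitive real character, up to a sign. -/
theorem fe_sq {q : ℕ} [NeZero q] {χ : DirichletCharacter ℂ q} (hp : χ.IsPrimitive)
    (hi : χ⁻¹ = χ) : χ.rootNumber ^ 2 = 1 := by
  have hq : (q : ℂ) ≠ 0 := by exact_mod_cast NeZero.ne q
  have h1 := hp.completedLFunction_one_sub 2
  have h2 := hp.completedLFunction_one_sub (1 - 2)
  rw [hi] at h1 h2
  rw [h1, sub_sub_cancel] at h2
  have h3 : χ.completedLFunction 2 ≠ 0 := by
    intro h
    have h4 := χ.LFunction_eq_completed_div_gammaFactor 2 (Or.inl two_ne_zero)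
    rw [h, zero_div] at h4
    exact χ.LFunction_ne_zero_of_one_le_re (Or.inr (by norm_num)) (by norm_num) h4
  have h5 : (q : ℂ) ^ ((1 : ℂ) - 2 - 1 / 2) * (q : ℂ) ^ ((2 : ℂ) - 1 / 2) = 1 := by
    rw [← cpow_add _ _ hq]
    norm_num
  apply mul_right_cancel₀ h3
  linear_combination -h2 - χ.rootNumber ^ 2 * χ.completedLFunction 2 * h5

theorem fe_dvd (k : ℤ) : (disc k).natAbs ∣ 4 * k.natAbs := by
  unfold disc
  split_ifs
  · exact dvd_mul_left _ _
  · exact Dvd.intro 1 (by omega)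

theorem fe_dvd' (k : ℤ) : k.natAbs ∣ (disc k).natAbs := by
  unfold disc
  split_ifs
  · exact dvd_rfl
  · exact Dvd.intro_left 4 (by omega)

theorem fe_ne (k : ℤ) {s : ℂ} (hs : 0 < s.re) : 1 - (gam k : ℂ) * (2 : ℂ) ^ (-s) ≠ 0 := by
  intro h
  have h0 : ‖(2 : ℂ) ^ (-s)‖ = (2 : ℝ) ^ (-s.re) := by
    have := norm_natCast_cpow_of_pos (n := 2) two_pos (-s)
    simpa using this
  have h1 : ‖(gam k : ℂ) * (2 : ℂ) ^ (-s)‖ ≤ (2 : ℝ) ^ (-s.re) := by
    rw [norm_mul, h0]
    refine mul_le_of_le_one_left (by positivity) ?_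
    unfold gam
    split_ifs <;> simp
  rw [← sub_eq_zero.1 h, norm_one] at h1
  have h2 : (2 : ℝ) ^ (-s.re) < 1 :=
    Real.rpow_lt_one_of_one_lt_of_neg (by norm_num) (by linarith)
  linarith

theorem pFE (hKR : KR) (hPRI : PRI) (hLOP : LOP) (hLSP : LSP) : FE := by
  have _ := And.intro hLOP hLSP
  intro k hk h1
  obtain ⟨k1, k2, k3, k4, k5, k6, k7, k8⟩ := hKR k hk h1
  have hq : NeZero (disc k).natAbs := ⟨by omega⟩
  have h4 := four_ne hk.ne_zero
  obtain ⟨χ, hχ⟩ := exists_char (disc k).natAbs (kron (disc k)) (by simp [kron]) k3 (fe_mod k4) k7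
  obtain ⟨ψ, hψ, eψ⟩ := exists_chiO k
  have hprim : χ.IsPrimitive := fe_prim χ fun p hp hd => by
    obtain ⟨n, a, b⟩ := hPRI k hk h1 p hp hd
    exact ⟨n, a, by rw [hχ, b]; norm_num⟩
  have hne : χ ≠ 1 := by
    intro h
    rw [DirichletCharacter.isPrimitive_def, h, DirichletCharacter.conductor_one] at hprim
    omega
  have hi : χ⁻¹ = χ := by
    refine MulChar.IsQuadratic.inv fun x => ?_
    rw [← ZMod.natCast_zmod_val x, hχ]
    by_cases hc : x.val.Coprime (disc k).natAbs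
    · rcases sq_eq_one_iff.1 (k8 _ hc) with h | h <;> simp [h]
    · simp [k7 _ hc]
  have hcl : ψ = DirichletCharacter.changeLevel (fe_dvd k) χ := by
    refine MulChar.ext fun a => ?_
    have hu : Nat.Coprime (a : ZMod (4 * k.natAbs)).val (4 * k.natAbs) :=
      ZMod.val_coe_unit_coprime a
    have ho : Odd (a : ZMod (4 * k.natAbs)).val :=
      Nat.coprime_two_right.1 (hu.coprime_dvd_right (by omega))
    rw [DirichletCharacter.changeLevel_eq_cast_of_dvd, ZMod.cast_eq_val, hχ, k1 _ ho, jo_eq, ← hψ,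
      ZMod.natCast_zmod_val]
  have hL : ∀ s : ℂ, 0 < s.re → Lf k s = χ.LFunction s := by
    intro s hs
    have e : ∏ p ∈ (4 * k.natAbs).primeFactors, (1 - χ p * (p : ℂ) ^ (-s)) =
        1 - (gam k : ℂ) * (2 : ℂ) ^ (-s) := by
      rw [prod_eq_single_of_mem 2 (Nat.mem_primeFactors.2 ⟨Nat.prime_two, by omega, h4.1⟩),
        hχ, k2, Nat.cast_ofNat]
      intro p hp h2
      have hpp := Nat.prime_of_mem_primeFactors hp
      have hc : Nat.Coprime p 4 := (((Nat.coprime_primes hpp Nat.prime_two).2 h2).pow_right 2 :)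
      have hd : p ∣ (disc k).natAbs :=
        (hc.dvd_of_dvd_mul_left (Nat.dvd_of_mem_primeFactors hp)).trans (fe_dvd' k)
      rw [hχ, k7 p (fun h => (hpp.coprime_iff_not_dvd.1 h) hd)]
      simp
    rw [Lf, eψ, hcl, DirichletCharacter.LFunction_changeLevel _ _ (Or.inl hne), e,
      mul_div_cancel_right₀ _ (fe_ne k hs)]
  have hm : χ (-1) = (-1) ^ par k := by
    have e : (-1 : ZMod (disc k).natAbs) = (((disc k).natAbs - 1 : ℕ) : ZMod _) := by
      rw [Nat.cast_sub k6.le, ZMod.natCast_self, Nat.cast_one, zero_sub]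
    rw [e, hχ, k5]
    push_cast
    rfl
  have hg : ∀ s : ℂ, χ.gammaFactor s = Gammaℝ (s + par k) := by
    intro s
    unfold par at hm ⊢
    split_ifs at hm ⊢ with h
    · rw [DirichletCharacter.Even.gammaFactor_def (hm.trans (pow_zero _))]
      simp
    · rw [DirichletCharacter.Odd.gammaFactor_def (hm.trans (pow_one _))]
      simp
  have hqk : (qk k : ℂ) = ((disc k).natAbs : ℂ) := by
    rw [qk, ← Int.cast_abs, ← Nat.cast_natAbs]
    rfl
  have hLam : ∀ s : ℂ, 0 < s.re →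
      Lam k s = ((disc k).natAbs : ℂ) ^ (s / 2) * χ.completedLFunction s := by
    intro s hs
    have h0 : s ≠ 0 := by
      rintro rfl
      simp at hs
    have hG : Gammaℝ (s + par k) ≠ 0 := Gammaℝ_ne_zero_of_re_pos (by
      rw [add_re, natCast_re]
      positivity)
    rw [Lam, hL s hs, χ.LFunction_eq_completed_div_gammaFactor s (Or.inl h0), hg, hqk, mul_assoc,
      mul_div_cancel₀ _ hG]
  refine ⟨⟨χ.rootNumber, fe_sq hprim hi, fun s hs0 hs1 => ?_⟩, ?_⟩
  · have hqc : ((disc k).natAbs : ℂ) ≠ 0 := by exact_mod_cast hq.1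
    have e : ((disc k).natAbs : ℂ) ^ ((1 - s) / 2) * ((disc k).natAbs : ℂ) ^ (s - 1 / 2) =
        ((disc k).natAbs : ℂ) ^ (s / 2) := by
      rw [← cpow_add _ _ hqc]
      congr 1
      ring
    rw [hLam s hs0, hLam (1 - s) (by simpa using hs1), hprim.completedLFunction_one_sub, hi, ← e]
    ring
  · rw [hL _ (by norm_num), Lhalf, dif_neg hq.1]
    exact LP_eq (f := fun n => (kron (disc k) n : ℂ)) hχ _

end Pool.Agent.QM
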