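import Pool.Agent.P.MP_ea46f5_nt.QM.S2
import Pool.Agent.P.MP_ea46f5_nt.QM.LoB

namespace Pool.Agent.QM

open Complex MeasureTheory Finset
open scoped Real ComplexConjugate
open NumberTheorySymbols

theorem kr_zero (d : ℤ) : kron d 0 = 0 := if_pos rfl

theorem kr_one (d : ℤ) : kron d 1 = 1 := by simp [kron]

theorem kr_mul (d : ℤ) (a b : ℕ) : kron d (a * b) = kron d a * kron d b := by
  rcases eq_or_ne a 0 with rfl | ha
  · rw [zero_mul, kr_zero, zero_mul]
  rcases eq_or_ne b 0 with rfl | hb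
  · rw [mul_zero, kr_zero, mul_zero]
  unfold kron
  rw [if_neg ha, if_neg hb, if_neg (mul_ne_zero ha hb),
    ((Nat.perm_primeFactorsList_mul ha hb).map _).prod_eq, List.map_append, List.prod_append]

theorem kr_prime (d : ℤ) {p : ℕ} (hp : p.Prime) :
    kron d p = if p = 2 then ZMod.χ₈ (d : ZMod 8) else J(d | p) := by
  unfold kron
  rw [if_neg hp.ne_zero, Nat.primeFactorsList_prime hp]
  simp

/-- A completely multiplicative function that agrees with `kron d` at the primes. -/
theorem kr_ext (d : ℤ) (f : ℕ → ℤ) (h0 : f 0 = 0) (h1 : f 1 = 1)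
    (hm : ∀ a b, f (a * b) = f a * f b) (hp : ∀ p, p.Prime → kron d p = f p) (n : ℕ) :
    kron d n = f n := by
  induction n using induction_on_primes with
  | zero => rw [kr_zero, h0]
  | one => rw [kr_one, h1]
  | prime_mul p a h ih => rw [kr_mul, hm, hp p h, ih]

theorem kr_recip {k : ℤ} (h4 : k % 4 = 1) {n : ℕ} (hn : Odd n) : J(k | n) = J(n | k.natAbs) := by
  have hn2 := Nat.odd_iff.1 hn
  rcases Int.natAbs_eq k with h | h
  · have e := jacobiSym.quadratic_reciprocity_one_mod_four (a := k.natAbs) (by omega) hn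
    rwa [← h] at e
  · have h3 : k.natAbs % 4 = 3 := by omega
    have e := jacobiSym.neg (k.natAbs : ℤ) hn
    rw [← h] at e
    rw [e]
    by_cases hn4 : n % 4 = 1
    · rw [ZMod.χ₄_nat_one_mod_four hn4, one_mul,
        jacobiSym.quadratic_reciprocity_one_mod_four' (Nat.odd_iff.2 (by omega)) hn4]
    · have hn3 : n % 4 = 3 := by omega
      rw [ZMod.χ₄_nat_three_mod_four hn3,
        jacobiSym.quadratic_reciprocity_three_mod_four h3 hn3]
      ring

theorem kr_jac {k : ℤ} (h4 : k % 4 = 1) (h1 : k ≠ 1) (n : ℕ) : kron k n = J(n | k.natAbs) := by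
  refine kr_ext k (fun n => J(n | k.natAbs)) ?_ ?_ ?_ ?_ n
  · exact jacobiSym.zero_left (by omega)
  · exact jacobiSym.one_left _
  · intro a b
    rw [Nat.cast_mul, jacobiSym.mul_left]
  · intro p hp
    rw [kr_prime k hp]
    split_ifs with h2
    · subst h2
      rw [Nat.cast_ofNat, jacobiSym.at_two (Nat.odd_iff.2 (by omega)),
        ZMod.χ₈_int_eq_if_mod_eight, ZMod.χ₈_nat_eq_if_mod_eight]
      split_ifs <;> omega
    · exact kr_recip h4 (hp.odd_of_ne_two h2)

theorem kr_chi (k : ℤ) (n : ℕ) : kron (4 * k) n = chi k n := by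
  refine kr_ext (4 * k) (chi k) (chi_zero k) (chi_one k) (chi_mul k) ?_ n
  intro p hp
  rw [kr_prime _ hp]
  split_ifs with h2
  · subst h2
    rw [chi_two, ZMod.χ₈_int_eq_if_mod_eight, if_pos (by omega)]
  · have ho := hp.odd_of_ne_two h2
    rw [chi_odd k ho, jacobiSym.mul_left, jacobiSym.at_four ho, one_mul]

theorem kr_last {k : ℤ} (h0 : k ≠ 0) : chi k (4 * k.natAbs - 1) = (-1) ^ par k := by
  have ho : Odd (4 * k.natAbs - 1) := Nat.odd_iff.2 (by omega)
  have h3 : (4 * k.natAbs - 1) % 4 = 3 := by omega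
  have hpos : ∀ a : ℕ, a ≠ 0 → J(a | 4 * a - 1) = 1 := by
    intro a ha
    have ho : Odd (4 * a - 1) := Nat.odd_iff.2 (by omega)
    have e1 : J(((4 * a : ℕ) : ℤ) | 4 * a - 1) = J(1 | 4 * a - 1) := by
      apply jacobiSym.mod_left'
      have : ((4 * a : ℕ) : ℤ) = 1 + ((4 * a - 1 : ℕ) : ℤ) := by omega
      rw [this, Int.add_emod_right]
    rwa [jacobiSym.one_left, Nat.cast_mul, jacobiSym.mul_left, Nat.cast_ofNat,
      jacobiSym.at_four ho, one_mul] at e1
  have e := hpos k.natAbs (by omega)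
  rw [chi_odd k ho, par]
  split_ifs with h
  · have h1 : (k.natAbs : ℤ) = k := by omega
    rw [h1] at e
    rw [e, pow_zero]
  · have e2 := jacobiSym.neg (k.natAbs : ℤ) ho
    have h1 : -(k.natAbs : ℤ) = k := by omega
    rw [h1, e, ZMod.χ₄_nat_three_mod_four h3] at e2
    rw [e2]
    rfl

theorem pKR : KR := by
  intro k hk h1
  have h0 : k ≠ 0 := hk.ne_zero
  by_cases h4 : k % 4 = 1
  · have hd : disc k = k := if_pos h4
    have hq : NeZero k.natAbs := ⟨by omega⟩
    have ho : Odd k.natAbs := Nat.odd_iff.2 (by omega)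
    rw [hd]
    refine ⟨fun n hn => ?_, ?_, kr_mul k, fun n => ?_, ?_, by omega, fun n hn => ?_, fun n hn => ?_⟩
    · rw [jo_eq, chi_odd k hn, kr_jac h4 h1, kr_recip h4 hn]
    · rw [kr_prime k Nat.prime_two, if_pos rfl, ZMod.χ₈_int_eq_if_mod_eight, gam]
      split_ifs <;> omega
    · rw [kr_jac h4 h1, kr_jac h4 h1]
      apply jacobiSym.mod_left'
      rw [Nat.cast_add, Int.add_emod_right]
    · have e : J(((k.natAbs - 1 : ℕ) : ℤ) | k.natAbs) = J(-1 | k.natAbs) := by
        apply jacobiSym.mod_left'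
        have : ((k.natAbs - 1 : ℕ) : ℤ) = -1 + (k.natAbs : ℤ) := by omega
        rw [this, Int.add_emod_right]
      rw [kr_jac h4 h1, e, jacobiSym.at_neg_one ho, par]
      split_ifs with h
      · rw [ZMod.χ₄_nat_one_mod_four (by omega), pow_zero]
      · rw [ZMod.χ₄_nat_three_mod_four (by omega), pow_one]
    · rw [kr_jac h4 h1, jacobiSym.eq_zero_iff_not_coprime, Int.gcd_natCast_natCast]
      exact hn
    · rw [kr_jac h4 h1]
      exact jacobiSym.sq_one (by rw [Int.gcd_natCast_natCast]; exact hn)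
  · have hd : disc k = 4 * k := if_neg h4
    have hq : (4 * k).natAbs = 4 * k.natAbs := by omega
    rw [hd, hq]
    refine ⟨fun n _ => ?_, ?_, kr_mul _, fun n => ?_, ?_, by omega, fun n hn => ?_, fun n hn => ?_⟩
    · rw [jo_eq, kr_chi]
    · rw [kr_chi, chi_two, gam, if_neg (by omega), if_neg (by omega)]
    · rw [kr_chi, kr_chi, ← chi_mod, Nat.add_mod_right, chi_mod]
    · rw [kr_chi, kr_last h0]
    · rw [kr_chi, chi_not_coprime k n hn]
    · have ho : Odd n := Nat.coprime_two_right.1 (hn.coprime_dvd_right (by omega))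
      rw [kr_chi, chi_odd k ho]
      refine jacobiSym.sq_one ?_
      rw [Int.gcd_eq_natAbs, Int.natAbs_natCast]
      exact (hn.coprime_dvd_right (dvd_mul_left _ _)).symm

end Pool.Agent.QM
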