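import Pool.Agent.P.MP_ea46f5_nt.QM.S2

namespace Pool.Agent.QM

open Complex MeasureTheory Finset
open scoped Real ComplexConjugate

/-- The integrand of the shifted integral, without the factor `1 / u`. -/
noncomputable def afe_F (k : ℤ) (t : ℝ) (u : ℂ) : ℂ :=
  hh (par k) (gam k) t u * (qk k : ℂ) ^ u * Lo k (1 / 2 + t * I + u) ^ 2

/-- The normalising constant. -/
noncomputable def afe_c (k : ℤ) (t : ℝ) : ℂ :=
  (qk k : ℂ) ^ (1 / 2 + t * I : ℂ) * Gammaℝ (1 / 2 + par k + t * I) ^ 2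

lemma afe_q (hBRG : BRG) {k : ℤ} (hk : Squarefree k) : 1 ≤ qk k := by
  have h := (hBRG.2.1 k).1
  have h0 : k ≠ 0 := hk.ne_zero
  have h1 : (1 : ℝ) ≤ |(k : ℝ)| := by
    have : (1 : ℤ) ≤ |k| := Int.one_le_abs h0
    exact_mod_cast this
  linarith

lemma afe_G_ne (a : ℕ) (t : ℝ) : Gammaℝ (1 / 2 + a + t * I) ≠ 0 := by
  apply Gammaℝ_ne_zero_of_re_pos
  have : (0 : ℝ) ≤ a := Nat.cast_nonneg a
  simp
  linarith

lemma afe_c_ne {k : ℤ} (hq : 1 ≤ qk k) (t : ℝ) : afe_c k t ≠ 0 := by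
  have hq0 : (qk k : ℂ) ≠ 0 := by
    have : qk k ≠ 0 := by linarith
    exact_mod_cast this
  unfold afe_c
  refine mul_ne_zero ?_ (pow_ne_zero _ (afe_G_ne _ _))
  rw [Ne, cpow_eq_zero_iff]
  exact fun h => hq0 h.1

lemma afe_G_norm (a : ℕ) (t : ℝ) :
    ‖Gammaℝ (1 / 2 + a + (-t : ℝ) * I)‖ = ‖Gammaℝ (1 / 2 + a + t * I)‖ := by
  have h1 : ((1 / 2 + a + (-t : ℝ) * I : ℂ) / 2) = conj ((1 / 2 + a + t * I : ℂ) / 2) := by
    simp only [map_div₀, map_add, map_mul, map_one, map_ofNat, map_natCast, conj_ofReal, conj_I]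
    push_cast
    ring
  rw [Gammaℝ_def, Gammaℝ_def, norm_mul, norm_mul, h1, Gamma_conj, Complex.norm_conj,
    norm_cpow_eq_rpow_re_of_pos Real.pi_pos, norm_cpow_eq_rpow_re_of_pos Real.pi_pos]
  simp

lemma afe_c_norm {k : ℤ} (hq : 1 ≤ qk k) (t : ℝ) : ‖afe_c k (-t)‖ = ‖afe_c k t‖ := by
  have hq0 : 0 < qk k := by linarith
  unfold afe_c
  rw [norm_mul, norm_mul, norm_pow, norm_pow, afe_G_norm, norm_cpow_eq_rpow_re_of_pos hq0,
    norm_cpow_eq_rpow_re_of_pos hq0]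
  simp

lemma afe_F_eq {k : ℤ} (hq : 1 ≤ qk k) (t : ℝ) (u : ℂ) :
    afe_F k t u = Lam k (1 / 2 + t * I + u) ^ 2 * gt t u / afe_c k t := by
  have hq0 : (qk k : ℂ) ≠ 0 := by
    have : qk k ≠ 0 := by linarith
    exact_mod_cast this
  have hG := afe_G_ne (par k) t
  have hp : (qk k : ℂ) ^ (1 / 2 + t * I : ℂ) ≠ 0 := by
    rw [Ne, cpow_eq_zero_iff]
    exact fun h => hq0 h.1
  have h2 : ((qk k : ℂ) ^ ((1 / 2 + t * I + u) / 2 : ℂ)) ^ 2 =
      (qk k : ℂ) ^ (1 / 2 + t * I : ℂ) * (qk k : ℂ) ^ u := by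
    rw [sq, ← cpow_add _ _ hq0, ← cpow_add _ _ hq0]
    congr 1
    ring
  have h3 : (1 / 2 + t * I + u + (par k : ℂ)) = 1 / 2 + par k + t * I + u := by ring
  unfold afe_F afe_c Lam Lf hh
  rw [mul_pow, mul_pow, h2, h3, div_pow, div_pow]
  generalize Gammaℝ (1 / 2 + par k + t * I + u) = G1
  generalize Gammaℝ (1 / 2 + par k + t * I) = G0 at hG
  generalize (1 - (gam k : ℂ) * (2 : ℂ) ^ (-(1 / 2 + t * I + u))) ^ 2 = D
  generalize (qk k : ℂ) ^ (1 / 2 + t * I : ℂ) = Q at hp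
  generalize Lo k (1 / 2 + t * I + u) = L
  rw [eq_div_iff (mul_ne_zero hp (pow_ne_zero 2 hG))]
  simp only [div_eq_mul_inv]
  have h4 : (G0 ^ 2)⁻¹ * G0 ^ 2 = 1 := inv_mul_cancel₀ (pow_ne_zero 2 hG)
  linear_combination (G1 ^ 2 * gt t u * D⁻¹ * (qk k : ℂ) ^ u * L ^ 2 * Q) * h4

lemma afe_gt (t : ℝ) (u : ℂ) : gt t (-u) = gt (-t) u := by
  unfold gt
  push_cast
  have h1 : (-u) ^ 2 = u ^ 2 := by ring
  have h2 : (-(t : ℂ)) ^ 2 = (t : ℂ) ^ 2 := by ring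
  have h3 : (1 / 2 - -(t : ℂ) * I) = 1 / 2 + t * I := by ring
  have h4 : (1 / 2 + -(t : ℂ) * I) = 1 / 2 - t * I := by ring
  rw [h1, h2, h3, h4, mul_comm (u ^ 2 - (1 / 2 - t * I) ^ 2)]

lemma afe_refl (hFE : FE) {k : ℤ} (hk : Squarefree k) (h1 : k ≠ 1) (hq : 1 ≤ qk k) (t : ℝ)
    (u : ℂ) (hu : u.re = 1 / 4) :
    afe_F k t (-u) = afe_c k (-t) / afe_c k t * afe_F k (-t) u := by
  obtain ⟨W, hW, hL⟩ := (hFE k hk h1).1
  have e1 : (1 / 2 + t * I + -u : ℂ) = 1 - (1 / 2 + (-t : ℝ) * I + u) := by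
    push_cast
    ring
  have e2 : (1 / 2 + (-t : ℝ) * I + u : ℂ).re = 3 / 4 := by
    simp [hu]
    norm_num
  rw [afe_F_eq hq, afe_F_eq hq, e1, hL _ (by rw [e2]; norm_num) (by rw [e2]; norm_num),
    mul_pow, hW, afe_gt]
  have c1 := afe_c_ne hq t
  have c2 := afe_c_ne hq (-t)
  field_simp

lemma afe_diff (hHB : HB) (hLOP : LOP) (hBRG : BRG) {k : ℤ} (hk : Squarefree k) (h1 : k ≠ 1)
    (t : ℝ) : DifferentiableOn ℂ (afe_F k t) {s | -(1 / 2) < s.re} := by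
  obtain ⟨h, C, -, hb⟩ := hHB
  obtain ⟨-, -, hp, hg⟩ := hBRG.2.1 k
  obtain ⟨-, ⟨g, hgd, hge⟩, -⟩ := hb (par k) (gam k) t hp hg
  have hq := afe_q hBRG hk
  have hq0 : (qk k : ℂ) ≠ 0 := by
    have : qk k ≠ 0 := by linarith
    exact_mod_cast this
  have hL := hLOP.2.1 k hk h1
  have e : afe_F k t = fun u => (u - (1 / 2 - t * I)) ^ 2 * g u * (qk k : ℂ) ^ u *
      Lo k (1 / 2 + t * I + u) ^ 2 := by
    funext u
    unfold afe_F
    rw [hge]
  rw [e]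
  refine DifferentiableOn.mul (DifferentiableOn.mul (DifferentiableOn.mul ?_ hgd) ?_) ?_
  · exact ((differentiable_id.sub_const _).pow 2).differentiableOn
  · exact (differentiable_id.const_cpow (Or.inl hq0)).differentiableOn
  · exact ((hL.comp (differentiable_id.const_add _)).pow 2).differentiableOn

lemma afe_bound (hHB : HB) (hLOB : LOB) (hBRG : BRG) (hDEC : DEC) {k : ℤ} (hk : Squarefree k)
    (h1 : k ≠ 1) (t : ℝ) : ∃ C : ℝ, 0 ≤ C ∧ ∀ s : ℂ, -(1 / 4) ≤ s.re → s.re ≤ 12 →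
      ‖afe_F k t s‖ ≤ C / br s.im ^ 2 := by
  obtain ⟨h, C, hC, hb⟩ := hHB
  obtain ⟨-, -, hp, hg⟩ := hBRG.2.1 k
  obtain ⟨hb1, -, -⟩ := hb (par k) (gam k) t hp hg
  obtain ⟨D, hD, hd⟩ := hDEC.2.1 4
  have hq := afe_q hBRG hk
  have hq0 : 0 < qk k := by linarith
  have hbr : ∀ y : ℝ, 1 ≤ br y := fun y => by
    unfold br
    have := abs_nonneg y
    linarith
  have hbt := hbr t
  refine ⟨C * br t ^ h * (Real.exp (1 / 8) * D) * qk k ^ (12 : ℝ) *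
    (16 * |(k : ℝ)| * (13 * br t)) ^ 2, by positivity, fun s hs1 hs2 => ?_⟩
  have hbs := hbr s.im
  have hre : (1 / 2 + t * I + s : ℂ).re = 1 / 2 + s.re := by simp
  have him : (1 / 2 + t * I + s : ℂ).im = t + s.im := by simp
  have hn : ‖(1 / 2 + t * I + s : ℂ)‖ ≤ 13 * br t * br s.im := by
    refine (Complex.norm_le_abs_re_add_abs_im _).trans ?_
    rw [hre, him]
    have a1 : |1 / 2 + s.re| ≤ 13 := abs_le.2 ⟨by linarith, by linarith⟩
    have a2 := abs_add_le t s.im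
    have a3 := abs_nonneg t
    have a4 := abs_nonneg s.im
    have a5 := mul_nonneg a3 a4
    unfold br
    nlinarith
  have hL : ‖Lo k (1 / 2 + t * I + s)‖ ≤ 16 * |(k : ℝ)| * (13 * br t) * br s.im := by
    refine (hLOB k _ hk h1 (by rw [hre]; linarith)).trans ?_
    rw [hre, div_le_iff₀ (by linarith)]
    have a1 : 4 * |(k : ℝ)| * ‖(1 / 2 + t * I + s : ℂ)‖ ≤
        4 * |(k : ℝ)| * (13 * br t * br s.im) := by gcongr
    have a2 : 16 * |(k : ℝ)| * (13 * br t) * br s.im * (1 / 4) ≤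
        16 * |(k : ℝ)| * (13 * br t) * br s.im * (1 / 2 + s.re) := by
      gcongr
      linarith
    linarith
  have hQ : ‖(qk k : ℂ) ^ s‖ ≤ qk k ^ (12 : ℝ) := by
    rw [norm_cpow_eq_rpow_re_of_pos hq0]
    exact Real.rpow_le_rpow_of_exponent_le hq hs2
  have hE : Real.exp (-s.im ^ 2 / 2) * br s.im ^ 4 ≤ Real.exp (1 / 8) * D := by
    have a1 := hd s.im 0
    have a2 : br 0 = 1 := by simp [br]
    rw [a2, sub_zero, one_pow, mul_one] at a1
    have a3 : Real.exp (-s.im ^ 2 / 2) ≤ Real.exp (1 / 8) * Real.exp (-|s.im| / 2) := by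
      rw [← Real.exp_add]
      apply Real.exp_le_exp.2
      have := sq_abs s.im
      nlinarith [sq_nonneg (|s.im| - 1 / 2)]
    calc Real.exp (-s.im ^ 2 / 2) * br s.im ^ 4
        ≤ Real.exp (1 / 8) * Real.exp (-|s.im| / 2) * br s.im ^ 4 := by gcongr
      _ = Real.exp (1 / 8) * (Real.exp (-|s.im| / 2) * br s.im ^ 4) := by ring
      _ ≤ Real.exp (1 / 8) * D := by gcongr
  have hH := hb1 s hs1 (by linarith)
  unfold afe_F
  rw [norm_mul, norm_mul, norm_pow, le_div_iff₀ (by positivity)]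
  calc ‖hh (par k) (gam k) t s‖ * ‖(qk k : ℂ) ^ s‖ * ‖Lo k (1 / 2 + t * I + s)‖ ^ 2 *
        br s.im ^ 2
      ≤ C * br t ^ h * Real.exp (-s.im ^ 2 / 2) * qk k ^ (12 : ℝ) *
        (16 * |(k : ℝ)| * (13 * br t) * br s.im) ^ 2 * br s.im ^ 2 := by gcongr
    _ = C * br t ^ h * (Real.exp (-s.im ^ 2 / 2) * br s.im ^ 4) * qk k ^ (12 : ℝ) *
        (16 * |(k : ℝ)| * (13 * br t)) ^ 2 := by ring
    _ ≤ _ := by gcongr

lemma afe_nice {f : ℂ → ℂ} {c a b : ℝ} (hf : DifferentiableOn ℂ f {s | c < s.re}) (h : c < a) :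
    Nice a b f :=
  ⟨hf.continuousOn.mono fun _ hs => lt_of_lt_of_le h hs.1, hf.mono fun _ hs => lt_trans h hs.1⟩

lemma afe_Dq (hLOP : LOP) {k : ℤ} (hk : Squarefree k) (t : ℝ) :
    Dq t (fun s => 1 / s) k = Iv 12 fun u => afe_F k t u / u := by
  unfold Dq Dw Iv
  rw [← integral_add_right_eq_self _ t]
  congr 1
  funext y
  have e1 : (((12 : ℝ) : ℂ) + ((y + t : ℝ) : ℂ) * I - t * I) = (12 : ℝ) + y * I := by
    push_cast
    ring
  have e2 : (1 / 2 + (((12 : ℝ) : ℂ) + ((y + t : ℝ) : ℂ) * I)) =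
      1 / 2 + t * I + ((12 : ℝ) + y * I) := by
    push_cast
    ring
  unfold ww afe_F
  simp only []
  rw [e1, e2, ← hLOP.1 k _ hk.ne_zero (by simp; norm_num)]
  ring

lemma afe_shift (hSH0 : SH0) (hHB : HB) (hLOP : LOP) (hLOB : LOB) (hBRG : BRG) (hDEC : DEC)
    {k : ℤ} (hk : Squarefree k) (h1 : k ≠ 1) (t : ℝ) :
    (Iv 12 fun u => afe_F k t u / u) = Iv (1 / 4) fun u => afe_F k t u / u := by
  obtain ⟨C, hC, hb⟩ := afe_bound hHB hLOB hBRG hDEC hk h1 t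
  have hd := afe_diff hHB hLOP hBRG hk h1 t
  refine hSH0 (1 / 4) 12 (4 * C) _ (by norm_num) (afe_nice (c := 0) ?_ (by norm_num)) ?_
  · refine DifferentiableOn.div (hd.mono fun s hs => ?_) differentiableOn_id fun s hs h0 => ?_
    · have : 0 < s.re := hs
      show -(1 / 2) < s.re
      linarith
    · have : 0 < s.re := hs
      rw [h0] at this
      simp at this
  · intro s hs
    have a1 : 1 / 4 ≤ ‖s‖ := hs.1.trans ((le_abs_self _).trans (Complex.abs_re_le_norm s))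
    have a2 := hb s (by linarith [hs.1]) hs.2
    have a3 : 0 ≤ C / br s.im ^ 2 := by positivity
    rw [norm_div, div_le_iff₀ (by linarith)]
    calc ‖afe_F k t s‖ ≤ C / br s.im ^ 2 := a2
      _ = 4 * C / br s.im ^ 2 * (1 / 4) := by ring
      _ ≤ 4 * C / br s.im ^ 2 * ‖s‖ := by gcongr

theorem pAFE (hFE : FE) (hSH0 : SH0) (hSH1 : SH1) (hHB : HB) (hLOP : LOP) (hLOB : LOB) (hBRG : BRG) (hDEC : DEC) : AFE := by
  intro k t hk h1
  have hq := afe_q hBRG hk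
  obtain ⟨C, hC, hb⟩ := afe_bound hHB hLOB hBRG hDEC hk h1 t
  have hd := afe_diff hHB hLOP hBRG hk h1 t
  have s1 := hSH1 (-(1 / 4)) 12 C (afe_F k t) 0 (by simp) (by simp)
    (afe_nice hd (by norm_num)) (fun s hs => by
      refine (hb s hs.1 hs.2).trans ?_
      have a1 : 1 ≤ br s.im := by
        unfold br
        have := abs_nonneg s.im
        linarith
      apply div_le_div_of_nonneg_left hC (by linarith)
      nlinarith)
  simp only [sub_zero] at s1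
  have s2 : (Iv (-(1 / 4)) fun u => afe_F k t u / u) =
      -(afe_c k (-t) / afe_c k t * Iv (1 / 4) fun u => afe_F k (-t) u / u) := by
    unfold Iv
    rw [← integral_neg_eq_self, ← integral_const_mul, ← integral_neg]
    congr 1
    funext y
    have e1 : (((-(1 / 4) : ℝ) : ℂ) + ((-y : ℝ) : ℂ) * I) = -(((1 / 4 : ℝ) : ℂ) + y * I) := by
      push_cast
      ring
    simp only []
    rw [e1, afe_refl hFE hk h1 hq t _ (by simp), div_neg]
    ring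
  have s3 : afe_F k t 0 = Lf k (1 / 2 + t * I) ^ 2 := by
    obtain ⟨h, C', -, hb'⟩ := hHB
    obtain ⟨-, -, hp, hg⟩ := hBRG.2.1 k
    obtain ⟨-, -, h0⟩ := hb' (par k) (gam k) t hp hg
    unfold afe_F Lf
    rw [h0, cpow_zero, add_zero, div_pow]
    ring
  rw [afe_Dq hLOP hk, afe_Dq hLOP hk, afe_shift hSH0 hHB hLOP hLOB hBRG hDEC hk h1 (-t)]
  have s4 : 2 * π * Lf k (1 / 2 + t * I) ^ 2 = (Iv 12 fun u => afe_F k t u / u) +
      afe_c k (-t) / afe_c k t * Iv (1 / 4) fun u => afe_F k (-t) u / u := by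
    rw [s1, s2, s3]
    ring
  have s5 : ‖afe_c k (-t) / afe_c k t‖ = 1 := by
    rw [norm_div, afe_c_norm hq, div_self (norm_ne_zero_iff.2 (afe_c_ne hq t))]
  have s6 : 2 * π * ‖Lf k (1 / 2 + t * I)‖ ^ 2 = ‖2 * π * Lf k (1 / 2 + t * I) ^ 2‖ := by
    rw [norm_mul, norm_mul, norm_pow, Complex.norm_real, Real.norm_of_nonneg Real.pi_pos.le]
    simp
  rw [s6, s4]
  refine (norm_add_le _ _).trans ?_
  rw [norm_mul, s5, one_mul]

end Pool.Agent.QM
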