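import Pool.Agent.P.MP_ea46f5_nt.QM.S2

namespace Pool.Agent.QM

open Complex MeasureTheory Finset
open scoped Real ComplexConjugate

theorem dl_int (hHB : HB) (hLSP : LSP) {a : ℕ} {γ : ℤ} (ha : a ≤ 1) (hγ : γ ∈ T3) (t : ℝ)
    {φ : ℂ → ℂ} {ε V Y : ℝ} (hε : ε ≤ 1) (hφ : FarP φ ε 0 V) (hY : 0 < Y) (k : ℤ) :
    LI fun s => ww a γ t φ Y s * LS k (1 / 2 + s) ^ 2 := by
  obtain ⟨h, C, hC, hB⟩ := hHB
  obtain ⟨hb, ⟨g, hg, hgg⟩, -⟩ := hB a γ t ha hγ
  obtain ⟨-, -, hL2, hLd, -⟩ := hLSP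
  have e1 : ∀ τ : ℝ, (12 + τ * I - t * I : ℂ).re = 12 := fun τ => by simp
  have e2 : ∀ τ : ℝ, (12 + τ * I - t * I : ℂ).im = τ - t := fun τ => by simp
  have e3 : ∀ τ : ℝ, (1 / 2 + (12 + τ * I) : ℂ).re = 25 / 2 := fun τ => by simp; norm_num
  have c0 : Continuous fun τ : ℝ => (12 + τ * I - t * I : ℂ) := by fun_prop
  have c1 : Continuous fun τ : ℝ => hh a γ t (12 + τ * I - t * I) := by
    simp_rw [hgg]
    refine Continuous.mul (by fun_prop) (hg.continuousOn.comp_continuous c0 fun τ => ?_)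
    rw [Set.mem_ofPred_eq, e1]; norm_num
  have c2 : Continuous fun τ : ℝ => (Y : ℂ) ^ (12 + τ * I - t * I : ℂ) :=
    c0.const_cpow (Or.inl (by exact_mod_cast hY.ne'))
  have c3 : Continuous fun τ : ℝ => φ (12 + τ * I - t * I) := by
    refine hφ.1.continuousOn.comp_continuous c0 fun τ => ?_
    rw [Set.mem_ofPred_eq, e1]; norm_num
  have c4 : Continuous fun τ : ℝ => LS k (1 / 2 + (12 + τ * I)) := by
    refine (hLd k).continuousOn.comp_continuous (by fun_prop) fun τ => ?_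
    rw [Set.mem_ofPred_eq, e3]; norm_num
  have hI : Integrable fun τ : ℝ => Real.exp (-(1 / 2) * (τ - t) ^ 2) :=
    (integrable_exp_neg_mul_sq (b := 1 / 2) (by norm_num)).comp_sub_right t
  refine (hI.const_mul (C * br t ^ h * Y ^ (12 : ℝ) * V * 2 ^ 2)).mono'
    (((c1.mul c2).mul c3).mul (c4.pow 2)).aestronglyMeasurable
    (Filter.Eventually.of_forall fun τ => ?_)
  have b1 := hb _ (by rw [e1 τ]; norm_num) (by rw [e1 τ]; norm_num)
  have b3 := hφ.2 _ (by rw [e1 τ]; linarith) (by rw [e1 τ]; norm_num)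
  have b4 := hL2 k _ (by rw [e3 τ]; norm_num)
  rw [e2] at b1
  rw [neg_zero, zero_mul, Real.exp_zero, mul_one] at b3
  have hV : 0 ≤ V := (norm_nonneg _).trans b3
  have hb0 : 0 ≤ C * br t ^ h * Real.exp (-(τ - t) ^ 2 / 2) := (norm_nonneg _).trans b1
  simp only [ww]
  rw [norm_mul, norm_mul, norm_mul, norm_pow, Complex.norm_cpow_eq_rpow_re_of_pos hY, e1]
  calc _ ≤ C * br t ^ h * Real.exp (-(τ - t) ^ 2 / 2) * Y ^ (12 : ℝ) * V * 2 ^ 2 := by gcongr
    _ = _ := by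
      rw [show -(τ - t) ^ 2 / 2 = -(1 / 2) * (τ - t) ^ 2 by ring]; ring

theorem pDL (hHB : HB) (hLSP : LSP) (hBRG : BRG) (hDEC : DEC) : DL := by
  intro t k n φ ψ ε hk hε hψ hφ
  obtain ⟨hq, -, ha, hγ⟩ := hBRG.2.1 k
  have hk' : (0 : ℝ) < |(k : ℝ)| := abs_pos.2 (by exact_mod_cast hk)
  have hI : ∀ j ∈ range n, Integrable fun τ : ℝ =>
      ww (par k) (gam k) t (ψ j) (qk k) (((12 : ℝ) : ℂ) + τ * I) *
        LS k (1 / 2 + (((12 : ℝ) : ℂ) + τ * I)) ^ 2 := by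
    intro j hj
    obtain ⟨V, hV⟩ := hψ j (mem_range.1 hj)
    exact dl_int hHB hLSP ha hγ t hε hV (hk'.trans_le hq) k
  simp only [Dq, Dw, Iv]
  rw [← integral_finsetSum _ hI]
  refine integral_congr_ae (Filter.Eventually.of_forall fun τ => ?_)
  simp only [ww]
  rw [hφ _ (by simp), mul_sum, sum_mul]

theorem pSQD (hSEP : SEP) (hHB : HB) (hLSP : LSP) (hBRG : BRG) (hDEC : DEC) : SQD := by
  classical
  obtain ⟨C, hC, hS⟩ := hSEP
  refine ⟨6 * C, by positivity, fun φ ρ X t M ε V hX hε hφ hρ hM => ?_⟩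
  have hX0 : 0 < X := by linarith
  have hmap : ∀ k ∈ Sq X, (par k, gam k) ∈ range 2 ×ˢ T3 := fun k _ => by
    obtain ⟨-, -, ha, hγ⟩ := hBRG.2.1 k
    exact mem_product.2 ⟨mem_range.2 (by simp only; omega), hγ⟩
  rw [← sum_fiberwise_of_maps_to hmap]
  have hcard : (range 2 ×ˢ T3).card = 6 := by decide
  refine (sum_le_card_nsmul _ _ (C * M) fun c hc => ?_).trans
    (le_of_eq (by rw [hcard, nsmul_eq_mul]; push_cast; ring))
  obtain ⟨a, γ⟩ := c
  have ha : a ≤ 1 := by have := mem_range.1 (mem_product.1 hc).1; simp only at this; omega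
  have hγ : γ ∈ T3 := (mem_product.1 hc).2
  have hq : ∀ k ∈ Sq X, X / 2 < qk k ∧ qk k ≤ 4 * X := fun k hk => by
    obtain ⟨h1, h2, -⟩ := hBRG.2.1 k
    obtain ⟨-, -, -, h3, h4⟩ := mem_filter.1 hk
    constructor <;> linarith
  refine le_trans (le_of_eq ?_) (hS ((Sq X).filter fun k => (par k, gam k) = (a, γ))
    (fun k s => ww a γ t φ X s * LS k (1 / 2 + s) ^ 2) ρ (fun k => Real.log (qk k / X)) t M
    (fun k hk => ⟨dl_int hHB hLSP ha hγ t hε hφ hX0 k, hρ k, ?_⟩) fun y => ?_)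
  · refine sum_congr rfl fun k hk => ?_
    obtain ⟨hk1, hk2⟩ := mem_filter.1 hk
    obtain ⟨h1, h2⟩ := Prod.mk.inj hk2
    have hq0 : 0 < qk k := lt_trans (by positivity) (hq k hk1).1
    rw [Dq, Dw, h1, h2]
    congr 4
    funext s
    have e : ((qk k : ℝ) : ℂ) ^ (s - t * I) =
        (X : ℂ) ^ (s - t * I) * cexp ((Real.log (qk k / X) : ℝ) * (s - t * I)) := by
      rw [cpow_def_of_ne_zero (by exact_mod_cast hq0.ne'),
        cpow_def_of_ne_zero (by exact_mod_cast hX0.ne'), ← Complex.exp_add,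
        ← ofReal_log hq0.le, ← ofReal_log hX0.le, Real.log_div hq0.ne' hX0.ne']
      congr 1
      push_cast
      ring
    simp only [ww]
    rw [e]
    ring
  · obtain ⟨h1, h2⟩ := hq k (mem_filter.1 hk).1
    have h3 : 1 / 4 ≤ qk k / X := by rw [le_div_iff₀ hX0]; linarith
    have h4 : qk k / X ≤ 4 := by rw [div_le_iff₀ hX0]; linarith
    have h5 : Real.log 4 ≤ 2 := by
      have : Real.log 4 = 2 * Real.log 2 := by
        rw [show (4 : ℝ) = 2 ^ 2 by norm_num, Real.log_pow]; norm_num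
      linarith [Real.log_two_lt_d9]
    have h6 := Real.log_le_log (by norm_num) h3
    have h7 := Real.log_le_log (by linarith) h4
    rw [one_div, Real.log_inv] at h6
    exact abs_le.2 ⟨by linarith, by linarith⟩
  · refine le_trans (le_of_eq ?_) ((sum_le_sum_of_subset_of_nonneg
      (filter_subset (fun k => (par k, gam k) = (a, γ)) _)
      fun k _ _ => mul_nonneg (hρ k) (sq_nonneg _)).trans (hM a γ y ha hγ))
    refine sum_congr rfl fun k _ => ?_
    rw [Dw]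
    congr 4
    funext s
    simp only [ww, phy]
    ring

end Pool.Agent.QM
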