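import Pool.Agent.P.MP_ea46f5_nt.QM.S2

namespace Pool.Agent.QM

open Complex MeasureTheory Finset
open scoped Real ComplexConjugate

theorem exa_jac (m : ℤ) (n : ℕ) : |(jacobiSym m n : ℝ)| ≤ 1 := by
  rcases jacobiSym.trichotomy m n with h | h | h <;> simp [h]

theorem exa_conj (t : ℝ) : conj ((12 : ℂ) + t * I) = 12 + ((-t : ℝ) : ℂ) * I := by
  apply Complex.ext <;> simp

theorem exa_wt (w : ℂ → ℂ) (hw : LI w) : LI (wt w) := by
  unfold LI wt at *
  simp only [exa_conj]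
  exact (Complex.conjCLE.toContinuousLinearMap.integrable_comp hw.comp_neg)

theorem exa_cont (hLSP : LSP) (m : ℤ) :
    Continuous fun t : ℝ => LS m (1 / 2 + (12 + t * I)) ^ 2 := by
  refine Continuous.pow ?_ 2
  refine (hLSP.2.2.2.1 m).continuousOn.comp_continuous (by fun_prop) fun t => ?_
  simp only [Set.mem_ofPred_eq]
  norm_num

theorem exa_bd (hLSP : LSP) (m : ℤ) (t : ℝ) : ‖LS m (1 / 2 + (12 + t * I)) ^ 2‖ ≤ 4 := by
  have := hLSP.2.2.1 m (1 / 2 + (12 + t * I)) (by norm_num)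
  rw [norm_pow]
  nlinarith [norm_nonneg (LS m (1 / 2 + (12 + t * I)))]

theorem exa_int (hLSP : LSP) (w : ℂ → ℂ) (hw : LI w) (m : ℤ) :
    Integrable fun t : ℝ => w (12 + t * I) * LS m (1 / 2 + (12 + t * I)) ^ 2 :=
  Integrable.mul_bdd hw (exa_cont hLSP m).aestronglyMeasurable
    (Filter.Eventually.of_forall (exa_bd hLSP m))

theorem exa_Dw (w : ℂ → ℂ) (m : ℤ) :
    Dw w m = ∫ t : ℝ, w (12 + t * I) * LS m (1 / 2 + (12 + t * I)) ^ 2 := by
  unfold Dw Iv
  simp only [Complex.ofReal_ofNat]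

theorem exa_Dw_conj (hLSP : LSP) (w : ℂ → ℂ) (m : ℤ) : conj (Dw w m) = Dw (wt w) m := by
  rw [exa_Dw, exa_Dw, ← integral_conj, ← integral_neg_eq_self]
  refine integral_congr_ae (Filter.Eventually.of_forall fun t => ?_)
  have h := hLSP.2.2.2.2.1 m (1 / 2 + (12 + t * I)) (by norm_num)
  have e : conj ((1 : ℂ) / 2 + (12 + t * I)) = 1 / 2 + (12 + ((-t : ℝ) : ℂ) * I) := by
    apply Complex.ext <;> simp
  rw [e] at h
  simp only [wt, exa_conj, map_mul, map_pow, h]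

theorem exa_sq (hLSP : LSP) (w : ℂ → ℂ) (m : ℤ) :
    ((‖Dw w m‖ ^ 2 : ℝ) : ℂ) = ∫ t : ℝ × ℝ,
      (w (12 + t.1 * I) * LS m (1 / 2 + (12 + t.1 * I)) ^ 2) *
        (wt w (12 + t.2 * I) * LS m (1 / 2 + (12 + t.2 * I)) ^ 2) := by
  rw [Measure.volume_eq_prod, integral_prod_mul
    (fun t : ℝ => w (12 + t * I) * LS m (1 / 2 + (12 + t * I)) ^ 2)
    (fun t : ℝ => wt w (12 + t * I) * LS m (1 / 2 + (12 + t * I)) ^ 2), ← exa_Dw, ← exa_Dw,
    ← exa_Dw_conj hLSP, Complex.mul_conj, Complex.normSq_eq_norm_sq]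

theorem exa_swap (hE0 : E0) (X : ℝ) (l : ℕ) (hl : l ≠ 0) (hG : Summable fun m : ℤ => GX X m)
    (s₁ s₂ : ℂ) (h1 : s₁.re = 12) (h2 : s₂.re = 12) :
    ∑' m : ℤ, ((GX X m * (jacobiSym m l : ℝ) : ℝ) : ℂ) *
        (LS m (1 / 2 + s₁) ^ 2 * LS m (1 / 2 + s₂) ^ 2) =
      ∑' n : ℕ, Cf s₁ s₂ n * (Sg X (n * l) : ℂ) := by
  have G0 : ∀ m, 0 ≤ GX X m := fun m => (Real.exp_pos _).le
  have hs : Summable fun n : ℕ => (n : ℝ) ^ (-(19 / 2) : ℝ) :=
    Real.summable_nat_rpow.2 (by norm_num)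
  have hF : Summable (Function.uncurry fun (m : ℤ) (n : ℕ) =>
      ((GX X m * (jacobiSym m l : ℝ) : ℝ) : ℂ) * (Cf s₁ s₂ n * (jacobiSym m n : ℂ))) := by
    refine Summable.of_norm_bounded (hG.mul_of_nonneg hs G0 fun n => by positivity) fun x => ?_
    simp only [Function.uncurry]
    rw [norm_mul, norm_mul, Complex.norm_real, Real.norm_eq_abs, abs_mul, abs_of_nonneg (G0 _),
      Complex.norm_intCast]
    exact mul_le_mul (mul_le_of_le_one_right (G0 _) (exa_jac _ _))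
      ((mul_le_of_le_one_right (norm_nonneg _) (exa_jac _ _)).trans
        (hE0.2.2.2.1 s₁ s₂ _ h1 h2)) (by positivity) (G0 _)
  have e1 : ∀ m : ℤ, ((GX X m * (jacobiSym m l : ℝ) : ℝ) : ℂ) *
        (LS m (1 / 2 + s₁) ^ 2 * LS m (1 / 2 + s₂) ^ 2) =
      ∑' n : ℕ, ((GX X m * (jacobiSym m l : ℝ) : ℝ) : ℂ) *
        (Cf s₁ s₂ n * (jacobiSym m n : ℂ)) := fun m => by
    rw [tsum_mul_left, (hE0.2.2.2.2.2.1 m s₁ s₂ h1 h2).tsum_eq]
  simp only [e1]
  rw [← hF.tsum_comm]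
  refine tsum_congr fun n => ?_
  rcases eq_or_ne n 0 with rfl | hn
  · simp
  · unfold Sg
    rw [Complex.ofReal_tsum, ← tsum_mul_left]
    refine tsum_congr fun m => ?_
    rw [jacobiSym.mul_right' m hn hl]
    push_cast
    ring

theorem pEXA (hE0 : E0) (hLSP : LSP) (hP2 : P2) : EXA := by
  intro w X l hw hX hl
  have hG := (hP2 X l hX hl).1
  have G0 : ∀ m, 0 ≤ GX X m := fun m => (Real.exp_pos _).le
  have hw' := exa_wt w hw
  let F : ℤ → ℝ × ℝ → ℂ := fun m t => ((GX X m * (jacobiSym m l : ℝ) : ℝ) : ℂ) *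
    ((w (12 + t.1 * I) * LS m (1 / 2 + (12 + t.1 * I)) ^ 2) *
      (wt w (12 + t.2 * I) * LS m (1 / 2 + (12 + t.2 * I)) ^ 2))
  have hF : ∀ m, Integrable (F m) := fun m =>
    ((exa_int hLSP w hw m).mul_prod (exa_int hLSP (wt w) hw' m)).const_mul _
  have hg : Integrable fun t : ℝ × ℝ => ‖w (12 + t.1 * I)‖ * ‖wt w (12 + t.2 * I)‖ :=
    Integrable.mul_prod hw.norm hw'.norm
  have hb : ∀ m, ∫ t, ‖F m t‖ ≤
      GX X m * (16 * ∫ t : ℝ × ℝ, ‖w (12 + t.1 * I)‖ * ‖wt w (12 + t.2 * I)‖) := by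
    intro m
    rw [← integral_const_mul, ← integral_const_mul]
    refine integral_mono (hF m).norm ((hg.const_mul _).const_mul _) fun t => ?_
    simp only [F]
    rw [norm_mul, Complex.norm_real, Real.norm_eq_abs, abs_mul, abs_of_nonneg (G0 _), norm_mul,
      norm_mul, norm_mul]
    refine mul_le_mul (mul_le_of_le_one_right (G0 _) (exa_jac _ _)) ?_ (by positivity) (G0 _)
    calc _ ≤ (‖w (12 + t.1 * I)‖ * 4) * (‖wt w (12 + t.2 * I)‖ * 4) := by
          gcongr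
          · exact exa_bd hLSP m _
          · exact exa_bd hLSP m _
      _ = _ := by ring
  have hS : Summable fun m => ∫ t, ‖F m t‖ :=
    Summable.of_nonneg_of_le (fun m => integral_nonneg fun t => norm_nonneg _) hb
      (hG.mul_right _)
  have H := hasSum_integral_of_summable_integral_norm hF hS
  have e1 : ∀ m, ∫ t, F m t = ((GX X m * ‖Dw w m‖ ^ 2 * (jacobiSym m l : ℝ) : ℝ) : ℂ) := by
    intro m
    simp only [F]
    rw [integral_const_mul, ← exa_sq hLSP]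
    push_cast
    ring
  have e2 : ∫ t, ∑' m, F m t = PsI w X l := by
    unfold PsI I2
    simp only [Complex.ofReal_ofNat]
    refine integral_congr_ae (Filter.Eventually.of_forall fun t => ?_)
    simp only
    rw [← exa_swap hE0 X l hl.pos.ne' hG _ _ (by simp) (by simp), ← tsum_mul_left]
    refine tsum_congr fun m => ?_
    simp only [F]
    ring
  simp only [e1] at H
  rw [e2] at H
  exact H

end Pool.Agent.QM
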