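import Pool.Agent.P.MP_ea46f5_nt.QM.S2

namespace Pool.Agent.QM

open Complex MeasureTheory Finset
open scoped Real ComplexConjugate

/-- The product weight on the two lines. -/
noncomputable def exc_W (w : ℂ → ℂ) (t : ℝ × ℝ) : ℂ := w (12 + t.1 * I) * wt w (12 + t.2 * I)

/-- The averaged coefficient. -/
noncomputable def exc_a (w : ℂ → ℂ) (n : ℕ) : ℂ :=
  ∫ t : ℝ × ℝ, exc_W w t * Cf (12 + t.1 * I) (12 + t.2 * I) n

theorem exc_wt {w : ℂ → ℂ} (hw : LI w) : Integrable fun t : ℝ => wt w (12 + t * I) := by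
  have h1 : Integrable fun t : ℝ => w (12 + ((-t : ℝ) : ℂ) * I) :=
    Integrable.comp_neg (f := fun t : ℝ => w (12 + t * I)) hw
  have h2 := (Complex.conjCLE.toContinuousLinearMap.integrable_comp h1)
  refine h2.congr (Filter.Eventually.of_forall fun t => ?_)
  have e : conj (12 + (t : ℂ) * I) = 12 + ((-t : ℝ) : ℂ) * I := by
    rw [map_add, map_mul, conj_ofReal, conj_I, map_ofNat]; push_cast; ring
  simp only [wt, e]
  rfl

theorem exc_W_int {w : ℂ → ℂ} (hw : LI w) : Integrable (exc_W w) := by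
  have := Integrable.mul_prod (μ := (volume : Measure ℝ)) (ν := (volume : Measure ℝ))
    (f := fun t : ℝ => w (12 + t * I)) (g := fun t : ℝ => wt w (12 + t * I)) hw (exc_wt hw)
  exact this

theorem exc_re (t : ℝ) : (12 + (t : ℂ) * I).re = 12 := by simp

theorem exc_cf_le (hE0 : E0) (t : ℝ × ℝ) (n : ℕ) :
    ‖Cf (12 + t.1 * I) (12 + t.2 * I) n‖ ≤ (n : ℝ) ^ (-(19 / 2) : ℝ) :=
  hE0.2.2.2.1 _ _ n (exc_re _) (exc_re _)

theorem exc_cf_cont (hE0 : E0) (n : ℕ) :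
    Continuous fun t : ℝ × ℝ => Cf (12 + t.1 * I) (12 + t.2 * I) n := by
  have h : Continuous fun t : ℝ × ℝ => ((12 + (t.1 : ℂ) * I, 12 + (t.2 : ℂ) * I) : ℂ × ℂ) := by
    fun_prop
  exact Continuous.comp (g := fun x : ℂ × ℂ => Cf x.1 x.2 n)
    (f := fun t : ℝ × ℝ => ((12 + (t.1 : ℂ) * I, 12 + (t.2 : ℂ) * I) : ℂ × ℂ))
    (hE0.2.2.2.2.1 n) h

theorem exc_term_int (hE0 : E0) {w : ℂ → ℂ} (hw : LI w) (n : ℕ) :
    Integrable fun t : ℝ × ℝ => exc_W w t * Cf (12 + t.1 * I) (12 + t.2 * I) n :=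
  (exc_W_int hw).mul_bdd (c := (n : ℝ) ^ (-(19 / 2) : ℝ)) (exc_cf_cont hE0 n).aestronglyMeasurable
    (Filter.Eventually.of_forall fun t => exc_cf_le hE0 t n)

theorem exc_term_le (hE0 : E0) {w : ℂ → ℂ} (hw : LI w) (n : ℕ) :
    ∫ t : ℝ × ℝ, ‖exc_W w t * Cf (12 + t.1 * I) (12 + t.2 * I) n‖ ≤
      (∫ t, ‖exc_W w t‖) * (n : ℝ) ^ (-(19 / 2) : ℝ) := by
  rw [← integral_mul_const]
  refine integral_mono (exc_term_int hE0 hw n).norm ((exc_W_int hw).norm.mul_const _) fun t => ?_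
  simp only [norm_mul]
  exact mul_le_mul_of_nonneg_left (exc_cf_le hE0 t n) (norm_nonneg _)

theorem exc_a_le (hE0 : E0) {w : ℂ → ℂ} (hw : LI w) (n : ℕ) :
    ‖exc_a w n‖ ≤ (∫ t, ‖exc_W w t‖) * (n : ℝ) ^ (-(19 / 2) : ℝ) :=
  (norm_integral_le_integral_norm _).trans (exc_term_le hE0 hw n)

theorem exc_a_even (hE0 : E0) (w : ℂ → ℂ) {n : ℕ} (hn : ¬ Odd n) : exc_a w n = 0 := by
  simp [exc_a, hE0.2.2.1 _ _ n hn]

theorem exc_pow (n : ℕ) : (n : ℝ) ^ (-(19 / 2) : ℝ) * (n : ℝ) ^ 7 = (n : ℝ) ^ (-(5 / 2) : ℝ) := by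
  rcases Nat.eq_zero_or_pos n with rfl | hn
  · simp
  · have h : (0 : ℝ) < n := by exact_mod_cast hn
    rw [← Real.rpow_natCast (n : ℝ) 7, ← Real.rpow_add h]
    norm_num

theorem exc_sum : Summable fun n : ℕ => (n : ℝ) ^ (-(5 / 2) : ℝ) :=
  Real.summable_nat_rpow.mpr (by norm_num)

/-- The majorant for the coefficients against any sequence of polynomial growth. -/
theorem exc_u (hE0 : E0) {w : ℂ → ℂ} (hw : LI w) :
    Summable fun n : ℕ => ‖exc_a w n‖ * (n : ℝ) ^ 7 := by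
  refine Summable.of_nonneg_of_le (fun n => by positivity) (fun n => ?_)
    (exc_sum.mul_left (∫ t, ‖exc_W w t‖))
  rw [← exc_pow, ← mul_assoc]
  exact mul_le_mul_of_nonneg_right (exc_a_le hE0 hw n) (by positivity)

theorem exc_ab_le (hE0 : E0) (w : ℂ → ℂ) {b : ℕ → ℂ} {M : ℝ}
    (hb : ∀ n, Odd n → ‖b n‖ ≤ M * (n : ℝ) ^ 7) (n : ℕ) :
    ‖exc_a w n * b n‖ ≤ ‖exc_a w n‖ * (n : ℝ) ^ 7 * M := by
  by_cases hn : Odd n
  · rw [norm_mul, mul_assoc, mul_comm _ M]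
    exact mul_le_mul_of_nonneg_left (hb n hn) (norm_nonneg _)
  · rw [exc_a_even hE0 w hn]; simp

theorem exc_ab_sum (hE0 : E0) {w : ℂ → ℂ} (hw : LI w) {b : ℕ → ℂ} {M : ℝ}
    (hb : ∀ n, Odd n → ‖b n‖ ≤ M * (n : ℝ) ^ 7) : Summable fun n => exc_a w n * b n :=
  Summable.of_norm_bounded ((exc_u hE0 hw).mul_right M) (exc_ab_le hE0 w hb)

/-- Termwise integration of the Dirichlet series on the two lines. -/
theorem exc_swap (hE0 : E0) {w : ℂ → ℂ} (hw : LI w) {b : ℕ → ℂ} {M : ℝ} (hM : 0 ≤ M)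
    (hb : ∀ n, Odd n → ‖b n‖ ≤ M * (n : ℝ) ^ 7) :
    I2 12 (fun s₁ s₂ => w s₁ * wt w s₂ * ∑' n : ℕ, Cf s₁ s₂ n * b n) =
      ∑' n, exc_a w n * b n := by
  have hi : ∀ n : ℕ, Integrable fun t : ℝ × ℝ =>
      exc_W w t * Cf (12 + t.1 * I) (12 + t.2 * I) n * b n :=
    fun n => (exc_term_int hE0 hw n).mul_const _
  have hs : Summable fun n : ℕ =>
      ∫ t : ℝ × ℝ, ‖exc_W w t * Cf (12 + t.1 * I) (12 + t.2 * I) n * b n‖ := by
    refine Summable.of_nonneg_of_le (fun n => integral_nonneg fun t => norm_nonneg _) (fun n => ?_)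
      (exc_sum.mul_left ((∫ t, ‖exc_W w t‖) * M))
    have h0 : 0 ≤ ∫ t, ‖exc_W w t‖ := integral_nonneg fun t => norm_nonneg _
    by_cases hn : Odd n
    · simp only [norm_mul _ (b n)]
      rw [integral_mul_const, ← exc_pow]
      calc _ ≤ ((∫ t, ‖exc_W w t‖) * (n : ℝ) ^ (-(19 / 2) : ℝ)) * (M * (n : ℝ) ^ 7) :=
            mul_le_mul (exc_term_le hE0 hw n) (hb n hn) (norm_nonneg _) (by positivity)
        _ = _ := by ring
    · simp only [hE0.2.2.1 _ _ n hn, mul_zero, zero_mul, norm_zero, integral_zero]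
      positivity
  have h := integral_tsum_of_summable_integral_norm hi hs
  have e1 : ∀ n : ℕ, ∫ t : ℝ × ℝ, exc_W w t * Cf (12 + t.1 * I) (12 + t.2 * I) n * b n =
      exc_a w n * b n := fun n => integral_mul_const _ _
  simp only [e1] at h
  rw [h, I2]
  refine integral_congr_ae (Filter.Eventually.of_forall fun t => ?_)
  simp only [mul_assoc (exc_W w t), tsum_mul_left]
  rfl

theorem exc_T_le (hTKB : TKB) (k : ℤ) {z : ℂ} (h0 : 0 ≤ z.re) (h6 : z.re ≤ 6) {l : ℕ} (hl : Odd l)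
    (n : ℕ) (hn : Odd n) : ‖Tk k z (n * l)‖ ≤ (l : ℝ) ^ 7 * (n : ℝ) ^ 7 := by
  have := hTKB.2.1 k z (n * l) h0 h6 (hn.mul hl).pos.ne'
  rwa [Nat.cast_mul, mul_pow, mul_comm ((n : ℝ) ^ 7)] at this

theorem exc_J (hE0 : E0) (hTKB : TKB) {w : ℂ → ℂ} (hw : LI w) (k : ℤ) {z : ℂ} (h0 : 0 ≤ z.re)
    (h6 : z.re ≤ 6) {l : ℕ} (hl : Odd l) :
    J1 w l k z = ∑' n, exc_a w n * Tk k z (n * l) :=
  exc_swap hE0 hw (b := fun n => Tk k z (n * l)) (by positivity) (exc_T_le hTKB k h0 h6 hl)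

theorem exc_S_le (hP2 : P2) (hTKB : TKB) {X : ℝ} (hX : 0 < X) {l : ℕ} (hl : Odd l) (n : ℕ)
    (hn : Odd n) : ‖(Sg X (n * l) : ℂ)‖ ≤ (X + l) * (n : ℝ) ^ 7 := by
  have h := (hP2 X (n * l) hX (hn.mul hl)).2.2
  obtain ⟨t0, t1, -⟩ := hTKB.2.2.2 (n * l)
  have hn1 : (1 : ℝ) ≤ n := by exact_mod_cast hn.pos
  have hl1 : (1 : ℝ) ≤ l := by exact_mod_cast hl.pos
  have hnl : (1 : ℝ) ≤ ((n * l : ℕ) : ℝ) := by exact_mod_cast (hn.mul hl).pos
  have hs : √((n * l : ℕ) : ℝ) ≤ ((n * l : ℕ) : ℝ) := by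
    rw [Real.sqrt_le_left (by linarith)]; nlinarith
  have h7 : (n : ℝ) ≤ (n : ℝ) ^ 7 := le_self_pow₀ hn1 (by norm_num)
  have hx : X * T0 (n * l) ≤ X := mul_le_of_le_one_right hX.le t1
  have hx0 : 0 ≤ X * T0 (n * l) := mul_nonneg hX.le t0
  rw [norm_real, Real.norm_eq_abs]
  have h1 : |Sg X (n * l)| ≤ X + (n : ℝ) * l := by
    have := abs_le.mp (h.trans hs)
    push_cast at this
    rw [abs_le]; constructor <;> nlinarith [this.1, this.2]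
  have h2 : X ≤ X * (n : ℝ) ^ 7 := le_mul_of_one_le_right hX.le (hn1.trans h7)
  have h3 : (n : ℝ) * l ≤ l * (n : ℝ) ^ 7 := by
    rw [mul_comm]; exact mul_le_mul_of_nonneg_left h7 (by linarith)
  linarith [add_mul X (l : ℝ) ((n : ℝ) ^ 7)]

theorem exc_K_cont {k : ℤ} (hk : k ≠ 0) {X σ : ℝ} (hX : 0 < X) (hσ : 1 / 2 < σ) :
    Continuous fun y : ℝ => Kz k X (σ + y * I) := by
  have hb : (0 : ℝ) < |(k : ℝ)| * X := mul_pos (abs_pos.mpr (by exact_mod_cast hk)) hX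
  have hl : Continuous fun y : ℝ => (σ : ℂ) + y * I := by fun_prop
  have hre : ∀ y : ℝ, ((σ : ℂ) + y * I).re = σ := fun y => by simp
  refine continuous_iff_continuousAt.mpr fun y => ?_
  have h1 : ContinuousAt Gammaℝ ((σ : ℂ) + y * I) := by
    have hd : DifferentiableAt ℂ Gammaℝ ((σ : ℂ) + y * I) := by
      have hne : Gammaℝ ((σ : ℂ) + y * I) ≠ 0 :=
        Gammaℝ_ne_zero_of_re_pos (by rw [hre]; linarith)
      have := (differentiable_Gammaℝ_inv ((σ : ℂ) + y * I)).inv (inv_ne_zero hne)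
      have e : (fun s : ℂ => (Gammaℝ s)⁻¹)⁻¹ = Gammaℝ := by
        funext s; simp
      rwa [e] at this
    exact hd.continuousAt
  have h2 : ContinuousAt riemannZeta (2 * ((σ : ℂ) + y * I)) := by
    refine (differentiableAt_riemannZeta fun h => ?_).continuousAt
    have := congrArg Complex.re h
    simp at this; linarith
  have c1 : ContinuousAt (fun y : ℝ => Gammaℝ ((σ : ℂ) + y * I)) y :=
    ContinuousAt.comp (f := fun y : ℝ => (σ : ℂ) + y * I) h1 hl.continuousAt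
  have c2 : ContinuousAt (fun y : ℝ => riemannZeta (2 * ((σ : ℂ) + y * I))) y :=
    ContinuousAt.comp (f := fun y : ℝ => 2 * ((σ : ℂ) + y * I)) h2 (by fun_prop)
  have c3 : ContinuousAt (fun y : ℝ => ((|(k : ℝ)| * X : ℝ) : ℂ) ^ (-((σ : ℂ) + y * I))) y :=
    (Continuous.const_cpow hl.neg (Or.inl (ofReal_ne_zero.mpr hb.ne'))).continuousAt
  exact ((c1.div_const 2).mul c2).mul c3

theorem exc_K_le (hKZ : KZ) : ∃ C : ℝ, 0 < C ∧ ∀ (k : ℤ) (X σ y : ℝ), k ≠ 0 → 0 < X → 1 / 2 < σ →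
    σ ≤ 6 → ‖Kz k X (σ + y * I)‖ ≤
      C * (1 + 1 / (σ - 1 / 2)) * (|(k : ℝ)| * X) ^ (-σ) * (1 / br y ^ 2) := by
  obtain ⟨C, hC, h⟩ := hKZ 2
  refine ⟨C / 2, by positivity, fun k X σ y hk hX h1 h6 => ?_⟩
  have hb : (0 : ℝ) < |(k : ℝ)| * X := mul_pos (abs_pos.mpr (by exact_mod_cast hk)) hX
  have hre : ((σ : ℂ) + y * I).re = σ := by simp
  have him : ((σ : ℂ) + y * I).im = y := by simp
  have h2 := (h (σ + y * I)).2.1 (by rw [hre]; exact h1) (by rw [hre]; linarith)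
  rw [hre, him] at h2
  have e : Kz k X (σ + y * I) = (1 / 2) * (Gammaℝ (σ + y * I) * riemannZeta (2 * (σ + y * I))) *
      ((|(k : ℝ)| * X : ℝ) : ℂ) ^ (-((σ : ℂ) + y * I)) := by
    unfold Kz; ring
  rw [e, norm_mul, norm_mul, norm_cpow_eq_rpow_re_of_pos hb, neg_re, hre]
  have e2 : ‖(1 / 2 : ℂ)‖ = 1 / 2 := by simp
  rw [e2]
  calc _ ≤ 1 / 2 * (C * (1 + 1 / (σ - 1 / 2)) / br y ^ 2) * (|(k : ℝ)| * X) ^ (-σ) := by
        gcongr
    _ = _ := by ring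

theorem exc_K_int (hKZ : KZ) (hDEC : DEC) {k : ℤ} (hk : k ≠ 0) {X σ : ℝ} (hX : 0 < X)
    (h1 : 1 / 2 < σ) (h6 : σ ≤ 6) : Integrable fun y : ℝ => Kz k X (σ + y * I) := by
  obtain ⟨C, -, h⟩ := exc_K_le hKZ
  exact (hDEC.2.2.2.1.1.const_mul _).mono' (exc_K_cont hk hX h1).aestronglyMeasurable
    (Filter.Eventually.of_forall fun y => h k X σ y hk hX h1 h6)

theorem exc_KT_int (hKZ : KZ) (hDEC : DEC) (hTKB : TKB) {k : ℤ} (hk : k ≠ 0) {X σ : ℝ}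
    (hX : 0 < X) (h1 : 1 / 2 < σ) (h6 : σ ≤ 6) {l : ℕ} (hl : Odd l) {n : ℕ} (hn : Odd n) :
    Integrable (fun y : ℝ => Kz k X (σ + y * I) * Tk k (σ + y * I) (n * l)) ∧
      ∫ y : ℝ, ‖Kz k X (σ + y * I) * Tk k (σ + y * I) (n * l)‖ ≤
        (∫ y : ℝ, ‖Kz k X (σ + y * I)‖) * (l : ℝ) ^ 7 * (n : ℝ) ^ 7 := by
  have hre : ∀ y : ℝ, ((σ : ℂ) + y * I).re = σ := fun y => by simp
  have hb : ∀ y : ℝ, ‖Tk k (σ + y * I) (n * l)‖ ≤ (l : ℝ) ^ 7 * (n : ℝ) ^ 7 := fun y =>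
    exc_T_le hTKB k (by rw [hre]; linarith) (by rw [hre]; exact h6) hl n hn
  have hc : Continuous fun y : ℝ => Tk k (σ + y * I) (n * l) :=
    Continuous.comp (g := fun z => Tk k z (n * l)) (f := fun y : ℝ => (σ : ℂ) + y * I)
      (hTKB.2.2.1 k (n * l)) (by fun_prop)
  have hK := exc_K_int hKZ hDEC hk hX h1 h6
  have hi := hK.mul_bdd hc.aestronglyMeasurable (Filter.Eventually.of_forall hb)
  refine ⟨hi, ?_⟩
  rw [mul_assoc, ← integral_mul_const]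
  refine integral_mono hi.norm (hK.norm.mul_const _) fun y => ?_
  simp only [norm_mul]
  exact mul_le_mul_of_nonneg_left (hb y) (norm_nonneg _)

theorem exc_A_le (hKZ : KZ) (hDEC : DEC) (hTKB : TKB) {k : ℤ} (hk : k ≠ 0) {X σ : ℝ}
    (hX : 0 < X) (h1 : 1 / 2 < σ) (h6 : σ ≤ 6) {l : ℕ} (hl : Odd l) (n : ℕ) (hn : Odd n) :
    ‖(X : ℂ) * Ak k X σ (n * l)‖ ≤
      X * ((∫ y : ℝ, ‖Kz k X (σ + y * I)‖) * (l : ℝ) ^ 7) * (n : ℝ) ^ 7 := by
  have h := (exc_KT_int hKZ hDEC hTKB hk hX h1 h6 hl hn).2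
  have h2 : ‖Iv σ fun z => Kz k X z * Tk k z (n * l)‖ ≤ _ :=
    (norm_integral_le_integral_norm _).trans h
  have h3 : ‖(1 / (2 * π) : ℂ)‖ ≤ 1 := by
    rw [norm_div, norm_one, norm_mul, norm_real, Real.norm_eq_abs, abs_of_pos Real.pi_pos,
      Complex.norm_two, div_le_one (by positivity)]
    linarith [Real.pi_gt_three]
  rw [Ak, norm_mul, norm_mul, norm_real, Real.norm_eq_abs, abs_of_pos hX, mul_assoc]
  refine mul_le_mul_of_nonneg_left ?_ hX.le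
  exact (mul_le_of_le_one_left (norm_nonneg _) h3).trans h2

/-- One term of the dual sum as a series over `n`. -/
theorem exc_term (hE0 : E0) (hKZ : KZ) (hDEC : DEC) (hTKB : TKB) {w : ℂ → ℂ} (hw : LI w) {k : ℤ}
    (hk : k ≠ 0) {X σ : ℝ} (hX : 0 < X) (h1 : 1 / 2 < σ) (h6 : σ ≤ 6) {l : ℕ} (hl : Odd l) :
    (X : ℂ) * (1 / (2 * π) * Iv σ fun z => Kz k X z * J1 w l k z) =
      ∑' n, exc_a w n * ((X : ℂ) * Ak k X σ (n * l)) := by
  have hre : ∀ y : ℝ, ((σ : ℂ) + y * I).re = σ := fun y => by simp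
  have hi : ∀ n : ℕ, Integrable fun y : ℝ =>
      exc_a w n * (Kz k X (σ + y * I) * Tk k (σ + y * I) (n * l)) := by
    intro n
    by_cases hn : Odd n
    · exact (exc_KT_int hKZ hDEC hTKB hk hX h1 h6 hl hn).1.const_mul _
    · simp [exc_a_even hE0 w hn]
  have hs : Summable fun n : ℕ =>
      ∫ y : ℝ, ‖exc_a w n * (Kz k X (σ + y * I) * Tk k (σ + y * I) (n * l))‖ := by
    refine Summable.of_nonneg_of_le (fun n => integral_nonneg fun t => norm_nonneg _) (fun n => ?_)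
      ((exc_u hE0 hw).mul_right ((∫ y : ℝ, ‖Kz k X (σ + y * I)‖) * (l : ℝ) ^ 7))
    by_cases hn : Odd n
    · simp only [norm_mul (exc_a w n)]
      rw [integral_const_mul, mul_assoc, mul_comm ((n : ℝ) ^ 7)]
      exact mul_le_mul_of_nonneg_left (exc_KT_int hKZ hDEC hTKB hk hX h1 h6 hl hn).2
        (norm_nonneg _)
    · simp [exc_a_even hE0 w hn]
  have h := integral_tsum_of_summable_integral_norm hi hs
  have e : (Iv σ fun z => Kz k X z * J1 w l k z) =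
      ∑' n, exc_a w n * Iv σ fun z => Kz k X z * Tk k z (n * l) := by
    simp only [integral_const_mul] at h
    simp only [Iv]
    rw [h]
    refine integral_congr_ae (Filter.Eventually.of_forall fun y => ?_)
    simp only
    rw [exc_J hE0 hTKB hw k (by rw [hre]; linarith) (by rw [hre]; exact h6) hl, ← tsum_mul_left]
    exact tsum_congr fun n => by ring
  rw [e, ← tsum_mul_left, ← tsum_mul_left]
  exact tsum_congr fun n => by rw [Ak]; ring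

theorem exc_v (hKZ : KZ) (hDEC : DEC) {X K : ℝ} (hX : 0 < X) {σ : ℤ → ℝ}
    (hK : ∀ k : ℤ, K < |(k : ℝ)| → σ k = 6) :
    Summable fun k : SF => ∫ y : ℝ, ‖Kz k X (σ k + y * I)‖ := by
  obtain ⟨C, hC, h⟩ := exc_K_le hKZ
  have hg : Summable fun k : SF => (C * (1 + 1 / (6 - 1 / 2)) * X ^ (-6 : ℝ) * 2) *
      (1 / ((k : ℤ) : ℝ) ^ 6) :=
    ((Real.summable_one_div_int_pow.mpr (by norm_num : 1 < 6)).subtype _).mul_left _
  refine Summable.of_norm_bounded_eventually hg ?_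
  have hfin : {k : SF | ¬ K < |((k : ℤ) : ℝ)|}.Finite := by
    refine Set.Finite.subset
      ((Set.finite_Icc (-⌈K⌉) ⌈K⌉).preimage (f := fun k : SF => (k : ℤ))
        Subtype.val_injective.injOn) fun k hk => ?_
    have h1 : |((k : ℤ) : ℝ)| ≤ (⌈K⌉ : ℝ) := (not_lt.mp hk).trans (Int.le_ceil K)
    have h2 : |(k : ℤ)| ≤ ⌈K⌉ := by exact_mod_cast h1
    exact abs_le.mp h2
  refine Filter.mem_of_superset hfin.compl_mem_cofinite fun k hk => ?_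
  have hk1 : K < |((k : ℤ) : ℝ)| := not_not.mp hk
  have hk0 : (k : ℤ) ≠ 0 := k.2.ne_zero
  have hkp : (0 : ℝ) < |((k : ℤ) : ℝ)| := abs_pos.mpr (by exact_mod_cast hk0)
  show ‖∫ y : ℝ, ‖Kz k X (σ k + y * I)‖‖ ≤ _
  rw [hK k hk1, Real.norm_of_nonneg (integral_nonneg fun y => norm_nonneg _)]
  have hi := exc_K_int hKZ hDEC hk0 hX (σ := 6) (by norm_num) le_rfl
  have h1 := integral_mono hi.norm (hDEC.2.2.2.1.1.const_mul _)
    fun y => h k X 6 y hk0 hX (by norm_num) le_rfl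
  rw [integral_const_mul] at h1
  have e : (|((k : ℤ) : ℝ)| * X) ^ (-6 : ℝ) = 1 / ((k : ℤ) : ℝ) ^ 6 * X ^ (-6 : ℝ) := by
    rw [Real.mul_rpow hkp.le hX.le, Real.rpow_neg hkp.le, one_div]
    congr 2
    rw [show (6 : ℝ) = ((6 : ℕ) : ℝ) by norm_num, Real.rpow_natCast]
    exact Even.pow_abs (by norm_num) _
  refine h1.trans ?_
  rw [e]
  calc _ ≤ C * (1 + 1 / (6 - 1 / 2)) * (1 / ((k : ℤ) : ℝ) ^ 6 * X ^ (-6 : ℝ)) * 2 :=
        mul_le_mul_of_nonneg_left hDEC.2.2.2.1.2 (by positivity)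
    _ = _ := by ring

theorem pEXC (hP1 : P1) (hP2 : P2) (hE0 : E0) (hTKB : TKB) (hKZ : KZ) (hDEC : DEC) (hINT : INT) : EXC := by
  intro w X K l σ hw hX hl hσ hK
  have hb : ∀ (k : SF) (n : ℕ), ‖exc_a w n * ((X : ℂ) * Ak k X (σ k) (n * l))‖ ≤
      ‖exc_a w n‖ * (n : ℝ) ^ 7 * (X * ((∫ y : ℝ, ‖Kz k X (σ k + y * I)‖) * (l : ℝ) ^ 7)) :=
    fun k n => exc_ab_le hE0 w (b := fun n => (X : ℂ) * Ak k X (σ k) (n * l))
      (exc_A_le hKZ hDEC hTKB k.2.ne_zero hX (hσ k).1 (hσ k).2 hl) n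
  have hv : Summable fun k : SF => X * ((∫ y : ℝ, ‖Kz k X (σ k + y * I)‖) * (l : ℝ) ^ 7) :=
    ((exc_v hKZ hDEC hX hK).mul_right _).mul_left _
  have hp := Summable.mul_of_nonneg (exc_u hE0 hw) hv (fun n => by positivity)
    (fun k => mul_nonneg hX.le
      (mul_nonneg (integral_nonneg fun y => norm_nonneg _) (by positivity)))
  have hf : Summable fun x : ℕ × SF => exc_a w x.1 * ((X : ℂ) * Ak x.2 X (σ x.2) (x.1 * l)) :=
    Summable.of_norm_bounded hp fun x => hb x.2 x.1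
  have hrow : ∀ n : ℕ, HasSum (fun k : SF => exc_a w n * ((X : ℂ) * Ak k X (σ k) (n * l)))
      (exc_a w n * (Sg X (n * l) : ℂ) - X * (exc_a w n * Tk 1 0 (n * l))) := by
    intro n
    by_cases hn : Odd n
    · have h := (hP1 X (n * l) σ hX (hn.mul hl) hσ).mul_left (exc_a w n)
      have e : exc_a w n * (Sg X (n * l) : ℂ) - X * (exc_a w n * Tk 1 0 (n * l)) =
          exc_a w n * ((Sg X (n * l) - X * T0 (n * l) : ℝ) : ℂ) := by
        rw [hTKB.1 _ (hn.mul hl)]; push_cast; ring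
      rw [e]; exact h
    · simp [exc_a_even hE0 w hn, hasSum_zero]
  have s1 : Summable fun n => exc_a w n * (Sg X (n * l) : ℂ) :=
    exc_ab_sum hE0 hw (b := fun n => (Sg X (n * l) : ℂ)) (exc_S_le hP2 hTKB hX hl)
  have s2 : Summable fun n => exc_a w n * Tk 1 0 (n * l) :=
    exc_ab_sum hE0 hw (b := fun n => Tk 1 0 (n * l)) (exc_T_le hTKB 1 (by simp) (by simp) hl)
  have e1 : PsI w X l = ∑' n, exc_a w n * (Sg X (n * l) : ℂ) :=
    exc_swap hE0 hw (b := fun n => (Sg X (n * l) : ℂ)) (by positivity) (exc_S_le hP2 hTKB hX hl)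
  have e2 := exc_J hE0 hTKB hw 1 (z := 0) (by simp) (by simp) hl
  have tot := hf.hasSum.prod_fiberwise hrow
  have tot2 := s1.hasSum.sub (s2.hasSum.mul_left (X : ℂ))
  have e3 := tot2.unique tot
  rw [e1, e2, e3]
  have hsw := (Equiv.prodComm SF ℕ).hasSum_iff.mpr hf.hasSum
  refine hsw.prod_fiberwise fun k => ?_
  rw [exc_term hE0 hKZ hDEC hTKB hw k.2.ne_zero hX (hσ k).1 (hσ k).2 hl]
  exact (exc_ab_sum hE0 hw (b := fun n => (X : ℂ) * Ak k X (σ k) (n * l))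
    (exc_A_le hKZ hDEC hTKB k.2.ne_zero hX (hσ k).1 (hσ k).2 hl)).hasSum

end Pool.Agent.QM
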