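import Pool.Agent.P.MP_ea46f5_nt.QM.S1

namespace Pool.Agent.QM

open Complex MeasureTheory Finset
open scoped Real ComplexConjugate

theorem exl_ext0 {P : Finset ℕ} (x : P → ℤ) (p : P) : ext0 P x p = x p := by simp [ext0]

theorem exl_prod {K : Type} [CommSemiring K] (P : Finset ℕ) (μ g : ℕ → ℤ → K) :
    Ex P μ (fun x => ∏ p ∈ P, g p (x p)) = ∏ p ∈ P, ∑ y ∈ T3, μ p y * g p y := by
  unfold Ex
  rw [← prod_coe_sort P (fun p => ∑ y ∈ T3, μ p y * g p y), prod_univ_sum]
  refine sum_congr rfl fun x _ => ?_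
  beta_reduce
  rw [← prod_coe_sort P (fun p => g p (ext0 P x p)), ← prod_mul_distrib]
  exact prod_congr rfl fun p _ => by rw [exl_ext0]

theorem exl_mon {P : Finset ℕ} {l : ℕ} (h : l.primeFactors ⊆ P) (x : ℕ → ℤ) :
    mon x l = ∏ p ∈ P, x p ^ l.factorization p := by
  unfold mon
  refine prod_subset h fun p _ hp => ?_
  have : l.factorization p = 0 := by
    rwa [← Finsupp.notMem_support_iff, Nat.support_factorization]
  rw [this, pow_zero]

theorem exl_mul (x : ℕ → ℤ) {a b : ℕ} (ha : a ≠ 0) (hb : b ≠ 0) :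
    mon x (a * b) = mon x a * mon x b := by
  have h1 : a.primeFactors ⊆ (a * b).primeFactors := by
    rw [Nat.primeFactors_mul ha hb]; exact subset_union_left
  have h2 : b.primeFactors ⊆ (a * b).primeFactors := by
    rw [Nat.primeFactors_mul ha hb]; exact subset_union_right
  rw [exl_mon h1, exl_mon h2, ← prod_mul_distrib]
  unfold mon
  refine prod_congr rfl fun p _ => ?_
  rw [Nat.factorization_mul ha hb, Finsupp.add_apply, pow_add]

theorem exl_jv (m : ℤ) {l : ℕ} (hl : l ≠ 0) : mon (jv m) l = jacobiSym m l := by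
  induction l using induction_on_primes with
  | zero => exact absurd rfl hl
  | one => simp [mon]
  | prime_mul p a hp ih =>
    have ha : a ≠ 0 := fun h => hl (by rw [h, mul_zero])
    have : NeZero p := ⟨hp.ne_zero⟩
    have : NeZero a := ⟨ha⟩
    rw [exl_mul _ hp.ne_zero ha, ih ha, jacobiSym.mul_right]
    simp [mon, hp.primeFactors, hp.factorization_self, jv]

theorem pEXL : EXL := by
  refine ⟨fun P μ f => exl_prod P μ f, fun P μ f => exl_prod P μ f, fun P x l h => exl_mon h x,
    fun m l hl _ => exl_jv m hl, fun x a b ha hb => exl_mul x ha hb, fun P μ c R hR => ?_,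
    fun P ν R R' hν h => ?_⟩
  · unfold Ex
    rw [mul_sum]
    refine (norm_sum_le _ _).trans (le_of_eq (sum_congr rfl fun x _ => ?_))
    rw [norm_mul, norm_prod, Complex.norm_real, Real.norm_eq_abs, abs_of_nonneg (hR _),
      ← prod_coe_sort P (fun p => ‖c p‖), ← mul_assoc, ← prod_mul_distrib]
    congr 1
    exact prod_congr rfl fun p _ => by rw [norm_mul, mul_comm]
  · unfold Ex
    exact sum_le_sum fun x _ =>
      mul_le_mul_of_nonneg_left (h _) (prod_nonneg fun p _ => hν p p.2 _)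

theorem exl_union {A B : Finset ℕ} (hd : Disjoint A B) (ν : ℕ → ℤ → ℝ) (F G : (ℕ → ℤ) → ℝ)
    (hF : ∀ x x' : ℕ → ℤ, (∀ p ∈ A, x p = x' p) → F x = F x')
    (hG : ∀ x x' : ℕ → ℤ, (∀ p ∈ B, x p = x' p) → G x = G x') :
    Ex (A ∪ B) ν (fun x => F x * G x) = Ex A ν F * Ex B ν G := by
  unfold Ex
  rw [sum_mul_sum, ← sum_product']
  refine sum_nbij'
    (fun x => ((fun p : A => ext0 (A ∪ B) x p), (fun p : B => ext0 (A ∪ B) x p)))
    (fun ab => fun p : ↥(A ∪ B) => if (p : ℕ) ∈ A then ext0 A ab.1 p else ext0 B ab.2 p)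
    (fun x hx => ?_) (fun ab hab => ?_) (fun x _ => ?_) (fun ab _ => ?_) (fun x _ => ?_)
  · have hx' := Fintype.mem_piFinset.1 hx
    refine mem_product.2 ⟨Fintype.mem_piFinset.2 fun p => ?_, Fintype.mem_piFinset.2 fun p => ?_⟩
    · have := exl_ext0 x ⟨p, mem_union_left _ p.2⟩
      simpa only [this] using hx' _
    · have := exl_ext0 x ⟨p, mem_union_right _ p.2⟩
      simpa only [this] using hx' _
  · obtain ⟨ha, hb⟩ := mem_product.1 hab
    refine Fintype.mem_piFinset.2 fun p => ?_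
    by_cases h : (p : ℕ) ∈ A
    · have := exl_ext0 ab.1 ⟨p, h⟩
      simpa only [if_pos h, this] using Fintype.mem_piFinset.1 ha _
    · have h' : (p : ℕ) ∈ B := (mem_union.1 p.2).resolve_left h
      have := exl_ext0 ab.2 ⟨p, h'⟩
      simpa only [if_neg h, this] using Fintype.mem_piFinset.1 hb _
  · funext p
    by_cases h : (p : ℕ) ∈ A
    · simp [ext0, h]
    · have h' : (p : ℕ) ∈ B := (mem_union.1 p.2).resolve_left h
      simp [ext0, h, h']
  · refine Prod.ext (funext fun p => ?_) (funext fun p => ?_)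
    · simp [ext0]
    · have h : (p : ℕ) ∉ A := disjoint_right.1 hd p.2
      simp [ext0, h]
  · have e1 : ∏ p : ↥(A ∪ B), ν p (x p) = (∏ p : A, ν p (ext0 (A ∪ B) x p)) *
        ∏ p : B, ν p (ext0 (A ∪ B) x p) := by
      rw [prod_coe_sort A (fun p => ν p (ext0 (A ∪ B) x p)),
        prod_coe_sort B (fun p => ν p (ext0 (A ∪ B) x p)), ← prod_union hd,
        ← prod_coe_sort (A ∪ B) (fun p => ν p (ext0 (A ∪ B) x p))]
      exact prod_congr rfl fun p _ => by rw [exl_ext0]
    have e2 := hF (ext0 (A ∪ B) x) (ext0 A fun p : A => ext0 (A ∪ B) x p) fun p hp => by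
      simp [ext0, hp]
    have e3 := hG (ext0 (A ∪ B) x) (ext0 B fun p : B => ext0 (A ∪ B) x p) fun p hp => by
      simp [ext0, hp]
    beta_reduce
    rw [e1, e2, e3]
    ring

theorem exl_Pb {S : Finset ℕ} {x x' : ℕ → ℤ} (h : ∀ p ∈ S, x p = x' p) : Pb S x = Pb S x' :=
  sum_congr rfl fun p hp => by rw [h p hp]

theorem pEXF : EXF := by
  intro S Bl ν f
  induction S using Finset.induction_on with
  | empty =>
    intro _
    simpa using exl_prod (∅ : Finset ℕ) ν (fun _ _ => 1)
  | insert a S ha ih =>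
    intro hd
    have hd' : Disjoint (Bl a) (S.biUnion Bl) := by
      rw [disjoint_biUnion_right]
      exact fun i hi => hd a (mem_insert_self _ _) i (mem_insert_of_mem hi)
        (fun h => ha (h ▸ hi))
    simp only [prod_insert ha, biUnion_insert]
    rw [exl_union hd' ν (fun x => f a (Pb (Bl a) x)) (fun x => ∏ i ∈ S, f i (Pb (Bl i) x))
      (fun x x' h => by rw [exl_Pb h])
      (fun x x' h => prod_congr rfl fun i hi => by
        rw [exl_Pb fun p hp => h p (mem_biUnion.2 ⟨i, hi, hp⟩)]),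
      ih fun i hi j hj => hd i (mem_insert_of_mem hi) j (mem_insert_of_mem hj)]

end Pool.Agent.QM
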