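import Pool.Agent.P.MP_ea46f5_nt.QM.S2

namespace Pool.Agent.QM

open Complex MeasureTheory Finset
open scoped Real ComplexConjugate

lemma fw_open : IsOpen {s : ℂ | 0 < s.re} := isOpen_lt continuous_const Complex.continuous_re

lemma fw_pow_le (b : ℝ) (hb : 1 ≤ b) (s : ℂ) (hs : 0 ≤ s.re) : ‖(b : ℂ) ^ (-s)‖ ≤ 1 := by
  rw [Complex.norm_cpow_eq_rpow_re_of_pos (by linarith)]
  apply Real.rpow_le_one_of_one_le_of_nonpos hb
  simpa using hs

lemma fw_diff (w : ℂ → ℂ) (ε N t₀ W : ℝ) (h : Far w ε N t₀ W) :
    DifferentiableOn ℂ w {s | 0 < s.re} := by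
  obtain ⟨⟨g, hg, hw⟩, -⟩ := h
  have h1 : DifferentiableOn ℂ (fun s : ℂ => (s - 1 / 2) ^ 2 * g s) {s | 0 < s.re} :=
    DifferentiableOn.mul (by fun_prop) hg
  exact h1.congr (fun s hs => hw s hs)

theorem pFW (hDEC : DEC) : FW := by
  refine ⟨?_, ?_, ?_, ?_, ?_⟩
  · rintro w ε N t₀ W ⟨⟨g, hg, hw⟩, hb⟩
    refine ⟨⟨fun s => conj (g (conj s)), ?_, ?_⟩, ?_⟩
    · intro s hs
      have hs' : (conj s) ∈ {s : ℂ | 0 < s.re} := by simpa using hs
      have h1 : DifferentiableAt ℂ g (conj s) := hg.differentiableAt (fw_open.mem_nhds hs')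
      have h2 := h1.conj_conj
      rw [Complex.conj_conj] at h2
      exact h2.differentiableWithinAt
    · intro s hs
      have hs' : 0 < (conj s).re := by simpa using hs
      unfold wt
      rw [hw _ hs']
      simp [map_ofNat]
    · intro s h1 h2
      have h3 := hb (conj s) (by simpa using h1) (by simpa using h2)
      unfold wt
      rw [Complex.norm_conj]
      have e : |s.im - -t₀| = |(conj s).im - t₀| := by
        rw [Complex.conj_im, ← abs_neg]
        congr 1
        ring
      rw [e]
      simpa using h3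
  · intro w ε N t₀ W hε hε1 h
    have hd := fw_diff w ε N t₀ W h
    refine ⟨hd, ?_, ?_⟩
    · unfold LI
      have hc : Continuous fun t : ℝ => w (12 + t * I) := by
        refine hd.continuousOn.comp_continuous (by fun_prop) ?_
        intro t
        simp
      refine Integrable.mono' (((hDEC.2.2.1 t₀).1).const_mul |W * N ^ (12 : ℝ)|)
        hc.aestronglyMeasurable (Filter.Eventually.of_forall fun t => ?_)
      have h1 := h.2 (12 + t * I) (by simp; linarith) (by simp; norm_num)
      have e1 : ((12 : ℂ) + t * I).re = 12 := by simp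
      have e2 : ((12 : ℂ) + t * I).im = t := by simp
      rw [e1, e2] at h1
      refine h1.trans ?_
      have h2 : Real.exp (-|t - t₀|) ≤ Real.exp (-|t - t₀| / 2) := by
        apply Real.exp_le_exp.2
        have := abs_nonneg (t - t₀)
        linarith
      exact mul_le_mul (le_abs_self _) h2 (Real.exp_pos _).le (abs_nonneg _)
    · intro hN
      have h1 := h.2 1 (by simp; linarith) (by simp)
      have h2 : 0 < N ^ (1 : ℂ).re * Real.exp (-|(1 : ℂ).im - t₀|) :=
        mul_pos (Real.rpow_pos_of_pos hN _) (Real.exp_pos _)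
      have h3 : 0 ≤ W * (N ^ (1 : ℂ).re * Real.exp (-|(1 : ℂ).im - t₀|)) := by
        rw [← mul_assoc]
        exact (norm_nonneg _).trans h1
      exact nonneg_of_mul_nonneg_left h3 h2
  · intro w ε lam t₀ W α C₀ h s t hs
    have e0 : ((ε : ℂ) + ((-t : ℝ) : ℂ) * I) = conj ((ε : ℂ) + t * I) := by
      simp
    have h1 := h (conj s) (-t) (by rw [e0, ← map_sub, Complex.norm_conj]; exact hs)
    rw [e0, Complex.norm_conj, abs_neg] at h1
    have e1 : |-t - t₀| = |t + t₀| := by
      rw [← abs_neg]
      congr 1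
      ring
    have e2 : |-t + t₀| = |t - t₀| := by
      rw [← abs_neg]
      congr 1
      ring
    rw [e1, e2, add_comm (Real.exp _)] at h1
    unfold wt
    rw [Complex.norm_conj]
    exact h1
  · rintro w ε N t₀ W b hε hb ⟨⟨g, hg, hw⟩, hf⟩
    have hb0 : (b : ℂ) ≠ 0 := by
      rw [Complex.ofReal_ne_zero]
      linarith
    refine ⟨⟨fun s => g s * (b : ℂ) ^ (-s), ?_, ?_⟩, ?_⟩
    · refine hg.mul ?_
      exact (differentiable_neg.const_cpow (Or.inl hb0)).differentiableOn
    · intro s hs
      simp only [hw s hs]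
      ring
    · intro s h1 h2
      refine le_trans ?_ (hf s h1 h2)
      rw [norm_mul]
      exact mul_le_of_le_one_right (norm_nonneg _) (fw_pow_le b hb s (by linarith))
  · intro w ε lam t₀ W b α C₀ hε hb h s t hs
    refine le_trans ?_ (h s t hs)
    rw [norm_mul]
    refine mul_le_of_le_one_right (norm_nonneg _) (fw_pow_le b hb s ?_)
    have h1 := (Complex.abs_re_le_norm (s - (ε + t * I))).trans hs
    have e : (s - (ε + t * I)).re = s.re - ε := by simp
    rw [e, abs_le] at h1
    linarith [h1.1]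

theorem pTW0 : TW0 := by
  intro B
  refine ⟨?_, ?_, le_rfl, fun _ => zero_le_one, ?_, ?_, zero_le_one⟩
  · intro p hp
    simp at hp
  · intro p hp
    simp at hp
  · refine ⟨Unit, inferInstance, fun _ => 1, fun _ => 1, ?_, ?_, ?_⟩
    · intro i
      simp
    · intro x
      simp [mon]
    · simp
  · intro ν η _ _ _
    simp [Ex, sg]

end Pool.Agent.QM
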