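import Mathlib

/-!
Crude two-sided bounds for the Gamma function on vertical strips.
-/

namespace Pool.Agent.QM.Gm

open Complex MeasureTheory Set
open scoped Real

theorem norm_sin_le_exp (z : ℂ) : ‖Complex.sin z‖ ≤ Real.exp |z.im| := by
  have h1 : ‖cexp (-z * I)‖ ≤ Real.exp |z.im| := by
    rw [Complex.norm_exp]; apply Real.exp_le_exp.2; simpa using le_abs_self _
  have h2 : ‖cexp (z * I)‖ ≤ Real.exp |z.im| := by
    rw [Complex.norm_exp]; apply Real.exp_le_exp.2; simpa using neg_le_abs _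
  have h3 := norm_sub_le (cexp (-z * I)) (cexp (z * I))
  rw [Complex.sin, norm_div, norm_mul, norm_I, Complex.norm_two]
  linarith

theorem gam_half (τ : ℝ) : ‖Gamma (1 / 2 + τ * I)‖ ≤ 3 * Real.exp (-π * |τ| / 2) := by
  have h := Complex.Gamma_mul_Gamma_one_sub (1 / 2 + τ * I)
  have hc : (1 - (1 / 2 + τ * I) : ℂ) = (starRingEnd ℂ) (1 / 2 + τ * I) := by
    apply Complex.ext <;> (simp; try norm_num)
  have hs : Complex.sin (π * (1 / 2 + τ * I)) = (Real.cosh (π * τ) : ℝ) := by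
    have : (π * (1 / 2 + τ * I) : ℂ) = ((π * τ : ℝ) : ℂ) * I + π / 2 := by push_cast; ring
    rw [this, Complex.sin_add_pi_div_two, Complex.cos_mul_I, ofReal_cosh]
  rw [hc, Complex.Gamma_conj, hs] at h
  have h2 := congrArg norm h
  rw [norm_mul, Complex.norm_conj, norm_div, Complex.norm_real, Complex.norm_real,
    Real.norm_of_nonneg Real.pi_pos.le, Real.norm_of_nonneg (Real.cosh_pos _).le] at h2
  have hE : Real.exp (π * |τ|) / 2 ≤ Real.cosh (π * τ) := by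
    rw [← Real.cosh_abs, abs_mul, abs_of_pos Real.pi_pos, Real.cosh_eq]
    have := Real.exp_pos (-(π * |τ|))
    linarith
  apply abs_le_of_sq_le_sq' _ (by positivity) |>.2
  rw [sq, h2, mul_pow, ← Real.exp_nat_mul, div_le_iff₀ (Real.cosh_pos _)]
  have h3 : Real.exp (((2 : ℕ) : ℝ) * (-π * |τ| / 2)) * Real.exp (π * |τ|) = 1 := by
    rw [← Real.exp_add]; push_cast; ring_nf; simp
  have h4 := Real.exp_pos (((2 : ℕ) : ℝ) * (-π * |τ| / 2))
  have h5 := Real.pi_le_four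
  nlinarith [mul_le_mul_of_nonneg_left hE h4.le]

theorem gam_line (n : ℕ) (τ : ℝ) : ‖Gamma (1 / 2 + n + τ * I)‖ ≤
    3 * n.factorial * (1 + |τ|) ^ n * Real.exp (-π * |τ| / 2) := by
  induction n with
  | zero => simpa using gam_half τ
  | succ n ih =>
    have hne : (1 / 2 + n + τ * I : ℂ) ≠ 0 := by
      intro h
      have := congrArg re h
      simp at this
      have : (0 : ℝ) ≤ n := Nat.cast_nonneg n
      linarith
    have e : (1 / 2 + ((n + 1 : ℕ) : ℂ) + τ * I : ℂ) = (1 / 2 + n + τ * I) + 1 := by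
      push_cast; ring
    have hn : ‖(1 / 2 + n + τ * I : ℂ)‖ ≤ (n + 1) * (1 + |τ|) := by
      refine (Complex.norm_le_abs_re_add_abs_im _).trans ?_
      have h0 : (0 : ℝ) ≤ n := Nat.cast_nonneg n
      have h1 : (1 / 2 + n + τ * I : ℂ).re = 1 / 2 + n := by simp
      have h2 : (1 / 2 + n + τ * I : ℂ).im = τ := by simp
      rw [h1, h2, abs_of_nonneg (by linarith)]
      nlinarith [abs_nonneg τ]
    rw [e, Complex.Gamma_add_one _ hne, norm_mul, Nat.factorial_succ]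
    refine (mul_le_mul hn ih (norm_nonneg _) (by positivity)).trans (le_of_eq ?_)
    push_cast; ring

theorem norm_beta_le {z : ℂ} {b : ℝ} (hz : 1 / 8 ≤ z.re) (hb : 1 ≤ b) :
    ‖betaIntegral z b‖ ≤ 8 := by
  have hI : IntervalIntegrable (fun x : ℝ => x ^ (-(7 / 8) : ℝ)) volume 0 1 :=
    intervalIntegral.intervalIntegrable_rpow' (by norm_num)
  have h8 : ∫ x in (0 : ℝ)..1, x ^ (-(7 / 8) : ℝ) = 8 := by
    rw [integral_rpow (Or.inl (by norm_num))]
    norm_num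
  rw [betaIntegral, ← h8]
  refine intervalIntegral.norm_integral_le_of_norm_le zero_le_one ?_ hI
  refine Filter.Eventually.of_forall fun x hx => ?_
  have hx0 : 0 < x := hx.1
  have hx1 : 0 ≤ 1 - x := sub_nonneg.2 hx.2
  rw [norm_mul, Complex.norm_cpow_eq_rpow_re_of_pos hx0]
  have h1 : x ^ (z - 1).re ≤ x ^ (-(7 / 8) : ℝ) :=
    Real.rpow_le_rpow_of_exponent_ge hx0 hx.2 (by simp; linarith)
  have h2 : ‖(1 - (x : ℂ)) ^ ((b : ℂ) - 1)‖ ≤ 1 := by
    have e1 : (1 - (x : ℂ)) = ((1 - x : ℝ) : ℂ) := by push_cast; ring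
    have e2 : ((b : ℂ) - 1) = ((b - 1 : ℝ) : ℂ) := by push_cast; ring
    rw [e1, e2, ← ofReal_cpow hx1, Complex.norm_real, Real.norm_of_nonneg (by positivity)]
    exact Real.rpow_le_one hx1 (by linarith) (by linarith)
  calc _ ≤ x ^ (-(7 / 8) : ℝ) * 1 := mul_le_mul h1 h2 (norm_nonneg _) (by positivity)
    _ = _ := mul_one _

/-- Upper bound on the strip `1/8 ≤ Re z ≤ N`. -/
theorem gam_upper (N : ℕ) {z : ℂ} (h0 : 1 / 8 ≤ z.re) (h1 : z.re ≤ N) :
    ‖Gamma z‖ ≤ 24 * (N + 2).factorial * (1 + |z.im|) ^ (N + 2) * Real.exp (-π * |z.im| / 2) := by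
  set b : ℝ := 1 / 2 + (N + 2 : ℕ) - z.re with hb
  have hb2 : 2 ≤ b := by rw [hb]; push_cast; linarith
  have h := Complex.Gamma_mul_Gamma_eq_betaIntegral (s := z) (t := b) (by linarith)
    (by simp only [ofReal_re]; linarith)
  have e : z + b = 1 / 2 + ((N + 2 : ℕ) : ℂ) + z.im * I := by
    apply Complex.ext <;> simp [hb]
  have hG : 1 ≤ Real.Gamma b := by
    rw [← Real.Gamma_two]
    exact Real.Gamma_strictMonoOn_Ici.monotoneOn (by simp) hb2 hb2
  have h2 := congrArg norm h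
  rw [norm_mul, norm_mul, e, Complex.Gamma_ofReal, Complex.norm_real,
    Real.norm_of_nonneg (by linarith)] at h2
  have h3 := mul_le_mul (gam_line (N + 2) z.im) (norm_beta_le (b := b) h0 (by linarith))
    (norm_nonneg _) (by positivity)
  rw [← h2] at h3
  nlinarith [norm_nonneg (Gamma z)]

/-- Lower bound on the strip `1/8 ≤ Re z ≤ 7/8`. -/
theorem gam_lower {z : ℂ} (h0 : 1 / 8 ≤ z.re) (h1 : z.re ≤ 7 / 8) :
    Real.exp (-π * |z.im| / 2) ≤ 48 * (1 + |z.im|) ^ 3 * ‖Gamma z‖ := by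
  have h := Complex.Gamma_mul_Gamma_one_sub z
  have hz : Gamma z ≠ 0 := Complex.Gamma_ne_zero_of_re_pos (by linarith)
  have hz' : Gamma (1 - z) ≠ 0 := Complex.Gamma_ne_zero_of_re_pos (by simp; linarith)
  have hs : Complex.sin (π * z) ≠ 0 := by
    intro h0; rw [h0, div_zero] at h; exact mul_ne_zero hz hz' h
  have h2 := congrArg norm h
  rw [norm_mul, norm_div, Complex.norm_real, Real.norm_of_nonneg Real.pi_pos.le,
    eq_div_iff (norm_ne_zero_iff.2 hs)] at h2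
  have h3 := gam_upper 1 (z := 1 - z) (by simp; linarith) (by simp; linarith)
  have h4 := norm_sin_le_exp (π * z)
  have e1 : |(1 - z).im| = |z.im| := by simp
  have e2 : |(π * z).im| = π * |z.im| := by
    rw [im_ofReal_mul, abs_mul, abs_of_pos Real.pi_pos]
  rw [e1] at h3
  rw [e2] at h4
  set E := Real.exp (-π * |z.im| / 2) with hE
  have hE0 : 0 < E := Real.exp_pos _
  have h5 : E * E * Real.exp (π * |z.im|) = 1 := by
    rw [hE, ← Real.exp_add, ← Real.exp_add]; ring_nf; simp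
  have h6 := mul_le_mul (mul_le_mul_of_nonneg_left h3 (norm_nonneg (Gamma z))) h4
    (norm_nonneg _) (by positivity)
  rw [h2] at h6
  have h7 := mul_le_mul_of_nonneg_left h6 hE0.le
  have h8 : E * (‖Gamma z‖ * (24 * ((1 + 2).factorial : ℕ) * (1 + |z.im|) ^ (1 + 2) * E) *
      Real.exp (π * |z.im|)) = 144 * (1 + |z.im|) ^ 3 * ‖Gamma z‖ := by
    have : ((1 + 2).factorial : ℕ) = 6 := by decide
    rw [this]; push_cast
    linear_combination (144 * (1 + |z.im|) ^ 3 * ‖Gamma z‖) * h5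
  rw [h8] at h7
  nlinarith [Real.pi_gt_three]

theorem norm_GammaR (w : ℂ) : ‖Gammaℝ w‖ = π ^ (-w.re / 2) * ‖Gamma (w / 2)‖ := by
  rw [Complex.Gammaℝ_def, norm_mul, Complex.norm_cpow_eq_rpow_re_of_pos Real.pi_pos]
  simp

theorem pi_rpow_le_one {x : ℝ} (hx : 0 ≤ x) : π ^ (-x / 2) ≤ 1 :=
  Real.rpow_le_one_of_one_le_of_nonpos (by linarith [Real.pi_gt_three]) (by linarith)

/-- Upper bound for the real Gamma factor on `1/4 ≤ Re w ≤ 2N`. -/
theorem gamR_upper (N : ℕ) {w : ℂ} (h0 : 1 / 4 ≤ w.re) (h1 : w.re ≤ 2 * N) :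
    ‖Gammaℝ w‖ ≤
      24 * (N + 2).factorial * (1 + |w.im|) ^ (N + 2) * Real.exp (-π * |w.im| / 4) := by
  have h := gam_upper N (z := w / 2) (by simp; linarith) (by simp; linarith)
  have e : |(w / 2).im| = |w.im| / 2 := by simp [abs_div]
  rw [e] at h
  rw [norm_GammaR]
  have h2 : (1 + |w.im| / 2) ^ (N + 2) ≤ (1 + |w.im|) ^ (N + 2) :=
    pow_le_pow_left₀ (by positivity) (by linarith [abs_nonneg w.im]) _
  have e2 : -π * (|w.im| / 2) / 2 = -π * |w.im| / 4 := by ring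
  rw [e2] at h
  calc _ ≤ 1 * ‖Gamma (w / 2)‖ :=
        mul_le_mul_of_nonneg_right (pi_rpow_le_one (by linarith)) (norm_nonneg _)
    _ ≤ _ := by rw [one_mul]; exact h.trans (by gcongr)

/-- Lower bound for the real Gamma factor on `1/4 ≤ Re w ≤ 7/4`. -/
theorem gamR_lower {w : ℂ} (h0 : 1 / 4 ≤ w.re) (h1 : w.re ≤ 7 / 4) :
    Real.exp (-π * |w.im| / 4) ≤ 192 * (1 + |w.im|) ^ 3 * ‖Gammaℝ w‖ := by
  have h := gam_lower (z := w / 2) (by simp; linarith) (by simp; linarith)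
  have e : |(w / 2).im| = |w.im| / 2 := by simp [abs_div]
  have e2 : -π * (|w.im| / 2) / 2 = -π * |w.im| / 4 := by ring
  rw [e, e2] at h
  have h2 : (1 + |w.im| / 2) ^ 3 ≤ (1 + |w.im|) ^ 3 :=
    pow_le_pow_left₀ (by positivity) (by linarith [abs_nonneg w.im]) _
  have h3 : 1 / 4 ≤ π ^ (-w.re / 2) := by
    have h4 : π ^ (-1 : ℝ) ≤ π ^ (-w.re / 2) :=
      Real.rpow_le_rpow_of_exponent_le (by linarith [Real.pi_gt_three]) (by linarith)
    rw [Real.rpow_neg_one] at h4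
    refine le_trans ?_ h4
    rw [one_div]
    exact inv_anti₀ Real.pi_pos Real.pi_le_four
  rw [norm_GammaR]
  have h5 : ‖Gamma (w / 2)‖ ≤ 4 * (π ^ (-w.re / 2) * ‖Gamma (w / 2)‖) := by
    nlinarith [norm_nonneg (Gamma (w / 2))]
  calc _ ≤ _ := h
    _ ≤ 48 * (1 + |w.im|) ^ 3 * (4 * (π ^ (-w.re / 2) * ‖Gamma (w / 2)‖)) := by gcongr
    _ = _ := by ring

theorem pow_mul_exp_le (n : ℕ) {c x : ℝ} (hc : 0 < c) (hc1 : c ≤ 1) (hx : 0 ≤ x) :
    (1 + x) ^ n * Real.exp (-(c * x)) ≤ 3 * n.factorial / c ^ n := by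
  have h := Real.pow_div_factorial_le_exp (c * (1 + x)) (by positivity) n
  have hf : (0 : ℝ) < n.factorial := by exact_mod_cast n.factorial_pos
  rw [div_le_iff₀ hf, mul_pow] at h
  have e : Real.exp (c * (1 + x)) * Real.exp (-(c * x)) = Real.exp c := by
    rw [← Real.exp_add]; congr 1; ring
  have h3 : Real.exp c ≤ 3 := (Real.exp_le_exp.2 hc1).trans Real.exp_one_lt_three.le
  rw [le_div_iff₀ (by positivity)]
  have h4 := mul_le_mul_of_nonneg_right h (Real.exp_pos (-(c * x))).le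
  calc _ = c ^ n * (1 + x) ^ n * Real.exp (-(c * x)) := by ring
    _ ≤ _ := h4
    _ = Real.exp c * n.factorial := by rw [← e]; ring
    _ ≤ _ := by gcongr

/-- Exponential form of Gamma1, on `0 < Re z ≤ 2N`. -/
theorem gamma1_exp (N : ℕ) : ∃ C : ℝ, 0 < C ∧ ∀ z : ℂ, 0 < z.re → z.re ≤ 2 * N →
    ‖Gammaℝ z‖ ≤ C / ‖z‖ * Real.exp (-|z.im| / 2) := by
  refine ⟨8 * (24 * (N + 1 + 2).factorial * (3 * (N + 1 + 2).factorial / (1 / 4) ^ (N + 1 + 2))),
    by positivity, fun z h0 h1 => ?_⟩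
  have hz : z ≠ 0 := fun h => by simp [h] at h0
  have hn : 0 < ‖z‖ := norm_pos_iff.2 hz
  have h := gamR_upper (N + 1) (w := z + 2) (by simp; linarith) (by simp; linarith)
  have e : (z + 2).im = z.im := by simp
  rw [e, Complex.Gammaℝ_add_two hz, norm_div, norm_div, norm_mul, Complex.norm_two,
    Complex.norm_real, Real.norm_of_nonneg Real.pi_pos.le] at h
  have h2 := pow_mul_exp_le (N + 1 + 2) (c := 1 / 4) (x := |z.im|) (by norm_num) (by norm_num)
    (abs_nonneg _)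
  have h3 : Real.exp (-π * |z.im| / 4) ≤
      Real.exp (-(1 / 4 * |z.im|)) * Real.exp (-|z.im| / 2) := by
    rw [← Real.exp_add]
    apply Real.exp_le_exp.2
    nlinarith [Real.pi_gt_three, abs_nonneg z.im]
  have h4 : (1 + |z.im|) ^ (N + 1 + 2) * Real.exp (-π * |z.im| / 4) ≤
      (3 * (N + 1 + 2).factorial / (1 / 4) ^ (N + 1 + 2)) * Real.exp (-|z.im| / 2) := by
    calc _ ≤ (1 + |z.im|) ^ (N + 1 + 2) *
          (Real.exp (-(1 / 4 * |z.im|)) * Real.exp (-|z.im| / 2)) := by gcongr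
      _ = _ := (mul_assoc _ _ _).symm
      _ ≤ _ := by gcongr
  have h5 : ‖Gammaℝ z‖ * ‖z‖ ≤ 8 * (‖Gammaℝ z‖ * ‖z‖ / 2 / π) := by
    have hp := Real.pi_pos
    have : 8 * (‖Gammaℝ z‖ * ‖z‖ / 2 / π) = ‖Gammaℝ z‖ * ‖z‖ * (4 / π) := by ring
    rw [this]
    refine le_mul_of_one_le_right (by positivity) ?_
    rw [le_div_iff₀ hp]; linarith [Real.pi_le_four]
  rw [div_mul_eq_mul_div, le_div_iff₀ hn]
  refine h5.trans ?_
  rw [mul_assoc 8]
  refine mul_le_mul_of_nonneg_left (h.trans ?_) (by norm_num)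
  rw [mul_assoc (24 * _ : ℝ), mul_assoc (24 * _ : ℝ)]
  exact mul_le_mul_of_nonneg_left h4 (by positivity)

/-- Gamma1 of the paper. -/
theorem gamma1 (n : ℕ) : ∃ C : ℝ, 0 < C ∧ ∀ z : ℂ, 0 < z.re → z.re ≤ 7 →
    ‖Gammaℝ z‖ ≤ C / ‖z‖ / (1 + |z.im|) ^ n := by
  obtain ⟨C, hC, h⟩ := gamma1_exp 4
  refine ⟨C * (3 * n.factorial / (1 / 2) ^ n), by positivity, fun z h0 h1 => ?_⟩
  refine (h z h0 (by push_cast; linarith)).trans ?_
  have h2 := pow_mul_exp_le n (c := 1 / 2) (x := |z.im|) (by norm_num) (by norm_num)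
    (abs_nonneg _)
  have e : -|z.im| / 2 = -(1 / 2 * |z.im|) := by ring
  rw [le_div_iff₀ (by positivity), e, mul_assoc, mul_comm (Real.exp _), mul_div_right_comm]
  exact mul_le_mul_of_nonneg_left h2 (by positivity)

/-- Gamma2 for a base point `w` with `1/2 ≤ Re w ≤ 3/2`. -/
theorem gamma2_base : ∃ C : ℝ, 0 < C ∧ ∀ w s : ℂ, 1 / 2 ≤ w.re → w.re ≤ 3 / 2 →
    -1 / 4 ≤ s.re → s.re ≤ 13 →
    ‖Gammaℝ (w + s)‖ ≤
      C * (1 + |w.im|) ^ 13 * (1 + |s.im|) ^ 13 * Real.exp |s.im| * ‖Gammaℝ w‖ := by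
  refine ⟨24 * (8 + 2).factorial * 192, by positivity, fun w s h0 h1 h2 h3 => ?_⟩
  have hu := gamR_upper 8 (w := w + s) (by simp; linarith) (by simp; linarith)
  have hl := gamR_lower (w := w) (by linarith) (by linarith)
  have ht := abs_nonneg w.im
  have hy := abs_nonneg s.im
  have e : (w + s).im = w.im + s.im := by simp
  rw [e] at hu
  have h4 : 1 + |w.im + s.im| ≤ (1 + |w.im|) * (1 + |s.im|) := by
    nlinarith [abs_add_le w.im s.im, mul_nonneg ht hy]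
  have h5 : Real.exp (-π * |w.im + s.im| / 4) ≤
      Real.exp |s.im| * Real.exp (-π * |w.im| / 4) := by
    rw [← Real.exp_add]
    apply Real.exp_le_exp.2
    have : |w.im| ≤ |w.im + s.im| + |s.im| := by
      simpa using abs_sub (w.im + s.im) s.im
    nlinarith [Real.pi_pos, Real.pi_le_four]
  have h6 : (1 + |s.im|) ^ 10 ≤ (1 + |s.im|) ^ 13 :=
    pow_le_pow_right₀ (by linarith) (by norm_num)
  calc _ ≤ _ := hu
    _ ≤ 24 * (8 + 2).factorial * ((1 + |w.im|) * (1 + |s.im|)) ^ (8 + 2) *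
          (Real.exp |s.im| * (192 * (1 + |w.im|) ^ 3 * ‖Gammaℝ w‖)) := by
        gcongr
        exact h5.trans (by gcongr)
    _ = 24 * (8 + 2).factorial * 192 * (1 + |w.im|) ^ 13 * (1 + |s.im|) ^ 10 *
          Real.exp |s.im| * ‖Gammaℝ w‖ := by ring
    _ ≤ _ := by gcongr

/-- Gamma2 of the paper, with `h = 13`. -/
theorem gamma2 : ∃ C : ℝ, 0 < C ∧ ∀ (a : ℕ) (t : ℝ) (s : ℂ), a ≤ 1 →
    -1 / 4 ≤ s.re → s.re ≤ 13 →
    ‖Gammaℝ (1 / 2 + a + t * I + s)‖ ≤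
      C * (1 + |t|) ^ 13 * (1 + |s.im|) ^ 13 * Real.exp |s.im| * ‖Gammaℝ (1 / 2 + a + t * I)‖ := by
  obtain ⟨C, hC, h⟩ := gamma2_base
  refine ⟨C, hC, fun a t s ha h2 h3 => ?_⟩
  have h0 : (0 : ℝ) ≤ a := Nat.cast_nonneg a
  have h1 : (a : ℝ) ≤ 1 := by exact_mod_cast ha
  have e1 : (1 / 2 + a + t * I : ℂ).re = 1 / 2 + a := by simp
  have e2 : (1 / 2 + a + t * I : ℂ).im = t := by simp
  have := h (1 / 2 + a + t * I) s (by rw [e1]; linarith) (by rw [e1]; linarith) h2 h3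
  rwa [e2] at this

end Pool.Agent.QM.Gm
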