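import Pool.Agent.P.MP_ea46f5_nt.QM.S1
import Pool.Agent.P.MP_ea46f5_nt.QM.Gam

namespace Pool.Agent.QM

open Complex MeasureTheory Finset
open scoped Real ComplexConjugate

theorem pGAM1 : GAM1 := by
  intro n
  obtain ⟨C, hC, h⟩ := Gm.gamma1_exp 8
  refine ⟨C * (3 * n.factorial / (1 / 2) ^ n), by positivity, fun z h0 h1 => ?_⟩
  refine (h z h0 (by push_cast; linarith)).trans ?_
  have h2 := Gm.pow_mul_exp_le n (c := 1 / 2) (x := |z.im|) (by norm_num) (by norm_num)
    (abs_nonneg _)
  have e : -|z.im| / 2 = -(1 / 2 * |z.im|) := by ring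
  rw [← div_div, br, le_div_iff₀ (by positivity), e, mul_assoc, mul_comm (Real.exp _),
    mul_div_right_comm C]
  exact mul_le_mul_of_nonneg_left h2 (by positivity)

end Pool.Agent.QM
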