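import Pool.Agent.P.MP_ea46f5_nt.QM.S1
import Pool.Agent.P.MP_ea46f5_nt.QM.Gam

namespace Pool.Agent.QM

open Complex MeasureTheory Finset
open scoped Real ComplexConjugate

theorem pGAM2 : GAM2 := by
  obtain ⟨C, hC, h⟩ := Gm.gamma2
  exact ⟨13, C, hC, fun a t s ha h1 h2 => h a t s ha (by linarith) h2⟩

end Pool.Agent.QM
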