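import Pool.Agent.P.MP_ea46f5_nt.QM.S1

namespace Pool.Agent.QM

open Complex MeasureTheory Finset
open scoped Real ComplexConjugate

theorem h1_jo (k : ℤ) (n : ℕ) : ‖jo k n‖ ≤ 1 := by
  unfold jo
  split_ifs
  · rcases jacobiSym.trichotomy k n with h | h | h <;> simp [h]
  · simp

theorem h1_xs (p : ℕ) (hp : 0 < p) (s : ℂ) : ‖xs s p‖ = (p : ℝ) ^ (-(1 / 2 + s.re)) := by
  unfold xs
  rw [Complex.norm_natCast_cpow_of_pos hp]
  simp

theorem h1_QU (p : ℕ) (hp : 0 < p) (k : ℤ) (z s₁ s₂ : ℂ) :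
    ‖Qp s₁ s₂ p‖ ≤ 3 * (p : ℝ) ^ (-(1 + 2 * s₁.re)) + 4 * (p : ℝ) ^ (-(1 + (s₁.re + s₂.re))) +
      3 * (p : ℝ) ^ (-(1 + 2 * s₂.re)) ∧
    ‖Up k z s₁ s₂ p‖ ≤ (p : ℝ) ^ (-(1 + (z.re + s₁.re))) + (p : ℝ) ^ (-(1 + (z.re + s₂.re))) := by
  have hp' : (0 : ℝ) < p := by exact_mod_cast hp
  have e : ∀ a b : ℝ, (p : ℝ) ^ (-(1 / 2 + a)) * (p : ℝ) ^ (-(1 / 2 + b)) =
      (p : ℝ) ^ (-(1 + (a + b))) := by
    intro a b
    rw [← Real.rpow_add hp']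
    congr 1
    ring
  constructor
  · unfold Qp
    refine (norm_add₃_le).trans (le_of_eq ?_)
    simp only [norm_mul, h1_xs p hp, pow_two, e, Complex.norm_ofNat, two_mul]
  · unfold Up
    have h1 : ‖(p : ℂ) ^ (-(z + 1 / 2))‖ = (p : ℝ) ^ (-(1 / 2 + z.re)) := by
      rw [Complex.norm_natCast_cpow_of_pos hp]
      simp [add_comm]
    have h2 : ‖xs s₁ p + xs s₂ p‖ ≤ (p : ℝ) ^ (-(1 / 2 + s₁.re)) + (p : ℝ) ^ (-(1 / 2 + s₂.re)) := by
      rw [← h1_xs p hp, ← h1_xs p hp]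
      exact norm_add_le _ _
    rw [norm_mul, norm_mul, h1, ← e, ← e, ← mul_add]
    have h3 : (0 : ℝ) ≤ (p : ℝ) ^ (-(1 / 2 + z.re)) := by positivity
    exact mul_le_mul (mul_le_of_le_one_left h3 (h1_jo k p)) h2 (norm_nonneg _) h3

/-- The majorant of the local factor minus one. -/
noncomputable def h1b (C a b c : ℝ) (p : ℕ) : ℝ :=
  C * (p : ℝ) ^ (-(1 + 7 / 20 : ℝ)) + 3 * (p : ℝ) ^ (-(1 + a)) + 4 * (p : ℝ) ^ (-(1 + (a + b))) +
    3 * (p : ℝ) ^ (-(1 + b)) + 2 * (p : ℝ) ^ (-(1 + (c + a))) + 2 * (p : ℝ) ^ (-(1 + (c + b)))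

theorem h1b_nonneg {C : ℝ} (hC : 0 < C) (a b c : ℝ) (p : ℕ) : 0 ≤ h1b C a b c p := by
  unfold h1b
  positivity

theorem h1_y {C : ℝ} (p : ℕ) (hp : p.Prime) (k : ℤ) (z s₁ s₂ : ℂ) (hU : UU z s₁ s₂)
    (h0 : ‖locv k z s₁ s₂ p 0 * fp k z s₁ s₂ p - 1 - Qp s₁ s₂ p + 2 * Up k z s₁ s₂ p‖ ≤
      C * (p : ℝ) ^ (-(27 / 20) : ℝ)) :
    ‖locv k z s₁ s₂ p 0 * fp k z s₁ s₂ p - 1‖ ≤ h1b C s₁.re s₂.re z.re p := by
  obtain ⟨hQ, hV⟩ := h1_QU p hp.pos k z s₁ s₂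
  obtain ⟨-, -, h1, h2, -, -⟩ := hU
  have hp1 : (1 : ℝ) ≤ (p : ℝ) := by exact_mod_cast hp.one_le
  have a1 : (p : ℝ) ^ (-(1 + 2 * s₁.re)) ≤ (p : ℝ) ^ (-(1 + s₁.re)) :=
    Real.rpow_le_rpow_of_exponent_le hp1 (by linarith)
  have a2 : (p : ℝ) ^ (-(1 + 2 * s₂.re)) ≤ (p : ℝ) ^ (-(1 + s₂.re)) :=
    Real.rpow_le_rpow_of_exponent_le hp1 (by linarith)
  have e0 : (-(27 / 20) : ℝ) = -(1 + 7 / 20) := by norm_num
  rw [e0] at h0
  generalize locv k z s₁ s₂ p 0 * fp k z s₁ s₂ p = y at h0 ⊢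
  generalize Qp s₁ s₂ p = Q at h0 hQ
  generalize Up k z s₁ s₂ p = U at h0 hV
  have e : y - 1 = (y - 1 - Q + 2 * U) + Q - 2 * U := by ring
  have n1 : ‖y - 1‖ ≤ ‖y - 1 - Q + 2 * U‖ + ‖Q‖ + 2 * ‖U‖ := by
    calc ‖y - 1‖ = ‖(y - 1 - Q + 2 * U) + Q - 2 * U‖ := by rw [← e]
      _ ≤ ‖(y - 1 - Q + 2 * U) + Q‖ + ‖2 * U‖ := norm_sub_le _ _
      _ ≤ _ := by
        rw [norm_mul, Complex.norm_ofNat]
        exact add_le_add_left (norm_add_le _ _) _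
  unfold h1b
  linarith

theorem h1_tsum (hPZ : PZ) (C : ℝ) {a b c : ℝ} (ha : 0 < a) (hb : 0 < b) (hc : 0 < c) :
    Summable (fun p : Nat.Primes => h1b C a b c p) ∧
    Real.exp (∑' p : Nat.Primes, h1b C a b c p) ≤
      Real.exp (C * ∑' p : Nat.Primes, ((p : ℕ) : ℝ) ^ (-(1 + 7 / 20 : ℝ))) * (1 + 1 / a) ^ 3 *
        (1 + 1 / (a + b)) ^ 4 * (1 + 1 / b) ^ 3 * (1 + 1 / (c + a)) ^ 2 * (1 + 1 / (c + b)) ^ 2 := by
  obtain ⟨s0, -⟩ := hPZ.1 (7 / 20) (by norm_num)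
  obtain ⟨s1, e1⟩ := hPZ.1 a ha
  obtain ⟨s2, e2⟩ := hPZ.1 (a + b) (by positivity)
  obtain ⟨s3, e3⟩ := hPZ.1 b hb
  obtain ⟨s4, e4⟩ := hPZ.1 (c + a) (by positivity)
  obtain ⟨s5, e5⟩ := hPZ.1 (c + b) (by positivity)
  have H := (((((s0.hasSum.mul_left C).add (s1.hasSum.mul_left 3)).add
    (s2.hasSum.mul_left 4)).add (s3.hasSum.mul_left 3)).add (s4.hasSum.mul_left 2)).add
    (s5.hasSum.mul_left 2)
  have H' : HasSum (fun p : Nat.Primes => h1b C a b c p) _ := H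
  refine ⟨H'.summable, ?_⟩
  rw [H'.tsum_eq]
  have n3 : ∀ x : ℝ, Real.exp (3 * x) = Real.exp x ^ 3 := fun x => by
    rw [← Real.exp_nat_mul]; norm_num
  have n4 : ∀ x : ℝ, Real.exp (4 * x) = Real.exp x ^ 4 := fun x => by
    rw [← Real.exp_nat_mul]; norm_num
  have n2 : ∀ x : ℝ, Real.exp (2 * x) = Real.exp x ^ 2 := fun x => by
    rw [← Real.exp_nat_mul]; norm_num
  simp only [Real.exp_add, n2, n3, n4]
  gcongr

theorem h1_split (P : Finset ℕ) (hP : OP P) (b : ℕ → ℝ) (hb : ∀ p, 0 ≤ b p)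
    (hs : Summable fun p : Nat.Primes => b p) :
    Summable (fun p : Nat.Primes => if (p : ℕ) ∈ P then 0 else b p) ∧
    ∑ p ∈ P, b p + ∑' p : Nat.Primes, (if (p : ℕ) ∈ P then 0 else b p) =
      ∑' p : Nat.Primes, b p := by
  have s1 : Summable fun p : Nat.Primes => if (p : ℕ) ∈ P then 0 else b p :=
    hs.of_nonneg_of_le (fun p => by split_ifs <;> simp [hb]) (fun p => by split_ifs <;> simp [hb])
  have s2 : Summable fun p : Nat.Primes => if (p : ℕ) ∈ P then b p else 0 :=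
    hs.of_nonneg_of_le (fun p => by split_ifs <;> simp [hb]) (fun p => by split_ifs <;> simp [hb])
  refine ⟨s1, ?_⟩
  have e1 : ∑ p ∈ P, b p = ∑' p : Nat.Primes, (if (p : ℕ) ∈ P then b p else 0) := by
    have t1 : ∑' p : {p : ℕ // p.Prime}, (if (p : ℕ) ∈ P then b p else 0) =
        ∑ p ∈ P.subtype Nat.Prime, (if (p : ℕ) ∈ P then b p else 0) :=
      tsum_eq_sum fun p hp => if_neg fun h => hp (Finset.mem_subtype.2 h)
    refine Eq.trans ?_ t1.symm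
    rw [← Finset.sum_subtype_of_mem b (p := Nat.Prime) (fun p hp => (hP p hp).1)]
    refine Finset.sum_congr rfl fun p hp => ?_
    rw [if_pos (Finset.mem_subtype.1 hp)]
  rw [e1, ← s2.tsum_add s1]
  refine tsum_congr fun p => ?_
  split_ifs <;> simp

theorem h1_lin (P : Finset ℕ) (μ : ℕ → ℤ → ℂ) {ι : Type} [Fintype ι] (r : ι → ℂ)
    (g : ι → (ℕ → ℤ) → ℂ) :
    Ex P μ (fun x => ∑ i, r i * g i x) = ∑ i, r i * Ex P μ (g i) := by
  unfold Ex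
  simp only [Finset.mul_sum]
  rw [Finset.sum_comm]
  refine Finset.sum_congr rfl fun i _ => Finset.sum_congr rfl fun x _ => ?_
  ring

theorem h1_mon (hEXL : EXL) (P : Finset ℕ) (l : ℕ) (hl : l.primeFactors ⊆ P) (k : ℤ)
    (z s₁ s₂ : ℂ) :
    Ex P (fun p y => mu k z s₁ s₂ p y * fp k z s₁ s₂ p) (fun x => (mon x l : ℂ)) =
      ∏ p ∈ P, locv k z s₁ s₂ p (l.factorization p) * fp k z s₁ s₂ p := by
  have e : (fun x : ℕ → ℤ => (mon x l : ℂ)) =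
      fun x => ∏ p ∈ P, (fun (p : ℕ) (y : ℤ) => (y : ℂ) ^ l.factorization p) p (x p) := by
    funext x
    rw [hEXL.2.2.1 P x l hl]
    push_cast
    rfl
  rw [e]
  refine (hEXL.1 P _ (fun (p : ℕ) (y : ℤ) => (y : ℂ) ^ l.factorization p)).trans ?_
  refine Finset.prod_congr rfl fun p _ => ?_
  unfold locv
  rw [Finset.sum_mul]
  refine Finset.sum_congr rfl fun y _ => ?_
  ring

theorem h1_pl (P : Finset ℕ) (l B : ℕ) (h0 : l ≠ 0) (hl : l.primeFactors ⊆ P) :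
    ∏ p ∈ P, ((p : ℝ) ^ l.factorization p) ^ B = (l : ℝ) ^ B := by
  rw [Finset.prod_pow]
  congr 1
  rw [← Finset.prod_subset hl]
  · have := Nat.prod_factorization_pow_eq_self h0
    rw [Finsupp.prod, Nat.support_factorization] at this
    exact_mod_cast this
  · intro p _ hp
    have : l.factorization p = 0 := by
      rwa [← Nat.support_factorization, Finsupp.notMem_support_iff] at hp
    rw [this, pow_zero]

theorem pH1 (hLOC : LOC) (hEXL : EXL) (hPRD : PRD) (hPZ : PZ) : H1 := by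
  obtain ⟨C, B, hC, hB, h⟩ := hLOC
  refine ⟨Real.exp (C * ∑' p : Nat.Primes, ((p : ℕ) : ℝ) ^ (-(1 + 7 / 20 : ℝ))), B,
    Real.exp_pos _, hB, ?_⟩
  intro P R Y k z s₁ s₂ hP hR hU
  obtain ⟨ι, _, l, r, hl, hRe, hY⟩ := hR
  obtain ⟨hs, hE⟩ := h1_tsum hPZ C hU.2.2.1 hU.2.2.2.1 hU.2.2.2.2.1
  have hb0 := h1b_nonneg hC s₁.re s₂.re z.re
  have hy : ∀ p : ℕ, p.Prime → p ≠ 2 →
      ‖locv k z s₁ s₂ p 0 * fp k z s₁ s₂ p - 1‖ ≤ h1b C s₁.re s₂.re z.re p :=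
    fun p hp h2 => h1_y p hp k z s₁ s₂ hU (h p k z s₁ s₂ hp h2 hU).1
  generalize h1b C s₁.re s₂.re z.re = b at hs hE hb0 hy
  obtain ⟨s1, e1⟩ := h1_split P hP b hb0 hs
  have hY0 : 0 ≤ Y := le_trans (Finset.sum_nonneg fun i _ => by positivity) hY
  have A1 : ∀ i, ‖∏ p ∈ P, locv k z s₁ s₂ p ((l i).factorization p) * fp k z s₁ s₂ p‖ ≤
      (l i : ℝ) ^ B * Real.exp (∑ p ∈ P, b p) := by
    intro i
    rw [norm_prod, ← h1_pl P (l i) B (hl i).1 (hl i).2, Real.exp_sum, ← Finset.prod_mul_distrib]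
    refine Finset.prod_le_prod (fun _ _ => norm_nonneg _) fun p hp => ?_
    obtain ⟨hp1, hp2⟩ := hP p hp
    rcases Nat.eq_zero_or_pos ((l i).factorization p) with hv | hv
    · rw [hv, pow_zero, one_pow, one_mul]
      have t1 := hy p hp1 hp2
      have t2 := norm_sub_norm_le (locv k z s₁ s₂ p 0 * fp k z s₁ s₂ p) 1
      rw [norm_one] at t2
      have t3 := Real.add_one_le_exp (b p)
      linarith
    · have t1 := (h p k z s₁ s₂ hp1 hp2 hU).2 _ hv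
      have hp3 : (1 : ℝ) ≤ (p : ℝ) := by exact_mod_cast hp1.one_le
      have t2 : (p : ℝ) ^ B ≤ ((p : ℝ) ^ (l i).factorization p) ^ B :=
        pow_le_pow_left₀ (by positivity) (le_self_pow₀ hp3 hv.ne') B
      have t3 : 1 ≤ Real.exp (b p) := Real.one_le_exp (hb0 p)
      exact (t1.trans t2).trans (le_mul_of_one_le_right (by positivity) t3)
  have A2 : ‖Ex P (fun p y => mu k z s₁ s₂ p y * fp k z s₁ s₂ p) (fun x => (R x : ℂ))‖ ≤
      Y * Real.exp (∑ p ∈ P, b p) := by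
    have e : (fun x => (R x : ℂ)) = fun x => ∑ i, (r i : ℂ) * (mon x (l i) : ℂ) := by
      funext x
      rw [hRe x]
      push_cast
      rfl
    rw [e, h1_lin]
    refine (norm_sum_le _ _).trans (le_trans ?_ (mul_le_mul_of_nonneg_right hY (Real.exp_pos _).le))
    rw [Finset.sum_mul]
    refine Finset.sum_le_sum fun i _ => ?_
    rw [norm_mul, Complex.norm_real, Real.norm_eq_abs, h1_mon hEXL P (l i) (hl i).2, mul_assoc]
    exact mul_le_mul_of_nonneg_left (A1 i) (abs_nonneg _)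
  have A3 : ‖∏' p : Nat.Primes,
      if (p : ℕ) = 2 ∨ (p : ℕ) ∈ P then 1 else locv k z s₁ s₂ p 0 * fp k z s₁ s₂ p‖ ≤
      Real.exp (∑' p : Nat.Primes, if (p : ℕ) ∈ P then 0 else b p) := by
    have hu : ∀ p : Nat.Primes, ‖(if (p : ℕ) = 2 ∨ (p : ℕ) ∈ P then 1 else
        locv k z s₁ s₂ p 0 * fp k z s₁ s₂ p) - 1‖ ≤ if (p : ℕ) ∈ P then 0 else b p := by
      intro p
      by_cases hc : (p : ℕ) = 2 ∨ (p : ℕ) ∈ P
      · rw [if_pos hc, sub_self, norm_zero]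
        split_ifs
        · exact le_rfl
        · exact hb0 p
      · rw [if_neg hc, if_neg fun e => hc (Or.inr e)]
        exact hy p p.2 fun e => hc (Or.inl e)
    have su := s1.of_nonneg_of_le (fun _ => norm_nonneg _) hu
    have t := (hPRD _ su).2.2
    simp only [add_sub_cancel] at t
    exact t.trans (Real.exp_le_exp.2 (su.tsum_le_tsum hu s1))
  unfold Hh
  rw [norm_mul]
  refine (mul_le_mul A2 A3 (norm_nonneg _) (by positivity)).trans ?_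
  rw [mul_assoc Y, ← Real.exp_add, e1]
  refine (mul_le_mul_of_nonneg_left hE hY0).trans (le_of_eq ?_)
  ring

end Pool.Agent.QM
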