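import Pool.Agent.P.MP_ea46f5_nt.QM.FHCa

namespace Pool.Agent.QM

open Complex MeasureTheory Finset
open scoped Real ComplexConjugate

/-- The product over the primes outside `P`. -/
theorem hc_prod (hLOC : LOC) (hPRD : PRD) (hPZ : PZ) (hPL : PL) : ∃ C : ℝ, 0 < C ∧
    ∀ (P : Finset ℕ) (lam ε : ℝ) (z s₁ s₂ : ℂ), OP P → (∀ p ∈ P, (p : ℝ) ≤ Real.exp lam) →
      0 ≤ lam → 0 < ε → ε ≤ 1 / 100 → ε * lam ≤ 1 → z.re = ε → ‖s₁ - z‖ ≤ ε / 2 →
      ‖s₂ - z‖ ≤ ε / 2 →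
      ‖∏' p : Nat.Primes, (if (p : ℕ) = 2 ∨ (p : ℕ) ∈ P then 1 else
          locv 1 z s₁ s₂ p 0 * fp 1 z s₁ s₂ p)‖ ≤
        C * Real.exp (-6 * sg P) * (1 + lam * |z.im|) ^ 12 * (br z.im * (1 + 1 / ‖z‖)) ^ 6 := by
  obtain ⟨C, B, hC, -, hL⟩ := hLOC
  obtain ⟨C₂, hC₂, hZ⟩ := hPZ.2
  obtain ⟨C₃, hC₃, hL1, hL2, -⟩ := hPL
  obtain ⟨C', hC'⟩ : ∃ C' : ℝ, C' = C + (14 + C) ^ 2 := ⟨_, rfl⟩
  have hC12 : 12 ≤ C' := by rw [hC']; nlinarith
  have hC0 : 0 ≤ C' := le_trans (by norm_num) hC12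
  refine ⟨(2 * C₂) ^ 6 * Real.exp (12 * C₃ + C' * (20 / 7) + 12 * C₃) * 3 ^ 12, by positivity, ?_⟩
  intro P lam ε z s₁ s₂ hP hle hlam hε hε1 hel hz h₁ h₂
  have a1 := abs_le.mp ((abs_re_le_norm (s₁ - z)).trans h₁)
  have a2 := abs_le.mp ((abs_re_le_norm (s₂ - z)).trans h₂)
  have r₁ : 0 < s₁.re := by have := a1.1; rw [sub_re] at this; linarith
  have r₂ : 0 < s₂.re := by have := a2.1; rw [sub_re] at this; linarith
  have hU : UU z s₁ s₂ := ⟨by linarith [a1.1], by linarith [a2.1], r₁, r₂, by linarith, by linarith⟩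
  have hz0 : 0 ≤ z.re := by linarith
  set u : Nat.Primes → ℂ := fun p => if (p : ℕ) = 2 ∨ (p : ℕ) ∈ P then 0 else
    locv 1 z s₁ s₂ p 0 * fp 1 z s₁ s₂ p - 1 with hu
  have e : (fun p : Nat.Primes => if (p : ℕ) = 2 ∨ (p : ℕ) ∈ P then (1 : ℂ) else
      locv 1 z s₁ s₂ p 0 * fp 1 z s₁ s₂ p) = fun p => 1 + u p := by
    funext p
    simp only [hu]
    split_ifs <;> ring
  have S1 := (hPZ.1 (2 * ε) (by linarith)).1
  have S2 := hL1 ε hε (by linarith)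
  have S3 := (hPZ.1 (7 / 20) (by norm_num)).1
  have S3' := hc_pz hPZ (7 / 20) (by norm_num)
  have pt := fun (p : Nat.Primes) (h2 : (p : ℕ) ≠ 2) =>
    hc_pt p.2 h2 ε C z s₁ s₂ _ hε hC hz h₁ h₂ r₁.le r₂.le (hL p 1 z s₁ s₂ p.2 h2 hU).1
  have pos2 : ∀ p : ℕ, 0 ≤ 12 * ε * (Real.log p * (p : ℝ) ^ (-(1 + ε))) := fun p =>
    mul_nonneg (by linarith) (mul_nonneg (hc_log_nonneg p) (by positivity))
  have Su : Summable fun p => ‖u p‖ := by
    refine Summable.of_nonneg_of_le (fun p => norm_nonneg _) (fun p => ?_)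
      (((S1.mul_left 6).add (S2.1.mul_left (12 * ε))).add (S3.mul_left C))
    simp only [hu]
    split_ifs with h
    · rw [norm_zero]
      exact add_nonneg (add_nonneg (by positivity) (pos2 p)) (by positivity)
    · exact (pt p (not_or.mp h).1).1
  obtain ⟨Sv, hb, -⟩ := hPRD u Su
  have S0 : Summable fun p : Nat.Primes => (((p : ℕ) : ℂ) ^ (-(1 + 2 * z))).re := by
    refine Summable.of_norm_bounded S1 fun p => ?_
    refine (abs_re_le_norm _).trans (le_of_eq ?_)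
    rw [norm_natCast_cpow_of_pos p.2.pos]
    congr 1
    simp [hz]
  have S4 := hc_ind P (fun p hp => (hP p hp).1) fun p =>
    -6 * (1 / (p : ℝ)) + 12 * (min 1 (2 * ‖z‖ * Real.log p) / p)
  have H := (((S0.hasSum.mul_left 6).add (S2.1.hasSum.mul_left (12 * ε))).add
    (S3.hasSum.mul_left C')).add S4
  have hle2 := hasSum_le (fun p : Nat.Primes => (show (u p).re + ‖u p‖ ^ 2 / 2 ≤ _ by
    have g0 : 0 ≤ ((p : ℕ) : ℝ) ^ (-(1 + 7 / 20) : ℝ) := by positivity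
    have q2 := pos2 p
    simp only [hu]
    by_cases hm : (p : ℕ) ∈ P
    · rw [if_pos (Or.inr hm), if_pos hm]
      have k1 := hc_inP p.2.pos z hz0
      have k2 := mul_nonneg hC0 g0
      simp only [zero_re, norm_zero]
      linarith only [k1, k2, q2]
    · rw [if_neg hm]
      by_cases h2 : (p : ℕ) = 2
      · rw [if_pos (Or.inl h2)]
        have k1 := hc_two z hz0
        rw [← h2] at k1
        have k2 := mul_le_mul_of_nonneg_right hC12 g0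
        simp only [zero_re, norm_zero]
        linarith only [k1, k2, q2]
      · rw [if_neg (not_or.mpr ⟨h2, hm⟩), add_zero, hC']
        exact (pt p h2).2)) Sv.hasSum H
  have k2 : 12 * ε * ∑' p : Nat.Primes, Real.log (p : ℕ) * ((p : ℕ) : ℝ) ^ (-(1 + ε)) ≤
      12 * C₃ := by
    calc _ ≤ 12 * ε * (C₃ / ε) := mul_le_mul_of_nonneg_left S2.2 (by positivity)
      _ = 12 * C₃ := by field_simp
  have k3 : C' * ∑' p : Nat.Primes, ((p : ℕ) : ℝ) ^ (-(1 + 7 / 20) : ℝ) ≤ C' * (20 / 7) :=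
    mul_le_mul_of_nonneg_left (S3'.trans (by norm_num)) hC0
  have k4 := hL2 P lam (2 * ‖z‖) (fun p hp => ⟨(hP p hp).1, hle p hp⟩) hlam (by positivity)
  have k5 : ∑ p ∈ P, (-6 * (1 / (p : ℝ)) + 12 * (min 1 (2 * ‖z‖ * Real.log p) / p)) =
      -6 * sg P + 12 * ∑ p ∈ P, min 1 (2 * ‖z‖ * Real.log p) / p := by
    rw [sum_add_distrib, ← mul_sum, ← mul_sum, sg]
  have hzn : ‖z‖ ≤ ε + |z.im| := by
    have := norm_le_abs_re_add_abs_im z
    rwa [hz, abs_of_pos hε] at this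
  have hly : 0 ≤ lam * |z.im| := mul_nonneg hlam (abs_nonneg _)
  have k6 : 1 + lam * (2 * ‖z‖) ≤ 3 * (1 + lam * |z.im|) := by
    have := mul_le_mul_of_nonneg_left hzn hlam
    linarith only [this, hel, hly]
  have k7 : 0 < 1 + lam * (2 * ‖z‖) := by positivity
  have k8 := hZ (2 * z) (by simp [hz, hε]) (by simp [hz]; linarith only [hε1])
  have hzp : 0 < ‖z‖ := lt_of_lt_of_le (by rw [hz, abs_of_pos hε]; exact hε) (abs_re_le_norm z)
  have k9 : C₂ * br (2 * z).im * (1 + 1 / ‖2 * z‖) ≤ 2 * C₂ * (br z.im * (1 + 1 / ‖z‖)) := by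
    have b1 : br (2 * z).im ≤ 2 * br z.im := by
      unfold br
      simp [abs_mul]
      linarith only []
    have b2 : 1 + 1 / ‖2 * z‖ ≤ 1 + 1 / ‖z‖ := by
      have n2 : ‖2 * z‖ = 2 * ‖z‖ := by simp
      rw [n2]
      have := one_div_le_one_div_of_le hzp (by linarith only [hzp] : ‖z‖ ≤ 2 * ‖z‖)
      linarith only [this]
    have b3 : 0 ≤ br z.im := by unfold br; positivity
    calc _ = C₂ * (br (2 * z).im * (1 + 1 / ‖2 * z‖)) := by ring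
      _ ≤ C₂ * (2 * br z.im * (1 + 1 / ‖z‖)) :=
          mul_le_mul_of_nonneg_left (mul_le_mul b1 b2 (by positivity) (by positivity)) hC₂.le
      _ = _ := by ring
  rw [e]
  refine hb.trans ?_
  set A : ℝ := ∑' p : Nat.Primes, (((p : ℕ) : ℂ) ^ (-(1 + 2 * z))).re with hA
  have k10 : ∑' p, ((u p).re + ‖u p‖ ^ 2 / 2) ≤ ((6 : ℕ) : ℝ) * A +
      (12 * C₃ + C' * (20 / 7) + 12 * C₃) + -6 * sg P +
      ((12 : ℕ) : ℝ) * Real.log (1 + lam * (2 * ‖z‖)) := by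
    push_cast
    rw [k5] at hle2
    linarith only [hle2, k2, k3, k4]
  refine (Real.exp_le_exp.mpr k10).trans ?_
  rw [Real.exp_add, Real.exp_add, Real.exp_add _ (12 * C₃ + C' * (20 / 7) + 12 * C₃),
    Real.exp_nat_mul, Real.exp_nat_mul, Real.exp_log k7]
  have m1 : Real.exp A ^ 6 ≤ (2 * C₂ * (br z.im * (1 + 1 / ‖z‖))) ^ 6 :=
    pow_le_pow_left₀ (Real.exp_pos _).le (k8.trans k9) 6
  have m2 : (1 + lam * (2 * ‖z‖)) ^ 12 ≤ (3 * (1 + lam * |z.im|)) ^ 12 :=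
    pow_le_pow_left₀ k7.le k6 12
  calc _ ≤ (2 * C₂ * (br z.im * (1 + 1 / ‖z‖))) ^ 6 *
        Real.exp (12 * C₃ + C' * (20 / 7) + 12 * C₃) * Real.exp (-6 * sg P) *
        (3 * (1 + lam * |z.im|)) ^ 12 := by gcongr
    _ = _ := by
      generalize br z.im * (1 + 1 / ‖z‖) = a₁
      generalize 1 + lam * |z.im| = c₁
      ring

theorem pHC (hEXB : EXB) (hEXL : EXL) (hLOC : LOC) (hLOC0 : LOC0) (hPRD : PRD) (hPZ : PZ) (hPL : PL) : HC := by
  obtain ⟨C₁, hC₁, hprod⟩ := hc_prod hLOC hPRD hPZ hPL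
  obtain ⟨C₂, c, hC₂, hE⟩ := hEXB
  obtain ⟨C₃, hC₃, -, hF⟩ := hLOC0
  obtain ⟨C₄, -, -, -, hL3⟩ := hPL
  refine ⟨Real.exp (C₃ * 4) * (C₂ * 5 ^ c) * C₁, c + 12, by positivity, ?_⟩
  intro P B R lam T Y ε z s₁ s₂ hT hε hε1 hel hz h₁ h₂
  have a1 := abs_le.mp ((abs_re_le_norm (s₁ - z)).trans h₁)
  have a2 := abs_le.mp ((abs_re_le_norm (s₂ - z)).trans h₂)
  rw [sub_re] at a1 a2
  have hlam := hT.lam0
  have hT0 := hT.T0
  have p1 := hprod P lam ε z s₁ s₂ hT.op hT.le hlam hε hε1 hel hz h₁ h₂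
  have p2 := hEXL.2.2.2.2.2.1 P (mu 1 z s₁ s₂) (fp 1 z s₁ s₂) R hT.pos
  have p3 := hE P B R lam T Y z s₁ s₂ hT (by linarith) (by linarith [a1.1]) (by linarith [a2.1])
    (by
      have : (z.re + s₁.re + s₂.re) * lam ≤ (4 * ε) * lam :=
        mul_le_mul_of_nonneg_right (by linarith [a1.2, a2.2]) hlam
      linarith)
  have hzn : ‖z‖ ≤ ε + |z.im| := by
    have := norm_le_abs_re_add_abs_im z
    rwa [hz, abs_of_pos hε] at this
  have n1 : ‖s₁‖ ≤ ‖z‖ + ε / 2 := by linarith [norm_sub_norm_le s₁ z]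
  have n2 : ‖s₂‖ ≤ ‖z‖ + ε / 2 := by linarith [norm_sub_norm_le s₂ z]
  have hly : 0 ≤ lam * |z.im| := mul_nonneg hlam (abs_nonneg _)
  have k1 : 1 + lam * (‖z‖ + ‖s₁‖ + ‖s₂‖) ≤ 5 * (1 + lam * |z.im|) := by
    have := mul_le_mul_of_nonneg_left
      (show ‖z‖ + ‖s₁‖ + ‖s₂‖ ≤ 4 * ε + 3 * |z.im| by linarith) hlam
    linarith
  have k2 : (1 + lam * (‖z‖ + ‖s₁‖ + ‖s₂‖)) ^ c ≤ (5 * (1 + lam * |z.im|)) ^ c :=
    pow_le_pow_left₀ (by positivity) k1 c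
  have p4 : Ex P (fun p y => ‖mu 1 z s₁ s₂ p y‖) R ≤
      C₂ * T * Real.exp (10 * sg P) * (5 * (1 + lam * |z.im|)) ^ c :=
    p3.trans (mul_le_mul_of_nonneg_left k2 (by positivity))
  have p5 : ∏ p ∈ P, ‖fp 1 z s₁ s₂ p‖ ≤ Real.exp (-4 * sg P + C₃ * 4) := by
    have q1 : ∏ p ∈ P, ‖fp 1 z s₁ s₂ p‖ ≤ ∏ p ∈ P, Real.exp (-4 / p +
        C₃ * (ε * Real.log p / p + (p : ℝ) ^ (-(3 / 2) : ℝ))) := by
      refine prod_le_prod (fun p _ => norm_nonneg _) fun p hp => ?_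
      have hp0 : (0 : ℝ) < p := by exact_mod_cast (hT.op p hp).1.pos
      have hl : Real.log p ≤ lam := (Real.log_le_iff_le_exp hp0).mpr (hT.le p hp)
      have := hF p z (s₁ - z) (s₂ - z) ε (hT.op p hp).1 (hT.op p hp).2 hε1 (by linarith only [h₁, hε])
        (by linarith only [h₂, hε]) ((mul_le_mul_of_nonneg_left hl hε.le).trans hel)
      rwa [add_sub_cancel, add_sub_cancel] at this
    rw [← Real.exp_sum] at q1
    refine q1.trans (Real.exp_le_exp.mpr ?_)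
    have q2 := hL3 P lam (fun p hp => ⟨(hT.op p hp).1, hT.le p hp⟩) hlam
    have q3 := hc_fin32 hPZ P fun p hp => (hT.op p hp).1
    have q4 : ∑ p ∈ P, (-4 / (p : ℝ) + C₃ * (ε * Real.log p / p + (p : ℝ) ^ (-(3 / 2) : ℝ))) =
        -4 * sg P + C₃ * (ε * ∑ p ∈ P, Real.log p / p + ∑ p ∈ P, (p : ℝ) ^ (-(3 / 2) : ℝ)) := by
      rw [sg, mul_sum, mul_sum, ← sum_add_distrib, mul_sum, ← sum_add_distrib]
      refine sum_congr rfl fun p _ => ?_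
      ring
    rw [q4]
    have q5 := mul_le_mul_of_nonneg_left q2 hε.le
    have q6 : ε * ∑ p ∈ P, Real.log p / p + ∑ p ∈ P, (p : ℝ) ^ (-(3 / 2) : ℝ) ≤ 4 := by
      linarith only [q5, q3, hel, hε1]
    linarith only [mul_le_mul_of_nonneg_left q6 hC₃.le]
  have p6 : 0 ≤ Ex P (fun p y => ‖mu 1 z s₁ s₂ p y‖) R := by
    unfold Ex
    exact sum_nonneg fun x _ => mul_nonneg (prod_nonneg fun _ _ => norm_nonneg _) (hT.pos _)
  have p7 := p2.trans (mul_le_mul p5 p4 p6 (Real.exp_pos _).le)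
  have hex : Real.exp (-4 * sg P) * Real.exp (10 * sg P) * Real.exp (-6 * sg P) = 1 := by
    rw [← Real.exp_add, ← Real.exp_add, ← Real.exp_zero]
    congr 1
    ring
  unfold Hh
  rw [norm_mul]
  refine (mul_le_mul p7 p1 (norm_nonneg _) (by positivity)).trans (le_of_eq ?_)
  rw [Real.exp_add, mul_pow 5, pow_add]
  generalize br z.im * (1 + 1 / ‖z‖) = a₁
  generalize 1 + lam * |z.im| = c₁
  linear_combination (Real.exp (C₃ * 4) * (C₂ * 5 ^ c) * C₁ * T * (c₁ ^ c * c₁ ^ 12) * a₁ ^ 6) * hex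

end Pool.Agent.QM
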