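import Pool.Agent.P.MP_45ff98_nt.JA2z

/-!
Crude bounds for the zeta function and for the inverse of the zeta function without its factor
at two.
-/

namespace Pool.Agent.QM.Zt

open Complex MeasureTheory Set Filter Topology

theorem zeta0_le {s : ℂ} (hs : 0 < s.re) : ‖riemannZeta₀ s‖ ≤ 1 + ‖s‖ / s.re := by
  rw [Jac.zeta0_repr hs]
  refine (norm_sub_le _ _).trans ?_
  rw [norm_one, norm_mul, div_eq_mul_inv]
  have hI : IntegrableOn (fun u : ℝ => u ^ (-(s.re + 1))) (Ioi 1) :=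
    integrableOn_Ioi_rpow_of_lt (by linarith) zero_lt_one
  have h2 : ∫ u in Ioi (1 : ℝ), u ^ (-(s.re + 1)) = (s.re)⁻¹ := by
    rw [integral_Ioi_rpow_of_lt (by linarith) zero_lt_one, Real.one_rpow]
    have : -(s.re + 1) + 1 = -s.re := by ring
    rw [this, neg_div_neg_eq, one_div]
  gcongr
  rw [← h2]
  refine norm_integral_le_of_norm_le hI ?_
  refine (ae_restrict_iff' measurableSet_Ioi).2 (Eventually.of_forall fun u hu => ?_)
  have hu0 : 0 < u := zero_lt_one.trans hu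
  rw [norm_mul, Complex.norm_cpow_eq_rpow_re_of_pos hu0]
  have e : (-(s + 1)).re = -(s.re + 1) := by simp
  rw [e]
  exact mul_le_of_le_one_left (by positivity) (Jac.ja1r_fract_le u)

theorem zeta_le {s : ℂ} (hs : 0 < s.re) (h1 : s ≠ 1) :
    ‖riemannZeta s‖ ≤ 1 / ‖s - 1‖ + 1 + ‖s‖ / s.re := by
  rw [riemannZeta_eq_inv_sub_add h1]
  refine (norm_add_le _ _).trans ?_
  rw [norm_inv, one_div, add_assoc]
  exact add_le_add le_rfl (zeta0_le hs)

theorem norm_div_re_le {s : ℂ} {c : ℝ} (hc : 0 < c) (hs : c ≤ s.re) :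
    ‖s‖ / s.re ≤ 1 + |s.im| / c := by
  have h0 : 0 < s.re := hc.trans_le hs
  have h1 := Complex.norm_le_abs_re_add_abs_im s
  rw [abs_of_pos h0] at h1
  calc ‖s‖ / s.re ≤ (s.re + |s.im|) / s.re := by gcongr
    _ = 1 + |s.im| / s.re := by field_simp
    _ ≤ _ := by gcongr

/-- The entire function `(s - 1) ζ(s)` at `1 + s`. -/
theorem zeta1_le {s : ℂ} (hs : -3 / 4 ≤ s.re) :
    ‖riemannZeta₁ (1 + s)‖ ≤ 4 * (1 + |s.im|) * (1 + ‖s‖) := by
  have h1 := zeta0_le (s := 1 + s) (by simp; linarith)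
  have h2 := norm_div_re_le (s := 1 + s) (c := 1 / 4) (by norm_num) (by simp; linarith)
  have e : (1 + s).im = s.im := by simp
  rw [e] at h2
  rw [riemannZeta₁, add_sub_cancel_left]
  refine (norm_add_le _ _).trans ?_
  rw [norm_one, norm_mul]
  have h3 : ‖riemannZeta₀ (1 + s)‖ ≤ 4 * (1 + |s.im|) := by linarith
  nlinarith [mul_le_mul_of_nonneg_left h3 (norm_nonneg s), abs_nonneg s.im, norm_nonneg s]

/-- Z1, first part. -/
theorem z1a {s : ℂ} (hs : -3 / 4 ≤ s.re) (h0 : s ≠ 0) :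
    ‖riemannZeta (1 + s)‖ ≤ 4 * (1 + |s.im|) * (1 + 1 / ‖s‖) := by
  have hn : 0 < ‖s‖ := norm_pos_iff.2 h0
  rw [riemannZeta_eq_inv_sub_mul (by simpa using h0), add_sub_cancel_left, norm_mul, norm_inv,
    inv_mul_le_iff₀ hn]
  refine (zeta1_le hs).trans (le_of_eq ?_)
  field_simp
  ring

/-- Z1, second part. -/
theorem z1b {s : ℂ} (h0 : 0 < s.re) (h1 : s.re ≤ 1 / 2) : ‖riemannZeta s‖ ≤ ‖s‖ / s.re + 3 := by
  have hs : s ≠ 1 := by rintro rfl; norm_num at h1
  have h2 : 1 / 2 ≤ ‖s - 1‖ := by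
    refine le_trans ?_ (Complex.abs_re_le_norm _)
    rw [sub_re, one_re, abs_of_nonpos (by linarith)]; linarith
  have h3 : 1 / ‖s - 1‖ ≤ 2 := by
    rw [div_le_iff₀ (by linarith)]; linarith
  linarith [zeta_le h0 hs]

/-- Z1, second part, in the form used on the line `Re z = ε`. -/
theorem z1b' {s : ℂ} (h0 : 0 < s.re) (h1 : s.re ≤ 1 / 2) :
    ‖riemannZeta s‖ ≤ 3 * (1 + |s.im|) / s.re := by
  refine (z1b h0 h1).trans ((add_le_add (norm_div_re_le h0 le_rfl) le_rfl).trans ?_)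
  rw [le_div_iff₀ h0]
  have : (1 + |s.im| / s.re + 3) * s.re = 4 * s.re + |s.im| := by field_simp; ring
  rw [this]
  linarith [abs_nonneg s.im]

/-- Z1, third part. -/
theorem z1c (t : ℝ) : ‖riemannZeta (1 / 2 + t * I)‖ ≤ 4 * (1 + |t|) := by
  have e1 : (1 / 2 + t * I : ℂ).re = 1 / 2 := by simp
  have e2 : (1 / 2 + t * I : ℂ).im = t := by simp
  have h := z1b (s := 1 / 2 + t * I) (by rw [e1]; norm_num) e1.le
  have h2 := norm_div_re_le (s := 1 / 2 + t * I) (c := 1 / 2) (by norm_num) e1.ge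
  rw [e2] at h2
  linarith [abs_nonneg t]

/-- The real zeta value as a sum of norms. -/
theorem tsum_norm_term_one_le {σ : ℝ} (hσ : 1 < σ) :
    ∑' n : ℕ, ‖LSeries.term 1 (σ : ℂ) n‖ ≤ 2 + 1 / (σ - 1) := by
  have hs : 1 < (σ : ℂ).re := by simpa using hσ
  have h1 : ((∑' n : ℕ, ‖LSeries.term 1 (σ : ℂ) n‖ : ℝ) : ℂ) = riemannZeta σ := by
    rw [← LSeries_one_eq_riemannZeta hs, LSeries, ofReal_tsum]
    refine tsum_congr fun n => ?_
    rcases eq_or_ne n 0 with rfl | hn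
    · simp
    · rw [LSeries.norm_term_eq, if_neg hn, LSeries.term_of_ne_zero hn]
      simp [ofReal_cpow (Nat.cast_nonneg n)]
  have h2 := zeta_le (s := σ) (by linarith) (by intro h; rw [h] at hs; simp at hs)
  have e : ((σ : ℂ) - 1) = ((σ - 1 : ℝ) : ℂ) := by push_cast; ring
  rw [← h1, e, Complex.norm_real, Complex.norm_real, Complex.norm_real, ofReal_re,
    Real.norm_of_nonneg (r := σ - 1) (by linarith), Real.norm_of_nonneg (r := σ) (by linarith),
    div_self (by linarith)] at h2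
  linarith [Real.le_norm_self (∑' n : ℕ, ‖LSeries.term 1 (σ : ℂ) n‖)]

/-- A Dirichlet series with coefficients bounded by one. -/
theorem norm_LSeries_le {f : ℕ → ℂ} (hf : ∀ n, n ≠ 0 → ‖f n‖ ≤ 1) {s : ℂ} (hs : 1 < s.re) :
    ‖LSeries f s‖ ≤ 2 + 1 / (s.re - 1) := by
  have h1 : Summable fun n => ‖LSeries.term 1 (s.re : ℂ) n‖ :=
    (LSeriesSummable_one_iff.2 (by simpa using hs)).norm
  refine le_trans ?_ (tsum_norm_term_one_le hs)
  refine tsum_of_norm_bounded h1.hasSum fun n => ?_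
  rw [LSeries.norm_term_eq, LSeries.norm_term_eq]
  split_ifs with hn
  · exact le_rfl
  · simp only [Pi.one_apply, norm_one, ofReal_re]
    gcongr
    exact hf n hn

/-- Bound without growth in the imaginary direction. -/
theorem z1d {s : ℂ} (hs : 0 < s.re) : ‖riemannZeta (1 + s)‖ ≤ 2 + 1 / s.re := by
  have h : 1 < (1 + s).re := by simpa using hs
  rw [← LSeries_one_eq_riemannZeta h]
  simpa using norm_LSeries_le (f := 1) (by simp) h

/-- The inverse of `(1 - 2^(-s)) ζ(s)`, with the value `0` at `s = 1`. -/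
noncomputable def iZ (s : ℂ) : ℂ := (s - 1) / ((1 - 2 ^ (-s)) * riemannZeta₁ s)

theorem half_le_norm_two {s : ℂ} (hs : 1 ≤ s.re) : 1 / 2 ≤ ‖1 - (2 : ℂ) ^ (-s)‖ := by
  have h1 : ‖(2 : ℂ) ^ (-s)‖ ≤ 1 / 2 := by
    have := Complex.norm_natCast_cpow_of_pos (n := 2) (by norm_num) (-s)
    simp only [Nat.cast_ofNat, neg_re] at this
    rw [this]
    calc (2 : ℝ) ^ (-s.re) ≤ 2 ^ (-1 : ℝ) :=
          Real.rpow_le_rpow_of_exponent_le (by norm_num) (by linarith)
      _ = 1 / 2 := by rw [Real.rpow_neg_one]; norm_num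
  have h2 := norm_sub_norm_le (1 : ℂ) (2 ^ (-s))
  rw [norm_one] at h2
  linarith

theorem two_fac_ne {s : ℂ} (hs : 1 ≤ s.re) : 1 - (2 : ℂ) ^ (-s) ≠ 0 := fun h => by
  have := half_le_norm_two hs
  rw [h, norm_zero] at this
  norm_num at this

theorem zeta1_ne {s : ℂ} (hs : 1 ≤ s.re) : riemannZeta₁ s ≠ 0 := fun h =>
  Jac.ja2z_ne hs (by rw [Jac.zf, h, zero_div])

theorem differentiable_two_fac : Differentiable ℂ fun s : ℂ => 1 - (2 : ℂ) ^ (-s) :=
  (differentiable_const _).sub (differentiable_id.neg.const_cpow (Or.inl two_ne_zero))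

/-- The open set on which `iZ` is holomorphic. -/
def iZdom : Set ℂ := {s | (1 - 2 ^ (-s)) * riemannZeta₁ s ≠ 0}

theorem isOpen_iZdom : IsOpen iZdom :=
  isOpen_ne_fun (differentiable_two_fac.mul differentiable_riemannZeta₁).continuous
    continuous_const

theorem mem_iZdom {s : ℂ} (hs : 1 ≤ s.re) : s ∈ iZdom :=
  mul_ne_zero (two_fac_ne hs) (zeta1_ne hs)

theorem iZ_differentiableAt_of_mem {s : ℂ} (hs : s ∈ iZdom) : DifferentiableAt ℂ iZ s :=
  (differentiableAt_id.sub_const 1).div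
    ((differentiable_two_fac.mul differentiable_riemannZeta₁) s) hs

theorem iZ_differentiableOn : DifferentiableOn ℂ iZ iZdom := fun _ hs =>
  (iZ_differentiableAt_of_mem hs).differentiableWithinAt

theorem iZ_differentiableAt {s : ℂ} (hs : 1 ≤ s.re) : DifferentiableAt ℂ iZ s :=
  iZ_differentiableAt_of_mem (mem_iZdom hs)

theorem iZ_analyticAt {s : ℂ} (hs : 1 ≤ s.re) : AnalyticAt ℂ iZ s :=
  iZ_differentiableOn.analyticAt (isOpen_iZdom.mem_nhds (mem_iZdom hs))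

theorem iZ_continuousAt {s : ℂ} (hs : 1 ≤ s.re) : ContinuousAt iZ s :=
  (iZ_differentiableAt hs).continuousAt

theorem iZ_continuousOn : ContinuousOn iZ {s | 1 ≤ s.re} := fun _ hs =>
  (iZ_continuousAt hs).continuousWithinAt

theorem iZ_measurable : Measurable iZ :=
  (measurable_id.sub_const 1).div
    (differentiable_two_fac.mul differentiable_riemannZeta₁).continuous.measurable

theorem iZ_one : iZ 1 = 0 := by simp [iZ]

theorem iZ_eq {s : ℂ} (h1 : s ≠ 1) : iZ s = ((1 - 2 ^ (-s)) * riemannZeta s)⁻¹ := by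
  rw [iZ, riemannZeta_eq_inv_sub_mul h1, mul_left_comm, mul_inv, inv_inv, div_eq_mul_inv]

theorem iZ_mul {s : ℂ} (hs : 1 ≤ s.re) (h1 : s ≠ 1) :
    iZ s * ((1 - 2 ^ (-s)) * riemannZeta s) = 1 := by
  rw [iZ_eq h1]
  exact inv_mul_cancel₀ (mul_ne_zero (two_fac_ne hs) (riemannZeta_ne_zero_of_one_le_re hs))

theorem norm_inv_zeta_le {s : ℂ} (hs : 1 < s.re) : ‖(riemannZeta s)⁻¹‖ ≤ 2 + 1 / (s.re - 1) := by
  have h := LSeries_one_mul_Lseries_moebius hs
  rw [LSeries_one_eq_riemannZeta hs] at h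
  rw [← eq_inv_of_mul_eq_one_right h]
  refine norm_LSeries_le (fun n _ => ?_) hs
  rw [Complex.norm_intCast]
  exact_mod_cast ArithmeticFunction.abs_moebius_le_one

/-- Z2 with the first power. -/
theorem iZ_le : ∃ C : ℝ, 0 < C ∧ ∀ s : ℂ, 1 ≤ s.re → ‖iZ s‖ ≤ C * (1 + |s.im|) := by
  obtain ⟨c, hc, h⟩ := Jac.zf_low (η := 1) one_pos le_rfl
  refine ⟨6 + 4 / c, by positivity, fun s hs => ?_⟩
  have ht := abs_nonneg s.im
  have h2 := half_le_norm_two hs
  have hc4 : 0 < 4 / c := by positivity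
  rcases le_total s.re 2 with h3 | h3
  · have h4 := h s.re s.im hs h3
    rw [re_add_im, Real.rpow_neg_one, Jac.zf, norm_div] at h4
    have hs0 : 0 < ‖s‖ := by
      refine lt_of_lt_of_le ?_ (Complex.re_le_norm s); linarith
    have h5 : ‖s - 1‖ ≤ ‖s‖ := by
      apply abs_le_of_sq_le_sq' _ (norm_nonneg _) |>.2
      rw [Complex.sq_norm, Complex.sq_norm, normSq_apply, normSq_apply]
      simp only [sub_re, one_re, sub_im, one_im, sub_zero]
      nlinarith
    have h6 : 0 < ‖riemannZeta₁ s‖ := norm_pos_iff.2 (zeta1_ne hs)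
    rw [le_div_iff₀ hs0, mul_assoc, ← le_div_iff₀' hc, inv_mul_le_iff₀ (by positivity)] at h4
    rw [iZ, norm_div, norm_mul, div_le_iff₀ (by positivity)]
    calc ‖s - 1‖ ≤ (|s.im| + 2) * (‖riemannZeta₁ s‖ / c) := h5.trans h4
      _ ≤ (2 * (1 + |s.im|)) * (‖riemannZeta₁ s‖ / c) := by gcongr; linarith
      _ = (4 / c) * (1 + |s.im|) * (1 / 2 * ‖riemannZeta₁ s‖) := by ring
      _ ≤ _ := by gcongr; linarith
  · have h1 : s ≠ 1 := by rintro rfl; norm_num at h3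
    have h4 := norm_inv_zeta_le (s := s) (by linarith)
    have h5 : 1 / (s.re - 1) ≤ 1 := by rw [div_le_one (by linarith)]; linarith
    have h6 : ‖(1 - (2 : ℂ) ^ (-s))⁻¹‖ ≤ 2 := by
      rw [norm_inv]
      exact inv_le_of_inv_le₀ (by norm_num) (by linarith)
    rw [iZ_eq h1, mul_inv, norm_mul]
    calc _ ≤ 2 * 3 := mul_le_mul h6 (by linarith) (norm_nonneg _) (by norm_num)
      _ ≤ _ := by nlinarith

/-- Z2 of the paper. -/
theorem iZ_le_sq : ∃ C : ℝ, 0 < C ∧ ∀ s : ℂ, 1 ≤ s.re → ‖iZ s‖ ≤ C * (1 + |s.im|) ^ 2 := by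
  obtain ⟨C, hC, h⟩ := iZ_le
  refine ⟨C, hC, fun s hs => (h s hs).trans ?_⟩
  gcongr
  nlinarith [abs_nonneg s.im]

theorem hasProd_inv {ι : Type*} {f : ι → ℂ} {a : ℂ} (h : HasProd f a) (ha : a ≠ 0) :
    HasProd (fun i => (f i)⁻¹) a⁻¹ := by
  have := Tendsto.inv₀ h ha
  simpa only [HasProd, Finset.prod_inv_distrib] using this

/-- Euler product of `(1 - 2^(-s)) ζ(s)` over the odd primes. -/
theorem oddZeta_hasProd {s : ℂ} (hs : 1 < s.re) :
    HasProd (fun p : Nat.Primes => if (p : ℕ) = 2 then 1 else (1 - ((p : ℕ) : ℂ) ^ (-s))⁻¹)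
      ((1 - 2 ^ (-s)) * riemannZeta s) := by
  classical
  have h1 := hasProd_ite_eq (⟨2, Nat.prime_two⟩ : Nat.Primes) (1 - (2 : ℂ) ^ (-s))
  refine (h1.mul (riemannZeta_eulerProduct_hasProd hs)).congr_fun fun p => ?_
  by_cases hp : (p : ℕ) = 2
  · have : p = ⟨2, Nat.prime_two⟩ := Subtype.ext hp
    rw [if_pos hp, if_pos this, hp]
    exact (mul_inv_cancel₀ (two_fac_ne hs.le)).symm
  · have : p ≠ ⟨2, Nat.prime_two⟩ := fun h => hp (congrArg Subtype.val h)
    rw [if_neg hp, if_neg this, one_mul]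

/-- Euler product of `iZ` over the odd primes. -/
theorem iZ_hasProd {s : ℂ} (hs : 1 < s.re) :
    HasProd (fun p : Nat.Primes => if (p : ℕ) = 2 then 1 else 1 - ((p : ℕ) : ℂ) ^ (-s)) (iZ s) := by
  have h1 : s ≠ 1 := by rintro rfl; simp at hs
  rw [iZ_eq h1]
  refine (hasProd_inv (oddZeta_hasProd hs)
    (mul_ne_zero (two_fac_ne hs.le) (riemannZeta_ne_zero_of_one_le_re hs.le))).congr_fun
    fun p => ?_
  split_ifs <;> simp

end Pool.Agent.QM.Zt
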