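import Pool.Agent.P.MP_ea46f5_nt.QM.S1
import Pool.Agent.P.MP_ea46f5_nt.QM.Zeta

namespace Pool.Agent.QM

open Complex MeasureTheory Finset
open scoped Real ComplexConjugate

theorem pIZ : IZ :=
  ⟨fun _ hs => Zt.iZ_differentiableAt hs, Zt.iZ_le_sq, fun _ hs => Zt.iZ_hasProd hs⟩

end Pool.Agent.QM
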