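import Pool.Agent.P.MP_ea46f5_nt.QM.S2

namespace Pool.Agent.QM

open Complex MeasureTheory Finset
open scoped Real ComplexConjugate

/-- The entire numerator of `Lo 1 (1 + a)`. -/
noncomputable def jcaN (a : ℂ) : ℂ := (1 - (2 : ℂ) ^ (-(1 + a))) * riemannZeta₁ (1 + a)

/-- The three inverse zeta factors in the relative variables. -/
noncomputable def jcaI (a₁ a₂ : ℂ) : ℂ :=
  iz (2 + 2 * a₁) ^ 3 * iz (2 + a₁ + a₂) ^ 4 * iz (2 + 2 * a₂) ^ 3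

/-- The part of `Zc` that depends only on the relative variables. -/
noncomputable def jcaF (a₁ a₂ : ℂ) : ℂ := (jcaN a₁ / a₁) ^ 2 * (jcaN a₂ / a₂) ^ 2 * jcaI a₁ a₂

theorem jca_N_diff : Differentiable ℂ jcaN := by
  unfold jcaN
  refine Differentiable.mul ?_ (differentiable_riemannZeta₁.comp (by fun_prop))
  exact (differentiable_const _).sub
    (Differentiable.const_cpow (by fun_prop) (Or.inl two_ne_zero))

theorem jca_Lo (hLOP : LOP) {a : ℂ} (ha : a ≠ 0) : Lo 1 (1 + a) = jcaN a / a := by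
  rw [hLOP.2.2 (1 + a) (by simpa using ha)]
  simp [jcaN]

theorem jca_Zc (hLOP : LOP) (P : Finset ℕ) (R : (ℕ → ℤ) → ℝ) (z : ℂ) {a₁ a₂ : ℂ} (h₁ : a₁ ≠ 0)
    (h₂ : a₂ ≠ 0) :
    Zc P R 1 z (z + a₁) (z + a₂) = jcaF a₁ a₂ * Hh P R 1 z (z + a₁) (z + a₂) := by
  simp only [Zc, IZ3, add_sub_cancel_left, jca_Lo hLOP h₁, jca_Lo hLOP h₂, jcaF, jcaI]

theorem jca_re {a : ℂ} {ρ : ℝ} (h : ‖a‖ ≤ ρ) : -ρ ≤ a.re ∧ a.re ≤ ρ :=
  abs_le.mp ((Complex.abs_re_le_norm a).trans h)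

theorem jca_I_diff (hIZ : IZ) {a₁ a₂ : ℂ} (h₁ : ‖a₁‖ ≤ 1 / 2) (h₂ : ‖a₂‖ ≤ 1 / 2) :
    DifferentiableAt ℂ (fun x : ℂ × ℂ => jcaI x.1 x.2) (a₁, a₂) := by
  have r₁ := (jca_re h₁).1
  have r₂ := (jca_re h₂).1
  have d₁ : DifferentiableAt ℂ (fun x : ℂ × ℂ => iz (2 + 2 * x.1)) (a₁, a₂) :=
    DifferentiableAt.comp (g := iz) (f := fun x : ℂ × ℂ => 2 + 2 * x.1) _
      (hIZ.1 _ (by simp; linarith)) (by fun_prop)
  have d₂ : DifferentiableAt ℂ (fun x : ℂ × ℂ => iz (2 + x.1 + x.2)) (a₁, a₂) :=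
    DifferentiableAt.comp (g := iz) (f := fun x : ℂ × ℂ => 2 + x.1 + x.2) _
      (hIZ.1 _ (by simp; linarith)) (by fun_prop)
  have d₃ : DifferentiableAt ℂ (fun x : ℂ × ℂ => iz (2 + 2 * x.2)) (a₁, a₂) :=
    DifferentiableAt.comp (g := iz) (f := fun x : ℂ × ℂ => 2 + 2 * x.2) _
      (hIZ.1 _ (by simp; linarith)) (by fun_prop)
  exact ((d₁.pow 3).mul (d₂.pow 4)).mul (d₃.pow 3)

theorem jca_F_cont (hIZ : IZ) {ρ : ℝ} (h0 : 0 < ρ) (h1 : ρ ≤ 1 / 2) :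
    ContinuousOn (fun x : ℂ × ℂ => jcaF x.1 x.2)
      (Metric.sphere (0 : ℂ) ρ ×ˢ Metric.sphere (0 : ℂ) ρ) := by
  rintro ⟨a₁, a₂⟩ ⟨m₁, m₂⟩
  have n₁ : ‖a₁‖ = ρ := by simpa using m₁
  have n₂ : ‖a₂‖ = ρ := by simpa using m₂
  have z₁ : a₁ ≠ 0 := norm_pos_iff.mp (n₁ ▸ h0)
  have z₂ : a₂ ≠ 0 := norm_pos_iff.mp (n₂ ▸ h0)
  have cN := jca_N_diff.continuous
  have c₁ : ContinuousAt (fun x : ℂ × ℂ => jcaN x.1 / x.1) (a₁, a₂) :=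
    ((cN.comp continuous_fst).continuousAt).div continuous_fst.continuousAt z₁
  have c₂ : ContinuousAt (fun x : ℂ × ℂ => jcaN x.2 / x.2) (a₁, a₂) :=
    ((cN.comp continuous_snd).continuousAt).div continuous_snd.continuousAt z₂
  have c₃ := (jca_I_diff hIZ (n₁.le.trans h1) (n₂.le.trans h1)).continuousAt
  exact (((c₁.pow 2).mul (c₂.pow 2)).mul c₃).continuousWithinAt

theorem jca_UU {ε : ℝ} (h1 : ε ≤ 1 / 100) {z a₁ a₂ : ℂ} (hz : ε / 2 < z.re) (hz' : z.re < 6)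
    (h₁ : ‖a₁‖ ≤ ε / 2) (h₂ : ‖a₂‖ ≤ ε / 2) : UU z (z + a₁) (z + a₂) := by
  have r₁ := (jca_re h₁).1
  have r₂ := (jca_re h₂).1
  have e0 : 0 ≤ ε / 2 := (norm_nonneg _).trans h₁
  unfold UU
  simp only [add_sub_cancel_left, Complex.add_re]
  refine ⟨?_, ?_, ?_, ?_, ?_, ?_⟩ <;> linarith

theorem jca_shift (z : ℂ) (ρ : ℝ) (f : ℂ → ℂ) : Oc z ρ f = Oc 0 ρ fun a => f (z + a) := by
  simp only [Oc, zero_add]

theorem jca_Jc (w : ℂ → ℂ) (P : Finset ℕ) (R : (ℕ → ℤ) → ℝ) (ε : ℝ) (z : ℂ) :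
    Jc w P R ε z = Oc 0 (ε / 2) fun a₁ => Oc 0 (ε / 2) fun a₂ =>
      w (z + a₁) * wt w (z + a₂) * Zc P R 1 z (z + a₁) (z + a₂) := by
  simp only [Jc, Oc, zero_add]

theorem jca_part1 (hPH2 : PH2) (hHA : HA) (hIZ : IZ) (hLOP : LOP) {w : ℂ → ℂ} {P : Finset ℕ}
    (R : (ℕ → ℤ) → ℝ) {ε : ℝ} (hP : OP P) (h0 : 0 < ε) (h1 : ε ≤ 1 / 100)
    (dw : DifferentiableOn ℂ w {s | 0 < s.re}) (dv : DifferentiableOn ℂ (wt w) {s | 0 < s.re}) :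
    DifferentiableOn ℂ (Jc w P R ε) (OStrip (ε / 2) 6) := by
  have hρ : 0 < ε / 2 := by linarith
  have hO : IsOpen {s : ℂ | 0 < s.re} := isOpen_lt continuous_const Complex.continuous_re
  have hU : IsOpen (OStrip (ε / 2) 6) :=
    (isOpen_lt continuous_const Complex.continuous_re).inter
      (isOpen_lt Complex.continuous_re continuous_const)
  obtain ⟨hc, hd⟩ := hHA P R 1 hP
  have key := hPH2.1 (OStrip (ε / 2) 6) (ε / 2)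
    (fun z a₁ a₂ => w (z + a₁) * wt w (z + a₂) * Zc P R 1 z (z + a₁) (z + a₂)) hU hρ ?_ ?_
  · exact key.congr fun z _ => jca_Jc w P R ε z
  · have hm : ∀ x ∈ OStrip (ε / 2) 6 ×ˢ Metric.sphere (0 : ℂ) (ε / 2) ×ˢ
        Metric.sphere (0 : ℂ) (ε / 2), UU x.1 (x.1 + x.2.1) (x.1 + x.2.2) := by
      rintro ⟨z, a₁, a₂⟩ ⟨⟨hz, hz'⟩, m₁, m₂⟩
      exact jca_UU h1 hz hz' (le_of_eq (by simpa using m₁)) (le_of_eq (by simpa using m₂))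
    have c₁ : ContinuousOn (fun x : ℂ × ℂ × ℂ => w (x.1 + x.2.1)) (OStrip (ε / 2) 6 ×ˢ
        Metric.sphere (0 : ℂ) (ε / 2) ×ˢ Metric.sphere (0 : ℂ) (ε / 2)) :=
      dw.continuousOn.comp (by fun_prop) fun x hx => (hm x hx).2.2.1
    have c₂ : ContinuousOn (fun x : ℂ × ℂ × ℂ => wt w (x.1 + x.2.2)) (OStrip (ε / 2) 6 ×ˢ
        Metric.sphere (0 : ℂ) (ε / 2) ×ˢ Metric.sphere (0 : ℂ) (ε / 2)) :=
      dv.continuousOn.comp (by fun_prop) fun x hx => (hm x hx).2.2.2.1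
    have c₃ : ContinuousOn (fun x : ℂ × ℂ × ℂ => jcaF x.2.1 x.2.2) (OStrip (ε / 2) 6 ×ˢ
        Metric.sphere (0 : ℂ) (ε / 2) ×ˢ Metric.sphere (0 : ℂ) (ε / 2)) :=
      (jca_F_cont hIZ hρ (by linarith)).comp continuous_snd.continuousOn fun x hx => hx.2
    have c₄ : ContinuousOn (fun x : ℂ × ℂ × ℂ => Hh P R 1 x.1 (x.1 + x.2.1) (x.1 + x.2.2))
        (OStrip (ε / 2) 6 ×ˢ Metric.sphere (0 : ℂ) (ε / 2) ×ˢ Metric.sphere (0 : ℂ) (ε / 2)) :=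
      hc.comp (f := fun x : ℂ × ℂ × ℂ => (x.1, x.1 + x.2.1, x.1 + x.2.2)) (by fun_prop) hm
    refine ((c₁.mul c₂).mul (c₃.mul c₄)).congr ?_
    rintro ⟨z, a₁, a₂⟩ ⟨_, m₁, m₂⟩
    have n₁ : ‖a₁‖ = ε / 2 := by simpa using m₁
    have n₂ : ‖a₂‖ = ε / 2 := by simpa using m₂
    simp only [Pi.mul_apply]
    rw [jca_Zc hLOP P R z (norm_pos_iff.mp (n₁ ▸ hρ)) (norm_pos_iff.mp (n₂ ▸ hρ))]
  · intro a₁ m₁ a₂ m₂ z hz
    have n₁ : ‖a₁‖ = ε / 2 := by simpa using m₁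
    have n₂ : ‖a₂‖ = ε / 2 := by simpa using m₂
    have hu := jca_UU h1 hz.1 hz.2 n₁.le n₂.le
    have d₁ : DifferentiableAt ℂ (fun u => w (u + a₁)) z :=
      (dw.differentiableAt (hO.mem_nhds hu.2.2.1)).comp z (f := fun u => u + a₁) (by fun_prop)
    have d₂ : DifferentiableAt ℂ (fun u => wt w (u + a₂)) z :=
      (dv.differentiableAt (hO.mem_nhds hu.2.2.2.1)).comp z (f := fun u => u + a₂) (by fun_prop)
    have d₃ := (hd z (z + a₁) (z + a₂) hu).2.2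
    simp only [add_sub_cancel_left] at d₃
    have e : (fun u => w (u + a₁) * wt w (u + a₂) * Zc P R 1 u (u + a₁) (u + a₂)) =
        fun u => w (u + a₁) * wt w (u + a₂) * (jcaF a₁ a₂ * Hh P R 1 u (u + a₁) (u + a₂)) := by
      funext u
      rw [jca_Zc hLOP P R u (norm_pos_iff.mp (n₁ ▸ hρ)) (norm_pos_iff.mp (n₂ ▸ hρ))]
    rw [e]
    exact ((d₁.mul d₂).mul ((differentiableAt_const _).mul d₃)).differentiableWithinAt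

theorem jca_part2 (hPH2 : PH2) (hHA : HA) (hIZ : IZ) (hLOP : LOP) {w : ℂ → ℂ} {P : Finset ℕ}
    (R : (ℕ → ℤ) → ℝ) {ε : ℝ} (hP : OP P) (h0 : 0 < ε) (h1 : ε ≤ 1 / 100) {g : ℂ → ℂ}
    (dg : DifferentiableOn ℂ g {s | 0 < s.re})
    (eg : ∀ s : ℂ, 0 < s.re → wt w s = (s - 1 / 2) ^ 2 * g s) : Jc w P R ε (1 / 2) = 0 := by
  have hρ : 0 < ε / 2 := by linarith
  have hO : IsOpen {s : ℂ | 0 < s.re} := isOpen_lt continuous_const Complex.continuous_re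
  obtain ⟨-, hd⟩ := hHA P R 1 hP
  have hre : ((1 / 2 : ℂ)).re = 1 / 2 := by norm_num
  rw [jca_Jc]
  refine hPH2.2.2 0 (ε / 2) _ (fun _ => 0) hρ ?_ (differentiableOn_const 0)
  intro a₁ m₁
  have n₁ : ‖a₁‖ = ε / 2 := by simpa using m₁
  refine hPH2.2.2 0 (ε / 2) _ (fun a₂ => w (1 / 2 + a₁) * g (1 / 2 + a₂) *
    ((jcaN a₁ / a₁) ^ 2 * jcaN a₂ ^ 2 * jcaI a₁ a₂ *
      Hh P R 1 (1 / 2) (1 / 2 + a₁) (1 / 2 + a₂))) hρ ?_ ?_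
  · intro a₂ m₂
    have n₂ : ‖a₂‖ = ε / 2 := by simpa using m₂
    have z₂ : a₂ ≠ 0 := norm_pos_iff.mp (n₂ ▸ hρ)
    have hu : UU (1 / 2) (1 / 2 + a₁) (1 / 2 + a₂) :=
      jca_UU h1 (by rw [hre]; linarith) (by rw [hre]; linarith) n₁.le n₂.le
    rw [jca_Zc hLOP P R _ (norm_pos_iff.mp (n₁ ▸ hρ)) z₂, eg _ hu.2.2.2.1, add_sub_cancel_left,
      jcaF]
    field_simp
  · intro a₂ m₂
    have n₂ : ‖a₂‖ ≤ ε / 2 := by simpa using m₂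
    have hu : UU (1 / 2) (1 / 2 + a₁) (1 / 2 + a₂) :=
      jca_UU h1 (by rw [hre]; linarith) (by rw [hre]; linarith) n₁.le n₂
    have d₁ : DifferentiableAt ℂ (fun u => g (1 / 2 + u)) a₂ :=
      (dg.differentiableAt (hO.mem_nhds hu.2.2.2.1)).comp a₂ (f := fun u => 1 / 2 + u)
        (by fun_prop)
    have d₂ : DifferentiableAt ℂ (fun u => jcaI a₁ u) a₂ :=
      (jca_I_diff hIZ (n₁.le.trans (by linarith)) (n₂.trans (by linarith))).comp a₂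
        (f := fun u => (a₁, u)) (by fun_prop)
    have d₃ : DifferentiableAt ℂ (fun u => Hh P R 1 (1 / 2) (1 / 2 + a₁) (1 / 2 + u)) a₂ :=
      (hd _ _ _ hu).2.1.comp a₂ (f := fun u => 1 / 2 + u) (by fun_prop)
    exact (((differentiableAt_const _).mul d₁).mul
      ((((differentiableAt_const _).mul ((jca_N_diff a₂).pow 2)).mul d₂).mul
        d₃)).differentiableWithinAt

theorem jca_wle {w : ℂ → ℂ} {ε N t₀ W : ℝ} (h1 : ε ≤ 1 / 100) (hN : 1 ≤ N) (hW : 0 ≤ W)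
    (hF : Far w ε N t₀ W) {s : ℂ} (l : ε / 2 ≤ s.re) (u : s.re ≤ 1) : ‖w s‖ ≤ W * N := by
  refine (hF.2 s l (by linarith)).trans ?_
  have a : N ^ s.re ≤ N := by
    simpa using Real.rpow_le_rpow_of_exponent_le hN u
  have b : Real.exp (-|s.im - t₀|) ≤ 1 := Real.exp_le_one_iff.mpr (by simp)
  calc W * N ^ s.re * Real.exp (-|s.im - t₀|) ≤ W * N ^ s.re * 1 := by gcongr
    _ ≤ W * N := by rw [mul_one]; gcongr

theorem pJCA (hPH2 : PH2) (hHA : HA) (hH1 : H1) (hIZ : IZ) (hLOP : LOP) (hZT : ZT) (hFW : FW) (hLEN : LEN) : JCA := by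
  intro w P B R Y ε N t₀ W hP hL h0 h1 hN hF
  have hF' := hFW.1 w ε N t₀ W hF
  obtain ⟨dw, -, hW⟩ := hFW.2.1 w ε N t₀ W h0 (by linarith) hF
  obtain ⟨dv, -, -⟩ := hFW.2.1 (wt w) ε N (-t₀) W h0 (by linarith) hF'
  have hW0 : 0 ≤ W := hW (by linarith)
  obtain ⟨g, dg, eg⟩ := hF'.1
  refine ⟨jca_part1 hPH2 hHA hIZ hLOP R hP h0 h1 dw dv,
    jca_part2 hPH2 hHA hIZ hLOP R hP h0 h1 dg eg, ?_⟩
  have hρ : 0 < ε / 2 := by linarith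
  obtain ⟨C, B', hC, -, hH⟩ := hH1
  obtain ⟨Y', hY'⟩ := (hLEN.2.1 P B R Y hL).2 B'
  have hY0 := (hLEN.2.1 P B' R Y' hY').1
  obtain ⟨M, hM⟩ := ((isCompact_sphere (0 : ℂ) (ε / 2)).prod
    (isCompact_sphere (0 : ℂ) (ε / 2))).exists_bound_of_continuousOn
      (jca_F_cont hIZ hρ (by linarith))
  set q : ℝ := 1 + 1 / (ε / 2) with hq
  refine ⟨2 * π * (ε / 2) * (2 * π * (ε / 2) *
    (W * N * (W * N) * (M * (C * Y' * q ^ 3 * q ^ 4 * q ^ 3 * q ^ 2 * q ^ 2)))), ?_⟩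
  intro z hz
  rw [jca_Jc]
  refine hPH2.2.1 0 (ε / 2) _ _ hρ fun a₁ m₁ => hPH2.2.1 0 (ε / 2) _ _ hρ fun a₂ m₂ => ?_
  have n₁ : ‖a₁‖ = ε / 2 := by simpa using m₁
  have n₂ : ‖a₂‖ = ε / 2 := by simpa using m₂
  have r₁ := jca_re n₁.le
  have r₂ := jca_re n₂.le
  obtain ⟨zl, zu⟩ := hz
  have hu : UU z (z + a₁) (z + a₂) := jca_UU h1 (by linarith) (by linarith) n₁.le n₂.le
  have l₁ : ε / 2 ≤ (z + a₁).re := by rw [Complex.add_re]; linarith [r₁.1]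
  have l₂ : ε / 2 ≤ (z + a₂).re := by rw [Complex.add_re]; linarith [r₂.1]
  have u₁ : (z + a₁).re ≤ 1 := by rw [Complex.add_re]; linarith [r₁.2]
  have u₂ : (z + a₂).re ≤ 1 := by rw [Complex.add_re]; linarith [r₂.2]
  have b₁ := jca_wle h1 hN hW0 hF l₁ u₁
  have b₂ := jca_wle h1 hN hW0 hF' l₂ u₂
  have b₃ : ‖jcaF a₁ a₂‖ ≤ M := hM (a₁, a₂) ⟨m₁, m₂⟩
  have hM0 : 0 ≤ M := (norm_nonneg _).trans b₃
  have hx : ∀ x : ℝ, ε / 2 ≤ x → 0 ≤ 1 + 1 / x ∧ 1 + 1 / x ≤ q := fun x hx =>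
    ⟨by have : 0 < x := hρ.trans_le hx
        positivity, by rw [hq]; gcongr⟩
  have hq0 : 0 ≤ q := by positivity
  obtain ⟨p₁, q₁⟩ := hx _ l₁
  obtain ⟨p₂, q₂⟩ := hx _ l₂
  obtain ⟨p₃, q₃⟩ := hx ((z + a₁).re + (z + a₂).re) (by linarith)
  obtain ⟨p₄, q₄⟩ := hx (z.re + (z + a₁).re) (by linarith)
  obtain ⟨p₅, q₅⟩ := hx (z.re + (z + a₂).re) (by linarith)
  have b₄ : ‖Hh P R 1 z (z + a₁) (z + a₂)‖ ≤ C * Y' * q ^ 3 * q ^ 4 * q ^ 3 * q ^ 2 * q ^ 2 := by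
    refine (hH P R Y' 1 z _ _ hP hY' hu).trans ?_
    gcongr
  rw [jca_Zc hLOP P R z (norm_pos_iff.mp (n₁ ▸ hρ)) (norm_pos_iff.mp (n₂ ▸ hρ)), norm_mul,
    norm_mul, norm_mul]
  have hWN : 0 ≤ W * N := by positivity
  gcongr

end Pool.Agent.QM
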