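import Pool.Agent.P.MP_ea46f5_nt.QM.S2

namespace Pool.Agent.QM

open Real Finset

section

variable {P P' : Finset ℕ} {B B' : ℕ} {Y Y' : ℝ} {R R' : (ℕ → ℤ) → ℝ}

theorem len_nonneg (h : HasLen P B R Y) : 0 ≤ Y := by
  obtain ⟨ι, _, l, r, -, -, h3⟩ := h
  exact le_trans (sum_nonneg fun i _ => by positivity) h3

theorem len_mono (h : HasLen P B R Y) (hP : P ⊆ P') (hB : B' ≤ B) (hY : Y ≤ Y') :
    HasLen P' B' R Y' := by
  obtain ⟨ι, _, l, r, h1, h2, h3⟩ := h
  refine ⟨ι, inferInstance, l, r, fun i => ⟨(h1 i).1, (h1 i).2.trans hP⟩, h2,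
    le_trans (sum_le_sum fun i _ => ?_) (h3.trans hY)⟩
  have : (1 : ℝ) ≤ l i := by exact_mod_cast Nat.one_le_iff_ne_zero.2 (h1 i).1
  exact mul_le_mul_of_nonneg_left (pow_le_pow_right₀ this hB) (abs_nonneg _)

theorem len_congr (h : HasLen P B R Y) (hR : ∀ x, R' x = R x) : HasLen P B R' Y := by
  rwa [show R' = R from funext hR]

theorem len_const (P : Finset ℕ) (B : ℕ) (c : ℝ) : HasLen P B (fun _ => c) |c| :=
  ⟨Unit, inferInstance, fun _ => 1, fun _ => c, fun _ => by simp, fun x => by simp [mon], by simp⟩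

theorem len_var {p : ℕ} (hp : p.Prime) (hP : p ∈ P) (B : ℕ) :
    HasLen P B (fun x => (x p : ℝ)) ((p : ℝ) ^ B) :=
  ⟨Unit, inferInstance, fun _ => p, fun _ => 1,
    fun _ => ⟨hp.ne_zero, by simpa [hp.primeFactors] using hP⟩,
    fun x => by simp [mon, hp.primeFactors, hp.factorization_self], by simp⟩

theorem len_add (h : HasLen P B R Y) (h' : HasLen P B R' Y') :
    HasLen P B (fun x => R x + R' x) (Y + Y') := by
  obtain ⟨ι, _, l, r, h1, h2, h3⟩ := h
  obtain ⟨ι', _, l', r', h1', h2', h3'⟩ := h'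
  refine ⟨ι ⊕ ι', inferInstance, Sum.elim l l', Sum.elim r r', ?_, fun x => ?_, ?_⟩
  · rintro (i | i)
    · exact h1 i
    · exact h1' i
  · beta_reduce
    rw [Fintype.sum_sum_type, h2, h2']; rfl
  · rw [Fintype.sum_sum_type]; exact add_le_add h3 h3'

theorem len_mul (hE : EXL) (h : HasLen P B R Y) (h' : HasLen P B R' Y') :
    HasLen P B (fun x => R x * R' x) (Y * Y') := by
  have hY := len_nonneg h
  obtain ⟨ι, _, l, r, h1, h2, h3⟩ := h
  obtain ⟨ι', _, l', r', h1', h2', h3'⟩ := h'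
  refine ⟨ι × ι', inferInstance, fun i => l i.1 * l' i.2, fun i => r i.1 * r' i.2, ?_,
    fun x => ?_, ?_⟩
  · rintro ⟨i, j⟩
    refine ⟨mul_ne_zero (h1 i).1 (h1' j).1, ?_⟩
    rw [Nat.primeFactors_mul (h1 i).1 (h1' j).1]
    exact union_subset (h1 i).2 (h1' j).2
  · beta_reduce
    rw [h2, h2', sum_mul_sum, Fintype.sum_prod_type]
    refine sum_congr rfl fun i _ => sum_congr rfl fun j _ => ?_
    rw [hE.2.2.2.2.1 x _ _ (h1 i).1 (h1' j).1]
    push_cast
    ring
  · have h0 : 0 ≤ ∑ i, |r' i| * (l' i : ℝ) ^ B := sum_nonneg fun i _ => by positivity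
    refine le_trans (le_of_eq ?_) (mul_le_mul h3 h3' h0 hY)
    rw [sum_mul_sum, Fintype.sum_prod_type]
    refine sum_congr rfl fun i _ => sum_congr rfl fun j _ => ?_
    rw [abs_mul, Nat.cast_mul, mul_pow]
    ring

theorem len_smul (hE : EXL) (h : HasLen P B R Y) (c : ℝ) :
    HasLen P B (fun x => c * R x) (|c| * Y) := len_mul hE (len_const P B c) h

theorem len_pow (hE : EXL) (h : HasLen P B R Y) (n : ℕ) :
    HasLen P B (fun x => R x ^ n) (Y ^ n) := by
  induction n with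
  | zero => simpa using len_const P B 1
  | succ n ih => simpa [pow_succ] using len_mul hE ih h

theorem len_sum (s : Finset ℕ) {F : ℕ → (ℕ → ℤ) → ℝ} {y : ℕ → ℝ}
    (h : ∀ i ∈ s, HasLen P B (F i) (y i)) :
    HasLen P B (fun x => ∑ i ∈ s, F i x) (∑ i ∈ s, y i) := by
  induction s using Finset.induction_on with
  | empty => simpa using len_const P B 0
  | insert a s ha ih =>
    simp only [sum_insert ha]
    exact len_add (h a (mem_insert_self _ _)) (ih fun i hi => h i (mem_insert_of_mem hi))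

theorem len_prod (hE : EXL) (s : Finset ℕ) {F : ℕ → (ℕ → ℤ) → ℝ} {y : ℕ → ℝ}
    (h : ∀ i ∈ s, HasLen P B (F i) (y i)) :
    HasLen P B (fun x => ∏ i ∈ s, F i x) (∏ i ∈ s, y i) := by
  induction s using Finset.induction_on with
  | empty => simpa using len_const P B 1
  | insert a s ha ih =>
    simp only [prod_insert ha]
    exact len_mul hE (h a (mem_insert_self _ _)) (ih fun i hi => h i (mem_insert_of_mem hi))

end

theorem len_Pb (hE : EXL) {S : Finset ℕ} {lam : ℝ} (B : ℕ)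
    (hS : ∀ p ∈ S, p.Prime ∧ (p : ℝ) ≤ exp lam) : HasLen S B (Pb S) (exp ((B + 1) * lam)) := by
  have h := len_sum (P := S) (B := B) S (F := fun p x => (1 / √p) * (x p : ℝ))
    (y := fun p => |1 / √p| * (p : ℝ) ^ B) fun p hp => len_smul hE (len_var (hS p hp).1 hp B) _
  refine len_mono (len_congr h fun x => sum_congr rfl fun p _ => by ring) Subset.rfl le_rfl ?_
  have hc : (S.card : ℝ) ≤ exp lam := by
    have : S ⊆ Icc 1 ⌊exp lam⌋₊ := fun p hp =>
      mem_Icc.2 ⟨(hS p hp).1.one_le, Nat.le_floor (hS p hp).2⟩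
    have h2 := card_le_card this
    rw [Nat.card_Icc, Nat.add_sub_cancel] at h2
    exact le_trans (by exact_mod_cast h2) (Nat.floor_le (exp_pos _).le)
  have h3 : ∀ p ∈ S, |1 / √p| * (p : ℝ) ^ B ≤ exp (B * lam) := by
    intro p hp
    have hp1 : (1 : ℝ) ≤ p := by exact_mod_cast (hS p hp).1.one_le
    have h4 : |1 / √p| ≤ 1 := by
      rw [abs_of_nonneg (by positivity), div_le_one (by positivity)]
      exact Real.one_le_sqrt.2 hp1
    have h5 : (p : ℝ) ^ B ≤ exp (B * lam) := by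
      rw [exp_nat_mul]
      exact pow_le_pow_left₀ (by positivity) (hS p hp).2 B
    calc |1 / √p| * (p : ℝ) ^ B ≤ 1 * exp (B * lam) := by gcongr
      _ = _ := one_mul _
  refine (sum_le_card_nsmul _ _ _ h3).trans ?_
  rw [nsmul_eq_mul, add_mul, one_mul, exp_add, mul_comm]
  gcongr

theorem len_Et (hE : EXL) {S : Finset ℕ} {lam θ : ℝ} (B : ℕ) (hlam : 0 ≤ lam) (hθ : |θ| ≤ 2)
    (l : ℕ) (hS : ∀ p ∈ S, p.Prime ∧ (p : ℝ) ≤ exp lam) :
    HasLen S B (fun x => Et l (θ * Pb S x) ^ 2) (exp (4 + 2 * (B + 1) * lam * l)) := by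
  have h0 := len_smul hE (len_Pb hE B hS) θ
  have h := len_sum (P := S) (B := B) (range (l + 1))
    (F := fun j x => (1 / (j.factorial : ℝ)) * (θ * Pb S x) ^ j)
    (y := fun j => |1 / (j.factorial : ℝ)| * (|θ| * exp ((B + 1) * lam)) ^ j)
    fun j _ => len_smul hE (len_pow hE h0 j) _
  have h1 : HasLen S B (fun x => Et l (θ * Pb S x)) (exp (2 + (B + 1) * lam * l)) := by
    refine len_mono (len_congr h fun x => sum_congr rfl fun j _ => by ring) Subset.rfl le_rfl ?_
    have hY : 1 ≤ exp ((B + 1) * lam) := one_le_exp (by positivity)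
    have h2 : ∀ j ∈ range (l + 1), |1 / (j.factorial : ℝ)| * (|θ| * exp ((B + 1) * lam)) ^ j ≤
        2 ^ j / (j.factorial : ℝ) * exp ((B + 1) * lam * l) := by
      intro j hj
      have hj' : j ≤ l := Nat.lt_succ_iff.1 (mem_range.1 hj)
      have h3 : exp ((B + 1) * lam) ^ j ≤ exp ((B + 1) * lam * l) := by
        rw [mul_comm _ (l : ℝ), exp_nat_mul]
        exact pow_le_pow_right₀ hY hj'
      rw [abs_of_nonneg (by positivity), mul_pow]
      calc 1 / (j.factorial : ℝ) * (|θ| ^ j * exp ((B + 1) * lam) ^ j)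
          ≤ 1 / (j.factorial : ℝ) * (2 ^ j * exp ((B + 1) * lam * l)) := by gcongr
        _ = _ := by ring
    refine (sum_le_sum h2).trans ?_
    rw [← sum_mul, exp_add]
    gcongr
    exact Real.sum_le_exp_of_nonneg (by norm_num) _
  refine len_mono (len_pow hE h1 2) Subset.rfl le_rfl (le_of_eq ?_)
  rw [← exp_nat_mul]
  congr 1
  push_cast
  ring

theorem len_QQ (hE : EXL) {S : Finset ℕ} {lam : ℝ} (B l : ℕ)
    (hS : ∀ p ∈ S, p.Prime ∧ (p : ℝ) ≤ exp lam) :
    HasLen S B (QQ S l) (exp (2 * (l : ℝ) * (4 + (B + 1) * lam))) := by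
  have h := len_pow hE (len_smul hE (len_Pb hE B hS) (40 / l)) (2 * l)
  refine len_mono (len_congr h fun x => by unfold QQ; congr 1; ring) Subset.rfl le_rfl ?_
  have h1 : |(40 : ℝ) / l| ≤ exp 4 := by
    rw [abs_of_nonneg (by positivity)]
    have h2 : (40 : ℝ) / l ≤ 40 := by
      rcases Nat.eq_zero_or_pos l with h | h
      · simp [h]
      · exact div_le_self (by norm_num) (by exact_mod_cast h)
    have h3 : exp 4 = exp 1 ^ 4 := by rw [← exp_nat_mul]; norm_num
    have h4 : (2.7 : ℝ) ^ 4 ≤ exp 1 ^ 4 :=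
      pow_le_pow_left₀ (by norm_num) (by linarith [Real.exp_one_gt_d9]) _
    rw [h3]
    refine h2.trans (le_trans (by norm_num) h4)
  calc (|(40 : ℝ) / l| * exp ((B + 1) * lam)) ^ (2 * l)
      ≤ (exp 4 * exp ((B + 1) * lam)) ^ (2 * l) := by gcongr
    _ = _ := by
      rw [← exp_add, ← exp_nat_mul]
      congr 1
      push_cast
      ring

theorem pLEN (hEXL : EXL) : LEN := by
  refine ⟨fun P P' B B' R Y Y' h hP hB hY => len_mono h hP hB hY,
    fun P B R Y h => ⟨len_nonneg h, fun B' => ?_⟩,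
    fun P B R R' Y Y' h h' => len_mul hEXL h h', fun S Bl l lam θ B hθ hS => ?_,
    fun Bl l lam B _ hS => len_QQ hEXL B l hS⟩
  · obtain ⟨ι, _, l, r, h1, h2, -⟩ := h
    exact ⟨_, ι, inferInstance, l, r, h1, h2, le_rfl⟩
  · rw [exp_sum]
    exact len_prod hEXL S fun i hi => len_mono
      (len_Et hEXL B (hS i hi).1 hθ (l i) (hS i hi).2) (subset_biUnion_of_mem Bl hi) le_rfl le_rfl

end Pool.Agent.QM
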