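import Pool.Agent.P.MP_ea46f5_nt.QM.S1
import Pool.Agent.P.MP_ea46f5_nt.QM.LoB

namespace Pool.Agent.QM

open Complex MeasureTheory Finset
open scoped Real ComplexConjugate

theorem pLOB (hLOP : LOP) : LOB := by
  have _ := hLOP
  exact fun _ _ hk h1 hs => norm_Lo_le hk h1 hs

end Pool.Agent.QM
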