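import Pool.Agent.P.MP_ea46f5_nt.QM.FLOCb

namespace Pool.Agent.QM

open Complex MeasureTheory Finset
open scoped Real ComplexConjugate

theorem pLOC : LOC := by
  have hq : (7 / 10 : ℝ) < 1 := by norm_num
  obtain ⟨C1, hC1, H1⟩ := loc_unram_abs hq
  obtain ⟨C2, hC2, H2⟩ := loc_ram_abs hq
  refine ⟨C1 + C2 + 1, 33, by linarith, by norm_num, fun p k z s₁ s₂ hp h2 hU => ⟨?_, ?_⟩⟩
  · obtain ⟨a1, a2, b1, b2, z0, z7⟩ := hU
    have h3 := three_le_of hp h2
    have hp0 := hp.pos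
    have pp : (0 : ℝ) < p := by linarith
    set r : ℝ := (p : ℝ) ^ (-(9 / 20) : ℝ) with hr
    have r0 : 0 ≤ r := Real.rpow_nonneg pp.le _
    have r1 : r ≤ 7 / 10 := rpow_neg_le h3 (by norm_num)
    have r2 : r ^ 2 = (p : ℝ) ^ (-(9 / 10) : ℝ) := by
      rw [hr, ← Real.rpow_natCast, ← Real.rpow_mul pp.le]; norm_num
    have r3 : r ^ 3 = (p : ℝ) ^ (-(27 / 20) : ℝ) := by
      rw [hr, ← Real.rpow_natCast, ← Real.rpow_mul pp.le]; norm_num
    have x1 : ‖xs s₁ p‖ ≤ r := loc_xs hp0 b1.le (by norm_num)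
    have x2 : ‖xs s₂ p‖ ≤ r := loc_xs hp0 b2.le (by norm_num)
    have r3' : 0 ≤ r ^ 3 := pow_nonneg r0 3
    simp only [sub_re] at a1 a2
    rw [← r3, loc_zero]
    by_cases hk : (p : ℤ) ∣ k
    · have j0 := loc_j0 hp hk
      have e : ∀ s t : ℂ, (p : ℂ) ^ (2 * z - 1) * xs s p * xs t p
          = (p : ℂ) ^ (-(2 + (s - z) + (t - z))) := by
        intro s t
        unfold xs
        rw [cp_add hp0, cp_add hp0]
        congr 1
        ring
      have n : ∀ s t : ℂ, -(11 / 20) < s.re - z.re → -(11 / 20) < t.re - z.re →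
          ‖(p : ℂ) ^ (2 * z - 1) * xs s p * xs t p‖ ≤ r ^ 2 := by
        intro s t hs ht
        rw [e, r2]
        exact norm_cp_le hp0 (by simp; linarith)
      have := H2 r (xs s₁ p) (xs s₂ p) ((p : ℂ) ^ (2 * z - 1)) r0 r1 x1 x2 (n _ _ a1 a1)
        (n _ _ a1 a2) (n _ _ a2 a2)
      rw [e, e, e] at this
      refine le_trans (le_of_eq_of_le (congrArg _ ?_) this) (by nlinarith)
      unfold fp Qp Up ok ek
      rw [loc_jo hp h2, j0, if_pos hk, show 2 + (s₁ - z) + (s₁ - z) = 2 + 2 * (s₁ - z) by ring,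
        show 2 + (s₂ - z) + (s₂ - z) = 2 + 2 * (s₂ - z) by ring]
      simp only [Int.cast_zero, div_eq_mul_inv]
      ring
    · have j1 := loc_j1 hp hk
      set χ : ℂ := (jacobiSym k p : ℂ) with hχ
      have jl : ‖χ‖ ≤ 1 := loc_jle k p
      have eux : ∀ s : ℂ, χ * (p : ℂ) ^ (z - 1 / 2) * xs s p = χ * (p : ℂ) ^ (-(1 + (s - z))) := by
        intro s
        unfold xs
        rw [mul_assoc, cp_add hp0]
        congr 2
        ring
      have euv : χ * (p : ℂ) ^ (z - 1 / 2) * (χ * (p : ℂ) ^ (-(z + 1 / 2))) = 1 / (p : ℂ) := by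
        rw [mul_mul_mul_comm, j1, cp_add hp0, one_mul,
          show z - 1 / 2 + -(z + 1 / 2) = -1 by ring, Complex.cpow_neg_one, one_div]
      have ezz : ∀ s t : ℂ, χ * (p : ℂ) ^ (-(1 + (s - z))) * (χ * (p : ℂ) ^ (-(1 + (t - z))))
          = (p : ℂ) ^ (-(2 + (s - z) + (t - z))) := by
        intro s t
        rw [mul_mul_mul_comm, j1, cp_add hp0, one_mul]
        congr 1
        ring
      have eo : ok k z p = χ * (p : ℂ) ^ (z - 1 / 2) - χ * (p : ℂ) ^ (-(z + 1 / 2)) := by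
        unfold ok
        rw [mul_assoc, mul_sub, cp_add hp0, cp_add hp0, mul_sub,
          show -(1 / 2) + z = z - 1 / 2 by ring, show -(1 / 2) + -z = -(z + 1 / 2) by ring]
      have n : ∀ s : ℂ, -(11 / 20) < s.re - z.re → ‖χ * (p : ℂ) ^ (z - 1 / 2) * xs s p‖ ≤ r := by
        intro s hs
        rw [eux]
        exact loc_mul_le jl (norm_cp_le hp0 (by simp; linarith))
      have nv : ‖χ * (p : ℂ) ^ (-(z + 1 / 2))‖ ≤ r :=
        loc_mul_le jl (norm_cp_le hp0 (by simp; linarith))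
      have nuv : ‖χ * (p : ℂ) ^ (z - 1 / 2) * (χ * (p : ℂ) ^ (-(z + 1 / 2)))‖ ≤ r ^ 2 := by
        rw [euv, r2, one_div, ← Complex.cpow_neg_one]
        exact norm_cp_le hp0 (by simp; norm_num)
      have := H1 r (xs s₁ p) (xs s₂ p) (χ * (p : ℂ) ^ (z - 1 / 2)) (χ * (p : ℂ) ^ (-(z + 1 / 2)))
        r0 r1 x1 x2 nv (n _ a1) (n _ a2) nuv
      rw [euv, eux, eux, ezz, ezz, ezz, ← eo] at this
      refine le_trans (le_of_eq_of_le (congrArg _ ?_) this) (by nlinarith)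
      unfold fp Qp Up ek
      rw [loc_jo hp h2, if_neg hk, show 2 + (s₁ - z) + (s₁ - z) = 2 + 2 * (s₁ - z) by ring,
        show 2 + (s₂ - z) + (s₂ - z) = 2 + 2 * (s₂ - z) by ring, ← hχ]
      simp only [div_eq_mul_inv]
      ring
  · obtain ⟨a1, a2, b1, b2, z0, z7⟩ := hU
    intro v hv
    have h3 := three_le_of hp h2
    have m1 := loc_mu_le hp h2 k b1.le b2.le z0.le z7.le (y := 1) (by norm_num) (by simp)
    have m2 := loc_mu_le hp h2 k b1.le b2.le z0.le z7.le (y := -1) (by norm_num) (by simp)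
    have hf := loc_fp_le hp h2 k a1 a2
    have hl : ‖locv k z s₁ s₂ p v‖ ≤ 4 * (p : ℝ) ^ 13 * (10 / 3) ^ 4 := by
      unfold locv
      rw [loc_sum, Int.cast_zero, zero_pow (by omega), mul_zero, zero_add]
      refine (norm_add_le _ _).trans ?_
      simp only [norm_mul, norm_pow, Int.cast_neg, Int.cast_one, norm_neg, norm_one, one_pow,
        mul_one]
      linarith
    rw [norm_mul]
    calc _ ≤ 4 * (p : ℝ) ^ 13 * (10 / 3) ^ 4 * (2 ^ 4 * (10 / 3) ^ 10) := by gcongr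
      _ = (p : ℝ) ^ 13 * (64 * (10 / 3) ^ 14) := by ring
      _ ≤ (p : ℝ) ^ 13 * 3 ^ 20 := by gcongr; norm_num
      _ ≤ (p : ℝ) ^ 13 * (p : ℝ) ^ 20 := by gcongr
      _ = (p : ℝ) ^ 33 := by ring

end Pool.Agent.QM
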