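import Pool.Agent.P.MP_ea46f5_nt.QM.FLOCb

namespace Pool.Agent.QM

open Complex MeasureTheory Finset
open scoped Real ComplexConjugate

/-- parameters of the diagonal local factor. -/
structure LD where
  r : ℝ
  x : ℂ
  y : ℂ
  w : ℂ
  h0 : 0 ≤ r
  h1 : r ≤ 7 / 10
  hx : ‖x‖ ≤ r
  hy : ‖y‖ ≤ r
  hw : ‖w‖ ≤ r ^ 2

theorem l0_abs : ∃ C : ℝ, 0 ≤ C ∧ ∀ (r : ℝ) (x y w : ℂ),
    0 ≤ r → r ≤ 7 / 10 → ‖x‖ ≤ r → ‖y‖ ≤ r → ‖w‖ ≤ r ^ 2 →
    ‖w + (1 - w) * ((1 - x) ^ 2 * (1 - y) ^ 2)⁻¹ / 2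
        + (1 - w) * ((1 + x) ^ 2 * (1 + y) ^ 2)⁻¹ / 2
      - 1 - (3 * x ^ 2 + 4 * (x * y) + 3 * y ^ 2)‖ ≤ C * r ^ 4 := by
  have hq : (7 / 10 : ℝ) < 1 := by norm_num
  let r : LD → ℝ := fun i => i.r
  have hr : ∀ i, 0 ≤ r i ∧ r i ≤ 1 := fun i => ⟨i.h0, i.h1.trans hq.le⟩
  have o1 : ∀ {f : LD → ℂ}, (∀ i, ‖f i‖ ≤ i.r) → Og r 1 f :=
    fun h => Og.of_le fun i => by rw [pow_one]; exact h i
  have hx : Og r 1 (fun i => i.x) := o1 fun i => i.hx
  have hy : Og r 1 (fun i => i.y) := o1 fun i => i.hy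
  have hw : Og r 2 (fun i => i.w) := Og.of_le fun i => i.hw
  have bx : ∀ i : LD, ‖i.x‖ ≤ 7 / 10 := fun i => i.hx.trans i.h1
  have bY : ∀ i : LD, ‖i.y‖ ≤ 7 / 10 := fun i => i.hy.trans i.h1
  have bx' : ∀ i : LD, ‖-i.x‖ ≤ 7 / 10 := fun i => by rw [norm_neg]; exact bx i
  have bY' : ∀ i : LD, ‖-i.y‖ ≤ 7 / 10 := fun i => by rw [norm_neg]; exact bY i
  have jw := (jet_F hr hq hx hy bx bY).mul hr (jet_F hr hq hx.neg hy.neg bx' bY')
  have hW0 : Og r 0 (fun i => ((1 - i.x) ^ 2 * (1 - i.y) ^ 2)⁻¹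
      * ((1 + i.x) ^ 2 * (1 + i.y) ^ 2)⁻¹) :=
    (jw.bdd hr).congr fun i => by simp only [sub_neg_eq_add]
  have hxx : Og r 2 _ := hx.mul hx
  have hxy : Og r 2 _ := hx.mul hy
  have hyy : Og r 2 _ := hy.mul hy
  have hQ : Og r 2 (fun i => 3 * (i.x * i.x) + 4 * (i.x * i.y) + 3 * (i.y * i.y)) :=
    ((hxx.cmul 3).add (hxy.cmul 4)).add (hyy.cmul 3)
  have hN : Og r 4 (fun i => -(i.x * i.x) * (i.x * i.x) - (i.y * i.y) * (i.y * i.y)
      - 3 * ((i.x * i.y) * (i.x * i.y)) + 2 * ((i.x * i.x) * (i.y * i.y) * (i.y * i.y))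
      + 2 * ((i.y * i.y) * (i.x * i.x) * (i.x * i.x))
      - (i.x * i.y) * (i.x * i.y) * (i.x * i.y) * (i.x * i.y)) :=
    (((((hxx.neg.mul hxx).sub (hyy.mul hyy)).sub ((hxy.mul hxy).cmul 3)).add
      ((((hxx.mul hyy).mul hyy).mono hr (by norm_num)).cmul 2)).add
      ((((hyy.mul hxx).mul hxx).mono hr (by norm_num)).cmul 2)).sub
      ((((hxy.mul hxy).mul hxy).mul hxy).mono hr (by norm_num))
  have hA : Og r 2 (fun i => (i.x * i.x) * (2 - i.x * i.x)) :=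
    hxx.mul ((Og.const r 2).sub (hxx.mono hr (by norm_num)))
  have hB : Og r 2 (fun i => (i.y * i.y) * (2 - i.y * i.y)) :=
    hyy.mul ((Og.const r 2).sub (hyy.mono hr (by norm_num)))
  have hD : Og r 2 _ := (hA.add hB).sub ((hA.mul hB).mono hr (by norm_num))
  have t1 : Og r 4 _ := (hN.add (hQ.mul hD)).mul hW0
  have t2 : Og r 4 _ := (hw.mul (hQ.add (hN.mono hr (by norm_num)))).mul hW0
  obtain ⟨C, hC0, hC⟩ : Og r 4 (fun i => i.w + (1 - i.w) * ((1 - i.x) ^ 2 * (1 - i.y) ^ 2)⁻¹ / 2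
      + (1 - i.w) * ((1 + i.x) ^ 2 * (1 + i.y) ^ 2)⁻¹ / 2
      - 1 - (3 * i.x ^ 2 + 4 * (i.x * i.y) + 3 * i.y ^ 2)) := by
    refine (t1.sub t2).congr fun i => ?_
    have n1 := one_sub_ne hq (bx i)
    have n2 := one_sub_ne hq (bY i)
    have n3 : 1 + i.x ≠ 0 := by simpa using one_sub_ne hq (bx' i)
    have n4 : 1 + i.y ≠ 0 := by simpa using one_sub_ne hq (bY' i)
    field_simp
    ring
  exact ⟨C, hC0, fun r x y w h0 h1 hx hy hw => hC ⟨r, x, y, w, h0, h1, hx, hy, hw⟩⟩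

theorem l0_one_sub (ξ : ℂ) : ‖1 - ξ‖ ^ 2 ≤ Real.exp (-2 * ξ.re + ‖ξ‖ ^ 2) := by
  refine le_trans (le_of_eq ?_) (Real.add_one_le_exp _)
  rw [Complex.sq_norm, Complex.sq_norm, Complex.normSq_apply, Complex.normSq_apply]
  simp
  ring

theorem l0_inv {ζ : ℂ} {b : ℝ} (h : ‖ζ‖ ≤ b) (hb : b ≤ 7 / 10) :
    ‖(1 - ζ)⁻¹‖ ≤ Real.exp (4 * b) := by
  have b0 : 0 ≤ b := (norm_nonneg _).trans h
  refine (norm_inv_one_sub_le (by linarith) h).trans (le_trans ?_ (Real.add_one_le_exp _))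
  rw [inv_le_iff_one_le_mul₀ (by linarith)]
  nlinarith

theorem pLOC0 : LOC0 := by
  obtain ⟨C, hC0, H⟩ := l0_abs
  refine ⟨C + 50, by linarith, fun p s₁ s₂ hp h2 b1 b2 => ?_,
    fun p z a₁ a₂ ε hp h2 hε n1 n2 hl => ?_⟩
  · have h3 := three_le_of hp h2
    have pp : (0 : ℝ) < p := by linarith
    have t2 : ((p : ℝ) ^ (-(1 / 2) : ℝ)) ^ 2 = 1 / (p : ℝ) := by
      rw [← Real.rpow_natCast, ← Real.rpow_mul pp.le, one_div (p : ℝ), ← Real.rpow_neg_one]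
      norm_num
    have t4 : ((p : ℝ) ^ (-(1 / 2) : ℝ)) ^ 4 = 1 / (p : ℝ) ^ 2 := by
      rw [show 4 = 2 * 2 from rfl, pow_mul, t2, one_div_pow]
    have nd : ¬ (p : ℤ) ∣ 1 := by
      intro h
      have : p ∣ 1 := by exact_mod_cast h
      exact hp.one_lt.ne' (Nat.dvd_one.1 this)
    have := H _ (xs s₁ p) (xs s₂ p) (1 / (p : ℂ)) (Real.rpow_nonneg pp.le _)
      (rpow_neg_le h3 (by norm_num)) (loc_xs hp.pos b1 le_rfl) (loc_xs hp.pos b2 le_rfl)
      (by rw [t2, norm_div, norm_one, Complex.norm_natCast])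
    rw [t4] at this
    rw [loc_zero]
    refine le_trans (le_of_eq_of_le (congrArg _ ?_) this) ?_
    · unfold ek ok Qp
      rw [if_neg nd]
      simp
    · rw [mul_one_div]
      gcongr
      linarith
  · have h3 := three_le_of hp h2
    have hp0 := hp.pos
    have pp : (0 : ℝ) < p := by linarith
    have l0 : 0 ≤ Real.log p := Real.log_natCast_nonneg p
    set b : ℝ := (p : ℝ) ^ (-(3 / 2) : ℝ) with hb
    have b0 : 0 ≤ b := Real.rpow_nonneg pp.le _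
    have b1 : b ≤ 7 / 10 := rpow_neg_le h3 (by norm_num)
    have r1 : -ε ≤ a₁.re := by linarith [(abs_le.1 ((Complex.abs_re_le_norm a₁).trans n1)).1]
    have r2 : -ε ≤ a₂.re := by linarith [(abs_le.1 ((Complex.abs_re_le_norm a₂).trans n2)).1]
    have one : ∀ a : ℂ, ‖a‖ ≤ ε → -ε ≤ a.re → ‖1 - (p : ℂ) ^ (-(1 + a))‖ ^ 2 ≤
        Real.exp (-2 / p + 4 * (ε * Real.log p / p) + b) := by
      intro a ha hre
      refine (l0_one_sub _).trans (Real.exp_le_exp.2 ?_)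
      have q1 : ‖(p : ℂ) ^ (-(1 + a))‖ ^ 2 ≤ b := by
        rw [← norm_pow, sq, cp_add hp0]
        exact norm_cp_le hp0 (by simp; linarith)
      have n : ‖(Real.log p : ℂ) * (-a)‖ ≤ ε * Real.log p := by
        rw [norm_mul, Complex.norm_real, Real.norm_eq_abs, abs_of_nonneg l0, mul_comm, norm_neg]
        gcongr
      have e : (p : ℂ) ^ (-(1 + a)) - ((1 / p : ℝ) : ℂ)
          = ((1 / p : ℝ) : ℂ) * (cexp ((Real.log p : ℂ) * (-a)) - 1) := by
        rw [show -(1 + a) = -1 + -a by ring, ← cp_add hp0, Complex.cpow_neg_one,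
          Complex.cpow_def_of_ne_zero (by exact_mod_cast hp0.ne'), Complex.natCast_log]
        push_cast
        ring
      have q2 : ‖(p : ℂ) ^ (-(1 + a)) - ((1 / p : ℝ) : ℂ)‖ ≤ 2 * (ε * Real.log p / p) := by
        rw [e, norm_mul, Complex.norm_real, Real.norm_eq_abs, abs_of_nonneg (by positivity)]
        calc _ ≤ 1 / (p : ℝ) * (2 * (ε * Real.log p)) := by
              gcongr
              exact (Complex.norm_exp_sub_one_le (n.trans hl)).trans (by linarith)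
          _ = _ := by ring
      have q3 := (abs_le.1 ((Complex.abs_re_le_norm _).trans q2)).1
      rw [sub_re, ofReal_re] at q3
      have : -2 / (p : ℝ) = -2 * (1 / p) := by ring
      linarith
    have two : ∀ s : ℂ, 3 / 2 ≤ s.re → ‖(1 - (p : ℂ) ^ (-s))⁻¹‖ ≤ Real.exp (4 * b) := fun s hs =>
      l0_inv (norm_cp_le hp0 (by rw [neg_re]; linarith)) b1
    have o1 := one a₁ n1 r1
    have o2 := one a₂ n2 r2
    have d1 := two (2 + 2 * a₁) (by simp; linarith)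
    have d2 := two (2 + a₁ + a₂) (by simp; linarith)
    have d3 := two (2 + 2 * a₂) (by simp; linarith)
    have e0 : 0 ≤ ε * Real.log p / p :=
      div_nonneg (mul_nonneg ((norm_nonneg _).trans n1) l0) pp.le
    unfold fp
    rw [loc_jo hp h2, jacobiSym.one_left, add_sub_cancel_left, add_sub_cancel_left, Int.cast_one,
      one_mul, one_mul, div_eq_mul_inv, mul_inv, mul_inv, ← inv_pow, ← inv_pow, ← inv_pow]
    simp only [norm_mul, norm_pow]
    calc _ ≤ Real.exp (-2 / p + 4 * (ε * Real.log p / p) + b)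
          * Real.exp (-2 / p + 4 * (ε * Real.log p / p) + b)
          * (Real.exp (4 * b) ^ 3 * Real.exp (4 * b) ^ 4 * Real.exp (4 * b) ^ 3) := by gcongr
      _ = Real.exp (-4 / p + 8 * (ε * Real.log p / p) + 42 * b) := by
          simp only [← Real.exp_nat_mul, ← Real.exp_add]
          congr 1
          push_cast
          ring
      _ ≤ _ := by
          refine Real.exp_le_exp.2 ?_
          have := mul_nonneg hC0 e0
          have := mul_nonneg hC0 b0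
          linarith

end Pool.Agent.QM
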