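import Pool.Agent.P.MP_ea46f5_nt.QM.FLOCb

namespace Pool.Agent.QM

open Complex MeasureTheory Finset
open scoped Real ComplexConjugate

/-- parameters of the moment generating bound. -/
structure LM (K : ℝ) where
  t : ℝ
  u : ℂ
  v : ℂ
  x : ℂ
  y : ℂ
  θ : ℝ
  h0 : 0 ≤ t
  h1 : t ≤ 7 / 10
  hu : ‖u‖ ≤ K * t
  hv : ‖v‖ ≤ t
  hx : ‖x‖ ≤ t
  hy : ‖y‖ ≤ t
  hθ : |θ| ≤ 36

theorem mg_close {K : ℝ} (hK : 0 ≤ K) : ∃ C : ℝ, 0 ≤ C ∧ ∀ (t : ℝ) (u v x y : ℂ),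
    0 ≤ t → t ≤ 7 / 10 → ‖u‖ ≤ K * t → ‖v‖ ≤ t → ‖x‖ ≤ t → ‖y‖ ≤ t → ∀ θ : ℝ, |θ| ≤ 36 →
    ‖(1 + u) * (1 - v) * ((1 - x) ^ 2 * (1 - y) ^ 2)⁻¹‖ * Real.exp (θ * t) ≤
      Real.exp ((u - v + 2 * x + 2 * y).re + θ * t + (-u ^ 2 / 2 - v ^ 2 / 2 + x ^ 2 + y ^ 2).re)
        + C * t ^ 3 := by
  have hq : (7 / 10 : ℝ) < 1 := by norm_num
  let r : LM K → ℝ := fun i => i.t
  have hr : ∀ i, 0 ≤ r i ∧ r i ≤ 1 := fun i => ⟨i.h0, i.h1.trans hq.le⟩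
  have o1 : ∀ {f : LM K → ℂ}, (∀ i, ‖f i‖ ≤ i.t) → Og r 1 f :=
    fun h => Og.of_le fun i => by rw [pow_one]; exact h i
  have hx : Og r 1 (fun i => i.x) := o1 fun i => i.hx
  have hy : Og r 1 (fun i => i.y) := o1 fun i => i.hy
  have hv : Og r 1 (fun i => i.v) := o1 fun i => i.hv
  have hu : Og r 1 (fun i => i.u) := ⟨K, hK, fun i => by rw [pow_one]; exact i.hu⟩
  have hθ : Og r 1 (fun i => ((i.θ * i.t : ℝ) : ℂ)) := ⟨36, by norm_num, fun i => by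
    rw [pow_one, Complex.norm_real, Real.norm_eq_abs, abs_mul, abs_of_nonneg i.h0]
    exact mul_le_mul_of_nonneg_right i.hθ i.h0⟩
  have jp := jet_F hr hq hx hy (fun i => i.hx.trans i.h1) (fun i => i.hy.trans i.h1)
  have j1 := (((Jet.lin hu).mul hr (Jet.lin hv.neg)).mul hr jp).mul hr
    (Jet.exp hr hθ (Og.zero r 2))
  have hb : Og r 1 (fun i => i.u - i.v + 2 * i.x + 2 * i.y + ((i.θ * i.t : ℝ) : ℂ)) :=
    (((hu.sub hv).add (hx.cmul 2)).add (hy.cmul 2)).add hθ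
  have hg : Og r 2 (fun i => -i.u ^ 2 / 2 - i.v ^ 2 / 2 + i.x ^ 2 + i.y ^ 2) :=
    (((((hu.mul hu).cmul (-1 / 2)).add ((hv.mul hv).cmul (-1 / 2))).add (hx.mul hx)).add
      (hy.mul hy)).congr fun i => by ring
  have j2 := Jet.exp hr hb hg
  obtain ⟨C, hC0, hC⟩ : Og r 3 (fun i =>
      (1 + i.u) * (1 - i.v) * ((1 - i.x) ^ 2 * (1 - i.y) ^ 2)⁻¹ * cexp ((i.θ * i.t : ℝ) : ℂ)
      - cexp (i.u - i.v + 2 * i.x + 2 * i.y + ((i.θ * i.t : ℝ) : ℂ)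
        + (-i.u ^ 2 / 2 - i.v ^ 2 / 2 + i.x ^ 2 + i.y ^ 2))) :=
    (j1.2.2.sub j2.2.2).congr fun i => by
      simp only [add_zero, ← sub_eq_add_neg]; ring
  refine ⟨C, hC0, fun t u v x y h0 h1 hu hv hx hy θ hθ => ?_⟩
  have h := hC ⟨t, u, v, x, y, θ, h0, h1, hu, hv, hx, hy, hθ⟩
  have h' := (norm_sub_norm_le _ _).trans h
  simp only [r] at h'
  rw [norm_mul, Complex.norm_exp_ofReal, Complex.norm_exp, add_re, add_re, ofReal_re] at h'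
  linarith

theorem mg_sq {a : ℂ} {t D E : ℝ} (h0 : 0 ≤ t) (h : ‖a - t‖ ≤ D) (ha : ‖a‖ ≤ E) :
    |(a ^ 2).re - t ^ 2| ≤ D * (E + t) := by
  have e : (a ^ 2).re - t ^ 2 = ((a - t) * (a + t)).re := by
    simp [sq]; ring
  rw [e]
  refine (Complex.abs_re_le_norm _).trans ?_
  rw [norm_mul]
  refine mul_le_mul h ((norm_add_le _ _).trans ?_) (norm_nonneg _) ((norm_nonneg _).trans h)
  rw [Complex.norm_real, Real.norm_eq_abs, abs_of_nonneg h0]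
  linarith

theorem mg_re {a : ℂ} {t D : ℝ} (h : ‖a - t‖ ≤ D) : |a.re - t| ≤ D := by
  have := (Complex.abs_re_le_norm (a - t)).trans h
  simpa using this

theorem mg_abs {K : ℝ} (hK : 1 ≤ K) : ∃ C : ℝ, 0 < C ∧ ∀ (t η : ℝ) (u v x y : ℂ) (θ : ℝ),
    0 ≤ t → t ≤ 7 / 10 → 0 ≤ η → η ≤ 1 → ‖u‖ ≤ K * t → ‖v‖ ≤ t → ‖x‖ ≤ t → ‖y‖ ≤ t →
    ‖u - t‖ ≤ K * η * t → ‖v - t‖ ≤ K * η * t → ‖x - t‖ ≤ K * η * t → ‖y - t‖ ≤ K * η * t →
    |θ| ≤ 36 →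
    t ^ 2 + ‖(1 + u) * (1 - v) * ((1 - x) ^ 2 * (1 - y) ^ 2)⁻¹‖ / 2 * Real.exp (θ * t)
      + ‖(1 - u) * (1 + v) * ((1 + x) ^ 2 * (1 + y) ^ 2)⁻¹‖ / 2 * Real.exp (-θ * t) ≤
      Real.exp ((10 + 4 * θ + θ ^ 2 / 2) * t ^ 2 + C * (η * t ^ 2 + t ^ 3)) := by
  obtain ⟨C, hC0, hC⟩ := mg_close (K := K) (by linarith)
  set D : ℝ := 6 * K * K + 240 * K + 18 * K ^ 2 with hD
  have D0 : 0 ≤ D := by positivity
  set M : ℝ := 801 + D with hM
  have M0 : 0 ≤ M := by positivity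
  refine ⟨D + C + M ^ 2 * Real.exp M + 1, by positivity,
    fun t η u v x y θ h0 h1 e0 e1 hu hv hx hy du dv dx dy hθ => ?_⟩
  have p1 := hC t u v x y h0 h1 hu hv hx hy θ hθ
  have p2 := hC t (-u) (-v) (-x) (-y) h0 h1 (by rwa [norm_neg]) (by rwa [norm_neg])
    (by rwa [norm_neg]) (by rwa [norm_neg]) (-θ) (by rwa [abs_neg])
  simp only [sub_neg_eq_add, ← sub_eq_add_neg, neg_sq] at p2
  set β : ℝ := (u - v + 2 * x + 2 * y).re + θ * t with hβ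
  set γ : ℝ := (-u ^ 2 / 2 - v ^ 2 / 2 + x ^ 2 + y ^ 2).re with hγ
  have e2 : (-u + v + 2 * -x + 2 * -y).re + -θ * t = -β := by
    rw [hβ]; simp; ring
  rw [e2] at p2
  have hc : Real.exp (β + γ) + Real.exp (-β + γ) ≤ 2 * Real.exp (γ + β ^ 2 / 2) := by
    have := Real.cosh_le_exp_half_sq β
    rw [Real.cosh_eq] at this
    rw [Real.exp_add β γ, Real.exp_add (-β) γ, Real.exp_add γ]
    have := mul_le_mul_of_nonneg_left this (Real.exp_pos γ).le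
    linarith
  have t2 : 0 ≤ t ^ 2 := sq_nonneg t
  have s0 : 0 ≤ η * t ^ 2 := mul_nonneg e0 t2
  have s1 : η * t ^ 2 ≤ t ^ 2 := mul_le_of_le_one_left t2 e1
  have Kt : t ≤ K * t := le_mul_of_one_le_left h0 hK
  have hγ' : |γ - t ^ 2| ≤ 6 * K * K * (η * t ^ 2) := by
    have a1 := abs_le.1 (mg_sq h0 du hu)
    have a2 := abs_le.1 (mg_sq h0 dv (hv.trans Kt))
    have a3 := abs_le.1 (mg_sq h0 dx (hx.trans Kt))
    have a4 := abs_le.1 (mg_sq h0 dy (hy.trans Kt))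
    have e : γ = -(u ^ 2).re / 2 - (v ^ 2).re / 2 + (x ^ 2).re + (y ^ 2).re := by
      rw [hγ]; simp only [add_re, sub_re, div_ofNat_re, neg_re]
    have b : K * η * t * (K * t + t) ≤ 2 * K * K * (η * t ^ 2) := by
      calc K * η * t * (K * t + t) ≤ K * η * t * (K * t + K * t) := by gcongr
        _ = _ := by ring
    rw [abs_le]
    constructor <;> linarith [a1.1, a1.2, a2.1, a2.2, a3.1, a3.2, a4.1, a4.2]
  have hβ' : |β - (4 + θ) * t| ≤ 6 * (K * η * t) := by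
    have a1 := abs_le.1 (mg_re du)
    have a2 := abs_le.1 (mg_re dv)
    have a3 := abs_le.1 (mg_re dx)
    have a4 := abs_le.1 (mg_re dy)
    have e : β = u.re - v.re + 2 * x.re + 2 * y.re + θ * t := by
      rw [hβ]; simp
    rw [abs_le]
    constructor <;> linarith [a1.1, a1.2, a2.1, a2.2, a3.1, a3.2, a4.1, a4.2]
  have hθ' : |4 + θ| ≤ 40 := (abs_add_le _ _).trans (by rw [abs_of_pos (by norm_num)]; linarith)
  have hβ2 : |β ^ 2 / 2 - (4 + θ) ^ 2 / 2 * t ^ 2| ≤ (240 * K + 18 * K ^ 2) * (η * t ^ 2) := by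
    set d : ℝ := β - (4 + θ) * t with hd
    have e : β ^ 2 / 2 - (4 + θ) ^ 2 / 2 * t ^ 2 = d * ((4 + θ) * t) + d ^ 2 / 2 := by
      rw [hd]; ring
    have a1 : |d * ((4 + θ) * t)| ≤ 240 * K * (η * t ^ 2) := by
      rw [abs_mul, abs_mul, abs_of_nonneg h0]
      calc |d| * (|4 + θ| * t) ≤ 6 * (K * η * t) * (40 * t) := by gcongr
        _ = _ := by ring
    have a2 : |d ^ 2 / 2| ≤ 18 * K ^ 2 * (η * t ^ 2) := by
      rw [abs_of_nonneg (by positivity), ← sq_abs]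
      calc |d| ^ 2 / 2 ≤ (6 * (K * η * t)) ^ 2 / 2 := by gcongr
        _ = 18 * K ^ 2 * (η * t ^ 2) * η := by ring
        _ ≤ _ := mul_le_of_le_one_right (by positivity) e1
    rw [e]
    exact (abs_add_le _ _).trans (by linarith)
  set A : ℝ := γ + β ^ 2 / 2 with hA
  have hA1 : |A - (1 + (4 + θ) ^ 2 / 2) * t ^ 2| ≤ D * (η * t ^ 2) := by
    have e : A - (1 + (4 + θ) ^ 2 / 2) * t ^ 2 =
        (γ - t ^ 2) + (β ^ 2 / 2 - (4 + θ) ^ 2 / 2 * t ^ 2) := by rw [hA]; ring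
    rw [e, hD]
    exact (abs_add_le _ _).trans (by linarith)
  have hA2 : |A| ≤ M * t ^ 2 := by
    have q1 : (4 + θ) ^ 2 ≤ 40 ^ 2 := by rw [← sq_abs]; gcongr
    have q2 : (1 + (4 + θ) ^ 2 / 2) * t ^ 2 ≤ 801 * t ^ 2 := by gcongr; linarith
    have q3 : 0 ≤ (1 + (4 + θ) ^ 2 / 2) * t ^ 2 := by positivity
    have q4 : D * (η * t ^ 2) ≤ D * t ^ 2 := by gcongr
    have := abs_le.1 hA1
    rw [abs_le, hM]
    constructor <;> linarith [this.1, this.2]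
  have t1 : t ≤ 1 := by linarith
  have hE : Real.exp A ≤ 1 + A + M ^ 2 * Real.exp M * t ^ 3 := by
    have q := Complex.norm_exp_sub_sum_le_norm_mul_exp (A : ℂ) 2
    have e : cexp A - ∑ m ∈ range 2, (A : ℂ) ^ m / (m.factorial : ℂ)
        = ((Real.exp A - 1 - A : ℝ) : ℂ) := by
      simp [sum_range_succ]; ring
    rw [e, Complex.norm_real, Complex.norm_real, Real.norm_eq_abs, Real.norm_eq_abs] at q
    have q1 : |A| ≤ M := hA2.trans (mul_le_of_le_one_right M0 (pow_le_one₀ h0 t1))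
    have q2 : |A| ^ 2 * Real.exp |A| ≤ M ^ 2 * Real.exp M * t ^ 3 := by
      calc |A| ^ 2 * Real.exp |A| ≤ (M * t ^ 2) ^ 2 * Real.exp M := by gcongr
        _ = M ^ 2 * Real.exp M * t ^ 3 * t := by ring
        _ ≤ _ := mul_le_of_le_one_right (by positivity) t1
    linarith [le_abs_self (Real.exp A - 1 - A)]
  refine le_trans ?_ (Real.add_one_le_exp _)
  have t3 : 0 ≤ t ^ 3 := pow_nonneg h0 3
  have w1 : 0 ≤ C * (η * t ^ 2) := mul_nonneg hC0 s0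
  have w2 : 0 ≤ M ^ 2 * Real.exp M * (η * t ^ 2) := by positivity
  have w3 : 0 ≤ D * t ^ 3 := mul_nonneg D0 t3
  have := (abs_le.1 hA1).2
  linarith

theorem mg_pow {p : ℕ} (hp : 0 < p) {w : ℂ} {τ : ℝ} (hw : w.re * Real.log p ≤ 5) (hτ : ‖w‖ ≤ τ) :
    ‖(p : ℂ) ^ w‖ ≤ Real.exp 5 ∧
      ‖(p : ℂ) ^ w - 1‖ ≤ (Real.exp 5 + 2) * min 1 (τ * Real.log p) := by
  have pp : (0 : ℝ) < p := by exact_mod_cast hp
  have l0 : 0 ≤ Real.log p := Real.log_natCast_nonneg p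
  have h1 : ‖(p : ℂ) ^ w‖ ≤ Real.exp 5 := by
    rw [norm_cp hp, Real.rpow_def_of_pos pp, mul_comm]
    exact Real.exp_le_exp.2 hw
  refine ⟨h1, ?_⟩
  have e5 := Real.exp_pos 5
  rcases le_total 1 (τ * Real.log p) with h | h
  · rw [min_eq_left h]
    refine (norm_sub_le _ _).trans ?_
    rw [norm_one]
    linarith
  · rw [min_eq_right h]
    have e : (p : ℂ) ^ w = cexp ((Real.log p : ℂ) * w) := by
      rw [Complex.cpow_def_of_ne_zero (by exact_mod_cast hp.ne'), Complex.natCast_log]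
    have n : ‖(Real.log p : ℂ) * w‖ ≤ τ * Real.log p := by
      rw [norm_mul, Complex.norm_real, Real.norm_eq_abs, abs_of_nonneg l0, mul_comm]
      gcongr
    rw [e]
    refine (Complex.norm_exp_sub_one_le (n.trans h)).trans ?_
    have : 0 ≤ τ * Real.log p := (norm_nonneg _).trans n
    nlinarith

theorem pMG : MG := by
  have e5 := Real.exp_pos 5
  obtain ⟨C, hC, H⟩ := mg_abs (K := Real.exp 5 + 2) (by linarith)
  refine ⟨C, hC, fun p z s₁ s₂ θ hp h2 z0 b1 b2 hl hθ => ?_⟩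
  have h3 := three_le_of hp h2
  have hp0 := hp.pos
  have pp : (0 : ℝ) < p := by linarith
  have l0 : 0 ≤ Real.log p := Real.log_natCast_nonneg p
  set t : ℝ := (p : ℝ) ^ (-(1 / 2) : ℝ) with ht
  have t0 : 0 ≤ t := Real.rpow_nonneg pp.le _
  have t1 : t ≤ 7 / 10 := rpow_neg_le h3 (by norm_num)
  have t2 : t ^ 2 = 1 / (p : ℝ) := by
    rw [ht, ← Real.rpow_natCast, ← Real.rpow_mul pp.le, one_div (p : ℝ), ← Real.rpow_neg_one]
    norm_num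
  have t3 : t ^ 3 = (p : ℝ) ^ (-(3 / 2) : ℝ) := by
    rw [ht, ← Real.rpow_natCast, ← Real.rpow_mul pp.le]; norm_num
  have ts : t = (√(p : ℝ))⁻¹ := by
    rw [ht, Real.sqrt_eq_rpow, Real.rpow_neg pp.le]
  have tc : (t : ℂ) = (p : ℂ) ^ (-(1 / 2 : ℂ)) := by
    rw [ht, Complex.ofReal_cpow pp.le]; simp
  set τ : ℝ := ‖z‖ + ‖s₁‖ + ‖s₂‖ with hτ
  have n0 := norm_nonneg z
  have n1 := norm_nonneg s₁
  have n2 := norm_nonneg s₂
  have key : ∀ w : ℂ, w.re * Real.log p ≤ 5 → ‖w‖ ≤ τ →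
      ‖(t : ℂ) * (p : ℂ) ^ w‖ ≤ (Real.exp 5 + 2) * t ∧
      ‖(t : ℂ) * (p : ℂ) ^ w - t‖ ≤ (Real.exp 5 + 2) * min 1 (τ * Real.log p) * t := by
    intro w hw hn
    obtain ⟨a, b⟩ := mg_pow hp0 hw hn
    have nt : ‖(t : ℂ)‖ = t := by rw [Complex.norm_real, Real.norm_eq_abs, abs_of_nonneg t0]
    constructor
    · rw [norm_mul, nt, mul_comm]
      gcongr
      linarith
    · rw [← mul_sub_one, norm_mul, nt, mul_comm]
      gcongr
  have neg : ∀ w : ℂ, 0 ≤ w.re → ‖(t : ℂ) * (p : ℂ) ^ (-w)‖ ≤ t ∧ (-w).re * Real.log p ≤ 5 := by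
    intro w hw
    constructor
    · rw [tc, cp_add hp0]
      exact norm_cp_le hp0 (by simp; linarith)
    · rw [neg_re]
      have := mul_nonneg hw l0
      linarith
  have ku := key z (by
    have := mul_nonneg b1 l0
    have := mul_nonneg b2 l0
    linarith) (by linarith)
  have kv := key (-z) (neg z z0).2 (by rw [norm_neg]; linarith)
  have kx := key (-s₁) (neg s₁ b1).2 (by rw [norm_neg]; linarith)
  have ky := key (-s₂) (neg s₂ b2).2 (by rw [norm_neg]; linarith)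
  have main := H t (min 1 (τ * Real.log p)) _ _ _ _ θ t0 t1
    (le_min zero_le_one (by positivity)) (min_le_left _ _) ku.1 (neg z z0).1 (neg s₁ b1).1
    (neg s₂ b2).1 ku.2 kv.2 kx.2 ky.2 hθ
  have ex : ∀ s : ℂ, xs s p = (t : ℂ) * (p : ℂ) ^ (-s) := by
    intro s
    unfold xs
    rw [tc, cp_add hp0]
    congr 1
    ring
  have nd : ¬ (p : ℤ) ∣ 1 := by
    intro h
    have : p ∣ 1 := by exact_mod_cast h
    exact hp.one_lt.ne' (Nat.dvd_one.1 this)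
  have ee : ek 1 z p = 1 - (t : ℂ) * (p : ℂ) ^ z * ((t : ℂ) * (p : ℂ) ^ (-z)) := by
    unfold ek
    rw [if_neg nd, mul_mul_mul_comm, cp_add hp0, add_neg_cancel, Complex.cpow_zero, mul_one, ← sq,
      ← Complex.ofReal_pow, t2]
    simp
  have ee' : 1 - ek 1 z p = ((t ^ 2 : ℝ) : ℂ) := by
    unfold ek
    rw [if_neg nd, t2]
    simp
  have eo : ok 1 z p = (t : ℂ) * (p : ℂ) ^ z - (t : ℂ) * (p : ℂ) ^ (-z) := by
    unfold ok
    rw [jacobiSym.one_left, tc]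
    simp only [Int.cast_one, one_mul, mul_sub]
  have m0 : ‖mu 1 z s₁ s₂ p 0‖ = t ^ 2 := by
    unfold mu
    rw [if_pos rfl, ee', Complex.norm_real, Real.norm_eq_abs, abs_of_nonneg (sq_nonneg t)]
  have m1 : mu 1 z s₁ s₂ p 1 = (1 + (t : ℂ) * (p : ℂ) ^ z) * (1 - (t : ℂ) * (p : ℂ) ^ (-z)) *
      ((1 - (t : ℂ) * (p : ℂ) ^ (-s₁)) ^ 2 * (1 - (t : ℂ) * (p : ℂ) ^ (-s₂)) ^ 2)⁻¹ / 2 := by
    unfold mu Fy
    rw [if_neg (by norm_num), ee, eo, ex, ex]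
    simp only [Int.cast_one, mul_one, one_mul, one_div]
    ring
  have m2 : mu 1 z s₁ s₂ p (-1) = (1 - (t : ℂ) * (p : ℂ) ^ z) * (1 + (t : ℂ) * (p : ℂ) ^ (-z)) *
      ((1 + (t : ℂ) * (p : ℂ) ^ (-s₁)) ^ 2 * (1 + (t : ℂ) * (p : ℂ) ^ (-s₂)) ^ 2)⁻¹ / 2 := by
    unfold mu Fy
    rw [if_neg (by norm_num), ee, eo, ex, ex]
    simp only [Int.cast_neg, Int.cast_one, mul_neg, mul_one, sub_neg_eq_add, one_div]
    ring
  have hs : ∑ y ∈ T3, ‖mu 1 z s₁ s₂ p y‖ * Real.exp (θ * y / √(p : ℝ)) =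
      ‖mu 1 z s₁ s₂ p 0‖ + ‖mu 1 z s₁ s₂ p 1‖ * Real.exp (θ * t)
        + ‖mu 1 z s₁ s₂ p (-1)‖ * Real.exp (-θ * t) := by
    unfold T3
    rw [sum_insert (by decide), sum_insert (by decide), sum_singleton, ts]
    simp only [Int.cast_neg, Int.cast_one, Int.cast_zero, mul_zero, zero_mul, Real.exp_zero,
      mul_one, mul_neg, div_eq_mul_inv, neg_mul]
    ring
  rw [hs, m0, m1, m2, norm_div, norm_div, Complex.norm_two]
  refine main.trans (le_of_eq ?_)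
  rw [t2, t3]
  congr 1
  ring

end Pool.Agent.QM
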