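import Pool.Agent.P.MP_ea46f5_nt.QM.S1

namespace Pool.Agent.QM

open Complex MeasureTheory Finset
open scoped Real ComplexConjugate

open Filter Topology Metric

/-- Holomorphy of an integral over a finite measure with a locally bounded integrand. -/
theorem ph2_dom {T : Type} [MeasurableSpace T] {μ : Measure T} [IsFiniteMeasure μ] {U : Set ℂ}
    (hU : IsOpen U) {φ : ℂ → T → ℂ} (hm : ∀ z ∈ U, AEStronglyMeasurable (φ z) μ)
    (hd : ∀ t, DifferentiableOn ℂ (fun z => φ z t) U)
    (hb : ∀ z r, closedBall z r ⊆ U → ∃ M : ℝ, ∀ t, ∀ u ∈ closedBall z r, ‖φ u t‖ ≤ M) :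
    DifferentiableOn ℂ (fun z => ∫ t, φ z t ∂μ) U := by
  classical
  intro z hz
  obtain ⟨r, hr, hsub⟩ := nhds_basis_closedBall.mem_iff.1 (hU.mem_nhds hz)
  obtain ⟨M, hM⟩ := hb z r hsub
  have hr2 : 0 < r / 2 := by positivity
  have hin : ∀ u ∈ ball z (r / 2), closedBall u (r / 2) ⊆ closedBall z r := fun u hu =>
    closedBall_subset_closedBall' (by have := mem_ball.1 hu; linarith)
  have hat : ∀ t, ∀ u ∈ U, HasDerivAt (fun z => φ z t) (deriv (fun z => φ z t) u) u :=
    fun t u hu => ((hd t).differentiableAt (hU.mem_nhds hu)).hasDerivAt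
  have hm' : AEStronglyMeasurable (fun t => deriv (fun z => φ z t) z) μ := by
    refine aestronglyMeasurable_of_tendsto_ae (𝓝[≠] z)
      (f := fun u t => if u ∈ U then (u - z)⁻¹ * (φ u t - φ z t) else 0) (fun u => ?_)
      (Eventually.of_forall fun t => ?_)
    · by_cases hu : u ∈ U
      · simp only [hu, if_true]
        exact ((hm u hu).sub (hm z hz)).const_mul _
      · simp only [hu, if_false]
        exact aestronglyMeasurable_const
    · refine (hat t z hz).tendsto_slope.congr' ?_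
      filter_upwards [mem_nhdsWithin_of_mem_nhds (hU.mem_nhds hz)] with u hu
      simp [hu, slope]
  refine (hasDerivAt_integral_of_dominated_loc_of_deriv_le (μ := μ) (F := φ)
    (F' := fun u t => deriv (fun z => φ z t) u) (bound := fun _ => M / (r / 2))
    (ball_mem_nhds z hr2) ((hU.eventually_mem hz).mono hm)
    (Integrable.of_bound (hm z hz) M
      (Eventually.of_forall fun t => hM t z (mem_closedBall_self hr.le)))
    hm' (Eventually.of_forall fun t u hu => ?_) (integrable_const _)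
    (Eventually.of_forall fun t u hu =>
      hat t u (hsub (hin u hu (mem_closedBall_self hr2.le))))).2.differentiableAt.differentiableWithinAt
  exact norm_deriv_le_of_forall_mem_sphere_norm_le hr2
    ((hd t).diffContOnCl_ball ((hin u hu).trans hsub))
    fun x hx => hM t x (hin u hu (sphere_subset_closedBall hx))

theorem ph2_mem (z : ℂ) {ρ : ℝ} (hρ : 0 < ρ) (θ : ℝ) : z + ρ * cexp (θ * I) ∈ sphere z ρ := by
  rw [mem_sphere_iff_norm, add_sub_cancel_left, norm_mul, norm_exp_ofReal_mul_I, mul_one,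
    norm_real, Real.norm_of_nonneg hρ.le]

theorem ph2_norm {ρ : ℝ} (hρ : 0 < ρ) (θ : ℝ) : ‖(ρ * cexp (θ * I) : ℂ)‖ = ρ := by
  rw [norm_mul, norm_exp_ofReal_mul_I, mul_one, norm_real, Real.norm_of_nonneg hρ.le]

theorem pPH2 : PH2 := by
  refine ⟨fun U ρ g hU hρ hc hd => ?_, fun z ρ M f hρ hf => ?_, fun z ρ f g hρ he hg => ?_⟩
  · set μ : Measure ℝ := volume.restrict (Set.Ioc 0 (2 * π)) with hμ
    set φ : ℂ → ℝ × ℝ → ℂ := fun z t => (ρ * cexp (t.1 * I)) * ((ρ * cexp (t.2 * I)) *
      g z (0 + ρ * cexp (t.1 * I)) (0 + ρ * cexp (t.2 * I))) with hφ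
    have hm : ∀ z ∈ U, AEStronglyMeasurable (φ z) (μ.prod μ) := by
      intro z hz
      have := ContinuousOn.comp_continuous (g := fun x : ℂ × ℂ × ℂ => g x.1 x.2.1 x.2.2)
        (f := fun t : ℝ × ℝ => (z, (0 + ρ * cexp (t.1 * I) : ℂ), (0 + ρ * cexp (t.2 * I) : ℂ)))
        hc (by fun_prop) fun t => ⟨hz, ph2_mem 0 hρ _, ph2_mem 0 hρ _⟩
      exact (Continuous.mul (by fun_prop) (Continuous.mul (by fun_prop) this)).aestronglyMeasurable
    have hb : ∀ z r, closedBall z r ⊆ U → ∃ M : ℝ, ∀ t, ∀ u ∈ closedBall z r, ‖φ u t‖ ≤ M := by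
      intro z r hsub
      obtain ⟨M, hM⟩ := ((isCompact_closedBall z r).prod
        ((isCompact_sphere (0 : ℂ) ρ).prod (isCompact_sphere (0 : ℂ) ρ))).exists_bound_of_continuousOn
        (hc.mono (Set.prod_mono hsub subset_rfl))
      refine ⟨ρ * (ρ * M), fun t u hu => ?_⟩
      have := hM (u, 0 + ρ * cexp (t.1 * I), 0 + ρ * cexp (t.2 * I))
        ⟨hu, ph2_mem 0 hρ _, ph2_mem 0 hρ _⟩
      simp only [hφ]
      rw [norm_mul, ph2_norm hρ, norm_mul, ph2_norm hρ]
      exact mul_le_mul_of_nonneg_left (mul_le_mul_of_nonneg_left this hρ.le) hρ.le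
    refine (ph2_dom hU hm (fun t => ?_) hb).congr fun z hz => ?_
    · exact ((hd _ (ph2_mem 0 hρ t.1) _ (ph2_mem 0 hρ t.2)).const_mul _).const_mul _
    · obtain ⟨M, hM⟩ := hb z 0 (by simpa using hz)
      rw [integral_prod _ (Integrable.of_bound (hm z hz) M
        (Eventually.of_forall fun t => hM t z (mem_closedBall_self le_rfl)))]
      unfold Oc
      have h2 : (0 : ℝ) ≤ 2 * π := by positivity
      simp only [intervalIntegral.integral_of_le h2, hφ, integral_const_mul, hμ]
  · have := intervalIntegral.norm_integral_le_of_norm_le_const (a := 0) (b := 2 * π) (C := ρ * M)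
      (f := fun θ : ℝ => (ρ * cexp (θ * I)) * f (z + ρ * cexp (θ * I))) fun θ _ => by
        rw [norm_mul, ph2_norm hρ]
        exact mul_le_mul_of_nonneg_left (hf _ (ph2_mem z hρ θ)) hρ.le
    rw [sub_zero, abs_of_pos (by positivity)] at this
    unfold Oc
    linarith
  · have h1 : I * Oc z ρ f = ∮ s in C(z, ρ), g s := by
      unfold Oc circleIntegral
      rw [← intervalIntegral.integral_const_mul]
      refine intervalIntegral.integral_congr fun θ _ => ?_
      simp only [deriv_circleMap, circleMap, smul_eq_mul, he _ (ph2_mem z hρ θ)]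
      ring
    rw [(hg.diffContOnCl_ball subset_rfl).circleIntegral_eq_zero hρ.le] at h1
    exact (mul_eq_zero.1 h1).resolve_left I_ne_zero

end Pool.Agent.QM
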