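import Pool.Agent.P.MP_ea46f5_nt.QM.S1
import Pool.Agent.P.MP_ea46f5_nt.QM.FPLa

namespace Pool.Agent.QM

open Complex MeasureTheory Finset
open scoped Real ComplexConjugate

theorem pl_log {P : Finset ℕ} {lam : ℝ} (h : ∀ p ∈ P, p.Prime ∧ (p : ℝ) ≤ Real.exp lam) :
    ∀ p ∈ P, p.Prime ∧ Real.log p ≤ lam := fun p hp =>
  ⟨(h p hp).1, (Real.log_le_iff_le_exp (by exact_mod_cast (h p hp).1.pos)).2 (h p hp).2⟩

theorem pPL : PL := by
  refine ⟨15, by norm_num, fun ε h0 h1 => ⟨pr_PL_summable h0 h1, (pr_PL h0 h1).trans ?_⟩,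
    fun P lam τ hP hl hτ => pr_PM P hl hτ (pl_log hP), fun P lam hP hl => ?_⟩
  · exact div_le_div_of_nonneg_right (by norm_num) h0.le
  · have h1 := pr_primes_log_div P hl (pl_log hP)
    have h4 : Real.log 4 = 2 * Real.log 2 := by
      rw [show (4 : ℝ) = 2 ^ 2 by norm_num, Real.log_pow]; norm_num
    linarith [Real.log_two_lt_d9]

end Pool.Agent.QM
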