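import Pool.Agent.P.MP_ea46f5_nt.QM.S2
import Pool.Agent.P.MP_ea46f5_nt.QM.LoB

namespace Pool.Agent.QM

open Complex MeasureTheory Finset
open scoped Real ComplexConjugate

theorem pri_neg (hKR : KR) {k : ℤ} (hk : Squarefree k) (h1 : k ≠ 1) {a : ℕ} (h : chi k a = -1) :
    kron (disc k) a = -1 := by
  have ho : Odd a := by
    by_contra hn
    rw [chi_even k hn] at h
    omega
  have e := (hKR k hk h1).1 a ho
  rw [jo_eq, h] at e
  exact_mod_cast e

theorem pPRI (hKR : KR) : PRI := by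
  intro k hk h1 p hp hd
  by_cases h4 : k % 4 = 1
  · have e : disc k = k := if_pos h4
    have hd' : p ∣ k.natAbs := e ▸ hd
    have h2 : p ≠ 2 := by
      rintro rfl
      omega
    obtain ⟨a, ha, hb⟩ := exists_neg_odd hk hp h2 (Int.natCast_dvd.2 hd')
    refine ⟨a, ?_, pri_neg hKR hk h1 hb⟩
    rw [e]
    exact ha.of_mul_left 4
  · have e : (disc k).natAbs = 4 * k.natAbs := by
      rw [disc, if_neg h4]
      omega
    rw [e] at hd ⊢
    by_cases h2 : p = 2
    · subst h2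
      refine ⟨_, ?_, pri_neg hKR hk h1 (exists_neg_two hk h4)⟩
      have : 4 * k.natAbs / 2 = 2 * k.natAbs := by omega
      rw [this]
      exact Nat.add_mod_right _ _
    · have hc : Nat.Coprime p 4 :=
        (((Nat.coprime_primes hp Nat.prime_two).2 h2).pow_right 2 :)
      have hd' : p ∣ k.natAbs := hc.dvd_of_dvd_mul_left hd
      obtain ⟨a, ha, hb⟩ := exists_neg_odd hk hp h2 (Int.natCast_dvd.2 hd')
      refine ⟨a, ?_, pri_neg hKR hk h1 hb⟩
      rwa [Nat.mul_div_assoc _ hd']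

theorem pri_gam (k : ℤ) : gam k = -1 ∨ gam k = 0 ∨ gam k = 1 := by
  unfold gam
  split_ifs <;> simp

theorem pri_norm (k : ℤ) (s : ℂ) : ‖(gam k : ℂ) * (2 : ℂ) ^ (-s)‖ ≤ (2 : ℝ) ^ (-s.re) := by
  have h : ‖(2 : ℂ) ^ (-s)‖ = (2 : ℝ) ^ (-s.re) := by
    have := norm_natCast_cpow_of_pos (n := 2) two_pos (-s)
    simpa using this
  rw [norm_mul, h]
  refine mul_le_of_le_one_left (by positivity) ?_
  rcases pri_gam k with h | h | h <;> simp [h]

theorem pri_ne (k : ℤ) {s : ℂ} (hs : 0 < s.re) : 1 - (gam k : ℂ) * (2 : ℂ) ^ (-s) ≠ 0 := by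
  intro h
  have h1 := pri_norm k s
  rw [← sub_eq_zero.1 h, norm_one] at h1
  have h2 : (2 : ℝ) ^ (-s.re) < 1 :=
    Real.rpow_lt_one_of_one_lt_of_neg (by norm_num) (by linarith)
  linarith

theorem pri_quarter : (2 : ℝ) ^ (-(1 / 4) : ℝ) ≤ 6 / 7 := by
  refine le_of_pow_le_pow_left₀ (n := 4) (by norm_num) (by norm_num) ?_
  rw [← Real.rpow_natCast, ← Real.rpow_mul (by norm_num)]
  norm_num

theorem pBRG (hLOP : LOP) : BRG := by
  refine ⟨fun d hd => ?_, fun k => ⟨?_, ?_, ?_, ?_⟩, fun k s hs => ?_, fun k hk h1 => ?_⟩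
  · obtain ⟨h1, ⟨h4, hs⟩ | ⟨m, rfl, h4, hs⟩⟩ := hd
    · exact ⟨d, hs, h1, if_pos h4⟩
    · exact ⟨m, hs, by omega, if_neg (by omega)⟩
  · unfold qk disc
    split_ifs
    · exact le_rfl
    · push_cast
      rw [abs_mul, abs_of_pos (by norm_num : (0 : ℝ) < 4)]
      linarith [abs_nonneg (k : ℝ)]
  · unfold qk disc
    split_ifs
    · linarith [abs_nonneg (k : ℝ)]
    · push_cast
      rw [abs_mul, abs_of_pos (by norm_num : (0 : ℝ) < 4)]
  · unfold par
    split_ifs <;> simp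
  · rcases pri_gam k with h | h | h <;> simp [h, T3]
  · have h1 := pri_norm k s
    have h2 : (2 : ℝ) ^ (-s.re) ≤ 6 / 7 :=
      (Real.rpow_le_rpow_of_exponent_le (by norm_num) (by linarith)).trans pri_quarter
    have h3 := norm_sub_le (1 : ℂ) ((gam k : ℂ) * (2 : ℂ) ^ (-s))
    have h4 := norm_sub_norm_le (1 : ℂ) ((gam k : ℂ) * (2 : ℂ) ^ (-s))
    rw [norm_one] at h3 h4
    have h5 : 0 < ‖1 - (gam k : ℂ) * (2 : ℂ) ^ (-s)‖ := by linarith
    have h6 := norm_nonneg (Lo k s)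
    rw [Lf, norm_div, ← mul_div_assoc, le_div_iff₀ h5, div_le_iff₀ h5]
    constructor <;> nlinarith
  · refine ((hLOP.2.1 k hk h1).differentiableOn).div ?_ fun s hs => pri_ne k hs
    have : Differentiable ℂ fun s : ℂ => (2 : ℂ) ^ (-s) :=
      differentiable_id.neg.const_cpow (Or.inl two_ne_zero)
    exact ((differentiable_const _).sub ((differentiable_const _).mul this)).differentiableOn

end Pool.Agent.QM
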