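import Pool.Agent.P.MP_ea46f5_nt.QM.S1
import Pool.Agent.P.MP_ea46f5_nt.QM.FPLa

namespace Pool.Agent.QM

open Complex MeasureTheory Finset
open scoped Real ComplexConjugate

theorem pPZ (hZT : ZT) : PZ := by
  obtain ⟨_, ⟨C, hC, h⟩, _⟩ := hZT
  refine ⟨fun x hx => ⟨pr_summable_primes_rpow hx, pr_exp_tsum_primes_le hx⟩,
    Real.exp 1 * C, by positivity, fun s h0 h1 => ?_⟩
  rw [← Complex.re_tsum (pr_summable_primes_cpow h0)]
  refine (pr_PZ h0).trans ?_
  rw [mul_assoc, mul_assoc, ← mul_assoc C]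
  exact mul_le_mul_of_nonneg_left (h s h0 (by linarith)) (Real.exp_pos _).le

end Pool.Agent.QM
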