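import Mathlib

/-!
The Mellin representation of the Gaussian.
-/

namespace Pool.Agent.QM.Po

open Real MeasureTheory Set

theorem norm_Gamma_le_re {s : ℂ} (hs : 0 < s.re) : ‖Complex.Gamma s‖ ≤ Real.Gamma s.re := by
  rw [Complex.Gamma_eq_integral hs, Real.Gamma_eq_integral hs, Complex.GammaIntegral]
  refine (norm_integral_le_integral_norm _).trans (le_of_eq ?_)
  refine setIntegral_congr_fun measurableSet_Ioi fun x hx => ?_
  simp only [norm_mul, Complex.norm_real, Real.norm_of_nonneg (exp_pos _).le,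
    Complex.norm_cpow_eq_rpow_re_of_pos hx, Complex.sub_re, Complex.one_re]

theorem continuous_GammaR_line {σ : ℝ} (hσ : 0 < σ) :
    Continuous fun t : ℝ => Complex.Gammaℝ (σ + t * Complex.I) := by
  refine continuous_iff_continuousAt.2 fun t => ?_
  have h : DifferentiableAt ℂ Complex.Gammaℝ (σ + t * Complex.I) := by
    unfold Complex.Gammaℝ
    refine DifferentiableAt.mul ?_ ?_
    · exact DifferentiableAt.const_cpow (by fun_prop) (Or.inl (by exact_mod_cast pi_ne_zero))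
    · refine (Complex.differentiableAt_Gamma _ fun m hm => ?_).comp _ (by fun_prop)
      have := congrArg Complex.re hm
      simp at this
      have : (0 : ℝ) ≤ m := m.cast_nonneg
      linarith
  exact h.continuousAt.comp (f := fun t : ℝ => (σ + t * Complex.I : ℂ)) (by fun_prop)

theorem integrable_GammaR_line {σ : ℝ} (hσ : 0 < σ) :
    Integrable fun t : ℝ => Complex.Gammaℝ (σ + t * Complex.I) := by
  set c : ℝ := min (σ ^ 2) 1 with hc
  have hc0 : 0 < c := lt_min (by positivity) one_pos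
  refine ((integrable_inv_one_add_sq.const_mul
    (π ^ (-σ / 2) * (4 * Real.Gamma (σ / 2 + 2)) / c)).mono'
    (continuous_GammaR_line hσ).aestronglyMeasurable (Filter.Eventually.of_forall fun t => ?_))
  set s : ℂ := (σ + t * Complex.I) / 2 with hs
  have hre : s.re = σ / 2 := by simp [hs]
  have him : s.im = t / 2 := by simp [hs]
  have hs0 : s ≠ 0 := fun h => by rw [h] at hre; simp at hre; linarith
  have hs1 : s + 1 ≠ 0 := fun h => by
    have := congrArg Complex.re h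
    simp [hre] at this; linarith
  have h1 : Complex.Gamma (s + 1 + 1) = (s + 1) * (s * Complex.Gamma s) := by
    rw [Complex.Gamma_add_one _ hs1, Complex.Gamma_add_one _ hs0]
  have h2 : ‖Complex.Gamma (s + 1 + 1)‖ ≤ Real.Gamma (σ / 2 + 2) := by
    have := norm_Gamma_le_re (s := s + 1 + 1) (by simp [hre]; linarith)
    have h3 : (s + 1 + 1).re = σ / 2 + 2 := by simp [hre]; ring
    rwa [h3] at this
  rw [h1, norm_mul, norm_mul] at h2
  have h3 : ‖s‖ ≤ ‖s + 1‖ := by
    rw [← sq_le_sq₀ (norm_nonneg _) (norm_nonneg _), Complex.sq_norm, Complex.sq_norm,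
      Complex.normSq_apply, Complex.normSq_apply]
    simp [hre]; nlinarith
  have h4 : c * (1 + t ^ 2) ≤ 4 * (‖s‖ * ‖s‖) := by
    rw [← sq, Complex.sq_norm, Complex.normSq_apply, hre, him]
    have a1 : c ≤ σ ^ 2 := min_le_left _ _
    have a2 : c ≤ 1 := min_le_right _ _
    nlinarith [sq_nonneg t]
  have h5 : c * (1 + t ^ 2) * ‖Complex.Gamma s‖ ≤ 4 * Real.Gamma (σ / 2 + 2) := by
    calc c * (1 + t ^ 2) * ‖Complex.Gamma s‖ ≤ 4 * (‖s‖ * ‖s‖) * ‖Complex.Gamma s‖ := by gcongr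
      _ = 4 * (‖s‖ * (‖s‖ * ‖Complex.Gamma s‖)) := by ring
      _ ≤ 4 * (‖s + 1‖ * (‖s‖ * ‖Complex.Gamma s‖)) := by gcongr
      _ ≤ _ := by gcongr
  rw [Complex.Gammaℝ_def, norm_mul, Complex.norm_cpow_eq_rpow_re_of_pos pi_pos, ← hs]
  have h6 : (-(σ + t * Complex.I : ℂ) / 2).re = -σ / 2 := by simp
  rw [h6, mul_div_assoc, mul_assoc]
  gcongr
  rw [div_mul_eq_mul_div, ← div_eq_mul_inv, div_div, le_div_iff₀ (by positivity)]
  linarith

theorem mellin_gauss {s : ℂ} (hs : 0 < s.re) :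
    HasMellin (fun x : ℝ => ((exp (-π * x ^ 2) : ℝ) : ℂ)) s (Complex.Gammaℝ s / 2) := by
  have hs2 : 0 < (s / 2).re := by simpa using hs
  have h0 : MellinConvergent (fun t : ℝ => ((exp (-t) : ℝ) : ℂ)) (s / 2) := by
    simpa only [MellinConvergent, smul_eq_mul, mul_comm] using Complex.GammaIntegral_convergent hs2
  have h1 : MellinConvergent (fun t : ℝ => ((exp (-(π * t)) : ℝ) : ℂ)) (s / 2) :=
    (MellinConvergent.comp_mul_left (f := fun t : ℝ => ((exp (-t) : ℝ) : ℂ)) pi_pos).2 h0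
  have he : (fun x : ℝ => ((exp (-π * x ^ 2) : ℝ) : ℂ)) =
      fun x : ℝ => (fun t : ℝ => ((exp (-(π * t)) : ℝ) : ℂ)) (x ^ (2 : ℝ)) := by
    funext x
    simp only [rpow_two, neg_mul]
  rw [he]
  refine ⟨(MellinConvergent.comp_rpow (f := fun t : ℝ => ((exp (-(π * t)) : ℝ) : ℂ))
    two_ne_zero).2 (by rw [Complex.ofReal_ofNat]; exact h1), ?_⟩
  rw [mellin_comp_rpow (fun t : ℝ => ((exp (-(π * t)) : ℝ) : ℂ)), mellin_comp_mul_left (fun t : ℝ => ((exp (-t) : ℝ) : ℂ)) _ pi_pos,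
    ← Complex.GammaIntegral_eq_mellin, Complex.ofReal_ofNat, ← Complex.Gamma_eq_integral hs2,
    Complex.Gammaℝ_def, neg_div]
  simp only [smul_eq_mul, Complex.real_smul]
  norm_num
  ring

/-- Mellin inversion for the Gaussian. -/
theorem gauss_eq_integral {σ x : ℝ} (hσ : 0 < σ) (hx : 0 < x) :
    ((exp (-π * x ^ 2) : ℝ) : ℂ) = (1 / (2 * π) : ℂ) * ∫ t : ℝ,
      Complex.Gammaℝ (σ + t * Complex.I) / 2 * (x : ℂ) ^ (-(σ + t * Complex.I)) := by
  have hm : ∀ t : ℝ, mellin (fun x : ℝ => ((exp (-π * x ^ 2) : ℝ) : ℂ)) (σ + t * Complex.I) =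
      Complex.Gammaℝ (σ + t * Complex.I) / 2 := fun t => (mellin_gauss (by simpa using hσ)).2
  have h := mellinInv_mellin_eq σ (fun x : ℝ => ((exp (-π * x ^ 2) : ℝ) : ℂ)) hx
    (mellin_gauss (by simpa using hσ)).1
    (by
      unfold Complex.VerticalIntegrable
      simp_rw [hm]
      exact (integrable_GammaR_line hσ).div_const 2)
    (by fun_prop)
  rw [← h, mellinInv]
  simp_rw [hm, smul_eq_mul, Complex.real_smul, mul_comm]
  push_cast
  rfl

end Pool.Agent.QM.Po
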