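import Pool.Agent.P.MP_ea46f5_nt.QM.S1

namespace Pool.Agent.QM

open Complex MeasureTheory Finset
open scoped Real ComplexConjugate

/-- Integral along a weighted path. -/
noncomputable def sd2_L (μ : Measure ℝ) (γ w : ℝ → ℂ) (f : ℂ → ℂ) : ℂ := ∫ t, w t * f (γ t) ∂μ

/-- An admissible weighted path inside the set `S`. -/
def sd2_Ok (S : Set ℂ) (μ : Measure ℝ) (γ w : ℝ → ℂ) : Prop :=
  Continuous γ ∧ Continuous w ∧ (∀ t, γ t ∈ S) ∧
    Integrable (fun t => ‖w t‖ * (1 / br (γ t).im ^ 2)) μ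

section two

variable {S : Set ℂ} {μ ν : Measure ℝ} [SFinite μ] [SFinite ν] {γ w δ v : ℝ → ℂ} {F : ℂ → ℂ → ℂ}
  {C : ℝ}

omit [SFinite μ] [SFinite ν] in
theorem sd2_int (h1 : sd2_Ok S μ γ w) (h2 : sd2_Ok S ν δ v)
    (hc : ContinuousOn (fun x : ℂ × ℂ => F x.1 x.2) (S ×ˢ S))
    (hb : ∀ s ∈ S, ∀ u ∈ S, ‖F s u‖ ≤ C / (br s.im ^ 2 * br u.im ^ 2)) :
    Integrable (fun t : ℝ × ℝ => w t.1 * (v t.2 * F (γ t.1) (δ t.2))) (μ.prod ν) := by
  obtain ⟨a1, a2, a3, a4⟩ := h1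
  obtain ⟨b1, b2, b3, b4⟩ := h2
  refine ((a4.mul_prod b4).const_mul C).mono' (Continuous.aestronglyMeasurable ?_)
    (Filter.Eventually.of_forall fun t => ?_)
  · have := hc.comp_continuous (f := fun t : ℝ × ℝ => (γ t.1, δ t.2)) (by fun_prop)
      fun t => ⟨a3 _, b3 _⟩
    exact (a2.comp continuous_fst).mul ((b2.comp continuous_snd).mul this)
  · rw [norm_mul, norm_mul]
    refine (mul_le_mul_of_nonneg_left (mul_le_mul_of_nonneg_left (hb _ (a3 _) _ (b3 _))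
      (norm_nonneg _)) (norm_nonneg _)).trans (le_of_eq ?_)
    rw [div_eq_mul_one_div C, ← one_div_mul_one_div]
    ring

theorem sd2_swap (h1 : sd2_Ok S μ γ w) (h2 : sd2_Ok S ν δ v)
    (hc : ContinuousOn (fun x : ℂ × ℂ => F x.1 x.2) (S ×ˢ S))
    (hb : ∀ s ∈ S, ∀ u ∈ S, ‖F s u‖ ≤ C / (br s.im ^ 2 * br u.im ^ 2)) :
    sd2_L μ γ w (fun s => sd2_L ν δ v (F s)) = sd2_L ν δ v fun u => sd2_L μ γ w fun s => F s u := by
  unfold sd2_L
  simp_rw [← integral_const_mul]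
  rw [integral_integral_swap (sd2_int h1 h2 hc hb)]
  simp_rw [mul_left_comm]

omit [SFinite μ] in
theorem sd2_left (h1 : sd2_Ok S μ γ w) (h2 : sd2_Ok S ν δ v)
    (hc : ContinuousOn (fun x : ℂ × ℂ => F x.1 x.2) (S ×ˢ S))
    (hb : ∀ s ∈ S, ∀ u ∈ S, ‖F s u‖ ≤ C / (br s.im ^ 2 * br u.im ^ 2)) :
    Integrable (fun t => w t * sd2_L ν δ v (F (γ t))) μ := by
  have := (sd2_int h1 h2 hc hb).integral_prod_left
  simpa only [integral_const_mul, sd2_L] using this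

omit [SFinite μ] in
theorem sd2_add {f g h : ℂ → ℂ} (h1 : sd2_Ok S μ γ w) (he : ∀ s ∈ S, f s = g s + h s)
    (hg : Integrable (fun t => w t * g (γ t)) μ) (hh : Integrable (fun t => w t * h (γ t)) μ) :
    sd2_L μ γ w f = sd2_L μ γ w g + sd2_L μ γ w h := by
  unfold sd2_L
  rw [← integral_add hg hh]
  refine integral_congr_ae (Filter.Eventually.of_forall fun t => ?_)
  simp only [he _ (h1.2.2.1 t), mul_add]

theorem sd2_main {κ : Measure ℝ} [SFinite κ] {ε x : ℝ → ℂ} (hA : sd2_Ok S μ γ w)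
    (hB : sd2_Ok S ν δ v) (hO : sd2_Ok S κ ε x)
    (hc : ContinuousOn (fun x : ℂ × ℂ => F x.1 x.2) (S ×ˢ S))
    (hb : ∀ s ∈ S, ∀ u ∈ S, ‖F s u‖ ≤ C / (br s.im ^ 2 * br u.im ^ 2))
    (s2 : ∀ s ∈ S, sd2_L ν δ v (F s) = sd2_L μ γ w (F s) + sd2_L κ ε x (F s))
    (s1 : ∀ u ∈ S, sd2_L ν δ v (fun s => F s u) =
      sd2_L μ γ w (fun s => F s u) + sd2_L κ ε x fun s => F s u) :
    sd2_L ν δ v (fun s => sd2_L ν δ v (F s)) = sd2_L μ γ w (fun s => sd2_L μ γ w (F s)) +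
      sd2_L μ γ w (fun s => sd2_L κ ε x (F s)) +
      sd2_L μ γ w (fun u => sd2_L κ ε x fun s => F s u) +
      sd2_L κ ε x fun s => sd2_L κ ε x (F s) := by
  have hc' : ContinuousOn (fun x : ℂ × ℂ => F x.2 x.1) (S ×ˢ S) :=
    ContinuousOn.comp (g := fun x : ℂ × ℂ => F x.1 x.2) (f := Prod.swap) hc
      continuous_swap.continuousOn fun x hx => ⟨hx.2, hx.1⟩
  have hb' : ∀ s ∈ S, ∀ u ∈ S, ‖F u s‖ ≤ C / (br s.im ^ 2 * br u.im ^ 2) :=
    fun s hs u hu => by rw [mul_comm (br s.im ^ 2)]; exact hb u hu s hs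
  have e1 := sd2_add hB s2 (sd2_left hB hA hc hb) (sd2_left hB hO hc hb)
  have e2 := sd2_add hA s1 (sd2_left (F := fun u s => F s u) hA hA hc' hb')
    (sd2_left (F := fun u s => F s u) hA hO hc' hb')
  have e3 := sd2_add hO s1 (sd2_left (F := fun u s => F s u) hO hA hc' hb')
    (sd2_left (F := fun u s => F s u) hO hO hc' hb')
  have e4 := sd2_swap hB hA hc hb
  have e5 := sd2_swap hB hO hc hb
  have e6 := sd2_swap hA hA hc hb
  have e7 := sd2_swap hA hO hc hb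
  have e8 := sd2_swap hO hO hc hb
  linear_combination e1 + e2 + e3 + e4 + e5 - e6 - e7 - e8

end two

theorem sd2_Iv (c : ℝ) (f : ℂ → ℂ) :
    Iv c f = sd2_L volume (fun t => c + t * I) (fun _ => 1) f := by
  simp [Iv, sd2_L]

theorem sd2_Oc (z : ℂ) (ρ : ℝ) (f : ℂ → ℂ) :
    Oc z ρ f = sd2_L (volume.restrict (Set.Ioc 0 (2 * π))) (fun t => z + ρ * cexp (t * I))
      (fun t => ρ * cexp (t * I)) f := by
  unfold Oc sd2_L
  rw [intervalIntegral.integral_of_le (by positivity)]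

theorem sd2_br (t : ℝ) : 1 ≤ br t := by
  unfold br
  linarith [abs_nonneg t]

theorem sd2_okL (hDEC : DEC) {a b c ρ : ℝ} {z : ℂ} (h1 : a ≤ c) (h2 : c ≤ b)
    (h3 : ρ ≤ |c - z.re|) :
    sd2_Ok (Strip a b ∩ {s | ρ ≤ ‖s - z‖}) volume (fun t => c + t * I) fun _ => 1 := by
  refine ⟨by fun_prop, by fun_prop, fun t => ⟨by simpa [Strip] using ⟨h1, h2⟩, ?_⟩, ?_⟩
  · refine le_trans ?_ (abs_re_le_norm _)
    simpa using h3
  · simpa using hDEC.2.2.2.1.1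

theorem sd2_okO {a b ρ : ℝ} {z : ℂ} (hρ : 0 < ρ) (ha : a < z.re - ρ) (hb : z.re + ρ < b) :
    sd2_Ok (Strip a b ∩ {s | ρ ≤ ‖s - z‖}) (volume.restrict (Set.Ioc 0 (2 * π)))
      (fun t => z + ρ * cexp (t * I)) fun t => ρ * cexp (t * I) := by
  refine ⟨by fun_prop, by fun_prop, fun t => ⟨?_, ?_⟩, ?_⟩
  · have h1 := mul_le_mul_of_nonneg_left (Real.cos_le_one t) hρ.le
    have h2 := mul_le_mul_of_nonneg_left (Real.neg_one_le_cos t) hρ.le
    constructor <;> rw [add_re, re_ofReal_mul, exp_ofReal_mul_I_re] <;> linarith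
  · change ρ ≤ ‖z + ρ * cexp (t * I) - z‖
    rw [add_sub_cancel_left, norm_mul, norm_exp_ofReal_mul_I, mul_one, norm_real,
      Real.norm_of_nonneg hρ.le]
  · refine Continuous.integrableOn_Ioc (Continuous.mul (by fun_prop)
      (Continuous.div (by fun_prop) (by unfold br; fun_prop) fun t => ?_))
    exact (pow_pos (one_pos.trans_le (sd2_br _)) 2).ne'

theorem sd2_aux {C : ℝ} (z x s u : ℂ) (h : ‖x‖ ≤ C / (br s.im ^ 2 * br u.im ^ 2)) :
    ‖x / (s - z) ^ 2‖ ≤ C / br s.im ^ 2 / ‖s - z‖ ^ 2 / br u.im := by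
  have h1 := sd2_br u.im
  have h2 := sd2_br s.im
  have hC : 0 ≤ C := by
    by_contra hC
    have := div_neg_of_neg_of_pos (not_le.1 hC)
      (show 0 < br s.im ^ 2 * br u.im ^ 2 by positivity)
    linarith [norm_nonneg x]
  rw [norm_div, norm_pow, div_right_comm, div_div C]
  refine div_le_div_of_nonneg_right (h.trans ?_) (by positivity)
  refine div_le_div_of_nonneg_left hC (by positivity) ?_
  exact mul_le_mul_of_nonneg_left (le_self_pow₀ h1 two_ne_zero) (by positivity)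

theorem sd2_I2 {S : Set ℂ} {F : ℂ → ℂ → ℂ} {C c : ℝ}
    (ok : sd2_Ok S volume (fun t => c + t * I) fun _ => 1)
    (hc : ContinuousOn (fun x : ℂ × ℂ => F x.1 x.2) (S ×ˢ S))
    (hb : ∀ s ∈ S, ∀ u ∈ S, ‖F s u‖ ≤ C / (br s.im ^ 2 * br u.im ^ 2)) :
    I2 c F = Iv c fun s => Iv c (F s) := by
  have := sd2_int ok ok hc hb
  simp only [one_mul] at this
  unfold I2 Iv
  rw [Measure.volume_eq_prod, integral_prod _ this]

theorem sd2_fin (hDEC : DEC) {a b C ρ : ℝ} {z : ℂ} {F : ℂ → ℂ → ℂ} (hρ : 0 < ρ)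
    (ha : a < z.re - ρ) (hb : z.re + ρ < b) {S : Set ℂ} (hS : S = Strip a b ∩ {s | ρ ≤ ‖s - z‖})
    (hc : ContinuousOn (fun x : ℂ × ℂ => F x.1 x.2) (S ×ˢ S))
    (hm : ∀ s ∈ S, ∀ u ∈ S, ‖F s u‖ ≤ C / (br s.im ^ 2 * br u.im ^ 2))
    (s2 : ∀ s ∈ S, Iv b (F s) = Iv a (F s) + Oc z ρ (F s))
    (s1 : ∀ u ∈ S, Iv b (fun s => F s u) = Iv a (fun s => F s u) + Oc z ρ fun s => F s u) :
    I2 b F = I2 a F + Iv a (fun s => Oc z ρ (F s)) + Iv a (fun u => Oc z ρ fun s => F s u) +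
      Oc z ρ fun s => Oc z ρ (F s) := by
  subst hS
  have hab : a ≤ b := by linarith
  have okA := sd2_okL hDEC (z := z) (ρ := ρ) le_rfl hab (by rw [le_abs]; right; linarith)
  have okB := sd2_okL hDEC (z := z) (ρ := ρ) hab le_rfl (by rw [le_abs]; left; linarith)
  rw [sd2_I2 okA hc hm, sd2_I2 okB hc hm]
  simp only [sd2_Iv, sd2_Oc] at s1 s2 ⊢
  exact sd2_main okA okB (sd2_okO hρ ha hb) hc hm s2 s1

theorem pSD2 (hSH2 : SH2) (hDEC : DEC) : SD2 := by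
  intro a b C ρ G z hρ ha hb hG hm
  have hne : ∀ s ∈ Strip a b ∩ {s | ρ ≤ ‖s - z‖}, s - z ≠ 0 := fun s hs h => by
    have := hs.2
    rw [Set.mem_ofPred_eq, h, norm_zero] at this
    linarith
  refine sd2_fin hDEC (C := C / (ρ ^ 2 * ρ ^ 2)) hρ ha hb rfl ?_ (fun s hs u hu => ?_)
    (fun s hs => ?_) fun s hs => ?_
  · exact (hG.1.mono (Set.prod_mono Set.inter_subset_left Set.inter_subset_left)).div
      (by fun_prop)
      fun x hx => mul_ne_zero (pow_ne_zero _ (hne _ hx.1)) (pow_ne_zero _ (hne _ hx.2))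
  · have h1 := hm s hs.1 u hu.1
    rw [div_right_comm, norm_div, norm_mul, norm_pow, norm_pow]
    exact div_le_div₀ ((norm_nonneg _).trans h1) h1 (by positivity)
      (mul_le_mul (pow_le_pow_left₀ hρ.le hs.2 2) (pow_le_pow_left₀ hρ.le hu.2 2)
        (by positivity) (by positivity))
  · have := hSH2 a b _ ρ (fun u => G s u / (s - z) ^ 2) z hρ ha hb
      ⟨(hG.1.comp (f := fun u : ℂ => (s, u)) (by fun_prop) fun u hu => ⟨hs.1, hu⟩).div_const _,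
        (hG.2.2 s hs.1).div_const _⟩ fun u hu => sd2_aux z _ s u (hm s hs.1 u hu)
    simpa only [div_div] using this
  · have := hSH2 a b _ ρ (fun u => G u s / (s - z) ^ 2) z hρ ha hb
      ⟨(hG.1.comp (f := fun u : ℂ => (u, s)) (by fun_prop) fun u hu => ⟨hu, hs.1⟩).div_const _,
        (hG.2.1 s hs.1).div_const _⟩ fun u hu => sd2_aux z _ s u (by
          rw [mul_comm]; exact hm u hu s hs.1)
    simpa only [div_div, mul_comm ((s - z) ^ 2)] using this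

end Pool.Agent.QM
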