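import Mathlib

/-!
Separation of the conductor from the contour variable by a Gaussian kernel.
-/

namespace Pool.Agent.QM

open Real Finset MeasureTheory Complex

theorem exp_neg_abs_le (y : ℝ) : rexp (-|y|) ≤ 2 * (1 + y ^ 2)⁻¹ := by
  have h := Real.quadratic_le_exp_of_nonneg (abs_nonneg y)
  rw [Real.exp_neg, ← div_eq_mul_inv, le_div_iff₀ (by positivity), inv_mul_le_iff₀ (Real.exp_pos _)]
  rw [sq_abs] at h
  nlinarith [abs_nonneg y]

theorem integrable_exp_neg_abs : Integrable fun y : ℝ => rexp (-|y|) :=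
  (integrable_inv_one_add_sq.const_mul 2).mono' (by fun_prop)
    (Filter.Eventually.of_forall fun y => by
      rw [Real.norm_of_nonneg (Real.exp_pos _).le]
      exact exp_neg_abs_le y)

theorem integral_exp_neg_abs_le : ∫ y : ℝ, rexp (-|y|) ≤ 7 := by
  calc ∫ y : ℝ, rexp (-|y|) ≤ ∫ y : ℝ, 2 * (1 + y ^ 2)⁻¹ :=
        integral_mono integrable_exp_neg_abs (integrable_inv_one_add_sq.const_mul 2) exp_neg_abs_le
    _ = 2 * π := by rw [integral_const_mul, integral_univ_inv_one_add_sq]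
    _ ≤ 7 := by linarith [Real.pi_lt_d2]

theorem sep_kernel (s : ℂ) (v : ℝ) :
    ∫ y : ℝ, cexp ((s + y * I) ^ 2 / 4) * cexp (-(v * y * I)) =
      (2 * √π : ℝ) * cexp (v * s - v ^ 2) := by
  have hb : (-1 / 4 : ℂ).re < 0 := by norm_num
  have h := integral_cexp_quadratic hb (s * I / 2 - v * I) (s ^ 2 / 4)
  have e1 : ∀ y : ℝ, cexp ((s + y * I) ^ 2 / 4) * cexp (-(v * y * I)) =
      cexp (-1 / 4 * y ^ 2 + (s * I / 2 - v * I) * y + s ^ 2 / 4) := by
    intro y
    rw [← Complex.exp_add]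
    congr 1
    linear_combination (y : ℂ) ^ 2 / 4 * I_sq
  simp_rw [e1]
  rw [h]
  congr 1
  · have e2 : (π : ℂ) / -(-1 / 4) = ((4 * π : ℝ) : ℂ) := by push_cast; ring
    have e3 : (1 / 2 : ℂ) = ((1 / 2 : ℝ) : ℂ) := by push_cast; ring
    rw [e2, e3, ← ofReal_cpow (by positivity), ← Real.sqrt_eq_rpow, Real.sqrt_mul (by norm_num)]
    have : √(4 : ℝ) = 2 := by
      rw [show (4 : ℝ) = 2 ^ 2 by norm_num, Real.sqrt_sq (by norm_num)]
    rw [this]
  · congr 1
    linear_combination (s / 2 - v) ^ 2 * I_sq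

theorem norm_sep_gauss (σ u : ℝ) :
    ‖cexp (((σ : ℂ) + u * I) ^ 2 / 4)‖ = rexp (σ ^ 2 / 4) * rexp (-(1 / 4) * u ^ 2) := by
  rw [Complex.norm_exp, ← Real.exp_add]
  congr 1
  have : ((σ : ℂ) + u * I) ^ 2 / 4 = ((σ ^ 2 / 4 - u ^ 2 / 4 : ℝ) : ℂ) + (σ * u / 2 : ℝ) * I := by
    push_cast
    linear_combination (u : ℂ) ^ 2 / 4 * I_sq
  rw [this]
  simp only [add_re, ofReal_re, mul_re, I_re, mul_zero, ofReal_im, I_im, mul_one, sub_self, add_zero]
  ring

theorem sep_integrable {F : ℝ → ℂ} (hF : Integrable F) (σ t v : ℝ) :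
    Integrable (Function.uncurry fun τ y : ℝ =>
      F τ * cexp (((σ : ℂ) + (τ - t) * I + y * I) ^ 2 / 4) * cexp (-(v * y * I)))
      (volume.prod volume) := by
  have hn : ∀ τ y : ℝ, ‖F τ * cexp (((σ : ℂ) + (τ - t) * I + y * I) ^ 2 / 4) * cexp (-(v * y * I))‖ =
      ‖F τ‖ * (rexp (σ ^ 2 / 4) * rexp (-(1 / 4) * ((τ - t) + y) ^ 2)) := by
    intro τ y
    have e : (σ : ℂ) + (τ - t) * I + y * I = σ + ((τ - t + y : ℝ) : ℂ) * I := by push_cast; ring
    have e2 : -((v : ℂ) * y * I) = ((-(v * y) : ℝ) : ℂ) * I := by push_cast; ring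
    rw [norm_mul, norm_mul, e, norm_sep_gauss, e2, norm_exp_ofReal_mul_I, mul_one]
  have hm : AEStronglyMeasurable (Function.uncurry fun τ y : ℝ =>
      F τ * cexp (((σ : ℂ) + (τ - t) * I + y * I) ^ 2 / 4) * cexp (-(v * y * I)))
      (volume.prod volume) := by
    refine (hF.1.comp_fst.mul ?_).mul ?_
    · exact Continuous.aestronglyMeasurable (by fun_prop)
    · exact Continuous.aestronglyMeasurable (by fun_prop)
  have hg : Integrable fun y : ℝ => rexp (-(1 / 4) * y ^ 2) := integrable_exp_neg_mul_sq (by norm_num)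
  rw [integrable_prod_iff hm]
  constructor
  · refine Filter.Eventually.of_forall fun τ => ?_
    refine Integrable.mono' (((hg.comp_add_left (τ - t)).const_mul (rexp (σ ^ 2 / 4))).const_mul
      ‖F τ‖) (Continuous.aestronglyMeasurable (by simp only [Function.uncurry]; fun_prop)) ?_
    exact Filter.Eventually.of_forall fun y => (hn τ y).le
  · have e : ∀ τ : ℝ, ∫ y : ℝ, ‖(Function.uncurry fun τ y : ℝ =>
        F τ * cexp (((σ : ℂ) + (τ - t) * I + y * I) ^ 2 / 4) * cexp (-(v * y * I))) (τ, y)‖ =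
        ‖F τ‖ * (rexp (σ ^ 2 / 4) * ∫ y : ℝ, rexp (-(1 / 4) * y ^ 2)) := by
      intro τ
      simp only [Function.uncurry, hn]
      rw [integral_const_mul, integral_const_mul,
        integral_add_left_eq_self (fun y : ℝ => rexp (-(1 / 4) * y ^ 2)) (τ - t)]
    simp_rw [e]
    exact hF.norm.mul_const _

theorem sep_one {F : ℝ → ℂ} (hF : Integrable F) (σ t v : ℝ) :
    (Integrable fun y : ℝ => (∫ τ : ℝ, F τ * cexp (((σ : ℂ) + (τ - t) * I + y * I) ^ 2 / 4)) *
      cexp (-(v * y * I))) ∧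
    ∫ τ : ℝ, F τ * cexp (v * (σ + (τ - t) * I)) = (rexp (v ^ 2) / (2 * √π) : ℝ) *
      ∫ y : ℝ, (∫ τ : ℝ, F τ * cexp (((σ : ℂ) + (τ - t) * I + y * I) ^ 2 / 4)) *
        cexp (-(v * y * I)) := by
  have h := sep_integrable hF σ t v
  constructor
  · have := h.integral_prod_right
    simp only [Function.uncurry, integral_mul_const] at this
    exact this
  · have h2 := integral_integral_swap h
    simp only [integral_mul_const] at h2
    rw [← h2, ← integral_const_mul]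
    refine integral_congr_ae (Filter.Eventually.of_forall fun τ => ?_)
    simp only [mul_assoc (F τ), integral_const_mul, sep_kernel]
    have hp : (√π : ℂ) ≠ 0 := by
      have : 0 < √π := Real.sqrt_pos.2 Real.pi_pos
      exact_mod_cast this.ne'
    rw [Complex.exp_sub]
    push_cast
    field_simp

/-- Separation: a mean square bound for the Gaussian pieces gives the mean square bound with the
varying factor `exp (v k * s)`. -/
theorem sep_abs {ι : Type} (S : Finset ι) (ρ v : ι → ℝ) (F : ι → ℝ → ℂ) (σ t M : ℝ)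
    (hρ : ∀ k ∈ S, 0 ≤ ρ k) (hv : ∀ k ∈ S, |v k| ≤ 2) (hF : ∀ k ∈ S, Integrable (F k))
    (hM : ∀ y : ℝ, ∑ k ∈ S, ρ k *
      ‖∫ τ : ℝ, F k τ * cexp (((σ : ℂ) + (τ - t) * I + y * I) ^ 2 / 4)‖ ^ 2 ≤
        M * rexp (-|y|) ^ 2) :
    ∑ k ∈ S, ρ k * ‖∫ τ : ℝ, F k τ * cexp (v k * (σ + (τ - t) * I))‖ ^ 2 ≤
      49 * rexp 8 * M := by
  set D : ι → ℂ := fun k => ∫ τ : ℝ, F k τ * cexp (v k * (σ + (τ - t) * I)) with hD
  set E : ι → ℝ → ℂ := fun k y =>
    ∫ τ : ℝ, F k τ * cexp (((σ : ℂ) + (τ - t) * I + y * I) ^ 2 / 4) with hE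
  have hM0 : 0 ≤ M := by
    have h1 := hM 0
    have h2 : 0 ≤ ∑ k ∈ S, ρ k * ‖E k 0‖ ^ 2 :=
      sum_nonneg fun k hk => mul_nonneg (hρ k hk) (by positivity)
    simp only [abs_zero, neg_zero, Real.exp_zero, one_pow, mul_one] at h1
    exact h2.trans h1
  have hn : ∀ k (y : ℝ), ‖E k y * cexp (-(v k * y * I))‖ = ‖E k y‖ := by
    intro k y
    have e2 : -((v k : ℂ) * y * I) = ((-(v k * y) : ℝ) : ℂ) * I := by push_cast; ring
    rw [norm_mul, e2, norm_exp_ofReal_mul_I, mul_one]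
  have hI : ∀ k ∈ S, Integrable fun y : ℝ => ‖E k y‖ := by
    intro k hk
    have := (sep_one (hF k hk) σ t (v k)).1.norm
    exact this.congr (Filter.Eventually.of_forall fun y => hn k y)
  have hD1 : ∀ k ∈ S, ‖D k‖ ≤ rexp 4 * ∫ y : ℝ, ‖E k y‖ := by
    intro k hk
    have h := (sep_one (hF k hk) σ t (v k)).2
    have hp : 1 ≤ √π := Real.one_le_sqrt.2 (by linarith [Real.pi_gt_three])
    change D k = _ at h
    rw [h, norm_mul, Complex.norm_real, Real.norm_of_nonneg (by positivity)]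
    refine mul_le_mul ?_ ?_ (norm_nonneg _) (by positivity)
    · have a1 : v k ^ 2 ≤ 4 := by
        have := hv k hk
        nlinarith [sq_abs (v k), abs_nonneg (v k)]
      calc rexp (v k ^ 2) / (2 * √π) ≤ rexp 4 / 1 := by gcongr; linarith
        _ = rexp 4 := div_one _
    · refine (norm_integral_le_integral_norm _).trans (le_of_eq ?_)
      exact integral_congr_ae (Filter.Eventually.of_forall fun y => hn k y)
  set A : ℝ := ∑ k ∈ S, ρ k * ‖D k‖ ^ 2 with hA
  have hA0 : 0 ≤ A := sum_nonneg fun k hk => mul_nonneg (hρ k hk) (by positivity)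
  have hcs : ∀ y : ℝ, ∑ k ∈ S, ρ k * ‖D k‖ * ‖E k y‖ ≤ √A * √M * rexp (-|y|) := by
    intro y
    have h1 : (∑ k ∈ S, ρ k * ‖D k‖ * ‖E k y‖) ^ 2 ≤
        (∑ k ∈ S, ρ k * ‖D k‖ ^ 2) * ∑ k ∈ S, ρ k * ‖E k y‖ ^ 2 :=
      sum_sq_le_sum_mul_sum_of_sq_le_mul S (fun k hk => mul_nonneg (hρ k hk) (by positivity))
        (fun k hk => mul_nonneg (hρ k hk) (by positivity)) (fun k _ => le_of_eq (by ring))
    refine le_of_sq_le_sq ?_ (by positivity)
    rw [mul_pow, mul_pow, Real.sq_sqrt hA0, Real.sq_sqrt hM0, mul_assoc]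
    exact h1.trans (mul_le_mul_of_nonneg_left (hM y) hA0)
  have hmain : A ≤ rexp 4 * (√A * √M * 7) := by
    calc A = ∑ k ∈ S, ρ k * ‖D k‖ * ‖D k‖ := sum_congr rfl fun k _ => by ring
      _ ≤ ∑ k ∈ S, ρ k * ‖D k‖ * (rexp 4 * ∫ y : ℝ, ‖E k y‖) :=
          sum_le_sum fun k hk => mul_le_mul_of_nonneg_left (hD1 k hk)
            (mul_nonneg (hρ k hk) (norm_nonneg _))
      _ = rexp 4 * ∫ y : ℝ, ∑ k ∈ S, ρ k * ‖D k‖ * ‖E k y‖ := by
          rw [integral_finsetSum _ fun k hk => (hI k hk).const_mul _, mul_sum]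
          refine sum_congr rfl fun k _ => ?_
          rw [integral_const_mul]
          ring
      _ ≤ rexp 4 * ∫ y : ℝ, √A * √M * rexp (-|y|) := by
          exact mul_le_mul_of_nonneg_left (integral_mono
            (integrable_finsetSum _ fun k hk => (hI k hk).const_mul _)
            (integrable_exp_neg_abs.const_mul _) hcs) (Real.exp_pos _).le
      _ ≤ rexp 4 * (√A * √M * 7) := by
          rw [integral_const_mul]
          gcongr
          exact integral_exp_neg_abs_le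
  have h8 : rexp 8 = rexp 4 ^ 2 := by rw [← Real.exp_nat_mul]; norm_num
  have a1 := Real.sq_sqrt hA0
  have a2 := Real.sq_sqrt hM0
  rw [h8]
  change A ≤ _
  nlinarith [sq_nonneg (√A - 7 * rexp 4 * √M)]

end Pool.Agent.QM
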