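import Pool.Agent.P.MP_ea46f5_nt.QM.S2
import Pool.Agent.P.MP_ea46f5_nt.QM.SepAbs

namespace Pool.Agent.QM

open Complex MeasureTheory Finset
open scoped Real ComplexConjugate

theorem pSEP (_hDEC : DEC) : SEP := by
  refine ⟨49 * Real.exp 8, by positivity, fun F G ρ v t M h hM => ?_⟩
  have key := sep_abs F ρ v (fun k τ => G k (12 + τ * I)) 12 t M (fun k hk => (h k hk).2.1)
    (fun k hk => (h k hk).2.2) (fun k hk => (h k hk).1) (fun y => by
      have h1 := hM y
      have e : Real.exp (-|y|) ^ 2 = Real.exp (-2 * |y|) := by
        rw [← Real.exp_nat_mul]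
        congr 1
        push_cast
        ring
      rw [e]
      refine le_trans (le_of_eq (sum_congr rfl fun k _ => ?_)) h1
      unfold Iv
      congr 4
      funext τ
      push_cast
      congr 4
      ring)
  refine le_trans (le_of_eq (sum_congr rfl fun k _ => ?_)) key
  unfold Iv
  congr 4
  funext τ
  push_cast
  congr 3
  ring

end Pool.Agent.QM
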