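import Pool.Agent.P.MP_ea46f5_nt.QM.StAux

namespace Pool.Agent.QM

open Complex MeasureTheory Finset
open scoped Real ComplexConjugate

theorem step_mem_Sq {Z : ℝ} {k : ℤ} (h : k ∈ Sq Z) :
    Squarefree k ∧ k ≠ 1 ∧ Z / 2 < |(k : ℝ)| ∧ |(k : ℝ)| ≤ Z := by
  classical
  unfold Sq at h
  exact (mem_filter.1 h).2

theorem step_card {Z : ℝ} (hZ : 1 ≤ Z) : ((Sq Z).card : ℝ) ≤ 5 * Z := by
  classical
  have h1 : (Sq Z).card ≤ (Icc (-⌈Z⌉) ⌈Z⌉).card := by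
    unfold Sq
    exact card_filter_le _ _
  have h2 : (0 : ℤ) ≤ ⌈Z⌉ := Int.ceil_nonneg (by linarith)
  have h3 : ((Icc (-⌈Z⌉) ⌈Z⌉).card : ℤ) = ⌈Z⌉ + 1 - -⌈Z⌉ := Int.card_Icc_of_le _ _ (by linarith)
  have h4 : ((Sq Z).card : ℤ) ≤ ⌈Z⌉ + 1 - -⌈Z⌉ := by
    rw [← h3]
    exact_mod_cast h1
  have h5 : ((Sq Z).card : ℝ) ≤ ⌈Z⌉ + 1 - -⌈Z⌉ := by exact_mod_cast h4
  linarith [Int.ceil_lt_add_one Z]

theorem pTRV (hLOB : LOB) : TRV := by
  refine ⟨5 * 8 ^ 4, by norm_num, fun Z t hZ => ⟨?_, step_card hZ⟩⟩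
  have hb := st_br t
  have h1 : ∀ k ∈ Sq Z, ‖Lo k (1 / 2 + t * I)‖ ^ 4 ≤ (8 * Z * br t) ^ 4 := by
    intro k hk
    obtain ⟨a1, a2, -, a4⟩ := step_mem_Sq hk
    have e : (1 / 2 + t * I : ℂ).re = 1 / 2 := by simp
    have b1 := hLOB k (1 / 2 + t * I) a1 a2 (by rw [e]; norm_num)
    have b2 : ‖(1 / 2 + t * I : ℂ)‖ ≤ br t := by
      refine (norm_add_le _ _).trans ?_
      unfold br
      simp only [norm_mul, Complex.norm_real, norm_I, Real.norm_eq_abs, mul_one, norm_div, norm_one,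
        Complex.norm_ofNat]
      linarith
    rw [e] at b1
    gcongr
    calc _ ≤ 4 * |(k : ℝ)| * ‖(1 / 2 + t * I : ℂ)‖ / (1 / 2) := b1
      _ ≤ 4 * Z * br t / (1 / 2) := by gcongr
      _ = _ := by ring
  calc M4 Z t ≤ (Sq Z).card • (8 * Z * br t) ^ 4 := sum_le_card_nsmul _ _ _ h1
    _ = ((Sq Z).card : ℝ) * (8 * Z * br t) ^ 4 := nsmul_eq_mul _ _
    _ ≤ 5 * Z * (8 * Z * br t) ^ 4 := by gcongr; exact step_card hZ
    _ = _ := by ring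

theorem step_split (hDL : DL) {Δ : ℝ} (hΔ : 0 ≤ Δ) (t : ℝ) {k : ℤ} (hk : k ≠ 0) :
    Dq t (fun s => 1 / s) k = Dq t (phs Δ) k + Dq t (phm Δ) k := by
  have h := hDL t k 2 (fun s => 1 / s) (fun j => if j = 0 then phs Δ else phm Δ) 1 hk le_rfl
    (fun j _ => by
      split_ifs
      · exact ⟨_, st_far_phs0 one_pos hΔ⟩
      · exact ⟨_, st_far_phm one_pos hΔ⟩)
    (fun s _ => by
      simp only [sum_range_succ, range_zero, sum_empty, zero_add, if_true, one_ne_zero, if_false]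
      unfold phs phm
      ring)
  simpa only [sum_range_succ, range_zero, sum_empty, zero_add, if_true, one_ne_zero, if_false]
    using h

theorem step_point {x y a b c d : ℝ} (hx : 0 ≤ x) (hxy : x ≤ 2 * y)
    (h : 2 * π * y ^ 2 ≤ a + b + (c + d)) :
    x ^ 4 ≤ 2 * (a ^ 2 + b ^ 2 + c ^ 2 + d ^ 2) := by
  have h1 : 6 * y ^ 2 ≤ a + b + (c + d) := by nlinarith [Real.pi_gt_three, sq_nonneg y]
  have h2 : (6 * y ^ 2) ^ 2 ≤ (a + b + (c + d)) ^ 2 := by gcongr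
  have h3 : x ^ 4 ≤ (2 * y) ^ 4 := by gcongr
  have h4 : (a + b + (c + d)) ^ 2 ≤ 4 * (a ^ 2 + b ^ 2 + c ^ 2 + d ^ 2) := by
    nlinarith [sq_nonneg (a - b), sq_nonneg (a - c), sq_nonneg (a - d), sq_nonneg (b - c),
      sq_nonneg (b - d), sq_nonneg (c - d)]
  have h5 : 0 ≤ y ^ 4 := by positivity
  have e1 : (6 * y ^ 2) ^ 2 = 36 * y ^ 4 := by ring
  have e2 : (2 * y) ^ 4 = 16 * y ^ 4 := by ring
  linarith

theorem step_one {X Y : ℝ} (hX : 1 ≤ X) : 1 ≤ lg X ^ 10 * max 1 (X / Y) ^ 4 :=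
  one_le_mul_of_one_le_of_one_le (one_le_pow₀ (st_lg_one hX)) (one_le_pow₀ (le_max_left _ _))

theorem pSTEP (hSTS : STS) (hSTM : STM) (hAFE : AFE) (hDL : DL) (hBRG : BRG) (hTRV : TRV) : STEP := by
  obtain ⟨c1, H1⟩ := hSTS
  obtain ⟨c2, H2⟩ := hSTM
  obtain ⟨C0, hC0, HT⟩ := hTRV
  set B := c1 + c2 with hB
  obtain ⟨C1, Z1, hC1, H1⟩ := H1 (8 * B + 4) B (1 / 16) (by omega) (by omega) (by norm_num)
  obtain ⟨C2, Z2, hC2, H2⟩ := H2 (8 * B + 4) B (1 / 16) (by omega) (by omega) (by norm_num)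
  obtain ⟨Z0, hZ0⟩ := st_big 0
  refine ⟨8 * B + 4, C0 + 4 * C1 + 4 * C2, max Z0 (max Z1 Z2), by omega, by positivity,
    fun μ Y X t hμ hY h4 hX => ?_⟩
  obtain ⟨h1, hL, -, -⟩ := hZ0 X ((le_max_left _ _).trans hX)
  have hX1 : Z1 ≤ X := ((le_max_left _ _).trans (le_max_right _ _)).trans hX
  have hX2 : Z2 ≤ X := ((le_max_right _ _).trans (le_max_right _ _)).trans hX
  have hbr := st_br t
  have hone := step_one (Y := Y) h1
  set Q := X * lg X ^ 10 * br t ^ (8 * B + 4) * max 1 (X / Y) ^ 4 with hQ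
  have hQ1 : X * br t ^ (8 * B + 4) ≤ Q := by
    calc X * br t ^ (8 * B + 4) = X * br t ^ (8 * B + 4) * 1 := (mul_one _).symm
      _ ≤ X * br t ^ (8 * B + 4) * (lg X ^ 10 * max 1 (X / Y) ^ 4) := by gcongr
      _ = Q := by rw [hQ]; ring
  have hQ0 : 0 ≤ Q := le_trans (by positivity) hQ1
  have eQ : ∀ u : ℝ, u * X * lg X ^ 10 * br t ^ (8 * B + 4) * max 1 (X / Y) ^ 4 = u * Q := by
    intro u
    rw [hQ]
    ring
  rw [eQ]
  rcases le_total (br t ^ (2 * B)) X with hb | hb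
  · set Δ := Real.log (Real.log X ^ 3 * br t ^ B) with hΔ
    have hΔ0 : 0 ≤ Δ := Real.log_nonneg
      (one_le_mul_of_one_le_of_one_le (one_le_pow₀ (by linarith)) (one_le_pow₀ hbr))
    have s1 := H1 μ Y X t hμ hY h4 hX1 hb
    have s2 := H2 μ Y X t hμ hY h4 hX2
    have s3 := H1 μ Y X (-t) hμ hY h4 hX1 (by rwa [st_br_neg])
    have s4 := H2 μ Y X (-t) hμ hY h4 hX2
    rw [st_br_neg] at s3 s4
    rw [eQ, ← hΔ] at s1 s2 s3 s4
    have hp : ∀ k ∈ Sq X, ‖Lo k (1 / 2 + t * I)‖ ^ 4 ≤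
        2 * (‖Dq t (phs Δ) k‖ ^ 2 + ‖Dq t (phm Δ) k‖ ^ 2 + ‖Dq (-t) (phs Δ) k‖ ^ 2 +
          ‖Dq (-t) (phm Δ) k‖ ^ 2) := by
      intro k hk
      obtain ⟨a1, a2, -, -⟩ := step_mem_Sq hk
      have b1 := hAFE k t a1 a2
      rw [step_split hDL hΔ0 t a1.ne_zero, step_split hDL hΔ0 (-t) a1.ne_zero] at b1
      have b2 := (hBRG.2.2.1 k (1 / 2 + t * I) (by simp; norm_num)).1
      exact step_point (norm_nonneg _) b2
        (b1.trans (add_le_add (norm_add_le _ _) (norm_add_le _ _)))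
    have hs : M4 X t ≤ _ := sum_le_sum hp
    rw [← mul_sum, sum_add_distrib, sum_add_distrib, sum_add_distrib] at hs
    have h0 : 0 ≤ C0 * Q := by positivity
    linarith
  · have h2 := (HT X t h1).1
    have h3 : X ^ 4 ≤ (br t ^ (2 * B)) ^ 4 := by gcongr
    calc M4 X t ≤ C0 * X ^ 5 * br t ^ 4 := h2
      _ = C0 * (X * (X ^ 4 * br t ^ 4)) := by ring
      _ ≤ C0 * (X * ((br t ^ (2 * B)) ^ 4 * br t ^ 4)) := by gcongr
      _ = C0 * (X * br t ^ (8 * B + 4)) := by ring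
      _ ≤ C0 * Q := by gcongr
      _ ≤ _ := by gcongr; linarith

theorem step_mono {A : ℕ} {μ ν Y : ℝ} (h : H4 A μ Y) (hμ : μ ≤ ν) : H4 A ν Y := by
  intro Z hZ t
  refine (h Z hZ t).trans ?_
  have h1 := st_lg_one hZ
  have h2 := st_br t
  have h3 : (0 : ℝ) ≤ max 1 (Z / Y) := zero_le_one.trans (le_max_left _ _)
  gcongr

theorem pFOUR (hSTEP : STEP) (hTRV : TRV) (hMT : MT) : FOUR := by
  obtain ⟨A, C, Z₀, hA, hC, H⟩ := hSTEP
  obtain ⟨C0, hC0, HT⟩ := hTRV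
  obtain ⟨C2, hC2, HM⟩ := hMT
  have triv : ∀ Y W Z t : ℝ, 1 ≤ Z → 0 ≤ W → Z ≤ W * max 1 (Z / Y) →
      M4 Z t ≤ C0 * W ^ 4 * Z * lg Z ^ 10 * br t ^ A * max 1 (Z / Y) ^ 4 := by
    intro Y W Z t hZ hW h
    have hbr := st_br t
    have h1 : (1 : ℝ) ≤ lg Z ^ 10 := one_le_pow₀ (st_lg_one hZ)
    calc M4 Z t ≤ C0 * Z ^ 5 * br t ^ 4 := (HT Z t hZ).1
      _ = C0 * Z * 1 * br t ^ 4 * Z ^ 4 := by ring
      _ ≤ C0 * Z * lg Z ^ 10 * br t ^ A * (W * max 1 (Z / Y)) ^ 4 := by gcongr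
      _ = _ := by ring
  set C3 := C + C0 * Z₀ ^ 4 with hC3
  have hC30 : 0 < C3 := by positivity
  have step : ∀ μ Y : ℝ, 0 ≤ μ → 1 ≤ Y → H4 A μ Y → H4 A (C3 + μ / 2) Y := by
    intro μ Y hμ hY h4 Z hZ t
    have h1 := st_lg_one hZ
    have h2 := st_br t
    have h3 : (1 : ℝ) ≤ max 1 (Z / Y) := le_max_left _ _
    rcases le_total Z₀ Z with h | h
    · refine (H μ Y Z t hμ hY h4 h).trans ?_
      have : C ≤ C3 := by rw [hC3]; linarith [show 0 ≤ C0 * Z₀ ^ 4 by positivity]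
      gcongr
    · refine (triv Y Z₀ Z t hZ (by linarith) (by nlinarith)).trans ?_
      have : C0 * Z₀ ^ 4 ≤ C3 + μ / 2 := by rw [hC3]; linarith
      gcongr
  have all : ∀ Y : ℝ, 1 ≤ Y → H4 A (2 * C3 + 1) Y := by
    intro Y hY
    have ind : ∀ n : ℕ, H4 A (2 * C3 + C0 * Y ^ 4 / 2 ^ n) Y := by
      intro n
      induction n with
      | zero =>
        refine step_mono (μ := C0 * Y ^ 4) (fun Z hZ t => triv Y Y Z t hZ (by linarith) ?_)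
          (by simp only [pow_zero, div_one]; linarith)
        calc Z = Y * (Z / Y) := by field_simp
          _ ≤ _ := by gcongr; exact le_max_right _ _
      | succ n ih =>
        refine step_mono (step _ Y (by positivity) hY ih) (le_of_eq ?_)
        rw [pow_succ]
        field_simp
        ring
    obtain ⟨n, hn⟩ := pow_unbounded_of_one_lt (C0 * Y ^ 4) (by norm_num : (1 : ℝ) < 2)
    refine step_mono (ind n) ?_
    have : C0 * Y ^ 4 / 2 ^ n ≤ 1 := (div_le_one (by positivity)).2 hn.le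
    linarith
  refine ⟨A, C2 * (2 * C3 + 1), by positivity, fun K hK => ?_⟩
  have h := HM A (2 * C3 + 1) (max 1 K) K (by positivity) (le_max_left _ _) hK
    (all _ (le_max_left _ _))
  have e : max 1 (K / max 1 K) = 1 :=
    max_eq_left ((div_le_one (by positivity)).2 (le_max_right _ _))
  rwa [e, one_pow, mul_one] at h

end Pool.Agent.QM
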