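import Pool.Agent.P.MP_ea46f5_nt.QM.StAux

namespace Pool.Agent.QM

open Complex MeasureTheory Finset
open scoped Real ComplexConjugate

theorem stm_arith {C1 C2 η μ X L G bc bA bB m r R D l M : ℝ} (hC1 : 0 < C1)
    (hη : 0 < η) (hX : 0 ≤ X) (hL : 1 ≤ L) (hG : L ≤ G) (hbc : 0 ≤ bc)
    (hB : 1 ≤ bB) (hA : bB ^ 2 ≤ bA) (hm : 1 ≤ m) (hr0 : 0 ≤ r) (hr : L ^ 3 * r ≤ X)
    (hR : R = L * bB) (hl : l ≤ D) (hD : bc * D ^ 3 ≤ η * R) (hM0 : 0 ≤ M)
    (hM : R ^ 2 * M ≤ C2 * μ * X * (G ^ 10 * m)) :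
    C1 * bc * (l / R) * (X * R ^ 2 * (2 * D) ^ 2 * L ^ 8 / L ^ (2 * 0) + (2 * D) ^ 2 *
      (R ^ 2 * M * bA + L ^ 5 * X * R + L ^ 11 * r * R)) ≤
      (12 * C1 * η + 4 * C1 * C2 * η * μ) * X * G ^ 10 * bA * m := by
  have hL0 : 0 < L := by linarith
  have hG0 : 0 ≤ G := by linarith
  have hbB : 0 < bB := by linarith
  have hB2 : bB ≤ bA := by nlinarith
  have hbA : 0 < bA := by linarith
  have hm0 : 0 ≤ m := by linarith
  have hR0 : 0 < R := by rw [hR]; positivity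
  have hGL : L ^ 10 ≤ G ^ 10 * m := by
    calc L ^ 10 ≤ G ^ 10 := by gcongr
      _ = G ^ 10 * 1 := (mul_one _).symm
      _ ≤ _ := by gcongr
  set Q := G ^ 10 * m with hQ
  have hQ0 : 0 ≤ Q := by positivity
  set S := X * R ^ 2 * L ^ 8 + (R ^ 2 * M * bA + L ^ 5 * X * R + L ^ 11 * r * R) with hS
  have hS0 : 0 ≤ S := by positivity
  have t0 : bc * (l / R) * D ^ 2 ≤ η := by
    calc bc * (l / R) * D ^ 2 ≤ bc * (D / R) * D ^ 2 := by gcongr
      _ = bc * D ^ 3 / R := by ring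
      _ ≤ η := by rwa [div_le_iff₀ hR0]
  have t1 : X * R ^ 2 * L ^ 8 ≤ bA * (X * Q) := by
    calc X * R ^ 2 * L ^ 8 = bB ^ 2 * (X * L ^ 10) := by rw [hR]; ring
      _ ≤ _ := by gcongr
  have t2 : R ^ 2 * M * bA ≤ C2 * μ * (bA * (X * Q)) := by
    calc R ^ 2 * M * bA ≤ C2 * μ * X * Q * bA := by gcongr
      _ = _ := by ring
  have t3 : L ^ 5 * X * R ≤ bA * (X * Q) := by
    have h1 : L ^ 6 ≤ L ^ 10 := pow_le_pow_right₀ hL (by norm_num)
    calc L ^ 5 * X * R = bB * (X * L ^ 6) := by rw [hR]; ring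
      _ ≤ _ := by gcongr; exact h1.trans hGL
  have t4 : L ^ 11 * r * R ≤ bA * (X * Q) := by
    have h1 : L ^ 9 ≤ L ^ 10 := pow_le_pow_right₀ hL (by norm_num)
    calc L ^ 11 * r * R = bB * ((L ^ 3 * r) * L ^ 9) := by rw [hR]; ring
      _ ≤ _ := by gcongr; exact h1.trans hGL
  calc _ = 4 * C1 * (bc * (l / R) * D ^ 2) * S := by
        simp only [mul_zero, pow_zero, div_one, hS]
        ring
    _ ≤ 4 * C1 * η * S := by gcongr
    _ ≤ 4 * C1 * η * (bA * (X * Q) + (C2 * μ * (bA * (X * Q)) + bA * (X * Q) + bA * (X * Q))) := by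
        rw [hS]
        gcongr
    _ = _ := by rw [hQ]; ring

theorem pSTM (hTQF : TQF) (hMT : MT) : STM := by
  obtain ⟨c, R₀, -, H⟩ := hTQF
  obtain ⟨C2, hC2, HM⟩ := hMT
  refine ⟨c + 1, fun A B' δ hcB hBA hδ => ?_⟩
  obtain ⟨C1, hC1, H⟩ := H A
  set η := δ / (4 * C1 * C2) with hη
  have hη0 : 0 < η := by positivity
  obtain ⟨L₀, hL₀⟩ := st_delta B' hη0
  obtain ⟨Z₀, hZ⟩ := st_big (max R₀ L₀)
  refine ⟨12 * C1 * η, Z₀, by positivity, fun μ Y X t hμ hY h4 hX => ?_⟩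
  obtain ⟨h1, hL, ha, h6⟩ := hZ X hX
  set L := Real.log X with hLdef
  have hbr := st_br t
  have hL1 : 1 ≤ L := by linarith
  have hbB : 1 ≤ br t ^ B' := one_le_pow₀ hbr
  set R := L * br t ^ B' with hR
  have hLR : L ≤ R := le_mul_of_one_le_right (by linarith) hbB
  have hR1 : 1 ≤ R := hL1.trans hLR
  have hRE : R ≤ L ^ 3 * br t ^ B' := by
    rw [hR]
    gcongr
    exact le_self_pow₀ hL1 (by norm_num)
  set Δ := Real.log (L ^ 3 * br t ^ B') with hΔ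
  have hΔ0 : 0 ≤ Δ := Real.log_nonneg (hR1.trans hRE)
  have hRΔ : Real.log R ≤ Δ := Real.log_le_log (by linarith) hRE
  have hK0 : 0 < X / R ^ 2 := by positivity
  have hKX : X / R ^ 2 ≤ X := div_le_self (by linarith) (one_le_pow₀ hR1)
  have hε : 0 < 1 / L := by positivity
  have hD := HM A μ Y (X / R ^ 2) hμ hY hK0 h4
  have key := H (phm Δ) X R t (2 * Δ) (2 * Δ) _ 0 h1 hL (((le_max_left _ _).trans ha).trans hLR)
    (by norm_num) (by linarith) (st_far_phm hε hΔ0) (st_near_phm 0 hε hΔ0) hD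
  refine key.trans ?_
  have hm : (1 : ℝ) ≤ max 1 (X / Y) ^ 4 := one_le_pow₀ (le_max_left _ _)
  have hlg := st_lg_nonneg hK0.le
  have hm2 : (0 : ℝ) ≤ max 1 (X / R ^ 2 / Y) := zero_le_one.trans (le_max_left _ _)
  have := stm_arith (C2 := C2) (μ := μ) (X := X) (G := lg X) (bc := br t ^ c) (bA := br t ^ A)
    (bB := br t ^ B') (r := √X) (D := Δ) (l := Real.log R)
    (M := C2 * μ * (X / R ^ 2) * lg (X / R ^ 2) ^ 10 * max 1 (X / R ^ 2 / Y) ^ 4)
    hC1 hη0 (by linarith) hL1 (st_log_le_lg h1) (by positivity) hbB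
    (by rw [← pow_mul, mul_comm]; exact pow_le_pow_right₀ hbr hBA) hm
    (Real.sqrt_nonneg _) (st_sqrt (by linarith) h6) hR hRΔ
    (by
      have h7 := hL₀ L (br t) ((le_max_right _ _).trans ha) hL1 hbr
      calc br t ^ c * Δ ^ 3 ≤ br t ^ c * (η * L * br t) := by gcongr
        _ = η * (L * br t ^ (c + 1)) := by ring
        _ ≤ η * R := by rw [hR]; gcongr)
    (by positivity)
    (by
      have h7 := st_dual_le hK0.le hKX hY
      calc _ = C2 * μ * X * (lg (X / R ^ 2) ^ 10 * max 1 (X / R ^ 2 / Y) ^ 4) := by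
            field_simp
        _ ≤ _ := by gcongr)
  refine this.trans (le_of_eq ?_)
  have e : 4 * C1 * C2 * η = δ := by rw [hη]; field_simp
  rw [e]

end Pool.Agent.QM
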