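import Pool.Agent.P.MP_ea46f5_nt.QM.StAux

namespace Pool.Agent.QM

open Complex MeasureTheory Finset
open scoped Real ComplexConjugate

theorem sts_arith {C1 C2 δ μ X L G bc bA bB m r E e : ℝ} (hC1 : 0 < C1) (hC2 : 0 < C2)
    (_hδ : 0 < δ) (hμ : 0 ≤ μ) (hX : 0 ≤ X) (hL : 1 ≤ L) (hG : L ≤ G) (hbc : 1 ≤ bc)
    (hA : bc ≤ bA) (hB : bc ≤ bB) (hm : 1 ≤ m) (hr0 : 0 ≤ r) (hr : L ^ 3 * r ≤ X)
    (hE : E = L ^ 3 * bB) (he0 : 0 ≤ e) (he : e ≤ 1) (hδL : 4 * C1 * C2 ≤ δ * L) {M : ℝ}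
    (hM : E * M ≤ C2 * μ * X * (G ^ 10 * m) / E) :
    C1 * bc * (X * 1 * (2 * L) ^ 2 * L ^ 8 / L ^ (2 * 0) + 1 * (2 * L) ^ 2 *
      (E * M * bA + L ^ 5 * X * e + L ^ 11 * r)) ≤ (12 * C1 + δ * μ) * X * G ^ 10 * bA * m := by
  have hL0 : 0 < L := by linarith
  have hG0 : 0 ≤ G := by linarith
  have hbA : 0 < bA := by linarith
  have hbB : 0 < bB := by linarith
  have hm0 : 0 ≤ m := by linarith
  have hGL : L ^ 10 ≤ G ^ 10 * m := by
    calc L ^ 10 ≤ G ^ 10 := by gcongr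
      _ = G ^ 10 * 1 := (mul_one _).symm
      _ ≤ _ := by gcongr
  set Q := G ^ 10 * m with hQ
  have hQ0 : 0 ≤ Q := by positivity
  have t1 : bc * (X * L ^ 10) ≤ bA * (X * Q) := by gcongr
  have t2 : 4 * C1 * (bc * (L ^ 2 * (E * M * bA))) ≤ δ * μ * (bA * (X * Q)) := by
    calc 4 * C1 * (bc * (L ^ 2 * (E * M * bA)))
        ≤ 4 * C1 * (bB * (L ^ 2 * (C2 * μ * X * Q / E * bA))) := by
          have h0 : bc * (L ^ 2 * (E * M * bA)) ≤ bc * (L ^ 2 * (C2 * μ * X * Q / E * bA)) := by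
            gcongr
          have h1 : 0 ≤ L ^ 2 * (C2 * μ * X * Q / E * bA) := by rw [hE]; positivity
          have h2 := mul_le_mul_of_nonneg_right hB h1
          have h3 : 0 ≤ 4 * C1 := by positivity
          exact mul_le_mul_of_nonneg_left (h0.trans h2) h3
      _ = (4 * C1 * C2) / L * μ * (bA * (X * Q)) := by rw [hE]; field_simp
      _ ≤ δ * μ * (bA * (X * Q)) := by
          gcongr
          rwa [div_le_iff₀ hL0]
  have t3 : bc * (L ^ 2 * (L ^ 5 * X * e)) ≤ bA * (X * Q) := by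
    have h1 : L ^ 7 ≤ L ^ 10 := pow_le_pow_right₀ hL (by norm_num)
    calc bc * (L ^ 2 * (L ^ 5 * X * e)) = bc * (X * (L ^ 7 * e)) := by ring
      _ ≤ bA * (X * (Q * 1)) := by gcongr; exact h1.trans hGL
      _ = _ := by ring
  have t4 : bc * (L ^ 2 * (L ^ 11 * r)) ≤ bA * (X * Q) := by
    calc bc * (L ^ 2 * (L ^ 11 * r)) = bc * ((L ^ 3 * r) * L ^ 10) := by ring
      _ ≤ _ := by gcongr
  calc _ = 4 * C1 * (bc * (X * L ^ 10)) + 4 * C1 * (bc * (L ^ 2 * (E * M * bA))) +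
        4 * C1 * (bc * (L ^ 2 * (L ^ 5 * X * e))) + 4 * C1 * (bc * (L ^ 2 * (L ^ 11 * r))) := by
        simp only [mul_zero, pow_zero, div_one]
        ring
    _ ≤ 4 * C1 * (bA * (X * Q)) + δ * μ * (bA * (X * Q)) + 4 * C1 * (bA * (X * Q)) +
        4 * C1 * (bA * (X * Q)) := by gcongr
    _ = _ := by rw [hQ]; ring

theorem pSTS (hTQ : TQ) (hMT : MT) (hTW0 : TW0) : STS := by
  obtain ⟨C₀, B, c, -, H⟩ := hTQ
  obtain ⟨C2, hC2, HM⟩ := hMT
  refine ⟨c, fun A B' δ hcB hcA hδ => ?_⟩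
  obtain ⟨C1, hC1, H⟩ := H A
  obtain ⟨Z₀, hZ⟩ := st_big (4 * C1 * C2 / δ)
  refine ⟨12 * C1, Z₀, by positivity, fun μ Y X t hμ hY h4 hX hb => ?_⟩
  obtain ⟨h1, hL, ha, h6⟩ := hZ X hX
  set L := Real.log X with hLdef
  have hbr := st_br t
  have hL1 : 1 ≤ L := by linarith
  have hbB : 1 ≤ br t ^ B' := one_le_pow₀ hbr
  set E := L ^ 3 * br t ^ B' with hE
  have hE1 : 1 ≤ E := one_le_mul_of_one_le_of_one_le (one_le_pow₀ hL1) hbB
  have hEX : E ≤ X := by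
    refine le_of_sq_le_sq ?_ (by linarith)
    calc E ^ 2 = L ^ 6 * br t ^ (2 * B') := by rw [hE]; ring
      _ ≤ X * X := by gcongr
      _ = X ^ 2 := by ring
  set Δ := Real.log E with hΔ
  have hΔ0 : 0 ≤ Δ := Real.log_nonneg hE1
  have hΔL : Δ ≤ L := Real.log_le_log (by linarith) hEX
  have heΔ : Real.exp Δ = E := Real.exp_log (by linarith)
  have hK : X * Real.exp (-2 * Δ) = X / E ^ 2 := by
    rw [← heΔ, ← Real.exp_nat_mul, div_eq_mul_inv, ← Real.exp_neg]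
    congr 2
    push_cast
    ring
  have hK0 : 0 < X / E ^ 2 := by positivity
  have hKX : X / E ^ 2 ≤ X := div_le_self (by linarith) (one_le_pow₀ hE1)
  have hε : 0 < 1 / L := by positivity
  have hV : 2 / (1 / L) = 2 * L := by field_simp
  have hD := HM A μ Y (X / E ^ 2) hμ hY hK0 h4
  have hF := st_far_phs (Δ := Δ) hε
  have hN := st_near_phs (t := t) C₀ hε hΔ0
  rw [hV] at hF hN
  have key := H (phs Δ) ∅ (fun _ => 1) 0 1 1 X Δ t (2 * L) (2 * L) _ 0 (hTW0 B) h1 hL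
    (by linarith) hΔ0 hΔL (by norm_num) (by linarith) hF hN (by rw [hK]; exact hD)
  simp only [one_mul] at key
  refine key.trans ?_
  rw [heΔ]
  have hm : (1 : ℝ) ≤ max 1 (X / Y) ^ 4 := one_le_pow₀ (le_max_left _ _)
  have := sts_arith (μ := μ) (X := X) (G := lg X) (bc := br t ^ c) (bA := br t ^ A) (bB := br t ^ B')
    (r := √X) (e := Real.exp (-Δ / 2)) hC1 hC2 hδ hμ (by linarith) hL1 (st_log_le_lg h1)
    (one_le_pow₀ hbr) (pow_le_pow_right₀ hbr hcA) (pow_le_pow_right₀ hbr hcB) hm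
    (Real.sqrt_nonneg _) (st_sqrt (by linarith) h6) hE (Real.exp_pos _).le
    (by rw [Real.exp_le_one_iff]; linarith)
    (by rw [div_le_iff₀ hδ] at ha; linarith)
    (M := C2 * μ * (X / E ^ 2) * lg (X / E ^ 2) ^ 10 * max 1 (X / E ^ 2 / Y) ^ 4) (by
      have h7 := st_dual_le hK0.le hKX hY
      calc _ = C2 * μ * X * (lg (X / E ^ 2) ^ 10 * max 1 (X / E ^ 2 / Y) ^ 4) / E := by
            field_simp
        _ ≤ _ := by gcongr)
  simpa only [one_mul] using this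

end Pool.Agent.QM
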