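import Pool.Agent.P.MP_ea46f5_nt.QM.S2

namespace Pool.Agent.QM

open Complex MeasureTheory Finset
open scoped Real ComplexConjugate

/-- The entire factor of `Lo 1`. -/
noncomputable def ta1A (z s : ℂ) : ℂ :=
  (1 - (2 : ℂ) ^ (-(1 + (s - z)))) * riemannZeta₁ (1 + (s - z))

/-- The integrand with the double poles removed. -/
noncomputable def ta1G (w : ℂ → ℂ) (P : Finset ℕ) (R : (ℕ → ℤ) → ℝ) (z s₁ s₂ : ℂ) : ℂ :=
  w s₁ * wt w s₂ * (ta1A z s₁ ^ 2 * ta1A z s₂ ^ 2 * IZ3 z s₁ s₂ * Hh P R 1 z s₁ s₂)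

theorem ta1_br (t : ℝ) : 1 ≤ br t := le_add_of_nonneg_right (abs_nonneg t)

theorem ta1_br0 (t : ℝ) : 0 < br t := one_pos.trans_le (ta1_br t)

theorem ta1_eq (hLOP : LOP) (w : ℂ → ℂ) (P : Finset ℕ) (R : (ℕ → ℤ) → ℝ) {z s₁ s₂ : ℂ}
    (h1 : s₁ ≠ z) (h2 : s₂ ≠ z) :
    w s₁ * wt w s₂ * Zc P R 1 z s₁ s₂ = ta1G w P R z s₁ s₂ / ((s₁ - z) ^ 2 * (s₂ - z) ^ 2) := by
  have e : ∀ s : ℂ, s ≠ z → Lo 1 (1 + (s - z)) = ta1A z s / (s - z) := fun s hs => by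
    rw [hLOP.2.2 _ (fun e => hs (sub_eq_zero.1 (add_eq_left.1 e))), add_sub_cancel_left, ta1A]
  have g1 := sub_ne_zero.2 h1
  have g2 := sub_ne_zero.2 h2
  rw [Zc, e _ h1, e _ h2, ta1G]
  field_simp

theorem ta1A_diff (z : ℂ) : Differentiable ℂ (ta1A z) := by
  have h : Differentiable ℂ fun s : ℂ => 1 + (s - z) := by fun_prop
  exact ((differentiable_const _).sub (h.neg.const_cpow (Or.inl two_ne_zero))).mul
    (differentiable_riemannZeta₁.comp h)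

theorem ta1A_le (hZT : ZT) : ∃ C : ℝ, 0 < C ∧ ∀ z s : ℂ, -(1 / 2) ≤ (s - z).re → (s - z).re ≤ 12 →
    ‖ta1A z s‖ ≤ C * br (s - z).im ^ 2 := by
  obtain ⟨C, hC, h⟩ := hZT.2.2
  refine ⟨2 * C, by positivity, fun z s h1 h2 => ?_⟩
  have e : (1 + (s - z)).re = 1 + (s - z).re := by simp
  have h3 := h (1 + (s - z)) (by rw [e]; linarith) (by rw [e]; linarith)
  rw [show (1 + (s - z)).im = (s - z).im by simp] at h3
  have h4 : ‖(2 : ℂ) ^ (-(1 + (s - z)))‖ ≤ 1 := by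
    rw [show (2 : ℂ) = ((2 : ℝ) : ℂ) by simp, norm_cpow_eq_rpow_re_of_pos two_pos]
    exact Real.rpow_le_one_of_one_le_of_nonpos one_le_two (by rw [neg_re, e]; linarith)
  have h5 : ‖1 - (2 : ℂ) ^ (-(1 + (s - z)))‖ ≤ 2 :=
    (norm_sub_le _ _).trans (by rw [norm_one]; linarith)
  rw [ta1A, norm_mul, mul_assoc]
  exact mul_le_mul h5 h3 (norm_nonneg _) two_pos.le

theorem ta1_iz (hIZ : IZ) (hDEC : DEC) : ∃ C : ℝ, 0 < C ∧ ∀ z s₁ s₂ : ℂ,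
    -(1 / 2) ≤ (s₁ - z).re → -(1 / 2) ≤ (s₂ - z).re →
    ‖IZ3 z s₁ s₂‖ ≤ C * (br (s₁ - z).im ^ 20 * br (s₂ - z).im ^ 20) := by
  obtain ⟨C, hC, h⟩ := hIZ.2.1
  have key : ∀ a b : ℂ, -(1 / 2) ≤ a.re → -(1 / 2) ≤ b.re →
      ‖iz (2 + a + b)‖ ≤ C * (br a.im * br b.im) ^ 2 := fun a b ha hb => by
    refine (h _ (by simp only [add_re, re_ofNat]; linarith)).trans ?_
    rw [show (2 + a + b).im = a.im + b.im by simp]
    exact mul_le_mul_of_nonneg_left (pow_le_pow_left₀ (ta1_br0 _).le (hDEC.1 _ _) 2) hC.le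
  refine ⟨C ^ 10, by positivity, fun z s₁ s₂ h1 h2 => ?_⟩
  have k1 := key _ _ h1 h1
  have k2 := key _ _ h1 h2
  have k3 := key _ _ h2 h2
  rw [add_assoc, ← two_mul] at k1 k3
  have b1 := ta1_br0 (s₁ - z).im
  have b2 := ta1_br0 (s₂ - z).im
  rw [IZ3, norm_mul, norm_mul, norm_pow, norm_pow, norm_pow]
  calc _ ≤ (C * (br (s₁ - z).im * br (s₁ - z).im) ^ 2) ^ 3 *
        (C * (br (s₁ - z).im * br (s₂ - z).im) ^ 2) ^ 4 *
        (C * (br (s₂ - z).im * br (s₂ - z).im) ^ 2) ^ 3 := by gcongr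
    _ = _ := by ring

theorem ta1_w (hDEC : DEC) {w : ℂ → ℂ} {ε N t₀ W : ℝ} (y : ℝ) (hε : 0 < ε) (hN : 1 ≤ N)
    (hW : 0 ≤ W) (h : Far w ε N t₀ W) : ∃ C : ℝ, 0 ≤ C ∧ ∀ s ∈ Strip ε 12,
      ‖w s‖ * br (s.im - y) ^ 24 ≤ C / br s.im ^ 2 := by
  obtain ⟨C, hC, h1⟩ := hDEC.2.1 26
  have b0 := ta1_br0 t₀
  have b1 := ta1_br0 (-y)
  have hN0 : 0 < N := one_pos.trans_le hN
  refine ⟨W * N ^ (12 : ℝ) * br (-y) ^ 24 * (C * br t₀ ^ 26), by positivity, fun s hs => ?_⟩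
  have b2 := ta1_br0 s.im
  have b3 := ta1_br0 (s.im - y)
  have h2 := h.2 s (by linarith [hs.1]) (by linarith [hs.2])
  have h3 : N ^ s.re ≤ N ^ (12 : ℝ) := Real.rpow_le_rpow_of_exponent_le hN hs.2
  have h4 : Real.exp (-|s.im - t₀|) ≤ Real.exp (-|s.im - t₀| / 2) :=
    Real.exp_le_exp.2 (by linarith [abs_nonneg (s.im - t₀)])
  have h5 : br (s.im - y) ≤ br s.im * br (-y) := by rw [sub_eq_add_neg]; exact hDEC.1 _ _
  rw [le_div_iff₀ (by positivity)]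
  calc ‖w s‖ * br (s.im - y) ^ 24 * br s.im ^ 2
      ≤ W * N ^ (12 : ℝ) * Real.exp (-|s.im - t₀| / 2) * (br s.im * br (-y)) ^ 24 *
        br s.im ^ 2 := by
        have h6 : ‖w s‖ ≤ W * N ^ (12 : ℝ) * Real.exp (-|s.im - t₀| / 2) :=
          h2.trans (by gcongr)
        gcongr
    _ = W * N ^ (12 : ℝ) * br (-y) ^ 24 * (Real.exp (-|s.im - t₀| / 2) * br s.im ^ 26) := by ring
    _ ≤ _ := mul_le_mul_of_nonneg_left (h1 _ _) (by positivity)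

theorem ta1_re {ε : ℝ} {z s : ℂ} (hε : 0 < ε) (hz : z.re = 1 / 2 + ε) (hs : s ∈ Strip ε 12) :
    -(1 / 2) ≤ (s - z).re ∧ (s - z).re ≤ 12 ∧ 0 < s.re := by
  have h1 := hs.1
  have h2 := hs.2
  rw [sub_re, hz]
  exact ⟨by linarith, by linarith, by linarith⟩

theorem ta1_UU {ε : ℝ} {z s₁ s₂ : ℂ} (hε : 0 < ε) (hε' : ε ≤ 1 / 100) (hz : z.re = 1 / 2 + ε)
    (h1 : s₁ ∈ Strip ε 12) (h2 : s₂ ∈ Strip ε 12) : UU z s₁ s₂ :=
  ⟨by linarith [(ta1_re hε hz h1).1], by linarith [(ta1_re hε hz h2).1], (ta1_re hε hz h1).2.2,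
    (ta1_re hε hz h2).2.2, by linarith, by linarith⟩

theorem ta1_H (hH1 : H1) (hLEN : LEN) {P : Finset ℕ} {B : ℕ} {R : (ℕ → ℤ) → ℝ} {Y ε : ℝ} {z : ℂ}
    (hP : OP P) (hl : HasLen P B R Y) (hε : 0 < ε) (hε' : ε ≤ 1 / 100) (hz : z.re = 1 / 2 + ε) :
    ∃ M : ℝ, 0 ≤ M ∧ ∀ s₁ ∈ Strip ε 12, ∀ s₂ ∈ Strip ε 12, ‖Hh P R 1 z s₁ s₂‖ ≤ M := by
  obtain ⟨C, B', hC, -, h⟩ := hH1
  obtain ⟨Y', hY⟩ := (hLEN.2.1 P B R Y hl).2 B'
  have hY0 := (hLEN.2.1 P B' R Y' hY).1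
  refine ⟨C * Y' * (1 + 1 / ε) ^ 3 * (1 + 1 / ε) ^ 4 * (1 + 1 / ε) ^ 3 * (1 + 1 / ε) ^ 2 *
    (1 + 1 / ε) ^ 2, by positivity, fun s₁ h1 s₂ h2 => ?_⟩
  refine (h P R Y' 1 z s₁ s₂ hP hY (ta1_UU hε hε' hz h1 h2)).trans ?_
  have a1 : ε ≤ s₁.re := h1.1
  have a2 : ε ≤ s₂.re := h2.1
  have a3 : ε ≤ s₁.re + s₂.re := by linarith
  have a4 : ε ≤ z.re + s₁.re := by linarith
  have a5 : ε ≤ z.re + s₂.re := by linarith
  have c1 := hε.trans_le a1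
  have c2 := hε.trans_le a2
  have c3 := hε.trans_le a3
  have c4 := hε.trans_le a4
  have c5 := hε.trans_le a5
  gcongr

theorem ta1_izd (hIZ : IZ) {E : Type} [NormedAddCommGroup E] [NormedSpace ℂ E] {z : ℂ}
    {f g : E → ℂ} {x : E} (hf : DifferentiableAt ℂ f x) (hg : DifferentiableAt ℂ g x)
    (h1 : -(1 / 2) ≤ (f x - z).re) (h2 : -(1 / 2) ≤ (g x - z).re) :
    DifferentiableAt ℂ (fun u => IZ3 z (f u) (g u)) x := by
  have k1 : DifferentiableAt ℂ (fun u => iz (2 + 2 * (f u - z))) x :=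
    (hIZ.1 _ (by rw [two_mul]; simp only [add_re, re_ofNat]; linarith)).comp x
      (f := fun u => 2 + 2 * (f u - z)) (by fun_prop)
  have k2 : DifferentiableAt ℂ (fun u => iz (2 + (f u - z) + (g u - z))) x :=
    (hIZ.1 _ (by simp only [add_re, re_ofNat]; linarith)).comp x
      (f := fun u => 2 + (f u - z) + (g u - z)) (by fun_prop)
  have k3 : DifferentiableAt ℂ (fun u => iz (2 + 2 * (g u - z))) x :=
    (hIZ.1 _ (by rw [two_mul]; simp only [add_re, re_ofNat]; linarith)).comp x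
      (f := fun u => 2 + 2 * (g u - z)) (by fun_prop)
  exact ((k1.pow 3).mul (k2.pow 4)).mul (k3.pow 3)

theorem ta1_nice (hHA : HA) (hIZ : IZ) {w : ℂ → ℂ} {P : Finset ℕ} (R : (ℕ → ℤ) → ℝ) {ε : ℝ} {z : ℂ}
    (hP : OP P) (hε : 0 < ε) (hε' : ε ≤ 1 / 100) (hz : z.re = 1 / 2 + ε)
    (d1 : DifferentiableOn ℂ w {s | 0 < s.re}) (d2 : DifferentiableOn ℂ (wt w) {s | 0 < s.re}) :
    Nice2 ε 12 (ta1G w P R z) := by
  have ho : IsOpen {s : ℂ | 0 < s.re} := isOpen_lt continuous_const continuous_re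
  have e1 : ∀ s ∈ Strip ε 12, DifferentiableAt ℂ w s := fun s hs =>
    d1.differentiableAt (ho.mem_nhds (ta1_re hε hz hs).2.2)
  have e2 : ∀ s ∈ Strip ε 12, DifferentiableAt ℂ (wt w) s := fun s hs =>
    d2.differentiableAt (ho.mem_nhds (ta1_re hε hz hs).2.2)
  have hs : ∀ s ∈ OStrip ε 12, s ∈ Strip ε 12 := fun s hs => ⟨hs.1.le, hs.2.le⟩
  obtain ⟨k1, k2⟩ := hHA P R 1 hP
  refine ⟨?_, fun s h u hu => ?_, fun s h u hu => ?_⟩
  · have c1 : ContinuousOn (fun x : ℂ × ℂ => Hh P R 1 z x.1 x.2) (Strip ε 12 ×ˢ Strip ε 12) :=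
      k1.comp (f := fun x : ℂ × ℂ => (z, x.1, x.2)) (by fun_prop)
        fun x hx => ta1_UU hε hε' hz hx.1 hx.2
    have c2 : ContinuousOn (fun x : ℂ × ℂ => IZ3 z x.1 x.2) (Strip ε 12 ×ˢ Strip ε 12) :=
      fun x hx => (ta1_izd hIZ differentiableAt_fst differentiableAt_snd (ta1_re hε hz hx.1).1
        (ta1_re hε hz hx.2).1).continuousAt.continuousWithinAt
    have c3 : ContinuousOn (fun x : ℂ × ℂ => w x.1) (Strip ε 12 ×ˢ Strip ε 12) := fun x hx =>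
      ((e1 _ hx.1).continuousAt.comp continuousAt_fst).continuousWithinAt
    have c4 : ContinuousOn (fun x : ℂ × ℂ => wt w x.2) (Strip ε 12 ×ˢ Strip ε 12) := fun x hx =>
      ((e2 _ hx.2).continuousAt.comp continuousAt_snd).continuousWithinAt
    have c5 : Continuous fun x : ℂ × ℂ => ta1A z x.1 ^ 2 * ta1A z x.2 ^ 2 :=
      (((ta1A_diff z).continuous.comp continuous_fst).pow 2).mul
        (((ta1A_diff z).continuous.comp continuous_snd).pow 2)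
    exact (c3.mul c4).mul ((c5.continuousOn.mul c2).mul c1)
  · have hu' := hs u hu
    exact (((e1 u hu').mul_const _).mul (((((ta1A_diff z u).pow 2).mul_const _).mul
      (ta1_izd hIZ differentiableAt_id (differentiableAt_const s) (ta1_re hε hz hu').1
        (ta1_re hε hz h).1)).mul (k2 z u s (ta1_UU hε hε' hz hu' h)).1)).differentiableWithinAt
  · have hu' := hs u hu
    exact (((e2 u hu').const_mul _).mul (((((ta1A_diff z u).pow 2).const_mul _).mul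
      (ta1_izd hIZ (differentiableAt_const s) differentiableAt_id (ta1_re hε hz h).1
        (ta1_re hε hz hu').1)).mul (k2 z s u (ta1_UU hε hε' hz h hu')).2.1)).differentiableWithinAt

theorem pTA1 (hSD2 : SD2) (hE2 : E2) (hHA : HA) (hH1 : H1) (hIZ : IZ) (hLOP : LOP) (hZT : ZT) (hFW : FW) (hDEC : DEC) (hLEN : LEN) : TA1 := by
  intro w P B R Y ε N t₀ W z hP hl hε hε' hN hF hz
  have hF' := hFW.1 w ε N t₀ W hF
  obtain ⟨d1, -, hW⟩ := hFW.2.1 w ε N t₀ W hε (by linarith) hF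
  obtain ⟨d2, -, -⟩ := hFW.2.1 (wt w) ε N (-t₀) W hε (by linarith) hF'
  have hW0 := hW (by linarith)
  obtain ⟨C1, p1, q1⟩ := ta1_w hDEC z.im hε hN hW0 hF
  obtain ⟨C2, p2, q2⟩ := ta1_w hDEC z.im hε hN hW0 hF'
  obtain ⟨C3, p3, q3⟩ := ta1A_le hZT
  obtain ⟨C4, p4, q4⟩ := ta1_iz hIZ hDEC
  obtain ⟨M, p5, q5⟩ := ta1_H hH1 hLEN hP hl hε hε' hz
  have hb : ∀ s₁ ∈ Strip ε 12, ∀ s₂ ∈ Strip ε 12, ‖ta1G w P R z s₁ s₂‖ ≤
      C3 ^ 4 * C4 * M * (C1 * C2) / (br s₁.im ^ 2 * br s₂.im ^ 2) := fun s₁ h1 s₂ h2 => by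
    obtain ⟨a1, a2, -⟩ := ta1_re hε hz h1
    obtain ⟨a3, a4, -⟩ := ta1_re hε hz h2
    have r1 := q3 z s₁ a1 a2
    have r2 := q3 z s₂ a3 a4
    have r3 := q4 z s₁ s₂ a1 a3
    have r4 := q5 s₁ h1 s₂ h2
    have r5 := q1 s₁ h1
    have r6 := q2 s₂ h2
    rw [sub_im] at r1 r2 r3
    rw [sub_im] at r3
    have b1 := ta1_br0 (s₁.im - z.im)
    have b2 := ta1_br0 (s₂.im - z.im)
    have b3 := ta1_br0 s₁.im
    have b4 := ta1_br0 s₂.im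
    rw [ta1G, norm_mul, norm_mul, norm_mul, norm_mul, norm_mul, norm_pow, norm_pow]
    calc _ ≤ ‖w s₁‖ * ‖wt w s₂‖ * ((C3 * br (s₁.im - z.im) ^ 2) ^ 2 *
          (C3 * br (s₂.im - z.im) ^ 2) ^ 2 *
          (C4 * (br (s₁.im - z.im) ^ 20 * br (s₂.im - z.im) ^ 20)) * M) := by gcongr
      _ = C3 ^ 4 * C4 * M * ((‖w s₁‖ * br (s₁.im - z.im) ^ 24) *
          (‖wt w s₂‖ * br (s₂.im - z.im) ^ 24)) := by ring
      _ ≤ C3 ^ 4 * C4 * M * (C1 / br s₁.im ^ 2 * (C2 / br s₂.im ^ 2)) := by gcongr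
      _ = _ := by rw [div_mul_div_comm, ← mul_div_assoc]
  have key := hSD2 ε 12 _ (ε / 2) (ta1G w P R z) z (by linarith) (by linarith) (by linarith)
    (ta1_nice hHA hIZ R hP hε hε' hz d1 d2) hb
  have n1 : ∀ t : ℝ, ((12 : ℝ) : ℂ) + t * I ≠ z := fun t e => by
    have := congrArg re e
    simp only [add_re, ofReal_re, mul_re, I_re, I_im, ofReal_im] at this
    linarith
  have n2 : ∀ t : ℝ, (ε : ℂ) + t * I ≠ z := fun t e => by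
    have := congrArg re e
    simp only [add_re, ofReal_re, mul_re, I_re, I_im, ofReal_im] at this
    linarith
  have n3 : ∀ θ : ℝ, z + ((ε / 2 : ℝ) : ℂ) * cexp (θ * I) ≠ z := fun θ e =>
    mul_ne_zero (ofReal_ne_zero.2 (by linarith : ε / 2 ≠ 0)) (exp_ne_zero _) (add_eq_left.1 e)
  have e0 : Jk w P R 1 z =
      I2 12 fun s₁ s₂ => ta1G w P R z s₁ s₂ / ((s₁ - z) ^ 2 * (s₂ - z) ^ 2) := by
    unfold Jk I2
    refine integral_congr_ae (Filter.Eventually.of_forall fun t => ?_)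
    beta_reduce
    rw [hE2 P R 1 z _ _ hP one_ne_zero (by linarith) (by linarith) (by simp) (by simp),
      ta1_eq hLOP w P R (n1 _) (n1 _)]
  rw [e0, key]
  unfold Jc I2 Iv Oc
  simp only [ta1_eq hLOP w P R (n2 _) (n2 _), ta1_eq hLOP w P R (n2 _) (n3 _),
    ta1_eq hLOP w P R (n3 _) (n2 _), ta1_eq hLOP w P R (n3 _) (n3 _)]

end Pool.Agent.QM
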