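import Pool.Agent.P.MP_ea46f5_nt.QM.S2

namespace Pool.Agent.QM

open Complex MeasureTheory Finset
open scoped Real ComplexConjugate

theorem ta2_br1 (t : ℝ) : 1 ≤ br t := by
  unfold br
  linarith [abs_nonneg t]

theorem ta2_brneg (t : ℝ) : br (-t) = br t := by
  unfold br
  rw [abs_neg]

theorem ta2_lo (hLOP : LOP) (hZT : ZT) : ∃ C : ℝ, 0 < C ∧ ∀ a : ℂ, a ≠ 0 → -(1 / 2) ≤ a.re →
    a.re ≤ 1 → ‖Lo 1 (1 + a)‖ ^ 2 ≤ C * (br a.im ^ 4 / ‖a‖ ^ 2) := by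
  obtain ⟨C, hC, h⟩ := hZT.2.2
  refine ⟨(2 * C) ^ 2, by positivity, fun a ha h1 h2 => ?_⟩
  have hre : (1 + a).re = 1 + a.re := by simp
  have him : (1 + a).im = a.im := by simp
  have h3 := h (1 + a) (by rw [hre]; linarith) (by rw [hre]; linarith)
  rw [him] at h3
  have h4 : ‖(1 : ℂ) - (2 : ℂ) ^ (-(1 + a))‖ ≤ 2 := by
    refine (norm_sub_le _ _).trans ?_
    have e : ‖(2 : ℂ) ^ (-(1 + a))‖ = (2 : ℝ) ^ (-(1 + a)).re := by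
      rw [← Complex.norm_cpow_eq_rpow_re_of_pos two_pos]
      norm_num
    have e2 : (2 : ℝ) ^ (-(1 + a)).re ≤ 1 :=
      Real.rpow_le_one_of_one_le_of_nonpos one_le_two (by rw [neg_re, hre]; linarith)
    rw [norm_one, e]
    linarith
  have h5 : ‖Lo 1 (1 + a)‖ ≤ 2 * C * (br a.im ^ 2 / ‖a‖) := by
    rw [hLOP.2.2 (1 + a) (by simpa using ha), add_sub_cancel_left, norm_div, norm_mul,
      ← mul_div_assoc, mul_assoc]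
    gcongr
  calc ‖Lo 1 (1 + a)‖ ^ 2 ≤ (2 * C * (br a.im ^ 2 / ‖a‖)) ^ 2 := by gcongr
    _ = _ := by ring

theorem ta2_iz (hIZ : IZ) (hDEC : DEC) : ∃ C : ℝ, 0 < C ∧ ∀ z s₁ s₂ : ℂ,
    -(1 / 2) ≤ (s₁ - z).re → -(1 / 2) ≤ (s₂ - z).re →
    ‖IZ3 z s₁ s₂‖ ≤ C * (br (s₁ - z).im ^ 20 * br (s₂ - z).im ^ 20) := by
  obtain ⟨C, hC, h⟩ := hIZ.2.1
  refine ⟨C ^ 10, by positivity, fun z s₁ s₂ h1 h2 => ?_⟩
  have key : ∀ a b : ℂ, -(1 / 2) ≤ a.re → -(1 / 2) ≤ b.re →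
      ‖iz (2 + a + b)‖ ≤ C * (br a.im * br b.im) ^ 2 := fun a b ha hb => by
    have hre : (2 + a + b).re = 2 + a.re + b.re := by simp
    have him : (2 + a + b).im = a.im + b.im := by simp
    refine (h _ (by rw [hre]; linarith)).trans ?_
    have := hDEC.1 a.im b.im
    have := ta2_br1 (a.im + b.im)
    rw [him]
    gcongr
  unfold IZ3
  generalize s₁ - z = a at h1 ⊢
  generalize s₂ - z = b at h2 ⊢
  have e1 := key a a h1 h1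
  have e2 := key a b h1 h2
  have e3 := key b b h2 h2
  rw [show 2 + 2 * a = 2 + a + a by ring, show 2 + 2 * b = 2 + b + b by ring, norm_mul, norm_mul,
    norm_pow, norm_pow, norm_pow]
  calc _ ≤ (C * (br a.im * br a.im) ^ 2) ^ 3 * (C * (br a.im * br b.im) ^ 2) ^ 4 *
        (C * (br b.im * br b.im) ^ 2) ^ 3 := by gcongr
    _ = _ := by ring

theorem ta2_zc (hH1 : H1) (hIZ : IZ) (hLOP : LOP) (hZT : ZT) (hDEC : DEC) (hLEN : LEN) :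
    ∃ (C : ℝ) (B : ℕ), 0 < C ∧ 1 ≤ B ∧
    ∀ (P : Finset ℕ) (R : (ℕ → ℤ) → ℝ) (Y : ℝ) (z s₁ s₂ u₁ u₂ : ℂ) (H A₁ A₂ : ℝ), OP P →
      HasLen P B R Y →
      1 / 2 ≤ z.re → z.re ≤ 1 → 0 < s₁.re → 0 < s₂.re → s₁ - z ≠ 0 → s₂ - z ≠ 0 →
      -(1 / 2) ≤ (s₁ - z).re → (s₁ - z).re ≤ 1 → -(1 / 2) ≤ (s₂ - z).re → (s₂ - z).re ≤ 1 →
      (1 + 1 / s₁.re) ^ 3 * (1 + 1 / (s₁.re + s₂.re)) ^ 4 * (1 + 1 / s₂.re) ^ 3 ≤ H →
      ‖u₁‖ * (br (s₁ - z).im ^ 24 / ‖s₁ - z‖ ^ 2) ≤ A₁ →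
      ‖u₂‖ * (br (s₂ - z).im ^ 24 / ‖s₂ - z‖ ^ 2) ≤ A₂ →
      ‖u₁ * u₂ * Zc P R 1 z s₁ s₂‖ ≤ C * Y * H * (A₁ * A₂) := by
  obtain ⟨C1, hC1, h1⟩ := ta2_lo hLOP hZT
  obtain ⟨C2, hC2, h2⟩ := ta2_iz hIZ hDEC
  obtain ⟨C3, B, hC3, hB, h3⟩ := hH1
  refine ⟨C1 * C1 * C2 * (C3 * 81), B, by positivity, hB,
    fun P R Y z s₁ s₂ u₁ u₂ H A₁ A₂ hP hY z1 z2 p1 p2 n1 n2 a1 a2 b1 b2 hH hA₁ hA₂ => ?_⟩
  have hY0 : 0 ≤ Y := (hLEN.2.1 P B R Y hY).1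
  have e1 := h1 _ n1 a1 a2
  have e2 := h1 _ n2 b1 b2
  have e3 := h2 z s₁ s₂ a1 b1
  have e4 := h3 P R Y 1 z s₁ s₂ hP hY
    ⟨by linarith, by linarith, p1, p2, by linarith, by linarith⟩
  have k : ∀ x : ℝ, 0 < x → (1 + 1 / (z.re + x)) ^ 2 ≤ 9 := fun x hx => by
    have h4 : 1 / (z.re + x) ≤ 2 := by
      rw [div_le_iff₀ (by linarith)]
      linarith
    have h5 : 0 < 1 / (z.re + x) := one_div_pos.2 (by linarith)
    calc _ ≤ (1 + 2 : ℝ) ^ 2 := by gcongr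
      _ = 9 := by norm_num
  have hH0 : 0 ≤ H := le_trans (by positivity) hH
  have e5 : ‖Hh P R 1 z s₁ s₂‖ ≤ C3 * 81 * Y * H := by
    refine e4.trans ?_
    calc _ = C3 * Y * ((1 + 1 / s₁.re) ^ 3 * (1 + 1 / (s₁.re + s₂.re)) ^ 4 * (1 + 1 / s₂.re) ^ 3) *
          (1 + 1 / (z.re + s₁.re)) ^ 2 * (1 + 1 / (z.re + s₂.re)) ^ 2 := by ring
      _ ≤ C3 * Y * H * 9 * 9 := by
          have := k _ p1
          have := k _ p2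
          gcongr
      _ = _ := by ring
  have r1 := ta2_br1 (s₁ - z).im
  have r2 := ta2_br1 (s₂ - z).im
  have hA₁0 : 0 ≤ A₁ := le_trans (by positivity) hA₁
  unfold Zc
  simp only [norm_mul, norm_pow]
  calc _ ≤ ‖u₁‖ * ‖u₂‖ * (C1 * (br (s₁ - z).im ^ 4 / ‖s₁ - z‖ ^ 2) *
        (C1 * (br (s₂ - z).im ^ 4 / ‖s₂ - z‖ ^ 2)) *
        (C2 * (br (s₁ - z).im ^ 20 * br (s₂ - z).im ^ 20)) * (C3 * 81 * Y * H)) := by gcongr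
    _ = C1 * C1 * C2 * (C3 * 81) * Y * H * ((‖u₁‖ * (br (s₁ - z).im ^ 24 / ‖s₁ - z‖ ^ 2)) *
        (‖u₂‖ * (br (s₂ - z).im ^ 24 / ‖s₂ - z‖ ^ 2))) := by ring
    _ ≤ _ := by gcongr

theorem ta2_line (hDEC : DEC) : ∃ C : ℝ, 0 < C ∧ ∀ (w : ℂ → ℂ) (ε N t₀ W t : ℝ) (z : ℂ), 0 < ε →
    ε ≤ 1 / 100 → 1 ≤ N → 0 ≤ W → Far w ε N t₀ W → z.re = 1 / 2 + ε →
    ‖w (ε + t * I)‖ * (br ((ε + t * I : ℂ) - z).im ^ 24 / ‖(ε + t * I : ℂ) - z‖ ^ 2) ≤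
      C * W * N ^ ε * br t₀ ^ 24 * br z.im ^ 24 * Real.exp (-|t - t₀| / 2) := by
  obtain ⟨C, hC, h⟩ := hDEC.2.1 24
  refine ⟨4 * C, by positivity, fun w ε N t₀ W t z hε hε1 hN hW hF hz => ?_⟩
  have hre : (ε + t * I : ℂ).re = ε := by simp
  have him : (ε + t * I : ℂ).im = t := by simp
  have e1 := hF.2 (ε + t * I) (by rw [hre]; linarith) (by rw [hre]; linarith)
  rw [hre, him] at e1
  have e2 : br ((ε + t * I : ℂ) - z).im ≤ br t * br z.im := by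
    rw [sub_im, him, sub_eq_add_neg, ← ta2_brneg z.im]
    exact hDEC.1 _ _
  have e3 : 1 / 2 ≤ ‖(ε + t * I : ℂ) - z‖ := by
    refine le_trans ?_ (abs_re_le_norm _)
    rw [sub_re, hre, hz, show ε - (1 / 2 + ε) = -(1 / 2) by ring, abs_neg]
    exact le_abs_self _
  have r1 := ta2_br1 ((ε + t * I : ℂ) - z).im
  have r2 := ta2_br1 t
  have r3 := ta2_br1 z.im
  have e4 : Real.exp (-|t - t₀|) = Real.exp (-|t - t₀| / 2) * Real.exp (-|t - t₀| / 2) := by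
    rw [← Real.exp_add, add_halves]
  have e5 := h t t₀
  calc _ ≤ W * N ^ ε * Real.exp (-|t - t₀|) * ((br t * br z.im) ^ 24 / (1 / 2) ^ 2) := by gcongr
    _ = 4 * W * N ^ ε * (Real.exp (-|t - t₀| / 2) * br t ^ 24) * br z.im ^ 24 *
        Real.exp (-|t - t₀| / 2) := by rw [e4]; ring
    _ ≤ 4 * W * N ^ ε * (C * br t₀ ^ 24) * br z.im ^ 24 * Real.exp (-|t - t₀| / 2) := by gcongr
    _ = _ := by ring

theorem ta2_sph {ε : ℝ} {z s : ℂ} (hs : s ∈ Metric.sphere z (ε / 2)) :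
    ‖s - z‖ = ε / 2 ∧ |(s - z).re| ≤ ε / 2 ∧ |(s - z).im| ≤ ε / 2 := by
  have e : ‖s - z‖ = ε / 2 := mem_sphere_iff_norm.1 hs
  exact ⟨e, e ▸ abs_re_le_norm _, e ▸ abs_im_le_norm _⟩

theorem ta2_circ (w : ℂ → ℂ) (ε N t₀ W : ℝ) (z s : ℂ) (hε : 0 < ε) (hε1 : ε ≤ 1 / 100)
    (hN : 1 ≤ N) (hW : 0 ≤ W) (hF : Far w ε N t₀ W) (hz : z.re = 1 / 2 + ε)
    (hs : s ∈ Metric.sphere z (ε / 2)) :
    ‖w s‖ * (br (s - z).im ^ 24 / ‖s - z‖ ^ 2) ≤ 2 ^ 26 * W * N ^ (1 / 2 + 2 * ε) / ε ^ 2 := by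
  obtain ⟨e, e1, e2⟩ := ta2_sph hs
  rw [sub_re, hz, abs_le] at e1
  have e3 := hF.2 s (by linarith [e1.1]) (by linarith [e1.2])
  have e4 : N ^ s.re ≤ N ^ (1 / 2 + 2 * ε) :=
    Real.rpow_le_rpow_of_exponent_le hN (by linarith [e1.2])
  have e5 : Real.exp (-|s.im - t₀|) ≤ 1 := Real.exp_le_one_iff.2 (by simp)
  have e6 : br (s - z).im ≤ 2 := by
    unfold br
    linarith
  have r1 := ta2_br1 (s - z).im
  have e7 : ‖w s‖ ≤ W * N ^ (1 / 2 + 2 * ε) * 1 := e3.trans (by gcongr)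
  rw [e]
  calc _ ≤ W * N ^ (1 / 2 + 2 * ε) * 1 * (2 ^ 24 / (ε / 2) ^ 2) := by gcongr
    _ = _ := by field_simp

theorem ta2_mix (hDEC : DEC) (hPH2 : PH2) (F : ℂ → ℂ → ℂ) (ε K u : ℝ) (z : ℂ) (hε : 0 < ε)
    (hK : 0 ≤ K) (h : ∀ (t : ℝ), ∀ s ∈ Metric.sphere z (ε / 2),
      ‖F (ε + t * I) s‖ ≤ K * Real.exp (-|t - u| / 2)) :
    ‖Iv ε fun s₁ => Oc z (ε / 2) fun s₂ => F s₁ s₂‖ ≤ 16 * ε * K := by
  obtain ⟨i1, i2⟩ := hDEC.2.2.1 u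
  unfold Iv
  refine (norm_integral_le_of_norm_le (i1.const_mul (4 * ε * K))
    (Filter.Eventually.of_forall fun t => ?_)).trans ?_
  · refine (hPH2.2.1 z (ε / 2) _ _ (half_pos hε) (h t)).trans ?_
    have := Real.pi_le_four
    calc _ = π * ε * K * Real.exp (-|t - u| / 2) := by ring
      _ ≤ _ := by gcongr
  · rw [integral_const_mul]
    calc _ ≤ 4 * ε * K * 4 := by gcongr
      _ = _ := by ring

theorem ta2_two (hDEC : DEC) (F : ℂ → ℂ → ℂ) (ε K u v : ℝ) (hK : 0 ≤ K)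
    (h : ∀ t₁ t₂ : ℝ, ‖F (ε + t₁ * I) (ε + t₂ * I)‖ ≤
      K * (Real.exp (-|t₁ - u| / 2) * Real.exp (-|t₂ - v| / 2))) : ‖I2 ε F‖ ≤ 16 * K := by
  obtain ⟨i1, i2⟩ := hDEC.2.2.1 u
  obtain ⟨j1, j2⟩ := hDEC.2.2.1 v
  unfold I2
  rw [Measure.volume_eq_prod]
  refine (norm_integral_le_of_norm_le ((i1.mul_prod j1).const_mul K)
    (Filter.Eventually.of_forall fun t => h t.1 t.2)).trans ?_
  rw [integral_const_mul, integral_prod_mul (fun t : ℝ => Real.exp (-|t - u| / 2))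
    (fun t : ℝ => Real.exp (-|t - v| / 2))]
  have j3 : 0 ≤ ∫ t : ℝ, Real.exp (-|t - v| / 2) := integral_nonneg fun t => (Real.exp_pos _).le
  calc _ ≤ K * (4 * 4) := by gcongr
    _ = _ := by ring

theorem ta2_h {x ε : ℝ} (hε : 0 < ε) (hε1 : ε ≤ 1) (hx : ε ≤ x) : 1 + 1 / x ≤ 2 / ε := by
  have h1 : 1 / x ≤ 1 / ε := one_div_le_one_div_of_le hε hx
  have h2 : 1 ≤ 1 / ε := by rw [le_div_iff₀ hε]; linarith
  calc _ ≤ 1 / ε + 1 / ε := add_le_add h2 h1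
    _ = _ := by ring

theorem pTA2 (hTA1 : TA1) (hH1 : H1) (hIZ : IZ) (hLOP : LOP) (hZT : ZT) (hFW : FW) (hDEC : DEC) (hPH2 : PH2) (hLEN : LEN) : TA2 := by
  obtain ⟨C1, B, hC1, hB, h1⟩ := ta2_zc hH1 hIZ hLOP hZT hDEC hLEN
  obtain ⟨C2, hC2, h2⟩ := ta2_line hDEC
  refine ⟨C1 * (16 * 2 ^ 10 * C2 ^ 2 + 32 * 2 ^ 17 * 2 ^ 26 * C2), B, 48, by positivity, hB,
    fun w P R Y ε N t₀ W z hP hY hε hε1 hN hF hz => ?_⟩
  have hY0 : 0 ≤ Y := (hLEN.2.1 P B R Y hY).1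
  have hW : 0 ≤ W := (hFW.2.1 w ε N t₀ W hε (by linarith) hF).2.2 (by linarith)
  have hF' := hFW.1 w ε N t₀ W hF
  have hN0 : 0 < N := by linarith
  have hre : ∀ t : ℝ, (ε + t * I : ℂ).re = ε := fun t => by simp
  have hre' : ∀ t : ℝ, ((ε + t * I : ℂ) - z).re = -(1 / 2) := fun t => by
    rw [sub_re, hre, hz]; ring
  have hne : ∀ t : ℝ, (ε + t * I : ℂ) - z ≠ 0 := fun t e => by
    have := hre' t
    rw [e, zero_re] at this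
    norm_num at this
  have hsp : ∀ s ∈ Metric.sphere z (ε / 2), s - z ≠ 0 ∧ -(1 / 2) ≤ (s - z).re ∧ (s - z).re ≤ 1 ∧
      1 / 2 ≤ s.re := fun s hs => by
    obtain ⟨e, e1, -⟩ := ta2_sph hs
    rw [abs_le] at e1
    refine ⟨norm_pos_iff.1 (by rw [e]; exact half_pos hε), by linarith [e1.1], by linarith [e1.2], ?_⟩
    have := e1.1
    rw [sub_re, hz] at this
    linarith
  have l1 := fun t => h2 w ε N t₀ W t z hε hε1 hN hW hF hz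
  have l2 := fun t => h2 (wt w) ε N (-t₀) W t z hε hε1 hN hW hF' hz
  rw [ta2_brneg] at l2
  have r1 := ta2_br1 t₀
  have r2 := ta2_br1 z.im
  have g1 : 1 + 1 / ε ≤ 2 / ε := ta2_h hε (by linarith) le_rfl
  have g2 : 1 + 1 / (ε + ε) ≤ 2 / ε := ta2_h hε (by linarith) (by linarith)
  have g3 : ∀ x : ℝ, 1 / 2 ≤ x → 1 + 1 / x ≤ 4 := fun x hx =>
    (ta2_h (ε := 1 / 2) (by norm_num) (by norm_num) hx).trans (by norm_num)
  obtain ⟨A, hA⟩ : ∃ A, A = C2 * W * N ^ ε * br t₀ ^ 24 * br z.im ^ 24 := ⟨_, rfl⟩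
  obtain ⟨D, hD⟩ : ∃ D, D = 2 ^ 26 * W * N ^ (1 / 2 + 2 * ε) / ε ^ 2 := ⟨_, rfl⟩
  have hA0 : 0 ≤ A := by rw [hA]; positivity
  have hD0 : 0 ≤ D := by rw [hD]; positivity
  rw [← hA] at l1 l2
  have t1 := ta2_two hDEC (fun s₁ s₂ => w s₁ * wt w s₂ * Zc P R 1 z s₁ s₂) ε
    (C1 * Y * (2 / ε) ^ 10 * (A * A)) t₀ (-t₀) (by positivity) fun t₁ t₂ => by
      refine (h1 P R Y z _ _ _ _ ((2 / ε) ^ 10) _ _ hP hY (by linarith) (by linarith)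
        (by rw [hre]; exact hε) (by rw [hre]; exact hε) (hne t₁) (hne t₂) (hre' t₁).ge
        (by rw [hre']; norm_num) (hre' t₂).ge (by rw [hre']; norm_num) ?_ (l1 t₁) (l2 t₂)).trans
        (le_of_eq (by ring))
      rw [hre, hre]
      calc _ ≤ (2 / ε) ^ 3 * (2 / ε) ^ 4 * (2 / ε) ^ 3 := by gcongr
        _ = _ := by ring
  have t2 := ta2_mix hDEC hPH2 (fun s₁ s₂ => w s₁ * wt w s₂ * Zc P R 1 z s₁ s₂) ε
    (C1 * Y * ((2 / ε) ^ 3 * 4 ^ 7) * (A * D)) t₀ z hε (by positivity) fun t s hs => by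
      obtain ⟨q1, q2, q3, q4⟩ := hsp s hs
      refine (h1 P R Y z _ _ _ _ ((2 / ε) ^ 3 * 4 ^ 7) _ D hP hY (by linarith) (by linarith)
        (by rw [hre]; exact hε) (by linarith) (hne t) q1 (hre' t).ge
        (by rw [hre']; norm_num) q2 q3 ?_ (l1 t)
        (hD ▸ ta2_circ (wt w) ε N (-t₀) W z s hε hε1 hN hW hF' hz hs)).trans (le_of_eq (by ring))
      rw [hre]
      have := g3 _ q4
      have := g3 (ε + s.re) (by linarith)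
      have : 0 < s.re := by linarith
      calc _ ≤ (2 / ε) ^ 3 * 4 ^ 4 * 4 ^ 3 := by gcongr
        _ = _ := by ring
  have t3 := ta2_mix hDEC hPH2 (fun s₂ s₁ => w s₁ * wt w s₂ * Zc P R 1 z s₁ s₂) ε
    (C1 * Y * ((2 / ε) ^ 3 * 4 ^ 7) * (A * D)) (-t₀) z hε (by positivity) fun t s hs => by
      obtain ⟨q1, q2, q3, q4⟩ := hsp s hs
      refine (h1 P R Y z _ _ _ _ ((2 / ε) ^ 3 * 4 ^ 7) D _ hP hY (by linarith) (by linarith)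
        (by linarith) (by rw [hre]; exact hε) q1 (hne t) q2 q3 (hre' t).ge
        (by rw [hre']; norm_num) ?_
        (hD ▸ ta2_circ w ε N t₀ W z s hε hε1 hN hW hF hz hs) (l2 t)).trans (le_of_eq (by ring))
      rw [hre]
      have := g3 _ q4
      have := g3 (s.re + ε) (by linarith)
      have : 0 < s.re := by linarith
      calc _ ≤ 4 ^ 3 * 4 ^ 4 * (2 / ε) ^ 3 := by gcongr
        _ = _ := by ring
  rw [hTA1 w P B R Y ε N t₀ W z hP hY hε hε1 hN hF hz, add_sub_cancel_right]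
  refine (norm_add₃_le.trans (add_le_add (add_le_add t1 t2) t3)).trans ?_
  have n1 : N ^ (2 * ε) = N ^ ε * N ^ ε := by rw [← Real.rpow_add hN0, two_mul]
  have n2 : N ^ (1 / 2 + 3 * ε) = N ^ ε * N ^ (1 / 2 + 2 * ε) := by
    rw [← Real.rpow_add hN0]; congr 1; ring
  obtain ⟨G, hG⟩ : ∃ G, G = br t₀ ^ 24 * br z.im ^ 24 := ⟨_, rfl⟩
  have hG1 : 1 ≤ G := hG ▸ one_le_mul_of_one_le_of_one_le (one_le_pow₀ r1) (one_le_pow₀ r2)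
  have hG2 : G ≤ G * G := le_mul_of_one_le_right (by linarith) hG1
  obtain ⟨U, hU⟩ : ∃ U, U = N ^ (2 * ε) / ε ^ 10 := ⟨_, rfl⟩
  obtain ⟨V, hV⟩ : ∃ V, V = N ^ (1 / 2 + 3 * ε) / ε ^ 4 := ⟨_, rfl⟩
  have hU0 : 0 ≤ U := by rw [hU]; positivity
  have hV0 : 0 ≤ V := by rw [hV]; positivity
  have m1 : 16 * (C1 * Y * (2 / ε) ^ 10 * (A * A)) =
      C1 * Y * W ^ 2 * (16 * 2 ^ 10 * C2 ^ 2 * (G * G) * U) := by
    rw [hA, hG, hU, n1]; ring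
  have m2 : 16 * ε * (C1 * Y * ((2 / ε) ^ 3 * 4 ^ 7) * (A * D)) =
      C1 * Y * W ^ 2 * (16 * 2 ^ 17 * 2 ^ 26 * C2 * G * V) := by
    rw [hA, hD, hG, hV, n2]; field_simp; ring
  rw [m1, m2, ← hU, ← hV]
  calc _ = C1 * Y * W ^ 2 * (16 * 2 ^ 10 * C2 ^ 2 * (G * G) * U +
        32 * 2 ^ 17 * 2 ^ 26 * C2 * G * V) := by ring
    _ ≤ C1 * Y * W ^ 2 * (16 * 2 ^ 10 * C2 ^ 2 * (G * G) * (U + V) +
        32 * 2 ^ 17 * 2 ^ 26 * C2 * (G * G) * (U + V)) := by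
      gcongr
      · linarith
      · linarith
    _ = _ := by rw [hG]; ring

end Pool.Agent.QM
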