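import Pool.Agent.P.MP_ea46f5_nt.QM.S2

namespace Pool.Agent.QM

open Complex MeasureTheory Finset
open scoped Real ComplexConjugate

theorem tk1_br1 (t : ℝ) : 1 ≤ br t := by
  unfold br; linarith [abs_nonneg t]

theorem tk1_br0 (t : ℝ) : 0 < br t := lt_of_lt_of_le one_pos (tk1_br1 t)

theorem tk1_brneg (t : ℝ) : br (-t) = br t := by
  unfold br; rw [abs_neg]

theorem tk1_brsub (hb : ∀ t u : ℝ, br (t + u) ≤ br t * br u) (t y : ℝ) :
    br (t - y) ≤ br t * br y := by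
  have := hb t (-y)
  rwa [tk1_brneg, ← sub_eq_add_neg] at this

theorem tk1_Y0 {P : Finset ℕ} {B : ℕ} {R : (ℕ → ℤ) → ℝ} {Y : ℝ} (h : HasLen P B R Y) : 0 ≤ Y := by
  obtain ⟨ι, _, l, r, -, -, h3⟩ := h
  exact le_trans (Finset.sum_nonneg fun i _ => by positivity) h3

theorem tk1_inv {x : ℝ} (hx : 1 / 4 ≤ x) : 0 ≤ 1 + 1 / x ∧ 1 + 1 / x ≤ 5 := by
  have h0 : 0 < x := by linarith
  refine ⟨by positivity, ?_⟩
  have : 1 / x ≤ 4 := by rw [div_le_iff₀ h0]; linarith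
  linarith

theorem tk1_iz3 {C : ℝ} (hC : 0 < C) (hiz : ∀ s : ℂ, 1 ≤ s.re → ‖iz s‖ ≤ C * br s.im ^ 2)
    (hb : ∀ t u : ℝ, br (t + u) ≤ br t * br u) (z s₁ s₂ : ℂ)
    (h₁ : z.re - 1 / 2 ≤ s₁.re) (h₂ : z.re - 1 / 2 ≤ s₂.re) :
    ‖IZ3 z s₁ s₂‖ ≤ C ^ 10 * br (s₁.im - z.im) ^ 20 * br (s₂.im - z.im) ^ 20 := by
  have key : ∀ (u : ℂ) (x y : ℝ), 1 ≤ u.re → u.im = x + y → ‖iz u‖ ≤ C * (br x * br y) ^ 2 := by
    intro u x y hu he
    refine (hiz u hu).trans ?_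
    rw [he]
    exact mul_le_mul_of_nonneg_left (pow_le_pow_left₀ (tk1_br0 _).le (hb x y) 2) hC.le
  have a1 := key (2 + 2 * (s₁ - z)) (s₁.im - z.im) (s₁.im - z.im) (by simp; linarith)
    (by simp; ring)
  have a2 := key (2 + (s₁ - z) + (s₂ - z)) (s₁.im - z.im) (s₂.im - z.im) (by simp; linarith)
    (by simp)
  have a3 := key (2 + 2 * (s₂ - z)) (s₂.im - z.im) (s₂.im - z.im) (by simp; linarith)
    (by simp; ring)
  unfold IZ3
  rw [norm_mul, norm_mul, norm_pow, norm_pow, norm_pow]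
  generalize br (s₁.im - z.im) = p at *
  generalize br (s₂.im - z.im) = q at *
  calc _ ≤ (C * (p * p) ^ 2) ^ 3 * (C * (p * q) ^ 2) ^ 4 * (C * (q * q) ^ 2) ^ 3 := by
        gcongr
    _ = _ := by ring

theorem tk1_uu {z s₁ s₂ : ℂ} (hz : 3 / 4 ≤ z.re) (hz' : z.re ≤ 6)
    (h₁ : z.re - 1 / 2 ≤ s₁.re) (h₂ : z.re - 1 / 2 ≤ s₂.re) : UU z s₁ s₂ := by
  refine ⟨?_, ?_, ?_, ?_, ?_, ?_⟩ <;> (try simp only [Complex.sub_re]) <;> linarith

theorem tk1_nice (hHA : HA) (hIZ : IZ) (w v : ℂ → ℂ) (P : Finset ℕ) (R : (ℕ → ℤ) → ℝ) (k : ℤ)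
    (z : ℂ) (hP : OP P) (hw : DifferentiableOn ℂ w {s | 0 < s.re})
    (hv : DifferentiableOn ℂ v {s | 0 < s.re}) (hL : Differentiable ℂ (Lo k))
    (hz : 3 / 4 ≤ z.re) (hz' : z.re ≤ 6) :
    Nice2 (z.re - 1 / 2) 12 fun s₁ s₂ => w s₁ * v s₂ * Zc P R k z s₁ s₂ := by
  have hop : IsOpen {s : ℂ | 0 < s.re} := isOpen_lt continuous_const Complex.continuous_re
  have dw : ∀ s : ℂ, z.re - 1 / 2 ≤ s.re → DifferentiableAt ℂ w s := fun s hs =>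
    hw.differentiableAt (hop.mem_nhds (by show 0 < s.re; linarith))
  have dv : ∀ s : ℂ, z.re - 1 / 2 ≤ s.re → DifferentiableAt ℂ v s := fun s hs =>
    hv.differentiableAt (hop.mem_nhds (by show 0 < s.re; linarith))
  have r1 : ∀ s : ℂ, z.re - 1 / 2 ≤ s.re → 1 ≤ (2 + 2 * (s - z)).re := fun s hs => by
    simp; linarith
  have r2 : ∀ s u : ℂ, z.re - 1 / 2 ≤ s.re → z.re - 1 / 2 ≤ u.re →
      1 ≤ (2 + (s - z) + (u - z)).re := fun s u hs hu => by simp; linarith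
  obtain ⟨hc, hd⟩ := hHA P R k hP
  unfold Nice2 Zc IZ3
  refine ⟨?_, ?_, ?_⟩
  · have cH : ContinuousOn (fun x : ℂ × ℂ => Hh P R k z x.1 x.2)
        (Strip (z.re - 1 / 2) 12 ×ˢ Strip (z.re - 1 / 2) 12) := by
      have hm : Continuous fun x : ℂ × ℂ => ((z, x.1, x.2) : ℂ × ℂ × ℂ) := by fun_prop
      have := ContinuousOn.comp (g := fun x : ℂ × ℂ × ℂ => Hh P R k x.1 x.2.1 x.2.2)
        (f := fun x : ℂ × ℂ => ((z, x.1, x.2) : ℂ × ℂ × ℂ))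
        (s := Strip (z.re - 1 / 2) 12 ×ˢ Strip (z.re - 1 / 2) 12) hc hm.continuousOn
        fun x hx => tk1_uu hz hz' hx.1.1 hx.2.1
      simpa only [Function.comp_def] using this
    intro x hx
    have c1 : ContinuousAt (fun x : ℂ × ℂ => w x.1) x :=
      (dw x.1 hx.1.1).continuousAt.comp continuousAt_fst
    have c2 : ContinuousAt (fun x : ℂ × ℂ => v x.2) x :=
      (dv x.2 hx.2.1).continuousAt.comp continuousAt_snd
    have c3 : ContinuousAt (fun x : ℂ × ℂ => Lo k (1 + (x.1 - z))) x :=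
      (hL.continuous.comp (by fun_prop)).continuousAt
    have c4 : ContinuousAt (fun x : ℂ × ℂ => Lo k (1 + (x.2 - z))) x :=
      (hL.continuous.comp (by fun_prop)).continuousAt
    have c5 : ContinuousAt (fun x : ℂ × ℂ => iz (2 + 2 * (x.1 - z))) x :=
      ContinuousAt.comp (f := fun x : ℂ × ℂ => 2 + 2 * (x.1 - z))
        (hIZ.1 _ (r1 _ hx.1.1)).continuousAt (by fun_prop)
    have c6 : ContinuousAt (fun x : ℂ × ℂ => iz (2 + (x.1 - z) + (x.2 - z))) x :=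
      ContinuousAt.comp (f := fun x : ℂ × ℂ => 2 + (x.1 - z) + (x.2 - z))
        (hIZ.1 _ (r2 _ _ hx.1.1 hx.2.1)).continuousAt (by fun_prop)
    have c7 : ContinuousAt (fun x : ℂ × ℂ => iz (2 + 2 * (x.2 - z))) x :=
      ContinuousAt.comp (f := fun x : ℂ × ℂ => 2 + 2 * (x.2 - z))
        (hIZ.1 _ (r1 _ hx.2.1)).continuousAt (by fun_prop)
    exact (c1.mul c2).continuousWithinAt.mul
      ((((c3.pow 2).mul (c4.pow 2)).mul
        (((c5.pow 3).mul (c6.pow 4)).mul (c7.pow 3))).continuousWithinAt.mul (cH x hx))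
  · intro s hs u hu
    have hu' : z.re - 1 / 2 ≤ u.re := hu.1.le
    have c3 : DifferentiableAt ℂ (fun u : ℂ => Lo k (1 + (u - z))) u :=
      DifferentiableAt.comp (f := fun u : ℂ => 1 + (u - z)) u (hL _) (by fun_prop)
    have c5 : DifferentiableAt ℂ (fun u : ℂ => iz (2 + 2 * (u - z))) u :=
      DifferentiableAt.comp (f := fun u : ℂ => 2 + 2 * (u - z)) u (hIZ.1 _ (r1 _ hu'))
        (by fun_prop)
    have c6 : DifferentiableAt ℂ (fun u : ℂ => iz (2 + (u - z) + (s - z))) u :=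
      DifferentiableAt.comp (f := fun u : ℂ => 2 + (u - z) + (s - z)) u
        (hIZ.1 _ (r2 _ _ hu' hs.1)) (by fun_prop)
    exact (((dw u hu').mul_const _).mul (((((c3.pow 2).mul_const _).mul
      (((c5.pow 3).mul (c6.pow 4)).mul_const _))).mul
        (hd z u s (tk1_uu hz hz' hu' hs.1)).1)).differentiableWithinAt
  · intro s hs u hu
    have hu' : z.re - 1 / 2 ≤ u.re := hu.1.le
    have c3 : DifferentiableAt ℂ (fun u : ℂ => Lo k (1 + (u - z))) u :=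
      DifferentiableAt.comp (f := fun u : ℂ => 1 + (u - z)) u (hL _) (by fun_prop)
    have c5 : DifferentiableAt ℂ (fun u : ℂ => iz (2 + 2 * (u - z))) u :=
      DifferentiableAt.comp (f := fun u : ℂ => 2 + 2 * (u - z)) u (hIZ.1 _ (r1 _ hu'))
        (by fun_prop)
    have c6 : DifferentiableAt ℂ (fun u : ℂ => iz (2 + (s - z) + (u - z))) u :=
      DifferentiableAt.comp (f := fun u : ℂ => 2 + (s - z) + (u - z)) u
        (hIZ.1 _ (r2 _ _ hs.1 hu')) (by fun_prop)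
    exact (((dv u hu').const_mul _).mul (((((c3.pow 2).const_mul _).mul
      (((c6.pow 4).const_mul _).mul (c5.pow 3)))).mul
        (hd z s u (tk1_uu hz hz' hs.1 hu')).2.1)).differentiableWithinAt

/-- One factor of the majorant. -/
noncomputable def tk1_f (k : ℤ) (z : ℂ) (N u : ℝ) (s : ℂ) : ℝ :=
  N ^ s.re * Real.exp (-|s.im - u|) * br (s.im - z.im) ^ 20 * ‖Lo k (1 + (s - z))‖ ^ 2

theorem tk1_G {w v : ℂ → ℂ} {P : Finset ℕ} {R : (ℕ → ℤ) → ℝ} {k : ℤ} {z s₁ s₂ : ℂ}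
    {W N u₁ u₂ Ci H : ℝ} (hW : 0 ≤ W) (hN : 0 < N) (hCi : 0 < Ci)
    (hw : ‖w s₁‖ ≤ W * N ^ s₁.re * Real.exp (-|s₁.im - u₁|))
    (hv : ‖v s₂‖ ≤ W * N ^ s₂.re * Real.exp (-|s₂.im - u₂|))
    (hi : ‖IZ3 z s₁ s₂‖ ≤ Ci ^ 10 * br (s₁.im - z.im) ^ 20 * br (s₂.im - z.im) ^ 20)
    (hH : ‖Hh P R k z s₁ s₂‖ ≤ H) :
    ‖w s₁ * v s₂ * Zc P R k z s₁ s₂‖ ≤
      W ^ 2 * Ci ^ 10 * H * (tk1_f k z N u₁ s₁ * tk1_f k z N u₂ s₂) := by
  unfold Zc tk1_f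
  simp only [norm_mul, norm_pow]
  have b1 := tk1_br0 (s₁.im - z.im)
  have b2 := tk1_br0 (s₂.im - z.im)
  calc _ ≤ (W * N ^ s₁.re * Real.exp (-|s₁.im - u₁|)) * (W * N ^ s₂.re * Real.exp (-|s₂.im - u₂|)) *
        (‖Lo k (1 + (s₁ - z))‖ ^ 2 * ‖Lo k (1 + (s₂ - z))‖ ^ 2 *
          (Ci ^ 10 * br (s₁.im - z.im) ^ 20 * br (s₂.im - z.im) ^ 20) * H) := by
        gcongr
    _ = _ := by ring

theorem tk1_exp (x : ℝ) : Real.exp (-|x|) = Real.exp (-|x| / 2) * Real.exp (-|x| / 2) := by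
  rw [← Real.exp_add]; congr 1; ring

theorem tk1_exp1 (x : ℝ) : Real.exp (-|x| / 2) ≤ 1 :=
  Real.exp_le_one_iff.2 (by linarith [abs_nonneg x])

theorem tk1_lo (hLOB : LOB) {k : ℤ} (hk : Squarefree k) (hk1 : k ≠ 1) {s : ℂ}
    (h1 : 1 / 2 ≤ s.re) (h2 : s.re ≤ 13) : ‖Lo k s‖ ≤ 104 * |(k : ℝ)| * br s.im := by
  refine (hLOB k s hk hk1 (by linarith)).trans ?_
  rw [div_le_iff₀ (by linarith)]
  have hn : ‖s‖ ≤ 13 * br s.im := by
    have := Complex.norm_le_abs_re_add_abs_im s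
    rw [abs_of_nonneg (by linarith : 0 ≤ s.re)] at this
    unfold br; linarith [abs_nonneg s.im]
  have hk0 : 0 ≤ |(k : ℝ)| := abs_nonneg _
  have hb := tk1_br0 s.im
  calc 4 * |(k : ℝ)| * ‖s‖ ≤ 4 * |(k : ℝ)| * (13 * br s.im) := by gcongr
    _ = 104 * |(k : ℝ)| * br s.im * (1 / 2) := by ring
    _ ≤ _ := by gcongr

/-- Decay of one factor in the strip. -/
theorem tk1_dec (hLOB : LOB) (hDEC : DEC) {k : ℤ} (hk : Squarefree k) (hk1 : k ≠ 1) (z : ℂ)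
    (N u : ℝ) (hN : 1 ≤ N) (hz : 3 / 4 ≤ z.re) :
    ∃ M : ℝ, 0 ≤ M ∧ ∀ s ∈ Strip (z.re - 1 / 2) 12, tk1_f k z N u s ≤ M / br s.im ^ 2 := by
  obtain ⟨C, hC, h24⟩ := hDEC.2.1 24
  have hby := tk1_br0 z.im
  have hbu := tk1_br0 u
  refine ⟨N ^ (12 : ℝ) * (104 * |(k : ℝ)|) ^ 2 * br z.im ^ 22 * (C * br u ^ 24), by positivity,
    fun s hs => ?_⟩
  have hb := tk1_br0 s.im
  rw [le_div_iff₀ (by positivity)]
  have h1 : N ^ s.re ≤ N ^ (12 : ℝ) := Real.rpow_le_rpow_of_exponent_le hN hs.2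
  have h2 : Real.exp (-|s.im - u|) ≤ Real.exp (-|s.im - u| / 2) :=
    Real.exp_le_exp.2 (by linarith [abs_nonneg (s.im - u)])
  have h3 := tk1_brsub hDEC.1 s.im z.im
  have h4 : ‖Lo k (1 + (s - z))‖ ≤ 104 * |(k : ℝ)| * (br s.im * br z.im) := by
    have := tk1_lo hLOB hk hk1 (s := 1 + (s - z)) (by have := hs.1; simp; linarith)
      (by have := hs.2; simp; linarith)
    refine this.trans ?_
    have e : (1 + (s - z)).im = s.im - z.im := by simp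
    rw [e]; gcongr
  have hb' := tk1_br0 (s.im - z.im)
  unfold tk1_f
  calc _ ≤ N ^ (12 : ℝ) * Real.exp (-|s.im - u| / 2) * (br s.im * br z.im) ^ 20 *
        (104 * |(k : ℝ)| * (br s.im * br z.im)) ^ 2 * br s.im ^ 2 := by gcongr
    _ = N ^ (12 : ℝ) * (104 * |(k : ℝ)|) ^ 2 * br z.im ^ 22 *
        (Real.exp (-|s.im - u| / 2) * br s.im ^ 24) := by ring
    _ ≤ _ := mul_le_mul_of_nonneg_left (h24 _ _) (by positivity)

/-- The integrand of `Lw` is integrable. -/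
theorem tk1_int (hLOB : LOB) (hDEC : DEC) {k : ℤ} (hk : Squarefree k) (hk1 : k ≠ 1)
    (hL : Differentiable ℂ (Lo k)) (u : ℝ) :
    Integrable fun τ : ℝ => Real.exp (-|τ - u| / 2) * ‖Lo k (1 / 2 + τ * I)‖ ^ 4 := by
  obtain ⟨C, hC, h6⟩ := hDEC.2.1 6
  have hc : Continuous fun τ : ℝ => Real.exp (-|τ - u| / 2) * ‖Lo k (1 / 2 + τ * I)‖ ^ 4 := by
    have : Continuous fun τ : ℝ => Lo k (1 / 2 + τ * I) := hL.continuous.comp (by fun_prop)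
    fun_prop
  refine (hDEC.2.2.2.1.1.const_mul ((104 * |(k : ℝ)|) ^ 4 * (C * br u ^ 6))).mono'
    hc.aestronglyMeasurable (Filter.Eventually.of_forall fun τ => ?_)
  rw [Real.norm_of_nonneg (by positivity)]
  have hb := tk1_br0 τ
  have h4 : ‖Lo k (1 / 2 + τ * I)‖ ≤ 104 * |(k : ℝ)| * br τ := by
    have := tk1_lo hLOB hk hk1 (s := 1 / 2 + τ * I) (by simp) (by simp; norm_num)
    simpa using this
  rw [mul_one_div, le_div_iff₀ (by positivity)]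
  calc _ ≤ Real.exp (-|τ - u| / 2) * (104 * |(k : ℝ)| * br τ) ^ 4 * br τ ^ 2 := by gcongr
    _ = (104 * |(k : ℝ)|) ^ 4 * (Real.exp (-|τ - u| / 2) * br τ ^ 6) := by ring
    _ ≤ _ := mul_le_mul_of_nonneg_left (h6 _ _) (by positivity)

/-- One factor on the left line. -/
theorem tk1_line (hb : ∀ t u : ℝ, br (t + u) ≤ br t * br u) {C : ℝ}
    (h20 : ∀ t u : ℝ, Real.exp (-|t - u| / 2) * br t ^ 20 ≤ C * br u ^ 20) (k : ℤ) (z : ℂ)
    (N u t : ℝ) (hN : 0 < N) :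
    tk1_f k z N u (((z.re - 1 / 2 : ℝ) : ℂ) + t * I) ≤
      N ^ (z.re - 1 / 2) * (C * br u ^ 20 * br z.im ^ 20) *
        (Real.exp (-|t - u| / 2) * ‖Lo k (1 / 2 + ((t - z.im : ℝ) : ℂ) * I)‖ ^ 2) := by
  have e1 : (((z.re - 1 / 2 : ℝ) : ℂ) + t * I).re = z.re - 1 / 2 := by simp
  have e2 : (((z.re - 1 / 2 : ℝ) : ℂ) + t * I).im = t := by simp
  have e3 : 1 + ((((z.re - 1 / 2 : ℝ) : ℂ) + t * I) - z) = 1 / 2 + ((t - z.im : ℝ) : ℂ) * I := by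
    apply Complex.ext <;> simp <;> ring
  unfold tk1_f
  rw [e1, e2, e3, tk1_exp]
  have h3 := tk1_brsub hb t z.im
  have hb' := tk1_br0 (t - z.im)
  have hby := tk1_br0 z.im
  generalize ‖Lo k (1 / 2 + ((t - z.im : ℝ) : ℂ) * I)‖ = L
  calc _ ≤ N ^ (z.re - 1 / 2) * (Real.exp (-|t - u| / 2) * Real.exp (-|t - u| / 2)) *
        (br t * br z.im) ^ 20 * L ^ 2 := by gcongr
    _ = N ^ (z.re - 1 / 2) * ((Real.exp (-|t - u| / 2) * br t ^ 20) * br z.im ^ 20) *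
        (Real.exp (-|t - u| / 2) * L ^ 2) := by ring
    _ ≤ _ := mul_le_mul_of_nonneg_right (mul_le_mul_of_nonneg_left
        (mul_le_mul_of_nonneg_right (h20 _ _) (by positivity)) (by positivity)) (by positivity)

theorem pTK1 (hSD0 : SD0) (hE2 : E2) (hHA : HA) (hH1 : H1) (hIZ : IZ) (hLOP : LOP) (hLOB : LOB) (hFW : FW) (hDEC : DEC) : TK1 := by
  obtain ⟨CH, B, hCH, hB, hH⟩ := hH1
  obtain ⟨Ci, hCi, hiz⟩ := hIZ.2.1
  obtain ⟨C, hC, h20⟩ := hDEC.2.1 20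
  refine ⟨2 * Ci ^ 10 * (CH * 5 ^ 14) * C ^ 2, B, 40, by positivity, hB, ?_⟩
  intro w P R Y ε N t₀ W k z hP hlen hε hε' hN hfar hk hk1 hz hz'
  have hN0 : 0 < N := by linarith
  have hY := tk1_Y0 hlen
  have hfar' := hFW.1 w ε N t₀ W hfar
  obtain ⟨dw, -, hW⟩ := hFW.2.1 w ε N t₀ W hε (by linarith) hfar
  obtain ⟨dv, -, -⟩ := hFW.2.1 (wt w) ε N (-t₀) W hε (by linarith) hfar'
  have hW0 := hW hN0
  have hL := hLOP.2.1 k hk hk1
  have hG : ∀ s₁ ∈ Strip (z.re - 1 / 2) 12, ∀ s₂ ∈ Strip (z.re - 1 / 2) 12,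
      ‖w s₁ * wt w s₂ * Zc P R k z s₁ s₂‖ ≤ W ^ 2 * Ci ^ 10 * (CH * Y * 5 ^ 14) *
        (tk1_f k z N t₀ s₁ * tk1_f k z N (-t₀) s₂) := by
    intro s₁ h₁ s₂ h₂
    have p1 := h₁.1
    have p2 := h₂.1
    refine tk1_G hW0 hN0 hCi (hfar.2 s₁ (by linarith) (by linarith [h₁.2]))
      (hfar'.2 s₂ (by linarith) (by linarith [h₂.2])) (tk1_iz3 hCi hiz hDEC.1 z s₁ s₂ p1 p2) ?_
    refine (hH P R Y k z s₁ s₂ hP hlen (tk1_uu hz hz' p1 p2)).trans ?_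
    obtain ⟨a1, b1⟩ := tk1_inv (x := s₁.re) (by linarith)
    obtain ⟨a2, b2⟩ := tk1_inv (x := s₁.re + s₂.re) (by linarith)
    obtain ⟨a3, b3⟩ := tk1_inv (x := s₂.re) (by linarith)
    obtain ⟨a4, b4⟩ := tk1_inv (x := z.re + s₁.re) (by linarith)
    obtain ⟨a5, b5⟩ := tk1_inv (x := z.re + s₂.re) (by linarith)
    calc _ ≤ CH * Y * 5 ^ 3 * 5 ^ 4 * 5 ^ 3 * 5 ^ 2 * 5 ^ 2 := by gcongr
      _ = _ := by ring
  have e1 : Jk w P R k z = I2 12 fun s₁ s₂ => w s₁ * wt w s₂ * Zc P R k z s₁ s₂ := by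
    unfold Jk I2
    refine integral_congr_ae (Filter.Eventually.of_forall fun t => ?_)
    simp only
    rw [hE2 P R k z _ _ hP hk.ne_zero (by linarith) hz' (by simp) (by simp)]
  obtain ⟨M₁, hM₁, d₁⟩ := tk1_dec hLOB hDEC hk hk1 z N t₀ hN hz
  obtain ⟨M₂, hM₂, d₂⟩ := tk1_dec hLOB hDEC hk hk1 z N (-t₀) hN hz
  have f0 : ∀ u s, 0 ≤ tk1_f k z N u s := fun u s => by
    unfold tk1_f
    have := tk1_br0 (s.im - z.im)
    positivity
  have e2 := hSD0 (z.re - 1 / 2) 12 (W ^ 2 * Ci ^ 10 * (CH * Y * 5 ^ 14) * (M₁ * M₂)) _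
    (by linarith) (tk1_nice hHA hIZ w (wt w) P R k z hP dw dv hL hz hz') (by
      intro s₁ h₁ s₂ h₂
      refine (hG s₁ h₁ s₂ h₂).trans ?_
      have b1 := tk1_br0 s₁.im
      have b2 := tk1_br0 s₂.im
      calc _ ≤ W ^ 2 * Ci ^ 10 * (CH * Y * 5 ^ 14) * (M₁ / br s₁.im ^ 2 * (M₂ / br s₂.im ^ 2)) := by
            gcongr
            · exact f0 _ _
            · exact d₁ s₁ h₁
            · exact d₂ s₂ h₂
        _ = _ := by field_simp)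
  rw [e1, e2]
  set L : ℝ → ℝ := fun t => ‖Lo k (1 / 2 + ((t - z.im : ℝ) : ℂ) * I)‖ with hLd
  have iL : ∀ u : ℝ, Integrable (fun t : ℝ => Real.exp (-|t - u| / 2) * L t ^ 4) ∧
      ∫ t : ℝ, Real.exp (-|t - u| / 2) * L t ^ 4 = Lw k (u - z.im) := by
    intro u
    have e : (fun t : ℝ => Real.exp (-|t - u| / 2) * L t ^ 4) = fun t : ℝ =>
        (fun τ : ℝ => Real.exp (-|τ - (u - z.im)| / 2) * ‖Lo k (1 / 2 + τ * I)‖ ^ 4)
          (t - z.im) := by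
      funext t
      simp only [hLd, sub_sub_sub_cancel_right]
    rw [e]
    exact ⟨(tk1_int hLOB hDEC hk hk1 hL (u - z.im)).comp_sub_right z.im,
      integral_sub_right_eq_self
        (fun τ : ℝ => Real.exp (-|τ - (u - z.im)| / 2) * ‖Lo k (1 / 2 + τ * I)‖ ^ 4) z.im⟩
  have hbt := tk1_br0 t₀
  have hby := tk1_br0 z.im
  set D : ℝ := N ^ (z.re - 1 / 2) * (C * br t₀ ^ 20 * br z.im ^ 20) with hD
  have hD0 : 0 ≤ D := by positivity
  set K : ℝ := W ^ 2 * Ci ^ 10 * (CH * Y * 5 ^ 14) * D ^ 2 / 2 with hK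
  have hK0 : 0 ≤ K := by positivity
  have i1 := (iL t₀).1.mul_prod (hDEC.2.2.1 (-t₀)).1
  have i2 := (hDEC.2.2.1 t₀).1.mul_prod (iL (-t₀)).1
  have hLw : ∀ u, 0 ≤ Lw k u := fun u => integral_nonneg fun τ => by positivity
  have main : ‖I2 (z.re - 1 / 2) fun s₁ s₂ => w s₁ * wt w s₂ * Zc P R k z s₁ s₂‖ ≤
      K * (4 * (Lw k (t₀ - z.im) + Lw k (-t₀ - z.im))) := by
    unfold I2
    rw [Measure.volume_eq_prod]
    refine (norm_integral_le_of_norm_le ((i1.add i2).const_mul K)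
      (Filter.Eventually.of_forall fun t => ?_)).trans ?_
    · refine (hG _ ⟨by simp, by simp; linarith⟩ _ ⟨by simp, by simp; linarith⟩).trans ?_
      have l1 := tk1_line hDEC.1 h20 k z N t₀ t.1 hN0
      have l2 := tk1_line hDEC.1 h20 k z N (-t₀) t.2 hN0
      rw [tk1_brneg] at l2
      have am : L t.1 ^ 2 * L t.2 ^ 2 ≤ (L t.1 ^ 4 + L t.2 ^ 4) / 2 := by
        nlinarith [sq_nonneg (L t.1 ^ 2 - L t.2 ^ 2)]
      simp only [Pi.add_apply]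
      calc _ ≤ W ^ 2 * Ci ^ 10 * (CH * Y * 5 ^ 14) *
            (D * (Real.exp (-|t.1 - t₀| / 2) * L t.1 ^ 2) *
              (D * (Real.exp (-|t.2 - -t₀| / 2) * L t.2 ^ 2))) := by
            gcongr
            exact f0 _ _
        _ = W ^ 2 * Ci ^ 10 * (CH * Y * 5 ^ 14) * D ^ 2 *
            (Real.exp (-|t.1 - t₀| / 2) * Real.exp (-|t.2 - -t₀| / 2)) *
              (L t.1 ^ 2 * L t.2 ^ 2) := by ring
        _ ≤ W ^ 2 * Ci ^ 10 * (CH * Y * 5 ^ 14) * D ^ 2 *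
            (Real.exp (-|t.1 - t₀| / 2) * Real.exp (-|t.2 - -t₀| / 2)) *
              ((L t.1 ^ 4 + L t.2 ^ 4) / 2) := by gcongr
        _ = _ := by rw [hK]; ring
    · rw [integral_const_mul, integral_add' i1 i2,
        integral_prod_mul (fun t : ℝ => Real.exp (-|t - t₀| / 2) * L t ^ 4)
          (fun t : ℝ => Real.exp (-|t - -t₀| / 2)),
        integral_prod_mul (fun t : ℝ => Real.exp (-|t - t₀| / 2))
          (fun t : ℝ => Real.exp (-|t - -t₀| / 2) * L t ^ 4), (iL t₀).2, (iL (-t₀)).2]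
      refine mul_le_mul_of_nonneg_left ?_ hK0
      have j1 := mul_le_mul_of_nonneg_left (hDEC.2.2.1 (-t₀)).2 (hLw (t₀ - z.im))
      have j2 := mul_le_mul_of_nonneg_right (hDEC.2.2.1 t₀).2 (hLw (-t₀ - z.im))
      linarith
  refine main.trans (le_of_eq ?_)
  have eN : N ^ (2 * z.re - 1) = (N ^ (z.re - 1 / 2)) ^ 2 := by
    rw [sq, ← Real.rpow_add hN0]; congr 1; ring
  rw [hK, hD, eN]; ring

end Pool.Agent.QM
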