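import Pool.Agent.P.MP_ea46f5_nt.QM.S1

namespace Pool.Agent.QM

open Complex MeasureTheory Finset
open scoped Real ComplexConjugate

theorem tkb_cpow (p : ℕ) (hp : 2 ≤ p) (w : ℂ) (m : ℕ) (hw : w.re ≤ m) :
    ‖(p : ℂ) ^ w‖ ≤ (p : ℝ) ^ m := by
  rw [Complex.norm_natCast_cpow_of_pos (by omega)]
  have h1 : (1 : ℝ) ≤ p := by exact_mod_cast (by omega : 1 ≤ p)
  calc (p : ℝ) ^ w.re ≤ (p : ℝ) ^ (m : ℝ) := Real.rpow_le_rpow_of_exponent_le h1 hw
    _ = (p : ℝ) ^ m := Real.rpow_natCast _ _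

theorem tkb_jac (k : ℤ) (p : ℕ) : ‖(jacobiSym k p : ℂ)‖ ≤ 1 := by
  rcases jacobiSym.trichotomy k p with h | h | h <;> simp [h]

theorem tkb_ok (k : ℤ) (z : ℂ) (p : ℕ) (hp : 2 ≤ p) (h0 : 0 ≤ z.re) (h6 : z.re ≤ 6) :
    ‖ok k z p‖ ≤ (p : ℝ) ^ 7 := by
  unfold ok
  have h2 : (2 : ℝ) ≤ p := by exact_mod_cast hp
  have a1 := tkb_jac k p
  have a2 : ‖(p : ℂ) ^ (-(1 / 2 : ℂ))‖ ≤ (p : ℝ) ^ 0 :=
    tkb_cpow p hp _ 0 (by simp)
  have a3 : ‖(p : ℂ) ^ z‖ ≤ (p : ℝ) ^ 6 := tkb_cpow p hp _ 6 (by simpa using h6)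
  have a4 : ‖(p : ℂ) ^ (-z)‖ ≤ (p : ℝ) ^ 6 :=
    tkb_cpow p hp _ 6 (by simp only [neg_re]; push_cast; linarith)
  have a5 : ‖(p : ℂ) ^ z - (p : ℂ) ^ (-z)‖ ≤ (p : ℝ) ^ 7 := by
    have h7 : (p : ℝ) ^ 7 = p * (p : ℝ) ^ 6 := by ring
    have h8 : (0 : ℝ) ≤ (p : ℝ) ^ 6 := by positivity
    calc _ ≤ ‖(p : ℂ) ^ z‖ + ‖(p : ℂ) ^ (-z)‖ := norm_sub_le _ _
      _ ≤ 2 * (p : ℝ) ^ 6 := by linarith
      _ ≤ (p : ℝ) ^ 7 := by rw [h7]; exact mul_le_mul_of_nonneg_right h2 h8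
  rw [pow_zero] at a2
  rw [norm_mul, norm_mul]
  calc _ ≤ 1 * 1 * (p : ℝ) ^ 7 := by gcongr
    _ = _ := by ring

theorem tkb_ek (k : ℤ) (z : ℂ) (p : ℕ) (hp : 2 ≤ p) (h6 : z.re ≤ 6) :
    ‖ek k z p‖ ≤ (p : ℝ) ^ 14 := by
  unfold ek
  have h2 : (2 : ℝ) ≤ p := by exact_mod_cast hp
  have h1 : (1 : ℝ) ≤ (p : ℝ) ^ 13 := one_le_pow₀ (by linarith)
  have h7 : (p : ℝ) ^ 14 = p * (p : ℝ) ^ 13 := by ring
  have h8 : 2 * (p : ℝ) ^ 13 ≤ (p : ℝ) ^ 14 := by
    rw [h7]; exact mul_le_mul_of_nonneg_right h2 (by positivity)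
  split_ifs
  · have a3 : ‖(p : ℂ) ^ (2 * z - 1)‖ ≤ (p : ℝ) ^ 13 :=
      tkb_cpow p hp _ 13 (by simp; linarith)
    calc _ ≤ ‖(1 : ℂ)‖ + ‖(p : ℂ) ^ (2 * z - 1)‖ := norm_sub_le _ _
      _ ≤ _ := by rw [norm_one]; linarith
  · have a3 : ‖(1 / (p : ℂ))‖ ≤ 1 := by
      rw [norm_div, norm_one, Complex.norm_natCast]
      exact div_le_one_of_le₀ (by linarith) (by positivity)
    calc _ ≤ ‖(1 : ℂ)‖ + ‖(1 / (p : ℂ))‖ := norm_sub_le _ _
      _ ≤ _ := by rw [norm_one]; linarith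

theorem tkb_sq (n : ℕ) (hn : n ≠ 0) (h : ∀ p ∈ n.primeFactors, ¬ Odd (n.factorization p)) :
    IsSquare n := by
  refine ⟨∏ p ∈ n.primeFactors, p ^ (n.factorization p / 2), ?_⟩
  rw [← Finset.prod_mul_distrib]
  conv_lhs => rw [← Nat.prod_factorization_pow_eq_self hn]
  rw [Finsupp.prod, Nat.support_factorization]
  refine Finset.prod_congr rfl fun p hp => ?_
  rw [← pow_add]
  have := h p hp
  rw [Nat.odd_iff] at this
  congr 1
  omega

theorem pTKB : TKB := by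
  refine ⟨fun n _ => ?_, fun k z n h0 h6 hn => ?_, fun k n => ?_, fun n => ⟨?_, ?_, fun hn hs => ?_⟩⟩
  · unfold Tk T0
    push_cast
    refine Finset.prod_congr rfl fun p hp => ?_
    have hp' := Nat.prime_of_mem_primeFactors hp
    split_ifs
    · simp [ok]
    · have : ¬ (p : ℤ) ∣ 1 := by
        intro h
        have : p ∣ 1 := by exact_mod_cast h
        exact hp'.not_dvd_one this
      simp [ek, this]
  · unfold Tk
    rw [norm_prod]
    have hn7 : (n : ℝ) ^ 7 = ∏ p ∈ n.primeFactors, ((p : ℝ) ^ n.factorization p) ^ 7 := by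
      rw [Finset.prod_pow]
      congr 1
      conv_lhs => rw [← Nat.prod_factorization_pow_eq_self hn]
      rw [Finsupp.prod, Nat.support_factorization]
      push_cast
      rfl
    rw [hn7]
    refine Finset.prod_le_prod (fun _ _ => norm_nonneg _) fun p hp => ?_
    have hp' := Nat.prime_of_mem_primeFactors hp
    have h1 : (1 : ℝ) ≤ p := by exact_mod_cast hp'.one_le
    have hv : 0 < n.factorization p :=
      hp'.factorization_pos_of_dvd hn (Nat.dvd_of_mem_primeFactors hp)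
    rw [← pow_mul]
    split_ifs with ho
    · exact (tkb_ok k z p hp'.two_le h0 h6).trans (pow_le_pow_right₀ h1 (by omega))
    · rw [Nat.odd_iff] at ho
      exact (tkb_ek k z p hp'.two_le h6).trans (pow_le_pow_right₀ h1 (by omega))
  · unfold Tk
    refine continuous_finsetProd _ fun p hp => ?_
    have hp0 : (p : ℂ) ≠ 0 := by exact_mod_cast (Nat.prime_of_mem_primeFactors hp).ne_zero
    have hc : ∀ f : ℂ → ℂ, Continuous f → Continuous fun z => (p : ℂ) ^ f z := fun f hf =>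
      hf.const_cpow (Or.inl hp0)
    split_ifs
    · unfold ok
      exact continuous_const.mul ((hc _ continuous_id).sub (hc _ continuous_neg))
    · unfold ek
      split_ifs
      · exact continuous_const.sub (hc _ (by fun_prop))
      · exact continuous_const
  · unfold T0
    refine Finset.prod_nonneg fun p hp => ?_
    have h1 : (1 : ℝ) ≤ p := by exact_mod_cast (Nat.prime_of_mem_primeFactors hp).one_le
    split_ifs
    · exact le_rfl
    · exact sub_nonneg.2 (div_le_one_of_le₀ h1 (by positivity))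
  · unfold T0
    refine Finset.prod_le_one (fun p hp => ?_) fun p _ => ?_
    · have h1 : (1 : ℝ) ≤ p := by exact_mod_cast (Nat.prime_of_mem_primeFactors hp).one_le
      split_ifs
      · exact le_rfl
      · exact sub_nonneg.2 (div_le_one_of_le₀ h1 (by positivity))
    · split_ifs
      · exact zero_le_one
      · exact sub_le_self _ (by positivity)
  · unfold T0
    by_contra hne
    refine hs (tkb_sq n hn fun p hp ho => hne ?_)
    exact Finset.prod_eq_zero hp (if_pos ho)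

end Pool.Agent.QM
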