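import Pool.Agent.P.MP_ea46f5_nt.QM.S2

namespace Pool.Agent.QM

open Complex MeasureTheory Finset
open scoped Real ComplexConjugate

theorem tm_br (t : ℝ) : 1 ≤ br t := le_add_of_nonneg_right (abs_nonneg t)

theorem tm_kz {X : ℝ} (hX : 0 < X) (z : ℂ) :
    ‖Kz 1 X z‖ = ‖Gammaℝ z * riemannZeta (2 * z)‖ / 2 * X ^ (-z.re) := by
  have e : Kz 1 X z = Gammaℝ z * riemannZeta (2 * z) / 2 * (X : ℂ) ^ (-z) := by
    unfold Kz
    rw [Int.cast_one, abs_one, one_mul]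
    ring
  rw [e, norm_mul, norm_div, Complex.norm_cpow_eq_rpow_re_of_pos hX, neg_re, Complex.norm_two]

/-- The integral of the kernel against a function of polynomial growth. -/
theorem tm_int (hKZ : KZ) (hDEC : DEC) (c : ℕ) : ∃ C : ℝ, 0 < C ∧ ∀ (X ε D : ℝ) (f : ℂ → ℂ),
    1 ≤ X → 0 < ε → ε ≤ 1 / 100 → 0 ≤ D →
    (∀ z : ℂ, z.re = 1 / 2 + ε → ‖f z‖ ≤ D * br z.im ^ c) →
    X * ‖Iv (1 / 2 + ε) fun z => Kz 1 X z * f z‖ ≤ C * D * √X / ε := by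
  obtain ⟨C, hC, h⟩ := hKZ (c + 2)
  refine ⟨2 * C, by positivity, fun X ε D f hX hε hε1 hD hf => ?_⟩
  have hX0 : 0 < X := by linarith
  obtain ⟨i1, i2⟩ := hDEC.2.2.2.1
  have hE : 0 ≤ C * D / ε * X ^ (-(1 / 2 + ε)) := by positivity
  have h1 : ‖Iv (1 / 2 + ε) fun z => Kz 1 X z * f z‖ ≤
      ∫ t : ℝ, C * D / ε * X ^ (-(1 / 2 + ε)) * (1 / br t ^ 2) := by
    refine norm_integral_le_of_norm_le (i1.const_mul _) (Filter.Eventually.of_forall fun t => ?_)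
    have r1 : (((1 / 2 + ε : ℝ) : ℂ) + t * I).re = 1 / 2 + ε := by simp
    have r2 : (((1 / 2 + ε : ℝ) : ℂ) + t * I).im = t := by simp
    have b0 : 0 < br t := lt_of_lt_of_le one_pos (tm_br t)
    have k1 := (h (((1 / 2 + ε : ℝ) : ℂ) + t * I)).2.1 (by rw [r1]; linarith) (by rw [r1]; linarith)
    have k2 := hf _ r1
    rw [r1, r2, add_sub_cancel_left] at k1
    rw [r2] at k2
    have k3 : 1 + 1 / ε ≤ 2 / ε := by
      rw [le_div_iff₀ hε, add_mul, one_div_mul_cancel hε.ne']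
      linarith
    have k4 : ‖Gammaℝ (((1 / 2 + ε : ℝ) : ℂ) + t * I) *
        riemannZeta (2 * (((1 / 2 + ε : ℝ) : ℂ) + t * I))‖ ≤ C * (2 / ε) / br t ^ (c + 2) :=
      k1.trans (by gcongr)
    rw [norm_mul, tm_kz hX0, r1]
    calc _ ≤ C * (2 / ε) / br t ^ (c + 2) / 2 * X ^ (-(1 / 2 + ε)) * (D * br t ^ c) := by gcongr
      _ = _ := by rw [pow_add]; field_simp
  rw [integral_const_mul] at h1
  have h2 : X * X ^ (-(1 / 2 + ε)) ≤ √X := by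
    rw [Real.sqrt_eq_rpow]
    nth_rewrite 1 [← Real.rpow_one X]
    rw [← Real.rpow_add hX0]
    exact Real.rpow_le_rpow_of_exponent_le hX (by linarith)
  calc _ ≤ X * (C * D / ε * X ^ (-(1 / 2 + ε)) * 2) :=
        mul_le_mul_of_nonneg_left (h1.trans (mul_le_mul_of_nonneg_left i2 hE)) hX0.le
    _ = 2 * C * D * (X * X ^ (-(1 / 2 + ε))) / ε := by ring
    _ ≤ _ := by gcongr

theorem tm_final {C1 C2 C3 C4 β a1 a2 a3 a4 : ℝ} {c2 c3 : ℕ} (h1 : 0 < C1) (h2 : 0 < C2)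
    (h3 : 0 < C3) (h4 : 0 < C4) (hβ : 1 ≤ β) (p1 : 0 ≤ a1) (p2 : 0 ≤ a2) (p3 : 0 ≤ a3)
    (p4 : 0 ≤ a4) :
    C1 * β ^ 8 * a1 + (C3 * β ^ c3 * (a3 + a4) + C4 * a1) + C2 * β ^ c2 * a2 ≤
      (C1 + C2 + C3 + C4) * β ^ (8 + c2 + c3) * (a1 + (a2 + a3 + a4)) := by
  have e1 : β ^ 8 ≤ β ^ (8 + c2 + c3) := pow_le_pow_right₀ hβ (by omega)
  have e2 : β ^ c2 ≤ β ^ (8 + c2 + c3) := pow_le_pow_right₀ hβ (by omega)
  have e3 : β ^ c3 ≤ β ^ (8 + c2 + c3) := pow_le_pow_right₀ hβ (by omega)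
  have e4 : 1 ≤ β ^ (8 + c2 + c3) := one_le_pow₀ hβ
  generalize β ^ (8 + c2 + c3) = G at *
  have f1 : C1 * β ^ 8 * a1 ≤ C1 * G * (a1 + (a2 + a3 + a4)) := by gcongr; linarith
  have f2 : C2 * β ^ c2 * a2 ≤ C2 * G * (a1 + (a2 + a3 + a4)) := by gcongr; linarith
  have f3 : C3 * β ^ c3 * (a3 + a4) ≤ C3 * G * (a1 + (a2 + a3 + a4)) :=
    mul_le_mul (by gcongr) (by linarith) (by linarith) (by positivity)
  have f4 : C4 * 1 * a1 ≤ C4 * G * (a1 + (a2 + a3 + a4)) := by gcongr; linarith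
  linarith

theorem pTM (hTME : TME) (hTMD : TMD) (hTMK : TMK) (hTA2 : TA2) (hJCA : JCA) (hTC1 : TC1) (hTC2 : TC2) (hKZ : KZ) (hFW : FW) (hDEC : DEC) (hLEN : LEN) : TM := by
  obtain ⟨C1, c1, hC1, h1⟩ := hTMD
  obtain ⟨B2, c2, hB2, h2⟩ := hTMK
  obtain ⟨C3, B3, c3, hC3, -, h3⟩ := hTA2
  obtain ⟨C4, c4, hC4, h4⟩ := hTC2
  obtain ⟨C5, hC5, h5⟩ := tm_int hKZ hDEC c3
  refine ⟨max c1 c4, max B2 B3, 8 + c2 + c3, le_max_of_le_left hB2, fun A => ?_⟩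
  obtain ⟨C2, hC2, h2⟩ := h2 A
  refine ⟨C1 + C2 + C5 * C3 + C4, by positivity,
    fun w P R lam T Y ε X N t₀ W₀ W₁ M α F tw hε hε1 hl hX hN hα hW₀ far near dual => ?_⟩
  have hX0 : 0 < X := by linarith
  have hN0 : 0 < N := by linarith
  have hY : 0 ≤ Y := (hLEN.2.1 P _ R Y tw.len).1
  have hT := tw.T0
  have hM : 0 ≤ M := by simpa [br] using dual ∅ (fun _ h => absurd h (by simp)) 0
  have hβ := tm_br t₀
  have l2 := hLEN.1 P P _ B2 R Y Y tw.len subset_rfl (le_max_left _ _) le_rfl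
  have l3 := hLEN.1 P P _ B3 R Y Y tw.len subset_rfl (le_max_right _ _) le_rfl
  obtain ⟨-, hLI, -⟩ := hFW.2.1 w ε N t₀ W₁ hε (by linarith) far
  obtain ⟨i1, e1⟩ := hTME w P _ R X (N ^ 2 / X) Y (1 / 2 + ε)
    (C2 * Y * W₁ ^ 2 * br t₀ ^ (c2 + A) * M / N) hLI hX0 tw.op tw.len tw.pos (by linarith)
    (by linarith)
  obtain ⟨j1, j2, M', j3⟩ := hJCA w P _ R Y ε N t₀ W₁ tw.op tw.len hε hε1 hN far
  obtain ⟨i2, e2⟩ := hTC1 (Jc w P R ε) X ε M' hX hε hε1 j1 j2 j3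
  have b1 := h1 w P _ R lam T Y ε N t₀ W₀ W₁ α _ tw hε hε1 hl hN hα (le_max_left _ _) hW₀ far near
  have b4 := h4 w P _ R lam T Y ε X t₀ W₀ α _ tw hε hε1 hl hX hα (le_max_right _ _) hW₀ near
  have b3 := h5 X ε (C3 * Y * W₁ ^ 2 * br t₀ ^ c3 *
      (N ^ (2 * ε) / ε ^ 10 + N ^ (1 / 2 + 3 * ε) / ε ^ 4))
    (fun z => Jk w P R 1 z - Jc w P R ε z) hX hε hε1 (by positivity) fun z hz =>
      (h3 w P R Y ε N t₀ W₁ z tw.op l3 hε hε1 hN far hz).trans (le_of_eq (by ring))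
  have e3 : Iv (1 / 2 + ε) (fun z => Kz 1 X z * Jk w P R 1 z) =
      Iv (1 / 2 + ε) (fun z => Kz 1 X z * (Jk w P R 1 z - Jc w P R ε z)) +
        Iv ε (fun z => Kz 1 X z * Jc w P R ε z) := by
    rw [← e2]
    unfold Iv
    simp only [mul_sub]
    rw [integral_sub i1 i2, sub_add_cancel]
  have b5 : ‖Yk w P R X 1 (1 / 2 + ε)‖ ≤
      ‖Iv (1 / 2 + ε) (fun z => Kz 1 X z * (Jk w P R 1 z - Jc w P R ε z))‖ +
        ‖Iv ε (fun z => Kz 1 X z * Jc w P R ε z)‖ := by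
    unfold Yk
    rw [e3, norm_mul]
    refine (mul_le_of_le_one_left (norm_nonneg _) ?_).trans (norm_add_le _ _)
    rw [norm_div, norm_one, norm_mul, Complex.norm_two, Complex.norm_real,
      Real.norm_of_nonneg Real.pi_pos.le, div_le_one (by positivity)]
    linarith [Real.pi_gt_three]
  have b6 : C5 * (C3 * Y * W₁ ^ 2 * br t₀ ^ c3 *
      (N ^ (2 * ε) / ε ^ 10 + N ^ (1 / 2 + 3 * ε) / ε ^ 4)) * √X / ε ≤
      C5 * C3 * br t₀ ^ c3 * (Y * W₁ ^ 2 * (N ^ (3 * ε) * √(X * N) / ε ^ 5) +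
        Y * W₁ ^ 2 * (N ^ (3 * ε) * √X / ε ^ 11)) := by
    have k1 : N ^ (2 * ε) ≤ N ^ (3 * ε) := Real.rpow_le_rpow_of_exponent_le hN (by linarith)
    rw [Real.rpow_add hN0, ← Real.sqrt_eq_rpow, Real.sqrt_mul hX0.le]
    calc _ ≤ C5 * (C3 * Y * W₁ ^ 2 * br t₀ ^ c3 *
          (N ^ (3 * ε) / ε ^ 10 + √N * N ^ (3 * ε) / ε ^ 4)) * √X / ε := by gcongr
      _ = _ := by field_simp; ring
  have fin := tm_final (c2 := c2) (c3 := c3) (a1 := X * T * W₀ ^ 2 * ε ^ (2 * α) / ε ^ 8)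
    (a2 := Y * W₁ ^ 2 * (X / N * M * br t₀ ^ A))
    (a3 := Y * W₁ ^ 2 * (N ^ (3 * ε) * √(X * N) / ε ^ 5))
    (a4 := Y * W₁ ^ 2 * (N ^ (3 * ε) * √X / ε ^ 11)) hC1 hC2 (mul_pos hC5 hC3) hC4 hβ
    (by positivity) (by positivity) (by positivity) (by positivity)
  refine (e1 (fun F' hF' => h2 w P R Y ε X N t₀ W₁ M F' tw.op l2 hε hε1 hX hN far dual hF') F).trans
    (le_trans ?_ (fin.trans (le_of_eq (by ring))))
  have g1 := mul_le_mul_of_nonneg_left b1 hX0.le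
  have g4 := mul_le_mul_of_nonneg_left b4 hX0.le
  have g5 := mul_le_mul_of_nonneg_left b5 hX0.le
  have g6 := b3.trans b6
  have q1 : X * (C1 * br t₀ ^ 8 * T * W₀ ^ 2 * ε ^ (2 * α) / ε ^ 8) =
      C1 * br t₀ ^ 8 * (X * T * W₀ ^ 2 * ε ^ (2 * α) / ε ^ 8) := by ring
  have q4 : X * (C4 * T * W₀ ^ 2 * ε ^ (2 * α) / ε ^ 8) =
      C4 * (X * T * W₀ ^ 2 * ε ^ (2 * α) / ε ^ 8) := by ring
  have q2 : X * (C2 * Y * W₁ ^ 2 * br t₀ ^ (c2 + A) * M / N) =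
      C2 * br t₀ ^ c2 * (Y * W₁ ^ 2 * (X / N * M * br t₀ ^ A)) := by ring
  rw [mul_add X, mul_add X, q2]
  rw [q1] at g1
  rw [q4] at g4
  rw [mul_add X] at g5
  linarith

end Pool.Agent.QM
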