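import Pool.Agent.P.MP_ea46f5_nt.QM.S2

namespace Pool.Agent.QM

open Complex MeasureTheory Finset
open scoped Real ComplexConjugate

theorem tmd_one (t : ℝ) : 1 ≤ br t := by
  unfold br; linarith [abs_nonneg t]

theorem tmd_neg (t : ℝ) : br (-t) = br t := by
  simp [br]

theorem tmd_dec (hDEC : DEC) (n : ℕ) : ∃ C : ℝ, 0 < C ∧ ∀ t u : ℝ,
    Real.exp (-|t - u|) * br t ^ n ≤ C * br u ^ n * Real.exp (-|t - u| / 2) := by
  obtain ⟨C, hC, h⟩ := hDEC.2.1 n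
  refine ⟨C, hC, fun t u => ?_⟩
  have e : Real.exp (-|t - u|) = Real.exp (-|t - u| / 2) * Real.exp (-|t - u| / 2) := by
    rw [← Real.exp_add]; congr 1; ring
  calc Real.exp (-|t - u|) * br t ^ n
      = (Real.exp (-|t - u| / 2) * br t ^ n) * Real.exp (-|t - u| / 2) := by rw [e]; ring
    _ ≤ C * br u ^ n * Real.exp (-|t - u| / 2) :=
        mul_le_mul_of_nonneg_right (h t u) (Real.exp_pos _).le

theorem tmd_cube (y : ℝ) (hy : 0 ≤ y) : (1 + y) ^ 3 ≤ 4 * (1 + y ^ 3) := by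
  nlinarith [mul_nonneg (add_nonneg zero_le_one hy) (sq_nonneg (1 - y))]

theorem tmd_pt (x b : ℝ) (α : ℕ) (hx : 0 < x) (hb : 1 ≤ b) (hxb : x ≤ b) (hα : α ≤ 1) :
    x ^ α * (1 + 1 / x) ^ 3 ≤ 4 * (b + 1 / x ^ (3 - α)) := by
  have h := tmd_cube (1 / x) (by positivity)
  interval_cases α
  · simp only [pow_zero, one_mul, Nat.sub_zero]
    rw [div_pow, one_pow] at h
    linarith
  · have e : x * (1 / x) ^ 3 = 1 / x ^ 2 := by field_simp
    have h2 := mul_le_mul_of_nonneg_left h hx.le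
    simp only [pow_one, show 3 - 1 = 2 from rfl]
    nlinarith

theorem tmd_maj (hDEC : DEC) : ∃ K : ℝ, 0 < K ∧ ∀ (ε t₀ : ℝ) (α : ℕ), 0 < ε → ε ≤ 1 → α ≤ 1 →
    ∃ h : ℝ → ℝ, Integrable h ∧ (∀ t, 0 ≤ h t) ∧ ∫ t, h t ≤ K * br t₀ ^ 4 * (ε ^ α / ε ^ 2) ∧
      ∀ t : ℝ, ‖(ε + t * I : ℂ)‖ ^ α * (Real.exp (-|t - t₀|) + Real.exp (-|t + t₀|)) *
        (br t * (1 + 1 / ‖(ε + t * I : ℂ)‖)) ^ 3 ≤ h t := by
  obtain ⟨C3, hC3, h3⟩ := tmd_dec hDEC 3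
  obtain ⟨C4, hC4, h4⟩ := tmd_dec hDEC 4
  obtain ⟨C5, hC5, h5⟩ := hDEC.2.2.2.2
  refine ⟨32 * C4 + 8 * C3 * C5, by positivity, fun ε t₀ α hε hε1 hα => ?_⟩
  obtain ⟨i5, j5⟩ := h5 ε (3 - α) hε (by omega) (by omega)
  obtain ⟨i1, j1⟩ := hDEC.2.2.1 t₀
  obtain ⟨i2, j2⟩ := hDEC.2.2.1 (-t₀)
  have hb := tmd_one t₀
  have hb0 : 0 < br t₀ := by linarith
  refine ⟨fun t => 4 * C4 * br t₀ ^ 4 * (Real.exp (-|t - t₀| / 2) + Real.exp (-|t - -t₀| / 2)) +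
    8 * C3 * br t₀ ^ 3 * (1 / ‖(ε + t * I : ℂ)‖ ^ (3 - α)),
    ((i1.add i2).const_mul _).add (i5.const_mul _), fun t => by positivity, ?_, fun t => ?_⟩
  · have i12 : Integrable fun t : ℝ =>
        Real.exp (-|t - t₀| / 2) + Real.exp (-|t - -t₀| / 2) := i1.add i2
    rw [integral_add (i12.const_mul _) (i5.const_mul _), integral_const_mul, integral_const_mul,
      integral_add i1 i2]
    have e : C5 * ε / ε ^ (3 - α) = C5 * (ε ^ α / ε ^ 2) := by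
      interval_cases α
      · simp only [Nat.sub_zero, pow_zero]; field_simp
      · simp only [show 3 - 1 = 2 from rfl, pow_one]; ring
    have q1 : 1 ≤ ε ^ α / ε ^ 2 := by
      rw [le_div_iff₀ (by positivity), one_mul]
      exact pow_le_pow_of_le_one hε.le hε1 (by omega)
    rw [e] at j5
    set Q := ε ^ α / ε ^ 2
    have b34 : br t₀ ^ 3 ≤ br t₀ ^ 4 := pow_le_pow_right₀ hb (by norm_num)
    have a1 : 4 * C4 * br t₀ ^ 4 * ((∫ t : ℝ, Real.exp (-|t - t₀| / 2)) +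
        ∫ t : ℝ, Real.exp (-|t - -t₀| / 2)) ≤ 4 * C4 * br t₀ ^ 4 * (8 * Q) :=
      mul_le_mul_of_nonneg_left (by linarith) (by positivity)
    have a2 : 8 * C3 * br t₀ ^ 3 * (∫ t : ℝ, 1 / ‖(ε + t * I : ℂ)‖ ^ (3 - α)) ≤
        8 * C3 * br t₀ ^ 4 * (C5 * Q) :=
      (mul_le_mul_of_nonneg_left j5 (by positivity)).trans
        (mul_le_mul_of_nonneg_right (mul_le_mul_of_nonneg_left b34 (by positivity))
          (by positivity))
    calc _ ≤ 4 * C4 * br t₀ ^ 4 * (8 * Q) + 8 * C3 * br t₀ ^ 4 * (C5 * Q) := add_le_add a1 a2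
      _ = _ := by ring
  · set x := ‖(ε + t * I : ℂ)‖ with hx
    have hx0 : 0 < x := by
      have := abs_re_le_norm (ε + t * I : ℂ)
      simp at this
      exact lt_of_lt_of_le (abs_pos.2 hε.ne') this
    have hxb : x ≤ br t := by
      have := norm_add_le (ε : ℂ) (t * I)
      simp at this
      rw [abs_of_pos hε] at this
      unfold br; linarith
    have hp := tmd_pt x (br t) α hx0 (tmd_one t) hxb hα
    have hbt : 0 < br t := by linarith [tmd_one t]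
    have k1 := h4 t t₀
    have k2 := h4 t (-t₀)
    have k3 := h3 t t₀
    have k4 := h3 t (-t₀)
    rw [tmd_neg] at k2 k4
    have l1 : Real.exp (-|t - t₀| / 2) ≤ 1 :=
      Real.exp_le_one_iff.2 (by linarith [abs_nonneg (t - t₀)])
    have l2 : Real.exp (-|t - -t₀| / 2) ≤ 1 :=
      Real.exp_le_one_iff.2 (by linarith [abs_nonneg (t - -t₀)])
    have k3' : Real.exp (-|t - t₀|) * br t ^ 3 ≤ C3 * br t₀ ^ 3 :=
      k3.trans (mul_le_of_le_one_right (by positivity) l1)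
    have k4' : Real.exp (-|t - -t₀|) * br t ^ 3 ≤ C3 * br t₀ ^ 3 :=
      k4.trans (mul_le_of_le_one_right (by positivity) l2)
    rw [show t + t₀ = t - -t₀ by ring]
    set E1 := Real.exp (-|t - t₀|)
    set E2 := Real.exp (-|t - -t₀|)
    have hE : 0 ≤ (E1 + E2) * br t ^ 3 := by positivity
    have hy : 0 ≤ 1 / x ^ (3 - α) := by positivity
    set y := 1 / x ^ (3 - α)
    have m1 : (E1 * br t ^ 3 + E2 * br t ^ 3) * y ≤ (2 * (C3 * br t₀ ^ 3)) * y :=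
      mul_le_mul_of_nonneg_right (by linarith) hy
    calc x ^ α * (E1 + E2) * (br t * (1 + 1 / x)) ^ 3
        = (E1 + E2) * br t ^ 3 * (x ^ α * (1 + 1 / x) ^ 3) := by ring
      _ ≤ (E1 + E2) * br t ^ 3 * (4 * (br t + y)) := mul_le_mul_of_nonneg_left hp hE
      _ = 4 * (E1 * br t ^ 4 + E2 * br t ^ 4) + 4 * ((E1 * br t ^ 3 + E2 * br t ^ 3) * y) := by
          ring
      _ ≤ 4 * (C4 * br t₀ ^ 4 * Real.exp (-|t - t₀| / 2) +
            C4 * br t₀ ^ 4 * Real.exp (-|t - -t₀| / 2)) + 4 * ((2 * (C3 * br t₀ ^ 3)) * y) := by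
          linarith
      _ = _ := by ring

theorem tmd_far (hFW : FW) (hDEC : DEC) (w : ℂ → ℂ) (ε N t₀ W : ℝ) (hε : 0 < ε) (hε1 : ε ≤ 1)
    (hN : 1 ≤ N) (h : Far w ε N t₀ W) :
    ∃ A : ℝ, 0 ≤ A ∧ ∀ s ∈ Strip ε 12, ‖w s‖ ≤ A / br s.im ^ 2 := by
  obtain ⟨C, hC, h2⟩ := tmd_dec hDEC 2
  have hW : 0 ≤ W := (hFW.2.1 w ε N t₀ W hε hε1 h).2.2 (by linarith)
  have hb := tmd_one t₀
  refine ⟨W * N ^ (12 : ℝ) * (C * br t₀ ^ 2), by positivity, fun s hs => ?_⟩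
  have hbs : 0 < br s.im := by linarith [tmd_one s.im]
  rw [le_div_iff₀ (by positivity)]
  have a := h.2 s (by linarith [hs.1]) (by linarith [hs.2])
  have b : N ^ s.re ≤ N ^ (12 : ℝ) := Real.rpow_le_rpow_of_exponent_le hN hs.2
  have l1 : Real.exp (-|s.im - t₀| / 2) ≤ 1 :=
    Real.exp_le_one_iff.2 (by linarith [abs_nonneg (s.im - t₀)])
  have c : Real.exp (-|s.im - t₀|) * br s.im ^ 2 ≤ C * br t₀ ^ 2 :=
    (h2 s.im t₀).trans (mul_le_of_le_one_right (by positivity) l1)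
  calc ‖w s‖ * br s.im ^ 2 ≤ W * N ^ s.re * Real.exp (-|s.im - t₀|) * br s.im ^ 2 :=
        mul_le_mul_of_nonneg_right a (by positivity)
    _ = W * N ^ s.re * (Real.exp (-|s.im - t₀|) * br s.im ^ 2) := by ring
    _ ≤ W * N ^ (12 : ℝ) * (C * br t₀ ^ 2) :=
        mul_le_mul (mul_le_mul_of_nonneg_left b hW) c (by positivity) (by positivity)

theorem tmd_shift (hSD0 : SD0) (hZDA : ZDA) (hFW : FW) (hDEC : DEC) (w : ℂ → ℂ) (P : Finset ℕ)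
    (R : (ℕ → ℤ) → ℝ) (ε N t₀ W : ℝ) (hP : OP P) (hε : 0 < ε) (hε1 : ε ≤ 1) (hN : 1 ≤ N)
    (h : Far w ε N t₀ W) :
    Jk w P R 1 0 = I2 ε fun s₁ s₂ => w s₁ * wt w s₂ * Zk P R 1 0 s₁ s₂ := by
  have h' := hFW.1 w ε N t₀ W h
  obtain ⟨A, hA, ha⟩ := tmd_far hFW hDEC w ε N t₀ W hε hε1 hN h
  obtain ⟨A', hA', ha'⟩ := tmd_far hFW hDEC (wt w) ε N (-t₀) W hε hε1 hN h'
  have d := (hFW.2.1 w ε N t₀ W hε hε1 h).1
  have d' := (hFW.2.1 (wt w) ε N (-t₀) W hε hε1 h').1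
  obtain ⟨⟨n1, n2, n3⟩, M, hM⟩ := hZDA P R ε 12 hP hε (by linarith)
  have s1 : Strip ε 12 ⊆ {s : ℂ | 0 < s.re} := fun s hs => lt_of_lt_of_le hε hs.1
  have s2 : OStrip ε 12 ⊆ {s : ℂ | 0 < s.re} := fun s hs => lt_trans hε hs.1
  refine hSD0 ε 12 (A * A' * M) _ (by linarith) ⟨?_, fun s hs => ?_, fun s hs => ?_⟩ ?_
  · refine ContinuousOn.mul (ContinuousOn.mul ?_ ?_) n1
    · exact (d.continuousOn.mono s1).comp continuousOn_fst fun x hx => hx.1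
    · exact (d'.continuousOn.mono s1).comp continuousOn_snd fun x hx => hx.2
  · exact ((d.mono s2).mul_const _).mul (n2 s hs)
  · exact ((d'.mono s2).const_mul _).mul (n3 s hs)
  · intro s₁ h₁ s₂ h₂
    have b1 : 0 < br s₁.im := by linarith [tmd_one s₁.im]
    have b2 : 0 < br s₂.im := by linarith [tmd_one s₂.im]
    rw [norm_mul, norm_mul]
    calc ‖w s₁‖ * ‖wt w s₂‖ * ‖Zk P R 1 0 s₁ s₂‖
        ≤ A / br s₁.im ^ 2 * (A' / br s₂.im ^ 2) * M :=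
          mul_le_mul (mul_le_mul (ha s₁ h₁) (ha' s₂ h₂) (norm_nonneg _) (by positivity))
            (hM s₁ h₁ s₂ h₂) (norm_nonneg _) (by positivity)
      _ = _ := by field_simp

theorem tmd_near (w : ℂ → ℂ) (ε lam t₀ W : ℝ) (α c C₀ : ℕ) (hε : 0 < ε) (hl : 0 ≤ lam)
    (hc : c ≤ C₀) (hW : 0 ≤ W) (h : Near w ε lam t₀ α C₀ W) (t : ℝ) :
    ‖w (ε + t * I)‖ * (1 + lam * |t|) ^ c ≤
      W * (‖(ε + t * I : ℂ)‖ ^ α * (Real.exp (-|t - t₀|) + Real.exp (-|t + t₀|))) := by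
  have a := h (ε + t * I) t (by simp; linarith)
  have u : 1 ≤ 1 + lam * |t| := by linarith [mul_nonneg hl (abs_nonneg t)]
  have u0 : 0 < 1 + lam * |t| := by linarith
  calc ‖w (ε + t * I)‖ * (1 + lam * |t|) ^ c
      ≤ (W * ‖(ε + t * I : ℂ)‖ ^ α / (1 + lam * |t|) ^ C₀ *
          (Real.exp (-|t - t₀|) + Real.exp (-|t + t₀|))) * (1 + lam * |t|) ^ C₀ :=
        mul_le_mul a (pow_le_pow_right₀ u hc) (by positivity) (by positivity)
    _ = _ := by field_simp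

theorem pTMD (hSD0 : SD0) (hZD : ZD) (hZDA : ZDA) (hFW : FW) (hDEC : DEC) : TMD := by
  obtain ⟨C, c, hC, hZ⟩ := hZD
  obtain ⟨K, hK, hm⟩ := tmd_maj hDEC
  refine ⟨C * K ^ 2, c, by positivity, ?_⟩
  intro w P B R lam T Y ε N t₀ W₀ W₁ α C₀ hT hε hε1 hl hN hα hc hW hF hn
  have hε2 : ε ≤ 1 := by linarith
  obtain ⟨h, hi, h0, hI, hp⟩ := hm ε t₀ α hε hε2 hα
  have hT0 := hT.T0
  have hl0 := hT.lam0
  rw [tmd_shift hSD0 hZDA hFW hDEC w P R ε N t₀ W₁ hT.op hε hε2 hN hF]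
  unfold I2
  have hi2 : Integrable (fun t : ℝ × ℝ => C * T * W₀ ^ 2 / ε ^ 4 * (h t.1 * h t.2)) :=
    (hi.mul_prod hi).const_mul _
  refine (norm_integral_le_of_norm_le hi2 (Filter.Eventually.of_forall fun t => ?_)).trans ?_
  · have a1 := tmd_near w ε lam t₀ W₀ α c C₀ hε hl0 hc hW hn t.1
    have a2 := tmd_near (wt w) ε lam t₀ W₀ α c C₀ hε hl0 hc hW
      (hFW.2.2.1 w ε lam t₀ W₀ α C₀ hn) t.2
    have a3 := hZ P B R lam T Y ε (ε + t.1 * I) (ε + t.2 * I) hT hε hε1 hl (by simp) (by simp)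
    have e1 : ((ε : ℂ) + t.1 * I).im = t.1 := by simp
    have e2 : ((ε : ℂ) + t.2 * I).im = t.2 := by simp
    rw [e1, e2] at a3
    have p1 := hp t.1
    have p2 := hp t.2
    have b1 : 0 < br t.1 := by linarith [tmd_one t.1]
    have b2 : 0 < br t.2 := by linarith [tmd_one t.2]
    set U1 := (br t.1 * (1 + 1 / ‖(ε + t.1 * I : ℂ)‖)) ^ 3 with hU1
    set U2 := (br t.2 * (1 + 1 / ‖(ε + t.2 * I : ℂ)‖)) ^ 3 with hU2
    have u1 : 0 ≤ U1 := by rw [hU1]; positivity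
    have u2 : 0 ≤ U2 := by rw [hU2]; positivity
    have g1 : ‖w (ε + t.1 * I)‖ * (1 + lam * |t.1|) ^ c * U1 ≤ W₀ * h t.1 :=
      (mul_le_mul_of_nonneg_right a1 u1).trans
        (by rw [mul_assoc]; exact mul_le_mul_of_nonneg_left p1 hW)
    have g2 : ‖wt w (ε + t.2 * I)‖ * (1 + lam * |t.2|) ^ c * U2 ≤ W₀ * h t.2 :=
      (mul_le_mul_of_nonneg_right a2 u2).trans
        (by rw [mul_assoc]; exact mul_le_mul_of_nonneg_left p2 hW)
    have g3 := mul_le_mul g1 g2 (by positivity) (mul_nonneg hW (h0 _))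
    rw [norm_mul, norm_mul]
    calc _ ≤ ‖w (ε + t.1 * I)‖ * ‖wt w (ε + t.2 * I)‖ *
          (C * T * (1 + lam * |t.1|) ^ c * (1 + lam * |t.2|) ^ c / ε ^ 4 * U1 * U2) :=
          mul_le_mul_of_nonneg_left a3 (by positivity)
      _ = C * T / ε ^ 4 * (‖w (ε + t.1 * I)‖ * (1 + lam * |t.1|) ^ c * U1 *
          (‖wt w (ε + t.2 * I)‖ * (1 + lam * |t.2|) ^ c * U2)) := by ring
      _ ≤ C * T / ε ^ 4 * (W₀ * h t.1 * (W₀ * h t.2)) :=
          mul_le_mul_of_nonneg_left g3 (by positivity)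
      _ = _ := by ring
  · rw [integral_const_mul, Measure.volume_eq_prod, integral_prod_mul]
    have hI0 : 0 ≤ ∫ t, h t := integral_nonneg h0
    have hb : 0 < br t₀ := by linarith [tmd_one t₀]
    calc C * T * W₀ ^ 2 / ε ^ 4 * ((∫ t, h t) * ∫ t, h t)
        ≤ C * T * W₀ ^ 2 / ε ^ 4 * ((K * br t₀ ^ 4 * (ε ^ α / ε ^ 2)) *
            (K * br t₀ ^ 4 * (ε ^ α / ε ^ 2))) :=
          mul_le_mul_of_nonneg_left (mul_le_mul hI hI hI0 (by positivity)) (by positivity)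
      _ = _ := by rw [two_mul, pow_add]; field_simp

end Pool.Agent.QM
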