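import Pool.Agent.P.MP_ea46f5_nt.QM.S2

namespace Pool.Agent.QM

open Complex MeasureTheory Finset
open scoped Real ComplexConjugate

theorem tme_odd {P : Finset ℕ} {l : ℕ} (hP : OP P) (h0 : l ≠ 0) (hl : l.primeFactors ⊆ P) :
    Odd l := by
  rcases Nat.even_or_odd l with h | h
  · exact absurd rfl (hP 2 (hl (Nat.mem_primeFactors.2 ⟨Nat.prime_two, h.two_dvd, h0⟩))).2
  · exact h

theorem tme_Zk {ι : Type} [Fintype ι] (P : Finset ℕ) (R : (ℕ → ℤ) → ℝ) (l : ι → ℕ) (r : ι → ℝ)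
    (hR : ∀ x, R x = ∑ i, r i * (mon x (l i) : ℝ)) (k : ℤ) (z s₁ s₂ : ℂ) :
    Zk P R k z s₁ s₂ = ∑ i, (r i : ℂ) * Zk P (fun x => (mon x (l i) : ℝ)) k z s₁ s₂ := by
  unfold Zk Ex
  simp only [hR, ← mul_assoc, ← Finset.sum_mul]
  congr 1
  simp only [Finset.mul_sum, Complex.ofReal_sum, Complex.ofReal_mul]
  rw [Finset.sum_comm]
  refine Finset.sum_congr rfl fun i _ => Finset.sum_congr rfl fun x _ => ?_
  ring

theorem tme_Jk (hINT : INT) (hE1 : E1) {ι : Type} [Fintype ι] (w : ℂ → ℂ) (P : Finset ℕ)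
    (R : (ℕ → ℤ) → ℝ) (l : ι → ℕ) (r : ι → ℝ) (hw : LI w) (hP : OP P)
    (hl : ∀ i, l i ≠ 0 ∧ (l i).primeFactors ⊆ P)
    (hR : ∀ x, R x = ∑ i, r i * (mon x (l i) : ℝ)) (k : ℤ) (z : ℂ) (h0 : 0 ≤ z.re)
    (h6 : z.re ≤ 6) : Jk w P R k z = ∑ i, (r i : ℂ) * J1 w (l i) k z := by
  unfold Jk J1 I2
  have e12 : ((12 : ℝ) : ℂ) = 12 := by norm_num
  simp only [e12]
  simp only [← integral_const_mul]
  rw [← integral_finsetSum]
  · refine integral_congr_ae (Filter.Eventually.of_forall fun t => ?_)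
    have a1 : (12 + t.1 * I : ℂ).re = 12 := by simp
    have a2 : (12 + t.2 * I : ℂ).re = 12 := by simp
    simp only []
    rw [tme_Zk P R l r hR, Finset.mul_sum]
    refine Finset.sum_congr rfl fun i _ => ?_
    rw [hE1 P (l i) k z _ _ hP (hl i).1 (hl i).2 h0 h6 a1 a2]
    ring
  · intro i _
    exact (((hINT w (l i) k hw (hl i).1).1 z h0 h6).const_mul _)

theorem tme_norm_le {α : Type} {f : α → ℂ} {a : ℂ} {c : ℝ} (h : HasSum f a)
    (hc : ∀ s : Finset α, ∑ x ∈ s, ‖f x‖ ≤ c) : ‖a‖ ≤ c :=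
  le_of_tendsto' (Filter.Tendsto.norm h) fun s => (norm_sum_le _ _).trans (hc s)

theorem pTME (hEXA : EXA) (hEXC : EXC) (hINT : INT) (hE1 : E1) (hEXL : EXL) : TME := by
  intro w P B R X K Y σ₁ b hw hX hP hL hR0 h1 h6
  obtain ⟨ι, _, l, r, hl, hR, -⟩ := hL
  have hodd : ∀ i, Odd (l i) := fun i => tme_odd hP (hl i).1 (hl i).2
  have hJ := tme_Jk hINT hE1 w P R l r hw hP hl hR
  have hline : ∀ (k : ℤ) (σ : ℝ), 1 / 2 < σ → σ ≤ 6 → ∀ y : ℝ,
      Kz k X (σ + y * I) * Jk w P R k (σ + y * I) =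
        ∑ i, (r i : ℂ) * (Kz k X (σ + y * I) * J1 w (l i) k (σ + y * I)) := by
    intro k σ a1 a2 y
    have e : (σ + y * I : ℂ).re = σ := by simp
    rw [hJ k _ (by rw [e]; linarith) (by rw [e]; exact a2), Finset.mul_sum]
    exact Finset.sum_congr rfl fun i _ => by ring
  have hY : ∀ (k : ℤ) (σ : ℝ), k ≠ 0 → 1 / 2 < σ → σ ≤ 6 → Yk w P R X k σ =
      ∑ i, (r i : ℂ) * (1 / (2 * π) * Iv σ fun z => Kz k X z * J1 w (l i) k z) := by
    intro k σ hk a1 a2
    unfold Yk Iv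
    simp only [hline k σ a1 a2]
    rw [integral_finsetSum _ fun i _ =>
      ((hINT w (l i) k hw (hl i).1).2 X σ hk hX a1 a2).const_mul _, Finset.mul_sum]
    refine Finset.sum_congr rfl fun i _ => ?_
    rw [integral_const_mul]
    ring
  refine ⟨?_, fun hb F => ?_⟩
  · simp only [hline 1 σ₁ h1 h6]
    exact integrable_finsetSum _ fun i _ =>
      ((hINT w (l i) 1 hw (hl i).1).2 X σ₁ one_ne_zero hX h1 h6).const_mul _
  set σ : ℤ → ℝ := fun k => if k = 1 then σ₁ else sk K k with hσ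
  have hσ1 : ∀ k, 1 / 2 < σ k ∧ σ k ≤ 6 := by
    intro k
    simp only [hσ, sk]
    split_ifs
    · exact ⟨h1, h6⟩
    · norm_num
    · norm_num
  have hσ2 : ∀ k : ℤ, max K 1 < |(k : ℝ)| → σ k = 6 := by
    intro k hk
    have a1 : k ≠ 1 := by
      rintro rfl
      have := le_max_right K 1
      simp at hk
    have a2 : ¬ |(k : ℝ)| ≤ K := not_le.2 ((le_max_left K 1).trans_lt hk)
    simp only [hσ, sk, if_neg a1, if_neg a2]
  have hA : HasSum (fun m : ℤ => ((GX X m * ‖Dw w m‖ ^ 2 * R (jv m) : ℝ) : ℂ))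
      (∑ i, (r i : ℂ) * PsI w X (l i)) := by
    have h := hasSum_sum (s := Finset.univ) fun i _ =>
      (hEXA w X (l i) hw hX (hodd i)).mul_left (r i : ℂ)
    have e : (fun m : ℤ => ((GX X m * ‖Dw w m‖ ^ 2 * R (jv m) : ℝ) : ℂ)) = fun m : ℤ =>
        ∑ i, (r i : ℂ) * ((GX X m * ‖Dw w m‖ ^ 2 * (jacobiSym m (l i) : ℝ) : ℝ) : ℂ) := by
      funext m
      rw [hR, Finset.mul_sum, Complex.ofReal_sum]
      refine Finset.sum_congr rfl fun i _ => ?_
      rw [hEXL.2.2.2.1 m (l i) (hl i).1 (hodd i), ← Complex.ofReal_mul]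
      congr 1
      ring
    rw [e]
    exact h
  have hC : HasSum (fun k : SF => (X : ℂ) * Yk w P R X k (σ k))
      (∑ i, (r i : ℂ) * PsI w X (l i) - X * Jk w P R 1 0) := by
    have h := hasSum_sum (s := Finset.univ) fun i _ =>
      (hEXC w X (max K 1) (l i) σ hw hX (hodd i) hσ1 hσ2).mul_left (r i : ℂ)
    have e : (fun k : SF => (X : ℂ) * Yk w P R X k (σ k)) = fun k : SF => ∑ i, (r i : ℂ) *
        ((X : ℂ) * (1 / (2 * π) * Iv (σ k) fun z => Kz k X z * J1 w (l i) k z)) := by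
      funext k
      rw [hY k (σ k) k.2.ne_zero (hσ1 k).1 (hσ1 k).2, Finset.mul_sum]
      exact Finset.sum_congr rfl fun i _ => by ring
    have e2 : ∑ i, (r i : ℂ) * PsI w X (l i) - X * Jk w P R 1 0 =
        ∑ i, (r i : ℂ) * (PsI w X (l i) - X * J1 w (l i) 1 0) := by
      rw [hJ 1 0 (by simp) (by simp), Finset.mul_sum, ← Finset.sum_sub_distrib]
      exact Finset.sum_congr rfl fun i _ => by ring
    rw [e, e2]
    exact h
  have hX' : ‖(X : ℂ)‖ = X := by rw [Complex.norm_real, Real.norm_of_nonneg hX.le]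
  have hCb := tme_norm_le (c := X * (‖Yk w P R X 1 σ₁‖ + b)) hC fun s => by
    simp only [norm_mul, hX', ← Finset.mul_sum]
    refine mul_le_mul_of_nonneg_left ?_ hX.le
    have e := Finset.sum_map s (Function.Embedding.subtype _) fun k : ℤ => ‖Yk w P R X k (σ k)‖
    simp only [Function.Embedding.coe_subtype] at e
    rw [← e]
    set G := s.map (Function.Embedding.subtype fun k : ℤ => Squarefree k) with hG
    have hsq : SQ (G.erase 1) := by
      intro k hk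
      obtain ⟨a1, a2⟩ := Finset.mem_erase.1 hk
      obtain ⟨k', -, rfl⟩ := Finset.mem_map.1 a2
      exact ⟨k'.2, a1⟩
    have h2 : ∑ k ∈ G.erase 1, ‖Yk w P R X k (σ k)‖ ≤ b := by
      refine le_of_eq_of_le (Finset.sum_congr rfl fun k hk => ?_) (hb _ hsq)
      simp only [hσ, if_neg (Finset.mem_erase.1 hk).1]
    have h3 : ∑ k ∈ G, ‖Yk w P R X k (σ k)‖ ≤ ∑ k ∈ insert 1 (G.erase 1), ‖Yk w P R X k (σ k)‖ :=
      Finset.sum_le_sum_of_subset_of_nonneg (Finset.subset_insert_iff.2 (by simp))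
        fun _ _ _ => norm_nonneg _
    rw [Finset.sum_insert (Finset.notMem_erase _ _)] at h3
    have h4 : σ 1 = σ₁ := by simp only [hσ, if_true]
    rw [h4] at h3
    linarith
  have hre := Complex.hasSum_re hA
  simp only [Complex.ofReal_re] at hre
  have h5 : ∑ m ∈ F, GX X m * ‖Dw w m‖ ^ 2 * R (jv m) ≤ _ := sum_le_hasSum F (fun m _ =>
    mul_nonneg (mul_nonneg (Real.exp_pos _).le (sq_nonneg _)) (hR0 (jv m))) hre
  have h7 := Complex.re_le_norm (∑ i, (r i : ℂ) * PsI w X (l i))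
  have h8 := norm_le_norm_sub_add (∑ i, (r i : ℂ) * PsI w X (l i)) (X * Jk w P R 1 0)
  rw [norm_mul, hX'] at h8
  linarith

end Pool.Agent.QM
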