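import Pool.Agent.P.MP_ea46f5_nt.QM.S2

namespace Pool.Agent.QM

open Complex MeasureTheory Finset
open scoped Real ComplexConjugate

theorem tq_GX (X : ℝ) (k : ℤ) (hk : k ∈ Sq X) (hX : 1 ≤ X) : 1 ≤ Real.exp π * GX X k := by
  classical
  have h : |(k : ℝ)| ≤ X := by
    unfold Sq at hk
    exact (Finset.mem_filter.1 hk).2.2.2.2
  have h2 : (k : ℝ) ^ 2 ≤ X ^ 2 := by
    rw [← sq_abs (k : ℝ)]
    exact pow_le_pow_left₀ (abs_nonneg _) h 2
  have hX2 : 0 < X ^ 2 := by positivity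
  unfold GX
  rw [← Real.exp_add]
  apply Real.one_le_exp
  have h3 : (k : ℝ) ^ 2 / X ^ 2 ≤ 1 := (div_le_one hX2).2 h2
  have h4 : -π * (k : ℝ) ^ 2 / X ^ 2 = -(π * ((k : ℝ) ^ 2 / X ^ 2)) := by ring
  rw [h4]
  have := mul_le_mul_of_nonneg_left h3 Real.pi_pos.le
  linarith

theorem tq_br (t : ℝ) : 0 < br t := by unfold br; positivity

theorem tq_M {A : ℕ} {K M : ℝ} (h : Dual A K M) : 0 ≤ M := by
  have := h ∅ (fun k hk => by simp at hk) 0
  simpa [br] using this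

theorem tq_Y {P : Finset ℕ} {B : ℕ} {R : (ℕ → ℤ) → ℝ} {Y : ℝ} (h : HasLen P B R Y) : 0 ≤ Y := by
  obtain ⟨ι, _, l, r, -, -, h3⟩ := h
  exact le_trans (Finset.sum_nonneg fun i _ => by positivity) h3

theorem tq_far0 {φ : ℂ → ℂ} {ε Δ V : ℝ} (hε : 0 < ε) (hε1 : ε ≤ 1) (hΔ : 0 ≤ Δ)
    (h : FarP φ ε Δ V) : FarP φ ε 0 V := by
  have hV : 0 ≤ V := by
    have h1 := h.2 1 (by simp; linarith) (by simp)
    have h2 : 0 ≤ V * Real.exp (-Δ * (1 : ℂ).re) := le_trans (norm_nonneg _) h1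
    exact nonneg_of_mul_nonneg_left h2 (Real.exp_pos _)
  refine ⟨h.1, fun s hs1 hs2 => le_trans (h.2 s hs1 hs2) ?_⟩
  apply mul_le_mul_of_nonneg_left _ hV
  apply Real.exp_le_exp.2
  have : 0 ≤ Δ * s.re := mul_nonneg hΔ (by linarith)
  linarith

theorem tq_arith (X Δ T Y M V₀ V₁ D b : ℝ) (α : ℕ) (hX : 1 ≤ X) (hL : 100 ≤ Real.log X)
    (hΔ : 0 ≤ Δ) (hT : 0 ≤ T) (hY : 0 ≤ Y) (hM : 0 ≤ M) (hb : 0 ≤ b) :
    X * T * (D * V₀) ^ 2 * (1 / Real.log X) ^ (2 * α) / (1 / Real.log X) ^ 8 +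
      Y * (D * V₁) ^ 2 * (X / (X * Real.exp (-Δ)) * M * b +
        (X * Real.exp (-Δ)) ^ (3 * (1 / Real.log X)) * √(X * (X * Real.exp (-Δ))) /
          (1 / Real.log X) ^ 5 +
        (X * Real.exp (-Δ)) ^ (3 * (1 / Real.log X)) * √X / (1 / Real.log X) ^ 11) ≤
    Real.exp 3 * D ^ 2 * (X * T * V₀ ^ 2 * Real.log X ^ 8 / Real.log X ^ (2 * α) + Y * V₁ ^ 2 *
        (Real.exp Δ * M * b + Real.log X ^ 5 * X * Real.exp (-Δ / 2) +
          Real.log X ^ 11 * √X)) := by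
  have hX0 : 0 < X := by linarith
  set L := Real.log X with hLdef
  have hL0 : 0 < L := by linarith
  have he : 1 ≤ Real.exp 3 := Real.one_le_exp (by norm_num)
  have hN : (X * Real.exp (-Δ)) ^ (3 * (1 / L)) ≤ Real.exp 3 := by
    have h1 : X * Real.exp (-Δ) ≤ X :=
      mul_le_of_le_one_right hX0.le (Real.exp_le_one_iff.2 (by linarith))
    have h2 : (X * Real.exp (-Δ)) ^ (3 * (1 / L)) ≤ X ^ (3 * (1 / L)) :=
      Real.rpow_le_rpow (by positivity) h1 (by positivity)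
    have h3 : X ^ (3 * (1 / L)) = Real.exp 3 := by
      rw [Real.rpow_def_of_pos hX0, ← hLdef]
      congr 1
      field_simp
    exact h3 ▸ h2
  have hs : √(X * (X * Real.exp (-Δ))) = X * Real.exp (-Δ / 2) := by
    have h1 : X * (X * Real.exp (-Δ)) = (X * Real.exp (-Δ / 2)) ^ 2 := by
      have : Real.exp (-Δ) = Real.exp (-Δ / 2) ^ 2 := by
        rw [← Real.exp_nat_mul]; congr 1; push_cast; ring
      rw [this]; ring
    rw [h1, Real.sqrt_sq (by positivity)]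
  have hq : X / (X * Real.exp (-Δ)) = Real.exp Δ := by
    rw [Real.exp_neg]; field_simp
  rw [hs, hq]
  set u := (X * Real.exp (-Δ)) ^ (3 * (1 / L)) with hu
  have hu0 : 0 ≤ u := by rw [hu]; positivity
  have e1 : X * T * (D * V₀) ^ 2 * (1 / L) ^ (2 * α) / (1 / L) ^ 8 =
      D ^ 2 * (X * T * V₀ ^ 2 * L ^ 8 / L ^ (2 * α)) := by
    rw [one_div, inv_pow, inv_pow]; field_simp
  have e2 : u * (X * Real.exp (-Δ / 2)) / (1 / L) ^ 5 = u * (L ^ 5 * X * Real.exp (-Δ / 2)) := by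
    rw [one_div, inv_pow]; field_simp
  have e3 : u * √X / (1 / L) ^ 11 = u * (L ^ 11 * √X) := by
    rw [one_div, inv_pow]; field_simp
  rw [e1, e2, e3]
  set a1 := X * T * V₀ ^ 2 * L ^ 8 / L ^ (2 * α) with ha1
  set a2 := Real.exp Δ * M * b with ha2
  set a3 := L ^ 5 * X * Real.exp (-Δ / 2) with ha3
  set a4 := L ^ 11 * √X with ha4
  have h1 : 0 ≤ a1 := by rw [ha1]; positivity
  have h2 : 0 ≤ a2 := by rw [ha2]; positivity
  have h3 : 0 ≤ a3 := by rw [ha3]; positivity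
  have h4 : 0 ≤ a4 := by rw [ha4]; positivity
  have k1 : a1 ≤ Real.exp 3 * a1 := le_mul_of_one_le_left h1 he
  have k2 : a2 ≤ Real.exp 3 * a2 := le_mul_of_one_le_left h2 he
  have k3 : u * a3 ≤ Real.exp 3 * a3 := mul_le_mul_of_nonneg_right hN h3
  have k4 : u * a4 ≤ Real.exp 3 * a4 := mul_le_mul_of_nonneg_right hN h4
  have k5 : Y * V₁ ^ 2 * (a2 + u * a3 + u * a4) ≤
      Y * V₁ ^ 2 * (Real.exp 3 * a2 + Real.exp 3 * a3 + Real.exp 3 * a4) :=
    mul_le_mul_of_nonneg_left (by linarith) (by positivity)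
  have k6 : D ^ 2 * (a1 + Y * V₁ ^ 2 * (a2 + u * a3 + u * a4)) ≤
      D ^ 2 * (Real.exp 3 * a1 +
        Y * V₁ ^ 2 * (Real.exp 3 * a2 + Real.exp 3 * a3 + Real.exp 3 * a4)) :=
    mul_le_mul_of_nonneg_left (by linarith) (by positivity)
  calc D ^ 2 * a1 + Y * (D * V₁) ^ 2 * (a2 + u * a3 + u * a4)
      = D ^ 2 * (a1 + Y * V₁ ^ 2 * (a2 + u * a3 + u * a4)) := by ring
    _ ≤ _ := k6
    _ = _ := by ring

theorem pTQ (hTM : TM) (hWT : WT) (hSQD : SQD) : TQ := by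
  obtain ⟨C₀, B, c, hB, hTM⟩ := hTM
  obtain ⟨h, Cw, hCw, hWT⟩ := hWT
  obtain ⟨Cs, hCs, hSQD⟩ := hSQD
  refine ⟨C₀, B, c + 2 * h, hB, fun A => ?_⟩
  obtain ⟨C, hC, hTM⟩ := hTM A
  refine ⟨Cs * (Real.exp π * C * Real.exp 3 * Cw ^ 2), by positivity, ?_⟩
  intro φ P R lam T Y X Δ t V₀ V₁ M α hTw hX hL hlam hΔ hΔL hα hV₀ hFar hNear hDual
  have hX0 : 0 < X := by linarith
  have hL0 : 0 < Real.log X := by linarith
  have hε : 0 < 1 / Real.log X := by positivity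
  have hε1 : 1 / Real.log X ≤ 1 / 100 := one_div_le_one_div_of_le (by norm_num) hL
  have hεl : 1 / Real.log X * lam ≤ 1 := by
    rw [one_div, inv_mul_le_iff₀ hL0]; linarith
  have hN : 1 ≤ X * Real.exp (-Δ) := by
    have h1 : X * Real.exp (-Δ) = Real.exp (Real.log X - Δ) := by
      rw [sub_eq_add_neg, Real.exp_add, Real.exp_log hX0]
    rw [h1]; exact Real.one_le_exp (by linarith)
  have hK : (X * Real.exp (-Δ)) ^ 2 / X = X * Real.exp (-2 * Δ) := by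
    have : Real.exp (-2 * Δ) = Real.exp (-Δ) ^ 2 := by
      rw [← Real.exp_nat_mul]; congr 1; push_cast; ring
    rw [this]; field_simp
  have hM := tq_M hDual
  have hY := tq_Y hTw.len
  have hbr := tq_br t
  set S := X * T * V₀ ^ 2 * Real.log X ^ 8 / Real.log X ^ (2 * α) + Y * V₁ ^ 2 *
        (Real.exp Δ * M * br t ^ A + Real.log X ^ 5 * X * Real.exp (-Δ / 2) +
          Real.log X ^ 11 * √X) with hS
  have key := hSQD φ (fun k => R (jv k)) X t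
    (Real.exp π * C * Real.exp 3 * Cw ^ 2 * br t ^ (c + 2 * h) * S) (1 / Real.log X) V₁ hX
    (by linarith) (tq_far0 hε (by linarith) hΔ hFar) (fun k => hTw.pos _) ?_
  · calc _ ≤ _ := key
      _ = _ := by ring
  intro a γ y ha hγ
  obtain ⟨hF, hNr⟩ := hWT a γ t y X Δ lam V₀ V₁ φ α C₀ ha hγ hL hX hTw.lam0 hV₀
  have h1 := hTM (ww a γ t (phy φ y) X) P R lam T Y (1 / Real.log X) X (X * Real.exp (-Δ)) t
    (Cw * br t ^ h * V₀ * Real.exp (-|y|)) (Cw * br t ^ h * V₁ * Real.exp (-|y|)) M α (Sq X)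
    hTw hε hε1 hεl hX hN hα (by positivity) (hF hFar) (hNr hNear) (hK ▸ hDual)
  have h2 := tq_arith X Δ T Y M V₀ V₁ (Cw * br t ^ h * Real.exp (-|y|)) (br t ^ A) α hX hL hΔ
    hTw.T0 hY hM (by positivity)
  have e0 : Cw * br t ^ h * V₀ * Real.exp (-|y|) = Cw * br t ^ h * Real.exp (-|y|) * V₀ := by ring
  have e1 : Cw * br t ^ h * V₁ * Real.exp (-|y|) = Cw * br t ^ h * Real.exp (-|y|) * V₁ := by ring
  rw [e0, e1] at h1
  rw [← hS] at h2
  have h3 := le_trans h1 (mul_le_mul_of_nonneg_left h2 (by positivity))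
  have e2 : Real.exp (-2 * |y|) = Real.exp (-|y|) ^ 2 := by
    rw [← Real.exp_nat_mul]; congr 1; push_cast; ring
  calc ∑ k ∈ Sq X, R (jv k) * ‖Dw (ww a γ t (phy φ y) X) k‖ ^ 2
      ≤ ∑ k ∈ Sq X, Real.exp π *
          (GX X k * ‖Dw (ww a γ t (phy φ y) X) k‖ ^ 2 * R (jv k)) := by
        refine Finset.sum_le_sum fun k hk => ?_
        have h4 := tq_GX X k hk hX
        have h5 : 0 ≤ R (jv k) * ‖Dw (ww a γ t (phy φ y) X) k‖ ^ 2 :=
          mul_nonneg (hTw.pos _) (by positivity)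
        calc _ ≤ (Real.exp π * GX X k) * (R (jv k) * ‖Dw (ww a γ t (phy φ y) X) k‖ ^ 2) :=
              le_mul_of_one_le_left h5 h4
          _ = _ := by ring
    _ = Real.exp π * ∑ k ∈ Sq X, GX X k * ‖Dw (ww a γ t (phy φ y) X) k‖ ^ 2 * R (jv k) := by
        rw [Finset.mul_sum]
    _ ≤ Real.exp π * (C * br t ^ c *
          (Real.exp 3 * (Cw * br t ^ h * Real.exp (-|y|)) ^ 2 * S)) :=
        mul_le_mul_of_nonneg_left h3 (Real.exp_pos _).le
    _ = _ := by rw [e2]; ring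

end Pool.Agent.QM
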