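import Pool.Agent.P.MP_ea46f5_nt.QM.S2

namespace Pool.Agent.QM

open Complex MeasureTheory Finset
open scoped Real ComplexConjugate

lemma tqf_dual_nonneg {A : ℕ} {K M : ℝ} (h : Dual A K M) : 0 ≤ M := by
  have := h ∅ (by intro k hk; simp at hk) 0
  simpa [br] using this

lemma tqf_rpow {X : ℝ} (hX : 1 ≤ X) (hL : 100 ≤ Real.log X) :
    X ^ (3 * (1 / Real.log X)) = Real.exp 3 := by
  rw [Real.rpow_def_of_pos (by linarith)]
  congr 1
  have : Real.log X ≠ 0 := by linarith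
  field_simp

lemma tqf_sq {X : ℝ} {k : ℤ} (hk : k ∈ Sq X) : Squarefree k ∧ |(k : ℝ)| ≤ X := by
  classical
  simp only [Sq, Finset.mem_filter] at hk
  exact ⟨hk.2.1, hk.2.2.2.2⟩

lemma tqf_near {φ : ℂ → ℂ} {ε t V : ℝ} {α : ℕ} (C₀ : ℕ) (h : NearP φ ε 0 t α 0 V) :
    NearP φ ε 0 t α C₀ V := by
  intro s τ hs
  have := h s τ hs
  simpa using this

/-- The arithmetic of the final bound. -/
lemma tqf_arith {X R L M V₀ V₁ u e E bA : ℝ} {α : ℕ} (hX : 1 ≤ X) (hR : 200 ≤ R) (hL : 100 ≤ L)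
    (hM : 0 ≤ M) (hE : 1 ≤ E) (hb : 0 ≤ bA) :
    X * R ^ 2 * 1 * (u * V₀ * e) ^ 2 * (1 / L) ^ (2 * α) / (1 / L) ^ 8 +
      1 * (u * V₁ * e) ^ 2 * (X * R ^ 2 / X * M * bA + E * √(X * R ^ 2 * X) / (1 / L) ^ 5 +
        E * √(X * R ^ 2) / (1 / L) ^ 11) ≤
    E * u ^ 2 * (X * R ^ 2 * V₀ ^ 2 * L ^ 8 / L ^ (2 * α) + V₁ ^ 2 *
        (R ^ 2 * M * bA + L ^ 5 * X * R + L ^ 11 * √X * R)) * e ^ 2 := by
  have hX0 : 0 < X := by linarith
  have hR0 : 0 < R := by linarith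
  have hL0 : 0 < L := by linarith
  have h1 : √(X * R ^ 2 * X) = X * R := by
    rw [show X * R ^ 2 * X = (X * R) ^ 2 by ring]
    exact Real.sqrt_sq (by positivity)
  have h2 : √(X * R ^ 2) = √X * R := by
    rw [Real.sqrt_mul hX0.le, Real.sqrt_sq hR0.le]
  have h3 : X * R ^ 2 * 1 * (u * V₀ * e) ^ 2 * (1 / L) ^ (2 * α) / (1 / L) ^ 8 =
      u ^ 2 * e ^ 2 * (X * R ^ 2 * V₀ ^ 2 * L ^ 8 / L ^ (2 * α)) := by
    rw [one_div, inv_pow, inv_pow]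
    field_simp
  have h4 : 1 * (u * V₁ * e) ^ 2 * (X * R ^ 2 / X * M * bA + E * (X * R) / (1 / L) ^ 5 +
        E * (√X * R) / (1 / L) ^ 11) =
      u ^ 2 * e ^ 2 * (V₁ ^ 2 * (R ^ 2 * M * bA + E * (L ^ 5 * X * R) + E * (L ^ 11 * √X * R))) := by
    field_simp
  rw [h1, h2, h3, h4]
  set a := X * R ^ 2 * V₀ ^ 2 * L ^ 8 / L ^ (2 * α) with ha
  set b := R ^ 2 * M * bA with hb'
  set c := L ^ 5 * X * R
  set d := L ^ 11 * √X * R
  have ha0 : 0 ≤ a := by positivity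
  have hb0 : 0 ≤ b := by positivity
  have hk : 0 ≤ u ^ 2 * e ^ 2 := by positivity
  have h5 : a + V₁ ^ 2 * (b + E * c + E * d) ≤ E * (a + V₁ ^ 2 * (b + c + d)) := by
    have h6 : 0 ≤ (E - 1) * a := mul_nonneg (by linarith) ha0
    have h7 : 0 ≤ (E - 1) * (V₁ ^ 2 * b) := mul_nonneg (by linarith) (by positivity)
    nlinarith
  calc u ^ 2 * e ^ 2 * a + u ^ 2 * e ^ 2 * (V₁ ^ 2 * (b + E * c + E * d))
      = u ^ 2 * e ^ 2 * (a + V₁ ^ 2 * (b + E * c + E * d)) := by ring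
    _ ≤ u ^ 2 * e ^ 2 * (E * (a + V₁ ^ 2 * (b + c + d))) := mul_le_mul_of_nonneg_left h5 hk
    _ = E * u ^ 2 * (a + V₁ ^ 2 * (b + c + d)) * e ^ 2 := by ring

theorem pTQF (hTM : TM) (hWT : WT) (hSQD : SQD) (hFL : FL) (hFW : FW) (hTW0 : TW0) : TQF := by
  obtain ⟨C₀, B, c, -, hTM⟩ := hTM
  obtain ⟨h, Cw, hCw, hWT⟩ := hWT
  obtain ⟨Cs, hCs, hSQD⟩ := hSQD
  obtain ⟨Cf, R₀, hCf, hR₀, hFL⟩ := hFL
  obtain ⟨-, hF2, -, hF4, hF5⟩ := hFW
  refine ⟨c + 2 * h, R₀, hR₀, fun A => ?_⟩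
  obtain ⟨C, hC, hTM⟩ := hTM A
  refine ⟨Cs * (Cf * C * Real.exp 3 * Cw ^ 2), by positivity, ?_⟩
  intro φ X R t V₀ V₁ M α hX hL hR hα hV₀ hFar hNear hDual
  have hX0 : 0 < X := by linarith
  have hR2 : 200 ≤ R := le_trans hR₀ hR
  have hR0 : 0 < R := by linarith
  have hL0 : 0 < Real.log X := by linarith
  have hε0 : 0 < 1 / Real.log X := by positivity
  have hε1 : 1 / Real.log X ≤ 1 / 100 := one_div_le_one_div_of_le (by norm_num) hL
  have hM : 0 ≤ M := tqf_dual_nonneg hDual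
  have hbr : 0 ≤ br t := by unfold br; positivity
  have hlR : 0 ≤ Real.log R / R := div_nonneg (Real.log_nonneg (by linarith)) hR0.le
  have hE : 1 ≤ Real.exp 3 := Real.one_le_exp (by norm_num)
  set S := X * R ^ 2 * V₀ ^ 2 * Real.log X ^ 8 / Real.log X ^ (2 * α) + V₁ ^ 2 *
    (R ^ 2 * M * br t ^ A + Real.log X ^ 5 * X * R + Real.log X ^ 11 * √X * R) with hS
  have key := hSQD φ (fun _ => 1) X t
    (Cf * C * Real.exp 3 * Cw ^ 2 * br t ^ (c + 2 * h) * (Real.log R / R) * S)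
    (1 / Real.log X) V₁ hX (by linarith) hFar (fun _ => zero_le_one) ?_
  · simp only [one_mul] at key
    calc _ ≤ _ := key
      _ = _ := by ring
  intro a γ y ha hγ
  obtain ⟨hw1, hw2⟩ := hWT a γ t y X 0 0 V₀ V₁ φ α C₀ ha hγ hL hX le_rfl hV₀
  have hfar := hw1 hFar
  have hnear := hw2 (tqf_near C₀ hNear)
  rw [neg_zero, Real.exp_zero, mul_one] at hfar
  have hLI := (hF2 _ _ _ _ _ hε0 (by linarith) hfar).2.1
  have hD : Dual A (X ^ 2 / (X * R ^ 2)) M := by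
    rw [show X ^ 2 / (X * R ^ 2) = X / R ^ 2 by field_simp]
    exact hDual
  have hXR : 1 ≤ X * R ^ 2 := by nlinarith
  have h1 := hFL (ww a γ t (phy φ y) X) X R _ (Sq X) hLI hX0 hR (fun k hk => tqf_sq hk)
    (fun b hb F' => by
      have h2 := hTM _ ∅ (fun _ => 1) 0 1 1 (1 / Real.log X) (X * R ^ 2) X t _ _ M α F' (hTW0 B)
        hε0 hε1 (by simp) hXR hX hα (by positivity) (hF4 _ _ _ _ _ b hε0 hb hfar)
        (hF5 _ _ _ _ _ b _ _ hε0 hb hnear) hD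
      simp only [mul_one (_ * ‖_‖ ^ 2)] at h2
      exact h2)
  rw [tqf_rpow hX hL] at h1
  have h3 := tqf_arith (X := X) (R := R) (L := Real.log X) (M := M) (V₀ := V₀) (V₁ := V₁)
    (u := Cw * br t ^ h) (e := Real.exp (-|y|)) (E := Real.exp 3) (bA := br t ^ A) (α := α)
    hX hR2 hL hM hE (by positivity)
  have h4 : Real.exp (-|y|) ^ 2 = Real.exp (-2 * |y|) := by
    rw [← Real.exp_nat_mul]
    congr 1
    push_cast
    ring
  rw [h4, ← hS] at h3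
  simp only [one_mul ((‖_‖ : ℝ) ^ 2)]
  calc _ ≤ _ := h1
    _ ≤ Cf * (Real.log R / R) * (C * br t ^ c *
        (Real.exp 3 * (Cw * br t ^ h) ^ 2 * S * Real.exp (-2 * |y|))) :=
      mul_le_mul_of_nonneg_left (mul_le_mul_of_nonneg_left h3 (by positivity)) (by positivity)
    _ = _ := by ring

end Pool.Agent.QM
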