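import Pool.Agent.P.MP_ea46f5_nt.QM.S2

namespace Pool.Agent.QM

open Complex MeasureTheory Finset
open scoped Real ComplexConjugate

lemma wt_gauss (u : ℂ) (y : ℝ) (h0 : 0 ≤ u.re) (h1 : u.re ≤ 13) :
    Real.exp (-u.im ^ 2 / 2) * ‖cexp ((u + y * I) ^ 2 / 4)‖ ≤
      Real.exp 46 * (Real.exp (-|u.im|) * Real.exp (-|y|)) := by
  have e : ((u + y * I) ^ 2 / 4).re = (u.re ^ 2 - (u.im + y) ^ 2) / 4 := by
    have : ((u + y * I) ^ 2 / 4) = ((1 / 4 : ℝ) : ℂ) * ((u + y * I) * (u + y * I)) := by
      push_cast; ring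
    rw [this, Complex.re_ofReal_mul]
    simp only [mul_re, add_re, ofReal_re, I_re, mul_zero, ofReal_im, I_im, mul_one, sub_self,
      add_zero, add_im, mul_im]
    ring
  rw [Complex.norm_exp, e, ← Real.exp_add, ← Real.exp_add, ← Real.exp_add]
  apply Real.exp_le_exp.2
  have h2 : |y| ≤ |u.im + y| + |u.im| := by
    have := abs_sub (u.im + y) u.im
    rwa [add_sub_cancel_left] at this
  have h3 : |u.im| ^ 2 = u.im ^ 2 := sq_abs _
  have h4 : |u.im + y| ^ 2 = (u.im + y) ^ 2 := sq_abs _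
  have h5 := sq_nonneg (|u.im| - 2)
  have h6 := sq_nonneg (|u.im + y| - 2)
  have h7 : u.re ^ 2 ≤ 169 := by nlinarith
  nlinarith

/-- The pointwise bound behind the far and the near bound. -/
lemma wt_master {C : ℝ} {a : ℕ} {γ : ℤ} {t : ℝ} (hC : 0 ≤ C)
    (hb : ∀ s : ℂ, -(1 / 4) ≤ s.re → s.re ≤ 13 → ‖hh a γ t s‖ ≤ C * Real.exp (-s.im ^ 2 / 2))
    (φ : ℂ → ℂ) (y : ℝ) {X : ℝ} (hX : 0 < X) {s : ℂ} (h0 : 0 ≤ s.re) (h1 : s.re ≤ 13) :
    ‖ww a γ t (phy φ y) X s‖ ≤ C * Real.exp 46 * Real.exp (-|y|) * Real.exp (-|s.im - t|) *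
      X ^ s.re * ‖φ (s - t * I)‖ := by
  have hre : (s - t * I).re = s.re := by simp
  have him : (s - t * I).im = s.im - t := by simp
  have h2 := hb (s - t * I) (by rw [hre]; linarith) (by rw [hre]; exact h1)
  have h3 := wt_gauss (s - t * I) y (by rw [hre]; exact h0) (by rw [hre]; exact h1)
  unfold ww phy
  rw [norm_mul, norm_mul, norm_mul, Complex.norm_cpow_eq_rpow_re_of_pos hX, hre]
  rw [him] at h2 h3
  have hp : 0 ≤ X ^ s.re := by positivity
  calc ‖hh a γ t (s - t * I)‖ * X ^ s.re *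
        (‖φ (s - t * I)‖ * ‖cexp ((s - t * I + y * I) ^ 2 / 4)‖)
      ≤ C * Real.exp (-(s.im - t) ^ 2 / 2) * X ^ s.re *
        (‖φ (s - t * I)‖ * ‖cexp ((s - t * I + y * I) ^ 2 / 4)‖) := by gcongr
    _ = C * X ^ s.re * ‖φ (s - t * I)‖ *
        (Real.exp (-(s.im - t) ^ 2 / 2) * ‖cexp ((s - t * I + y * I) ^ 2 / 4)‖) := by ring
    _ ≤ C * X ^ s.re * ‖φ (s - t * I)‖ *
        (Real.exp 46 * (Real.exp (-|s.im - t|) * Real.exp (-|y|))) := by gcongr
    _ = _ := by ring

theorem pWT (hHB : HB) : WT := by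
  obtain ⟨h, C, hC, hH⟩ := hHB
  refine ⟨h, C * Real.exp 46 * Real.exp 3, by positivity, ?_⟩
  intro a γ t y X Δ lam V₀ V₁ φ α C₀ ha hγ hL hX hlam hV
  obtain ⟨hb, ⟨g, hg, hgs⟩, _⟩ := hH a γ t ha hγ
  have hX0 : 0 < X := by linarith
  have hL0 : 0 < Real.log X := by linarith
  have he : 0 < 1 / Real.log X := by positivity
  have he1 : 1 / Real.log X ≤ 1 / 100 := by
    apply one_div_le_one_div_of_le (by norm_num) hL
  have hbr : 0 < br t := by unfold br; positivity
  have hC' : 0 ≤ C * br t ^ h := by positivity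
  have h3 : (1 : ℝ) ≤ Real.exp 3 := Real.one_le_exp (by norm_num)
  have hre : ∀ s : ℂ, (s - t * I).re = s.re := by intro s; simp
  constructor
  · rintro ⟨hd, hf⟩
    refine ⟨⟨fun s => g (s - t * I) * (X : ℂ) ^ (s - t * I) * phy φ y (s - t * I), ?_, ?_⟩, ?_⟩
    · intro s hs
      have hs' : 0 < s.re := hs
      apply DifferentiableAt.differentiableWithinAt
      have hl : DifferentiableAt ℂ (fun s : ℂ => s - t * I) s := by fun_prop
      have h1 : DifferentiableAt ℂ g (s - t * I) := by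
        apply hg.differentiableAt
        apply (isOpen_lt continuous_const Complex.continuous_re).mem_nhds
        show -(1 / 2) < (s - t * I).re
        rw [hre]; linarith
      have h2 : DifferentiableAt ℂ φ (s - t * I) := by
        apply hd.differentiableAt
        apply (isOpen_lt continuous_const Complex.continuous_re).mem_nhds
        show 0 < (s - t * I).re
        rw [hre]; exact hs'
      have h4 : DifferentiableAt ℂ (fun s : ℂ => (X : ℂ) ^ (s - t * I)) s :=
        DifferentiableAt.const_cpow hl (Or.inl (by exact_mod_cast hX0.ne'))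
      have h5 : DifferentiableAt ℂ (fun s : ℂ => phy φ y (s - t * I)) s := by
        unfold phy
        exact (DifferentiableAt.comp (f := fun s : ℂ => s - t * I) s h2 hl).mul (by fun_prop)
      exact ((DifferentiableAt.comp (f := fun s : ℂ => s - t * I) s h1 hl).mul h4).mul h5
    · intro s _
      unfold ww
      rw [hgs]
      ring
    · intro s h0 h1
      have h0' : 0 ≤ s.re := by linarith
      have h2 := hf (s - t * I) (by rw [hre]; exact h0) (by rw [hre]; exact h1)
      rw [hre] at h2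
      have hV1 : 0 ≤ V₁ := by
        have h4 := (norm_nonneg _).trans h2
        exact nonneg_of_mul_nonneg_left h4 (Real.exp_pos _)
      refine (wt_master hC' hb φ y hX0 h0' h1).trans ?_
      have e : (X * Real.exp (-Δ)) ^ s.re = X ^ s.re * Real.exp (-Δ * s.re) := by
        rw [Real.mul_rpow hX0.le (Real.exp_pos _).le, ← Real.exp_mul]
      rw [e]
      have hp : 0 ≤ X ^ s.re := by positivity
      calc C * br t ^ h * Real.exp 46 * Real.exp (-|y|) * Real.exp (-|s.im - t|) * X ^ s.re *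
            ‖φ (s - t * I)‖
          ≤ C * br t ^ h * Real.exp 46 * Real.exp (-|y|) * Real.exp (-|s.im - t|) * X ^ s.re *
            (V₁ * Real.exp (-Δ * s.re)) := by gcongr
        _ = C * Real.exp 46 * 1 * br t ^ h * V₁ * Real.exp (-|y|) *
            (X ^ s.re * Real.exp (-Δ * s.re)) * Real.exp (-|s.im - t|) := by ring
        _ ≤ _ := by gcongr
  · intro hn s τ hs
    have h2 := hn s τ hs
    have hr := (Complex.abs_re_le_norm _).trans hs
    have hi := (Complex.abs_im_le_norm _).trans hs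
    simp only [sub_re, add_re, ofReal_re, mul_re, I_re, mul_zero, ofReal_im, I_im, mul_one,
      sub_self, add_zero] at hr
    simp only [sub_im, add_im, ofReal_im, mul_im, ofReal_re, I_im, mul_one, I_re, mul_zero,
      add_zero, zero_add] at hi
    rw [abs_le] at hr
    have h0' : 0 ≤ s.re := by linarith [hr.1]
    have h1 : s.re ≤ 13 := by linarith [hr.2]
    refine (wt_master hC' hb φ y hX0 h0' h1).trans ?_
    have h4 : X ^ s.re ≤ Real.exp 2 := by
      rw [Real.rpow_def_of_pos hX0]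
      apply Real.exp_le_exp.2
      have h5 : s.re ≤ 2 * (1 / Real.log X) := by linarith [hr.2]
      calc Real.log X * s.re ≤ Real.log X * (2 * (1 / Real.log X)) := by gcongr
        _ = 2 := by field_simp
    have h6 : Real.exp (-|s.im - t|) ≤
        Real.exp 1 * (Real.exp (-|τ - t|) + Real.exp (-|τ + t|)) := by
      have h7 : Real.exp (-|s.im - t|) ≤ Real.exp 1 * Real.exp (-|τ - t|) := by
        rw [← Real.exp_add]
        apply Real.exp_le_exp.2
        have h8 : |τ - t| ≤ |τ - s.im| + |s.im - t| := abs_sub_le _ _ _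
        rw [abs_sub_comm τ s.im] at h8
        linarith
      have h9 : 0 ≤ Real.exp 1 * Real.exp (-|τ + t|) := by positivity
      linarith
    have e3 : Real.exp 3 = Real.exp 1 * Real.exp 2 := by
      rw [← Real.exp_add]; norm_num
    have hq : 0 < 1 + lam * |τ| := by positivity
    calc C * br t ^ h * Real.exp 46 * Real.exp (-|y|) * Real.exp (-|s.im - t|) * X ^ s.re *
          ‖φ (s - t * I)‖
        ≤ C * br t ^ h * Real.exp 46 * Real.exp (-|y|) *
          (Real.exp 1 * (Real.exp (-|τ - t|) + Real.exp (-|τ + t|))) * Real.exp 2 *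
          (V₀ * ‖((1 / Real.log X : ℝ) + τ * I : ℂ)‖ ^ α / (1 + lam * |τ|) ^ C₀) := by gcongr
      _ = _ := by rw [e3]; ring

end Pool.Agent.QM
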