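import Pool.Agent.P.MP_ea46f5_nt.QM.S1

namespace Pool.Agent.QM

open Complex MeasureTheory Finset
open scoped Real ComplexConjugate

theorem zda_norm_xs (s : ℂ) (p : ℕ) (hp : 0 < p) :
    ‖xs s p‖ = (p : ℝ) ^ (-(1 / 2 + s.re)) := by
  unfold xs
  rw [Complex.norm_natCast_cpow_of_pos hp]
  congr 1
  simp

theorem zda_xs_le (s : ℂ) (p : ℕ) (hp : 3 ≤ p) (hs : 0 ≤ s.re) : ‖xs s p‖ ≤ 3 / 5 := by
  rw [zda_norm_xs s p (by omega)]
  have h3 : (3 : ℝ) ≤ p := by exact_mod_cast hp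
  have h1 : (p : ℝ) ^ (-(1 / 2 + s.re)) ≤ (p : ℝ) ^ (-(1 / 2 : ℝ)) :=
    Real.rpow_le_rpow_of_exponent_le (by linarith) (by linarith)
  refine h1.trans ?_
  rw [Real.rpow_neg (by linarith), ← Real.sqrt_eq_rpow]
  have h2 : (5 / 3 : ℝ) ≤ √(p : ℝ) := Real.le_sqrt_of_sq_le (by linarith)
  calc (√(p : ℝ))⁻¹ ≤ (5 / 3 : ℝ)⁻¹ := inv_anti₀ (by norm_num) h2
    _ = 3 / 5 := by norm_num

theorem zda_den (s : ℂ) (p : ℕ) (y : ℤ) (hp : 3 ≤ p) (hs : 0 ≤ s.re) (hy : y ∈ T3) :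
    2 / 5 ≤ ‖1 - xs s p * y‖ := by
  have h1 := zda_xs_le s p hp hs
  have h2 : ‖(y : ℂ)‖ ≤ 1 := by
    simp only [T3, mem_insert, mem_singleton] at hy
    rcases hy with rfl | rfl | rfl <;> simp
  have h3 : ‖xs s p * y‖ ≤ 3 / 5 := by
    rw [norm_mul]
    calc ‖xs s p‖ * ‖(y : ℂ)‖ ≤ 3 / 5 * 1 := mul_le_mul h1 h2 (norm_nonneg _) (by norm_num)
      _ = 3 / 5 := by norm_num
  have h4 := norm_sub_norm_le (1 : ℂ) (xs s p * y)
  rw [norm_one] at h4
  linarith

theorem zda_Fy_le (s₁ s₂ : ℂ) (p : ℕ) (y : ℤ) (hp : 3 ≤ p) (h₁ : 0 ≤ s₁.re) (h₂ : 0 ≤ s₂.re)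
    (hy : y ∈ T3) : ‖Fy s₁ s₂ p y‖ ≤ 40 := by
  have a := zda_den s₁ p y hp h₁ hy
  have b := zda_den s₂ p y hp h₂ hy
  unfold Fy
  rw [norm_div, norm_one, norm_mul, norm_pow, norm_pow]
  have a2 : (2 / 5 : ℝ) ^ 2 ≤ ‖1 - xs s₁ p * y‖ ^ 2 := pow_le_pow_left₀ (by norm_num) a 2
  have b2 : (2 / 5 : ℝ) ^ 2 ≤ ‖1 - xs s₂ p * y‖ ^ 2 := pow_le_pow_left₀ (by norm_num) b 2
  have c : (2 / 5 : ℝ) ^ 2 * (2 / 5) ^ 2 ≤ ‖1 - xs s₁ p * y‖ ^ 2 * ‖1 - xs s₂ p * y‖ ^ 2 :=
    mul_le_mul a2 b2 (by norm_num) (by positivity)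
  calc 1 / (‖1 - xs s₁ p * y‖ ^ 2 * ‖1 - xs s₂ p * y‖ ^ 2) ≤ 1 / ((2 / 5 : ℝ) ^ 2 * (2 / 5) ^ 2) :=
        one_div_le_one_div_of_le (by norm_num) c
    _ ≤ 40 := by norm_num

theorem zda_xs_diff (p : ℕ) (hp : 0 < p) : Differentiable ℂ fun s => xs s p := by
  unfold xs
  intro s
  refine DifferentiableAt.const_cpow (by fun_prop) (Or.inl ?_)
  exact_mod_cast hp.ne'

theorem zda_mu_diff (p : ℕ) (y : ℤ) (hp : 3 ≤ p) (hy : y ∈ T3) (x : ℂ × ℂ) (h₁ : 0 ≤ x.1.re)
    (h₂ : 0 ≤ x.2.re) : DifferentiableAt ℂ (fun x : ℂ × ℂ => mu 1 0 x.1 x.2 p y) x := by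
  unfold mu
  by_cases h0 : y = 0
  · simp only [h0, if_true]
    exact differentiableAt_const _
  · simp only [h0, if_false]
    have d1 : DifferentiableAt ℂ (fun x : ℂ × ℂ => xs x.1 p) x :=
      (zda_xs_diff p (by omega) x.1).comp x differentiableAt_fst
    have d2 : DifferentiableAt ℂ (fun x : ℂ × ℂ => xs x.2 p) x :=
      (zda_xs_diff p (by omega) x.2).comp x differentiableAt_snd
    have n1 : 1 - xs x.1 p * y ≠ 0 := by
      have := zda_den x.1 p y hp h₁ hy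
      intro h; rw [h, norm_zero] at this; linarith
    have n2 : 1 - xs x.2 p * y ≠ 0 := by
      have := zda_den x.2 p y hp h₂ hy
      intro h; rw [h, norm_zero] at this; linarith
    have dF : DifferentiableAt ℂ (fun x : ℂ × ℂ => Fy x.1 x.2 p y) x := by
      unfold Fy
      simp only [one_div]
      refine DifferentiableAt.fun_inv ?_ (mul_ne_zero (pow_ne_zero _ n1) (pow_ne_zero _ n2))
      exact (((differentiableAt_const _).sub (d1.mul_const _)).pow 2).mul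
        (((differentiableAt_const _).sub (d2.mul_const _)).pow 2)
    simp only [div_eq_mul_inv]
    exact (dF.const_mul _).mul_const _

theorem zda_mu_le (p : ℕ) (y : ℤ) (hp : 3 ≤ p) (hy : y ∈ T3) (s₁ s₂ : ℂ) (h₁ : 0 ≤ s₁.re)
    (h₂ : 0 ≤ s₂.re) :
    ‖mu 1 0 s₁ s₂ p y‖ ≤ ‖1 - ek 1 0 p‖ + ‖ek 1 0 p + y * ok 1 0 p‖ * 40 := by
  unfold mu
  have a := norm_nonneg (1 - ek 1 0 p)
  have b := norm_nonneg (ek 1 0 p + y * ok 1 0 p)
  split_ifs with h0
  · linarith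
  · have c := zda_Fy_le s₁ s₂ p y hp h₁ h₂ hy
    have d := mul_le_mul_of_nonneg_left c b
    have e := mul_nonneg b (norm_nonneg (Fy s₁ s₂ p y))
    rw [norm_div, norm_mul]
    have : ‖(2 : ℂ)‖ = 2 := by simp
    rw [this]
    linarith

/-- The factors of the infinite product, minus one. -/
noncomputable def zdaF (P : Finset ℕ) (p : Nat.Primes) (x : ℂ × ℂ) : ℂ :=
  if (p : ℕ) = 2 ∨ (p : ℕ) ∈ P then 0 else locv 1 0 x.1 x.2 p 0 - 1

theorem zda_three (p : ℕ) (hp : p.Prime) (h2 : p ≠ 2) : 3 ≤ p := by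
  have := hp.two_le
  omega

theorem zda_F_diff (P : Finset ℕ) (p : Nat.Primes) (x : ℂ × ℂ) (h₁ : 0 ≤ x.1.re)
    (h₂ : 0 ≤ x.2.re) : DifferentiableAt ℂ (zdaF P p) x := by
  unfold zdaF
  by_cases h : (p : ℕ) = 2 ∨ (p : ℕ) ∈ P
  · simp only [h, if_true]
    exact differentiableAt_const _
  · simp only [h, if_false]
    have h3 := zda_three p p.2 (fun h' => h (Or.inl h'))
    refine DifferentiableAt.sub_const ?_ _
    unfold locv
    exact DifferentiableAt.fun_sum fun y hy => (zda_mu_diff p y h3 hy x h₁ h₂).mul_const _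

theorem zda_Zk (P : Finset ℕ) (R : (ℕ → ℤ) → ℝ) (x : ℂ × ℂ) :
    Zk P R 1 0 x.1 x.2 = Ex P (mu 1 0 x.1 x.2) (fun x => (R x : ℂ)) *
      ∏' p : Nat.Primes, (1 + zdaF P p x) := by
  unfold Zk zdaF
  congr 1
  refine tprod_congr fun p => ?_
  split_ifs <;> ring

theorem zda_Ex_diff (P : Finset ℕ) (R : (ℕ → ℤ) → ℝ) (hP : OP P) (x : ℂ × ℂ) (h₁ : 0 ≤ x.1.re)
    (h₂ : 0 ≤ x.2.re) :
    DifferentiableAt ℂ (fun x : ℂ × ℂ => Ex P (mu 1 0 x.1 x.2) (fun x => (R x : ℂ))) x := by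
  unfold Ex
  refine DifferentiableAt.fun_sum fun v hv => DifferentiableAt.mul_const ?_ _
  exact (HasFDerivAt.finsetProd fun (p : P) _ => (zda_mu_diff p (v p)
    (zda_three p (hP p p.2).1 (hP p p.2).2)
    (Fintype.mem_piFinset.1 hv p) x h₁ h₂).hasFDerivAt).differentiableAt

theorem zda_maj (hLOC0 : LOC0) (a : ℝ) (ha : 0 < a) : ∃ u : Nat.Primes → ℝ, Summable u ∧
    ∀ (P : Finset ℕ) (p : Nat.Primes) (x : ℂ × ℂ), a ≤ x.1.re → a ≤ x.2.re →
      ‖zdaF P p x‖ ≤ u p := by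
  obtain ⟨C, hC, h, -⟩ := hLOC0
  refine ⟨fun p => C / ((p : ℕ) : ℝ) ^ 2 + 10 * ((p : ℕ) : ℝ) ^ (-(1 + 2 * a)), ?_, ?_⟩
  · have s1 : Summable fun n : ℕ => C / (n : ℝ) ^ 2 + 10 * (n : ℝ) ^ (-(1 + 2 * a)) := by
      refine Summable.add ?_ (Summable.mul_left _ (Real.summable_nat_rpow.2 (by linarith)))
      have := (Real.summable_nat_pow_inv.2 (by norm_num : 1 < 2)).mul_left C
      simpa [div_eq_mul_inv] using this
    exact s1.subtype {p | Nat.Prime p}
  · intro P p x h₁ h₂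
    have hp0 : 0 < (p : ℕ) := p.2.pos
    have hp1 : (1 : ℝ) ≤ ((p : ℕ) : ℝ) := by exact_mod_cast hp0
    have hr : 0 ≤ ((p : ℕ) : ℝ) ^ (-(1 + 2 * a)) := Real.rpow_nonneg (by linarith) _
    unfold zdaF
    split_ifs with hh
    · rw [norm_zero]; positivity
    · have h1 := h p x.1 x.2 p.2 (fun h' => hh (Or.inl h')) (by linarith) (by linarith)
      set r : ℝ := ((p : ℕ) : ℝ) ^ (-(1 / 2 + a)) with hrdef
      have hr0 : 0 ≤ r := Real.rpow_nonneg (by linarith) _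
      have hrr : r * r = ((p : ℕ) : ℝ) ^ (-(1 + 2 * a)) := by
        rw [hrdef, ← Real.rpow_add (by linarith)]
        congr 1; ring
      have b1 : ‖xs x.1 p‖ ≤ r := by
        rw [zda_norm_xs _ _ hp0]
        exact Real.rpow_le_rpow_of_exponent_le hp1 (by linarith)
      have b2 : ‖xs x.2 p‖ ≤ r := by
        rw [zda_norm_xs _ _ hp0]
        exact Real.rpow_le_rpow_of_exponent_le hp1 (by linarith)
      have q : ‖Qp x.1 x.2 p‖ ≤ 10 * (r * r) := by
        unfold Qp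
        have e1 : ‖3 * xs x.1 p ^ 2‖ ≤ 3 * (r * r) := by
          rw [norm_mul, norm_pow, sq]
          have := mul_le_mul b1 b1 (norm_nonneg _) hr0
          have t : ‖(3 : ℂ)‖ = 3 := by simp
          rw [t]; linarith
        have e2 : ‖4 * (xs x.1 p * xs x.2 p)‖ ≤ 4 * (r * r) := by
          rw [norm_mul, norm_mul]
          have := mul_le_mul b1 b2 (norm_nonneg _) hr0
          have t : ‖(4 : ℂ)‖ = 4 := by simp
          rw [t]; linarith
        have e3 : ‖3 * xs x.2 p ^ 2‖ ≤ 3 * (r * r) := by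
          rw [norm_mul, norm_pow, sq]
          have := mul_le_mul b2 b2 (norm_nonneg _) hr0
          have t : ‖(3 : ℂ)‖ = 3 := by simp
          rw [t]; linarith
        have := norm_add₃_le (a := 3 * xs x.1 p ^ 2) (b := 4 * (xs x.1 p * xs x.2 p))
          (c := 3 * xs x.2 p ^ 2)
        linarith
      have t := norm_add_le (locv 1 0 x.1 x.2 p 0 - 1 - Qp x.1 x.2 p) (Qp x.1 x.2 p)
      rw [sub_add_cancel] at t
      rw [hrr] at q
      linarith

theorem zda_curve (P : Finset ℕ) (a : ℝ) (ha : 0 < a) (u : Nat.Primes → ℝ) (hu : Summable u)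
    (hb : ∀ (p : Nat.Primes) (x : ℂ × ℂ), a ≤ x.1.re → a ≤ x.2.re → ‖zdaF P p x‖ ≤ u p)
    (γ : ℂ → ℂ × ℂ) (hγ : Differentiable ℂ γ) (V : Set ℂ) (hV : IsOpen V)
    (hm : ∀ s ∈ V, a ≤ (γ s).1.re ∧ a ≤ (γ s).2.re) :
    DifferentiableOn ℂ (fun s => ∏' p : Nat.Primes, (1 + zdaF P p (γ s))) V := by
  have hd : ∀ p : Nat.Primes, DifferentiableOn ℂ (fun s => zdaF P p (γ s)) V := fun p s hs =>
    ((zda_F_diff P p (γ s) (by linarith [(hm s hs).1]) (by linarith [(hm s hs).2])).comp s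
      (hγ s)).differentiableWithinAt
  have h := Summable.hasProdLocallyUniformlyOn_one_add (f := fun p s => zdaF P p (γ s)) hV hu
    (Filter.Eventually.of_forall fun p s hs => hb p _ (hm s hs).1 (hm s hs).2)
    (fun p => (hd p).continuousOn)
  refine TendstoLocallyUniformlyOn.differentiableOn h (Filter.Eventually.of_forall fun F => ?_) hV
  exact DifferentiableOn.fun_finsetProd fun p _ => (hd p).const_add _

theorem pZDA (hLOC0 : LOC0) (hPRD : PRD) : ZDA := by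
  intro P R a b hP ha hab
  obtain ⟨u, hu, hb⟩ := zda_maj hLOC0 (a / 2) (by linarith)
  have hO : IsOpen (OStrip a b) :=
    (isOpen_lt continuous_const continuous_re).inter (isOpen_lt continuous_re continuous_const)
  refine ⟨⟨?_, ?_, ?_⟩, ?_⟩
  · let K : Set (ℂ × ℂ) := {x | a / 2 < x.1.re ∧ a / 2 < x.2.re}
    have hK : IsOpen K :=
      (isOpen_lt continuous_const (continuous_re.comp continuous_fst)).inter
        (isOpen_lt continuous_const (continuous_re.comp continuous_snd))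
    have hc : ∀ p : Nat.Primes, ContinuousOn (zdaF P p) K := fun p x hx =>
      (zda_F_diff P p x (by linarith [hx.1]) (by linarith [hx.2])).continuousAt.continuousWithinAt
    have h := Summable.hasProdLocallyUniformlyOn_one_add (f := zdaF P) hK hu
      (Filter.Eventually.of_forall fun p x hx => hb P p x hx.1.le hx.2.le) hc
    have h2 : ContinuousOn (fun x => ∏' p : Nat.Primes, (1 + zdaF P p x)) K :=
      TendstoLocallyUniformlyOn.continuousOn h (Filter.Eventually.frequently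
        (Filter.Eventually.of_forall fun F =>
          continuousOn_finsetProd _ fun p _ => continuousOn_const.add (hc p)))
    have hs : Strip a b ×ˢ Strip a b ⊆ K := fun x hx =>
      ⟨by linarith [hx.1.1], by linarith [hx.2.1]⟩
    simp only [zda_Zk]
    refine ContinuousOn.mul (fun x hx => ?_) (h2.mono hs)
    exact (zda_Ex_diff P R hP x (by linarith [hx.1.1])
      (by linarith [hx.2.1])).continuousAt.continuousWithinAt
  · intro s hs
    have hγ : Differentiable ℂ fun v : ℂ => (v, s) := differentiable_id.prodMk (differentiable_const _)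
    have e : (fun v => Zk P R 1 0 v s) = fun v => Ex P (mu 1 0 (v, s).1 (v, s).2)
        (fun x => (R x : ℂ)) * ∏' p : Nat.Primes, (1 + zdaF P p (v, s)) :=
      funext fun v => zda_Zk P R (v, s)
    rw [e]
    refine DifferentiableOn.mul (fun v hv => ?_) (zda_curve P (a / 2) (by linarith) u hu (hb P) _ hγ
      _ hO fun v hv => ⟨by linarith [hv.1], by linarith [hs.1]⟩)
    exact ((zda_Ex_diff P R hP (v, s) (by linarith [hv.1]) (by linarith [hs.1])).comp v
      (hγ v)).differentiableWithinAt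
  · intro s hs
    have hγ : Differentiable ℂ fun v : ℂ => (s, v) := (differentiable_const _).prodMk differentiable_id
    have e : (fun v => Zk P R 1 0 s v) = fun v => Ex P (mu 1 0 (s, v).1 (s, v).2)
        (fun x => (R x : ℂ)) * ∏' p : Nat.Primes, (1 + zdaF P p (s, v)) :=
      funext fun v => zda_Zk P R (s, v)
    rw [e]
    refine DifferentiableOn.mul (fun v hv => ?_) (zda_curve P (a / 2) (by linarith) u hu (hb P) _ hγ
      _ hO fun v hv => ⟨by linarith [hs.1], by linarith [hv.1]⟩)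
    exact ((zda_Ex_diff P R hP (s, v) (by linarith [hs.1]) (by linarith [hv.1])).comp v
      (hγ v)).differentiableWithinAt
  · refine ⟨(∑ v ∈ Fintype.piFinset (fun _ : P => T3),
      (∏ p : P, (‖1 - ek 1 0 p‖ + ‖ek 1 0 p + (v p) * ok 1 0 p‖ * 40)) *
        ‖(R (ext0 P v) : ℂ)‖) * Real.exp (∑' p, u p), fun s₁ h₁ s₂ h₂ => ?_⟩
    have r1 : a ≤ s₁.re := h₁.1
    have r2 : a ≤ s₂.re := h₂.1
    have e := zda_Zk P R (s₁, s₂)
    simp only at e
    rw [e, norm_mul]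
    have hle : ∀ p, ‖zdaF P p (s₁, s₂)‖ ≤ u p := fun p =>
      hb P p (s₁, s₂) (by simp only; linarith) (by simp only; linarith)
    have hsum : Summable fun p => ‖zdaF P p (s₁, s₂)‖ :=
      Summable.of_nonneg_of_le (fun p => norm_nonneg _) hle hu
    have g2 : ‖∏' p : Nat.Primes, (1 + zdaF P p (s₁, s₂))‖ ≤ Real.exp (∑' p, u p) :=
      (hPRD _ hsum).2.2.trans (Real.exp_le_exp.2 (hsum.tsum_le_tsum hle hu))
    refine mul_le_mul ?_ g2 (norm_nonneg _) (Finset.sum_nonneg fun v _ => by positivity)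
    unfold Ex
    refine (norm_sum_le _ _).trans (Finset.sum_le_sum fun v hv => ?_)
    rw [norm_mul, norm_prod]
    refine mul_le_mul_of_nonneg_right (Finset.prod_le_prod (fun p _ => norm_nonneg _)
      fun p _ => ?_) (norm_nonneg _)
    exact zda_mu_le p (v p) (zda_three p (hP p p.2).1 (hP p p.2).2)
      (Fintype.mem_piFinset.1 hv p) s₁ s₂ (by linarith) (by linarith)

end Pool.Agent.QM
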