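import Pool.Agent.P.MP_ea46f5_nt.QM.S1
import Pool.Agent.P.MP_ea46f5_nt.QM.Zeta

namespace Pool.Agent.QM

open Complex MeasureTheory Finset
open scoped Real ComplexConjugate

theorem pZT : ZT := by
  refine ⟨fun s hs => Zt.zeta0_le hs, ⟨4, by norm_num, fun s h0 _ => ?_⟩,
    ⟨120, by norm_num, fun s h0 h1 => ?_⟩⟩
  · exact Zt.z1a (by linarith) fun h => by simp [h] at h0
  · have h := Zt.zeta1_le (s := s - 1) (by simp; linarith)
    have e : (s - 1).im = s.im := by simp
    have h2 := Complex.norm_le_abs_re_add_abs_im (s - 1)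
    have h3 : |(s - 1).re| ≤ 29 := by
      rw [sub_re, one_re, abs_le]; constructor <;> linarith
    rw [e] at h h2
    rw [add_sub_cancel] at h
    have ht := abs_nonneg s.im
    have h4 : 1 + ‖s - 1‖ ≤ 30 * (1 + |s.im|) := by linarith
    calc _ ≤ _ := h
      _ ≤ 4 * (1 + |s.im|) * (30 * (1 + |s.im|)) := by gcongr
      _ = _ := by rw [br]; ring

theorem kz_zeta0 (z : ℂ) : ‖(2 * z : ℂ)‖ / (2 * z : ℂ).re = ‖z‖ / z.re := by
  have e : (2 * z : ℂ).re = 2 * z.re := by simp
  rw [e, norm_mul, Complex.norm_two, mul_div_mul_left _ _ two_ne_zero]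

theorem pKZ (hGAM1 : GAM1) : KZ := by
  intro n
  obtain ⟨C, hC, h⟩ := hGAM1 (n + 1)
  refine ⟨7 * C, by positivity, fun z => ?_⟩
  have hb : 1 ≤ br z.im := by rw [br]; linarith [abs_nonneg z.im]
  have hb0 : 0 < br z.im := by linarith
  have e : (2 * z : ℂ).re = 2 * z.re := by simp
  have hw : ∀ x : ℝ, 0 ≤ x → C / (x * br z.im ^ (n + 1)) ≤ C / (x * br z.im ^ n) := by
    intro x hx
    rcases hx.eq_or_lt with rfl | hx
    · simp
    · exact div_le_div_of_nonneg_left hC.le (by positivity)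
        (mul_le_mul_of_nonneg_left (pow_le_pow_right₀ hb (Nat.le_succ n)) hx.le)
  refine ⟨fun h0 h1 => ?_, fun h0 h1 => ?_, fun h0 h1 => ?_⟩
  · have hn : 0 < ‖z‖ := h0.trans_le (Complex.re_le_norm z)
    have h2 := Zt.z1b (s := 2 * z) (by rw [e]; linarith) (by rw [e]; linarith)
    have h3 : 1 ≤ ‖z‖ / z.re := (one_le_div h0).2 (Complex.re_le_norm z)
    rw [kz_zeta0] at h2
    have h4 : ‖riemannZeta (2 * z)‖ ≤ 7 * (‖z‖ / z.re) := by linarith
    rw [norm_mul]
    refine (mul_le_mul ((h z h0 (by linarith)).trans (hw _ hn.le)) h4 (norm_nonneg _)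
      (by positivity)).trans (le_of_eq ?_)
    field_simp
  · have hr : 0 < z.re := by linarith
    have hn : 1 / 2 ≤ ‖z‖ := h0.le.trans (Complex.re_le_norm z)
    have hx : 0 < z.re - 1 / 2 := by linarith
    have h2 := Zt.z1d (s := 2 * z - 1) (by simp; linarith)
    have e2 : (2 * z - 1 : ℂ).re = 2 * (z.re - 1 / 2) := by simp; ring
    rw [add_sub_cancel, e2] at h2
    have h3 : 1 / (2 * (z.re - 1 / 2)) ≤ 1 / (z.re - 1 / 2) :=
      one_div_le_one_div_of_le hx (by linarith)
    have h5 : 0 < 1 / (z.re - 1 / 2) := by positivity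
    have h4 : ‖riemannZeta (2 * z)‖ ≤ 2 * (1 + 1 / (z.re - 1 / 2)) := by linarith
    have h6 : ‖Gammaℝ z‖ ≤ C / (1 / 2 * br z.im ^ n) :=
      ((h z hr (by linarith)).trans (hw _ (norm_nonneg _))).trans (by gcongr)
    rw [norm_mul]
    refine (mul_le_mul h6 h4 (norm_nonneg _) (by positivity)).trans ?_
    have e3 : C / (1 / 2 * br z.im ^ n) * (2 * (1 + 1 / (z.re - 1 / 2))) =
        4 * C * (1 + 1 / (z.re - 1 / 2)) / br z.im ^ n := by
      generalize 1 / (z.re - 1 / 2) = u
      field_simp; ring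
    rw [e3]
    gcongr
    norm_num
  · have hn : 0 < ‖z‖ := h0.trans_le (Complex.re_le_norm z)
    have h2 := Zt.zeta0_le (s := 2 * z) (by rw [e]; linarith)
    have h3 : 1 ≤ ‖z‖ / z.re := (one_le_div h0).2 (Complex.re_le_norm z)
    rw [kz_zeta0] at h2
    have h5 : ‖(2 * z - 1 : ℂ)‖ ≤ 3 * br z.im := by
      have := Complex.norm_le_abs_re_add_abs_im z
      rw [abs_of_pos h0] at this
      refine (norm_sub_le _ _).trans ?_
      rw [norm_mul, Complex.norm_two, norm_one, br]
      linarith [abs_nonneg z.im]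
    have h4 : ‖riemannZeta₁ (2 * z)‖ ≤ 7 * (br z.im * (‖z‖ / z.re)) := by
      rw [riemannZeta₁]
      refine (norm_add_le _ _).trans ?_
      rw [norm_one, norm_mul]
      have h6 := mul_le_mul h5 (h2.trans (by linarith : _ ≤ 2 * (‖z‖ / z.re))) (norm_nonneg _)
        (by positivity)
      have h7 := one_le_mul_of_one_le_of_one_le hb h3
      linarith
    rw [norm_mul]
    refine (mul_le_mul (h z h0 (by linarith)) h4 (norm_nonneg _) (by positivity)).trans ?_
    have e3 : C / (‖z‖ * br z.im ^ (n + 1)) * (7 * (br z.im * (‖z‖ / z.re))) =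
        7 * C / (z.re * br z.im ^ n) := by
      rw [pow_succ]; field_simp
    rw [e3]
    gcongr
    nlinarith

end Pool.Agent.QM
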