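import Pool.Agent.P.MP_ea46f5_nt.QM.S2

namespace Pool.Agent.QM

open Complex MeasureTheory Finset
open scoped Real ComplexConjugate

lemma bj_err {X Δ g c : ℝ} (hX : 1 ≤ X) (hL : 100 ≤ Real.log X) (h0 : 0 ≤ Δ) (h1 : Δ ≤ Real.log X)
    (hc : 0 ≤ c) (hb : Real.log X ^ 13 ≤ Real.exp (Δ / 4)) (hg : g = X * Real.exp (-2 * Δ)) :
    Real.exp (Δ / 4) * Real.log X ^ 2 * (Real.exp Δ * (c * g * lg g ^ 10) +
      Real.log X ^ 5 * X * Real.exp (-Δ / 2) + Real.log X ^ 11 * √X) ≤ (1024 * c + 2) * X := by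
  set L := Real.log X with hLd
  set E := Real.exp (Δ / 4) with hE
  have X0 : 0 < X := by linarith
  have E0 : 0 < E := Real.exp_pos _
  have E1 : 1 ≤ E := Real.one_le_exp (by linarith)
  have L1 : 1 ≤ L := by linarith
  have e4 : Real.exp Δ = E ^ 4 := by rw [hE, ← Real.exp_nat_mul]; congr 1; push_cast; ring
  have e8 : Real.exp (-2 * Δ) = (E ^ 8)⁻¹ := by
    rw [hE, ← Real.exp_nat_mul, ← Real.exp_neg]; congr 1; push_cast; ring
  have e2 : Real.exp (-Δ / 2) = (E ^ 2)⁻¹ := by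
    rw [hE, ← Real.exp_nat_mul, ← Real.exp_neg]; congr 1; push_cast; ring
  have g0 : 0 ≤ g := by rw [hg]; positivity
  have g1 : g ≤ X := by
    rw [hg]
    exact mul_le_of_le_one_right X0.le (Real.exp_le_one_iff.2 (by linarith))
  have X2 : 2 ≤ X := by linarith [Real.log_le_sub_one_of_pos X0]
  have l0 : 0 ≤ lg g := Real.log_nonneg (by linarith)
  have l1 : lg g ≤ 2 * L := by
    have : Real.log (2 + g) ≤ Real.log (X ^ 2) := Real.log_le_log (by linarith) (by nlinarith)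
    rwa [Real.log_pow] at this
  have s1 : E ^ 2 ≤ √X := by
    refine Real.le_sqrt_of_sq_le ?_
    rw [← pow_mul, ← e4, ← Real.exp_log X0]
    exact Real.exp_le_exp.2 h1
  have p12 : L ^ 12 ≤ E ^ 3 :=
    ((pow_le_pow_right₀ L1 (by norm_num)).trans hb).trans (le_self_pow₀ E1 (by norm_num))
  have p7 : L ^ 7 ≤ E := (pow_le_pow_right₀ L1 (by norm_num)).trans hb
  have t1 : E * L ^ 2 * (Real.exp Δ * (c * g * lg g ^ 10)) ≤ 1024 * c * X := by
    calc _ ≤ E * L ^ 2 * (Real.exp Δ * (c * g * (2 * L) ^ 10)) := by gcongr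
      _ = 1024 * c * X * (L ^ 12 / E ^ 3) := by rw [hg, e4, e8]; field_simp; norm_num
      _ ≤ _ := mul_le_of_le_one_right (by positivity) ((div_le_one (by positivity)).2 p12)
  have t2 : E * L ^ 2 * (L ^ 5 * X * Real.exp (-Δ / 2)) ≤ X := by
    calc _ = X * (L ^ 7 / E) := by rw [e2]; field_simp
      _ ≤ _ := mul_le_of_le_one_right X0.le ((div_le_one E0).2 p7)
  have t3 : E * L ^ 2 * (L ^ 11 * √X) ≤ X := by
    calc _ = E * L ^ 13 * √X := by ring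
      _ ≤ E * E * √X := by gcongr
      _ ≤ √X * √X := by rw [← sq]; gcongr
      _ = X := Real.mul_self_sqrt X0.le
  linarith

theorem pBJ (hTQ : TQ) (hFOUR : FOUR) (hPHI : PHI) (hHRP : HRP) (hLEN : LEN) : BJ := by
  obtain ⟨C₀, B, c, hB, hT⟩ := hTQ
  obtain ⟨A, C4, hC4, hF⟩ := hFOUR
  obtain ⟨CT, hCT, hT⟩ := hT A
  obtain ⟨CP, hCP, hP⟩ := hPHI C₀
  obtain ⟨CH, hCH, hH⟩ := hHRP
  refine ⟨C₀, B, hB, fun κ Cs k2 k4 => ⟨CT * (CP ^ 2 * (CH + (1024 * C4 + 2) * Real.exp (6 * |Cs|))),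
    by positivity, fun X J Bl l lam hX hL sys j i hj hji hi => ?_⟩⟩
  obtain ⟨p1, p2, p3, -⟩ := hP κ _ k2 k4 hL
  set L := Real.log X with hLd
  set Δ := Del κ L j with hΔ
  set σ := sg (PP Bl i J) with hσ
  have X0 : 0 < X := by linarith
  have L0 : 0 < L := by linarith
  have dJ : Del κ L J ≤ Δ := mul_le_mul_of_nonneg_left (Real.exp_le_exp.2 (by
    have : (j : ℝ) ≤ J := by exact_mod_cast hj
    nlinarith)) L0.le
  have d1 : 1 ≤ Δ := sys.D1.trans dJ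
  have dL : Δ ≤ L := mul_le_of_le_one_right L0.le (Real.exp_le_one_iff.2 (by
    have : (0 : ℝ) ≤ j := j.cast_nonneg
    nlinarith))
  have sub : ∀ a ∈ Icc i J, a ∈ Icc 0 J := fun a ha => mem_Icc.2 ⟨Nat.zero_le _, (mem_Icc.1 ha).2⟩
  have blk : Blk (Icc i J) Bl l := ⟨fun a ha => sys.blk.op a (sub a ha),
    fun a ha b hb => sys.blk.disj a (sub a ha) b (sub b hb), fun a ha => sys.blk.ell a (sub a ha),
    fun a ha => sys.blk.lin a (sub a ha)⟩
  obtain ⟨lm, m0, m1, m2⟩ : ∃ lm : ℝ, 0 ≤ lm ∧ lm ≤ Δ ∧ ∀ p ∈ PP Bl i J, (p : ℝ) ≤ Real.exp lm := by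
    rcases le_or_gt i J with h | h
    · refine ⟨lam i, zero_le_one.trans (sys.lam1 i h), sys.lamD i j hji h, fun p hp => ?_⟩
      obtain ⟨a, ha, hp⟩ := mem_biUnion.1 hp
      exact sys.le i a (mem_Icc.1 ha).1 (mem_Icc.1 ha).2 p hp
    · exact ⟨0, le_rfl, by linarith, by simp [PP, Icc_eq_empty_of_lt h]⟩
  have tw : Tw (PP Bl i J) B (RR (Icc i J) Bl l (-(4 - κ) / 2)) lm
      (CH * Real.exp (((4 - κ) ^ 2 / 2 - 4 * (4 - κ)) * σ)) (Real.exp (Δ / 4)) := by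
    refine ⟨fun p hp => ?_, m2, m0, fun x => prod_nonneg fun _ _ => sq_nonneg _, ?_,
      hH _ Bl l (4 - κ) blk (by linarith) (by linarith), by positivity⟩
    · obtain ⟨a, ha, hp⟩ := mem_biUnion.1 hp
      exact blk.op a ha p hp
    · refine hLEN.1 _ _ _ _ _ _ _ (hLEN.2.2.2.1 (Icc i J) Bl l lam _ B
        (abs_le.2 ⟨by linarith, by linarith⟩) fun a ha => ⟨zero_le_one.trans
          (sys.lam1 a (mem_Icc.1 ha).2), fun p hp => ⟨(blk.op a ha p hp).1,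
            sys.le a a le_rfl (mem_Icc.1 ha).2 p hp⟩⟩) Subset.rfl le_rfl
        (Real.exp_le_exp.2 (le_trans ?_ (sys.len1 j hj)))
      refine sum_le_sum_of_subset_of_nonneg (Icc_subset_Icc_left hji) fun a ha _ => ?_
      have := zero_le_one.trans (sys.lam1 a (mem_Icc.1 ha).2)
      positivity
  obtain ⟨α, V, a1, V0, hN, hV⟩ : ∃ (α : ℕ) (V : ℝ), α ≤ 1 ∧ 0 ≤ V ∧
      NearP (phj (C₀ + 1) (Del κ L) j) (1 / L) lm 0 α C₀ V ∧
      V ^ 2 * L ^ 8 / L ^ (2 * α) = CP ^ 2 * (Δ ^ 4 * L ^ 6) := by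
    rcases eq_or_ne j 0 with rfl | h
    · refine ⟨0, CP * L, zero_le_one, by positivity, p2 lm m0 (m1.trans dL), ?_⟩
      simp only [hΔ, Del, Nat.cast_zero, mul_zero, Real.exp_zero]
      ring
    · refine ⟨1, CP * Δ ^ 2, le_rfl, by positivity, p3 j lm h m0 m1, ?_⟩
      field_simp
  have key := hT _ _ _ _ _ _ X Δ 0 V _ _ α tw hX hL (m1.trans dL) (by linarith) dL a1 V0 (p1 j) hN
    (hF _ (by positivity))
  have er := bj_err hX hL (by linarith) dL hC4.le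
    (sys.big.trans (Real.exp_le_exp.2 (by linarith))) rfl
  have s0 : 0 ≤ σ := sum_nonneg fun _ _ => by positivity
  have s1 : σ ≤ Real.log L + |Cs| := by
    rcases le_or_gt i J with h | h
    · have := (abs_le.1 (sys.sig i h)).2
      have : (0 : ℝ) ≤ i := i.cast_nonneg
      linarith [le_abs_self Cs]
    · have : σ = 0 := by simp [hσ, sg, PP, Icc_eq_empty_of_lt h]
      linarith [abs_nonneg Cs, Real.log_nonneg (show 1 ≤ L by linarith)]
  set G := Real.exp (((4 - κ) ^ 2 / 2 - 4 * (4 - κ)) * σ) with hG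
  have g1 : 1 ≤ Real.exp (6 * |Cs|) * (Δ ^ 4 * L ^ 6 * G) := by
    have h1 : 1 ≤ Real.exp (6 * |Cs|) * (L ^ 6 * G) := by
      rw [← Real.exp_log (pow_pos L0 6), hG, ← Real.exp_add, ← Real.exp_add, Real.log_pow]
      refine Real.one_le_exp ?_
      push_cast
      nlinarith [mul_nonneg s0 (mul_nonneg (show 0 ≤ κ - 2 by linarith) (show 0 ≤ κ + 2 by linarith))]
    have h2 : 1 ≤ Δ ^ 4 := one_le_pow₀ d1
    nlinarith
  refine key.trans ?_
  simp only [br, abs_zero, add_zero, one_pow, mul_one]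
  have u1 : X * (CH * G) * V ^ 2 * L ^ 8 / L ^ (2 * α) = CP ^ 2 * (CH * X * (Δ ^ 4 * L ^ 6 * G)) := by
    rw [mul_assoc _ (V ^ 2), mul_div_assoc, hV]
    ring
  have u2 := mul_le_mul_of_nonneg_left (er.trans (le_mul_of_one_le_right (by positivity) g1))
    (sq_nonneg CP)
  rw [u1]
  refine (mul_le_mul_of_nonneg_left (add_le_add le_rfl (le_trans (le_of_eq ?_) u2)) hCT.le).trans
    (le_of_eq ?_) <;> ring

end Pool.Agent.QM
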