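import Pool.Agent.P.MP_ea46f5_nt.QM.FCLAa

namespace Pool.Agent.QM

open Complex MeasureTheory Finset
open scoped Real ComplexConjugate

theorem pCLA (hTE : TE) : CLA := by
  refine ⟨4, by norm_num, ?_⟩
  intro κ J j Bl l F b h2 h4 hB hj hb
  have hl : ∀ i ≤ J, 12 * (i + 1) ≤ l i := fun i hi => hB.lin i (mem_Icc.2 ⟨Nat.zero_le _, hi⟩)
  have e1 : ∀ i k, RR (Icc i J) Bl l (-(4 - κ) / 2) (jv k) =
      ∏ i' ∈ Icc i J, Et (l i') (-(4 - κ) * Pb (Bl i') (jv k) / 2) ^ 2 := fun i k => by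
    unfold RR
    refine prod_congr rfl fun i' _ => ?_
    congr 2
    ring
  have e2 : ∀ i k, RR (Icc i J) Bl l (κ / 2) (jv k) =
      ∏ i' ∈ Icc i J, Et (l i') (κ * Pb (Bl i') (jv k) / 2) ^ 2 := fun i k => by
    unfold RR
    refine prod_congr rfl fun i' _ => ?_
    congr 2
    ring
  refine cls_te hTE F h2 h4 j J (by omega) l hl (fun i k => Pb (Bl i) (jv k)) b hb
    (fun i => ∑ k ∈ F, RR (Icc i J) Bl l (-(4 - κ) / 2) (jv k) * b k ^ 2)
    (fun i => ∑ k ∈ F, RR (Icc i J) Bl l (κ / 2) (jv k) * Qc Bl l j i (jv k)) ?_ ?_ ?_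
  · intro i _ _
    refine le_of_eq (sum_congr rfl fun k _ => ?_)
    rw [e1, mul_comm]
  · refine le_of_eq (sum_congr rfl fun k _ => ?_)
    rw [e2, Qc, if_pos rfl, mul_one]
  · intro i hi _
    refine le_of_eq (sum_congr rfl fun k _ => ?_)
    rw [e2, Qc, if_neg (by omega), Nat.add_sub_cancel, QQ]

end Pool.Agent.QM
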