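import Pool.Agent.P.MP_ea46f5_nt.QM.FCLAa

namespace Pool.Agent.QM

open Complex MeasureTheory Finset
open scoped Real ComplexConjugate

theorem cls_RR_nonneg (S : Finset ℕ) (Bl : ℕ → Finset ℕ) (l : ℕ → ℕ) (θ : ℝ) (x : ℕ → ℤ) :
    0 ≤ RR S Bl l θ x := prod_nonneg fun _ _ => sq_nonneg _

theorem cls_Qc_nonneg (Bl : ℕ → Finset ℕ) (l : ℕ → ℕ) (j i : ℕ) (x : ℕ → ℤ) :
    0 ≤ Qc Bl l j i x := by
  unfold Qc QQ
  split_ifs
  · exact zero_le_one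
  · exact (even_two_mul _).pow_nonneg _

theorem pCLS (hBJ : BJ) (hCLA : CLA) (hCLZ : CLZ) : CLS := by
  obtain ⟨A, B, hB1, hBJ⟩ := hBJ
  obtain ⟨C1, hC1, hCLA⟩ := hCLA
  obtain ⟨C2, hC2, hCLZ⟩ := hCLZ
  refine ⟨A, B, fun κ Cs h2 h4 hCs => ?_⟩
  obtain ⟨C3, hC3, hBJ⟩ := hBJ κ Cs h2 h4
  have hβ : 0 < 4 - κ := by linarith
  set C0 := C2 + C3 with hC0
  have hC00 : 0 < C0 := by positivity
  refine ⟨C1 * ((2 + Real.exp (8 * Cs) * (1 + 1 / (4 - κ))) * Real.exp (4 * Cs) * C0),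
    by positivity, ?_⟩
  intro X J Bl l lam hX hL hS j hj
  set L := Real.log X with hLdef
  have hL0 : 0 < L := by linarith
  have hX0 : 0 ≤ X := by linarith
  have hl : ∀ i ≤ J, 12 * (i + 1) ≤ l i := fun i hi => hS.blk.lin i (mem_Icc.2 ⟨Nat.zero_le _, hi⟩)
  have hD0 : 0 ≤ Del κ L j := by unfold Del; positivity
  have h1 := hCLA κ J j Bl l (Sq X) (fun k => ‖Dq 0 (phj (A + 1) (Del κ L) j) k‖) h2 h4 hS.blk hj
    (fun _ => norm_nonneg _)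
  have hσJ : sg (PP Bl (J + 1) J) = 0 := by
    unfold PP sg
    rw [Icc_eq_empty (by omega)]
    simp
  have h3 := cls_piece_bound h2 h4 (η := (κ - 2) / 32) hC00.le hCs.le hX0 hL0 j J hj hD0
    (le_of_eq (by unfold Del; congr 2; ring)) l hl (fun i => sg (PP Bl i J)) hS.sig hσJ hS.lJ
  have h5 : ∑ i ∈ Icc j (J + 1),
      (∑ k ∈ Sq X, RR (Icc i J) Bl l (-(4 - κ) / 2) (jv k) *
        ‖Dq 0 (phj (A + 1) (Del κ L) j) k‖ ^ 2) ^ (κ / 4) *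
      (∑ k ∈ Sq X, RR (Icc i J) Bl l (κ / 2) (jv k) * Qc Bl l j i (jv k)) ^ ((4 - κ) / 4) ≤
      ∑ i ∈ Icc j (J + 1),
      (C0 * X * Del κ L j ^ 4 * L ^ 6 *
        Real.exp (((4 - κ) ^ 2 / 2 - 4 * (4 - κ)) * sg (PP Bl i J))) ^ (κ / 4) *
        (C0 * X * Real.exp (κ ^ 2 * sg (PP Bl i J) / 2) *
          (if i = j then 1 else Real.exp (-(l (i - 1) : ℝ)))) ^ ((4 - κ) / 4) := by
    refine sum_le_sum fun i hi => ?_
    rw [mem_Icc] at hi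
    have h6 := hBJ X J Bl l lam hX hL hS j i hj hi.1 hi.2
    have h7 := hCLZ κ Cs X B J Bl l lam h2 h4 hB1 hX hL hS j i hj hi.1 hi.2
    have h8 : 0 ≤ ∑ k ∈ Sq X, RR (Icc i J) Bl l (-(4 - κ) / 2) (jv k) *
        ‖Dq 0 (phj (A + 1) (Del κ L) j) k‖ ^ 2 :=
      sum_nonneg fun k _ => mul_nonneg (cls_RR_nonneg _ _ _ _ _) (sq_nonneg _)
    have h9 : 0 ≤ ∑ k ∈ Sq X, RR (Icc i J) Bl l (κ / 2) (jv k) * Qc Bl l j i (jv k) :=
      sum_nonneg fun k _ => mul_nonneg (cls_RR_nonneg _ _ _ _ _) (cls_Qc_nonneg _ _ _ _ _)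
    have h10 : 0 ≤ ec l j i := by
      unfold ec
      split_ifs
      · exact zero_le_one
      · exact (Real.exp_pos _).le
    have e : κ ^ 2 * sg (PP Bl i J) / 2 = κ ^ 2 / 2 * sg (PP Bl i J) := by ring
    have h11 : C3 ≤ C0 := by linarith
    have h12 : C2 ≤ C0 := by linarith
    refine mul_le_mul (Real.rpow_le_rpow h8 (h6.trans ?_) (by linarith))
      (Real.rpow_le_rpow h9 (h7.trans ?_) (by linarith)) (Real.rpow_nonneg h9 _)
      (Real.rpow_nonneg (by positivity) _)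
    · gcongr
    · rw [e]
      change _ ≤ _ * ec l j i
      gcongr
  have h6 : Real.exp (-(κ * ((κ - 2) / 2 - (κ - 2) / 32) * j)) ≤ Real.exp (-((κ - 2) / 2) * j) := by
    refine Real.exp_le_exp.2 ?_
    have h7 : (0 : ℝ) ≤ j := Nat.cast_nonneg j
    have h8 : (κ - 2) / 2 ≤ κ * ((κ - 2) / 2 - (κ - 2) / 32) := by nlinarith
    nlinarith [mul_le_mul_of_nonneg_right h8 h7]
  calc _ ≤ _ := h1
    _ ≤ C1 * ((2 + Real.exp (8 * Cs) * (1 + 1 / (4 - κ))) * Real.exp (4 * Cs) * C0 * X *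
        L ^ (κ * (κ + 1) / 2) * Real.exp (-((κ - 2) / 2) * j)) := by
        refine mul_le_mul_of_nonneg_left ((h5.trans h3).trans ?_) hC1.le
        exact mul_le_mul_of_nonneg_left h6 (by positivity)
    _ = _ := by ring

end Pool.Agent.QM
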