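import Pool.Agent.P.MP_ea46f5_nt.QM.S2

namespace Pool.Agent.QM

open Complex MeasureTheory Finset
open scoped Real ComplexConjugate

theorem clz_blk {S S' : Finset ℕ} {Bl : ℕ → Finset ℕ} {l : ℕ → ℕ} (h : Blk S Bl l) (hs : S' ⊆ S) :
    Blk S' Bl l :=
  ⟨fun i hi => h.op i (hs hi), fun i hi j hj => h.disj i (hs hi) j (hs hj),
    fun i hi => h.ell i (hs hi), fun i hi => h.lin i (hs hi)⟩

theorem clz_op {S : Finset ℕ} {Bl : ℕ → Finset ℕ} {l : ℕ → ℕ} (h : Blk S Bl l) :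
    OP (S.biUnion Bl) := by
  intro p hp
  obtain ⟨i, hi, hp⟩ := mem_biUnion.1 hp
  exact h.op i hi p hp

theorem clz_RR (S : Finset ℕ) (Bl : ℕ → Finset ℕ) (l : ℕ → ℕ) (θ : ℝ) (x : ℕ → ℤ) :
    0 ≤ RR S Bl l θ x := prod_nonneg fun _ _ => sq_nonneg _

theorem clz_QQ (Bl : Finset ℕ) (l : ℕ) (x : ℕ → ℤ) : 0 ≤ QQ Bl l x := by
  unfold QQ
  rw [pow_mul]
  exact pow_nonneg (sq_nonneg _) _

theorem clz_sg (P : Finset ℕ) : 0 ≤ sg P := sum_nonneg fun _ _ => by positivity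

theorem clz_GX {X : ℝ} (hX : 0 < X) {k : ℤ} (hk : k ∈ Sq X) : 1 ≤ Real.exp π * GX X k := by
  unfold GX
  rw [← Real.exp_add]
  apply Real.one_le_exp
  have h1 : |(k : ℝ)| ≤ X := by
    simp only [Sq, mem_filter] at hk
    exact hk.2.2.2.2
  have h2 : (k : ℝ) ^ 2 ≤ X ^ 2 := by
    rw [← sq_abs]
    exact pow_le_pow_left₀ (abs_nonneg _) h1 2
  have h3 : (k : ℝ) ^ 2 / X ^ 2 ≤ 1 := (div_le_one (by positivity)).2 h2
  have h4 : -π * (k : ℝ) ^ 2 / X ^ 2 = -(π * ((k : ℝ) ^ 2 / X ^ 2)) := by ring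
  rw [h4]
  nlinarith [Real.pi_pos]

theorem clz_sum (hZ0 : Z0) {P : Finset ℕ} {B : ℕ} {R : (ℕ → ℤ) → ℝ} {X Y : ℝ} (hP : OP P)
    (hB : 1 ≤ B) (hl : HasLen P B R Y) (hR : ∀ x, 0 ≤ R x) (hX : 0 < X) :
    ∑ k ∈ Sq X, R (jv k) ≤ Real.exp π * (X * Ex P mu0 R + Y) := by
  refine le_trans ?_ (mul_le_mul_of_nonneg_left (hZ0 P B R X Y (Sq X) hP hB hl hR hX)
    (Real.exp_pos _).le)
  rw [mul_sum]
  refine sum_le_sum fun k hk => ?_
  rw [← mul_assoc]
  exact le_mul_of_one_le_left (hR _) (clz_GX hX hk)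

theorem clz_Del {κ L : ℝ} (h4 : κ < 4) (hL : 0 ≤ L) (j : ℕ) : Del κ L j ≤ L := by
  unfold Del
  refine mul_le_of_le_one_right hL (Real.exp_le_one_iff.2 ?_)
  have : (0 : ℝ) ≤ j := Nat.cast_nonneg j
  nlinarith

theorem pCLZ (hZ0 : Z0) (hZ0E : Z0E) (hLEN : LEN) : CLZ := by
  obtain ⟨C, hC, hE⟩ := hZ0E
  obtain ⟨hL1, -, hL3, hL4, hL5⟩ := hLEN
  refine ⟨Real.exp π * (C + 1), by positivity, ?_⟩
  intro κ Cs X B J Bl l lam h2 h4 hB hX hL hS j i hj hji hi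
  have hX0 : 0 < X := by linarith
  have hXe : Real.exp (Real.log X) = X := Real.exp_log hX0
  have hsub : Icc i J ⊆ Icc 0 J := Icc_subset_Icc_left (Nat.zero_le _)
  have hdat : ∀ a, a ≤ J → 0 ≤ lam a ∧ ∀ p ∈ Bl a, p.Prime ∧ (p : ℝ) ≤ Real.exp (lam a) := by
    intro a ha
    refine ⟨le_trans zero_le_one (hS.lam1 a ha), fun p hp => ⟨?_, hS.le a a le_rfl ha p hp⟩⟩
    exact (hS.blk.op a (mem_Icc.2 ⟨Nat.zero_le _, ha⟩) p hp).1
  have hlen : HasLen ((Icc i J).biUnion Bl) B (RR (Icc i J) Bl l (κ / 2))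
      (Real.exp (Real.log X / 4)) := by
    refine hL1 _ _ _ _ _ _ _ (hL4 (Icc i J) Bl l lam (κ / 2) B ?_ fun a ha =>
      hdat a (mem_Icc.1 ha).2) subset_rfl le_rfl (Real.exp_le_exp.2 ?_)
    · rw [abs_le]; constructor <;> linarith
    · refine le_trans (sum_le_sum_of_subset_of_nonneg (Icc_subset_Icc_left hji) ?_)
        (le_trans (hS.len1 j hj) ?_)
      · intro a ha _
        have := (hdat a (mem_Icc.1 ha).2).1
        positivity
      · have := clz_Del h4 (by linarith : 0 ≤ Real.log X) j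
        linarith
  have hg : 1 ≤ Real.exp (κ ^ 2 / 2 * sg (PP Bl i J)) :=
    Real.one_le_exp (mul_nonneg (by positivity) (clz_sg _))
  obtain ⟨hE1, hE2⟩ := hE (Icc i J) Bl l κ (by linarith) h4.le
  by_cases hij : i = j
  · simp only [Qc, ec, if_pos hij, mul_one]
    have hb := clz_blk hS.blk hsub
    refine le_trans (clz_sum hZ0 (clz_op hb) hB hlen (clz_RR _ _ _ _) hX0) ?_
    have h1 := hE1 hb
    have h3 : Real.exp (Real.log X / 4) ≤ X := by
      conv_rhs => rw [← hXe]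
      exact Real.exp_le_exp.2 (by linarith)
    have h5 : X * Ex ((Icc i J).biUnion Bl) mu0 (RR (Icc i J) Bl l (κ / 2)) ≤
        X * (C * Real.exp (κ ^ 2 / 2 * sg (PP Bl i J))) := mul_le_mul_of_nonneg_left h1 hX0.le
    have h6 : X ≤ X * Real.exp (κ ^ 2 / 2 * sg (PP Bl i J)) := le_mul_of_one_le_right hX0.le hg
    rw [mul_assoc, mul_assoc]
    refine mul_le_mul_of_nonneg_left ?_ (Real.exp_pos _).le
    nlinarith
  · simp only [Qc, ec, if_neg hij]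
    have hi1 : i - 1 ≤ J := by omega
    have hn : i - 1 ∉ Icc i J := by
      rw [mem_Icc]; omega
    have hb : Blk (insert (i - 1) (Icc i J)) Bl l :=
      clz_blk hS.blk (insert_subset (mem_Icc.2 ⟨Nat.zero_le _, hi1⟩) hsub)
    have hq : HasLen ((insert (i - 1) (Icc i J)).biUnion Bl) B (QQ (Bl (i - 1)) (l (i - 1)))
        (Real.exp (Real.log X / 25)) :=
      hL1 _ _ _ _ _ _ _ (hL5 (Bl (i - 1)) (l (i - 1)) (lam (i - 1)) B (hdat _ hi1).1 (hdat _ hi1).2)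
        (subset_biUnion_of_mem Bl (mem_insert_self _ _)) le_rfl
        (Real.exp_le_exp.2 (hS.len2 _ hi1))
    have hr : HasLen ((insert (i - 1) (Icc i J)).biUnion Bl) B (RR (Icc i J) Bl l (κ / 2))
        (Real.exp (Real.log X / 4)) :=
      hL1 _ _ _ _ _ _ _ hlen (biUnion_subset_biUnion_of_subset_left Bl (subset_insert _ _)) le_rfl
        le_rfl
    refine le_trans (clz_sum hZ0 (R := fun x => RR (Icc i J) Bl l (κ / 2) x *
      QQ (Bl (i - 1)) (l (i - 1)) x) (clz_op hb) hB (hL3 _ _ _ _ _ _ hr hq)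
      (fun x => mul_nonneg (clz_RR _ _ _ _ _) (clz_QQ _ _ _)) hX0) ?_
    have h1 := hE2 (i - 1) hn hb
    have h3 : Real.exp (Real.log X / 4) * Real.exp (Real.log X / 25) ≤
        X * Real.exp (-(l (i - 1) : ℝ)) := by
      conv_rhs => rw [← hXe]
      rw [← Real.exp_add, ← Real.exp_add]
      have := hS.lL _ hi1
      exact Real.exp_le_exp.2 (by linarith)
    have h5 := mul_le_mul_of_nonneg_left h1 hX0.le
    have h7 : 0 < X * Real.exp (-(l (i - 1) : ℝ)) := by positivity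
    have h6 := le_mul_of_one_le_right h7.le hg
    rw [mul_assoc, mul_assoc, mul_assoc]
    refine mul_le_mul_of_nonneg_left ?_ (Real.exp_pos _).le
    unfold PP at h6 ⊢
    nlinarith

end Pool.Agent.QM
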