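import Pool.Agent.P.MP_ea46f5_nt.QM.S2

namespace Pool.Agent.QM

open Complex MeasureTheory Finset
open scoped Real ComplexConjugate

theorem dy_max (n : ℕ) (b w : ℕ → ℝ) (p : ℝ) (hp : 0 < p) (hb : ∀ j, 0 ≤ b j)
    (hw : ∀ j, 0 < w j) (hs : ∑ j ∈ range n, w j ≤ 1) :
    (∑ j ∈ range n, b j) ^ p ≤ ∑ j ∈ range n, (b j / w j) ^ p := by
  rcases Nat.eq_zero_or_pos n with h0 | h0
  · subst h0
    simp [Real.zero_rpow hp.ne']
  obtain ⟨j0, hj0, hmax⟩ := exists_max_image (range n) (fun j => b j / w j)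
    ⟨0, mem_range.2 h0⟩
  have hM : 0 ≤ b j0 / w j0 := div_nonneg (hb _) (hw _).le
  have h1 : ∑ j ∈ range n, b j ≤ b j0 / w j0 := by
    calc ∑ j ∈ range n, b j ≤ ∑ j ∈ range n, w j * (b j0 / w j0) := by
          refine sum_le_sum fun j hj => ?_
          have h := hmax j hj
          have := hw j
          calc b j = w j * (b j / w j) := by field_simp
            _ ≤ _ := mul_le_mul_of_nonneg_left h this.le
      _ = (∑ j ∈ range n, w j) * (b j0 / w j0) := by rw [sum_mul]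
      _ ≤ 1 * (b j0 / w j0) := mul_le_mul_of_nonneg_right hs hM
      _ = _ := one_mul _
  calc (∑ j ∈ range n, b j) ^ p ≤ (b j0 / w j0) ^ p :=
        Real.rpow_le_rpow (sum_nonneg fun j _ => hb j) h1 hp.le
    _ ≤ _ := single_le_sum (f := fun j => (b j / w j) ^ p)
        (fun j _ => Real.rpow_nonneg (div_nonneg (hb _) (hw _).le) _) hj0

theorem dy_geom (n : ℕ) (r : ℝ) (h0 : 0 ≤ r) (h1 : r < 1) :
    ∑ j ∈ range n, r ^ j ≤ 1 / (1 - r) := by
  have h := (summable_geometric_of_lt_one h0 h1).sum_le_tsum (range n)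
    (fun j _ => pow_nonneg h0 j)
  rw [tsum_geometric_of_lt_one h0 h1] at h
  rwa [one_div]

/-- The pointwise split. -/
theorem dy_pt (a S f U φ : ℝ) (ha : 0 ≤ a) (hS : 0 ≤ S) (hU : 0 < U) (h0 : 0 < φ)
    (h1 : φ < 1) (h : π * a ^ 2 ≤ S + f) :
    a ^ (2 + 2 * φ) ≤ S ^ (1 + φ) + a ^ 2 * U ^ φ + f ^ 2 * U ^ (φ - 1) := by
  have e1 : a ^ (2 + 2 * φ) = (a ^ 2) ^ (1 + φ) := by
    rw [← Real.rpow_natCast a 2, ← Real.rpow_mul ha]
    congr 1
    push_cast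
    ring
  have p1 : 0 ≤ S ^ (1 + φ) := Real.rpow_nonneg hS _
  have p2 : 0 ≤ a ^ 2 * U ^ φ := mul_nonneg (sq_nonneg _) (Real.rpow_nonneg hU.le _)
  have p3 : 0 ≤ f ^ 2 * U ^ (φ - 1) := mul_nonneg (sq_nonneg _) (Real.rpow_nonneg hU.le _)
  rw [e1]
  set x := a ^ 2 with hx
  have hx0 : 0 ≤ x := sq_nonneg _
  by_cases c1 : x ≤ S
  · have := Real.rpow_le_rpow hx0 c1 (by linarith : 0 ≤ 1 + φ)
    linarith
  have hxpos : 0 < x := by linarith
  have e2 : x ^ (1 + φ) = x * x ^ φ := by rw [Real.rpow_add hxpos, Real.rpow_one]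
  by_cases c2 : x ≤ U
  · have := mul_le_mul_of_nonneg_left (Real.rpow_le_rpow hx0 c2 h0.le) hx0
    linarith
  have c3 : x ≤ f := by nlinarith [Real.pi_gt_three]
  have e3 : x ^ (1 + φ) = x ^ 2 * x ^ (φ - 1) := by
    rw [← Real.rpow_natCast x 2, ← Real.rpow_add hxpos]
    congr 1
    push_cast
    ring
  have h4 : x ^ (φ - 1) ≤ U ^ (φ - 1) :=
    Real.rpow_le_rpow_of_nonpos hU (by linarith) (by linarith)
  have h5 : x ^ 2 * x ^ (φ - 1) ≤ f ^ 2 * U ^ (φ - 1) :=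
    mul_le_mul (pow_le_pow_left₀ hx0 c3 2) h4 (Real.rpow_nonneg hx0 _) (sq_nonneg _)
  linarith

/-- The sum over the scales. -/
theorem dy_scales (φ : ℝ) (h0 : 0 < φ) : ∃ C : ℝ, 0 < C ∧
    ∀ (F : Finset ℤ) (n : ℕ) (b : ℕ → ℤ → ℝ) (M : ℝ), 0 ≤ M → (∀ j k, 0 ≤ b j k) →
      (∀ j, j < n → ∑ k ∈ F, b j k ^ (1 + φ) ≤ M * Real.exp (-φ * j)) →
      ∑ k ∈ F, (∑ j ∈ range n, b j k) ^ (1 + φ) ≤ C * M := by
  set p := 1 + φ with hp
  have hp0 : 0 < p := by linarith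
  set r := Real.exp (-(φ / (2 * p))) with hr
  have hr0 : 0 < r := Real.exp_pos _
  have hr1 : r < 1 := by
    have : 0 < φ / (2 * p) := by positivity
    rw [hr, Real.exp_lt_one_iff]
    linarith
  set q := Real.exp (-(φ / 2)) with hq
  have hq0 : 0 < q := Real.exp_pos _
  have hq1 : q < 1 := by
    rw [hq, Real.exp_lt_one_iff]
    linarith
  have hc : 0 < 1 - r := by linarith
  have hc' : 0 < 1 - q := by linarith
  refine ⟨1 / (1 - r) ^ p * (1 / (1 - q)), by positivity, fun F n b M hM hb hbd => ?_⟩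
  have hw : ∀ j : ℕ, 0 < (1 - r) * r ^ j := fun j => by positivity
  have hs : ∑ j ∈ range n, (1 - r) * r ^ j ≤ 1 := by
    rw [← mul_sum]
    calc (1 - r) * ∑ j ∈ range n, r ^ j ≤ (1 - r) * (1 / (1 - r)) :=
          mul_le_mul_of_nonneg_left (dy_geom n r hr0.le hr1) hc.le
      _ = 1 := by field_simp
  have hwp : ∀ j : ℕ, ((1 - r) * r ^ j) ^ p = (1 - r) ^ p * q ^ j := by
    intro j
    rw [Real.mul_rpow hc.le (by positivity), hr, hq, ← Real.exp_nat_mul, ← Real.exp_nat_mul,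
      ← Real.exp_mul]
    congr 2
    field_simp
  have hcp : 0 < (1 - r) ^ p := Real.rpow_pos_of_pos hc _
  calc ∑ k ∈ F, (∑ j ∈ range n, b j k) ^ p
      ≤ ∑ k ∈ F, ∑ j ∈ range n, (b j k / ((1 - r) * r ^ j)) ^ p :=
        sum_le_sum fun k _ => dy_max n (fun j => b j k) _ p hp0 (fun j => hb j k) hw hs
    _ = ∑ j ∈ range n, (∑ k ∈ F, b j k ^ p) / ((1 - r) ^ p * q ^ j) := by
        rw [sum_comm]
        refine sum_congr rfl fun j _ => ?_
        rw [sum_div]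
        refine sum_congr rfl fun k _ => ?_
        rw [Real.div_rpow (hb j k) (hw j).le, hwp]
    _ ≤ ∑ j ∈ range n, 1 / (1 - r) ^ p * M * q ^ j := by
        refine sum_le_sum fun j hj => ?_
        have e : Real.exp (-φ * j) = q ^ j * q ^ j := by
          rw [hq, ← Real.exp_nat_mul, ← Real.exp_add]
          congr 1
          ring
        have hqj : 0 < q ^ j := by positivity
        rw [div_le_iff₀ (by positivity)]
        calc ∑ k ∈ F, b j k ^ p ≤ M * Real.exp (-φ * j) := hbd j (mem_range.1 hj)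
          _ = _ := by rw [e]; field_simp
    _ = 1 / (1 - r) ^ p * M * ∑ j ∈ range n, q ^ j := by rw [mul_sum]
    _ ≤ 1 / (1 - r) ^ p * M * (1 / (1 - q)) :=
        mul_le_mul_of_nonneg_left (dy_geom n q hq0.le hq1) (by positivity)
    _ = _ := by ring

/-- The decomposition of the central value. -/
theorem dy_dec (hAFE : AFE) (hDL : DL) (hPHI : PHI) (A J : ℕ) (κ L : ℝ) (h2 : 2 < κ) (h4 : κ < 4)
    (hL : 100 ≤ L) (k : ℤ) (hk : Squarefree k) (hk1 : k ≠ 1) :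
    π * ‖Lf k (1 / 2)‖ ^ 2 ≤ ∑ j ∈ range (J + 1), ‖Dq 0 (phj (A + 1) (Del κ L) j) k‖ +
      ‖Dq 0 (phF (A + 1) (Del κ L J)) k‖ := by
  obtain ⟨C, hC, hP⟩ := hPHI A
  obtain ⟨f1, -, -, f4, f5⟩ := hP κ L h2 h4 hL
  have hD : ∀ j : ℕ, 0 < Del κ L j := fun j => by
    unfold Del
    have : 0 < L := by linarith
    positivity
  have h1 := hAFE k 0 hk hk1
  simp only [neg_zero, ofReal_zero, zero_mul, add_zero] at h1
  have hL1 : 1 / L ≤ 1 := by
    rw [div_le_one (by linarith)]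
    linarith
  have h3 := hDL 0 k (J + 1 + 1) (fun s => 1 / s)
    (fun j => if j < J + 1 then phj (A + 1) (Del κ L) j else phF (A + 1) (Del κ L J)) (1 / L)
    hk.ne_zero hL1 ?_ ?_
  · rw [sum_range_succ, if_neg (lt_irrefl _),
      sum_congr rfl (fun j hj => by rw [if_pos (mem_range.1 hj)])] at h3
    have h5 : ‖Dq 0 (fun s => 1 / s) k‖ ≤ _ := h3 ▸ norm_add_le _ _
    have h6 := norm_sum_le (range (J + 1)) fun j => Dq 0 (phj (A + 1) (Del κ L) j) k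
    linarith
  · intro j _
    by_cases hj : j < J + 1
    · simp only [if_pos hj]
      refine ⟨C * L, (f1 j).1, fun s hs1 hs2 => ((f1 j).2 s hs1 hs2).trans ?_⟩
      refine mul_le_mul_of_nonneg_left (Real.exp_le_exp.2 ?_) (by positivity)
      have : 0 < 1 / L / 2 := by
        have : 0 < L := by linarith
        positivity
      have := mul_nonneg (hD j).le (by linarith : 0 ≤ s.re)
      linarith
    · simp only [if_neg hj]
      exact ⟨_, (f4 _ (hD J)).1⟩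
  · intro s _
    rw [sum_range_succ, if_neg (lt_irrefl _),
      sum_congr rfl (fun j hj => by rw [if_pos (mem_range.1 hj)])]
    exact f5 J s

theorem dy_tail (φ L D : ℝ) (h0 : 0 < φ) (hL : 1 ≤ L) (hD0 : 0 ≤ D) (hD : D ≤ 3 * L ^ (φ / 8)) :
    D ^ 4 * L ^ 8 * Real.log L * (L ^ (5 + φ)) ^ (φ - 1) ≤
      162 / φ * L ^ ((1 + φ) * (3 + 2 * φ)) := by
  have hL0 : 0 < L := by linarith
  have h1 : D ^ 4 ≤ 81 * L ^ (φ / 2) := by
    calc D ^ 4 ≤ (3 * L ^ (φ / 8)) ^ 4 := pow_le_pow_left₀ hD0 hD 4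
      _ = 81 * L ^ (φ / 2) := by
        rw [mul_pow, ← Real.rpow_natCast (L ^ (φ / 8)) 4, ← Real.rpow_mul hL0.le]
        congr 1
        · norm_num
        · congr 1
          push_cast
          ring
  have h2 : Real.log L ≤ L ^ (φ / 2) / (φ / 2) := Real.log_le_rpow_div hL0.le (by linarith)
  have h3 : 0 ≤ Real.log L := Real.log_nonneg hL
  have e : L ^ (φ / 2) * L ^ 8 * L ^ (φ / 2) * (L ^ (5 + φ)) ^ (φ - 1) =
      L ^ (φ / 2 + 8 + φ / 2 + (5 + φ) * (φ - 1)) := by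
    rw [← Real.rpow_mul hL0.le, Real.rpow_add hL0, Real.rpow_add hL0, Real.rpow_add hL0,
      ← Real.rpow_natCast L 8]
    norm_num
  have h4 : L ^ (φ / 2 + 8 + φ / 2 + (5 + φ) * (φ - 1)) ≤ L ^ ((1 + φ) * (3 + 2 * φ)) :=
    Real.rpow_le_rpow_of_exponent_le hL (by nlinarith)
  calc D ^ 4 * L ^ 8 * Real.log L * (L ^ (5 + φ)) ^ (φ - 1)
      ≤ 81 * L ^ (φ / 2) * L ^ 8 * (L ^ (φ / 2) / (φ / 2)) * (L ^ (5 + φ)) ^ (φ - 1) := by
        gcongr
    _ = 162 / φ * (L ^ (φ / 2) * L ^ 8 * L ^ (φ / 2) * (L ^ (5 + φ)) ^ (φ - 1)) := by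
        field_simp
        ring
    _ ≤ _ := by
        rw [e]
        exact mul_le_mul_of_nonneg_left h4 (by positivity)

theorem pDY (hCLS : CLS) (hFF : FF) (hSEC : SEC) (hPAR : PAR) (hAFE : AFE) (hDL : DL) (hPHI : PHI) : DY := by
  intro κ h2 h4
  obtain ⟨A, B, hCLS⟩ := hCLS
  obtain ⟨Cs, L₀, hCs, hPAR⟩ := hPAR κ B h2 h4
  obtain ⟨C1, hC1, hCLS⟩ := hCLS κ Cs h2 h4 hCs
  obtain ⟨C2, X2, hC2, hFF⟩ := hFF A
  obtain ⟨φ, rfl⟩ : ∃ φ : ℝ, κ = 2 + 2 * φ := ⟨(κ - 2) / 2, by ring⟩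
  have h0 : 0 < φ := by linarith
  have h1 : φ < 1 := by linarith
  obtain ⟨C3, hC3, hSEC⟩ := hSEC (φ ^ 2) (by positivity)
  obtain ⟨C4, hC4, hsc⟩ := dy_scales φ h0
  refine ⟨C4 * C1 + C3 + C2 * (162 / φ), max X2 (Real.exp (max L₀ 100)), by positivity,
    fun X hX => ?_⟩
  have hX2 : X2 ≤ X := le_trans (le_max_left _ _) hX
  have hXe : Real.exp (max L₀ 100) ≤ X := le_trans (le_max_right _ _) hX
  have hX0 : 0 < X := lt_of_lt_of_le (Real.exp_pos _) hXe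
  have hLm : max L₀ 100 ≤ Real.log X := (Real.le_log_iff_exp_le hX0).2 hXe
  have hL : 100 ≤ Real.log X := le_trans (le_max_right _ _) hLm
  have hX1 : 1 ≤ X := by
    by_contra hc
    have := Real.log_nonpos hX0.le (not_le.1 hc).le
    linarith
  obtain ⟨J, Bl, l, lam, hS⟩ := hPAR (Real.log X) (le_trans (le_max_left _ _) hLm)
  have hcl := hCLS X J Bl l lam hX1 hL hS
  have hF := hFF X _ hX2 hS.D1
  have hsec := hSEC X hX1 hL
  have hD1 := hS.D1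
  have hD2 := hS.D2
  set L := Real.log X with hLdef
  have hL0 : 0 < L := by linarith
  have eE : (2 + 2 * φ) * (2 + 2 * φ + 1) / 2 = (1 + φ) * (3 + 2 * φ) := by ring
  have e1 : (2 + 2 * φ) / 2 = 1 + φ := by ring
  have e2 : (2 + 2 * φ - 2) / 2 = φ := by ring
  have e3 : (2 + 2 * φ - 2) / 16 = φ / 8 := by ring
  rw [eE, e1, e2] at hcl
  rw [e3] at hD2
  rw [eE]
  set E := (1 + φ) * (3 + 2 * φ) with hE
  set D := Del (2 + 2 * φ) L J with hD
  have hU : 0 < L ^ (5 + φ) := Real.rpow_pos_of_pos hL0 _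
  have hLE : 0 < L ^ E := Real.rpow_pos_of_pos hL0 _
  have t1 := hsc (Sq X) (J + 1) (fun j k => ‖Dq 0 (phj (A + 1) (Del (2 + 2 * φ) L) j) k‖)
    (C1 * X * L ^ E) (by positivity) (fun _ _ => norm_nonneg _)
    (fun j hj => hcl j (Nat.lt_succ_iff.1 hj))
  have t2 : (∑ k ∈ Sq X, ‖Lf k (1 / 2)‖ ^ 2) * (L ^ (5 + φ)) ^ φ ≤ C3 * X * L ^ E := by
    calc _ ≤ C3 * X * L ^ (3 + φ ^ 2) * (L ^ (5 + φ)) ^ φ :=
          mul_le_mul_of_nonneg_right hsec (by positivity)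
      _ = C3 * X * L ^ (3 + φ ^ 2 + (5 + φ) * φ) := by
          rw [← Real.rpow_mul hL0.le, Real.rpow_add hL0 (3 + φ ^ 2), mul_assoc]
      _ = _ := by
          congr 2
          rw [hE]
          ring
  have t3 : (∑ k ∈ Sq X, ‖Dq 0 (phF (A + 1) D) k‖ ^ 2) * (L ^ (5 + φ)) ^ (φ - 1) ≤
      C2 * (162 / φ) * X * L ^ E := by
    have h := dy_tail φ L D h0 (by linarith) (by linarith) hD2
    calc _ ≤ C2 * X * D ^ 4 * L ^ 8 * Real.log L * (L ^ (5 + φ)) ^ (φ - 1) :=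
          mul_le_mul_of_nonneg_right hF (by positivity)
      _ = C2 * X * (D ^ 4 * L ^ 8 * Real.log L * (L ^ (5 + φ)) ^ (φ - 1)) := by ring
      _ ≤ C2 * X * (162 / φ * L ^ E) := mul_le_mul_of_nonneg_left h (by positivity)
      _ = _ := by ring
  calc ∑ k ∈ Sq X, ‖Lf k (1 / 2)‖ ^ (2 + 2 * φ)
      ≤ ∑ k ∈ Sq X, ((∑ j ∈ range (J + 1),
          ‖Dq 0 (phj (A + 1) (Del (2 + 2 * φ) L) j) k‖) ^ (1 + φ) +
          ‖Lf k (1 / 2)‖ ^ 2 * (L ^ (5 + φ)) ^ φ +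
          ‖Dq 0 (phF (A + 1) D) k‖ ^ 2 * (L ^ (5 + φ)) ^ (φ - 1)) := by
        refine sum_le_sum fun k hk => ?_
        have hk' : Squarefree k ∧ k ≠ 1 := by
          simp only [Sq, mem_filter] at hk
          exact ⟨hk.2.1, hk.2.2.1⟩
        exact dy_pt _ _ _ _ φ (norm_nonneg _) (sum_nonneg fun _ _ => norm_nonneg _)
          hU h0 h1 (dy_dec hAFE hDL hPHI A J _ L h2 h4 hL k hk'.1 hk'.2)
    _ ≤ C4 * (C1 * X * L ^ E) + C3 * X * L ^ E + C2 * (162 / φ) * X * L ^ E := by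
        rw [sum_add_distrib, sum_add_distrib, ← sum_mul, ← sum_mul]
        linarith
    _ = _ := by ring

end Pool.Agent.QM
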