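import Pool.Agent.P.MP_ea46f5_nt.QM.S1

namespace Pool.Agent.QM

open Complex MeasureTheory Finset
open scoped Real ComplexConjugate

theorem pEXB (hMG : MG) (hPL : PL) : EXB := by
  obtain ⟨C, hC, hM⟩ := hMG
  obtain ⟨C', hC', -, hP, -⟩ := hPL
  have hsum : Summable fun n : ℕ => (n : ℝ) ^ (-(3 / 2) : ℝ) :=
    Real.summable_nat_rpow.2 (by norm_num)
  set S := ∑' n : ℕ, (n : ℝ) ^ (-(3 / 2) : ℝ) with hS
  refine ⟨Real.exp (C * (C' + S)), ⌈C⌉₊, Real.exp_pos _,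
    fun P B R lam T Y z s₁ s₂ hT hz h1 h2 h5 => ?_⟩
  set τ := ‖z‖ + ‖s₁‖ + ‖s₂‖ with hτ
  have hτ0 : 0 ≤ τ := by positivity
  have hlam := hT.lam0
  have h := hT.hr (fun p y => ‖mu 1 z s₁ s₂ p y‖)
    (fun p => C * (min 1 (τ * Real.log p) / p + (p : ℝ) ^ (-(3 / 2) : ℝ)))
    (fun _ _ => norm_nonneg _)
    (fun p => by
      have := Real.log_natCast_nonneg p
      positivity)
    (fun p hp θ hθ => by
      have hp0 : (0 : ℝ) < p := by exact_mod_cast (hT.op p hp).1.pos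
      have hl : Real.log p ≤ lam := (Real.log_le_iff_le_exp hp0).2 (hT.le p hp)
      refine hM p z s₁ s₂ θ (hT.op p hp).1 (hT.op p hp).2 hz h1 h2 (le_trans ?_ h5) hθ
      exact mul_le_mul_of_nonneg_left hl (by positivity))
  have h3 := hP P lam τ (fun p hp => ⟨(hT.op p hp).1, hT.le p hp⟩) hlam hτ0
  have h4 : ∑ p ∈ P, (p : ℝ) ^ (-(3 / 2) : ℝ) ≤ S :=
    hsum.sum_le_tsum P fun n _ => by positivity
  have hx : 1 ≤ 1 + lam * τ := le_add_of_nonneg_right (by positivity)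
  have h6 : ∑ p ∈ P, C * (min 1 (τ * Real.log p) / p + (p : ℝ) ^ (-(3 / 2) : ℝ)) ≤
      C * (C' + S) + (⌈C⌉₊ : ℝ) * Real.log (1 + lam * τ) := by
    rw [← mul_sum, sum_add_distrib]
    have h7 := mul_le_mul_of_nonneg_right (Nat.le_ceil C) (Real.log_nonneg hx)
    nlinarith
  have h8 : Real.exp ((⌈C⌉₊ : ℝ) * Real.log (1 + lam * τ)) = (1 + lam * τ) ^ ⌈C⌉₊ := by
    rw [Real.exp_nat_mul, Real.exp_log (by linarith)]
  refine h.trans ?_
  calc T * Real.exp (10 * sg P +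
        ∑ p ∈ P, C * (min 1 (τ * Real.log p) / p + (p : ℝ) ^ (-(3 / 2) : ℝ)))
      ≤ T * Real.exp (10 * sg P + (C * (C' + S) + (⌈C⌉₊ : ℝ) * Real.log (1 + lam * τ))) :=
        mul_le_mul_of_nonneg_left (Real.exp_le_exp.2 (by linarith)) hT.T0
    _ = _ := by rw [Real.exp_add, Real.exp_add, h8]; ring

end Pool.Agent.QM
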