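import Pool.Agent.P.MP_ea46f5_nt.QM.S2

namespace Pool.Agent.QM

open Complex MeasureTheory Finset
open scoped Real ComplexConjugate

theorem ff_alg {C₁ C₂ C₄ X L D s g l : ℝ} (hC₁ : 0 < C₁) (hC₄ : 0 < C₄) (hX : 0 < X)
    (hL : 1 ≤ L) (hD : 1 ≤ D) (hl : 0 ≤ l) (hg : g ≤ 1024 * L ^ 10) (hs : L ^ 3 * s ≤ X) :
    C₁ * (2 * l / L ^ 2) * (X * (L ^ 2) ^ 2 * (C₂ * D ^ 2) ^ 2 * L ^ 8 / L ^ 2 +
      (C₂ * D) ^ 2 * ((L ^ 2) ^ 2 * (C₄ * (X / (L ^ 2) ^ 2) * g) + L ^ 5 * X * L ^ 2 +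
        L ^ 11 * s * L ^ 2)) ≤
    (2 * C₁ * (C₂ ^ 2 + 1) * (3 + 1024 * C₄)) * X * D ^ 4 * L ^ 8 * l := by
  have hL0 : 0 < L := by linarith
  have h1 : (L ^ 2) ^ 2 * (C₄ * (X / (L ^ 2) ^ 2) * g) ≤ 1024 * C₄ * (X * L ^ 10) := by
    rw [show (L ^ 2) ^ 2 * (C₄ * (X / (L ^ 2) ^ 2) * g) = C₄ * X * g by field_simp]
    have := mul_le_mul_of_nonneg_left hg (show 0 ≤ C₄ * X by positivity)
    linarith
  have h2 : L ^ 5 * X * L ^ 2 ≤ X * L ^ 10 := by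
    have := mul_le_mul_of_nonneg_left (pow_le_pow_right₀ hL (show 7 ≤ 10 by norm_num)) hX.le
    linarith
  have h3 : L ^ 11 * s * L ^ 2 ≤ X * L ^ 10 := by
    have := mul_le_mul_of_nonneg_right hs (show 0 ≤ L ^ 10 by positivity)
    linarith
  have h4 : (C₂ * D) ^ 2 ≤ C₂ ^ 2 * D ^ 4 := by
    rw [mul_pow]
    exact mul_le_mul_of_nonneg_left (pow_le_pow_right₀ hD (by norm_num)) (by positivity)
  have h5 : (C₂ * D) ^ 2 * ((L ^ 2) ^ 2 * (C₄ * (X / (L ^ 2) ^ 2) * g) + L ^ 5 * X * L ^ 2 +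
      L ^ 11 * s * L ^ 2) ≤ C₂ ^ 2 * D ^ 4 * ((2 + 1024 * C₄) * (X * L ^ 10)) :=
    (mul_le_mul_of_nonneg_left (by linarith) (by positivity)).trans
      (mul_le_mul_of_nonneg_right h4 (by positivity))
  have h6 : X * (L ^ 2) ^ 2 * (C₂ * D ^ 2) ^ 2 * L ^ 8 / L ^ 2 =
      C₂ ^ 2 * D ^ 4 * (X * L ^ 10) := by field_simp
  rw [h6]
  refine (mul_le_mul_of_nonneg_left (add_le_add le_rfl h5) (by positivity)).trans ?_
  have h7 : C₁ * (2 * l / L ^ 2) * (C₂ ^ 2 * D ^ 4 * (X * L ^ 10) +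
      C₂ ^ 2 * D ^ 4 * ((2 + 1024 * C₄) * (X * L ^ 10))) =
      C₂ ^ 2 * (2 * C₁ * (3 + 1024 * C₄) * X * D ^ 4 * L ^ 8 * l) := by field_simp; ring
  rw [h7]
  have h8 : 0 ≤ 2 * C₁ * (3 + 1024 * C₄) * X * D ^ 4 * L ^ 8 * l := by positivity
  linarith

theorem pFF (hTQF : TQF) (hFOUR : FOUR) (hPHI : PHI) : FF := by
  intro A
  obtain ⟨c, R₀, hR₀, hT⟩ := hTQF
  obtain ⟨A₄, C₄, hC₄, hF⟩ := hFOUR
  obtain ⟨C₁, hC₁, hT⟩ := hT A₄
  obtain ⟨C₂, hC₂, hP⟩ := hPHI A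
  refine ⟨2 * C₁ * (C₂ ^ 2 + 1) * (3 + 1024 * C₄), Real.exp (max 300 R₀), by positivity,
    fun X D hX hD => ?_⟩
  have hX0 : 0 < X := (Real.exp_pos _).trans_le hX
  have hL : max 300 R₀ ≤ Real.log X := (Real.le_log_iff_exp_le hX0).2 hX
  have hL3 : 300 ≤ Real.log X := (le_max_left _ _).trans hL
  have hLR : R₀ ≤ Real.log X := (le_max_right _ _).trans hL
  have hXL : Real.log X + 1 ≤ X := by
    have := Real.add_one_le_exp (Real.log X)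
    rwa [Real.exp_log hX0] at this
  obtain ⟨hfar, hnear⟩ := (hP 3 (Real.log X) (by norm_num) (by norm_num) (by linarith)).2.2.2.1 D
    (by linarith)
  set L := Real.log X with hLd
  have hK : 0 < X / (L ^ 2) ^ 2 := by positivity
  have h := hT (phF (A + 1) D) X (L ^ 2) 0 (C₂ * D ^ 2) (C₂ * D) _ 1 (by linarith) (by linarith)
    (by nlinarith) le_rfl (by positivity) hfar hnear (hF _ hK)
  have hb : br 0 = 1 := by simp [br]
  rw [hb, one_pow, one_pow, mul_one, mul_one, mul_one, Real.log_pow, ← hLd] at h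
  refine h.trans ?_
  have hg : lg (X / (L ^ 2) ^ 2) ^ 10 ≤ 1024 * L ^ 10 := by
    have h1 : X / (L ^ 2) ^ 2 ≤ X := div_le_self hX0.le (one_le_pow₀ (by nlinarith))
    have h2 : lg (X / (L ^ 2) ^ 2) ≤ 2 * L := by
      have h3 := Real.log_le_log (by linarith) (show 2 + X / (L ^ 2) ^ 2 ≤ X ^ 2 by nlinarith)
      rw [Real.log_pow] at h3
      exact_mod_cast h3
    have h3 : 0 ≤ lg (X / (L ^ 2) ^ 2) := Real.log_nonneg (by linarith)
    have := pow_le_pow_left₀ h3 h2 10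
    linarith [show (2 * L) ^ 10 = 1024 * L ^ 10 by ring]
  have hs : L ^ 3 * √X ≤ X := by
    have h1 := Real.pow_div_factorial_le_exp L (by linarith) 8
    rw [hLd, Real.exp_log hX0, ← hLd] at h1
    have h2 : ((Nat.factorial 8 : ℕ) : ℝ) = 40320 := by norm_num [Nat.factorial]
    rw [h2] at h1
    have h3 : (L ^ 3) ^ 2 ≤ X := by
      have h4 : 40320 ≤ L ^ 2 := by nlinarith
      have h5 := mul_le_mul_of_nonneg_left h4 (show 0 ≤ L ^ 6 by positivity)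
      nlinarith
    have h4 : L ^ 3 ≤ √X := Real.le_sqrt_of_sq_le h3
    have h5 := mul_le_mul_of_nonneg_right h4 (Real.sqrt_nonneg X)
    rwa [Real.mul_self_sqrt hX0.le] at h5
  have := ff_alg (C₂ := C₂) (l := Real.log L) hC₁ hC₄ hX0 (show 1 ≤ L by linarith) hD
    (Real.log_nonneg (by linarith)) hg hs
  exact_mod_cast this

end Pool.Agent.QM
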