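import Pool.Agent.P.MP_ea46f5_nt.QM.S2

namespace Pool.Agent.QM

open Complex MeasureTheory Finset
open scoped Real ComplexConjugate

lemma hb_gamR_diff {w : ℂ} (hw : 0 < w.re) : DifferentiableAt ℂ Gammaℝ w := by
  have h := (Complex.differentiable_Gammaℝ_inv w).inv
    (inv_ne_zero (Complex.Gammaℝ_ne_zero_of_re_pos hw))
  have e : (fun s : ℂ => (Gammaℝ s)⁻¹)⁻¹ = Gammaℝ := by
    funext s; simp
  rwa [e] at h

lemma hb_T3 {γ : ℤ} (h : γ ∈ T3) : ‖(γ : ℂ)‖ ≤ 1 := by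
  simp only [T3, mem_insert, mem_singleton] at h
  rcases h with h | h | h <;> simp [h]

lemma hb_two_pow (w : ℂ) : ‖(2 : ℂ) ^ (-w)‖ = (2 : ℝ) ^ (-w.re) := by
  have := Complex.norm_cpow_eq_rpow_re_of_pos (x := 2) (by norm_num) (-w)
  simpa using this

lemma hb_den_ne {γ : ℤ} (h : γ ∈ T3) {w : ℂ} (hw : 0 < w.re) :
    1 - (γ : ℂ) * (2 : ℂ) ^ (-w) ≠ 0 := by
  intro h0
  have h1 : (γ : ℂ) * (2 : ℂ) ^ (-w) = 1 := by linear_combination -h0
  have h2 : ‖(γ : ℂ) * (2 : ℂ) ^ (-w)‖ < 1 := by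
    rw [norm_mul, hb_two_pow]
    have h3 : (2 : ℝ) ^ (-w.re) < 1 := Real.rpow_lt_one_of_one_lt_of_neg (by norm_num) (by linarith)
    have h4 : (0 : ℝ) ≤ (2 : ℝ) ^ (-w.re) := by positivity
    have h5 := hb_T3 h
    nlinarith
  rw [h1, norm_one] at h2
  exact lt_irrefl _ h2

lemma hb_den_ge {γ : ℤ} (h : γ ∈ T3) {w : ℂ} (hw : 1 / 4 ≤ w.re) :
    1 / 7 ≤ ‖1 - (γ : ℂ) * (2 : ℂ) ^ (-w)‖ := by
  have h3 : (2 : ℝ) ^ (-w.re) ≤ 6 / 7 := by
    have h1 : (2 : ℝ) ^ (-w.re) ≤ (2 : ℝ) ^ (-(1 / 4) : ℝ) :=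
      Real.rpow_le_rpow_of_exponent_le (by norm_num) (by linarith)
    refine h1.trans ?_
    have h2 : ((2 : ℝ) ^ (-(1 / 4) : ℝ)) ^ 4 = 1 / 2 := by
      rw [← Real.rpow_natCast, ← Real.rpow_mul (by norm_num)]
      norm_num
    refine le_of_pow_le_pow_left₀ (n := 4) (by norm_num) (by norm_num) ?_
    rw [h2]; norm_num
  have h4 : ‖(γ : ℂ) * (2 : ℂ) ^ (-w)‖ ≤ 6 / 7 := by
    rw [norm_mul, hb_two_pow]
    have h5 := hb_T3 h
    have h6 : (0 : ℝ) ≤ (2 : ℝ) ^ (-w.re) := by positivity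
    nlinarith
  have h7 := norm_sub_norm_le (1 : ℂ) ((γ : ℂ) * (2 : ℂ) ^ (-w))
  rw [norm_one] at h7
  linarith

lemma hb_br_le (x : ℝ) : br x ≤ Real.exp |x| := by
  unfold br
  have := Real.add_one_le_exp |x|
  linarith

lemma hb_br_pos (x : ℝ) : 0 < br x := by unfold br; positivity

lemma hb_br_pow (x : ℝ) (n : ℕ) : br x ^ n ≤ Real.exp (n * |x|) := by
  rw [Real.exp_nat_mul]
  exact pow_le_pow_left₀ (hb_br_pos x).le (hb_br_le x) n

lemma hb_norm_exp_sq (s : ℂ) : ‖cexp (s ^ 2)‖ = Real.exp (s.re ^ 2 - s.im ^ 2) := by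
  rw [Complex.norm_exp]
  congr 1
  simp [pow_two]

lemma hb_abs_exp {K x : ℝ} :
    Real.exp (K * |x|) * Real.exp (-x ^ 2) ≤ Real.exp (K ^ 2 / 2) * Real.exp (-x ^ 2 / 2) := by
  rw [← Real.exp_add, ← Real.exp_add]
  apply Real.exp_le_exp.2
  have h := sq_nonneg (K - |x|)
  have h2 : |x| ^ 2 = x ^ 2 := sq_abs x
  nlinarith

lemma hb_exp_sq_le {s : ℂ} (h0 : -(1 / 4) ≤ s.re) (h1 : s.re ≤ 13) :
    ‖cexp (s ^ 2)‖ ≤ Real.exp 169 * Real.exp (-s.im ^ 2) := by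
  rw [hb_norm_exp_sq, ← Real.exp_add]
  apply Real.exp_le_exp.2
  nlinarith

lemma hb_q_pos (t : ℝ) : (0 : ℝ) < 1 / 4 + t ^ 2 := by positivity

lemma hb_q_cast (t : ℝ) : (1 / 4 + (t : ℂ) ^ 2) = ((1 / 4 + t ^ 2 : ℝ) : ℂ) := by push_cast; ring

lemma hb_q_ne (t : ℝ) : (1 / 4 + (t : ℂ) ^ 2) ≠ 0 := by
  rw [hb_q_cast]
  exact_mod_cast (hb_q_pos t).ne'

lemma hb_gt_zero (t : ℝ) : gt t 0 = 1 := by
  unfold gt
  rw [div_eq_one_iff_eq (pow_ne_zero _ (hb_q_ne t))]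
  have e : (1 / 2 - (t : ℂ) * I) * (1 / 2 + t * I) = 1 / 4 + (t : ℂ) ^ 2 := by
    linear_combination (-(t : ℂ) ^ 2) * I_sq
  rw [← e]
  simp only [ne_eq, OfNat.ofNat_ne_zero, not_false_eq_true, zero_pow, Complex.exp_zero]
  ring

lemma hb_fac {s u : ℂ} {q : ℝ} (hq : 1 / 4 ≤ q) (hu : ‖u‖ ^ 2 = q) :
    ‖s ^ 2 - u ^ 2‖ ≤ 4 * (1 + ‖s‖) ^ 2 * q := by
  refine (norm_sub_le _ _).trans ?_
  rw [norm_pow, norm_pow, hu]
  have h := norm_nonneg s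
  have h1 : ‖s‖ ^ 2 ≤ 4 * ‖s‖ ^ 2 * q := by nlinarith [sq_nonneg ‖s‖]
  have h2 : 0 ≤ ‖s‖ * q := by positivity
  nlinarith

lemma hb_gt_le (t : ℝ) (s : ℂ) : ‖gt t s‖ ≤ 256 * ‖cexp (s ^ 2)‖ * (1 + ‖s‖) ^ 8 := by
  have hq := hb_q_pos t
  have hq4 : (1 : ℝ) / 4 ≤ 1 / 4 + t ^ 2 := by nlinarith [sq_nonneg t]
  have h1 : ‖(1 / 2 - (t : ℂ) * I)‖ ^ 2 = 1 / 4 + t ^ 2 := by
    rw [Complex.sq_norm, Complex.normSq_apply]
    simp; ring
  have h2 : ‖(1 / 2 + (t : ℂ) * I)‖ ^ 2 = 1 / 4 + t ^ 2 := by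
    rw [Complex.sq_norm, Complex.normSq_apply]
    simp; ring
  have h3 := hb_fac (s := s) hq4 h1
  have h4 := hb_fac (s := s) hq4 h2
  unfold gt
  rw [norm_div, norm_mul, norm_pow, norm_mul, norm_pow, hb_q_cast, Complex.norm_real,
    Real.norm_of_nonneg hq.le, div_le_iff₀ (by positivity)]
  calc ‖cexp (s ^ 2)‖ * (‖s ^ 2 - (1 / 2 - (t : ℂ) * I) ^ 2‖ * ‖s ^ 2 - (1 / 2 + (t : ℂ) * I) ^ 2‖) ^ 2
      ≤ ‖cexp (s ^ 2)‖ * (4 * (1 + ‖s‖) ^ 2 * (1 / 4 + t ^ 2)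
          * (4 * (1 + ‖s‖) ^ 2 * (1 / 4 + t ^ 2))) ^ 2 := by gcongr
    _ = 256 * ‖cexp (s ^ 2)‖ * (1 + ‖s‖) ^ 8 * (1 / 4 + t ^ 2) ^ 4 := by ring

lemma hb_one_add_norm {s : ℂ} (h0 : -(1 / 4) ≤ s.re) (h1 : s.re ≤ 13) :
    1 + ‖s‖ ≤ 14 * br s.im := by
  have h := Complex.norm_le_abs_re_add_abs_im s
  have h2 : |s.re| ≤ 13 := abs_le.2 ⟨by linarith, h1⟩
  unfold br
  have := abs_nonneg s.im
  linarith

lemma hb_base_re (a : ℕ) (t : ℝ) (s : ℂ) : (1 / 2 + (a : ℂ) + t * I + s).re = 1 / 2 + a + s.re := by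
  simp

lemma hb_ratio {w v : ℂ} (hv : 0 < v.re) {B : ℝ} (hle : ‖Gammaℝ w‖ ≤ B * ‖Gammaℝ v‖) :
    ‖Gammaℝ w / Gammaℝ v‖ ≤ B := by
  have hp : 0 < ‖Gammaℝ v‖ := norm_pos_iff.2 (Complex.Gammaℝ_ne_zero_of_re_pos hv)
  rw [norm_div, div_le_iff₀ hp]
  exact hle

theorem pHB (hGAM2 : GAM2) : HB := by
  obtain ⟨h, C, hC, hG⟩ := hGAM2
  refine ⟨2 * h, C ^ 2 * (256 * Real.exp 169 * 14 ^ 8) * 49 * Real.exp ((2 * h + 10 : ℝ) ^ 2 / 2),
    by positivity, ?_⟩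
  intro a γ t ha hγ
  have ha0 : (0 : ℝ) ≤ a := Nat.cast_nonneg a
  have hbase : 0 < (1 / 2 + (a : ℂ) + t * I).re := by
    have := hb_base_re a t 0
    rw [add_zero] at this
    rw [this]; simp only [zero_re]; linarith
  refine ⟨fun s h0 h1 => ?_, ?_, ?_⟩
  · have hr := hb_ratio hbase (hG a t s ha h0 h1)
    have hd : 1 / 7 ≤ ‖1 - (γ : ℂ) * (2 : ℂ) ^ (-(1 / 2 + t * I + s))‖ := by
      apply hb_den_ge hγ
      simp only [add_re, mul_re, ofReal_re, I_re, mul_zero, ofReal_im, I_im, mul_one, sub_self,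
        add_zero]
      norm_num
      linarith
    have hb := hb_br_pos s.im
    have hbt := hb_br_pos t
    have hg : ‖gt t s‖ ≤ 256 * (Real.exp 169 * Real.exp (-s.im ^ 2)) * (14 * br s.im) ^ 8 := by
      refine (hb_gt_le t s).trans ?_
      have h2 := hb_exp_sq_le h0 h1
      have h3 := hb_one_add_norm h0 h1
      gcongr
    have hk : br s.im ^ (2 * h + 8) * Real.exp |s.im| ^ 2 * Real.exp (-s.im ^ 2)
        ≤ Real.exp ((2 * h + 10 : ℝ) ^ 2 / 2) * Real.exp (-s.im ^ 2 / 2) := by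
      refine le_trans ?_ (hb_abs_exp (K := 2 * h + 10) (x := s.im))
      have h2 := hb_br_pow s.im (2 * h + 8)
      have e : Real.exp ((2 * h + 10 : ℝ) * |s.im|)
          = Real.exp (((2 * h + 8 : ℕ) : ℝ) * |s.im|) * Real.exp |s.im| ^ 2 := by
        rw [← Real.exp_nat_mul, ← Real.exp_add]
        congr 1
        push_cast; ring
      rw [e]
      gcongr
    unfold hh
    rw [norm_div, norm_mul, norm_pow, norm_pow]
    calc ‖Gammaℝ (1 / 2 + a + t * I + s) / Gammaℝ (1 / 2 + a + t * I)‖ ^ 2 * ‖gt t s‖ /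
          ‖1 - (γ : ℂ) * (2 : ℂ) ^ (-(1 / 2 + t * I + s))‖ ^ 2
        ≤ (C * br t ^ h * br s.im ^ h * Real.exp |s.im|) ^ 2 *
          (256 * (Real.exp 169 * Real.exp (-s.im ^ 2)) * (14 * br s.im) ^ 8) / (1 / 7) ^ 2 := by
          gcongr
      _ = C ^ 2 * (256 * Real.exp 169 * 14 ^ 8) * 49 * br t ^ (2 * h) *
          (br s.im ^ (2 * h + 8) * Real.exp |s.im| ^ 2 * Real.exp (-s.im ^ 2)) := by ring
      _ ≤ C ^ 2 * (256 * Real.exp 169 * 14 ^ 8) * 49 * br t ^ (2 * h) *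
          (Real.exp ((2 * h + 10 : ℝ) ^ 2 / 2) * Real.exp (-s.im ^ 2 / 2)) := by gcongr
      _ = _ := by ring
  · refine ⟨fun s => (Gammaℝ (1 / 2 + a + t * I + s) / Gammaℝ (1 / 2 + a + t * I)) ^ 2 *
      (cexp (s ^ 2) * ((s + (1 / 2 - t * I)) * (s ^ 2 - (1 / 2 + t * I) ^ 2)) ^ 2 /
        (1 / 4 + (t : ℂ) ^ 2) ^ 4) / (1 - γ * (2 : ℂ) ^ (-(1 / 2 + t * I + s))) ^ 2, ?_, ?_⟩
    · intro s hs
      have hs' : -(1 / 2) < s.re := hs
      apply DifferentiableAt.differentiableWithinAt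
      have h1 : DifferentiableAt ℂ (fun s : ℂ => Gammaℝ (1 / 2 + a + t * I + s)) s := by
        refine DifferentiableAt.comp (f := fun s : ℂ => 1 / 2 + (a : ℂ) + t * I + s) s
          (hb_gamR_diff ?_) (by fun_prop)
        rw [hb_base_re]; linarith
      have h2 : DifferentiableAt ℂ (fun s : ℂ => (2 : ℂ) ^ (-(1 / 2 + t * I + s))) s :=
        DifferentiableAt.const_cpow (by fun_prop) (Or.inl two_ne_zero)
      have h3 : 1 - (γ : ℂ) * (2 : ℂ) ^ (-(1 / 2 + t * I + s)) ≠ 0 := by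
        apply hb_den_ne hγ
        simp only [add_re, mul_re, ofReal_re, I_re, mul_zero, ofReal_im, I_im, mul_one, sub_self,
          add_zero]
        norm_num
        linarith
      refine DifferentiableAt.div (((h1.div_const _).pow 2).mul (by fun_prop))
        (((differentiableAt_const _).sub (h2.const_mul _)).pow 2) (pow_ne_zero _ h3)
    · intro s
      unfold hh gt
      ring
  · unfold hh
    rw [add_zero, add_zero, div_self (Complex.Gammaℝ_ne_zero_of_re_pos hbase), hb_gt_zero]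
    ring

theorem pG0B (hGAM2 : GAM2) : G0B := by
  obtain ⟨h, C, hC, hG⟩ := hGAM2
  refine ⟨C * Real.exp 169 * 7 * Real.exp ((h + 1 : ℝ) ^ 2 / 2), by positivity, ?_⟩
  intro a γ ha hγ
  have ha0 : (0 : ℝ) ≤ a := Nat.cast_nonneg a
  have hbase : 0 < (1 / 2 + (a : ℂ)).re := by
    simp only [add_re, natCast_re]; norm_num; linarith
  have hre : ∀ s : ℂ, (1 / 2 + s).re = 1 / 2 + s.re := by intro s; simp
  have hne : ∀ s : ℂ, 0 < s.re → s ≠ 0 := by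
    intro s hs h0; rw [h0] at hs; simp at hs
  refine ⟨fun s hs => ?_, fun s h0 h1 => ?_⟩
  · have hs' : 0 < s.re := hs
    apply DifferentiableAt.differentiableWithinAt
    have h1 : DifferentiableAt ℂ (fun s : ℂ => Gammaℝ (1 / 2 + a + s)) s := by
      refine DifferentiableAt.comp (f := fun s : ℂ => 1 / 2 + (a : ℂ) + s) s
        (hb_gamR_diff ?_) (by fun_prop)
      rw [add_re]; linarith
    have h2 : DifferentiableAt ℂ (fun s : ℂ => (2 : ℂ) ^ (-(1 / 2 + s))) s :=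
      DifferentiableAt.const_cpow (by fun_prop) (Or.inl two_ne_zero)
    have h3 : 1 - (γ : ℂ) * (2 : ℂ) ^ (-(1 / 2 + s)) ≠ 0 := by
      apply hb_den_ne hγ
      rw [hre]; linarith
    unfold g0
    exact (DifferentiableAt.div ((h1.div_const _).mul (by fun_prop))
      ((differentiableAt_const _).sub (h2.const_mul _)) h3).div differentiableAt_id (hne s hs')
  · have h0' : -(1 / 4) ≤ s.re := by linarith
    have hg := hG a 0 s ha h0' h1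
    simp only [ofReal_zero, zero_mul, add_zero] at hg
    have hb0 : br 0 = 1 := by simp [br]
    rw [hb0, one_pow, mul_one] at hg
    have hr := hb_ratio hbase hg
    have hd : 1 / 7 ≤ ‖1 - (γ : ℂ) * (2 : ℂ) ^ (-(1 / 2 + s))‖ := by
      apply hb_den_ge hγ
      rw [hre]; linarith
    have he := hb_exp_sq_le h0' h1
    have hb := hb_br_pos s.im
    have hk : br s.im ^ h * Real.exp |s.im| * Real.exp (-s.im ^ 2)
        ≤ Real.exp ((h + 1 : ℝ) ^ 2 / 2) * Real.exp (-s.im ^ 2 / 2) := by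
      refine le_trans ?_ (hb_abs_exp (K := h + 1) (x := s.im))
      have h2 := hb_br_pow s.im h
      have e : Real.exp ((h + 1 : ℝ) * |s.im|) = Real.exp ((h : ℝ) * |s.im|) * Real.exp |s.im| := by
        rw [← Real.exp_add]
        congr 1
        ring
      rw [e]
      gcongr
    have hp : 0 < ‖s‖ := norm_pos_iff.2 (hne s h0)
    unfold g0
    rw [norm_div, norm_div, norm_mul]
    gcongr
    calc ‖Gammaℝ (1 / 2 + a + s) / Gammaℝ (1 / 2 + a)‖ * ‖cexp (s ^ 2)‖ /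
          ‖1 - (γ : ℂ) * (2 : ℂ) ^ (-(1 / 2 + s))‖
        ≤ (C * br s.im ^ h * Real.exp |s.im|) * (Real.exp 169 * Real.exp (-s.im ^ 2)) / (1 / 7) := by
          gcongr
      _ = C * Real.exp 169 * 7 * (br s.im ^ h * Real.exp |s.im| * Real.exp (-s.im ^ 2)) := by ring
      _ ≤ C * Real.exp 169 * 7 *
          (Real.exp ((h + 1 : ℝ) ^ 2 / 2) * Real.exp (-s.im ^ 2 / 2)) := by gcongr
      _ = _ := by ring

end Pool.Agent.QM
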