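import Pool.Agent.P.MP_ea46f5_nt.QM.S2

namespace Pool.Agent.QM

open Real Finset

theorem hrp_sg (S : Finset ℕ) : 0 ≤ sg S := sum_nonneg fun _ _ => by positivity

theorem hrp_lin (P : Finset ℕ) (ν : ℕ → ℤ → ℝ) (a b : ℝ) (F G H : (ℕ → ℤ) → ℝ) :
    Ex P ν (fun x => a * F x + b * (G x + H x)) =
      a * Ex P ν F + b * (Ex P ν G + Ex P ν H) := by
  unfold Ex
  rw [← sum_add_distrib, mul_sum, mul_sum, ← sum_add_distrib]
  exact sum_congr rfl fun x _ => by ring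

theorem hrp_nonneg (hE : EXL) {P : Finset ℕ} {ν : ℕ → ℤ → ℝ} (hν : ∀ p ∈ P, ∀ y, 0 ≤ ν p y)
    {R : (ℕ → ℤ) → ℝ} (hR : ∀ x, 0 ≤ R x) : 0 ≤ Ex P ν R := by
  refine le_trans (le_of_eq ?_) (hE.2.2.2.2.2.2 P ν (fun _ => 0) R hν hR)
  simp [Ex]

/-- The exponential moment of a block. -/
theorem hrp_mgf (hE : EXL) {P : Finset ℕ} {ν : ℕ → ℤ → ℝ} (hν : ∀ p ∈ P, ∀ y, 0 ≤ ν p y)
    (θ c : ℝ) (η : ℕ → ℝ)
    (h : ∀ p ∈ P, ∑ y ∈ T3, ν p y * exp (θ * y / √(p : ℝ)) ≤ exp (c / p + η p)) :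
    Ex P ν (fun x => exp (θ * Pb P x)) ≤ exp (c * sg P + ∑ p ∈ P, η p) := by
  have e : (fun x : ℕ → ℤ => exp (θ * Pb P x)) =
      fun x => ∏ p ∈ P, (fun (p : ℕ) (y : ℤ) => exp (θ * y / √(p : ℝ))) p (x p) := by
    funext x
    rw [← exp_sum, Pb, mul_sum]
    congr 1
    exact sum_congr rfl fun p _ => by ring
  rw [e, hE.2.1 P ν (fun (p : ℕ) (y : ℤ) => exp (θ * y / √(p : ℝ)))]
  refine (prod_le_prod (fun p hp => sum_nonneg fun y _ =>
    mul_nonneg (hν p hp y) (exp_pos _).le) h).trans (le_of_eq ?_)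
  rw [← exp_sum, sum_add_distrib, sg, mul_sum]
  congr 2
  exact sum_congr rfl fun p _ => by ring

theorem hrp_half (l : ℕ) : exp (-(l : ℝ)) ≤ 1 / 2 ^ l := by
  have h : exp (-1 : ℝ) ≤ 1 / 2 := by
    rw [exp_neg, inv_le_comm₀ (exp_pos _) (by norm_num)]
    have := Real.add_one_le_exp (1 : ℝ)
    linarith
  have : exp (-(l : ℝ)) = exp (-1) ^ l := by rw [← exp_nat_mul]; ring_nf
  rw [this, ← one_div_pow]
  exact pow_le_pow_left₀ (exp_pos _).le h _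

theorem hrp_num (l : ℕ) {m m₁ m₂ : ℝ} (h₁ : m₁ ≤ m + l) (h₂ : m₂ ≤ m + l) :
    (1 + 1 / 2 ^ l) ^ 2 * exp m + exp (-2 * l) * (exp m₁ + exp m₂) ≤
      exp (m + 4 * (1 / 2 ^ l)) := by
  have hu : (0 : ℝ) ≤ 1 / 2 ^ l := by positivity
  have h := hrp_half l
  have k : ∀ t : ℝ, t ≤ m + l → exp (-2 * l) * exp t ≤ 1 / 2 ^ l * exp m := by
    intro t ht
    calc exp (-2 * l) * exp t ≤ exp (-(l : ℝ)) * exp m := by
          rw [← exp_add, ← exp_add]; exact exp_le_exp.2 (by linarith)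
      _ ≤ _ := by gcongr
  have k1 := k _ h₁
  have k2 := k _ h₂
  generalize (1 : ℝ) / 2 ^ l = u at *
  have h3 : 1 + 4 * u + (4 * u) ^ 2 / 2 ≤ exp (4 * u) :=
    Real.quadratic_le_exp_of_nonneg (by linarith)
  rw [exp_add]
  have h4 : ((1 + u) ^ 2 + 2 * u) * exp m ≤ exp (4 * u) * exp m :=
    mul_le_mul_of_nonneg_right (by nlinarith) (exp_pos _).le
  nlinarith

/-- One block of a squared truncated exponential. -/
theorem hrp_block (hTE : TE) (hE : EXL) {P : Finset ℕ} {ν : ℕ → ℤ → ℝ}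
    (hν : ∀ p ∈ P, ∀ y, 0 ≤ ν p y) {l : ℕ} (hl : 3300 * sg P + 10 ≤ (l : ℝ)) (θ : ℝ) (c : ℝ → ℝ)
    (η : ℕ → ℝ) (hθ : |θ| ≤ 2)
    (h : ∀ p ∈ P, ∀ t : ℝ, |t| ≤ 36 →
      ∑ y ∈ T3, ν p y * exp (t * y / √(p : ℝ)) ≤ exp (c t / p + η p))
    (h1 : c (18 * θ) ≤ c (2 * θ) + 3300) (h2 : c (-18 * θ) ≤ c (2 * θ) + 3300) :
    Ex P ν (fun x => Et l (θ * Pb P x) ^ 2) ≤
      exp (c (2 * θ) * sg P + ∑ p ∈ P, η p + 4 * (1 / 2 ^ l)) := by
  have hb := hrp_sg P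
  have hl1 : 1 ≤ l := by
    have : (1 : ℝ) ≤ l := by linarith
    exact_mod_cast this
  obtain ⟨hθ1, hθ2⟩ := abs_le.1 hθ
  have k := hE.2.2.2.2.2.2 P ν (fun x => Et l (θ * Pb P x) ^ 2)
    (fun x => (1 + 1 / 2 ^ l) ^ 2 * exp (2 * θ * Pb P x) +
      exp (-2 * l) * (exp (18 * θ * Pb P x) + exp (-18 * θ * Pb P x))) hν fun x => by
      simpa only [mul_assoc] using hTE.2.1 l (θ * Pb P x) hl1
  rw [hrp_lin] at k
  have k0 := hrp_mgf hE hν (2 * θ) _ η fun p hp => h p hp _ (abs_le.2 ⟨by linarith, by linarith⟩)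
  have k1 := hrp_mgf hE hν (18 * θ) _ η fun p hp => h p hp _ (abs_le.2 ⟨by linarith, by linarith⟩)
  have k2 := hrp_mgf hE hν (-18 * θ) _ η fun p hp =>
    h p hp _ (abs_le.2 ⟨by linarith, by linarith⟩)
  refine k.trans (le_trans ?_ (hrp_num l (m₁ := c (18 * θ) * sg P + ∑ p ∈ P, η p)
    (m₂ := c (-18 * θ) * sg P + ∑ p ∈ P, η p) ?_ ?_))
  · gcongr
  · nlinarith [mul_le_mul_of_nonneg_right h1 hb]
  · nlinarith [mul_le_mul_of_nonneg_right h2 hb]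

theorem hrp_geo {S : Finset ℕ} {l : ℕ → ℕ} (h : ∀ i ∈ S, 12 * (i + 1) ≤ l i) :
    ∑ i ∈ S, (1 : ℝ) / 2 ^ l i ≤ 2 := by
  have h1 : ∑ i ∈ S, (1 : ℝ) / 2 ^ l i ≤ ∑ i ∈ S, ((1 : ℝ) / 2) ^ i := by
    refine sum_le_sum fun i hi => ?_
    rw [← one_div_pow]
    exact pow_le_pow_of_le_one (by norm_num) (by norm_num) (by have := h i hi; omega)
  exact h1.trans (sum_le_hasSum S (fun i _ => by positivity) hasSum_geometric_two)

/-- All blocks. -/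
theorem hrp_all (hTE : TE) (hE : EXL) {S : Finset ℕ} {Bl : ℕ → Finset ℕ} {l : ℕ → ℕ}
    (hB : Blk S Bl l) {ν : ℕ → ℤ → ℝ} (hν : ∀ i ∈ S, ∀ p ∈ Bl i, ∀ y, 0 ≤ ν p y) (θ : ℝ)
    (c : ℝ → ℝ) (η : ℕ → ℝ) (hθ : |θ| ≤ 2)
    (h : ∀ i ∈ S, ∀ p ∈ Bl i, ∀ t : ℝ, |t| ≤ 36 →
      ∑ y ∈ T3, ν p y * exp (t * y / √(p : ℝ)) ≤ exp (c t / p + η p))
    (h1 : c (18 * θ) ≤ c (2 * θ) + 3300) (h2 : c (-18 * θ) ≤ c (2 * θ) + 3300) :
    ∏ i ∈ S, Ex (Bl i) ν (fun x => Et (l i) (θ * Pb (Bl i) x) ^ 2) ≤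
      exp 8 * exp (c (2 * θ) * sg (S.biUnion Bl) + ∑ p ∈ S.biUnion Bl, η p) := by
  have hd : (S : Set ℕ).PairwiseDisjoint Bl := fun i hi j hj hij => hB.disj i hi j hj hij
  refine (prod_le_prod (fun i hi => hrp_nonneg hE (hν i hi) fun x => sq_nonneg _) fun i hi =>
    hrp_block hTE hE (hν i hi) (hB.ell i hi) θ c η hθ (h i hi) h1 h2).trans ?_
  have e : sg (S.biUnion Bl) = ∑ i ∈ S, sg (Bl i) := sum_biUnion hd
  rw [← exp_sum, ← exp_add, sum_add_distrib, sum_add_distrib, ← mul_sum, ← mul_sum, ← e,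
    ← sum_biUnion hd]
  exact exp_le_exp.2 (by linarith [hrp_geo hB.lin])

theorem pHRP (hTE : TE) (hEXL : EXL) (hEXF : EXF) : HRP := by
  refine ⟨exp 8, exp_pos _, fun S Bl l β hB h0 h2 ν η hν _ hm => ?_⟩
  have e := hEXF S Bl ν (fun i u => Et (l i) (-β / 2 * u) ^ 2) hB.disj
  have k := hrp_all hTE hEXL hB (fun i _ p _ y => hν p y) (-β / 2)
    (fun t => 10 + 4 * t + t ^ 2 / 2) η (abs_le.2 ⟨by linarith, by linarith⟩)
    (fun i hi p hp t ht => hm p (mem_biUnion.2 ⟨i, hi, hp⟩) t ht) (by nlinarith) (by nlinarith)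
  refine (le_of_eq e).trans (k.trans (le_of_eq ?_))
  rw [mul_assoc (exp 8), ← exp_add (_ * _)]
  congr 2
  ring

theorem hrp_mu0 {p : ℕ} (hp : p.Prime) (y : ℤ) : 0 ≤ mu0 p y := by
  have h : (1 : ℝ) ≤ p := by exact_mod_cast hp.one_le
  have h1 : 1 / (p : ℝ) ≤ 1 := (div_le_one (by linarith)).2 h
  unfold mu0
  split_ifs
  · positivity
  · linarith

theorem hrp_cosh {p : ℕ} (hp : p.Prime) (t : ℝ) :
    ∑ y ∈ T3, mu0 p y * exp (t * y / √(p : ℝ)) ≤ exp (t ^ 2 / 2 / p + 0) := by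
  have h : (1 : ℝ) ≤ p := by exact_mod_cast hp.one_le
  have h0 : 0 ≤ 1 / (p : ℝ) := by positivity
  have h2 := Real.cosh_le_exp_half_sq (t / √p)
  have h3 := Real.one_le_cosh (t / √p)
  have e : (t / √p) ^ 2 / 2 = t ^ 2 / 2 / p + 0 := by
    rw [div_pow, sq_sqrt (by linarith)]; ring
  rw [e] at h2
  refine le_trans ?_ h2
  unfold T3
  rw [sum_insert (by decide), sum_insert (by decide), sum_singleton]
  rw [Real.cosh_eq] at h3 ⊢
  have e1 : t * ((-1 : ℤ) : ℝ) / √p = -(t / √p) := by push_cast; ring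
  have e2 : t * ((0 : ℤ) : ℝ) / √p = 0 := by push_cast; ring
  have e3 : t * ((1 : ℤ) : ℝ) / √p = t / √p := by push_cast; ring
  rw [e1, e2, e3, exp_zero]
  have m1 : mu0 p (-1) = (1 - 1 / (p : ℝ)) / 2 := if_neg (by decide)
  have m2 : mu0 p 0 = 1 / (p : ℝ) := if_pos rfl
  have m3 : mu0 p 1 = (1 - 1 / (p : ℝ)) / 2 := if_neg (by decide)
  rw [m1, m2, m3]
  nlinarith [mul_le_mul_of_nonneg_left h3 h0]

theorem pZ0E (hTE : TE) (hEXL : EXL) (hEXF : EXF) : Z0E := by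
  have main : ∀ (S : Finset ℕ) (Bl : ℕ → Finset ℕ) (l : ℕ → ℕ) (κ : ℝ), 0 ≤ κ → κ ≤ 4 →
      Blk S Bl l → ∏ i ∈ S, Ex (Bl i) mu0 (fun x => Et (l i) (κ / 2 * Pb (Bl i) x) ^ 2) ≤
        exp 8 * exp (κ ^ 2 / 2 * sg (S.biUnion Bl)) := by
    intro S Bl l κ h0 h4 hB
    have k := hrp_all hTE hEXL hB (fun i hi p hp y => hrp_mu0 (hB.op i hi p hp).1 y) (κ / 2)
      (fun t => t ^ 2 / 2) (fun _ => 0) (abs_le.2 ⟨by linarith, by linarith⟩)
      (fun i hi p hp t _ => hrp_cosh (hB.op i hi p hp).1 t) (by nlinarith) (by nlinarith)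
    refine k.trans (le_of_eq ?_)
    rw [sum_const_zero]
    congr 2
    ring
  refine ⟨2 * exp 8, by positivity, fun S Bl l κ h0 h4 => ⟨fun hB => ?_, fun j hj hB => ?_⟩⟩
  · have e := hEXF S Bl mu0 (fun i u => Et (l i) (κ / 2 * u) ^ 2) hB.disj
    refine (le_of_eq e).trans ((main S Bl l κ h0 h4 hB).trans ?_)
    have := exp_pos (8 : ℝ)
    gcongr
    linarith
  · have hne : ∀ i ∈ S, i ≠ j := fun i hi h => hj (h ▸ hi)
    have e := hEXF (insert j S) Bl mu0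
      (fun i u => if i = j then (40 * u / l j) ^ (2 * l j) else Et (l i) (κ / 2 * u) ^ 2) hB.disj
    have e1 : (fun x => RR S Bl l (κ / 2) x * QQ (Bl j) (l j) x) = fun x => ∏ i ∈ insert j S,
        (fun i (u : ℝ) => if i = j then (40 * u / l j) ^ (2 * l j) else
          Et (l i) (κ / 2 * u) ^ 2) i (Pb (Bl i) x) := by
      funext x
      rw [prod_insert hj, mul_comm]
      simp only [if_true]
      congr 1
      exact prod_congr rfl fun i hi => (if_neg (hne i hi)).symm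
    have hS : Blk S Bl l := ⟨fun i hi => hB.op i (mem_insert_of_mem hi),
      fun i hi i' hi' => hB.disj i (mem_insert_of_mem hi) i' (mem_insert_of_mem hi'),
      fun i hi => hB.ell i (mem_insert_of_mem hi), fun i hi => hB.lin i (mem_insert_of_mem hi)⟩
    have hν : ∀ p ∈ Bl j, ∀ y, 0 ≤ mu0 p y := fun p hp y =>
      hrp_mu0 (hB.op j (mem_insert_self _ _) p hp).1 y
    have hl := hB.ell j (mem_insert_self _ _)
    have hl1 : 1 ≤ l j := by have := hB.lin j (mem_insert_self _ _); omega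
    have hq : Ex (Bl j) mu0 (fun x => (40 * Pb (Bl j) x / l j) ^ (2 * l j)) ≤
        2 * exp (-(l j : ℝ)) := by
      have k := hEXL.2.2.2.2.2.2 (Bl j) mu0 (fun x => (40 * Pb (Bl j) x / l j) ^ (2 * l j))
        (fun x => 0 * exp (0 * Pb (Bl j) x) +
          exp (-2 * l j) * (exp (80 * Pb (Bl j) x) + exp (-80 * Pb (Bl j) x))) hν fun x => by
          rw [zero_mul, zero_add]
          exact hTE.2.2 (l j) _ hl1
      rw [hrp_lin, zero_mul, zero_add] at k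
      have k1 := hrp_mgf hEXL hν 80 _ (fun _ => 0) fun p hp =>
        hrp_cosh (hB.op j (mem_insert_self _ _) p hp).1 80
      have k2 := hrp_mgf hEXL hν (-80) _ (fun _ => 0) fun p hp =>
        hrp_cosh (hB.op j (mem_insert_self _ _) p hp).1 (-80)
      have hb := hrp_sg (Bl j)
      have k3 : ∀ t : ℝ, t ^ 2 = 6400 → exp (t ^ 2 / 2 * sg (Bl j) + ∑ _p ∈ Bl j, (0 : ℝ)) ≤
          exp (l j) := fun t ht => exp_le_exp.2 (by rw [ht, sum_const_zero]; linarith)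
      have k4 : exp (-2 * l j) * exp (l j) = exp (-(l j : ℝ)) := by rw [← exp_add]; ring_nf
      have k5 := add_le_add (k1.trans (k3 80 (by norm_num))) (k2.trans (k3 (-80) (by norm_num)))
      have k6 := mul_le_mul_of_nonneg_left k5 (exp_pos (-2 * l j)).le
      linarith
    rw [e1, e, prod_insert hj]
    simp only [if_true]
    have e2 : ∏ i ∈ S, Ex (Bl i) mu0 (fun x => if i = j then
        (40 * Pb (Bl i) x / l j) ^ (2 * l j) else Et (l i) (κ / 2 * Pb (Bl i) x) ^ 2) =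
        ∏ i ∈ S, Ex (Bl i) mu0 (fun x => Et (l i) (κ / 2 * Pb (Bl i) x) ^ 2) :=
      prod_congr rfl fun i hi => by simp only [if_neg (hne i hi)]
    rw [e2]
    have h5 := mul_le_mul hq (main S Bl l κ h0 h4 hS) (prod_nonneg fun i hi => hrp_nonneg hEXL
      (fun p hp y => hrp_mu0 (hS.op i hi p hp).1 y) fun x => sq_nonneg _) (by positivity)
    exact h5.trans (le_of_eq (by ring))

end Pool.Agent.QM
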