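import Pool.Agent.P.MP_ea46f5_nt.QM.S2

namespace Pool.Agent.QM

open Complex MeasureTheory Finset
open scoped Real ComplexConjugate

theorem main_geo (n : ℕ) : ∑ j ∈ range n, (1 / 2 : ℝ) ^ j ≤ 2 := by
  have h := Summable.sum_le_tsum (range n) (fun j _ => by positivity) summable_geometric_two
  rwa [tsum_geometric_two] at h

theorem main_dy {X Y a : ℝ} (hY : 0 < Y) (haY : Y < a) (haX : a ≤ X) :
    ∃ j : ℕ, j < ⌈X / Y⌉₊ ∧ Y ≤ X / 2 ^ j ∧ X / 2 ^ j / 2 < a ∧ a ≤ X / 2 ^ j := by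
  have ha : 0 < a := hY.trans haY
  have h1 : 1 ≤ X / a := (one_le_div ha).2 haX
  obtain ⟨j, hj1, hj2⟩ := exists_nat_pow_near h1 (one_lt_two (α := ℝ))
  have hp : (0 : ℝ) < 2 ^ j := by positivity
  have h3 : a ≤ X / 2 ^ j := by
    rw [le_div_iff₀ hp]
    rw [le_div_iff₀ ha] at hj1
    linarith
  refine ⟨j, ?_, haY.le.trans h3, ?_, h3⟩
  · rw [Nat.lt_ceil]
    have h4 : (j : ℝ) < 2 ^ j := by exact_mod_cast Nat.lt_two_pow_self
    have h5 : X / a ≤ X / Y := div_le_div_of_nonneg_left (ha.le.trans haX) hY haY.le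
    linarith
  · rw [div_div, div_lt_iff₀ (by positivity)]
    rw [div_lt_iff₀ ha, pow_succ] at hj2
    linarith

theorem main_bi (S : Finset ℕ) (F : ℕ → Finset ℤ) (g : ℤ → ℝ) (hg : ∀ k, 0 ≤ g k) :
    ∑ k ∈ S.biUnion F, g k ≤ ∑ j ∈ S, ∑ k ∈ F j, g k := by
  induction S using Finset.induction_on with
  | empty => simp
  | insert a S ha ih =>
    rw [biUnion_insert, sum_insert ha]
    have h6 := sum_union_inter (s₁ := F a) (s₂ := S.biUnion F) (f := g)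
    have h7 : 0 ≤ ∑ k ∈ F a ∩ S.biUnion F, g k := sum_nonneg fun k _ => hg k
    linarith

open Classical in
theorem pMAIN (hDY : DY) (hFE : FE) (hBRG : BRG) : MAIN := by
  intro κ h2 h4
  obtain ⟨C, X₀, hC, hD⟩ := hDY κ h2 h4
  set Y : ℝ := max X₀ 3 with hYdef
  have hY3 : 3 ≤ Y := le_max_right _ _
  set e : ℝ := κ * (κ + 1) / 2 with he
  have he0 : 0 ≤ e := by rw [he]; positivity
  set g : ℤ → ℝ := fun k => ‖Lf k (1 / 2)‖ ^ κ with hg
  have hg0 : ∀ k, 0 ≤ g k := fun k => by rw [hg]; positivity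
  set C₀ : ℝ := ∑ k ∈ Icc (-⌈Y⌉) ⌈Y⌉, g k with hC₀
  have hC₀0 : 0 ≤ C₀ := sum_nonneg fun k _ => hg0 k
  refine ⟨C₀ + 2 * C, fun X hX => ?_⟩
  have hX0 : 0 < X := by linarith
  have hL1 : 1 ≤ Real.log X := by
    rw [Real.le_log_iff_exp_le hX0]
    exact Real.exp_one_lt_d9.le.trans (by linarith)
  have hLe : 1 ≤ Real.log X ^ e := Real.one_le_rpow hL1 he0
  set K : Finset ℤ := (Icc (-⌈X⌉) ⌈X⌉).filter
    fun k => Squarefree k ∧ k ≠ 1 ∧ |(k : ℝ)| ≤ X with hK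
  have hsub : Fund X ⊆ K.image disc := by
    intro d hd
    rw [Fund, mem_filter, mem_Ioo] at hd
    obtain ⟨k, hk1, hk2, hk3⟩ := hBRG.1 d hd.2
    have h5 := (hBRG.2.1 k).1
    rw [qk, hk3] at h5
    have h6 : |(d : ℝ)| ≤ X := by
      rw [abs_le]
      have h7 : -d < ⌈X⌉ := by linarith [hd.1.1]
      have h8 := Int.lt_ceil.1 h7
      have h9 := Int.lt_ceil.1 hd.1.2
      push_cast at h8
      constructor <;> linarith
    have h10 : |(k : ℝ)| ≤ X := h5.trans h6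
    refine mem_image.2 ⟨k, ?_, hk3⟩
    rw [hK, mem_filter, mem_Icc]
    have h11 := abs_le.1 (h10.trans (Int.le_ceil X))
    exact ⟨⟨by exact_mod_cast h11.1, by exact_mod_cast h11.2⟩, hk1, hk2, h10⟩
  have h1 : ∑ d ∈ Fund X, ‖Lhalf d‖ ^ κ ≤ ∑ k ∈ K, g k := by
    calc ∑ d ∈ Fund X, ‖Lhalf d‖ ^ κ ≤ ∑ d ∈ K.image disc, ‖Lhalf d‖ ^ κ :=
          sum_le_sum_of_subset_of_nonneg hsub fun d _ _ => by positivity
      _ ≤ ∑ k ∈ K, ‖Lhalf (disc k)‖ ^ κ :=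
          sum_image_le_of_nonneg fun d _ => by positivity
      _ = ∑ k ∈ K, g k := by
          refine sum_congr rfl fun k hk => ?_
          rw [hK, mem_filter] at hk
          rw [(hFE k hk.2.1 hk.2.2.1).2]
  set S : Finset ℕ := (range ⌈X / Y⌉₊).filter fun j => Y ≤ X / 2 ^ j with hS
  have hsub2 : K ⊆ Icc (-⌈Y⌉) ⌈Y⌉ ∪ S.biUnion fun j => Sq (X / 2 ^ j) := by
    intro k hk
    rw [hK, mem_filter] at hk
    rcases le_or_gt |(k : ℝ)| Y with h | h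
    · have h11 := abs_le.1 (h.trans (Int.le_ceil Y))
      exact mem_union_left _ (mem_Icc.2 ⟨by exact_mod_cast h11.1, by exact_mod_cast h11.2⟩)
    · obtain ⟨j, hj1, hj2, hj3, hj4⟩ := main_dy (by linarith) h hk.2.2.2
      refine mem_union_right _ (mem_biUnion.2 ⟨j, ?_, ?_⟩)
      · rw [hS, mem_filter, mem_range]; exact ⟨hj1, hj2⟩
      · have h11 := abs_le.1 (hj4.trans (Int.le_ceil _))
        rw [Sq, mem_filter, mem_Icc]
        exact ⟨⟨by exact_mod_cast h11.1, by exact_mod_cast h11.2⟩, hk.2.1, hk.2.2.1, hj3, hj4⟩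
  have h3 : ∀ j ∈ S, ∑ k ∈ Sq (X / 2 ^ j), g k ≤ C * X * Real.log X ^ e * (1 / 2) ^ j := by
    intro j hj
    rw [hS, mem_filter] at hj
    have hp : (1 : ℝ) ≤ 2 ^ j := one_le_pow₀ one_le_two
    have h5 : X / 2 ^ j ≤ X := div_le_self hX0.le hp
    have h6 : 3 ≤ X / 2 ^ j := hY3.trans hj.2
    have h7 : Real.log (X / 2 ^ j) ^ e ≤ Real.log X ^ e :=
      Real.rpow_le_rpow (Real.log_nonneg (by linarith)) (Real.log_le_log (by linarith) h5) he0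
    calc ∑ k ∈ Sq (X / 2 ^ j), g k ≤ C * (X / 2 ^ j) * Real.log (X / 2 ^ j) ^ e :=
          hD _ ((le_max_left _ _).trans hj.2)
      _ ≤ C * (X / 2 ^ j) * Real.log X ^ e := by gcongr
      _ = C * X * Real.log X ^ e * (1 / 2) ^ j := by
          rw [one_div, inv_pow]; field_simp
  have h4' : ∑ k ∈ S.biUnion (fun j => Sq (X / 2 ^ j)), g k ≤ C * X * Real.log X ^ e * 2 := by
    calc ∑ k ∈ S.biUnion (fun j => Sq (X / 2 ^ j)), g k
        ≤ ∑ j ∈ S, ∑ k ∈ Sq (X / 2 ^ j), g k := main_bi S _ g hg0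
      _ ≤ ∑ j ∈ S, C * X * Real.log X ^ e * (1 / 2) ^ j := sum_le_sum h3
      _ ≤ ∑ j ∈ range ⌈X / Y⌉₊, C * X * Real.log X ^ e * (1 / 2) ^ j :=
          sum_le_sum_of_subset_of_nonneg (filter_subset _ _) fun j _ _ => by positivity
      _ = C * X * Real.log X ^ e * ∑ j ∈ range ⌈X / Y⌉₊, (1 / 2 : ℝ) ^ j := by rw [mul_sum]
      _ ≤ C * X * Real.log X ^ e * 2 := by
          have := main_geo ⌈X / Y⌉₊
          gcongr
  have h5 : ∑ k ∈ K, g k ≤ C₀ + C * X * Real.log X ^ e * 2 := by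
    refine (sum_le_sum_of_subset_of_nonneg hsub2 fun k _ _ => hg0 k).trans ?_
    have h6 := sum_union_inter (s₁ := Icc (-⌈Y⌉) ⌈Y⌉)
      (s₂ := S.biUnion fun j => Sq (X / 2 ^ j)) (f := g)
    have h7 : 0 ≤ ∑ k ∈ Icc (-⌈Y⌉) ⌈Y⌉ ∩ S.biUnion (fun j => Sq (X / 2 ^ j)), g k :=
      sum_nonneg fun k _ => hg0 k
    linarith
  have h6 : 1 ≤ X * Real.log X ^ e := one_le_mul_of_one_le_of_one_le (by linarith) hLe
  have h7 : C₀ ≤ C₀ * (X * Real.log X ^ e) := le_mul_of_one_le_right hC₀0 h6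
  calc ∑ d ∈ Fund X, ‖Lhalf d‖ ^ κ ≤ C₀ + C * X * Real.log X ^ e * 2 := h1.trans h5
    _ ≤ C₀ * (X * Real.log X ^ e) + C * X * Real.log X ^ e * 2 := by linarith
    _ = (C₀ + 2 * C) * X * Real.log X ^ e := by ring

end Pool.Agent.QM
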