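import Pool.Agent.P.MP_ea46f5_nt.QM.FCLAa

namespace Pool.Agent.QM

open Complex MeasureTheory Finset
open scoped Real ComplexConjugate

theorem par_union (N : ℕ → ℕ) (J : ℕ) (hN : ∀ i, i ≤ J → N (i + 1) ≤ N i) (d : ℕ) :
    ∀ i, i + d = J + 1 → N (J + 1) ≤ N i ∧
      PP (fun i => (Ioc (N (i + 1)) (N i)).filter Nat.Prime) i J =
        (Ioc (N (J + 1)) (N i)).filter Nat.Prime := by
  induction d with
  | zero =>
    intro i hi
    obtain rfl : i = J + 1 := by omega
    refine ⟨le_rfl, ?_⟩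
    unfold PP
    rw [Icc_eq_empty (by omega)]
    simp
  | succ d ih =>
    intro i hi
    obtain ⟨h1, h2⟩ := ih (i + 1) (by omega)
    have h3 := hN i (by omega)
    refine ⟨h1.trans h3, ?_⟩
    unfold PP at h2 ⊢
    have e : Icc i J = insert i (Icc (i + 1) J) := by
      ext x
      simp only [mem_Icc, mem_insert]
      omega
    rw [e, biUnion_insert, h2, ← filter_union]
    congr 1
    ext x
    simp only [mem_Ioc, mem_union]
    omega

theorem par_anti (N : ℕ → ℕ) (J : ℕ) (hN : ∀ i, i ≤ J → N (i + 1) ≤ N i) (i d : ℕ)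
    (h : i + d ≤ J + 1) : N (i + d) ≤ N i := by
  induction d with
  | zero => exact le_rfl
  | succ d ih => exact (hN (i + d) (by omega)).trans (ih (by omega))

theorem par_sg_split (a b c : ℕ) (h1 : a ≤ b) (h2 : b ≤ c) :
    sg ((Ioc a c).filter Nat.Prime) =
      sg ((Ioc a b).filter Nat.Prime) + sg ((Ioc b c).filter Nat.Prime) := by
  unfold sg
  rw [sum_filter, sum_filter, sum_filter, sum_Ioc_consecutive _ h1 h2]

theorem par_blocks (hPC : PC) (J : ℕ) (lam : ℕ → ℝ) (hl1 : ∀ i, i ≤ J → 1 ≤ lam i)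
    (hanti : ∀ i i', i ≤ i' → lam i' ≤ lam i) :
    ∃ Bl : ℕ → Finset ℕ, (∀ i, i ≤ J → OP (Bl i)) ∧
      (∀ i, i ≤ J → ∀ j, j ≤ J → i ≠ j → Disjoint (Bl i) (Bl j)) ∧
      (∀ i, i ≤ J → ∀ p ∈ Bl i, (p : ℝ) ≤ Real.exp (lam i)) ∧
      (∀ i, i ≤ J → |sg (PP Bl i J) - Real.log (lam i)| ≤ 7) ∧
      (∀ i, i < J → sg (Bl i) ≤ Real.log (lam i) - Real.log (lam (i + 1)) + 14) ∧
      sg (Bl J) ≤ Real.log (lam J) + 7 := by
  set N : ℕ → ℕ := fun i => if i ≤ J then ⌊Real.exp (lam i)⌋₊ else 2 with hNdef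
  have hN1 : ∀ i, i ≤ J → N i = ⌊Real.exp (lam i)⌋₊ := fun i hi => if_pos hi
  have hNJ : N (J + 1) = 2 := if_neg (by omega)
  have hN2 : ∀ i, 2 ≤ N i := fun i => by
    by_cases hi : i ≤ J
    · rw [hN1 i hi]
      refine Nat.le_floor ?_
      have := Real.add_one_le_exp (lam i)
      have := hl1 i hi
      push_cast
      linarith
    · exact le_of_eq (if_neg hi).symm
  have hN : ∀ i, i ≤ J → N (i + 1) ≤ N i := fun i hi => by
    by_cases h : i + 1 ≤ J
    · rw [hN1 i hi, hN1 _ h]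
      exact Nat.floor_le_floor (Real.exp_le_exp.2 (hanti _ _ (by omega)))
    · obtain rfl : i = J := by omega
      rw [hNJ]
      exact hN2 _
  have hmono : ∀ i i', i ≤ i' → i' ≤ J + 1 → N i' ≤ N i := fun i i' h h' => by
    obtain ⟨d, rfl⟩ := Nat.exists_eq_add_of_le h
    exact par_anti N J hN i d h'
  have hP : ∀ i, i ≤ J → |sg ((Ioc 2 (N i)).filter Nat.Prime) - Real.log (lam i)| ≤ 7 :=
    fun i hi => by rw [hN1 i hi]; exact hPC.2 _ (hl1 i hi)
  refine ⟨fun i => (Ioc (N (i + 1)) (N i)).filter Nat.Prime, ?_, ?_, ?_, ?_, ?_, ?_⟩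
  · intro i _ p hp
    rw [mem_filter, mem_Ioc] at hp
    have := hN2 (i + 1)
    exact ⟨hp.2, by omega⟩
  · intro i hi j hj hij
    rw [disjoint_left]
    intro p hp hq
    rw [mem_filter, mem_Ioc] at hp hq
    rcases lt_or_gt_of_ne hij with h | h
    · have := hmono (i + 1) j h (by omega)
      omega
    · have := hmono (j + 1) i h (by omega)
      omega
  · intro i hi p hp
    rw [mem_filter, mem_Ioc, hN1 i hi] at hp
    exact (Nat.cast_le.2 hp.1.2).trans (Nat.floor_le (Real.exp_pos _).le)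
  · intro i hi
    rw [(par_union N J hN (J + 1 - i) i (by omega)).2, hNJ]
    exact hP i hi
  · intro i hi
    have h1 := par_sg_split 2 (N (i + 1)) (N i) (hN2 _) (hN i hi.le)
    have h2 := (abs_le.1 (hP i hi.le)).2
    have h3 := (abs_le.1 (hP (i + 1) hi)).1
    linarith
  · have h2 := (abs_le.1 (hP J le_rfl)).2
    beta_reduce
    rw [hNJ]
    linarith

theorem pPAR (hPC : PC) : PAR := by
  intro κ B h2 h4
  obtain ⟨η, hη⟩ : ∃ η : ℝ, η = (κ - 2) / 32 := ⟨_, rfl⟩
  have hη0 : 0 < η := by rw [hη]; linarith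
  have hη1 : η < 1 / 16 := by rw [hη]; linarith
  obtain ⟨K, hK⟩ : ∃ K : ℝ, K = 50000 + 12 / η := ⟨_, rfl⟩
  have hK1 : 50000 ≤ K := by
    have : 0 ≤ 12 / η := by positivity
    linarith
  have hK2 : 12 ≤ K * η := by
    rw [hK, add_mul, div_mul_cancel₀ _ hη0.ne']
    linarith
  have hB : (0 : ℝ) ≤ B := Nat.cast_nonneg B
  obtain ⟨c, hc⟩ : ∃ c : ℝ, c = 1 / (200 * (B + 1) * K) := ⟨_, rfl⟩
  have hc0 : 0 < c := by rw [hc]; positivity
  have hc2 : 200 * (B + 1) * K * c = 1 := by rw [hc]; field_simp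
  have hc1 : c ≤ 1 := by
    rw [hc, div_le_one (by positivity)]
    have : 0 ≤ (B : ℝ) * K := by positivity
    linarith
  obtain ⟨Cs, hCs⟩ : ∃ Cs : ℝ, Cs = 7 + |Real.log c| := ⟨_, rfl⟩
  have hCs0 : 0 < Cs := by rw [hCs]; positivity
  refine ⟨Cs, Real.exp (3 + 52 / η ^ 2 + 1 / (η * c) + 1600 * K + Cs), hCs0, fun L hL => ?_⟩
  have hL0 : 0 < L := (Real.exp_pos _).trans_le hL
  obtain ⟨M, hM⟩ : ∃ M : ℝ, M = Real.log L := ⟨_, rfl⟩
  have hLM : L = Real.exp M := by rw [hM, Real.exp_log hL0]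
  have hM0 : 3 + 52 / η ^ 2 + 1 / (η * c) + 1600 * K + Cs ≤ M := by
    rw [hM]; exact (Real.le_log_iff_exp_le hL0).2 hL
  have p1 : 0 < 52 / η ^ 2 := by positivity
  have p2 : 0 < 1 / (η * c) := by positivity
  have hM3 : 3 ≤ M := by linarith
  have hMa : 52 ≤ η ^ 2 * M := by
    have : 52 / η ^ 2 ≤ M := by linarith
    rwa [div_le_iff₀ (by positivity), mul_comm] at this
  have hMb : 1 ≤ η * c * M := by
    have : 1 / (η * c) ≤ M := by linarith
    rwa [div_le_iff₀ (by positivity), mul_comm] at this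
  have hMc : 1600 * K ≤ M := by linarith
  have hMd : Cs ≤ M := by linarith
  obtain ⟨J, hJ⟩ : ∃ J : ℕ, J = ⌊(1 - 2 * η) * M / (1 - η)⌋₊ := ⟨_, rfl⟩
  have hη2 : 0 < 1 - η := by linarith
  have hJ1 : (1 - η) * J ≤ (1 - 2 * η) * M := by
    have : (J : ℝ) ≤ (1 - 2 * η) * M / (1 - η) := by
      rw [hJ]; exact Nat.floor_le (div_nonneg (mul_nonneg (by linarith) (by linarith)) hη2.le)
    rwa [le_div_iff₀ hη2, mul_comm] at this
  have hJ2 : (1 - 2 * η) * M < (1 - η) * (J + 1) := by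
    have : (1 - 2 * η) * M / (1 - η) < J + 1 := by rw [hJ]; exact Nat.lt_floor_add_one _
    rwa [div_lt_iff₀ hη2, mul_comm _ (1 - η)] at this
  have hJ0 : (0 : ℝ) ≤ J := Nat.cast_nonneg J
  have hJ3 : (J : ℝ) ≤ (1 - η) * M := by
    refine le_of_mul_le_mul_left (hJ1.trans ?_) hη2
    have := mul_nonneg (sq_nonneg η) (by linarith : 0 ≤ M)
    linarith
  have hηM : 0 ≤ η * M := by positivity
  have hJ4 : M / 2 ≤ J := by
    have a1 : 0 ≤ η * J := by positivity
    have a2 := mul_le_mul_of_nonneg_right hη1.le (by linarith : 0 ≤ M)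
    linarith
  have hJ5 : (J : ℝ) ≤ M := by linarith
  have hDel : ∀ j : ℕ, Del κ L j = Real.exp (M - (1 - η) * j) := fun j => by
    unfold Del
    rw [← hη, hLM, ← Real.exp_add]
    congr 1
    ring
  set lam : ℕ → ℝ := fun i => c * Real.exp (M - i) with hlam
  set l : ℕ → ℕ := fun i => ⌈K * Real.exp (η * i)⌉₊ with hl
  have hlo : ∀ i : ℕ, K * Real.exp (η * i) ≤ l i := fun i => Nat.le_ceil _
  have he1 : ∀ i : ℕ, 1 + η * i ≤ Real.exp (η * i) := fun i => by
    have := Real.add_one_le_exp (η * i)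
    linarith
  have he2 : ∀ i : ℕ, 1 ≤ Real.exp (η * i) := fun i => Real.one_le_exp (by positivity)
  have hup : ∀ i : ℕ, (l i : ℝ) ≤ 2 * K * Real.exp (η * i) := fun i => by
    have h1 : (l i : ℝ) < K * Real.exp (η * i) + 1 := Nat.ceil_lt_add_one (by positivity)
    have := mul_le_mul hK1 (he2 i) zero_le_one (by linarith)
    linarith
  have hanti : ∀ i i' : ℕ, i ≤ i' → lam i' ≤ lam i := fun i i' h => by
    have : (i : ℝ) ≤ i' := Nat.cast_le.2 h
    exact mul_le_mul_of_nonneg_left (Real.exp_le_exp.2 (by linarith)) hc0.le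
  have hl1 : ∀ i, i ≤ J → 1 ≤ lam i := fun i hi => by
    refine le_trans ?_ (hanti i J hi)
    have h1 := Real.add_one_le_exp (M - J)
    have h3 : η * M ≤ Real.exp (M - J) := by linarith
    calc (1 : ℝ) ≤ c * (η * M) := by linarith
      _ ≤ _ := mul_le_mul_of_nonneg_left h3 hc0.le
  have hlog : ∀ i : ℕ, Real.log (lam i) = Real.log c + (M - i) := fun i => by
    rw [hlam, Real.log_mul hc0.ne' (Real.exp_pos _).ne', Real.log_exp]
  have hlogc : Real.log c ≤ 0 := Real.log_nonpos hc0.le hc1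
  have hlJ : 325000 * M ≤ l J := by
    refine le_trans ?_ (hlo J)
    have h1 := Real.quadratic_le_exp_of_nonneg (by positivity : 0 ≤ η * J)
    have h3 : η * (M / 2) ≤ η * J := mul_le_mul_of_nonneg_left hJ4 hη0.le
    have h5 : (η * (M / 2)) ^ 2 ≤ (η * J) ^ 2 := pow_le_pow_left₀ (by positivity) h3 2
    have h6 : 13 * M ≤ (η * (M / 2)) ^ 2 := by
      have := mul_le_mul_of_nonneg_right hMa (by linarith : 0 ≤ M)
      linarith
    have h7 : 13 / 2 * M ≤ Real.exp (η * J) := by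
      have : 0 ≤ η * J := by positivity
      linarith
    calc 325000 * M = 50000 * (13 / 2 * M) := by ring
      _ ≤ _ := mul_le_mul hK1 h7 (by linarith) (by linarith)
  have hlL : ∀ i, i ≤ J → (l i : ℝ) ≤ L / 400 := fun i hi => by
    refine (hup i).trans ?_
    have h1 : (i : ℝ) ≤ J := Nat.cast_le.2 hi
    have h3 : Real.exp (η * i) ≤ Real.exp (M / 2) := by
      refine Real.exp_le_exp.2 ?_
      have a1 : (0 : ℝ) ≤ i := Nat.cast_nonneg i
      have := mul_le_mul_of_nonneg_right hη1.le a1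
      linarith
    have h5 := Real.add_one_le_exp (M / 2)
    have h6 : L = Real.exp (M / 2) * Real.exp (M / 2) := by
      rw [← Real.exp_add, hLM]; congr 1; ring
    have h7 : 2 * K ≤ Real.exp (M / 2) / 400 := by linarith
    calc _ ≤ Real.exp (M / 2) / 400 * Real.exp (M / 2) :=
          mul_le_mul h7 h3 (Real.exp_pos _).le (by positivity)
      _ = _ := by rw [h6]; ring
  have hll : ∀ i : ℕ, 2 * (B + 1) * lam i * l i ≤ Del κ L i / 50 := fun i => by
    have h1 : Real.exp (M - i) * Real.exp (η * i) = Del κ L i := by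
      rw [hDel, ← Real.exp_add]; congr 1; ring
    have h3 : 0 ≤ 2 * (B + 1) * lam i := by positivity
    calc _ ≤ 2 * (B + 1) * lam i * (2 * K * Real.exp (η * i)) :=
          mul_le_mul_of_nonneg_left (hup i) h3
      _ = (200 * (B + 1) * K * c) * (Real.exp (M - i) * Real.exp (η * i)) / 50 := by
          simp only [hlam]; ring
      _ = _ := by rw [hc2, h1, one_mul]
  have hDJ : 52 * (M + 1) ≤ Del κ L J := by
    rw [hDel]
    have h1 : Real.exp (2 * η * M) ≤ Real.exp (M - (1 - η) * J) :=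
      Real.exp_le_exp.2 (by linarith)
    have h0 : 0 ≤ 2 * η * M := by positivity
    have h3 := Real.quadratic_le_exp_of_nonneg h0
    have h5 := mul_le_mul_of_nonneg_right hMa (by linarith : 0 ≤ M)
    linarith
  have hDanti : ∀ i j : ℕ, j ≤ i → Del κ L i ≤ Del κ L j := fun i j h => by
    rw [hDel, hDel]
    have : (j : ℝ) ≤ i := Nat.cast_le.2 h
    have := mul_le_mul_of_nonneg_left this hη2.le
    exact Real.exp_le_exp.2 (by linarith)
  obtain ⟨Bl, b1, b2, b3, b4, b5, b6⟩ := par_blocks hPC J lam hl1 hanti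
  refine ⟨J, Bl, l, lam, ⟨?_, ?_, ?_, ?_⟩, ?_, hl1, ?_, ?_, ?_, ?_, ?_, ?_, ?_, ?_, ?_⟩
  · exact fun i hi => b1 i (mem_Icc.1 hi).2
  · exact fun i hi j hj => b2 i (mem_Icc.1 hi).2 j (mem_Icc.1 hj).2
  · intro i hi
    rcases (mem_Icc.1 hi).2.lt_or_eq with h | rfl
    · have h1 := b5 i h
      rw [hlog, hlog] at h1
      push_cast at h1
      have h3 := hlo i
      have h5 := mul_le_mul hK1 (he2 i) zero_le_one (by linarith)
      linarith
    · rw [hlog] at b6
      linarith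
  · intro i _
    have h1 : (12 : ℝ) * (i + 1) ≤ l i := by
      have h3 := mul_le_mul_of_nonneg_left (he1 i) (by linarith : 0 ≤ K)
      have h5 := mul_le_mul_of_nonneg_right hK2 (Nat.cast_nonneg (α := ℝ) i)
      have h6 := hlo i
      linarith
    exact_mod_cast h1
  · exact fun i i' h h' p hp => (b3 i' h' p hp).trans (Real.exp_le_exp.2 (hanti i i' h))
  · intro i j h _
    refine le_trans ?_ (hDanti i j h)
    rw [hDel]
    have h1 : Real.exp (M - i) ≤ Real.exp (M - (1 - η) * i) := by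
      have : 0 ≤ η * i := by positivity
      exact Real.exp_le_exp.2 (by linarith)
    exact (mul_le_of_le_one_left (Real.exp_pos _).le hc1).trans h1
  · intro i hi
    have := hlL i hi
    linarith
  · rw [← hM]
    linarith
  · intro i hi
    have h1 := b4 i hi
    rw [hlog] at h1
    rw [← hM, hCs, abs_le]
    have h3 := abs_le.1 h1
    have h5 := neg_abs_le (Real.log c)
    have h6 := abs_nonneg (Real.log c)
    constructor <;> linarith [h3.1, h3.2]
  · linarith
  · rw [hDel, Real.rpow_def_of_pos hL0, ← hM]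
    have h1 : Real.exp (M - (1 - η) * J) ≤ Real.exp (1 + M * ((κ - 2) / 16)) := by
      have e : (κ - 2) / 16 = 2 * η := by rw [hη]; ring
      rw [e]
      exact Real.exp_le_exp.2 (by linarith)
    rw [Real.exp_add] at h1
    exact h1.trans (mul_le_mul_of_nonneg_right (Real.exp_one_lt_d9.le.trans (by norm_num))
      (Real.exp_pos _).le)
  · intro j hj
    have h1 : ∑ i ∈ Icc j J, (4 + 2 * (B + 1) * lam i * l i) ≤
        ∑ i ∈ Icc j J, (4 + Del κ L j / 50 * Real.exp (-((1 - η) * (i - j : ℕ)))) := by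
      refine sum_le_sum fun i hi => ?_
      have h3 := hll i
      have h5 : Del κ L i = Del κ L j * Real.exp (-((1 - η) * (i - j : ℕ))) := by
        rw [hDel, hDel, ← Real.exp_add, Nat.cast_sub (mem_Icc.1 hi).1]
        congr 1
        ring
      rw [h5] at h3
      linarith
    have h3 : ∑ i ∈ Icc j J, Real.exp (-((1 - η) * (i - j : ℕ))) ≤ 3 := by
      have h5 := cls_sum_exp_neg_le hη2 ((Icc j J).image fun i => i - j)
      rw [sum_image (fun a ha b hb h => by
        have := (mem_Icc.1 (mem_coe.1 ha)).1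
        have := (mem_Icc.1 (mem_coe.1 hb)).1
        omega)] at h5
      have h6 : 1 / (1 - η) ≤ 2 := by
        rw [div_le_iff₀ hη2]
        linarith
      linarith
    refine h1.trans ?_
    rw [sum_add_distrib, ← mul_sum, sum_const, Nat.card_Icc, nsmul_eq_mul]
    have h5 : ((J + 1 - j : ℕ) : ℝ) ≤ J + 1 := by exact_mod_cast Nat.sub_le _ _
    have h6 := hDanti J j hj
    have h7 := mul_le_mul_of_nonneg_left h3 (by linarith : 0 ≤ Del κ L j / 50)
    linarith
  · intro i hi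
    have h1 := hll i
    have h3 := hlL i hi
    have h5 := hDanti i 0 (Nat.zero_le i)
    rw [hDel 0, Nat.cast_zero, mul_zero, sub_zero, ← hLM] at h5
    linarith
  · rw [hLM, ← Real.exp_nat_mul, ← hLM]
    refine Real.exp_le_exp.2 ?_
    push_cast
    linarith

end Pool.Agent.QM
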