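import Pool.Agent.P.MP_ea46f5_nt.QM.FPHIa

namespace Pool.Agent.QM

open Complex MeasureTheory Finset
open scoped Real ComplexConjugate

theorem pTHB : THB := by
  intro A
  refine ⟨phi_thC A, phi_thC_pos A, ?_, fun z hz => ⟨?_, phi_th_sub_one A hz⟩⟩
  · intro z hz
    apply DifferentiableAt.differentiableWithinAt
    have h : (1 + z) ≠ 0 := by
      intro h
      have h2 := congrArg Complex.re h
      simp only [add_re, one_re, zero_re] at h2
      have h3 : -1 < z.re := hz
      linarith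
    unfold th
    exact DifferentiableAt.div (by fun_prop) (by fun_prop) (pow_ne_zero _ h)
  · refine (phi_th_le A hz).trans ?_
    have h := phi_thC_ge A
    have h2 : (A : ℝ) + 2 ≤ phi_thC A := by linarith
    gcongr

lemma phi_Del_pos (κ : ℝ) {L : ℝ} (hL : 0 < L) (j : ℕ) : 0 < Del κ L j := by
  unfold Del; positivity

lemma phi_Del_zero (κ L : ℝ) : Del κ L 0 = L := by simp [Del]

lemma phi_Del_step {κ L : ℝ} (h2 : 2 < κ) (h4 : κ < 4) (hL : 0 < L) (j : ℕ) :
    Del κ L (j + 1) ≤ Del κ L j ∧ Del κ L j ≤ 3 * Del κ L (j + 1) := by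
  have e : Del κ L j = Del κ L (j + 1) * Real.exp (1 - (κ - 2) / 32) := by
    unfold Del
    rw [mul_assoc, ← Real.exp_add]
    congr 2
    push_cast; ring
  have hp := phi_Del_pos κ hL (j + 1)
  have h1 : 1 ≤ Real.exp (1 - (κ - 2) / 32) := Real.one_le_exp (by linarith)
  have h3 : Real.exp (1 - (κ - 2) / 32) ≤ 3 := by
    have : Real.exp (1 - (κ - 2) / 32) ≤ Real.exp 1 := Real.exp_le_exp.2 (by linarith)
    have := Real.exp_one_lt_d9
    linarith
  rw [e]
  constructor <;> nlinarith

lemma phi_phj_zero (A : ℕ) (Δ : ℕ → ℝ) : phj A Δ 0 = phi_ph0 A (Δ 0) := by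
  funext s; simp [phj, phi_ph0]

lemma phi_phj_succ (A : ℕ) (Δ : ℕ → ℝ) (j : ℕ) :
    phj A Δ (j + 1) = phi_phJ A (Δ (j + 1)) (Δ j) := by
  funext s; simp [phj, phi_phJ]

theorem pPHI (_hTHB : THB) : PHI := by
  intro A
  have hc := phi_thC_pos A
  have hg := phi_thC_ge A
  have hA : (0 : ℝ) ≤ A := Nat.cast_nonneg A
  have h3 : (1 : ℝ) ≤ 3 ^ A := one_le_pow₀ (by norm_num)
  have hm : phi_thC A ≤ phi_thC A * 3 ^ A := le_mul_of_one_le_right hc.le h3
  refine ⟨15 * phi_thC A * 3 ^ A, by positivity, ?_⟩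
  intro κ L h2 h4 hL
  have hL0 : 0 < L := by linarith
  have he : 0 < 1 / L := by positivity
  refine ⟨?_, ?_, ?_, ?_, ?_⟩
  · intro j
    rcases j with _ | j
    · rw [phi_phj_zero]
      have hD := (phi_Del_pos κ hL0 0).le
      refine ⟨fun s hs => (phi_ph0_diffAt _ hD hs).differentiableWithinAt, fun s hs _ => ?_⟩
      refine (phi_ph0_far A he hD hs).trans ?_
      rw [neg_mul, div_div_eq_mul_div, div_one]
      have : 2 * ((A : ℝ) + 2) ≤ 15 * phi_thC A * 3 ^ A := by nlinarith
      gcongr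
    · rw [phi_phj_succ]
      have hD := (phi_Del_pos κ hL0 (j + 1)).le
      have hD' := (phi_Del_pos κ hL0 j).le
      refine ⟨fun s hs => (phi_phJ_diffAt _ hD hD' hs).differentiableWithinAt, fun s hs _ => ?_⟩
      refine (phi_phJ_far A he hD (phi_Del_step h2 h4 hL0 j).1 hs).trans ?_
      rw [neg_mul, div_div_eq_mul_div, div_one]
      have : 4 * ((A : ℝ) + 2) ≤ 15 * phi_thC A * 3 ^ A := by nlinarith
      gcongr
  · intro lam hl hlL s τ hs
    rw [phi_phj_zero, phi_Del_zero]
    have hel : 1 / L * lam ≤ 1 := by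
      rw [one_div, inv_mul_le_iff₀ hL0]; linarith
    simp only [ofReal_zero, zero_mul, sub_zero, pow_zero, mul_one]
    refine (phi_ph0_near A he hl hel hlL hs).trans ?_
    rw [div_div_eq_mul_div, div_one]
    have : 2 * ((A : ℝ) + 2) ≤ 15 * phi_thC A := by linarith
    gcongr
  · intro j lam hj hl hlD s τ hs
    obtain ⟨j, rfl⟩ := Nat.exists_eq_succ_of_ne_zero hj
    rw [Nat.succ_eq_add_one] at *
    rw [phi_phj_succ]
    have hst := phi_Del_step h2 h4 hL0 j
    have hDL : ∀ i, Del κ L i ≤ L := by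
      intro i
      induction i with
      | zero => rw [phi_Del_zero]
      | succ n ih => exact (phi_Del_step h2 h4 hL0 n).1.trans ih
    have hel : 1 / L * lam ≤ 1 := by
      rw [one_div, inv_mul_le_iff₀ hL0]; linarith [hDL (j + 1)]
    simp only [ofReal_zero, zero_mul, sub_zero, pow_one]
    exact phi_phJ_near A he hl hel hlD hst.1 hst.2 hs
  · intro D hD
    refine ⟨⟨fun s hs => (phi_phF_diffAt _ hD.le hs).differentiableWithinAt, fun s hs _ => ?_⟩, ?_⟩
    · have hs0 : 0 < s.re := by linarith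
      refine (phi_phF_far A hD.le hs0).trans ?_
      simp only [neg_zero, zero_mul, Real.exp_zero, mul_one]
      have : phi_thC A ≤ 15 * phi_thC A * 3 ^ A := by nlinarith
      gcongr
    · intro s τ hs
      simp only [ofReal_zero, zero_mul, sub_zero, pow_one, pow_zero, div_one]
      refine (phi_phF_near A he hD.le hs).trans ?_
      have : 2 * phi_thC A ≤ 15 * phi_thC A * 3 ^ A := by nlinarith
      gcongr
  · intro J s
    rw [Finset.sum_range_succ', phi_phj_zero, ← phi_ph_sum (A + 1) (Del κ L) J s]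
    simp only [phi_phj_succ]
    ring

end Pool.Agent.QM
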