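import Pool.Agent.P.MP_ea46f5_nt.QM.S2

namespace Pool.Agent.QM

open Complex MeasureTheory Finset
open scoped Real ComplexConjugate

theorem qf_step {t x : ℝ} (ht : 0 < t) (hx : 0 < x) :
    t * (x + 1) ^ (-(t + 1)) ≤ x ^ (-t) - (x + 1) ^ (-t) := by
  have h1 : (0 : ℝ) < x + 1 := by linarith
  have e1 : (x + 1) ^ (-(t + 1)) = (x + 1) ^ (-t) / (x + 1) := by
    rw [neg_add, Real.rpow_add h1, Real.rpow_neg_one, div_eq_mul_inv]
  have e2 : x ^ (-t) = (x + 1) ^ (-t) * ((x + 1) / x) ^ t := by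
    rw [Real.div_rpow h1.le hx.le, Real.rpow_neg h1.le, Real.rpow_neg hx.le]
    have : (0 : ℝ) < (x + 1) ^ t := Real.rpow_pos_of_pos h1 t
    field_simp
  have e3 : 1 + t / (x + 1) ≤ ((x + 1) / x) ^ t := by
    have hq : (0 : ℝ) < (x + 1) / x := by positivity
    rw [Real.rpow_def_of_pos hq]
    have hl : 1 / (x + 1) ≤ Real.log ((x + 1) / x) := by
      have := Real.one_sub_inv_le_log_of_pos hq
      have e : 1 - ((x + 1) / x)⁻¹ = 1 / (x + 1) := by field_simp; ring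
      linarith
    have h2 := Real.add_one_le_exp (Real.log ((x + 1) / x) * t)
    have h3 : t / (x + 1) ≤ Real.log ((x + 1) / x) * t := by
      have := mul_le_mul_of_nonneg_right hl ht.le
      have e : 1 / (x + 1) * t = t / (x + 1) := by ring
      linarith
    linarith
  have hp : 0 < (x + 1) ^ (-t) := Real.rpow_pos_of_pos h1 _
  rw [e1, e2]
  have := mul_le_mul_of_nonneg_left e3 hp.le
  have e4 : t * ((x + 1) ^ (-t) / (x + 1)) = (x + 1) ^ (-t) * (t / (x + 1)) := by ring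
  rw [e4]
  nlinarith

theorem qf_zeta {t : ℝ} (ht : 0 < t) (N : ℕ) :
    ∑ n ∈ range N, (n : ℝ) ^ (-(t + 1)) ≤ 1 + 1 / t := by
  have key : ∀ M : ℕ, ∑ n ∈ range (M + 2), (n : ℝ) ^ (-(t + 1)) ≤
      1 + (1 - ((M : ℝ) + 1) ^ (-t)) / t := by
    intro M
    induction M with
    | zero =>
      have : -(t + 1) ≠ 0 := by linarith
      rw [sum_range_succ, sum_range_one, Nat.cast_zero, Real.zero_rpow this]
      simp
    | succ M ih =>
      rw [show M + 1 + 2 = (M + 2) + 1 from rfl, sum_range_succ]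
      have h1 := qf_step ht (x := (M : ℝ) + 1) (by positivity)
      have e : ((M + 2 : ℕ) : ℝ) = (M : ℝ) + 1 + 1 := by push_cast; ring
      have e' : ((M + 1 : ℕ) : ℝ) = (M : ℝ) + 1 := by push_cast; ring
      rw [e, e']
      have h2 : ((M : ℝ) + 1 + 1) ^ (-(t + 1)) ≤
          (((M : ℝ) + 1) ^ (-t) - ((M : ℝ) + 1 + 1) ^ (-t)) / t := by
        rw [le_div_iff₀ ht]
        linarith
      have h3 : (1 - ((M : ℝ) + 1 + 1) ^ (-t)) / t = (1 - ((M : ℝ) + 1) ^ (-t)) / t +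
          (((M : ℝ) + 1) ^ (-t) - ((M : ℝ) + 1 + 1) ^ (-t)) / t := by ring
      linarith
  have h0 : ∑ n ∈ range N, (n : ℝ) ^ (-(t + 1)) ≤ ∑ n ∈ range (N + 2), (n : ℝ) ^ (-(t + 1)) :=
    sum_le_sum_of_subset_of_nonneg (range_subset_range.2 (by omega))
      (fun n _ _ => by positivity)
  refine h0.trans ((key N).trans ?_)
  have h1 : 0 ≤ ((N : ℝ) + 1) ^ (-t) := by positivity
  have h2 : (1 - ((N : ℝ) + 1) ^ (-t)) / t ≤ 1 / t :=
    div_le_div_of_nonneg_right (by linarith) ht.le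
  linarith

theorem qf_split {a b : ℕ} (ha : a ≠ 0) (h : IsSquare (a * b)) :
    ∃ y : ℕ × ℕ × ℕ, a = y.1 * y.2.1 ^ 2 ∧ b = y.1 * y.2.2 ^ 2 := by
  obtain ⟨c, hc⟩ := h
  have hg : 0 < Nat.gcd a b := Nat.gcd_pos_of_pos_left _ (Nat.pos_of_ne_zero ha)
  obtain ⟨a', b', hco, ha', hb'⟩ := Nat.exists_coprime a b
  set g := Nat.gcd a b
  have h1 : g ^ 2 * (a' * b') = c ^ 2 := by
    rw [pow_two c, ← hc]
    calc g ^ 2 * (a' * b') = (a' * g) * (b' * g) := by ring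
      _ = a * b := by rw [← ha', ← hb']
  have h2 : g ∣ c := (Nat.pow_dvd_pow_iff (by norm_num)).1 ⟨_, h1.symm⟩
  obtain ⟨d, hd⟩ := h2
  have h3 : a' * b' = d ^ 2 := by
    have : g ^ 2 * (a' * b') = g ^ 2 * d ^ 2 := by rw [h1, hd]; ring
    exact Nat.eq_of_mul_eq_mul_left (by positivity) this
  have hu : IsUnit (gcd a' b') := by
    rw [show gcd a' b' = Nat.gcd a' b' from rfl, hco]; exact isUnit_one
  have hu' : IsUnit (gcd b' a') := by
    rw [show gcd b' a' = Nat.gcd b' a' from rfl, hco.symm]; exact isUnit_one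
  obtain ⟨u, hu1⟩ := exists_eq_pow_of_mul_eq_pow hu h3
  obtain ⟨v, hv1⟩ := exists_eq_pow_of_mul_eq_pow hu' (by rw [mul_comm]; exact h3)
  exact ⟨(g, u, v), by rw [← hu1, mul_comm]; exact ha', by rw [← hv1, mul_comm]; exact hb'⟩

open Classical in
theorem qf_diag {ε : ℝ} (hε : 0 < ε) (s : Finset (ℕ × ℕ)) :
    ∑ x ∈ s, (if x.1 ≠ 0 ∧ IsSquare (x.1 * x.2) then
      (x.1 : ℝ) ^ (-(1 / 2 + ε)) * (x.2 : ℝ) ^ (-(1 / 2 + ε)) else 0) ≤ (1 + 1 / (2 * ε)) ^ 3 := by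
  set z : ℕ → ℝ := fun n => (n : ℝ) ^ (-(2 * ε + 1)) with hz
  have hz0 : ∀ n, 0 ≤ z n := fun n => by positivity
  have hzs : ∀ u : Finset ℕ, ∑ n ∈ u, z n ≤ 1 + 1 / (2 * ε) := by
    intro u
    obtain ⟨N, hN⟩ := u.exists_nat_subset_range
    exact (sum_le_sum_of_subset_of_nonneg hN fun n _ _ => hz0 n).trans
      (qf_zeta (by positivity) N)
  have hex : ∀ x : ℕ × ℕ, ∃ y : ℕ × ℕ × ℕ, x.1 ≠ 0 ∧ IsSquare (x.1 * x.2) →
      x.1 = y.1 * y.2.1 ^ 2 ∧ x.2 = y.1 * y.2.2 ^ 2 := by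
    intro x
    by_cases h : x.1 ≠ 0 ∧ IsSquare (x.1 * x.2)
    · obtain ⟨y, hy⟩ := qf_split h.1 h.2
      exact ⟨y, fun _ => hy⟩
    · exact ⟨(0, 0, 0), fun h' => absurd h' h⟩
  choose σ hσ using hex
  rw [← sum_filter]
  set s' := s.filter fun x : ℕ × ℕ => x.1 ≠ 0 ∧ IsSquare (x.1 * x.2) with hs'
  have hinj : Set.InjOn σ s' := by
    intro x hx x' hx' h
    have h1 := hσ x (mem_filter.1 (mem_coe.1 hx)).2
    have h2 := hσ x' (mem_filter.1 (mem_coe.1 hx')).2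
    rw [h] at h1
    exact Prod.ext (h1.1.trans h2.1.symm) (h1.2.trans h2.2.symm)
  have hw : ∀ x ∈ s', (x.1 : ℝ) ^ (-(1 / 2 + ε)) * (x.2 : ℝ) ^ (-(1 / 2 + ε)) =
      z (σ x).1 * (z (σ x).2.1 * z (σ x).2.2) := by
    intro x hx
    obtain ⟨h1, h2⟩ := hσ x (mem_filter.1 hx).2
    have e : (x.1 : ℝ) * (x.2 : ℝ) = (((σ x).1 : ℝ) * (((σ x).2.1 : ℝ) * ((σ x).2.2 : ℝ))) ^ 2 := by
      have : x.1 * x.2 = ((σ x).1 * ((σ x).2.1 * (σ x).2.2)) ^ 2 := by
        calc x.1 * x.2 = ((σ x).1 * (σ x).2.1 ^ 2) * ((σ x).1 * (σ x).2.2 ^ 2) := by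
              rw [← h1, ← h2]
          _ = _ := by ring
      exact_mod_cast this
    rw [← Real.mul_rpow (by positivity) (by positivity), e, hz]
    simp only
    rw [← Real.mul_rpow (by positivity) (by positivity),
      ← Real.mul_rpow (by positivity) (by positivity), ← Real.rpow_natCast,
      ← Real.rpow_mul (by positivity)]
    congr 1
    push_cast
    ring
  rw [sum_congr rfl hw, ← sum_image (f := fun y : ℕ × ℕ × ℕ => z y.1 * (z y.2.1 * z y.2.2)) hinj]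
  set u := s'.image σ
  have hsub : u ⊆ (u.image fun y => y.1) ×ˢ
      ((u.image fun y => y.2.1) ×ˢ (u.image fun y => y.2.2)) := by
    intro y hy
    simp only [mem_product]
    exact ⟨mem_image_of_mem _ hy, mem_image_of_mem (fun y : ℕ × ℕ × ℕ => y.2.1) hy,
      mem_image_of_mem (fun y : ℕ × ℕ × ℕ => y.2.2) hy⟩
  refine (sum_le_sum_of_subset_of_nonneg hsub fun y _ _ =>
    mul_nonneg (hz0 _) (mul_nonneg (hz0 _) (hz0 _))).trans ?_
  rw [sum_product]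
  simp only [sum_product, ← mul_sum, ← sum_mul]
  have hb : 0 ≤ 1 + 1 / (2 * ε) := by positivity
  calc _ ≤ (1 + 1 / (2 * ε)) * ((1 + 1 / (2 * ε)) * (1 + 1 / (2 * ε))) :=
        mul_le_mul (hzs _) (mul_le_mul (hzs _) (hzs _) (sum_nonneg fun n _ => hz0 n) hb)
          (mul_nonneg (sum_nonneg fun n _ => hz0 n) (sum_nonneg fun n _ => hz0 n)) hb
    _ = _ := by ring

theorem qf_off {c : ℕ → ℝ} {X W : ℝ} (hX : 1 ≤ X) (hW : 0 ≤ W)
    (hc : ∀ n, 0 ≤ c n) (h1 : ∀ n, c n ≤ W) (h2 : ∀ n, n ≠ 0 → c n ≤ W * X / (n : ℝ) ^ 2)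
    (u : Finset ℕ) : ∑ n ∈ u, c n ≤ 5 * W * √X := by
  obtain ⟨M, hM⟩ := u.exists_nat_subset_range
  have hs1 : 1 ≤ √X := Real.one_le_sqrt.2 hX
  have hss : √X * √X = X := Real.mul_self_sqrt (by linarith)
  set N := ⌈√X⌉₊ with hN
  have hN1 : √X ≤ N := Nat.le_ceil _
  have hN2 : (N : ℝ) ≤ √X + 1 := (Nat.ceil_lt_add_one (by linarith)).le
  have hsub : u ⊆ range (N + 1) ∪ Ioo N M := by
    intro n hn
    have := mem_range.1 (hM hn)
    simp only [mem_union, mem_range, mem_Ioo]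
    omega
  have hdis : Disjoint (range (N + 1)) (Ioo N M) := by
    rw [disjoint_left]
    intro n h h'
    simp only [mem_range, mem_Ioo] at h h'
    omega
  refine (sum_le_sum_of_subset_of_nonneg hsub fun n _ _ => hc n).trans ?_
  rw [sum_union hdis]
  have a1 : ∑ n ∈ range (N + 1), c n ≤ (N + 1) * W := by
    refine (sum_le_sum fun n _ => h1 n).trans ?_
    simp
  have a2 : ∑ n ∈ Ioo N M, c n ≤ W * X * (2 / ((N : ℝ) + 1)) := by
    refine le_trans (sum_le_sum fun n hn => h2 n (by have := (mem_Ioo.1 hn).1; omega)) ?_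
    simp only [div_eq_mul_inv (W * X)]
    rw [← mul_sum]
    exact mul_le_mul_of_nonneg_left (sum_Ioo_inv_sq_le N M) (by positivity)
  have a3 : X * (2 / ((N : ℝ) + 1)) ≤ 2 * √X := by
    rw [← mul_div_assoc, div_le_iff₀ (by positivity)]
    nlinarith
  have a4 : W * X * (2 / ((N : ℝ) + 1)) ≤ W * (2 * √X) := by
    rw [mul_assoc]
    exact mul_le_mul_of_nonneg_left a3 hW
  have a5 : ((N : ℝ) + 1) * W ≤ (3 * √X) * W := mul_le_mul_of_nonneg_right (by linarith) hW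
  nlinarith

theorem qf_jac (m : ℤ) (n : ℕ) : |(jacobiSym m n : ℝ)| ≤ 1 := by
  rcases jacobiSym.trichotomy m n with h | h | h <;> simp [h]

/-- The expansion of the square and the exchange of the sums. -/
theorem qf_core (G : ℤ → ℝ) (hG0 : ∀ m, 0 ≤ G m) (hG : Summable G) (a : ℕ → ℂ) (ha0 : a 0 = 0)
    (ha : Summable fun n => ‖a n‖) (F : Finset ℤ) (B : ℝ)
    (hB : ∀ s : Finset (ℕ × ℕ), ∑ x ∈ s, ‖a x.1‖ * ‖a x.2‖ *
      |∑' m : ℤ, G m * (jacobiSym m (x.1 * x.2) : ℝ)| ≤ B) :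
    ∑ m ∈ F, G m * ‖∑' n : ℕ, (jacobiSym m n : ℂ) * a n‖ ^ 2 ≤ B := by
  have hja : ∀ (m : ℤ) (n : ℕ), ‖(jacobiSym m n : ℂ)‖ ≤ 1 := by
    intro m n
    rcases jacobiSym.trichotomy m n with h | h | h <;> simp [h]
  have hs : ∀ m : ℤ, Summable fun n => ‖(jacobiSym m n : ℂ) * a n‖ := fun m =>
    Summable.of_nonneg_of_le (fun _ => norm_nonneg _) (fun n => by
      rw [norm_mul]; exact mul_le_of_le_one_left (norm_nonneg _) (hja m n)) ha
  have hs' : ∀ m : ℤ, Summable fun n => ‖(jacobiSym m n : ℂ) * conj (a n)‖ := fun m => by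
    simpa using hs m
  set f : ℤ × (ℕ × ℕ) → ℂ := fun y =>
    (G y.1 : ℂ) * ((jacobiSym y.1 (y.2.1 * y.2.2) : ℂ) * (a y.2.1 * conj (a y.2.2))) with hf
  have haa : Summable fun x : ℕ × ℕ => ‖a x.1‖ * ‖a x.2‖ :=
    ha.mul_of_nonneg ha (fun _ => norm_nonneg _) (fun _ => norm_nonneg _)
  have hfs : Summable f := by
    have h3 : Summable fun y : ℤ × (ℕ × ℕ) => G y.1 * (‖a y.2.1‖ * ‖a y.2.2‖) :=
      hG.mul_of_nonneg (g := fun x : ℕ × ℕ => ‖a x.1‖ * ‖a x.2‖) haa hG0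
        (fun _ => by positivity)
    refine Summable.of_norm_bounded h3 fun y => ?_
    simp only [hf, norm_mul, Complex.norm_real, Real.norm_eq_abs, abs_of_nonneg (hG0 _),
      Complex.norm_conj]
    exact mul_le_mul_of_nonneg_left (mul_le_of_le_one_left (by positivity) (hja _ _)) (hG0 _)
  have hrow : ∀ m : ℤ, ∑' x : ℕ × ℕ, f (m, x) =
      ((G m * ‖∑' n : ℕ, (jacobiSym m n : ℂ) * a n‖ ^ 2 : ℝ) : ℂ) := by
    intro m
    have e1 : conj (∑' n : ℕ, (jacobiSym m n : ℂ) * a n) =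
        ∑' n : ℕ, (jacobiSym m n : ℂ) * conj (a n) := by
      rw [Complex.conj_tsum]
      simp
    push_cast
    rw [← Complex.mul_conj', e1, tsum_mul_tsum_of_summable_norm (hs m) (hs' m), ← tsum_mul_left]
    refine tsum_congr fun x => ?_
    simp only [hf]
    by_cases h1 : x.1 = 0
    · simp [h1, ha0]
    by_cases h2 : x.2 = 0
    · simp [h2, ha0]
    rw [jacobiSym.mul_right' m h1 h2]
    push_cast
    ring
  have hcol : ∀ x : ℕ × ℕ, ∑' m : ℤ, f (m, x) =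
      ((∑' m : ℤ, G m * (jacobiSym m (x.1 * x.2) : ℝ) : ℝ) : ℂ) * (a x.1 * conj (a x.2)) := by
    intro x
    rw [Complex.ofReal_tsum, ← tsum_mul_right]
    refine tsum_congr fun m => ?_
    simp only [hf]
    push_cast
    ring
  have hsum : Summable fun m : ℤ => G m * ‖∑' n : ℕ, (jacobiSym m n : ℂ) * a n‖ ^ 2 := by
    have := hfs.prod
    simp only [hrow] at this
    exact Complex.summable_ofReal.1 this
  have hT0 : 0 ≤ ∑' m : ℤ, G m * ‖∑' n : ℕ, (jacobiSym m n : ℂ) * a n‖ ^ 2 :=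
    tsum_nonneg fun m => mul_nonneg (hG0 m) (by positivity)
  refine (hsum.sum_le_tsum F fun m _ => mul_nonneg (hG0 m) (by positivity)).trans ?_
  have e : ((∑' m : ℤ, G m * ‖∑' n : ℕ, (jacobiSym m n : ℂ) * a n‖ ^ 2 : ℝ) : ℂ) =
      ∑' x : ℕ × ℕ, ∑' m : ℤ, f (m, x) := by
    rw [Complex.ofReal_tsum, Summable.tsum_comm (f := fun m x => f (m, x)) hfs]
    exact tsum_congr fun m => (hrow m).symm
  have hn : ∀ x : ℕ × ℕ, ‖∑' m : ℤ, f (m, x)‖ = ‖a x.1‖ * ‖a x.2‖ *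
      |∑' m : ℤ, G m * (jacobiSym m (x.1 * x.2) : ℝ)| := by
    intro x
    rw [hcol, norm_mul, norm_mul, Complex.norm_real, Real.norm_eq_abs, Complex.norm_conj]
    ring
  have hnn : (0 : ℕ × ℕ → ℝ) ≤ fun x => ‖∑' m : ℤ, f (m, x)‖ := fun _ => norm_nonneg _
  have hB' : ∀ s : Finset (ℕ × ℕ), ∑ x ∈ s, ‖∑' m : ℤ, f (m, x)‖ ≤ B := fun s => by
    simp only [hn]; exact hB s
  calc _ = ‖((∑' m : ℤ, G m * ‖∑' n : ℕ, (jacobiSym m n : ℂ) * a n‖ ^ 2 : ℝ) : ℂ)‖ := by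
        rw [Complex.norm_real, Real.norm_eq_abs, abs_of_nonneg hT0]
    _ ≤ ∑' x : ℕ × ℕ, ‖∑' m : ℤ, f (m, x)‖ := by
        rw [e]; exact norm_tsum_le_tsum_norm (summable_of_sum_le hnn hB')
    _ ≤ B := Real.tsum_le_of_sum_le hnn hB'

theorem pQF (hP2 : P2) (hTKB : TKB) : QF := by
  classical
  refine ⟨29, by norm_num, fun V X ε W F hX hε hε1 hW hV => ?_⟩
  have hX0 : 0 < X := by linarith
  set a : ℕ → ℂ := fun n => if Odd n then (n : ℂ) ^ (-(1 / 2 : ℂ)) * V n else 0 with ha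
  have ha0 : a 0 = 0 := by simp [ha]
  have hnp : ∀ n : ℕ, n ≠ 0 → ‖(n : ℂ) ^ (-(1 / 2 : ℂ))‖ = (n : ℝ) ^ (-(1 / 2 : ℝ)) := by
    intro n hn
    rw [Complex.norm_natCast_cpow_of_pos (Nat.pos_of_ne_zero hn)]
    simp
  have hodd : ∀ n : ℕ, Odd n → n ≠ 0 := fun n h => by rintro rfl; simp at h
  have hA : ∀ n : ℕ, ‖a n‖ ≤ W * (n : ℝ) ^ (-(1 / 2 + ε)) := by
    intro n
    by_cases h : Odd n
    · have hn := hodd n h
      have hn' : (0 : ℝ) < n := by exact_mod_cast Nat.pos_of_ne_zero hn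
      simp only [ha, if_pos h]
      rw [norm_mul, hnp n hn, neg_add, Real.rpow_add hn']
      calc _ ≤ (n : ℝ) ^ (-(1 / 2 : ℝ)) * (W * (n : ℝ) ^ (-ε)) :=
            mul_le_mul_of_nonneg_left (hV n hn).1 (by positivity)
        _ = _ := by ring
    · simp only [ha, if_neg h, norm_zero]
      positivity
  set c : ℕ → ℝ := fun n => ‖a n‖ * √(n : ℝ) with hc
  have hcV : ∀ n : ℕ, n ≠ 0 → c n ≤ ‖V n‖ := by
    intro n hn
    have hn' : (0 : ℝ) < n := by exact_mod_cast Nat.pos_of_ne_zero hn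
    by_cases h : Odd n
    · simp only [hc, ha, if_pos h]
      rw [norm_mul, hnp n hn, Real.rpow_neg hn'.le, ← Real.sqrt_eq_rpow]
      have : 0 < √(n : ℝ) := Real.sqrt_pos.2 hn'
      apply le_of_eq
      field_simp
    · simp [hc, ha, if_neg h]
  have hc0 : c 0 = 0 := by simp [hc]
  have hcn : ∀ n, 0 ≤ c n := fun n => by positivity
  have hc1 : ∀ n, c n ≤ W := by
    intro n
    by_cases hn : n = 0
    · rw [hn, hc0]; exact hW
    · have hn' : (1 : ℝ) ≤ n := by exact_mod_cast Nat.pos_of_ne_zero hn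
      exact (hcV n hn).trans ((hV n hn).1.trans (mul_le_of_le_one_right hW
        (Real.rpow_le_one_of_one_le_of_nonpos hn' (by linarith))))
  have hc2 : ∀ n, n ≠ 0 → c n ≤ W * X / (n : ℝ) ^ 2 := fun n hn => (hcV n hn).trans (hV n hn).2
  have hoff := qf_off hX hW hcn hc1 hc2
  have hsa : Summable fun n => ‖a n‖ := by
    refine Summable.of_nonneg_of_le (fun _ => norm_nonneg _) (fun n => ?_)
      (summable_of_sum_le hcn hoff)
    by_cases hn : n = 0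
    · rw [hn, ha0, hc0]; simp
    · have hn' : (1 : ℝ) ≤ n := by exact_mod_cast Nat.pos_of_ne_zero hn
      exact le_mul_of_one_le_right (norm_nonneg _) (Real.one_le_sqrt.2 hn')
  have hG0 : ∀ m, 0 ≤ GX X m := fun m => (Real.exp_pos _).le
  have e : ∀ (m : ℤ) (n : ℕ), jo m n * (n : ℂ) ^ (-(1 / 2 : ℂ)) * V n =
      (jacobiSym m n : ℂ) * a n := by
    intro m n
    by_cases h : Odd n
    · simp only [jo, ha, if_pos h]; ring
    · simp [jo, ha, if_neg h]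
  simp only [e]
  refine qf_core (GX X) hG0 (hP2 X 1 hX0 odd_one).1 a ha0 hsa F _ fun s => ?_
  have hpt : ∀ x : ℕ × ℕ, ‖a x.1‖ * ‖a x.2‖ * |∑' m : ℤ, GX X m * (jacobiSym m (x.1 * x.2) : ℝ)| ≤
      W ^ 2 * X * (if x.1 ≠ 0 ∧ IsSquare (x.1 * x.2) then
        (x.1 : ℝ) ^ (-(1 / 2 + ε)) * (x.2 : ℝ) ^ (-(1 / 2 + ε)) else 0) + c x.1 * c x.2 := by
    intro x
    have hite : 0 ≤ (if x.1 ≠ 0 ∧ IsSquare (x.1 * x.2) then
        (x.1 : ℝ) ^ (-(1 / 2 + ε)) * (x.2 : ℝ) ^ (-(1 / 2 + ε)) else 0) := by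
      split_ifs <;> positivity
    have hr : 0 ≤ W ^ 2 * X * (if x.1 ≠ 0 ∧ IsSquare (x.1 * x.2) then
        (x.1 : ℝ) ^ (-(1 / 2 + ε)) * (x.2 : ℝ) ^ (-(1 / 2 + ε)) else 0) + c x.1 * c x.2 :=
      add_nonneg (mul_nonneg (by positivity) hite) (mul_nonneg (hcn _) (hcn _))
    by_cases h1 : Odd x.1
    swap
    · simpa [ha, if_neg h1] using hr
    by_cases h2 : Odd x.2
    swap
    · simpa [ha, if_neg h2] using hr
    have ho : Odd (x.1 * x.2) := h1.mul h2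
    have hp := (hP2 X _ hX0 ho).2.2
    obtain ⟨t0, t1, t2⟩ := hTKB.2.2.2 (x.1 * x.2)
    have hS : |Sg X (x.1 * x.2)| ≤ X * T0 (x.1 * x.2) + √(x.1 : ℝ) * √(x.2 : ℝ) := by
      rw [← Real.sqrt_mul (by positivity), ← Nat.cast_mul]
      have := abs_le.1 hp
      have h3 : 0 ≤ X * T0 (x.1 * x.2) := mul_nonneg hX0.le t0
      rw [abs_le]
      constructor <;> linarith [this.1, this.2]
    have hab : 0 ≤ ‖a x.1‖ * ‖a x.2‖ := by positivity
    have h4 : ‖a x.1‖ * ‖a x.2‖ * (X * T0 (x.1 * x.2)) ≤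
        W ^ 2 * X * (if x.1 ≠ 0 ∧ IsSquare (x.1 * x.2) then
          (x.1 : ℝ) ^ (-(1 / 2 + ε)) * (x.2 : ℝ) ^ (-(1 / 2 + ε)) else 0) := by
      by_cases hq : IsSquare (x.1 * x.2)
      · rw [if_pos ⟨hodd _ h1, hq⟩]
        calc _ ≤ (W * (x.1 : ℝ) ^ (-(1 / 2 + ε))) * (W * (x.2 : ℝ) ^ (-(1 / 2 + ε))) * (X * 1) :=
              mul_le_mul (mul_le_mul (hA _) (hA _) (norm_nonneg _) (by positivity))
                (mul_le_mul_of_nonneg_left t1 hX0.le) (mul_nonneg hX0.le t0) (by positivity)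
          _ = _ := by ring
      · rw [t2 (hodd _ ho) hq]
        simpa using mul_nonneg (by positivity : 0 ≤ W ^ 2 * X) hite
    calc _ ≤ ‖a x.1‖ * ‖a x.2‖ * (X * T0 (x.1 * x.2) + √(x.1 : ℝ) * √(x.2 : ℝ)) :=
          mul_le_mul_of_nonneg_left hS hab
      _ = ‖a x.1‖ * ‖a x.2‖ * (X * T0 (x.1 * x.2)) + c x.1 * c x.2 := by
          simp only [hc]; ring
      _ ≤ _ := by linarith
  refine (sum_le_sum fun x _ => hpt x).trans ?_
  rw [sum_add_distrib, ← mul_sum]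
  have d1 := qf_diag hε s
  have d2 : ∑ x ∈ s, c x.1 * c x.2 ≤ (5 * W * √X) * (5 * W * √X) := by
    have hsub : s ⊆ (s.image Prod.fst) ×ˢ (s.image Prod.snd) := subset_product
    refine (sum_le_sum_of_subset_of_nonneg hsub fun y _ _ => mul_nonneg (hcn _) (hcn _)).trans ?_
    rw [sum_product]
    simp only [← mul_sum, ← sum_mul]
    exact mul_le_mul (hoff _) (hoff _) (sum_nonneg fun n _ => hcn n) (by positivity)
  have hss : √X * √X = X := Real.mul_self_sqrt hX0.le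
  have d3 : (5 * W * √X) * (5 * W * √X) = 25 * (W ^ 2 * X) := by
    calc _ = 25 * W ^ 2 * (√X * √X) := by ring
      _ = _ := by rw [hss]; ring
  have he : 1 ≤ 1 / ε := by rw [le_div_iff₀ hε]; linarith
  have d4 : (1 + 1 / (2 * ε)) ^ 3 ≤ 4 * (1 / ε) ^ 3 := by
    have : 1 + 1 / (2 * ε) ≤ 3 / 2 * (1 / ε) := by
      have : 1 / (2 * ε) = 1 / 2 * (1 / ε) := by field_simp
      linarith
    calc _ ≤ (3 / 2 * (1 / ε)) ^ 3 := pow_le_pow_left₀ (by positivity) this 3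
      _ = 27 / 8 * (1 / ε) ^ 3 := by ring
      _ ≤ _ := mul_le_mul_of_nonneg_right (by norm_num) (by positivity)
  have d5 : 1 ≤ (1 / ε) ^ 3 := one_le_pow₀ he
  have hWX : 0 ≤ W ^ 2 * X := by positivity
  have d6 : 29 * W ^ 2 * X / ε ^ 3 = W ^ 2 * X * (4 * (1 / ε) ^ 3) + 25 * (W ^ 2 * X * (1 / ε) ^ 3) := by
    field_simp
    ring
  rw [d6]
  have d7 := mul_le_mul_of_nonneg_left (d1.trans d4) hWX
  have d8 : W ^ 2 * X ≤ W ^ 2 * X * (1 / ε) ^ 3 := le_mul_of_one_le_right hWX d5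
  linarith

end Pool.Agent.QM
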