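import Pool.Agent.P.MP_ea46f5_nt.QM.S1

namespace Pool.Agent.QM

open Complex MeasureTheory Finset
open scoped Real ComplexConjugate

theorem sd0_mem {a b x : ℝ} (y : ℝ) (h1 : a ≤ x) (h2 : x ≤ b) : (x + y * I : ℂ) ∈ Strip a b := by
  simpa [Strip] using ⟨h1, h2⟩

theorem pSD0 (hSH0 : SH0) (hDEC : DEC) : SD0 := by
  intro a b C G hab hG hb
  have hi := hDEC.2.2.2.1.1
  have hint : ∀ c d : ℝ, a ≤ c → c ≤ b → a ≤ d → d ≤ b →
      Integrable (fun t : ℝ × ℝ => G (c + t.1 * I) (d + t.2 * I)) (volume.prod volume) := by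
    intro c d h1 h2 h3 h4
    refine ((hi.mul_prod hi).const_mul C).mono' (Continuous.aestronglyMeasurable ?_)
      (Filter.Eventually.of_forall fun t => ?_)
    · exact hG.1.comp_continuous (f := fun t : ℝ × ℝ => ((c + t.1 * I : ℂ), (d + t.2 * I : ℂ)))
        (by fun_prop) fun t => ⟨sd0_mem _ h1 h2, sd0_mem _ h3 h4⟩
    · have := hb _ (sd0_mem t.1 h1 h2) _ (sd0_mem t.2 h3 h4)
      simp only [add_im, ofReal_im, mul_im, ofReal_re, I_im, mul_one, I_re, mul_zero, add_zero,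
        zero_add] at this
      refine this.trans (le_of_eq ?_)
      rw [div_mul_div_comm, mul_one, mul_one_div]
  have s2 : ∀ s ∈ Strip a b, Iv b (G s) = Iv a (G s) := fun s hs =>
    hSH0 a b (C / br s.im ^ 2) _ hab
      ⟨hG.1.comp (f := fun u : ℂ => (s, u)) (by fun_prop) fun u hu => ⟨hs, hu⟩, hG.2.2 s hs⟩
      fun u hu => by rw [div_div]; exact hb s hs u hu
  have s1 : ∀ s ∈ Strip a b, Iv b (fun u => G u s) = Iv a (fun u => G u s) := fun s hs =>
    hSH0 a b (C / br s.im ^ 2) _ hab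
      ⟨hG.1.comp (f := fun u : ℂ => (u, s)) (by fun_prop) fun u hu => ⟨hu, hs⟩, hG.2.1 s hs⟩
      fun u hu => by rw [div_div, mul_comm]; exact hb u hu s hs
  unfold I2
  rw [Measure.volume_eq_prod, integral_prod _ (hint b b hab le_rfl hab le_rfl),
    integral_prod_symm _ (hint a a le_rfl hab le_rfl hab)]
  calc ∫ x : ℝ, ∫ y : ℝ, G (b + x * I) (b + y * I)
      = ∫ x : ℝ, ∫ y : ℝ, G (b + x * I) (a + y * I) :=
        integral_congr_ae (Filter.Eventually.of_forall fun x => s2 _ (sd0_mem x hab le_rfl))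
    _ = ∫ y : ℝ, ∫ x : ℝ, G (b + x * I) (a + y * I) :=
        integral_integral_swap (hint b a hab le_rfl le_rfl hab)
    _ = ∫ y : ℝ, ∫ x : ℝ, G (a + x * I) (a + y * I) :=
        integral_congr_ae (Filter.Eventually.of_forall fun y => s1 _ (sd0_mem y le_rfl hab))

end Pool.Agent.QM
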