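import Pool.Agent.P.MP_ea46f5_nt.QM.S2

namespace Pool.Agent.QM

open Complex MeasureTheory Finset
open scoped Real ComplexConjugate

/-- The weight used in the separation step. -/
noncomputable def sec_G (a : ℕ) (γ : ℤ) (X : ℝ) (k : ℤ) (s : ℂ) : ℂ :=
  g0 a γ s * (X : ℂ) ^ (s / 2) * LS k (1 / 2 + s)

lemma sec_LI (hG0B : G0B) (hLSP : LSP) (a : ℕ) (γ : ℤ) (ha : a ≤ 1) (hγ : γ ∈ T3) (X : ℝ)
    (hX : 0 < X) (k : ℤ) : LI (sec_G a γ X k) := by
  obtain ⟨C, hC, h⟩ := hG0B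
  obtain ⟨hd, hb⟩ := h a γ ha hγ
  obtain ⟨-, -, h3, h4, -, -⟩ := hLSP
  have hline : Continuous fun t : ℝ => ((12 : ℂ) + t * I) := by fun_prop
  have hc1 : Continuous fun t : ℝ => g0 a γ (12 + t * I) := by
    refine hd.continuousOn.comp_continuous hline (fun t => ?_)
    simp
  have hc2 : Continuous fun t : ℝ => (X : ℂ) ^ (((12 : ℂ) + t * I) / 2) := by
    refine Continuous.const_cpow (by fun_prop) (Or.inl ?_)
    exact_mod_cast hX.ne'
  have hc3 : Continuous fun t : ℝ => LS k (1 / 2 + (12 + t * I)) := by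
    refine (h4 k).continuousOn.comp_continuous (f := fun t : ℝ => (1 / 2 : ℂ) + (12 + t * I))
      (by fun_prop) (fun t => ?_)
    simp
    norm_num
  have hint : Integrable (fun t : ℝ => (C * X ^ (6 : ℝ) * 2) * Real.exp (-(1 / 2) * t ^ 2)) :=
    (integrable_exp_neg_mul_sq (by norm_num)).const_mul _
  refine hint.mono' ((hc1.mul hc2).mul hc3).aestronglyMeasurable (ae_of_all _ fun t => ?_)
  have e1 : ‖g0 a γ (12 + t * I)‖ ≤ C * Real.exp (-(1 / 2) * t ^ 2) := by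
    have h1 := hb (12 + t * I) (by simp) (by simp; norm_num)
    have h2 : (1 : ℝ) ≤ ‖(12 : ℂ) + t * I‖ := by
      have := Complex.re_le_norm ((12 : ℂ) + t * I)
      simp at this
      linarith
    have h5 : (-((12 : ℂ) + t * I).im ^ 2 / 2) = -(1 / 2) * t ^ 2 := by
      simp
      ring
    rw [h5] at h1
    exact h1.trans (div_le_self (by positivity) h2)
  have e2 : ‖(X : ℂ) ^ (((12 : ℂ) + t * I) / 2)‖ = X ^ (6 : ℝ) := by
    rw [Complex.norm_cpow_eq_rpow_re_of_pos hX]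
    congr 1
    simp
    norm_num
  have e3 : ‖LS k (1 / 2 + (12 + t * I))‖ ≤ 2 := h3 k _ (by simp; norm_num)
  show ‖g0 a γ (12 + t * I) * (X : ℂ) ^ (((12 : ℂ) + t * I) / 2) * LS k (1 / 2 + (12 + t * I))‖ ≤ _
  rw [norm_mul, norm_mul, e2]
  have hx : 0 ≤ X ^ (6 : ℝ) := by positivity
  calc ‖g0 a γ (12 + t * I)‖ * X ^ (6 : ℝ) * ‖LS k (1 / 2 + (12 + t * I))‖
      ≤ (C * Real.exp (-(1 / 2) * t ^ 2)) * X ^ (6 : ℝ) * 2 := by gcongr
    _ = (C * X ^ (6 : ℝ) * 2) * Real.exp (-(1 / 2) * t ^ 2) := by ring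

lemma sec_id (a : ℕ) (γ : ℤ) (X q : ℝ) (hX : 0 < X) (hq : 0 < q) (k : ℤ) (s : ℂ) :
    sec_G a γ X k s * cexp (((Real.log (q / X) / 2 : ℝ) : ℂ) * (s - ((0 : ℝ) : ℂ) * I)) =
      g0 a γ s * (q : ℂ) ^ (s / 2) * LS k (1 / 2 + s) := by
  have hX' : (X : ℂ) ≠ 0 := by exact_mod_cast hX.ne'
  have hq' : (q : ℂ) ≠ 0 := by exact_mod_cast hq.ne'
  have h : (X : ℂ) ^ (s / 2) * cexp (((Real.log (q / X) / 2 : ℝ) : ℂ) * (s - ((0 : ℝ) : ℂ) * I)) =
      (q : ℂ) ^ (s / 2) := by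
    rw [Complex.cpow_def_of_ne_zero hX', Complex.cpow_def_of_ne_zero hq', ← Complex.exp_add,
      ← Complex.ofReal_log hX.le, ← Complex.ofReal_log hq.le, Real.log_div hq.ne' hX.ne']
    congr 1
    push_cast
    ring
  unfold sec_G
  rw [← h]
  ring

lemma sec_id2 (a : ℕ) (γ : ℤ) (X y : ℝ) (k : ℤ) (s : ℂ) :
    sec_G a γ X k s * cexp ((s - ((0 : ℝ) : ℂ) * I + y * I) ^ 2 / 4) =
      w1 a γ X y s * LS k (1 / 2 + s) := by
  unfold sec_G w1
  have h : s - ((0 : ℝ) : ℂ) * I + y * I = s + y * I := by simp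
  rw [h]
  ring

lemma sec_mem {X : ℝ} {k : ℤ} (hk : k ∈ Sq X) :
    Squarefree k ∧ k ≠ 1 ∧ X / 2 < |(k : ℝ)| ∧ |(k : ℝ)| ≤ X := by
  unfold Sq at hk
  simp only [Finset.mem_filter] at hk
  exact hk.2

lemma sec_v {X q : ℝ} (hX : 0 < X) (h1 : X / 2 < q) (h2 : q ≤ 4 * X) :
    |Real.log (q / X) / 2| ≤ 2 := by
  have hq : 0 < q := by linarith
  have hqX : 0 < q / X := by positivity
  have hu : Real.log (q / X) ≤ q / X - 1 := Real.log_le_sub_one_of_pos hqX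
  have hu2 : q / X ≤ 4 := by rw [div_le_iff₀ hX]; linarith
  have hl : 1 - (q / X)⁻¹ ≤ Real.log (q / X) := Real.one_sub_inv_le_log_of_pos hqX
  have hl2 : (q / X)⁻¹ ≤ 2 := by
    rw [inv_div, div_le_iff₀ hq]; linarith
  rw [abs_le]
  constructor <;> linarith

lemma sec_GX {X : ℝ} (hX : 0 < X) {k : ℤ} (h : |(k : ℝ)| ≤ X) :
    1 ≤ Real.exp π * GX X k := by
  unfold GX
  rw [← Real.exp_add]
  apply Real.one_le_exp
  have h1 : (k : ℝ) ^ 2 ≤ X ^ 2 := by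
    rw [← sq_abs (k : ℝ)]
    exact pow_le_pow_left₀ (abs_nonneg _) h 2
  have h2 : (k : ℝ) ^ 2 / X ^ 2 ≤ 1 := by
    rw [div_le_one (by positivity)]; exact h1
  have h3 : -π * (k : ℝ) ^ 2 / X ^ 2 = -(π * ((k : ℝ) ^ 2 / X ^ 2)) := by ring
  rw [h3]
  have h4 : π * ((k : ℝ) ^ 2 / X ^ 2) ≤ π * 1 := mul_le_mul_of_nonneg_left h2 Real.pi_pos.le
  linarith

/-- The mean square of the fixed weights. -/
lemma sec_fixed (hVB : VB) (hQF : QF) (δ : ℝ) (hδ : 0 < δ) : ∃ C : ℝ, 0 < C ∧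
    ∀ (a : ℕ) (γ : ℤ) (X y : ℝ) (F : Finset ℤ), a ≤ 1 → γ ∈ T3 → 1 ≤ X → 100 ≤ Real.log X →
      (∀ k ∈ F, |(k : ℝ)| ≤ X) →
      ∑ k ∈ F, ‖Iv 12 fun s => w1 a γ X y s * LS k (1 / 2 + s)‖ ^ 2 ≤
        C * X * Real.log X ^ (3 + δ) * Real.exp (-2 * |y|) := by
  obtain ⟨C₁, hC₁, h1⟩ := hVB (δ / 2) (by positivity)
  obtain ⟨C₂, hC₂, h2⟩ := hQF
  refine ⟨Real.exp π * C₂ * C₁ ^ 2, by positivity, fun a γ X y F ha hγ hX hL hF => ?_⟩
  obtain ⟨hV, hI⟩ := h1 a γ X y ha hγ hX hL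
  have hX0 : 0 < X := by linarith
  have hL0 : 0 < Real.log X := by linarith
  have hp : 1 ≤ Real.log X ^ (δ / 2) := Real.one_le_rpow (by linarith) (by positivity)
  set W : ℝ := C₁ * Real.exp (-|y|) * Real.log X ^ (δ / 2) with hW
  have hW0 : 0 ≤ W := by positivity
  have hq := h2 (Vn a γ X y) X (1 / Real.log X) W F hX (by positivity)
    (by rw [div_le_one hL0]; linarith) hW0 (fun n hn => by
      refine ⟨(hV n hn).1, (hV n hn).2.trans ?_⟩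
      have : C₁ * Real.exp (-|y|) ≤ W := le_mul_of_one_le_right (by positivity) hp
      gcongr)
  have hW2 : W ^ 2 = C₁ ^ 2 * Real.exp (-2 * |y|) * Real.log X ^ δ := by
    have e1 : Real.exp (-|y|) ^ 2 = Real.exp (-2 * |y|) := by
      rw [← Real.exp_nat_mul]; congr 1; push_cast; ring
    have e2 : (Real.log X ^ (δ / 2)) ^ 2 = Real.log X ^ δ := by
      rw [← Real.rpow_natCast, ← Real.rpow_mul hL0.le]; congr 1; push_cast; ring
    rw [hW, mul_pow, mul_pow, e1, e2]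
  have hpow : Real.log X ^ (3 + δ) = Real.log X ^ 3 * Real.log X ^ δ := by
    rw [Real.rpow_add hL0]
    congr 1
    exact_mod_cast Real.rpow_natCast (Real.log X) 3
  calc ∑ k ∈ F, ‖Iv 12 fun s => w1 a γ X y s * LS k (1 / 2 + s)‖ ^ 2
      ≤ ∑ k ∈ F, Real.exp π * (GX X k *
          ‖∑' n : ℕ, jo k n * (n : ℂ) ^ (-(1 / 2 : ℂ)) * Vn a γ X y n‖ ^ 2) := by
        refine Finset.sum_le_sum fun k hk => ?_
        rw [hI k, ← mul_assoc]
        exact le_mul_of_one_le_left (by positivity) (sec_GX hX0 (hF k hk))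
    _ = Real.exp π * ∑ k ∈ F, GX X k *
          ‖∑' n : ℕ, jo k n * (n : ℂ) ^ (-(1 / 2 : ℂ)) * Vn a γ X y n‖ ^ 2 := by
        rw [Finset.mul_sum]
    _ ≤ Real.exp π * (C₂ * W ^ 2 * X / (1 / Real.log X) ^ 3) :=
        mul_le_mul_of_nonneg_left hq (by positivity)
    _ = Real.exp π * C₂ * C₁ ^ 2 * X * Real.log X ^ (3 + δ) * Real.exp (-2 * |y|) := by
        rw [hW2, hpow]
        field_simp

theorem pSEC (hAF1 : AF1) (hVB : VB) (hQF : QF) (hSEP : SEP) (hG0B : G0B) (hLSP : LSP) (hBRG : BRG) (hDEC : DEC) : SEC := by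
  intro δ hδ
  obtain ⟨C₁, hC₁, h1⟩ := sec_fixed hVB hQF δ hδ
  obtain ⟨C₂, hC₂, h2⟩ := hSEP
  obtain ⟨-, hB, -, -⟩ := hBRG
  refine ⟨6 * (C₂ * C₁), by positivity, fun X hX hL => ?_⟩
  have hX0 : 0 < X := by linarith
  have hL0 : 0 < Real.log X := by linarith
  have key : ∀ j ∈ (range 2) ×ˢ T3,
      ∑ k ∈ (Sq X).filter (fun k => (par k, gam k) = j), ‖Lf k (1 / 2)‖ ^ 2 ≤
        C₂ * (C₁ * X * Real.log X ^ (3 + δ)) := by
    rintro ⟨a, γ⟩ hj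
    obtain ⟨ha, hγ⟩ := Finset.mem_product.1 hj
    have ha1 : a ≤ 1 := by
      have := Finset.mem_range.1 ha
      simp only at this
      omega
    have hγ1 : γ ∈ T3 := hγ
    set F := (Sq X).filter (fun k => (par k, gam k) = (a, γ)) with hF
    have hmem : ∀ k ∈ F, (Squarefree k ∧ k ≠ 1 ∧ X / 2 < |(k : ℝ)| ∧ |(k : ℝ)| ≤ X) ∧
        par k = a ∧ gam k = γ := fun k hk => by
      obtain ⟨hk1, hk2⟩ := Finset.mem_filter.1 hk
      exact ⟨sec_mem hk1, Prod.mk.inj hk2⟩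
    have hq : ∀ k ∈ F, X / 2 < qk k ∧ qk k ≤ 4 * X := fun k hk => by
      obtain ⟨⟨-, -, h3, h4⟩, -⟩ := hmem k hk
      obtain ⟨h5, h6, -⟩ := hB k
      constructor <;> linarith
    have hs := h2 F (sec_G a γ X) (fun _ => 1) (fun k => Real.log (qk k / X) / 2) 0
      (C₁ * X * Real.log X ^ (3 + δ))
      (fun k hk => ⟨sec_LI hG0B hLSP a γ ha1 hγ1 X hX0 k, zero_le_one,
        sec_v hX0 (hq k hk).1 (hq k hk).2⟩)
      (fun y => by
        simp only [one_mul, sec_id2]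
        exact h1 a γ X y F ha1 hγ1 hX hL (fun k hk => (hmem k hk).1.2.2.2))
    refine le_trans (Finset.sum_le_sum fun k hk => ?_) hs
    obtain ⟨⟨h3, h4, -, -⟩, h5, h6⟩ := hmem k hk
    have hq0 : 0 < qk k := by linarith [(hq k hk).1]
    have h7 := hAF1 k h3 h4
    rw [h5, h6] at h7
    simp only [one_mul, sec_id a γ X (qk k) hX0 hq0]
    refine pow_le_pow_left₀ (norm_nonneg _) (le_trans ?_ h7) 2
    exact le_mul_of_one_le_left (norm_nonneg _) (by linarith [Real.pi_gt_three])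
  have hmaps : ∀ k ∈ Sq X, (par k, gam k) ∈ (range 2) ×ˢ T3 := fun k _ => by
    obtain ⟨-, -, h5, h6⟩ := hB k
    exact Finset.mem_product.2 ⟨Finset.mem_range.2 (by simp only; omega), h6⟩
  rw [← Finset.sum_fiberwise_of_maps_to hmaps]
  refine (Finset.sum_le_sum key).trans (le_of_eq ?_)
  have hc : ((range 2) ×ˢ T3).card = 6 := by decide
  rw [Finset.sum_const, hc, nsmul_eq_mul]
  push_cast
  ring

end Pool.Agent.QM
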