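import Pool.Agent.P.MP_ea46f5_nt.QM.S2

namespace Pool.Agent.QM

open Complex MeasureTheory Finset
open scoped Real ComplexConjugate

lemma tc2_br_le {a : ℂ} (h : ‖a‖ ≤ 1) : br a.im ≤ 2 := by
  have := (Complex.abs_im_le_norm a).trans h
  unfold br; linarith

lemma tc2_br_pos (t : ℝ) : 0 < br t := by unfold br; positivity

lemma tc2_re_ge (a : ℂ) : -‖a‖ ≤ a.re := by
  have := Complex.abs_re_le_norm a
  have := neg_abs_le a.re
  linarith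

lemma tc2_Lo (hLOP : LOP) {C : ℝ} (hC0 : 0 < C)
    (hC : ∀ s : ℂ, 1 / 4 ≤ s.re → s.re ≤ 30 → ‖riemannZeta₁ s‖ ≤ C * br s.im ^ 2)
    {ε : ℝ} (hε : 0 < ε) (hε1 : ε ≤ 1 / 100) {a : ℂ} (ha : ‖a‖ = ε / 2) :
    ‖Lo 1 (1 + a)‖ ≤ 16 * C / ε := by
  have ha0 : a ≠ 0 := by
    intro h; rw [h, norm_zero] at ha; linarith
  have hre1 := tc2_re_ge a
  have hre2 := Complex.re_le_norm a
  rw [hLOP.2.2 (1 + a) (by simpa using ha0)]
  have e : (1 + a - 1 : ℂ) = a := by ring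
  rw [e, norm_div, norm_mul, ha]
  have h1 : ‖(1 - (2 : ℂ) ^ (-(1 + a)))‖ ≤ 2 := by
    refine (norm_sub_le _ _).trans ?_
    have h2 : ‖(2 : ℂ) ^ (-(1 + a))‖ ≤ 1 := by
      have : ‖((2 : ℝ) : ℂ) ^ (-(1 + a))‖ = (2 : ℝ) ^ (-(1 + a)).re :=
        Complex.norm_cpow_eq_rpow_re_of_pos (by norm_num) _
      have e2 : ((2 : ℝ) : ℂ) = 2 := by norm_num
      rw [e2] at this
      rw [this]
      apply Real.rpow_le_one_of_one_le_of_nonpos (by norm_num)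
      simp only [neg_re, add_re, one_re]; linarith
    rw [norm_one]; linarith
  have h3 : ‖riemannZeta₁ (1 + a)‖ ≤ C * 4 := by
    have := hC (1 + a) (by simp only [add_re, one_re]; linarith)
      (by simp only [add_re, one_re]; linarith)
    refine this.trans ?_
    have hb : br (1 + a).im ≤ 2 := by
      have : (1 + a).im = a.im := by simp
      rw [this]; exact tc2_br_le (by linarith)
    have hb0 := tc2_br_pos (1 + a).im
    have : br (1 + a).im ^ 2 ≤ 4 := by nlinarith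
    exact mul_le_mul_of_nonneg_left this hC0.le
  have h4 : ‖(1 - (2 : ℂ) ^ (-(1 + a)))‖ * ‖riemannZeta₁ (1 + a)‖ ≤ 2 * (C * 4) :=
    mul_le_mul h1 h3 (norm_nonneg _) (by norm_num)
  rw [div_le_div_iff₀ (by positivity) hε]
  nlinarith

lemma tc2_iz {C : ℝ} (hC0 : 0 < C) (hC : ∀ s : ℂ, 1 ≤ s.re → ‖iz s‖ ≤ C * br s.im ^ 2)
    {b : ℂ} (hb : ‖b‖ ≤ 1) : ‖iz (2 + b)‖ ≤ 4 * C := by
  have hre1 := tc2_re_ge b
  have := hC (2 + b) (by simp only [add_re, re_ofNat]; linarith)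
  refine this.trans ?_
  have hb2 : br (2 + b).im ≤ 2 := by
    have : (2 + b).im = b.im := by simp
    rw [this]; exact tc2_br_le hb
  have hb0 := tc2_br_pos (2 + b).im
  have : br (2 + b).im ^ 2 ≤ 4 := by nlinarith
  nlinarith

lemma tc2_IZ3 {C : ℝ} (hC0 : 0 < C) (hC : ∀ s : ℂ, 1 ≤ s.re → ‖iz s‖ ≤ C * br s.im ^ 2)
    {z s₁ s₂ : ℂ} (h1 : ‖s₁ - z‖ ≤ 1 / 2) (h2 : ‖s₂ - z‖ ≤ 1 / 2) :
    ‖IZ3 z s₁ s₂‖ ≤ (4 * C) ^ 10 := by
  unfold IZ3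
  have a1 : ‖iz (2 + 2 * (s₁ - z))‖ ≤ 4 * C :=
    tc2_iz hC0 hC (by rw [norm_mul]; simp only [Complex.norm_ofNat]; linarith)
  have a3 : ‖iz (2 + 2 * (s₂ - z))‖ ≤ 4 * C :=
    tc2_iz hC0 hC (by rw [norm_mul]; simp only [Complex.norm_ofNat]; linarith)
  have a2 : ‖iz (2 + (s₁ - z) + (s₂ - z))‖ ≤ 4 * C := by
    rw [add_assoc]
    exact tc2_iz hC0 hC ((norm_add_le _ _).trans (by linarith))
  rw [norm_mul, norm_mul, norm_pow, norm_pow, norm_pow]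
  have e : (4 * C) ^ 10 = (4 * C) ^ 3 * (4 * C) ^ 4 * (4 * C) ^ 3 := by ring
  rw [e]
  gcongr

lemma tc2_near {w : ℂ → ℂ} {ε lam t₀ W : ℝ} {α C₀ : ℕ} (hW : 0 ≤ W) (hl : 0 ≤ lam)
    (h : Near w ε lam t₀ α C₀ W) {s : ℂ} {t : ℝ} (hs : ‖s - (ε + t * I)‖ ≤ ε / 2) :
    ‖w s‖ ≤ 2 * W * ‖(ε + t * I : ℂ)‖ ^ α / (1 + lam * |t|) ^ C₀ := by
  refine (h s t hs).trans ?_
  have e1 : Real.exp (-|t - t₀|) ≤ 1 := Real.exp_le_one_iff.2 (by simp)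
  have e2 : Real.exp (-|t + t₀|) ≤ 1 := Real.exp_le_one_iff.2 (by simp)
  have hp : 0 ≤ W * ‖(ε + t * I : ℂ)‖ ^ α / (1 + lam * |t|) ^ C₀ := by positivity
  calc W * ‖(ε + t * I : ℂ)‖ ^ α / (1 + lam * |t|) ^ C₀ *
        (Real.exp (-|t - t₀|) + Real.exp (-|t + t₀|))
      ≤ W * ‖(ε + t * I : ℂ)‖ ^ α / (1 + lam * |t|) ^ C₀ * 2 :=
        mul_le_mul_of_nonneg_left (by linarith) hp
    _ = _ := by ring

lemma tc2_alg {r b : ℝ} (hr : 0 < r) (hb : 1 ≤ b) (hrb : r ≤ b) {α m : ℕ} (hm : m + 2 * α = 6) :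
    r ^ α * r ^ α * (b * (1 + 1 / r)) ^ 6 / b ^ 12 ≤ 64 * (1 / r ^ m) := by
  have hb0 : 0 < b := by linarith
  have e6 : r ^ 6 = r ^ m * (r ^ α * r ^ α) := by rw [← hm]; ring
  have h1 : 1 + 1 / r ≤ 2 * b / r := by
    rw [le_div_iff₀ hr]
    have : (1 + 1 / r) * r = r + 1 := by field_simp
    rw [this]; linarith
  calc r ^ α * r ^ α * (b * (1 + 1 / r)) ^ 6 / b ^ 12
      ≤ r ^ α * r ^ α * (b * (2 * b / r)) ^ 6 / b ^ 12 := by gcongr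
    _ = 64 * ((r ^ α * r ^ α) / r ^ 6) := by field_simp; ring
    _ = 64 * (1 / r ^ m) := by rw [e6]; field_simp

theorem pTC2 (hHC : HC) (hPH2 : PH2) (hKZ : KZ) (hIZ : IZ) (hLOP : LOP) (hZT : ZT) (hFW : FW) (hDEC : DEC) : TC2 := by
  obtain ⟨CH, c, hCH, hH⟩ := hHC
  obtain ⟨CK, hCK, hK⟩ := hKZ 12
  obtain ⟨CI, hCI, hI⟩ := hIZ.2.1
  obtain ⟨CZ, hCZ, hZ⟩ := hZT.2.2
  obtain ⟨CD, hCD, hD⟩ := hDEC.2.2.2.2
  refine ⟨CK * π ^ 2 * 4 * (16 * CZ) ^ 4 * (4 * CI) ^ 10 * CH * 64 * CD, c, by positivity, ?_⟩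
  intro w P B R lam T Y ε X t₀ W₀ α C₀ hTw hε hε1 hεl hX hα hc hW hN
  have hN' := hFW.2.2.1 w ε lam t₀ W₀ α C₀ hN
  have hl := hTw.lam0
  have hT := hTw.T0
  obtain ⟨m, hm⟩ : ∃ m : ℕ, m + 2 * α = 6 := ⟨6 - 2 * α, by omega⟩
  obtain ⟨hDi, hDb⟩ := hD ε m hε (by omega) (by omega)
  set A : ℝ := CK * π ^ 2 * 4 * (16 * CZ) ^ 4 * (4 * CI) ^ 10 * CH * 64 * T * W₀ ^ 2 / ε ^ 3 with hA
  have hA0 : 0 ≤ A := by positivity
  have key : ∀ y : ℝ, ‖Kz 1 X (ε + y * I) * Jc w P R ε (ε + y * I)‖ ≤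
      A * (1 / ‖(ε + y * I : ℂ)‖ ^ m) := by
    intro y
    set z : ℂ := ε + y * I with hz
    have hzre : z.re = ε := by simp [hz]
    have hzim : z.im = y := by simp [hz]
    have hr : 0 < ‖z‖ := lt_of_lt_of_le hε (hzre ▸ Complex.re_le_norm z)
    have hb : 1 ≤ br y := by unfold br; linarith [abs_nonneg y]
    have hrb : ‖z‖ ≤ br y := by
      have := Complex.norm_le_abs_re_add_abs_im z
      rw [hzre, hzim, abs_of_pos hε] at this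
      unfold br; linarith
    have hq : 1 ≤ 1 + lam * |y| := by
      have := mul_nonneg hl (abs_nonneg y); linarith
    -- the kernel
    have hKz : ‖Kz 1 X z‖ ≤ CK / (ε * br y ^ 12) := by
      have h1 := (hK z).1 (by rw [hzre]; exact hε) (by rw [hzre]; linarith)
      rw [hzre, hzim] at h1
      have h2 : ‖(((|((1 : ℤ) : ℝ)| * X : ℝ)) : ℂ) ^ (-z)‖ ≤ 1 := by
        have e : |((1 : ℤ) : ℝ)| * X = X := by simp
        rw [e, Complex.norm_cpow_eq_rpow_re_of_pos (by linarith)]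
        apply Real.rpow_le_one_of_one_le_of_nonpos hX
        rw [neg_re, hzre]; linarith
      unfold Kz
      have e : Gammaℝ z / 2 * riemannZeta (2 * z) = (Gammaℝ z * riemannZeta (2 * z)) / 2 := by
        ring
      rw [norm_mul, e, norm_div]
      simp only [Complex.norm_ofNat]
      have h3 := norm_nonneg (Gammaℝ z * riemannZeta (2 * z))
      have h5 := mul_le_of_le_one_right (a := ‖Gammaℝ z * riemannZeta (2 * z)‖ / 2)
        (by positivity) h2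
      linarith
    -- the integrand on the circles
    set M : ℝ := 4 * W₀ ^ 2 * (16 * CZ / ε) ^ 4 * (4 * CI) ^ 10 * CH * T *
      (‖z‖ ^ α * ‖z‖ ^ α * (br y * (1 + 1 / ‖z‖)) ^ 6) with hM
    have hin : ∀ s₁ ∈ Metric.sphere z (ε / 2), ∀ s₂ ∈ Metric.sphere z (ε / 2),
        ‖w s₁ * wt w s₂ * Zc P R 1 z s₁ s₂‖ ≤ M := by
      intro s₁ h1 s₂ h2
      rw [mem_sphere_iff_norm] at h1 h2
      have w1 := tc2_near hW hl hN (s := s₁) (t := y) h1.le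
      have w2 := tc2_near hW hl hN' (s := s₂) (t := y) h2.le
      have l1 := tc2_Lo hLOP hCZ hZ hε hε1 h1
      have l2 := tc2_Lo hLOP hCZ hZ hε hε1 h2
      have i3 := tc2_IZ3 hCI hI (z := z) (s₁ := s₁) (s₂ := s₂) (by linarith) (by linarith)
      have hh := hH P B R lam T Y ε z s₁ s₂ hTw hε hε1 hεl hzre h1.le h2.le
      rw [hzim] at hh
      rw [← hz] at w1 w2
      have hqc : (1 + lam * |y|) ^ c ≤ (1 + lam * |y|) ^ C₀ := pow_le_pow_right₀ hq hc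
      have hq0 : 1 ≤ (1 + lam * |y|) ^ C₀ := one_le_pow₀ hq
      have hh' : ‖Hh P R 1 z s₁ s₂‖ ≤
          CH * T * (1 + lam * |y|) ^ C₀ * (br y * (1 + 1 / ‖z‖)) ^ 6 := by
        refine hh.trans ?_
        gcongr
      have w2' : ‖wt w s₂‖ ≤ 2 * W₀ * ‖z‖ ^ α := w2.trans (div_le_self (by positivity) hq0)
      unfold Zc
      simp only [norm_mul, norm_pow]
      calc ‖w s₁‖ * ‖wt w s₂‖ * (‖Lo 1 (1 + (s₁ - z))‖ ^ 2 * ‖Lo 1 (1 + (s₂ - z))‖ ^ 2 *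
            ‖IZ3 z s₁ s₂‖ * ‖Hh P R 1 z s₁ s₂‖)
          ≤ (2 * W₀ * ‖z‖ ^ α / (1 + lam * |y|) ^ C₀) * (2 * W₀ * ‖z‖ ^ α) *
            ((16 * CZ / ε) ^ 2 * (16 * CZ / ε) ^ 2 * (4 * CI) ^ 10 *
              (CH * T * (1 + lam * |y|) ^ C₀ * (br y * (1 + 1 / ‖z‖)) ^ 6)) := by gcongr
        _ = M := by rw [hM]; field_simp; ring
    have hJ : ‖Jc w P R ε z‖ ≤ 2 * π * (ε / 2) * (2 * π * (ε / 2) * M) := by
      unfold Jc
      refine hPH2.2.1 z (ε / 2) _ _ (by positivity) fun s₁ h1 => ?_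
      exact hPH2.2.1 z (ε / 2) _ _ (by positivity) fun s₂ h2 => hin s₁ h1 s₂ h2
    have halg := tc2_alg hr hb hrb hm
    rw [norm_mul]
    calc ‖Kz 1 X z‖ * ‖Jc w P R ε z‖
        ≤ CK / (ε * br y ^ 12) * (2 * π * (ε / 2) * (2 * π * (ε / 2) * M)) :=
          mul_le_mul hKz hJ (norm_nonneg _) (by positivity)
      _ = A / 64 * (‖z‖ ^ α * ‖z‖ ^ α * (br y * (1 + 1 / ‖z‖)) ^ 6 / br y ^ 12) := by
          rw [hM, hA]; field_simp
      _ ≤ A / 64 * (64 * (1 / ‖z‖ ^ m)) := mul_le_mul_of_nonneg_left halg (by positivity)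
      _ = A * (1 / ‖z‖ ^ m) := by ring
  unfold Iv
  refine (norm_integral_le_of_norm_le (hDi.const_mul A) (Filter.Eventually.of_forall key)).trans ?_
  rw [integral_const_mul]
  have e6 : ε ^ 6 = ε ^ m * ε ^ (2 * α) := by rw [← hm]; ring
  calc A * ∫ t : ℝ, 1 / ‖(ε + t * I : ℂ)‖ ^ m ≤ A * (CD * ε / ε ^ m) :=
        mul_le_mul_of_nonneg_left hDb hA0
    _ = _ := by
        have e8 : ε ^ 8 = ε ^ m * ε ^ (2 * α) * ε ^ 2 := by rw [← e6]; ring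
        rw [e8, hA]; field_simp

end Pool.Agent.QM
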