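import Pool.Agent.P.MP_ea46f5_nt.QM.S2

namespace Pool.Agent.QM

open Real Finset

theorem te_abs_le (l : ℕ) (x : ℝ) : |Et l x| ≤ exp |x| := by
  unfold Et
  refine (abs_sum_le_sum_abs _ _).trans ?_
  have h := Real.sum_le_exp_of_nonneg (abs_nonneg x) (l + 1)
  refine le_trans (le_of_eq ?_) h
  refine sum_congr rfl fun j _ => ?_
  rw [abs_div, abs_pow, Nat.abs_cast]

theorem te_one (l : ℕ) {x : ℝ} (hx : |x| ≤ l / 8) :
    |Et l x - exp x| ≤ (1 / 2) ^ l * exp x := by
  have hl : (0 : ℝ) ≤ l := Nat.cast_nonneg l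
  have h1 : ‖(x : ℂ)‖ / ((l + 1).succ : ℕ) ≤ 1 / 2 := by
    rw [Complex.norm_real, Real.norm_eq_abs, div_le_iff₀ (by positivity)]
    push_cast
    linarith
  have h2 := Complex.exp_bound' h1
  have h3 : Complex.exp x - ∑ m ∈ range (l + 1), (x : ℂ) ^ m / (m.factorial : ℂ) =
      ((exp x - Et l x : ℝ) : ℂ) := by
    unfold Et
    push_cast
    rfl
  rw [h3, Complex.norm_real, Complex.norm_real, Real.norm_eq_abs, Real.norm_eq_abs,
    abs_sub_comm] at h2
  refine h2.trans ?_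
  have h4 : |x| ^ (l + 1) / ((l + 1).factorial : ℝ) ≤ (exp 1 / 8) ^ (l + 1) := by
    have h5 : |x| ^ (l + 1) ≤ (((l : ℝ) + 1) / 8) ^ (l + 1) :=
      pow_le_pow_left₀ (abs_nonneg x) (by linarith) _
    have h6 := Real.pow_div_factorial_le_exp ((l : ℝ) + 1) (by positivity) (l + 1)
    have h7 : exp ((l : ℝ) + 1) = exp 1 ^ (l + 1) := by
      rw [← Real.exp_nat_mul]; push_cast; ring_nf
    calc |x| ^ (l + 1) / ((l + 1).factorial : ℝ)
        ≤ (((l : ℝ) + 1) / 8) ^ (l + 1) / ((l + 1).factorial : ℝ) := by gcongr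
      _ = ((l : ℝ) + 1) ^ (l + 1) / ((l + 1).factorial : ℝ) / 8 ^ (l + 1) := by
          rw [div_pow]; ring
      _ ≤ exp 1 ^ (l + 1) / 8 ^ (l + 1) := by rw [← h7]; gcongr
      _ = (exp 1 / 8) ^ (l + 1) := by rw [div_pow]
  have he : exp 1 < 2.7182818286 := Real.exp_one_lt_d9
  have he0 : 0 < exp 1 := exp_pos 1
  have h8 : exp (-(1 / 8 : ℝ)) ≥ 7 / 8 := by
    have := Real.add_one_le_exp (-(1 / 8 : ℝ)); linarith
  have h9 : exp (-(1 / 8 : ℝ)) ^ l ≤ exp x := by
    rw [← Real.exp_nat_mul]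
    exact exp_le_exp.2 (by have := neg_abs_le x; linarith)
  have h10 : (exp 1 / 8) ^ l ≤ (1 / 2) ^ l * exp (-(1 / 8 : ℝ)) ^ l := by
    rw [← mul_pow]
    exact pow_le_pow_left₀ (by positivity) (by linarith) _
  calc |x| ^ (l + 1) / ((l + 1).factorial : ℝ) * 2 ≤ (exp 1 / 8) ^ (l + 1) * 2 := by gcongr
    _ = (exp 1 / 8) ^ l * (exp 1 / 4) := by ring
    _ ≤ (exp 1 / 8) ^ l * 1 := by gcongr; linarith
    _ ≤ (1 / 2) ^ l * exp x := by
        rw [mul_one]
        exact h10.trans (by gcongr)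

theorem te_two (l : ℕ) (x : ℝ) : Et l x ^ 2 ≤ (1 + (1 / 2) ^ l) ^ 2 * exp (2 * x) +
    exp (-(2 * l)) * (exp (18 * x) + exp (-(18 * x))) := by
  rcases le_or_gt |x| (l / 8) with hx | hx
  · have h := te_one l hx
    have h1 : |Et l x| ≤ (1 + (1 / 2) ^ l) * exp x := by
      have := abs_sub_abs_le_abs_sub (Et l x) (exp x)
      rw [abs_of_pos (exp_pos x)] at this
      linarith
    have h2 : Et l x ^ 2 ≤ ((1 + (1 / 2) ^ l) * exp x) ^ 2 := by
      rw [← sq_abs (Et l x)]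
      exact pow_le_pow_left₀ (abs_nonneg _) h1 2
    have h3 : exp (2 * x) = exp x ^ 2 := by rw [← Real.exp_nat_mul]; norm_num
    rw [h3, ← mul_pow]
    have : 0 ≤ exp (-(2 * l)) * (exp (18 * x) + exp (-(18 * x))) := by positivity
    linarith
  · have h2 : Et l x ^ 2 ≤ exp |x| ^ 2 := by
      rw [← sq_abs (Et l x)]
      exact pow_le_pow_left₀ (abs_nonneg _) (te_abs_le l x) 2
    have h3 : exp |x| ^ 2 ≤ exp (-(2 * l)) * exp (18 * |x|) := by
      rw [← Real.exp_nat_mul, ← exp_add]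
      exact exp_le_exp.2 (by push_cast; linarith)
    have h4 : exp (18 * |x|) ≤ exp (18 * x) + exp (-(18 * x)) := by
      rcases abs_cases x with h | h
      · rw [h.1]; linarith [exp_pos (-(18 * x))]
      · rw [h.1, mul_neg]; linarith [exp_pos (18 * x)]
    have h5 : exp (-(2 * l)) * exp (18 * |x|) ≤
        exp (-(2 * l)) * (exp (18 * x) + exp (-(18 * x))) := by gcongr
    have : 0 ≤ (1 + (1 / 2) ^ l) ^ 2 * exp (2 * x) := by positivity
    linarith

theorem te_three {l : ℕ} (hl : 1 ≤ l) (x : ℝ) :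
    (40 * x / l) ^ (2 * l) ≤ exp (-(2 * l)) * (exp (80 * x) + exp (-(80 * x))) := by
  have hl0 : (0 : ℝ) < l := by exact_mod_cast hl
  have h1 : (40 * x / l) ^ (2 * l) = (40 * |x| / l) ^ (2 * l) := by
    rw [← (even_two_mul l).pow_abs, abs_div, abs_mul, Nat.abs_cast]
    norm_num
  have h2 : 40 * |x| / l ≤ exp (40 * |x| / l - 1) := by
    have := Real.add_one_le_exp (40 * |x| / l - 1); linarith
  have h3 : (40 * |x| / l) ^ (2 * l) ≤ exp (-(2 * l)) * exp (80 * |x|) := by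
    refine (pow_le_pow_left₀ (by positivity) h2 _).trans (le_of_eq ?_)
    rw [← Real.exp_nat_mul, ← exp_add]
    congr 1
    push_cast
    field_simp
    ring
  have h4 : exp (80 * |x|) ≤ exp (80 * x) + exp (-(80 * x)) := by
    rcases abs_cases x with h | h
    · rw [h.1]; linarith [exp_pos (-(80 * x))]
    · rw [h.1, mul_neg]; linarith [exp_pos (80 * x)]
  rw [h1]
  exact h3.trans (by gcongr)

theorem pTE : TE := by
  refine ⟨fun l x _ hx => ?_, fun l x _ => ?_, fun l x hl => ?_⟩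
  · have := te_one l hx
    rwa [one_div, inv_pow, mul_comm, ← div_eq_mul_inv] at this
  · have := te_two l x
    rwa [one_div_pow, ← neg_mul, ← neg_mul] at this
  · have := te_three hl x
    rwa [← neg_mul, ← neg_mul] at this

end Pool.Agent.QM
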