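import Pool.Agent.P.MP_ea46f5_nt.QM.S2

namespace Pool.Agent.QM

open Complex MeasureTheory Finset
open scoped Real ComplexConjugate

theorem vb_exp (τ y : ℝ) : -τ ^ 2 / 2 + -(τ + y) ^ 2 / 4 ≤ 3 + -|y| + -|τ| := by
  have h1 : |y| ≤ |τ + y| + |τ| := by
    have := abs_sub (τ + y) τ
    simpa using this
  have h2 : τ ^ 2 = |τ| ^ 2 := (sq_abs τ).symm
  have h3 : (τ + y) ^ 2 = |τ + y| ^ 2 := (sq_abs _).symm
  rw [h2, h3]
  nlinarith [sq_nonneg (|τ| - 2), sq_nonneg (|τ + y| - 2)]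

theorem vb_norm {C : ℝ} (hC : 0 < C) {a : ℕ} {γ : ℤ}
    (hg : ∀ s : ℂ, 0 < s.re → s.re ≤ 13 → ‖g0 a γ s‖ ≤ C * Real.exp (-s.im ^ 2 / 2) / ‖s‖)
    {X : ℝ} (hX : 0 < X) (y : ℝ) (s : ℂ) (h0 : 0 < s.re) (h1 : s.re ≤ 13) :
    ‖w1 a γ X y s‖ ≤ C * Real.exp 3 * Real.exp (s.re ^ 2 / 4) * X ^ (s.re / 2) *
      Real.exp (-|y|) * (Real.exp (-|s.im|) / ‖s‖) := by
  have hs : 0 < ‖s‖ := lt_of_lt_of_le h0 (re_le_norm s)
  have e1 : ‖(X : ℂ) ^ (s / 2)‖ = X ^ (s.re / 2) := by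
    rw [norm_cpow_eq_rpow_re_of_pos hX]
    simp
  have e2 : ‖cexp ((s + y * I) ^ 2 / 4)‖ =
      Real.exp (s.re ^ 2 / 4) * Real.exp (-(s.im + y) ^ 2 / 4) := by
    rw [norm_exp, ← Real.exp_add]
    congr 1
    have : ((s + y * I) ^ 2 / 4 : ℂ) = (s + y * I) ^ 2 / ((4 : ℝ) : ℂ) := by norm_num
    rw [this, div_ofReal_re]
    simp [pow_two]
    ring
  have e3 : Real.exp (-s.im ^ 2 / 2) * Real.exp (-(s.im + y) ^ 2 / 4) ≤
      Real.exp 3 * Real.exp (-|y|) * Real.exp (-|s.im|) := by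
    rw [← Real.exp_add, ← Real.exp_add, ← Real.exp_add]
    exact Real.exp_le_exp.2 (vb_exp _ _)
  unfold w1
  rw [norm_mul, norm_mul, e1, e2]
  have hp : 0 ≤ X ^ (s.re / 2) := (Real.rpow_pos_of_pos hX _).le
  calc ‖g0 a γ s‖ * X ^ (s.re / 2) * (Real.exp (s.re ^ 2 / 4) * Real.exp (-(s.im + y) ^ 2 / 4))
      ≤ C * Real.exp (-s.im ^ 2 / 2) / ‖s‖ * X ^ (s.re / 2) *
        (Real.exp (s.re ^ 2 / 4) * Real.exp (-(s.im + y) ^ 2 / 4)) := by
        gcongr
        exact hg s h0 h1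
    _ = C * Real.exp (s.re ^ 2 / 4) * X ^ (s.re / 2) / ‖s‖ *
        (Real.exp (-s.im ^ 2 / 2) * Real.exp (-(s.im + y) ^ 2 / 4)) := by ring
    _ ≤ C * Real.exp (s.re ^ 2 / 4) * X ^ (s.re / 2) / ‖s‖ *
        (Real.exp 3 * Real.exp (-|y|) * Real.exp (-|s.im|)) := by gcongr
    _ = _ := by ring

theorem vb_diff {a : ℕ} {γ : ℤ} (hg : DifferentiableOn ℂ (g0 a γ) {s | 0 < s.re})
    {X : ℝ} (hX : 0 < X) (y : ℝ) : DifferentiableOn ℂ (w1 a γ X y) {s | 0 < s.re} := by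
  unfold w1
  refine (hg.mul ?_).mul ?_
  · refine Differentiable.differentiableOn ?_
    exact Differentiable.const_cpow (by fun_prop) (Or.inl (by exact_mod_cast hX.ne'))
  · refine Differentiable.differentiableOn ?_
    fun_prop

theorem vb_int {δ : ℝ} (hδ : 0 < δ) :
    Integrable (fun t : ℝ => Real.exp (-|t|) * |t| ^ (δ - 1)) := by
  have h := Real.GammaIntegral_convergent hδ
  have hp : IntegrableOn (fun t : ℝ => Real.exp (-|t|) * |t| ^ (δ - 1)) (Set.Ioi 0) := by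
    refine h.congr_fun (fun x hx => ?_) measurableSet_Ioi
    have hx' : 0 < x := hx
    simp only [abs_of_pos hx']
  have hn : IntegrableOn (fun t : ℝ => Real.exp (-|t|) * |t| ^ (δ - 1)) (Set.Iic 0) := by
    rw [← Measure.map_neg_eq_self (volume : Measure ℝ)]
    let m : MeasurableEmbedding fun x : ℝ => -x := (Homeomorph.neg ℝ).measurableEmbedding
    rw [m.integrableOn_map_iff]
    simp_rw [Function.comp_def, abs_neg, Set.neg_preimage, Set.neg_Iic, neg_zero]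
    exact Iff.mpr integrableOn_Ici_iff_integrableOn_Ioi hp
  have := hn.union hp
  rwa [Set.Iic_union_Ioi, integrableOn_univ] at this

theorem vb_shift (hSH0 : SH0) (hDEC : DEC) {C : ℝ} (hC : 0 < C) {a : ℕ} {γ : ℤ}
    (hd : DifferentiableOn ℂ (g0 a γ) {s | 0 < s.re})
    (hg : ∀ s : ℂ, 0 < s.re → s.re ≤ 13 → ‖g0 a γ s‖ ≤ C * Real.exp (-s.im ^ 2 / 2) / ‖s‖)
    {X : ℝ} (hX : 1 ≤ X) (y : ℝ) {n : ℕ} (hn : n ≠ 0) {σ : ℝ} (h0 : 0 < σ) (h1 : σ ≤ 12) :
    Vn a γ X y n = Iv σ fun s => w1 a γ X y s * (n : ℂ) ^ (-s) := by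
  obtain ⟨-, h2, -⟩ := hDEC
  obtain ⟨D, hD, h2⟩ := h2 2
  have hX0 : 0 < X := by linarith
  have hn0 : 0 < n := Nat.pos_of_ne_zero hn
  have hdf : DifferentiableOn ℂ (fun s => w1 a γ X y s * (n : ℂ) ^ (-s)) {s | 0 < s.re} := by
    refine (vb_diff hd hX0 y).mul (Differentiable.differentiableOn ?_)
    exact Differentiable.const_cpow (by fun_prop) (Or.inl (by exact_mod_cast hn))
  unfold Vn
  refine hSH0 σ 12 (C * Real.exp 3 * Real.exp (12 ^ 2 / 4) * X ^ ((12 : ℝ) / 2) *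
    Real.exp (-|y|) * (D / σ)) _ h1 ⟨?_, ?_⟩ ?_
  · exact hdf.continuousOn.mono fun s hs => lt_of_lt_of_le h0 hs.1
  · exact hdf.mono fun s hs => lt_trans h0 hs.1
  · intro s hs
    have hs0 : 0 < s.re := lt_of_lt_of_le h0 hs.1
    have hs1 : s.re ≤ 12 := hs.2
    have hb := vb_norm hC hg hX0 y s hs0 (by linarith)
    have hnn : ‖(n : ℂ) ^ (-s)‖ ≤ 1 := by
      rw [norm_natCast_cpow_of_pos hn0]
      exact Real.rpow_le_one_of_one_le_of_nonpos (by exact_mod_cast hn0) (by simp; linarith)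
    have hbr : 0 < br s.im := by unfold br; positivity
    have hσ : σ ≤ ‖s‖ := le_trans hs.1 (re_le_norm s)
    have he : Real.exp (-|s.im|) ≤ D / br s.im ^ 2 := by
      have h3 := h2 s.im 0
      have h4 : br 0 = 1 := by simp [br]
      rw [h4, sub_zero, one_pow, mul_one] at h3
      rw [le_div_iff₀ (by positivity)]
      refine le_trans ?_ h3
      gcongr
      have := abs_nonneg s.im
      linarith
    have hq : Real.exp (-|s.im|) / ‖s‖ ≤ D / σ / br s.im ^ 2 := by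
      calc Real.exp (-|s.im|) / ‖s‖ ≤ D / br s.im ^ 2 / σ := by gcongr
        _ = _ := by ring
    rw [norm_mul]
    calc ‖w1 a γ X y s‖ * ‖(n : ℂ) ^ (-s)‖ ≤ ‖w1 a γ X y s‖ * 1 := by gcongr
      _ ≤ C * Real.exp 3 * Real.exp (s.re ^ 2 / 4) * X ^ (s.re / 2) *
          Real.exp (-|y|) * (Real.exp (-|s.im|) / ‖s‖) := by rw [mul_one]; exact hb
      _ ≤ C * Real.exp 3 * Real.exp (12 ^ 2 / 4) * X ^ ((12 : ℝ) / 2) *
          Real.exp (-|y|) * (D / σ / br s.im ^ 2) := by gcongr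
      _ = _ := by ring

theorem vb_line {C : ℝ} (hC : 0 < C) {a : ℕ} {γ : ℤ}
    (hg : ∀ s : ℂ, 0 < s.re → s.re ≤ 13 → ‖g0 a γ s‖ ≤ C * Real.exp (-s.im ^ 2 / 2) / ‖s‖)
    {X : ℝ} (hX : 0 < X) (y : ℝ) {n : ℕ} (hn : n ≠ 0) {σ : ℝ} (h0 : 0 < σ) (h1 : σ ≤ 13)
    {g : ℝ → ℝ} (hi : Integrable g)
    (hb : ∀ t : ℝ, t ≠ 0 → Real.exp (-|t|) / ‖((σ : ℂ) + t * I)‖ ≤ g t) :
    ‖Iv σ fun s => w1 a γ X y s * (n : ℂ) ^ (-s)‖ ≤
      C * Real.exp 3 * Real.exp (σ ^ 2 / 4) * X ^ (σ / 2) * Real.exp (-|y|) * (n : ℝ) ^ (-σ) *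
        ∫ t, g t := by
  have hn0 : 0 < n := Nat.pos_of_ne_zero hn
  unfold Iv
  rw [← integral_const_mul]
  refine norm_integral_le_of_norm_le (hi.const_mul _) ?_
  have hae : ∀ᵐ t : ℝ, t ≠ 0 := by
    rw [ae_iff]
    simp
  filter_upwards [hae] with t ht
  have hre : ((σ : ℂ) + t * I).re = σ := by simp
  have him : ((σ : ℂ) + t * I).im = t := by simp
  have hw := vb_norm hC hg hX y ((σ : ℂ) + t * I) (by rw [hre]; exact h0) (by rw [hre]; exact h1)
  rw [hre, him] at hw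
  rw [norm_mul, norm_natCast_cpow_of_pos hn0, neg_re, hre]
  have hp : 0 ≤ X ^ (σ / 2) := (Real.rpow_pos_of_pos hX _).le
  have hq : 0 ≤ (n : ℝ) ^ (-σ) := Real.rpow_nonneg (Nat.cast_nonneg n) _
  calc ‖w1 a γ X y ((σ : ℂ) + t * I)‖ * (n : ℝ) ^ (-σ)
      ≤ C * Real.exp 3 * Real.exp (σ ^ 2 / 4) * X ^ (σ / 2) * Real.exp (-|y|) * g t *
        (n : ℝ) ^ (-σ) := by
        gcongr
        refine le_trans hw ?_
        gcongr
        exact hb t ht
    _ = _ := by ring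

theorem vb_jo (m : ℤ) (n : ℕ) : ‖jo m n‖ ≤ 1 := by
  unfold jo
  split_ifs
  · rcases jacobiSym.trichotomy m n with h | h | h <;> simp [h]
  · simp

theorem vb_sum (hLSP : LSP) {w : ℂ → ℂ} (hw : Integrable fun t : ℝ => w (((12 : ℝ) : ℂ) + t * I))
    (m : ℤ) :
    (Iv 12 fun s => w s * LS m (1 / 2 + s)) =
      ∑' n : ℕ, jo m n * (n : ℂ) ^ (-(1 / 2 : ℂ)) * Iv 12 fun s => w s * (n : ℂ) ^ (-s) := by
  obtain ⟨h1, -⟩ := hLSP
  set F : ℕ → ℝ → ℂ := fun n t => w (((12 : ℝ) : ℂ) + t * I) *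
    (jo m n * (n : ℂ) ^ (-(1 / 2 + (((12 : ℝ) : ℂ) + t * I)))) with hF
  have hre : ∀ t : ℝ, (1 / 2 + (((12 : ℝ) : ℂ) + t * I) : ℂ).re = 25 / 2 := by
    intro t
    simp
    norm_num
  have hnorm : ∀ (n : ℕ) (t : ℝ),
      ‖jo m n * (n : ℂ) ^ (-(1 / 2 + (((12 : ℝ) : ℂ) + t * I)))‖ ≤ (n : ℝ) ^ (-(25 / 2) : ℝ) := by
    intro n t
    rw [norm_mul, norm_natCast_cpow_of_re_ne_zero n (by rw [neg_re, hre]; norm_num), neg_re, hre]
    have hq : 0 ≤ (n : ℝ) ^ (-(25 / 2) : ℝ) := Real.rpow_nonneg (Nat.cast_nonneg n) _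
    calc ‖jo m n‖ * (n : ℝ) ^ (-(25 / 2) : ℝ) ≤ 1 * (n : ℝ) ^ (-(25 / 2) : ℝ) := by
          gcongr
          exact vb_jo m n
      _ = _ := one_mul _
  have hj0 : jo m 0 = 0 := by simp [jo]
  have hint : ∀ n, Integrable (F n) := by
    intro n
    rcases Nat.eq_zero_or_pos n with rfl | hn
    · simp only [hF, hj0, zero_mul, mul_zero]
      exact integrable_zero _ _ _
    · refine hw.mul_bdd (c := (n : ℝ) ^ (-(25 / 2) : ℝ)) ?_ (Filter.Eventually.of_forall (hnorm n))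
      refine Continuous.aestronglyMeasurable ?_
      refine continuous_const.mul ?_
      exact Continuous.const_cpow (by fun_prop) (Or.inl (by exact_mod_cast hn.ne'))
  have hsum : Summable fun n => ∫ t, ‖F n t‖ := by
    have hs : Summable fun n : ℕ =>
        (∫ t : ℝ, ‖w (((12 : ℝ) : ℂ) + t * I)‖) * (n : ℝ) ^ (-(25 / 2) : ℝ) :=
      (Real.summable_nat_rpow.2 (by norm_num)).mul_left _
    refine Summable.of_nonneg_of_le (fun n => integral_nonneg fun t => norm_nonneg _)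
      (fun n => ?_) hs
    rw [← integral_mul_const]
    refine integral_mono (hint n).norm (hw.norm.mul_const _) fun t => ?_
    simp only [hF]
    rw [norm_mul]
    gcongr
    exact hnorm n t
  have hH := hasSum_integral_of_summable_integral_norm hint hsum
  have e1 : (Iv 12 fun s => w s * LS m (1 / 2 + s)) = ∫ t, ∑' n, F n t := by
    unfold Iv
    refine integral_congr_ae (Filter.Eventually.of_forall fun t => ?_)
    have := (h1 m (1 / 2 + (((12 : ℝ) : ℂ) + t * I)) (by rw [hre]; norm_num)).mul_left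
      (w (((12 : ℝ) : ℂ) + t * I))
    exact this.tsum_eq.symm
  rw [e1, ← hH.tsum_eq]
  refine tsum_congr fun n => ?_
  rcases Nat.eq_zero_or_pos n with rfl | hn
  · simp [hF, hj0]
  · unfold Iv
    rw [← integral_const_mul]
    refine integral_congr_ae (Filter.Eventually.of_forall fun t => ?_)
    have hn' : (n : ℂ) ≠ 0 := by exact_mod_cast hn.ne'
    simp only [hF]
    rw [neg_add, cpow_add _ _ hn']
    ring

theorem pVB (hSH0 : SH0) (hG0B : G0B) (hLSP : LSP) (hDEC : DEC) : VB := by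
  intro δ hδ
  obtain ⟨C, hC, hG⟩ := hG0B
  set d : ℝ := min δ (1 / 2) with hd
  have hd0 : 0 < d := lt_min hδ (by norm_num)
  have hd1 : d ≤ 1 / 2 := min_le_right _ _
  have hdδ : d ≤ δ := min_le_left _ _
  set G : ℝ := ∫ t : ℝ, Real.exp (-|t|) * |t| ^ (d - 1) with hGd
  have hG0 : 0 ≤ G := integral_nonneg fun t => by positivity
  obtain ⟨hi3, hb3⟩ := hDEC.2.2.1 0
  refine ⟨C * Real.exp 3 * Real.exp 1 * (G + 4), by positivity, ?_⟩
  intro a γ X y ha hγ hX hL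
  obtain ⟨hdf, hg⟩ := hG a γ ha hγ
  have hX0 : 0 < X := by linarith
  have hL0 : 0 < Real.log X := by linarith
  refine ⟨fun n hn => ⟨?_, ?_⟩, fun m => ?_⟩
  · set ε : ℝ := 1 / Real.log X with hε
    have hε0 : 0 < ε := by positivity
    have hε1 : ε ≤ 1 := by
      rw [hε, div_le_one hL0]
      linarith
    rw [vb_shift hSH0 hDEC hC hdf hg hX y hn hε0 (by linarith)]
    have hb : ∀ t : ℝ, t ≠ 0 → Real.exp (-|t|) / ‖((ε : ℂ) + t * I)‖ ≤
        Real.log X ^ δ * (Real.exp (-|t|) * |t| ^ (d - 1)) := by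
      intro t ht
      have ht0 : 0 < |t| := abs_pos.2 ht
      have hs1 : ε ≤ ‖((ε : ℂ) + t * I)‖ := by
        have := re_le_norm ((ε : ℂ) + t * I)
        simpa using this
      have hs2 : |t| ≤ ‖((ε : ℂ) + t * I)‖ := by
        have := abs_im_le_norm ((ε : ℂ) + t * I)
        simpa using this
      set r : ℝ := ‖((ε : ℂ) + t * I)‖ with hr
      have hr0 : 0 < r := lt_of_lt_of_le hε0 hs1
      have e1 : r⁻¹ = r ^ (-d) * r ^ (d - 1) := by
        rw [← Real.rpow_add hr0, ← Real.rpow_neg_one]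
        congr 1
        ring
      have e2 : r ^ (-d) ≤ Real.log X ^ δ := by
        calc r ^ (-d) ≤ ε ^ (-d) := Real.rpow_le_rpow_of_nonpos hε0 hs1 (by linarith)
          _ = Real.log X ^ d := by
            rw [hε, one_div, Real.inv_rpow hL0.le, Real.rpow_neg hL0.le, inv_inv]
          _ ≤ Real.log X ^ δ := Real.rpow_le_rpow_of_exponent_le (by linarith) hdδ
      have e3 : r ^ (d - 1) ≤ |t| ^ (d - 1) := Real.rpow_le_rpow_of_nonpos ht0 hs2 (by linarith)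
      have e4 : 0 ≤ Real.log X ^ δ := Real.rpow_nonneg hL0.le _
      calc Real.exp (-|t|) / r = Real.exp (-|t|) * (r ^ (-d) * r ^ (d - 1)) := by
            rw [div_eq_mul_inv, e1]
        _ ≤ Real.exp (-|t|) * (Real.log X ^ δ * |t| ^ (d - 1)) := by gcongr
        _ = _ := by ring
    have hl := vb_line hC hg hX0 y hn hε0 (by linarith) ((vb_int hd0).const_mul _) hb
    rw [integral_const_mul, ← hGd] at hl
    refine le_trans hl ?_
    have e5 : Real.exp (ε ^ 2 / 4) * X ^ (ε / 2) ≤ Real.exp 1 := by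
      rw [Real.rpow_def_of_pos hX0, ← Real.exp_add]
      refine Real.exp_le_exp.2 ?_
      have : Real.log X * (ε / 2) = 1 / 2 := by
        rw [hε]
        field_simp
      rw [this]
      nlinarith
    have e4 : 0 ≤ Real.log X ^ δ := Real.rpow_nonneg hL0.le _
    have hq : 0 ≤ (n : ℝ) ^ (-ε) := Real.rpow_nonneg (Nat.cast_nonneg n) _
    calc C * Real.exp 3 * Real.exp (ε ^ 2 / 4) * X ^ (ε / 2) * Real.exp (-|y|) * (n : ℝ) ^ (-ε) *
          (Real.log X ^ δ * G)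
        = C * Real.exp 3 * (Real.exp (ε ^ 2 / 4) * X ^ (ε / 2)) * G * Real.exp (-|y|) *
          Real.log X ^ δ * (n : ℝ) ^ (-ε) := by ring
      _ ≤ C * Real.exp 3 * Real.exp 1 * (G + 4) * Real.exp (-|y|) *
          Real.log X ^ δ * (n : ℝ) ^ (-ε) := by
          gcongr
          linarith
  · rw [vb_shift hSH0 hDEC hC hdf hg hX y hn (σ := 2) (by norm_num) (by norm_num)]
    have hb : ∀ t : ℝ, t ≠ 0 → Real.exp (-|t|) / ‖(((2 : ℝ) : ℂ) + t * I)‖ ≤
        Real.exp (-|t - 0| / 2) := by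
      intro t _
      have hs1 : (2 : ℝ) ≤ ‖(((2 : ℝ) : ℂ) + t * I)‖ := by
        have := re_le_norm (((2 : ℝ) : ℂ) + t * I)
        simpa using this
      calc Real.exp (-|t|) / ‖(((2 : ℝ) : ℂ) + t * I)‖ ≤ Real.exp (-|t|) :=
            div_le_self (Real.exp_pos _).le (by linarith)
        _ ≤ _ := by
            rw [sub_zero]
            refine Real.exp_le_exp.2 ?_
            have := abs_nonneg t
            linarith
    have hl := vb_line hC hg hX0 y hn (σ := 2) (by norm_num) (by norm_num) hi3 hb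
    refine le_trans hl ?_
    have e1 : ((2 : ℝ) ^ 2 / 4) = 1 := by norm_num
    have e2 : ((2 : ℝ) / 2) = 1 := by norm_num
    have e3 : (n : ℝ) ^ (-(2 : ℝ)) = 1 / (n : ℝ) ^ 2 := by
      rw [Real.rpow_neg (Nat.cast_nonneg n), one_div]
      norm_num
    rw [e1, e2, e3, Real.rpow_one]
    calc C * Real.exp 3 * Real.exp 1 * X * Real.exp (-|y|) * (1 / (n : ℝ) ^ 2) *
          ∫ t : ℝ, Real.exp (-|t - 0| / 2)
        ≤ C * Real.exp 3 * Real.exp 1 * X * Real.exp (-|y|) * (1 / (n : ℝ) ^ 2) * (G + 4) := by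
          gcongr
          linarith
      _ = _ := by ring
  · refine vb_sum hLSP ?_ m
    have hc : Continuous fun t : ℝ => w1 a γ X y (((12 : ℝ) : ℂ) + t * I) := by
      refine (vb_diff hdf hX0 y).continuousOn.comp_continuous (by fun_prop) fun t => ?_
      simp
    refine Integrable.mono' (hi3.const_mul (C * Real.exp 3 * Real.exp (12 ^ 2 / 4) *
      X ^ ((12 : ℝ) / 2) * Real.exp (-|y|))) hc.aestronglyMeasurable
      (Filter.Eventually.of_forall fun t => ?_)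
    have hre : (((12 : ℝ) : ℂ) + t * I).re = 12 := by simp
    have him : (((12 : ℝ) : ℂ) + t * I).im = t := by simp
    have hw := vb_norm hC hg hX0 y (((12 : ℝ) : ℂ) + t * I) (by rw [hre]; norm_num)
      (by rw [hre]; norm_num)
    rw [hre, him] at hw
    refine le_trans hw ?_
    have hp : 0 ≤ X ^ ((12 : ℝ) / 2) := (Real.rpow_pos_of_pos hX0 _).le
    gcongr
    have hs1 : (12 : ℝ) ≤ ‖(((12 : ℝ) : ℂ) + t * I)‖ := by
      have := re_le_norm (((12 : ℝ) : ℂ) + t * I)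
      rwa [hre] at this
    calc Real.exp (-|t|) / ‖(((12 : ℝ) : ℂ) + t * I)‖ ≤ Real.exp (-|t|) :=
          div_le_self (Real.exp_pos _).le (by linarith)
      _ ≤ _ := by
          rw [sub_zero]
          refine Real.exp_le_exp.2 ?_
          have := abs_nonneg t
          linarith

end Pool.Agent.QM
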