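import Pool.Agent.P.MP_ea46f5_nt.QM.FHCa

namespace Pool.Agent.QM

open Complex MeasureTheory Finset
open scoped Real ComplexConjugate

theorem zd7_Q {p : ℕ} (hp0 : 0 < p) (s₁ s₂ : ℂ) :
    Qp s₁ s₂ p = 3 * (p : ℂ) ^ (-(1 + 2 * s₁)) + 4 * (p : ℂ) ^ (-(1 + (s₁ + s₂))) +
      3 * (p : ℂ) ^ (-(1 + 2 * s₂)) := by
  have hc : (p : ℂ) ≠ 0 := by exact_mod_cast hp0.ne'
  have h : ∀ a b : ℂ, xs a p * xs b p = (p : ℂ) ^ (-(1 + (a + b))) := by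
    intro a b
    unfold xs
    rw [← cpow_add _ _ hc]
    congr 1
    ring
  unfold Qp
  rw [sq, sq, h, h, h, two_mul, two_mul]

theorem zd7_norm {p : ℕ} (hp0 : 0 < p) (ε : ℝ) (w : ℂ) (hw : w.re = 2 * ε) :
    ‖(p : ℂ) ^ (-(1 + w))‖ = (p : ℝ) ^ (-(1 + 2 * ε)) := by
  rw [norm_natCast_cpow_of_pos hp0]
  congr 1
  simp [hw]

theorem zd7_pt {p : ℕ} (hp0 : 0 < p) (ε C : ℝ) (s₁ s₂ y : ℂ) (hε : 0 < ε)
    (hC : 0 < C) (h₁ : s₁.re = ε) (h₂ : s₂.re = ε)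
    (hL : ‖y - 1 - Qp s₁ s₂ p‖ ≤ C / (p : ℝ) ^ 2) :
    ‖y - 1‖ ≤ 10 * (p : ℝ) ^ (-(1 + 2 * ε)) + C * (p : ℝ) ^ (-(1 + 7 / 20) : ℝ) ∧
      (y - 1).re + ‖y - 1‖ ^ 2 / 2 ≤ 3 * ((p : ℂ) ^ (-(1 + 2 * s₁))).re +
        3 * ((p : ℂ) ^ (-(1 + 2 * s₂))).re + 4 * (p : ℝ) ^ (-(1 + 2 * ε)) +
        (C + (10 + C) ^ 2) * (p : ℝ) ^ (-(1 + 7 / 20) : ℝ) := by
  have hr : (0 : ℝ) < p := by exact_mod_cast hp0
  have hp1 : (1 : ℝ) ≤ p := by exact_mod_cast hp0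
  have n1 := zd7_norm hp0 ε (2 * s₁) (by simp [h₁])
  have n2 := zd7_norm hp0 ε (2 * s₂) (by simp [h₂])
  have n12 := zd7_norm hp0 ε (s₁ + s₂) (by rw [add_re, h₁, h₂, two_mul])
  have g1 : (p : ℝ) ^ (-(1 + 7 / 20) : ℝ) ≤ (p : ℝ) ^ (-1 : ℝ) :=
    Real.rpow_le_rpow_of_exponent_le hp1 (by norm_num)
  have g2 : (p : ℝ) ^ (-1 : ℝ) * (p : ℝ) ^ (-1 : ℝ) ≤ (p : ℝ) ^ (-(1 + 7 / 20) : ℝ) := by
    rw [← Real.rpow_add hr]
    exact Real.rpow_le_rpow_of_exponent_le hp1 (by norm_num)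
  have g3 : (p : ℝ) ^ (-(1 + 2 * ε)) ≤ (p : ℝ) ^ (-1 : ℝ) :=
    Real.rpow_le_rpow_of_exponent_le hp1 (by linarith)
  have g0 : 0 ≤ (p : ℝ) ^ (-(1 + 7 / 20) : ℝ) := Real.rpow_nonneg hr.le _
  have g4 : C / (p : ℝ) ^ 2 = C * ((p : ℝ) ^ (-1 : ℝ) * (p : ℝ) ^ (-1 : ℝ)) := by
    rw [Real.rpow_neg_one]
    field_simp
  have hD := hL.trans ((le_of_eq g4).trans (mul_le_mul_of_nonneg_left g2 hC.le))
  rw [zd7_Q hp0] at hD
  generalize (p : ℝ) ^ (-(1 + 7 / 20) : ℝ) = g at *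
  generalize (p : ℝ) ^ (-1 : ℝ) = r at *
  generalize (p : ℝ) ^ (-(1 + 2 * ε)) = a at *
  generalize (p : ℂ) ^ (-(1 + 2 * s₁)) = W₁ at *
  generalize (p : ℂ) ^ (-(1 + 2 * s₂)) = W₂ at *
  generalize (p : ℂ) ^ (-(1 + (s₁ + s₂))) = W at *
  clear g4 hL
  have e : y - 1 = (y - 1 - (3 * W₁ + 4 * W + 3 * W₂)) + (3 * W₁ + 4 * W + 3 * W₂) := by ring
  generalize y - 1 - (3 * W₁ + 4 * W + 3 * W₂) = D at e hD
  have n3 : ‖(3 : ℂ)‖ = 3 := by simp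
  have n4 : ‖(4 : ℂ)‖ = 4 := by simp
  have t1 := norm_add_le D (3 * W₁ + 4 * W + 3 * W₂)
  have t2 := norm_add_le (3 * W₁ + 4 * W) (3 * W₂)
  have t3 := norm_add_le (3 * W₁) (4 * W)
  rw [← e] at t1
  rw [norm_mul, n3, n2] at t2
  rw [norm_mul, norm_mul, n3, n4, n1, n12] at t3
  have t4 : ‖y - 1‖ ≤ 10 * a + C * g := by linarith
  refine ⟨t4, ?_⟩
  have t5 : ‖y - 1‖ ≤ (10 + C) * r := by
    have := mul_le_mul_of_nonneg_left g1 hC.le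
    linarith
  have t6 : ‖y - 1‖ ^ 2 ≤ (10 + C) ^ 2 * g := by
    calc ‖y - 1‖ ^ 2 ≤ ((10 + C) * r) ^ 2 := pow_le_pow_left₀ (norm_nonneg _) t5 2
      _ = (10 + C) ^ 2 * (r * r) := by ring
      _ ≤ _ := mul_le_mul_of_nonneg_left g2 (sq_nonneg _)
  have t7 : (y - 1).re = D.re + (3 * W₁.re + 4 * W.re + 3 * W₂.re) := by
    rw [e]
    simp
  have t8 := re_le_norm D
  have t9 := re_le_norm W
  have t10 : 0 ≤ (10 + C) ^ 2 * g := mul_nonneg (sq_nonneg _) g0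
  rw [t7]
  linarith

theorem zd7_pz (hPZ : PZ) : ∃ C : ℝ, 0 < C ∧ ∀ (ε : ℝ) (z : ℂ), 0 < ε → ε ≤ 1 / 100 → z.re = ε →
    Summable (fun p : Nat.Primes => (((p : ℕ) : ℂ) ^ (-(1 + 2 * z))).re) ∧
      Real.exp (∑' p : Nat.Primes, (((p : ℕ) : ℂ) ^ (-(1 + 2 * z))).re) ≤
        C * (br z.im * (1 + 1 / ‖z‖)) := by
  obtain ⟨C₂, hC₂, hZ⟩ := hPZ.2
  refine ⟨2 * C₂, by positivity, fun ε z hε hε1 hz => ⟨?_, ?_⟩⟩
  · refine Summable.of_norm_bounded (hPZ.1 (2 * ε) (by linarith)).1 fun p => ?_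
    exact (abs_re_le_norm _).trans (le_of_eq (zd7_norm p.2.pos ε (2 * z) (by simp [hz])))
  · have k8 := hZ (2 * z) (by simp [hz, hε]) (by simp [hz]; linarith)
    have hzp : 0 < ‖z‖ := lt_of_lt_of_le (by rw [hz, abs_of_pos hε]; exact hε) (abs_re_le_norm z)
    have b1 : br (2 * z).im ≤ 2 * br z.im := by
      unfold br
      simp [abs_mul]
      linarith
    have b2 : 1 + 1 / ‖2 * z‖ ≤ 1 + 1 / ‖z‖ := by
      have n2 : ‖2 * z‖ = 2 * ‖z‖ := by simp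
      rw [n2]
      have := one_div_le_one_div_of_le hzp (by linarith : ‖z‖ ≤ 2 * ‖z‖)
      linarith
    have b3 : 0 ≤ br z.im := by unfold br; positivity
    refine k8.trans ?_
    calc _ = C₂ * (br (2 * z).im * (1 + 1 / ‖2 * z‖)) := by ring
      _ ≤ C₂ * (2 * br z.im * (1 + 1 / ‖z‖)) :=
          mul_le_mul_of_nonneg_left (mul_le_mul b1 b2 (by positivity) (by linarith)) hC₂.le
      _ = _ := by ring

theorem zd7_lam (lam ε : ℝ) (z : ℂ) (hlam : 0 ≤ lam) (hε : 0 < ε) (hel : ε * lam ≤ 1)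
    (hz : z.re = ε) : lam * ‖z‖ ≤ 1 + lam * |z.im| := by
  have hzn : ‖z‖ ≤ ε + |z.im| := by
    have := norm_le_abs_re_add_abs_im z
    rwa [hz, abs_of_pos hε] at this
  have := mul_le_mul_of_nonneg_left hzn hlam
  linarith

theorem zd7_inP {p : ℕ} (hp0 : 0 < p) (ε : ℝ) (s₁ s₂ : ℂ) (hε : 0 < ε) (h₁ : s₁.re = ε)
    (h₂ : s₂.re = ε) :
    0 ≤ 3 * ((p : ℂ) ^ (-(1 + 2 * s₁))).re + 3 * ((p : ℂ) ^ (-(1 + 2 * s₂))).re +
      4 * (p : ℝ) ^ (-(1 + 2 * ε)) + (-10 * (1 / (p : ℝ)) +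
        (6 * (min 1 (2 * ‖s₁‖ * Real.log p) / p) + 6 * (min 1 (2 * ‖s₂‖ * Real.log p) / p) +
          8 * (min 1 (2 * ε * Real.log p) / p))) := by
  have a1 := hc_inP hp0 s₁ (by rw [h₁]; exact hε.le)
  have a2 := hc_inP hp0 s₂ (by rw [h₂]; exact hε.le)
  have a3 := hc_inP hp0 (ε : ℂ) (by rw [ofReal_re]; exact hε.le)
  have a4 := (re_le_norm _).trans (le_of_eq (zd7_norm hp0 ε (2 * (ε : ℂ)) (by simp)))
  rw [Complex.norm_real, Real.norm_of_nonneg hε.le] at a3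
  linarith

theorem zd7_prod (hLOC0 : LOC0) (hPRD : PRD) (hPZ : PZ) (hPL : PL) : ∃ C : ℝ, 0 < C ∧
    ∀ (P : Finset ℕ) (lam ε : ℝ) (s₁ s₂ : ℂ), OP P → (∀ p ∈ P, (p : ℝ) ≤ Real.exp lam) →
      0 ≤ lam → 0 < ε → ε ≤ 1 / 100 → ε * lam ≤ 1 → s₁.re = ε → s₂.re = ε →
      ‖∏' p : Nat.Primes, (if (p : ℕ) = 2 ∨ (p : ℕ) ∈ P then 1 else locv 1 0 s₁ s₂ p 0)‖ ≤
        C * Real.exp (-10 * sg P) * (1 + lam * |s₁.im|) ^ 6 * (1 + lam * |s₂.im|) ^ 6 *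
          (1 / ε) ^ 4 * (br s₁.im * (1 + 1 / ‖s₁‖)) ^ 3 * (br s₂.im * (1 + 1 / ‖s₂‖)) ^ 3 := by
  obtain ⟨C, hC, hL, -⟩ := hLOC0
  obtain ⟨C₂, hC₂, hZ⟩ := zd7_pz hPZ
  obtain ⟨C₃, hC₃, -, hL2, -⟩ := hPL
  obtain ⟨C', hC'⟩ : ∃ C' : ℝ, C' = C + (10 + C) ^ 2 := ⟨_, rfl⟩
  have hC12 : 12 ≤ C' := by rw [hC']; nlinarith
  refine ⟨C₂ ^ 6 * Real.exp (C' * (20 / 7) + 20 * C₃ + 16) * 3 ^ 12, by positivity, ?_⟩
  intro P lam ε s₁ s₂ hP hle hlam hε hε1 hel h₁ h₂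
  have r₁ : 0 ≤ s₁.re := by rw [h₁]; exact hε.le
  have r₂ : 0 ≤ s₂.re := by rw [h₂]; exact hε.le
  set u : Nat.Primes → ℂ := fun p => if (p : ℕ) = 2 ∨ (p : ℕ) ∈ P then 0 else
    locv 1 0 s₁ s₂ p 0 - 1 with hu
  have e : (fun p : Nat.Primes => if (p : ℕ) = 2 ∨ (p : ℕ) ∈ P then (1 : ℂ) else
      locv 1 0 s₁ s₂ p 0) = fun p => 1 + u p := by
    funext p
    simp only [hu]
    split_ifs <;> ring
  obtain ⟨S1, S1'⟩ := hPZ.1 (2 * ε) (mul_pos two_pos hε)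
  have S3 := (hPZ.1 (7 / 20) (by norm_num)).1
  have S3' := hc_pz hPZ (7 / 20) (by norm_num)
  have pt := fun (p : Nat.Primes) (h2 : (p : ℕ) ≠ 2) =>
    zd7_pt p.2.pos ε C s₁ s₂ _ hε hC h₁ h₂ (hL p s₁ s₂ p.2 h2 r₁ r₂)
  have Su : Summable fun p => ‖u p‖ := by
    refine Summable.of_nonneg_of_le (fun p => norm_nonneg _) (fun p => ?_)
      ((S1.mul_left 10).add (S3.mul_left C))
    simp only [hu]
    split_ifs with h
    · rw [norm_zero]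
      positivity
    · exact (pt p (not_or.mp h).1).1
  obtain ⟨Sv, hb, -⟩ := hPRD u Su
  obtain ⟨SA, kA⟩ := hZ ε s₁ hε hε1 h₁
  obtain ⟨SB, kB⟩ := hZ ε s₂ hε hε1 h₂
  have S4 := hc_ind P (fun p hp => (hP p hp).1) fun p => -10 * (1 / (p : ℝ)) +
    (6 * (min 1 (2 * ‖s₁‖ * Real.log p) / p) + 6 * (min 1 (2 * ‖s₂‖ * Real.log p) / p) +
      8 * (min 1 (2 * ε * Real.log p) / p))
  have H := ((((SA.hasSum.mul_left 3).add (SB.hasSum.mul_left 3)).add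
    (S1.hasSum.mul_left 4)).add (S3.hasSum.mul_left C')).add S4
  have hle2 := hasSum_le (fun p : Nat.Primes => (show (u p).re + ‖u p‖ ^ 2 / 2 ≤ _ by
    have g0 : 0 ≤ ((p : ℕ) : ℝ) ^ (-(1 + 7 / 20) : ℝ) := by positivity
    simp only [hu]
    by_cases hm : (p : ℕ) ∈ P
    · rw [if_pos (Or.inr hm), if_pos hm]
      have k1 := zd7_inP p.2.pos ε s₁ s₂ hε h₁ h₂
      have k2 := mul_nonneg (le_trans (by norm_num) hC12 : (0 : ℝ) ≤ C') g0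
      simp only [zero_re, norm_zero]
      linarith only [k1, k2]
    · rw [if_neg hm]
      by_cases h2 : (p : ℕ) = 2
      · rw [if_pos (Or.inl h2)]
        have k1 := hc_two s₁ r₁
        have k2 := hc_two s₂ r₂
        rw [← h2] at k1 k2
        have k3 := mul_le_mul_of_nonneg_right hC12 g0
        have k4 : 0 ≤ ((p : ℕ) : ℝ) ^ (-(1 + 2 * ε)) := by positivity
        simp only [zero_re, norm_zero]
        linarith only [k1, k2, k3, k4]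
      · rw [if_neg (not_or.mpr ⟨h2, hm⟩), add_zero, hC']
        exact (pt p h2).2)) Sv.hasSum H
  have k3 : C' * ∑' p : Nat.Primes, ((p : ℕ) : ℝ) ^ (-(1 + 7 / 20) : ℝ) ≤ C' * (20 / 7) :=
    mul_le_mul_of_nonneg_left (S3'.trans (by norm_num)) (le_trans (by norm_num) hC12)
  have hPP : ∀ p ∈ P, p.Prime ∧ (p : ℝ) ≤ Real.exp lam := fun p hp => ⟨(hP p hp).1, hle p hp⟩
  have k41 := hL2 P lam (2 * ‖s₁‖) hPP hlam (by positivity)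
  have k42 := hL2 P lam (2 * ‖s₂‖) hPP hlam (by positivity)
  have k43 := hL2 P lam (2 * ε) hPP hlam (by positivity)
  have k44 : Real.log (1 + lam * (2 * ε)) ≤ 2 := by
    have := Real.log_le_sub_one_of_pos (show 0 < 1 + lam * (2 * ε) by positivity)
    linarith only [this, hel]
  have k5 : ∑ p ∈ P, (-10 * (1 / (p : ℝ)) +
      (6 * (min 1 (2 * ‖s₁‖ * Real.log p) / p) + 6 * (min 1 (2 * ‖s₂‖ * Real.log p) / p) +
        8 * (min 1 (2 * ε * Real.log p) / p))) =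
      -10 * sg P + (6 * ∑ p ∈ P, min 1 (2 * ‖s₁‖ * Real.log p) / p +
        6 * ∑ p ∈ P, min 1 (2 * ‖s₂‖ * Real.log p) / p +
        8 * ∑ p ∈ P, min 1 (2 * ε * Real.log p) / p) := by
    rw [sum_add_distrib, sum_add_distrib, sum_add_distrib, ← mul_sum, ← mul_sum, ← mul_sum,
      ← mul_sum, sg]
  rw [k5] at hle2
  have l1 := zd7_lam lam ε s₁ hlam hε hel h₁
  have l2 := zd7_lam lam ε s₂ hlam hε hel h₂
  have y1 : 0 ≤ lam * |s₁.im| := mul_nonneg hlam (abs_nonneg _)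
  have y2 : 0 ≤ lam * |s₂.im| := mul_nonneg hlam (abs_nonneg _)
  have k61 : 1 + lam * (2 * ‖s₁‖) ≤ 3 * (1 + lam * |s₁.im|) := by linarith only [l1, y1]
  have k62 : 1 + lam * (2 * ‖s₂‖) ≤ 3 * (1 + lam * |s₂.im|) := by linarith only [l2, y2]
  have k71 : 0 < 1 + lam * (2 * ‖s₁‖) := by positivity
  have k72 : 0 < 1 + lam * (2 * ‖s₂‖) := by positivity
  have k8 : 1 + 1 / (2 * ε) ≤ 1 / ε := by
    have h1 : 1 / (2 * ε) = 1 / ε / 2 := by field_simp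
    have h2 : 1 / (1 / 100) ≤ 1 / ε := one_div_le_one_div_of_le hε hε1
    rw [h1]
    linarith only [h2]
  rw [e]
  refine hb.trans ?_
  generalize ∑' p : Nat.Primes, (((p : ℕ) : ℂ) ^ (-(1 + 2 * s₁))).re = A₁ at kA hle2
  generalize ∑' p : Nat.Primes, (((p : ℕ) : ℂ) ^ (-(1 + 2 * s₂))).re = A₂ at kB hle2
  generalize ∑' p : Nat.Primes, ((p : ℕ) : ℝ) ^ (-(1 + 2 * ε)) = A₃ at S1' hle2
  have k10 : ∑' p, ((u p).re + ‖u p‖ ^ 2 / 2) ≤ ((3 : ℕ) : ℝ) * A₁ + ((3 : ℕ) : ℝ) * A₂ +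
      ((4 : ℕ) : ℝ) * A₃ + -10 * sg P + ((6 : ℕ) : ℝ) * Real.log (1 + lam * (2 * ‖s₁‖)) +
      ((6 : ℕ) : ℝ) * Real.log (1 + lam * (2 * ‖s₂‖)) + (C' * (20 / 7) + 20 * C₃ + 16) := by
    push_cast
    linarith only [hle2, k3, k41, k42, k43, k44]
  refine (Real.exp_le_exp.mpr k10).trans ?_
  rw [Real.exp_add _ (C' * (20 / 7) + 20 * C₃ + 16)]
  simp only [Real.exp_add _ (_ * _), Real.exp_nat_mul, Real.exp_log k71, Real.exp_log k72]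
  have m1 := pow_le_pow_left₀ (Real.exp_pos _).le kA 3
  have m2 := pow_le_pow_left₀ (Real.exp_pos _).le kB 3
  have m3 := pow_le_pow_left₀ (Real.exp_pos _).le (S1'.trans k8) 4
  have m4 := pow_le_pow_left₀ k71.le k61 6
  have m5 := pow_le_pow_left₀ k72.le k62 6
  have b1 : 0 ≤ br s₁.im := by unfold br; positivity
  have b2 : 0 ≤ br s₂.im := by unfold br; positivity
  calc _ ≤ (C₂ * (br s₁.im * (1 + 1 / ‖s₁‖))) ^ 3 * (C₂ * (br s₂.im * (1 + 1 / ‖s₂‖))) ^ 3 *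
        (1 / ε) ^ 4 * Real.exp (-10 * sg P) * (3 * (1 + lam * |s₁.im|)) ^ 6 *
        (3 * (1 + lam * |s₂.im|)) ^ 6 * Real.exp (C' * (20 / 7) + 20 * C₃ + 16) := by gcongr
    _ = _ := by
      generalize br s₁.im * (1 + 1 / ‖s₁‖) = a₁
      generalize br s₂.im * (1 + 1 / ‖s₂‖) = a₂
      generalize 1 + lam * |s₁.im| = c₁
      generalize 1 + lam * |s₂.im| = c₂
      generalize 1 / ε = d
      ring

theorem pZD (hEXB : EXB) (hEXL : EXL) (hLOC0 : LOC0) (hPRD : PRD) (hPZ : PZ) (hPL : PL) : ZD := by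
  obtain ⟨C₁, hC₁, hprod⟩ := zd7_prod hLOC0 hPRD hPZ hPL
  obtain ⟨C₂, c, hC₂, hE⟩ := hEXB
  refine ⟨C₂ * 3 ^ c * C₁, c + 6, by positivity, ?_⟩
  intro P B R lam T Y ε s₁ s₂ hT hε hε1 hel h₁ h₂
  have hlam := hT.lam0
  have hT0 := hT.T0
  have p1 := hprod P lam ε s₁ s₂ hT.op hT.le hlam hε hε1 hel h₁ h₂
  have p2 := hEXL.2.2.2.2.2.1 P (mu 1 0 s₁ s₂) (fun _ => 1) R hT.pos
  simp only [mul_one, norm_one, prod_const_one, one_mul] at p2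
  have p3 := hE P B R lam T Y 0 s₁ s₂ hT (by simp) (by rw [h₁]; exact hε.le)
    (by rw [h₂]; exact hε.le) (by rw [zero_re, h₁, h₂]; linarith only [hel])
  have l1 := zd7_lam lam ε s₁ hlam hε hel h₁
  have l2 := zd7_lam lam ε s₂ hlam hε hel h₂
  have y1 : 0 ≤ lam * |s₁.im| := mul_nonneg hlam (abs_nonneg _)
  have y2 : 0 ≤ lam * |s₂.im| := mul_nonneg hlam (abs_nonneg _)
  have k1 : 1 + lam * (‖(0 : ℂ)‖ + ‖s₁‖ + ‖s₂‖) ≤
      3 * ((1 + lam * |s₁.im|) * (1 + lam * |s₂.im|)) := by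
    rw [norm_zero]
    linarith only [l1, l2, y1, y2, mul_nonneg y1 y2]
  have k2 := pow_le_pow_left₀ (by positivity) k1 c
  have p4 := p2.trans (p3.trans (mul_le_mul_of_nonneg_left k2 (by positivity)))
  have hex : Real.exp (10 * sg P) * Real.exp (-10 * sg P) = 1 := by
    rw [← Real.exp_add, ← Real.exp_zero]
    congr 1
    ring
  unfold Zk
  rw [norm_mul]
  refine (mul_le_mul p4 p1 (norm_nonneg _) (by positivity)).trans (le_of_eq ?_)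
  rw [mul_pow 3, mul_pow (1 + lam * |s₁.im|), pow_add, pow_add, one_div_pow]
  generalize br s₁.im * (1 + 1 / ‖s₁‖) = a₁
  generalize br s₂.im * (1 + 1 / ‖s₂‖) = a₂
  generalize 1 + lam * |s₁.im| = c₁
  generalize 1 + lam * |s₂.im| = c₂
  linear_combination (C₂ * 3 ^ c * C₁ * T * (c₁ ^ c * c₁ ^ 6) * (c₂ ^ c * c₂ ^ 6) / ε ^ 4 *
    a₁ ^ 3 * a₂ ^ 3) * hex

end Pool.Agent.QM
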