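import Pool.Agent.P.MP_ea46f5_nt.QM.FSH
import Pool.Agent.P.MP_ea46f5_nt.QM.FSD0
import Pool.Agent.P.MP_ea46f5_nt.QM.FSD2
import Pool.Agent.P.MP_ea46f5_nt.QM.FPH2
import Pool.Agent.P.MP_ea46f5_nt.QM.FDEC
import Pool.Agent.P.MP_ea46f5_nt.QM.FGam1
import Pool.Agent.P.MP_ea46f5_nt.QM.FGam2
import Pool.Agent.P.MP_ea46f5_nt.QM.FZT
import Pool.Agent.P.MP_ea46f5_nt.QM.FIZ
import Pool.Agent.P.MP_ea46f5_nt.QM.FLSP
import Pool.Agent.P.MP_ea46f5_nt.QM.FLOP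
import Pool.Agent.P.MP_ea46f5_nt.QM.FLOB
import Pool.Agent.P.MP_ea46f5_nt.QM.FPZ
import Pool.Agent.P.MP_ea46f5_nt.QM.FPL
import Pool.Agent.P.MP_ea46f5_nt.QM.FPC
import Pool.Agent.P.MP_ea46f5_nt.QM.FPois
import Pool.Agent.P.MP_ea46f5_nt.QM.FTKB
import Pool.Agent.P.MP_ea46f5_nt.QM.FE0
import Pool.Agent.P.MP_ea46f5_nt.QM.FEXL
import Pool.Agent.P.MP_ea46f5_nt.QM.FE1
import Pool.Agent.P.MP_ea46f5_nt.QM.FLOC
import Pool.Agent.P.MP_ea46f5_nt.QM.FLOC0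
import Pool.Agent.P.MP_ea46f5_nt.QM.FHA
import Pool.Agent.P.MP_ea46f5_nt.QM.FH1
import Pool.Agent.P.MP_ea46f5_nt.QM.FE2
import Pool.Agent.P.MP_ea46f5_nt.QM.FMG
import Pool.Agent.P.MP_ea46f5_nt.QM.FEXB
import Pool.Agent.P.MP_ea46f5_nt.QM.FZD
import Pool.Agent.P.MP_ea46f5_nt.QM.FZDA
import Pool.Agent.P.MP_ea46f5_nt.QM.FHC
import Pool.Agent.P.MP_ea46f5_nt.QM.FEXA
import Pool.Agent.P.MP_ea46f5_nt.QM.FINT
import Pool.Agent.P.MP_ea46f5_nt.QM.FEXC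
import Pool.Agent.P.MP_ea46f5_nt.QM.FTME
import Pool.Agent.P.MP_ea46f5_nt.QM.FFW
import Pool.Agent.P.MP_ea46f5_nt.QM.FTMD
import Pool.Agent.P.MP_ea46f5_nt.QM.FTK1
import Pool.Agent.P.MP_ea46f5_nt.QM.FTK2
import Pool.Agent.P.MP_ea46f5_nt.QM.FTA1
import Pool.Agent.P.MP_ea46f5_nt.QM.FTA2
import Pool.Agent.P.MP_ea46f5_nt.QM.FJCA
import Pool.Agent.P.MP_ea46f5_nt.QM.FTC1
import Pool.Agent.P.MP_ea46f5_nt.QM.FTC2
import Pool.Agent.P.MP_ea46f5_nt.QM.FTM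
import Pool.Agent.P.MP_ea46f5_nt.QM.FKR
import Pool.Agent.P.MP_ea46f5_nt.QM.FPRI
import Pool.Agent.P.MP_ea46f5_nt.QM.FFE
import Pool.Agent.P.MP_ea46f5_nt.QM.FHB
import Pool.Agent.P.MP_ea46f5_nt.QM.FAFE
import Pool.Agent.P.MP_ea46f5_nt.QM.FWT
import Pool.Agent.P.MP_ea46f5_nt.QM.FSEP
import Pool.Agent.P.MP_ea46f5_nt.QM.FDL
import Pool.Agent.P.MP_ea46f5_nt.QM.FFL
import Pool.Agent.P.MP_ea46f5_nt.QM.FTQ
import Pool.Agent.P.MP_ea46f5_nt.QM.FTQF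
import Pool.Agent.P.MP_ea46f5_nt.QM.FMT
import Pool.Agent.P.MP_ea46f5_nt.QM.FSTS
import Pool.Agent.P.MP_ea46f5_nt.QM.FSTM
import Pool.Agent.P.MP_ea46f5_nt.QM.FSTEP
import Pool.Agent.P.MP_ea46f5_nt.QM.FAF1
import Pool.Agent.P.MP_ea46f5_nt.QM.FVB
import Pool.Agent.P.MP_ea46f5_nt.QM.FQF
import Pool.Agent.P.MP_ea46f5_nt.QM.FSEC
import Pool.Agent.P.MP_ea46f5_nt.QM.FTE
import Pool.Agent.P.MP_ea46f5_nt.QM.FHRP
import Pool.Agent.P.MP_ea46f5_nt.QM.FZ0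
import Pool.Agent.P.MP_ea46f5_nt.QM.FLEN
import Pool.Agent.P.MP_ea46f5_nt.QM.FPAR
import Pool.Agent.P.MP_ea46f5_nt.QM.FPHI
import Pool.Agent.P.MP_ea46f5_nt.QM.FBJ
import Pool.Agent.P.MP_ea46f5_nt.QM.FCLA
import Pool.Agent.P.MP_ea46f5_nt.QM.FCLZ
import Pool.Agent.P.MP_ea46f5_nt.QM.FCLS
import Pool.Agent.P.MP_ea46f5_nt.QM.FFF
import Pool.Agent.P.MP_ea46f5_nt.QM.FDY
import Pool.Agent.P.MP_ea46f5_nt.QM.FMain

namespace Pool.Agent.QM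

theorem main : MAIN :=
  have hLSP : LSP := pLSP
  have hE0 : E0 := pE0 hLSP
  have hP2 : P2 := pP2
  have hEXA : EXA := pEXA hE0 hLSP hP2
  have hGAM1 : GAM1 := pGAM1
  have hP1 : P1 := pP1 hGAM1
  have hTKB : TKB := pTKB
  have hKZ : KZ := pKZ hGAM1
  have hDEC : DEC := pDEC
  have hINT : INT := pINT hE0 hTKB hKZ hDEC
  have hEXC : EXC := pEXC hP1 hP2 hE0 hTKB hKZ hDEC hINT
  have hEXL : EXL := pEXL
  have hE1 : E1 := pE1 hE0 hEXL hTKB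
  have hTME : TME := pTME hEXA hEXC hINT hE1 hEXL
  have hSH0 : SH0 := pSH0
  have hSD0 : SD0 := pSD0 hSH0 hDEC
  have hMG : MG := pMG
  have hPL : PL := pPL
  have hEXB : EXB := pEXB hMG hPL
  have hLOC0 : LOC0 := pLOC0
  have hPRD : PRD := pPRD
  have hZT : ZT := pZT
  have hPZ : PZ := pPZ hZT
  have hZD : ZD := pZD hEXB hEXL hLOC0 hPRD hPZ hPL
  have hZDA : ZDA := pZDA hLOC0 hPRD
  have hFW : FW := pFW hDEC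
  have hTMD : TMD := pTMD hSD0 hZD hZDA hFW hDEC
  have hLOC : LOC := pLOC
  have hKR : KR := pKR
  have hPRI : PRI := pPRI hKR
  have hLOP : LOP := pLOP hKR hPRI
  have hIZ : IZ := pIZ
  have hE2 : E2 := pE2 hLOC hLSP hLOP hIZ
  have hHA : HA := pHA hLOC
  have hH1 : H1 := pH1 hLOC hEXL hPRD hPZ
  have hLOB : LOB := pLOB hLOP
  have hTK1 : TK1 := pTK1 hSD0 hE2 hHA hH1 hIZ hLOP hLOB hFW hDEC
  have hTK2 : TK2 := pTK2 hLOP hLOB hDEC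
  have hLEN : LEN := pLEN hEXL
  have hTMK : TMK := pTMK hTK1 hTK2 hKZ hDEC hLEN
  have hSH2 : SH2 := pSH2
  have hSD2 : SD2 := pSD2 hSH2 hDEC
  have hTA1 : TA1 := pTA1 hSD2 hE2 hHA hH1 hIZ hLOP hZT hFW hDEC hLEN
  have hPH2 : PH2 := pPH2
  have hTA2 : TA2 := pTA2 hTA1 hH1 hIZ hLOP hZT hFW hDEC hPH2 hLEN
  have hJCA : JCA := pJCA hPH2 hHA hH1 hIZ hLOP hZT hFW hLEN
  have hSH1 : SH1 := pSH1
  have hTC1 : TC1 := pTC1 hSH1 hKZ hDEC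
  have hHC : HC := pHC hEXB hEXL hLOC hLOC0 hPRD hPZ hPL
  have hTC2 : TC2 := pTC2 hHC hPH2 hKZ hIZ hLOP hZT hFW hDEC
  have hTM : TM := pTM hTME hTMD hTMK hTA2 hJCA hTC1 hTC2 hKZ hFW hDEC hLEN
  have hGAM2 : GAM2 := pGAM2
  have hHB : HB := pHB hGAM2
  have hWT : WT := pWT hHB
  have hSEP : SEP := pSEP hDEC
  have hBRG : BRG := pBRG hLOP
  have hSQD : SQD := pSQD hSEP hHB hLSP hBRG hDEC
  have hTQ : TQ := pTQ hTM hWT hSQD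
  have hMT : MT := pMT
  have hTW0 : TW0 := pTW0
  have hSTS : STS := pSTS hTQ hMT hTW0
  have hPC : PC := pPC
  have hFL : FL := pFL hLSP hPC
  have hTQF : TQF := pTQF hTM hWT hSQD hFL hFW hTW0
  have hSTM : STM := pSTM hTQF hMT
  have hFE : FE := pFE hKR hPRI hLOP hLSP
  have hAFE : AFE := pAFE hFE hSH0 hSH1 hHB hLOP hLOB hBRG hDEC
  have hDL : DL := pDL hHB hLSP hBRG hDEC
  have hTRV : TRV := pTRV hLOB
  have hSTEP : STEP := pSTEP hSTS hSTM hAFE hDL hBRG hTRV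
  have hFOUR : FOUR := pFOUR hSTEP hTRV hMT
  have hTHB : THB := pTHB
  have hPHI : PHI := pPHI hTHB
  have hTE : TE := pTE
  have hEXF : EXF := pEXF
  have hHRP : HRP := pHRP hTE hEXL hEXF
  have hBJ : BJ := pBJ hTQ hFOUR hPHI hHRP hLEN
  have hCLA : CLA := pCLA hTE
  have hZ0 : Z0 := pZ0 hP2 hEXL
  have hZ0E : Z0E := pZ0E hTE hEXL hEXF
  have hCLZ : CLZ := pCLZ hZ0 hZ0E hLEN
  have hCLS : CLS := pCLS hBJ hCLA hCLZ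
  have hFF : FF := pFF hTQF hFOUR hPHI
  have hG0B : G0B := pG0B hGAM2
  have hAF1 : AF1 := pAF1 hFE hSH0 hSH1 hGAM2 hG0B hLOP hLOB hBRG hDEC
  have hVB : VB := pVB hSH0 hG0B hLSP hDEC
  have hQF : QF := pQF hP2 hTKB
  have hSEC : SEC := pSEC hAF1 hVB hQF hSEP hG0B hLSP hBRG hDEC
  have hPAR : PAR := pPAR hPC
  have hDY : DY := pDY hCLS hFF hSEC hPAR hAFE hDL hPHI
  pMAIN hDY hFE hBRG

end Pool.Agent.QM
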