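import Mathlib

namespace Pool.Agent.QM

/-- `d` is a fundamental discriminant (of either sign) different from `1`. -/
def IsFund (d : ℤ) : Prop :=
  d ≠ 1 ∧ ((d % 4 = 1 ∧ Squarefree d) ∨
    ∃ m : ℤ, d = 4 * m ∧ (m % 4 = 2 ∨ m % 4 = 3) ∧ Squarefree m)

/-- The Kronecker symbol `(d / n)` for `|d| > 1` and `n ≥ 0`: zero at `n = 0`, completely
multiplicative in `n`, the Legendre symbol at odd primes, and at `2` equal to `0, 1, -1` for `d`
even, `d = ±1 mod 8`, `d = ±3 mod 8`. -/
def kron (d : ℤ) (n : ℕ) : ℤ :=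
  if n = 0 then 0 else
    (n.primeFactorsList.map fun p => if p = 2 then ZMod.χ₈ (d : ZMod 8) else jacobiSym d p).prod

/-- The central value `L(1/2, χ_d)`, with Mathlib's continuation of the L-series of the function
`a ↦ (d / a)` on `ZMod |d|`. -/
noncomputable def Lhalf (d : ℤ) : ℂ :=
  if h : d.natAbs = 0 then 0 else
    haveI : NeZero d.natAbs := ⟨h⟩
    ZMod.LFunction (fun a : ZMod d.natAbs => (kron d a.val : ℂ)) (1 / 2)

open Classical in
/-- The fundamental discriminants `d ≠ 1` with `|d| < X`. -/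
noncomputable def Fund (X : ℝ) : Finset ℤ := (Finset.Ioo (-⌈X⌉) ⌈X⌉).filter IsFund

end Pool.Agent.QM
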