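import Pool.Agent.P.MP_ea46f5_nt.QM.S2

/-!
The real-variable part of the last section: classes, Hoelder, the sums over the block index and over the pieces.
-/

open Real Finset

namespace Pool.Agent.QM

theorem cls_holder2 {ι : Type*} (K : Finset ι) {a b : ℝ} (ha : 0 < a) (hb : 0 < b) (hab : a + b = 1)
    (f g : ι → ℝ) (hf : ∀ k ∈ K, 0 ≤ f k) (hg : ∀ k ∈ K, 0 ≤ g k) :
    ∑ k ∈ K, f k ^ a * g k ^ b ≤ (∑ k ∈ K, f k) ^ a * (∑ k ∈ K, g k) ^ b := by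
  have hpq : (a⁻¹).HolderConjugate (b⁻¹) := Real.HolderConjugate.inv_inv ha hb hab
  have h := Real.inner_le_Lp_mul_Lq_of_nonneg K hpq (f := fun k => f k ^ a) (g := fun k => g k ^ b)
    (fun k hk => rpow_nonneg (hf k hk) _) (fun k hk => rpow_nonneg (hg k hk) _)
  have e1 : ∑ k ∈ K, (f k ^ a) ^ (a⁻¹) = ∑ k ∈ K, f k :=
    sum_congr rfl fun k hk => rpow_rpow_inv (hf k hk) ha.ne'
  have e2 : ∑ k ∈ K, (g k ^ b) ^ (b⁻¹) = ∑ k ∈ K, g k :=
    sum_congr rfl fun k hk => rpow_rpow_inv (hg k hk) hb.ne'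
  simp only [e1, e2, one_div, inv_inv] at h
  exact h

theorem cls_exists_class (good : ℕ → Prop) (j J : ℕ) (hj : j ≤ J + 1) :
    ∃ i, j ≤ i ∧ i ≤ J + 1 ∧ (∀ i' ∈ Icc i J, good i') ∧ (i = j ∨ ¬ good (i - 1)) := by
  classical
  have hex : ∃ i, j ≤ i ∧ i ≤ J + 1 ∧ ∀ i' ∈ Icc i J, good i' :=
    ⟨J + 1, hj, le_rfl, fun i' hi' => absurd (mem_Icc.1 hi') (by omega)⟩
  refine ⟨Nat.find hex, (Nat.find_spec hex).1, (Nat.find_spec hex).2.1, (Nat.find_spec hex).2.2, ?_⟩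
  by_contra hc
  push Not at hc
  obtain ⟨h1, h2⟩ := hc
  have h3 := (Nat.find_spec hex).1
  have h4 := (Nat.find_spec hex).2.1
  have h5 := (Nat.find_spec hex).2.2
  refine Nat.find_min hex (m := Nat.find hex - 1) (by omega) ⟨by omega, by omega, fun i' hi' => ?_⟩
  rw [mem_Icc] at hi'
  rcases eq_or_ne i' (Nat.find hex - 1) with h | h
  · rw [h]; exact h2
  · exact h5 i' (mem_Icc.2 ⟨by omega, hi'.2⟩)

theorem cls_abs {ι : Type*} (K : Finset ι) {a b c : ℝ} (ha : 0 < a) (hb : 0 < b) (hab : a + b = 1)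
    (j J : ℕ) (hj : j ≤ J + 1) (good : ℕ → ι → Prop) (R R' Q : ℕ → ι → ℝ) (B : ι → ℝ)
    (U V : ℕ → ℝ) (hR : ∀ i k, 0 ≤ R i k) (hR' : ∀ i k, 0 ≤ R' i k) (hQ : ∀ i k, 0 ≤ Q i k)
    (hB : ∀ k, 0 ≤ B k)
    (hgood : ∀ i k, (∀ i' ∈ Icc i J, good i' k) → c ≤ R i k ^ a * R' i k ^ b)
    (hbad : ∀ i k, i ≤ J → ¬ good i k → 1 ≤ Q i k)
    (hU : ∀ i, j ≤ i → i ≤ J + 1 → ∑ k ∈ K, B k ^ 2 * R i k ≤ U i)
    (hV0 : ∑ k ∈ K, R' j k ≤ V j)
    (hV : ∀ i, j ≤ i → i ≤ J → ∑ k ∈ K, R' (i + 1) k * Q i k ≤ V (i + 1)) :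
    c * ∑ k ∈ K, B k ^ (2 * a) ≤ ∑ i ∈ Icc j (J + 1), U i ^ a * V i ^ b := by
  classical
  set W : ℕ → ι → ℝ := fun i k => if i = j then R' j k else R' i k * Q (i - 1) k with hW
  have hW0 : ∀ i k, 0 ≤ W i k := fun i k => by
    simp only [hW]
    split_ifs
    · exact hR' _ _
    · exact mul_nonneg (hR' _ _) (hQ _ _)
  have hpt : ∀ k, c * B k ^ (2 * a) ≤
      ∑ i ∈ Icc j (J + 1), (B k ^ 2 * R i k) ^ a * W i k ^ b := fun k => by
    obtain ⟨i, h1, h2, h3, h4⟩ := cls_exists_class (fun i => good i k) j J hj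
    have h5 : R' i k ≤ W i k := by
      simp only [hW]
      split_ifs with h
      · rw [h]
      · rcases h4 with h4 | h4
        · exact absurd h4 h
        · have := hbad (i - 1) k (by omega) h4
          nlinarith [hR' i k]
    have h6 : c * B k ^ (2 * a) ≤ (B k ^ 2 * R i k) ^ a * W i k ^ b := by
      have e : (B k ^ 2 * R i k) ^ a = B k ^ (2 * a) * R i k ^ a := by
        rw [mul_rpow (sq_nonneg _) (hR i k), rpow_mul (hB k), rpow_two]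
      have h7 : R' i k ^ b ≤ W i k ^ b := rpow_le_rpow (hR' i k) h5 hb.le
      have h8 : 0 ≤ B k ^ (2 * a) := rpow_nonneg (hB k) _
      have h9 : 0 ≤ R i k ^ a := rpow_nonneg (hR i k) _
      calc c * B k ^ (2 * a) ≤ (R i k ^ a * R' i k ^ b) * B k ^ (2 * a) :=
            mul_le_mul_of_nonneg_right (hgood i k h3) h8
        _ ≤ (R i k ^ a * W i k ^ b) * B k ^ (2 * a) := by gcongr
        _ = _ := by rw [e]; ring
    refine h6.trans ?_
    exact single_le_sum (f := fun i => (B k ^ 2 * R i k) ^ a * W i k ^ b)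
      (fun i _ => mul_nonneg (rpow_nonneg (mul_nonneg (sq_nonneg _) (hR i k)) _)
        (rpow_nonneg (hW0 i k) _)) (mem_Icc.2 ⟨h1, h2⟩)
  rw [mul_sum]
  refine (sum_le_sum fun k _ => hpt k).trans ?_
  rw [sum_comm]
  refine sum_le_sum fun i hi => ?_
  rw [mem_Icc] at hi
  refine (cls_holder2 K ha hb hab (fun k => B k ^ 2 * R i k) (fun k => W i k)
    (fun k _ => mul_nonneg (sq_nonneg _) (hR i k)) (fun k _ => hW0 i k)).trans ?_
  have h1 : ∑ k ∈ K, W i k ≤ V i := by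
    simp only [hW]
    split_ifs with h
    · rw [h]; exact hV0
    · obtain ⟨i', rfl⟩ : ∃ i', i = i' + 1 := ⟨i - 1, by omega⟩
      simpa using hV i' (by omega) (by omega)
  have h2 : 0 ≤ ∑ k ∈ K, B k ^ 2 * R i k :=
    sum_nonneg fun k _ => mul_nonneg (sq_nonneg _) (hR i k)
  have h3 : 0 ≤ ∑ k ∈ K, W i k := sum_nonneg fun k _ => hW0 i k
  exact mul_le_mul (rpow_le_rpow h2 (hU i hi.1 hi.2) ha.le) (rpow_le_rpow h3 h1 hb.le)
    (rpow_nonneg h3 _) (rpow_nonneg (h2.trans (hU i hi.1 hi.2)) _)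

theorem cls_te_sq_lower (hTE : TE) (l : ℕ) (hl1 : 1 ≤ l) {x : ℝ} (hx : |x| ≤ l / 8) :
    (1 - (1 / 2 : ℝ) ^ l) ^ 2 * exp (2 * x) ≤ Et l x ^ 2 := by
  have h := hTE.1 l x hl1 hx
  have e0 : exp x / 2 ^ l = (1 / 2 : ℝ) ^ l * exp x := by
    rw [one_div, inv_pow]; ring
  rw [e0] at h
  have h0 : (0 : ℝ) ≤ 1 - (1 / 2 : ℝ) ^ l := by
    have : (1 / 2 : ℝ) ^ l ≤ 1 := pow_le_one₀ (by norm_num) (by norm_num)
    linarith
  have h1 : (1 - (1 / 2 : ℝ) ^ l) * exp x ≤ Et l x := by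
    have := (abs_le.1 h).1
    linarith
  have h2 : 0 ≤ (1 - (1 / 2 : ℝ) ^ l) * exp x := mul_nonneg h0 (exp_pos x).le
  calc (1 - (1 / 2 : ℝ) ^ l) ^ 2 * exp (2 * x) = ((1 - (1 / 2 : ℝ) ^ l) * exp x) ^ 2 := by
        rw [mul_pow, two_mul, exp_add]; ring
    _ ≤ Et l x ^ 2 := pow_le_pow_left₀ h2 h1 2

theorem cls_te_block (hTE : TE) {κ : ℝ} (h2 : 2 < κ) (h4 : κ < 4) (l : ℕ) (hl1 : 1 ≤ l) {P : ℝ} (hP : |P| ≤ l / 40) :
    (1 - (1 / 2 : ℝ) ^ l) ^ 2 ≤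
      (Et l (-(4 - κ) * P / 2) ^ 2) ^ (κ / 4) * (Et l (κ * P / 2) ^ 2) ^ ((4 - κ) / 4) := by
  have hl : (0 : ℝ) ≤ l := Nat.cast_nonneg l
  have hP0 := abs_nonneg P
  have h1 : |(-(4 - κ) * P / 2)| ≤ l / 8 := by
    rw [abs_div, abs_mul, abs_neg, abs_of_pos (by linarith : 0 < 4 - κ), abs_two]
    nlinarith
  have h3 : |κ * P / 2| ≤ l / 8 := by
    rw [abs_div, abs_mul, abs_of_pos (by linarith : 0 < κ), abs_two]
    nlinarith
  set u : ℝ := (1 - (1 / 2 : ℝ) ^ l) ^ 2 with hu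
  have hu0 : 0 ≤ u := sq_nonneg _
  have h5 := rpow_le_rpow (mul_nonneg hu0 (exp_pos _).le) (cls_te_sq_lower hTE l hl1 h1)
    (by linarith : 0 ≤ κ / 4)
  have h6 := rpow_le_rpow (mul_nonneg hu0 (exp_pos _).le) (cls_te_sq_lower hTE l hl1 h3)
    (by linarith : 0 ≤ (4 - κ) / 4)
  refine le_trans (le_of_eq ?_) (mul_le_mul h5 h6 (rpow_nonneg (mul_nonneg hu0 (exp_pos _).le) _)
    (rpow_nonneg (sq_nonneg _) _))
  rw [mul_rpow hu0 (exp_pos _).le, mul_rpow hu0 (exp_pos _).le, ← exp_mul, ← exp_mul]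
  have e1 : u ^ (κ / 4) * u ^ ((4 - κ) / 4) = u := by
    rw [← rpow_add' hu0 (by linarith)]
    have : κ / 4 + (4 - κ) / 4 = 1 := by ring
    rw [this, rpow_one]
  have e2 : exp (2 * (-(4 - κ) * P / 2) * (κ / 4)) * exp (2 * (κ * P / 2) * ((4 - κ) / 4)) = 1 := by
    rw [← exp_add, ← exp_zero]
    congr 1
    ring
  calc u = (u ^ (κ / 4) * u ^ ((4 - κ) / 4)) *
      (exp (2 * (-(4 - κ) * P / 2) * (κ / 4)) * exp (2 * (κ * P / 2) * ((4 - κ) / 4))) := by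
        rw [e1, e2, mul_one]
    _ = _ := by ring

theorem cls_one_sub_sum_le_prod (s : Finset ℕ) (u : ℕ → ℝ) (h0 : ∀ i, 0 ≤ u i) (h1 : ∀ i, u i ≤ 1) :
    1 - ∑ i ∈ s, u i ≤ ∏ i ∈ s, (1 - u i) := by
  induction s using Finset.induction_on with
  | empty => simp
  | insert a s ha ih =>
    rw [sum_insert ha, prod_insert ha]
    have h2 : 0 ≤ ∑ i ∈ s, u i := sum_nonneg fun i _ => h0 i
    nlinarith [h0 a, h1 a, mul_le_mul_of_nonneg_left ih (sub_nonneg.2 (h1 a))]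

theorem cls_sum_half_pow_le (l : ℕ → ℕ) (i J : ℕ) (hl : ∀ i' ≤ J, 12 * (i' + 1) ≤ l i') :
    ∑ i' ∈ Icc i J, (1 / 2 : ℝ) ^ l i' ≤ 1 / 2 := by
  have h1 : ∑ i' ∈ Icc i J, (1 / 2 : ℝ) ^ l i' ≤ ∑ i' ∈ Icc i J, (1 / 4) * (1 / 2 : ℝ) ^ i' := by
    refine sum_le_sum fun i' hi' => ?_
    have := hl i' (mem_Icc.1 hi').2
    calc (1 / 2 : ℝ) ^ l i' ≤ (1 / 2 : ℝ) ^ (i' + 2) :=
          pow_le_pow_of_le_one (by norm_num) (by norm_num) (by omega)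
      _ = _ := by rw [pow_add]; ring
  have h2 : ∑ i' ∈ Icc i J, (1 / 2 : ℝ) ^ i' ≤ ∑ i' ∈ range (J + 1), (1 / 2 : ℝ) ^ i' :=
    sum_le_sum_of_subset_of_nonneg (fun x hx => by
      rw [mem_Icc] at hx; rw [mem_range]; omega) fun _ _ _ => by positivity
  have h3 := sum_geometric_two_le (J + 1)
  rw [← mul_sum] at h1
  linarith

theorem cls_te (hTE : TE) {ι : Type*} (K : Finset ι) {κ : ℝ} (h2 : 2 < κ) (h4 : κ < 4)
    (j J : ℕ) (hj : j ≤ J + 1) (l : ℕ → ℕ) (hl : ∀ i ≤ J, 12 * (i + 1) ≤ l i)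
    (P : ℕ → ι → ℝ) (B : ι → ℝ) (hB : ∀ k, 0 ≤ B k) (U V : ℕ → ℝ)
    (hU : ∀ i, j ≤ i → i ≤ J + 1 → ∑ k ∈ K, B k ^ 2 *
      ∏ i' ∈ Icc i J, Et (l i') (-(4 - κ) * P i' k / 2) ^ 2 ≤ U i)
    (hV0 : ∑ k ∈ K, ∏ i' ∈ Icc j J, Et (l i') (κ * P i' k / 2) ^ 2 ≤ V j)
    (hV : ∀ i, j ≤ i → i ≤ J → ∑ k ∈ K, (∏ i' ∈ Icc (i + 1) J, Et (l i') (κ * P i' k / 2) ^ 2) *
      (40 * P i k / l i) ^ (2 * l i) ≤ V (i + 1)) :
    ∑ k ∈ K, B k ^ (κ / 2) ≤ 4 * ∑ i ∈ Icc j (J + 1), U i ^ (κ / 4) * V i ^ ((4 - κ) / 4) := by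
  have h := cls_abs K (a := κ / 4) (b := (4 - κ) / 4) (c := 1 / 4) (by linarith) (by linarith)
    (by ring) j J hj (fun i k => |P i k| ≤ l i / 40)
    (fun i k => ∏ i' ∈ Icc i J, Et (l i') (-(4 - κ) * P i' k / 2) ^ 2)
    (fun i k => ∏ i' ∈ Icc i J, Et (l i') (κ * P i' k / 2) ^ 2)
    (fun i k => (40 * P i k / l i) ^ (2 * l i)) B U V
    (fun i k => prod_nonneg fun _ _ => sq_nonneg _) (fun i k => prod_nonneg fun _ _ => sq_nonneg _)
    (fun i k => (even_two_mul _).pow_nonneg _) hB ?_ ?_ hU hV0 hV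
  · have e : 2 * (κ / 4) = κ / 2 := by ring
    rw [e] at h
    linarith
  · intro i k hg
    rw [← Real.finsetProd_rpow _ _ (fun _ _ => sq_nonneg _),
      ← Real.finsetProd_rpow _ _ (fun _ _ => sq_nonneg _), ← prod_mul_distrib]
    have h1 := cls_one_sub_sum_le_prod (Icc i J) (fun i' => (1 / 2 : ℝ) ^ l i')
      (fun _ => by positivity) (fun _ => pow_le_one₀ (by norm_num) (by norm_num))
    have h3 := cls_sum_half_pow_le l i J hl
    calc (1 / 4 : ℝ) = (1 / 2) ^ 2 := by norm_num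
      _ ≤ (∏ i' ∈ Icc i J, (1 - (1 / 2 : ℝ) ^ l i')) ^ 2 :=
          pow_le_pow_left₀ (by norm_num) (by linarith) 2
      _ = ∏ i' ∈ Icc i J, (1 - (1 / 2 : ℝ) ^ l i') ^ 2 := by rw [prod_pow]
      _ ≤ _ := prod_le_prod (fun _ _ => sq_nonneg _) fun i' hi' =>
          cls_te_block hTE h2 h4 _ (by have := hl i' (mem_Icc.1 hi').2; omega) (hg i' hi')
  · intro i k hi hb
    have h1 : (0 : ℝ) < l i := by
      have := hl i hi
      exact_mod_cast (by omega : 0 < l i)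
    rw [← (even_two_mul (l i)).pow_abs]
    refine one_le_pow₀ ?_
    rw [abs_div, abs_mul, Nat.abs_cast, le_div_iff₀ h1, abs_of_pos (by norm_num : (0 : ℝ) < 40)]
    have := not_le.1 hb
    linarith

theorem cls_sum_exp_neg_le {γ : ℝ} (hγ : 0 < γ) (s : Finset ℕ) :
    ∑ i ∈ s, exp (-(γ * i)) ≤ 1 + 1 / γ := by
  have hr : exp (-γ) < 1 := by
    rw [← exp_zero]; exact exp_lt_exp.2 (by linarith)
  have hr0 := exp_pos (-γ)
  have h1 : ∑ i ∈ s, exp (-(γ * i)) = ∑ i ∈ s, exp (-γ) ^ i := by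
    refine sum_congr rfl fun i _ => ?_
    rw [← exp_nat_mul]; congr 1; ring
  have h2 := (summable_geometric_of_lt_one hr0.le hr).sum_le_tsum s fun i _ => by positivity
  rw [tsum_geometric_of_lt_one hr0.le hr] at h2
  rw [h1]
  refine h2.trans ?_
  have h3 : exp (-γ) * (1 + γ) ≤ 1 := by
    have := add_one_le_exp γ
    have h4 : exp (-γ) * exp γ = 1 := by rw [← exp_add]; simp
    nlinarith
  rw [inv_le_iff_one_le_mul₀ (by linarith)]
  have h5 : (1 + 1 / γ) * (1 - exp (-γ)) = (1 + γ - exp (-γ) * (1 + γ)) / γ := by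
    field_simp
    ring
  rw [h5, le_div_iff₀ hγ]
  linarith

/-- The sum over the class index. -/
theorem cls_class_sum {κ : ℝ} (h2 : 2 < κ) (h4 : κ < 4) {C0 A A' M : ℝ} (hA : 0 ≤ A) (hA' : 0 ≤ A')
    (hC : 0 ≤ C0) (j J : ℕ) (hj : j ≤ J) (l : ℕ → ℕ) (hl : ∀ i ≤ J, 12 * (i + 1) ≤ l i)
    (σ : ℕ → ℝ) (hσ : ∀ i ≤ J, |σ i - (M - i)| ≤ C0) (hσJ : σ (J + 1) = 0)
    (hlJ : 8 * (M + C0) ≤ l J) :
    ∑ i ∈ Icc j (J + 1), (A * exp (((4 - κ) ^ 2 / 2 - 4 * (4 - κ)) * σ i)) ^ (κ / 4) *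
        (A' * exp (κ ^ 2 * σ i / 2) * (if i = j then 1 else exp (-(l (i - 1) : ℝ)))) ^ ((4 - κ) / 4) ≤
      (2 + exp (8 * C0) * (1 + 1 / (4 - κ))) *
        (A ^ (κ / 4) * A' ^ ((4 - κ) / 4) * exp (-(κ * (4 - κ) / 2 * σ j))) := by
  set β := 4 - κ with hβ
  have hβ0 : 0 < β := by linarith
  have hβ2 : β < 2 := by linarith
  set T := A ^ (κ / 4) * A' ^ (β / 4) with hT
  have hT0 : 0 ≤ T := mul_nonneg (rpow_nonneg hA _) (rpow_nonneg hA' _)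
  have hterm : ∀ (s x : ℝ), (A * exp ((β ^ 2 / 2 - 4 * β) * s)) ^ (κ / 4) *
      (A' * exp (κ ^ 2 * s / 2) * exp x) ^ (β / 4) = T * exp (-(κ * β / 2 * s) + β / 4 * x) := by
    intro s x
    rw [mul_rpow hA (exp_pos _).le, mul_assoc A', ← exp_add, mul_rpow hA' (exp_pos _).le,
      ← exp_mul, ← exp_mul]
    have e : -(κ * β / 2 * s) + β / 4 * x =
        (β ^ 2 / 2 - 4 * β) * s * (κ / 4) + (κ ^ 2 * s / 2 + x) * (β / 4) := by
      rw [hβ]; ring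
    rw [e, exp_add, hT]
    ring
  set E := exp (-(κ * β / 2 * σ j)) with hE
  have hE0 : 0 < E := exp_pos _
  have hbd : ∀ i ∈ Icc j (J + 1), (A * exp ((β ^ 2 / 2 - 4 * β) * σ i)) ^ (κ / 4) *
      (A' * exp (κ ^ 2 * σ i / 2) * (if i = j then 1 else exp (-(l (i - 1) : ℝ)))) ^ (β / 4) ≤
      T * E * ((if i = j then 1 else 0) + (if i = J + 1 then 1 else 0) +
        exp (8 * C0) * exp (-(β * i))) := by
    intro i hi
    rw [mem_Icc] at hi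
    have hpos : 0 ≤ exp (8 * C0) * exp (-(β * i)) := by positivity
    by_cases h1 : i = j
    · subst h1
      rw [if_pos rfl, if_pos rfl, if_neg (by omega), ← exp_zero, hterm, exp_zero]
      simp only [mul_zero, add_zero]
      exact le_mul_of_one_le_right (by positivity) (by linarith)
    · rw [if_neg h1, if_neg h1, hterm, mul_assoc T E]
      refine mul_le_mul_of_nonneg_left ?_ hT0
      by_cases h3 : i = J + 1
      · subst h3
        rw [if_pos rfl, hσJ]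
        have h5 := (abs_le.1 (hσ j hj)).2
        have h6 : (0 : ℝ) ≤ j := Nat.cast_nonneg j
        have h7 : (0 : ℝ) ≤ l J := Nat.cast_nonneg _
        have h8 : exp (-(κ * β / 2 * 0) + β / 4 * -(l (J + 1 - 1) : ℝ)) ≤ E := by
          refine exp_le_exp.2 ?_
          rw [Nat.add_sub_cancel]
          have h9 : κ * σ j ≤ (l J : ℝ) / 2 := by
            rcases le_total (σ j) 0 with h | h
            · nlinarith
            · nlinarith
          nlinarith [mul_le_mul_of_nonneg_left h9 hβ0.le]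
        refine h8.trans (le_mul_of_one_le_right hE0.le (by linarith))
      · rw [if_neg h3, zero_add, zero_add, hE, ← exp_add, ← exp_add]
        refine exp_le_exp.2 ?_
        have hiJ : i ≤ J := by omega
        have h5 := (abs_le.1 (hσ j hj)).2
        have h6 := (abs_le.1 (hσ i hiJ)).1
        have h7 : (12 : ℝ) * i ≤ l (i - 1) := by
          have := hl (i - 1) (by omega)
          have h8 : 12 * i ≤ l (i - 1) := by omega
          exact_mod_cast h8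
        have h8 : (0 : ℝ) ≤ j := Nat.cast_nonneg j
        have h8' : (0 : ℝ) ≤ i := Nat.cast_nonneg i
        have h9 : σ j - σ i ≤ i + 2 * C0 := by linarith
        have h10 : κ * (σ j - σ i) ≤ 4 * (i + 2 * C0) := by
          rcases le_total (σ j - σ i) 0 with h | h
          · nlinarith
          · nlinarith
        nlinarith [mul_le_mul_of_nonneg_left h10 hβ0.le, mul_le_mul_of_nonneg_left h7 hβ0.le,
          mul_le_mul_of_nonneg_right hβ2.le hC]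
  refine (sum_le_sum hbd).trans ?_
  rw [← mul_sum, mul_comm]
  refine mul_le_mul_of_nonneg_right ?_ (by positivity)
  rw [sum_add_distrib, sum_add_distrib, ← mul_sum, sum_ite_eq', sum_ite_eq']
  have h5 := mul_le_mul_of_nonneg_left (cls_sum_exp_neg_le hβ0 (Icc j (J + 1))) (exp_pos (8 * C0)).le
  split_ifs <;> linarith

/-- A substitute for the Minkowski inequality over geometrically decaying pieces. -/
theorem cls_sum_pieces {ι : Type*} (K : Finset ι) {p γ M : ℝ} (hp : 0 < p) (hγ : 0 < γ) (hM : 0 ≤ M)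
    (s : Finset ℕ) (B : ℕ → ι → ℝ) (hB : ∀ j k, 0 ≤ B j k)
    (h : ∀ j ∈ s, ∑ k ∈ K, B j k ^ p ≤ M * exp (-(γ * j))) :
    ∑ k ∈ K, (∑ j ∈ s, B j k) ^ p ≤ (1 + 2 * p / γ) ^ p * (1 + 2 / γ) * M := by
  set δ := γ / (2 * p) with hδ
  have hδ0 : 0 < δ := by positivity
  set W := 1 + 2 * p / γ with hW
  have hW0 : 0 < W := by positivity
  have hWs : ∑ j ∈ s, exp (-(δ * j)) ≤ W := by
    have := cls_sum_exp_neg_le hδ0 s
    rwa [hδ, one_div_div] at this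
  have hpt : ∀ k, (∑ j ∈ s, B j k) ^ p ≤ W ^ p * ∑ j ∈ s, exp (γ / 2 * j) * B j k ^ p := by
    intro k
    have hS0 : 0 ≤ ∑ j ∈ s, B j k := sum_nonneg fun j _ => hB j k
    have hnn : ∀ j ∈ s, 0 ≤ exp (γ / 2 * j) * B j k ^ p := fun j _ =>
      mul_nonneg (exp_pos _).le (rpow_nonneg (hB j k) _)
    rcases s.eq_empty_or_nonempty with rfl | hs
    · simp [zero_rpow hp.ne']
    have h1 : ∑ j ∈ s, (∑ j ∈ s, B j k) * exp (-(δ * j)) ≤ ∑ j ∈ s, W * B j k := by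
      rw [← mul_sum, ← mul_sum, mul_comm W]
      exact mul_le_mul_of_nonneg_left hWs hS0
    obtain ⟨j, hj, h2⟩ := exists_le_of_sum_le hs h1
    have h3 : ∑ j ∈ s, B j k ≤ W * (exp (δ * j) * B j k) := by
      have h4 : exp (-(δ * j)) * exp (δ * j) = 1 := by rw [← exp_add]; simp
      calc ∑ j ∈ s, B j k = (∑ j ∈ s, B j k) * exp (-(δ * j)) * exp (δ * j) := by
            rw [mul_assoc, h4, mul_one]
        _ ≤ W * B j k * exp (δ * j) := mul_le_mul_of_nonneg_right h2 (exp_pos _).le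
        _ = _ := by ring
    refine (rpow_le_rpow hS0 h3 hp.le).trans ?_
    rw [mul_rpow hW0.le (mul_nonneg (exp_pos _).le (hB j k)), mul_rpow (exp_pos _).le (hB j k),
      ← exp_mul]
    refine mul_le_mul_of_nonneg_left ?_ (rpow_nonneg hW0.le _)
    have e : δ * j * p = γ / 2 * j := by rw [hδ]; field_simp
    rw [e]
    exact single_le_sum (f := fun j : ℕ => exp (γ / 2 * j) * B j k ^ p) hnn hj
  refine (sum_le_sum fun k _ => hpt k).trans ?_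
  rw [← mul_sum, sum_comm, mul_assoc]
  refine mul_le_mul_of_nonneg_left ?_ (rpow_nonneg hW0.le _)
  have h1 : ∑ j ∈ s, ∑ k ∈ K, exp (γ / 2 * j) * B j k ^ p ≤ ∑ j ∈ s, exp (-(γ / 2 * j)) * M := by
    refine sum_le_sum fun j hj => ?_
    rw [← mul_sum]
    refine (mul_le_mul_of_nonneg_left (h j hj) (exp_pos _).le).trans (le_of_eq ?_)
    rw [mul_comm M, ← mul_assoc, ← exp_add]
    congr 2
    ring
  refine h1.trans ?_
  rw [← sum_mul]
  refine mul_le_mul_of_nonneg_right ?_ hM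
  have := cls_sum_exp_neg_le (γ := γ / 2) (by positivity) s
  rwa [one_div_div] at this

/-- The last step: each value is controlled by the pieces or by the full-length remainder. -/
theorem cls_end_split {ι : Type*} (K : Finset ι) {κ : ℝ} (h2 : 2 < κ) (h4 : κ < 4)
    (y S F : ι → ℝ) (hy : ∀ k, 0 ≤ y k) (hS : ∀ k, 0 ≤ S k)
    (h : ∀ k ∈ K, 2 * y k ^ 2 ≤ S k + F k) :
    ∑ k ∈ K, y k ^ κ ≤ ∑ k ∈ K, S k ^ (κ / 2) +
      (∑ k ∈ K, y k ^ 2) ^ ((4 - κ) / 2) * (∑ k ∈ K, F k ^ 2) ^ ((κ - 2) / 2) := by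
  have h1 := cls_holder2 K (a := (4 - κ) / 2) (b := (κ - 2) / 2) (by linarith) (by linarith) (by ring)
    (fun k => y k ^ 2) (fun k => F k ^ 2) (fun _ _ => sq_nonneg _) (fun _ _ => sq_nonneg _)
  refine le_trans ?_ (add_le_add le_rfl h1)
  rw [← sum_add_distrib]
  refine sum_le_sum fun k hk => ?_
  have e : y k ^ κ = (y k ^ 2) ^ (κ / 2) := by
    rw [← rpow_two, ← rpow_mul (hy k)]; congr 1; ring
  have hq : 0 ≤ y k ^ 2 := sq_nonneg _
  have h3 : 0 ≤ S k ^ (κ / 2) := rpow_nonneg (hS k) _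
  have h5 : 0 ≤ (y k ^ 2) ^ ((4 - κ) / 2) * (F k ^ 2) ^ ((κ - 2) / 2) :=
    mul_nonneg (rpow_nonneg hq _) (rpow_nonneg (sq_nonneg _) _)
  rw [e]
  rcases le_total (y k ^ 2) (S k) with h6 | h6
  · have := rpow_le_rpow hq h6 (by linarith : 0 ≤ κ / 2)
    linarith
  · have h7 : y k ^ 2 ≤ F k := by linarith [h k hk]
    have h8 : (y k ^ 2) ^ (κ / 2) = (y k ^ 2) ^ ((4 - κ) / 2) * ((y k ^ 2) ^ 2) ^ ((κ - 2) / 2) := by
      rw [← rpow_two (y k ^ 2), ← rpow_mul hq, ← rpow_add' hq (by linarith)]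
      congr 1; ring
    have h9 : ((y k ^ 2) ^ 2) ^ ((κ - 2) / 2) ≤ (F k ^ 2) ^ ((κ - 2) / 2) :=
      rpow_le_rpow (sq_nonneg _) (pow_le_pow_left₀ hq h7 2) (by linarith)
    have h10 := mul_le_mul_of_nonneg_left h9 (rpow_nonneg hq ((4 - κ) / 2))
    linarith

/-- The bound for one piece. -/
theorem cls_piece_bound {κ : ℝ} (h2 : 2 < κ) (h4 : κ < 4) {η C0 Cs X L D : ℝ}
    (hC : 0 ≤ C0) (hCs : 0 ≤ Cs) (hX : 0 ≤ X) (hL : 0 < L) (j J : ℕ) (hj : j ≤ J) (hD0 : 0 ≤ D)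
    (hD : D ≤ L * exp (-((1 - η) * j))) (l : ℕ → ℕ) (hl : ∀ i ≤ J, 12 * (i + 1) ≤ l i)
    (σ : ℕ → ℝ) (hσ : ∀ i ≤ J, |σ i - (log L - i)| ≤ Cs) (hσJ : σ (J + 1) = 0)
    (hlJ : 8 * (log L + Cs) ≤ l J) :
    ∑ i ∈ Icc j (J + 1),
      (C0 * X * D ^ 4 * L ^ 6 * exp (((4 - κ) ^ 2 / 2 - 4 * (4 - κ)) * σ i)) ^ (κ / 4) *
        (C0 * X * exp (κ ^ 2 * σ i / 2) * (if i = j then 1 else exp (-(l (i - 1) : ℝ)))) ^
          ((4 - κ) / 4) ≤
      (2 + exp (8 * Cs) * (1 + 1 / (4 - κ))) * exp (4 * Cs) * C0 * X *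
        L ^ (κ * (κ + 1) / 2) * exp (-(κ * ((κ - 2) / 2 - η) * j)) := by
  have hCX : 0 ≤ C0 * X := mul_nonneg hC hX
  have h3 := cls_class_sum h2 h4 (A := C0 * X * D ^ 4 * L ^ 6) (A' := C0 * X) (M := log L)
    (by positivity) hCX hCs j J hj l hl σ hσ hσJ hlJ
  set c1 := 2 + exp (8 * Cs) * (1 + 1 / (4 - κ)) with hc1
  have hβ : 0 < 4 - κ := by linarith
  have hc0 : 0 ≤ c1 := by positivity
  have h5 : (C0 * X * D ^ 4 * L ^ 6) ^ (κ / 4) * (C0 * X) ^ ((4 - κ) / 4) *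
      exp (-(κ * (4 - κ) / 2 * σ j)) ≤
      exp (4 * Cs) * C0 * X * L ^ (κ * (κ + 1) / 2) * exp (-(κ * ((κ - 2) / 2 - η) * j)) := by
    have e1 : D ^ 4 * L ^ 6 ≤ exp (10 * log L - 4 * ((1 - η) * j)) := by
      have h6 : D ^ 4 ≤ (L * exp (-((1 - η) * j))) ^ 4 := pow_le_pow_left₀ hD0 hD 4
      have h7 : (L * exp (-((1 - η) * j))) ^ 4 * L ^ 6 = exp (10 * log L - 4 * ((1 - η) * j)) := by
        have h8 : exp (10 * log L) = L ^ 10 := by
          rw [show (10 : ℝ) * log L = (10 : ℕ) * log L by norm_num, exp_nat_mul, exp_log hL]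
        have h9 : exp (-(4 * ((1 - η) * j))) = exp (-((1 - η) * j)) ^ 4 := by
          rw [← exp_nat_mul]; congr 1; push_cast; ring
        rw [sub_eq_add_neg (10 * log L), exp_add, h8, h9]
        ring
      rw [← h7]
      gcongr
    have e2 : (C0 * X * D ^ 4 * L ^ 6) ^ (κ / 4) ≤
        (C0 * X) ^ (κ / 4) * exp ((10 * log L - 4 * ((1 - η) * j)) * (κ / 4)) := by
      rw [mul_assoc (C0 * X), mul_rpow hCX (by positivity), exp_mul]
      exact mul_le_mul_of_nonneg_left (rpow_le_rpow (by positivity) e1 (by linarith))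
        (rpow_nonneg hCX _)
    have e3 : (C0 * X) ^ (κ / 4) * (C0 * X) ^ ((4 - κ) / 4) = C0 * X := by
      rw [← rpow_add' hCX (by linarith)]
      have : κ / 4 + (4 - κ) / 4 = 1 := by ring
      rw [this, rpow_one]
    have e4 : exp ((10 * log L - 4 * ((1 - η) * j)) * (κ / 4)) * exp (-(κ * (4 - κ) / 2 * σ j)) ≤
        exp (4 * Cs) * L ^ (κ * (κ + 1) / 2) * exp (-(κ * ((κ - 2) / 2 - η) * j)) := by
      rw [rpow_def_of_pos hL, ← exp_add, ← exp_add, ← exp_add]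
      refine exp_le_exp.2 ?_
      have h6 := (abs_le.1 (hσ j hj)).1
      have h7 : 0 ≤ κ * (4 - κ) / 2 := by positivity
      have h8 : κ * (4 - κ) / 2 ≤ 4 := by nlinarith
      have h9 := mul_le_mul_of_nonneg_left h6 h7
      have h10 := mul_le_mul_of_nonneg_right h8 hCs
      nlinarith
    have h6 : 0 ≤ (C0 * X) ^ ((4 - κ) / 4) := rpow_nonneg hCX _
    calc _ ≤ (C0 * X) ^ (κ / 4) * exp ((10 * log L - 4 * ((1 - η) * j)) * (κ / 4)) *
          (C0 * X) ^ ((4 - κ) / 4) * exp (-(κ * (4 - κ) / 2 * σ j)) := by gcongr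
      _ = ((C0 * X) ^ (κ / 4) * (C0 * X) ^ ((4 - κ) / 4)) *
          (exp ((10 * log L - 4 * ((1 - η) * j)) * (κ / 4)) * exp (-(κ * (4 - κ) / 2 * σ j))) := by
          ring
      _ ≤ (C0 * X) * (exp (4 * Cs) * L ^ (κ * (κ + 1) / 2) *
          exp (-(κ * ((κ - 2) / 2 - η) * j))) := by
          rw [e3]; exact mul_le_mul_of_nonneg_left e4 hCX
      _ = _ := by ring
  calc _ ≤ c1 * (exp (4 * Cs) * C0 * X * L ^ (κ * (κ + 1) / 2) *
        exp (-(κ * ((κ - 2) / 2 - η) * j))) := h3.trans (mul_le_mul_of_nonneg_left h5 hc0)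
    _ = _ := by ring

/-- The bound for the values controlled by the full-length remainder. -/
theorem cls_rest_bound {κ : ℝ} (h2 : 2 < κ) (h4 : κ < 4) {C0 X L D a b : ℝ} (hC : 0 ≤ C0) (hX : 0 ≤ X)
    (hL : 1 ≤ L) (hD0 : 0 ≤ D) (hD : D ≤ C0 * L ^ ((κ - 2) / 16)) (ha0 : 0 ≤ a) (hb0 : 0 ≤ b)
    (ha : a ≤ C0 * X * L ^ (3 + ((κ - 2) / 2) ^ 2))
    (hb : b ≤ C0 * X * D ^ 4 * L ^ 8 * log L) :
    a ^ ((4 - κ) / 2) * b ^ ((κ - 2) / 2) ≤
      (C0 ^ 4 * (4 / (κ - 2))) ^ ((κ - 2) / 2) * C0 * X * L ^ (κ * (κ + 1) / 2) := by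
  set φ := (κ - 2) / 2 with hφ
  have hφ0 : 0 < φ := by rw [hφ]; linarith
  have hφ1 : φ < 1 := by rw [hφ]; linarith
  have hL0 : 0 < L := by linarith
  have hCX : 0 ≤ C0 * X := mul_nonneg hC hX
  have hlog := log_nonneg hL
  have e0 : (4 - κ) / 2 = 1 - φ := by rw [hφ]; ring
  have e1 : 4 / (κ - 2) = 2 / φ := by
    have : κ - 2 ≠ 0 := by linarith
    rw [hφ]; field_simp; norm_num
  have e2 : κ * (κ + 1) / 2 = 3 + 5 * φ + 2 * φ ^ 2 := by rw [hφ]; ring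
  have e3 : (κ - 2) / 16 = φ / 8 := by rw [hφ]; ring
  rw [e0, e1, e2]
  rw [e3] at hD
  have h5 : log L ≤ L ^ (φ / 2) / (φ / 2) := log_le_rpow_div hL0.le (by positivity)
  have h6 : D ^ 4 ≤ C0 ^ 4 * L ^ (φ / 2) := by
    refine (pow_le_pow_left₀ hD0 hD 4).trans (le_of_eq ?_)
    rw [mul_pow, ← rpow_natCast (L ^ (φ / 8)), ← rpow_mul hL0.le]
    congr 2
    push_cast; ring
  have h7 : b ≤ C0 * X * ((C0 ^ 4 * (2 / φ)) * L ^ (8 + φ)) := by
    refine hb.trans ?_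
    have h8 : L ^ (8 + φ) = L ^ (φ / 2) * L ^ 8 * L ^ (φ / 2) := by
      rw [← rpow_natCast L 8, ← rpow_add hL0, ← rpow_add hL0]
      congr 1
      push_cast; ring
    calc C0 * X * D ^ 4 * L ^ 8 * log L
        ≤ C0 * X * (C0 ^ 4 * L ^ (φ / 2)) * L ^ 8 * (L ^ (φ / 2) / (φ / 2)) := by gcongr
      _ = _ := by rw [h8]; field_simp
  have h9 := rpow_le_rpow ha0 ha (by linarith : 0 ≤ 1 - φ)
  have h10 := rpow_le_rpow hb0 h7 hφ0.le
  have hq : 0 ≤ C0 ^ 4 * (2 / φ) := by positivity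
  refine (mul_le_mul h9 h10 (rpow_nonneg hb0 _) (rpow_nonneg (by positivity) _)).trans ?_
  rw [mul_rpow hCX (by positivity), mul_rpow hCX (by positivity), mul_rpow hq (by positivity),
    ← rpow_mul hL0.le, ← rpow_mul hL0.le]
  have e4 : (C0 * X) ^ (1 - φ) * (C0 * X) ^ φ = C0 * X := by
    rw [← rpow_add' hCX (by linarith)]
    simp
  have e5 : L ^ ((3 + φ ^ 2) * (1 - φ)) * L ^ ((8 + φ) * φ) ≤ L ^ (3 + 5 * φ + 2 * φ ^ 2) := by
    rw [← rpow_add hL0]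
    refine rpow_le_rpow_of_exponent_le hL ?_
    nlinarith [pow_pos hφ0 3]
  calc _ = (C0 ^ 4 * (2 / φ)) ^ φ * ((C0 * X) ^ (1 - φ) * (C0 * X) ^ φ) *
        (L ^ ((3 + φ ^ 2) * (1 - φ)) * L ^ ((8 + φ) * φ)) := by ring
    _ ≤ (C0 ^ 4 * (2 / φ)) ^ φ * (C0 * X) * L ^ (3 + 5 * φ + 2 * φ ^ 2) := by
        rw [e4]
        exact mul_le_mul_of_nonneg_left e5 (mul_nonneg (rpow_nonneg hq _) hCX)
    _ = _ := by ring

end Pool.Agent.QM
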