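import Pool.Agent.P.MP_ea46f5_nt.QM.S1

namespace Pool.Agent.QM

open Complex MeasureTheory Finset
open scoped Real ComplexConjugate

theorem hc_cpow_exp {p : ℕ} (hp : 0 < p) (w : ℂ) :
    (p : ℂ) ^ w = cexp ((Real.log p : ℝ) * w) := by
  have h : (p : ℂ) ≠ 0 := by exact_mod_cast hp.ne'
  rw [cpow_def_of_ne_zero h, natCast_log]

theorem hc_log_nonneg (p : ℕ) : 0 ≤ Real.log p := Real.log_natCast_nonneg p

theorem hc_norm_mul {p : ℕ} (w : ℂ) : ‖((Real.log p : ℝ) : ℂ) * w‖ = Real.log p * ‖w‖ := by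
  rw [norm_mul, Complex.norm_real, Real.norm_of_nonneg (hc_log_nonneg p)]

theorem hc_sub_one_min {p : ℕ} (hp : 0 < p) (w : ℂ) (hw : 0 ≤ w.re) :
    ‖(p : ℂ) ^ (-w) - 1‖ ≤ 2 * min 1 (‖w‖ * Real.log p) := by
  have hn : ‖((Real.log p : ℝ) : ℂ) * (-w)‖ = ‖w‖ * Real.log p := by
    rw [hc_norm_mul, norm_neg, mul_comm]
  rcases le_total (‖w‖ * Real.log p) 1 with h | h
  · rw [min_eq_right h, hc_cpow_exp hp, ← hn]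
    exact norm_exp_sub_one_le (by rw [hn]; exact h)
  · rw [min_eq_left h]
    have h1 : ‖(p : ℂ) ^ (-w)‖ ≤ 1 := by
      rw [norm_natCast_cpow_of_pos hp]
      exact Real.rpow_le_one_of_one_le_of_nonpos (by exact_mod_cast hp) (by simpa using hw)
    calc ‖(p : ℂ) ^ (-w) - 1‖ ≤ ‖(p : ℂ) ^ (-w)‖ + ‖(1 : ℂ)‖ := norm_sub_le _ _
      _ ≤ 2 * 1 := by rw [norm_one]; linarith

theorem hc_b {p : ℕ} (hp : 0 < p) (a : ℂ) (ε : ℝ) (ha : ‖a‖ ≤ ε / 2) :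
    ‖(p : ℂ) ^ (-a)‖ ≤ (p : ℝ) ^ (ε / 2) ∧
      ‖(p : ℂ) ^ (-a) - 1‖ ≤ ε / 2 * Real.log p * (p : ℝ) ^ (ε / 2) := by
  have hp1 : (1 : ℝ) ≤ p := by exact_mod_cast hp
  constructor
  · rw [norm_natCast_cpow_of_pos hp]
    apply Real.rpow_le_rpow_of_exponent_le hp1
    have := abs_re_le_norm (-a)
    rw [norm_neg] at this
    exact (le_abs_self _).trans (this.trans ha)
  · have h := norm_exp_sub_sum_le_norm_mul_exp (((Real.log p : ℝ) : ℂ) * (-a)) 1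
    simp only [range_one, sum_singleton, pow_zero, Nat.factorial_zero, Nat.cast_one, div_one,
      pow_one] at h
    rw [hc_cpow_exp hp]
    refine h.trans ?_
    rw [hc_norm_mul, norm_neg, Real.rpow_def_of_pos (by linarith)]
    have hl := hc_log_nonneg p
    have h1 : Real.log p * ‖a‖ ≤ Real.log p * (ε / 2) := mul_le_mul_of_nonneg_left ha hl
    have h2 : Real.exp (Real.log p * ‖a‖) ≤ Real.exp (Real.log p * (ε / 2)) :=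
      Real.exp_le_exp.mpr h1
    calc Real.log p * ‖a‖ * Real.exp (Real.log p * ‖a‖)
        ≤ Real.log p * (ε / 2) * Real.exp (Real.log p * (ε / 2)) :=
          mul_le_mul h1 h2 (Real.exp_pos _).le ((mul_nonneg hl (norm_nonneg _)).trans h1)
      _ = _ := by ring

theorem hc_alg (b₁ b₂ : ℂ) (E δ : ℝ) (hE : 1 ≤ E) (h1 : ‖b₁‖ ≤ E) (h2 : ‖b₂‖ ≤ E)
    (d1 : ‖b₁ - 1‖ ≤ δ) (d2 : ‖b₂ - 1‖ ≤ δ) :
    ‖3 * b₁ ^ 2 + 4 * (b₁ * b₂) + 3 * b₂ ^ 2 - 2 * (b₁ + b₂) - 6‖ ≤ 24 * (E * δ) := by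
  have hδ : 0 ≤ δ := (norm_nonneg _).trans d1
  have e : 3 * b₁ ^ 2 + 4 * (b₁ * b₂) + 3 * b₂ ^ 2 - 2 * (b₁ + b₂) - 6 =
      (b₁ - 1) * (3 * b₁ + 5) + (b₂ - 1) * (3 * b₂ + 4 * b₁ + 1) := by ring
  have n3 : ‖(3 : ℂ)‖ = 3 := by simp
  have n4 : ‖(4 : ℂ)‖ = 4 := by simp
  have n5 : ‖(5 : ℂ)‖ = 5 := by simp
  have k1 : ‖3 * b₁ + 5‖ ≤ 8 * E := by
    have := norm_add_le (3 * b₁) 5
    rw [norm_mul, n3, n5] at this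
    linarith
  have k2 : ‖3 * b₂ + 4 * b₁ + 1‖ ≤ 8 * E := by
    have a1 := norm_add_le (3 * b₂ + 4 * b₁) 1
    have a2 := norm_add_le (3 * b₂) (4 * b₁)
    rw [norm_mul, norm_mul, n3, n4] at a2
    rw [norm_one] at a1
    linarith
  rw [e]
  have a := norm_add_le ((b₁ - 1) * (3 * b₁ + 5)) ((b₂ - 1) * (3 * b₂ + 4 * b₁ + 1))
  rw [norm_mul, norm_mul] at a
  have m1 : ‖b₁ - 1‖ * ‖3 * b₁ + 5‖ ≤ δ * (8 * E) := mul_le_mul d1 k1 (norm_nonneg _) hδ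
  have m2 : ‖b₂ - 1‖ * ‖3 * b₂ + 4 * b₁ + 1‖ ≤ δ * (8 * E) :=
    mul_le_mul d2 k2 (norm_nonneg _) hδ
  have : 0 ≤ E * δ := mul_nonneg (by linarith) hδ
  linarith

theorem hc_jo {p : ℕ} (hp : p.Prime) (h2 : p ≠ 2) : jo 1 p = 1 := by
  unfold jo
  rw [if_pos (hp.odd_of_ne_two h2), jacobiSym.one_left]
  simp

/-- The main term of the local factor. -/
theorem hc_QU {p : ℕ} (hp : p.Prime) (h2 : p ≠ 2) (ε : ℝ) (z s₁ s₂ : ℂ) (hε : 0 < ε)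
    (hz : z.re = ε) (h₁ : ‖s₁ - z‖ ≤ ε / 2) (h₂ : ‖s₂ - z‖ ≤ ε / 2) :
    ‖Qp s₁ s₂ p - 2 * Up 1 z s₁ s₂ p - 6 * (p : ℂ) ^ (-(1 + 2 * z))‖ ≤
      12 * ε * (Real.log p * (p : ℝ) ^ (-(1 + ε))) := by
  have hp0 := hp.pos
  have hc : (p : ℂ) ≠ 0 := by exact_mod_cast hp0.ne'
  have hr : (0 : ℝ) < p := by exact_mod_cast hp0
  have hp1 : (1 : ℝ) ≤ p := by exact_mod_cast hp0
  set w : ℂ := (p : ℂ) ^ (-(z + 1 / 2)) with hw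
  have hx : ∀ s : ℂ, xs s p = w * (p : ℂ) ^ (-(s - z)) := by
    intro s
    unfold xs
    rw [hw, ← cpow_add _ _ hc]
    congr 1
    ring
  have hw2 : (p : ℂ) ^ (-(1 + 2 * z)) = w ^ 2 := by
    rw [hw, sq, ← cpow_add _ _ hc]
    congr 1
    ring
  obtain ⟨a1, d1⟩ := hc_b hp0 (s₁ - z) ε h₁
  obtain ⟨a2, d2⟩ := hc_b hp0 (s₂ - z) ε h₂
  have hE : 1 ≤ (p : ℝ) ^ (ε / 2) := Real.one_le_rpow hp1 (by linarith)
  have key := hc_alg _ _ _ _ hE a1 a2 d1 d2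
  have e : Qp s₁ s₂ p - 2 * Up 1 z s₁ s₂ p - 6 * (p : ℂ) ^ (-(1 + 2 * z)) =
      (p : ℂ) ^ (-(1 + 2 * z)) * (3 * ((p : ℂ) ^ (-(s₁ - z))) ^ 2 +
        4 * ((p : ℂ) ^ (-(s₁ - z)) * (p : ℂ) ^ (-(s₂ - z))) + 3 * ((p : ℂ) ^ (-(s₂ - z))) ^ 2 -
        2 * ((p : ℂ) ^ (-(s₁ - z)) + (p : ℂ) ^ (-(s₂ - z))) - 6) := by
    unfold Qp Up
    rw [hc_jo hp h2, hx s₁, hx s₂, hw2, ← hw]
    ring
  rw [e, norm_mul, norm_natCast_cpow_of_pos hp0]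
  have hre : (-(1 + 2 * z)).re = -(1 + 2 * ε) := by simp [hz]
  rw [hre]
  have hpw : (p : ℝ) ^ (-(1 + 2 * ε)) * ((p : ℝ) ^ (ε / 2) * (p : ℝ) ^ (ε / 2)) =
      (p : ℝ) ^ (-(1 + ε)) := by
    rw [← Real.rpow_add hr, ← Real.rpow_add hr]
    congr 1
    ring
  calc _ ≤ (p : ℝ) ^ (-(1 + 2 * ε)) *
        (24 * ((p : ℝ) ^ (ε / 2) * (ε / 2 * Real.log p * (p : ℝ) ^ (ε / 2)))) :=
        mul_le_mul_of_nonneg_left key (Real.rpow_nonneg hr.le _)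
    _ = 12 * ε * (Real.log p * ((p : ℝ) ^ (-(1 + 2 * ε)) *
        ((p : ℝ) ^ (ε / 2) * (p : ℝ) ^ (ε / 2)))) := by ring
    _ = _ := by rw [hpw]

theorem hc_xs {p : ℕ} (hp : 0 < p) (s : ℂ) (hs : 0 ≤ s.re) :
    ‖xs s p‖ ≤ (p : ℝ) ^ (-(1 / 2) : ℝ) := by
  have hp1 : (1 : ℝ) ≤ p := by exact_mod_cast hp
  unfold xs
  rw [norm_natCast_cpow_of_pos hp]
  apply Real.rpow_le_rpow_of_exponent_le hp1
  simp
  linarith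

/-- Crude bound of the main term. -/
theorem hc_crude {p : ℕ} (hp : p.Prime) (h2 : p ≠ 2) (z s₁ s₂ : ℂ) (hz : 0 ≤ z.re)
    (h₁ : 0 ≤ s₁.re) (h₂ : 0 ≤ s₂.re) :
    ‖Qp s₁ s₂ p - 2 * Up 1 z s₁ s₂ p‖ ≤ 14 * (p : ℝ) ^ (-1 : ℝ) := by
  have hp0 := hp.pos
  have hr : (0 : ℝ) < p := by exact_mod_cast hp0
  have hw : (p : ℂ) ^ (-(z + 1 / 2)) = xs z p := by
    unfold xs
    rw [add_comm]
  have a0 := hc_xs hp0 z hz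
  have a1 := hc_xs hp0 s₁ h₁
  have a2 := hc_xs hp0 s₂ h₂
  set r : ℝ := (p : ℝ) ^ (-(1 / 2) : ℝ) with hrr
  have hr0 : 0 ≤ r := Real.rpow_nonneg hr.le _
  have hr2 : (p : ℝ) ^ (-1 : ℝ) = r * r := by
    rw [hrr, ← Real.rpow_add hr]
    norm_num
  unfold Qp Up
  rw [hc_jo hp h2, hw, one_mul, hr2]
  set x := xs z p
  set x₁ := xs s₁ p
  set x₂ := xs s₂ p
  have n2 : ‖(2 : ℂ)‖ = 2 := by simp
  have n3 : ‖(3 : ℂ)‖ = 3 := by simp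
  have n4 : ‖(4 : ℂ)‖ = 4 := by simp
  have m11 : ‖x₁‖ * ‖x₁‖ ≤ r * r := mul_le_mul a1 a1 (norm_nonneg _) hr0
  have m12 : ‖x₁‖ * ‖x₂‖ ≤ r * r := mul_le_mul a1 a2 (norm_nonneg _) hr0
  have m22 : ‖x₂‖ * ‖x₂‖ ≤ r * r := mul_le_mul a2 a2 (norm_nonneg _) hr0
  have ms : ‖x₁ + x₂‖ ≤ 2 * r := (norm_add_le _ _).trans (by linarith)
  have m0 : ‖x‖ * ‖x₁ + x₂‖ ≤ r * (2 * r) := mul_le_mul a0 ms (norm_nonneg _) hr0
  have b1 := norm_sub_le (3 * x₁ ^ 2 + 4 * (x₁ * x₂) + 3 * x₂ ^ 2) (2 * (x * (x₁ + x₂)))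
  have b2 := norm_add_le (3 * x₁ ^ 2 + 4 * (x₁ * x₂)) (3 * x₂ ^ 2)
  have b3 := norm_add_le (3 * x₁ ^ 2) (4 * (x₁ * x₂))
  simp only [norm_mul, n2, n3, n4, sq] at b1 b2 b3
  simp only [sq]
  linarith

theorem hc_ind (P : Finset ℕ) (hP : ∀ p ∈ P, p.Prime) (f : ℕ → ℝ) :
    HasSum (fun p : Nat.Primes => if (p : ℕ) ∈ P then f p else 0) (∑ p ∈ P, f p) := by
  have h := hasSum_sum_of_ne_finset_zero (s := P.subtype Nat.Prime)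
    (f := fun p : {p : ℕ // p.Prime} => if (p : ℕ) ∈ P then f p else 0)
    (L := SummationFilter.unconditional _) (by
      intro b hb
      rw [mem_subtype] at hb
      simp [hb])
  have e : ∑ b ∈ P.subtype Nat.Prime, (if (b : ℕ) ∈ P then f b else 0) = ∑ p ∈ P, f p := by
    rw [← sum_subtype_of_mem f hP]
    refine sum_congr rfl fun b hb => ?_
    rw [mem_subtype] at hb
    simp [hb]
  rw [e] at h
  exact h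

theorem hc_pz (hPZ : PZ) (x : ℝ) (hx : 0 < x) :
    ∑' p : Nat.Primes, ((p : ℕ) : ℝ) ^ (-(1 + x)) ≤ 1 / x := by
  have h := (hPZ.1 x hx).2
  have := Real.add_one_le_exp (∑' p : Nat.Primes, ((p : ℕ) : ℝ) ^ (-(1 + x)))
  linarith

theorem hc_fin32 (hPZ : PZ) (P : Finset ℕ) (hP : ∀ p ∈ P, p.Prime) :
    ∑ p ∈ P, (p : ℝ) ^ (-(3 / 2) : ℝ) ≤ 2 := by
  have h1 := hc_ind P hP fun p => (p : ℝ) ^ (-(3 / 2) : ℝ)
  have h2 := (hPZ.1 (1 / 2) (by norm_num)).1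
  have h3 := hc_pz hPZ (1 / 2) (by norm_num)
  have h4 := hasSum_le (fun p : Nat.Primes => (show
    (if (p : ℕ) ∈ P then ((p : ℕ) : ℝ) ^ (-(3 / 2) : ℝ) else 0) ≤
      ((p : ℕ) : ℝ) ^ (-(1 + 1 / 2) : ℝ) by
      split_ifs
      · norm_num
      · positivity)) h1 h2.hasSum
  linarith

theorem hc_pt {p : ℕ} (hp : p.Prime) (h2 : p ≠ 2) (ε C : ℝ) (z s₁ s₂ y : ℂ) (hε : 0 < ε)
    (hC : 0 < C) (hz : z.re = ε) (h₁ : ‖s₁ - z‖ ≤ ε / 2) (h₂ : ‖s₂ - z‖ ≤ ε / 2)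
    (r₁ : 0 ≤ s₁.re) (r₂ : 0 ≤ s₂.re)
    (hL : ‖y - 1 - Qp s₁ s₂ p + 2 * Up 1 z s₁ s₂ p‖ ≤ C * (p : ℝ) ^ (-(27 / 20) : ℝ)) :
    ‖y - 1‖ ≤ 6 * (p : ℝ) ^ (-(1 + 2 * ε)) + 12 * ε * (Real.log p * (p : ℝ) ^ (-(1 + ε))) +
        C * (p : ℝ) ^ (-(1 + 7 / 20) : ℝ) ∧
      (y - 1).re + ‖y - 1‖ ^ 2 / 2 ≤ 6 * ((p : ℂ) ^ (-(1 + 2 * z))).re +
        12 * ε * (Real.log p * (p : ℝ) ^ (-(1 + ε))) +
        (C + (14 + C) ^ 2) * (p : ℝ) ^ (-(1 + 7 / 20) : ℝ) := by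
  have hp0 := hp.pos
  have hr : (0 : ℝ) < p := by exact_mod_cast hp0
  have hp1 : (1 : ℝ) ≤ p := by exact_mod_cast hp0
  have hQ := hc_QU hp h2 ε z s₁ s₂ hε hz h₁ h₂
  have hcr := hc_crude hp h2 z s₁ s₂ (by rw [hz]; exact hε.le) r₁ r₂
  have he : (-(27 / 20) : ℝ) = -(1 + 7 / 20) := by norm_num
  rw [he] at hL
  set g : ℝ := (p : ℝ) ^ (-(1 + 7 / 20) : ℝ) with hg
  set W : ℂ := (p : ℂ) ^ (-(1 + 2 * z)) with hW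
  set M : ℂ := Qp s₁ s₂ p - 2 * Up 1 z s₁ s₂ p with hM
  set D : ℂ := y - 1 - Qp s₁ s₂ p + 2 * Up 1 z s₁ s₂ p with hD
  have e1 : y - 1 = D + M := by rw [hD, hM]; ring
  have e2 : y - 1 = 6 * W + ((M - 6 * W) + D) := by rw [e1]; ring
  have nW : ‖W‖ = (p : ℝ) ^ (-(1 + 2 * ε)) := by
    rw [hW, norm_natCast_cpow_of_pos hp0]
    congr 1
    simp [hz]
  have n6 : ‖(6 : ℂ)‖ = 6 := by simp
  have t1 := norm_add_le (M - 6 * W) D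
  constructor
  · have t2 := norm_add_le (6 * W) ((M - 6 * W) + D)
    rw [← e2, norm_mul, n6, nW] at t2
    linarith
  · have g1 : g ≤ (p : ℝ) ^ (-1 : ℝ) := Real.rpow_le_rpow_of_exponent_le hp1 (by norm_num)
    have g2 : (p : ℝ) ^ (-1 : ℝ) * (p : ℝ) ^ (-1 : ℝ) ≤ g := by
      rw [← Real.rpow_add hr]
      exact Real.rpow_le_rpow_of_exponent_le hp1 (by norm_num)
    have g0 : 0 ≤ g := Real.rpow_nonneg hr.le _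
    have t3 : ‖y - 1‖ ≤ (14 + C) * (p : ℝ) ^ (-1 : ℝ) := by
      have := norm_add_le D M
      rw [← e1] at this
      have h5 := mul_le_mul_of_nonneg_left g1 hC.le
      linarith
    have t4 : ‖y - 1‖ ^ 2 ≤ (14 + C) ^ 2 * g := by
      calc ‖y - 1‖ ^ 2 ≤ ((14 + C) * (p : ℝ) ^ (-1 : ℝ)) ^ 2 :=
            pow_le_pow_left₀ (norm_nonneg _) t3 2
        _ = (14 + C) ^ 2 * ((p : ℝ) ^ (-1 : ℝ) * (p : ℝ) ^ (-1 : ℝ)) := by ring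
        _ ≤ _ := mul_le_mul_of_nonneg_left g2 (sq_nonneg _)
    have t5 : (y - 1).re = 6 * W.re + ((M - 6 * W) + D).re := by
      rw [e2, add_re]
      simp
    have t6 : ((M - 6 * W) + D).re ≤ ‖(M - 6 * W) + D‖ := re_le_norm _
    have t7 : 0 ≤ (14 + C) ^ 2 * g := mul_nonneg (sq_nonneg _) g0
    rw [t5]
    linarith

theorem hc_inP {p : ℕ} (hp0 : 0 < p) (z : ℂ) (hz : 0 ≤ z.re) :
    0 ≤ 6 * ((p : ℂ) ^ (-(1 + 2 * z))).re +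
      (-6 * (1 / (p : ℝ)) + 12 * (min 1 (2 * ‖z‖ * Real.log p) / p)) := by
  have hc : (p : ℂ) ≠ 0 := by exact_mod_cast hp0.ne'
  have hr : (0 : ℝ) < p := by exact_mod_cast hp0
  have h := hc_sub_one_min hp0 (2 * z) (by simpa using hz)
  have n2 : ‖2 * z‖ = 2 * ‖z‖ := by simp
  rw [n2] at h
  have e : (p : ℂ) ^ (-(1 + 2 * z)) = ((1 / (p : ℝ) : ℝ) : ℂ) * (p : ℂ) ^ (-(2 * z)) := by
    rw [neg_add, cpow_add _ _ hc, cpow_neg_one]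
    simp
  have h1 : -‖(p : ℂ) ^ (-(2 * z)) - 1‖ ≤ ((p : ℂ) ^ (-(2 * z))).re - 1 := by
    have := abs_re_le_norm ((p : ℂ) ^ (-(2 * z)) - 1)
    rw [sub_re, one_re] at this
    linarith [neg_abs_le (((p : ℂ) ^ (-(2 * z))).re - 1)]
  rw [e, re_ofReal_mul]
  have h3 : 0 ≤ 1 / (p : ℝ) * (((p : ℂ) ^ (-(2 * z))).re - 1 +
      2 * min 1 (2 * ‖z‖ * Real.log p)) := mul_nonneg (by positivity) (by linarith)
  have h4 : min 1 (2 * ‖z‖ * Real.log p) / p = 1 / (p : ℝ) * min 1 (2 * ‖z‖ * Real.log p) := by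
    ring
  rw [h4]
  linarith

theorem hc_two (z : ℂ) (hz : 0 ≤ z.re) :
    0 ≤ 6 * (((2 : ℕ) : ℂ) ^ (-(1 + 2 * z))).re + 12 * ((2 : ℕ) : ℝ) ^ (-(1 + 7 / 20) : ℝ) := by
  have h1 : ‖((2 : ℕ) : ℂ) ^ (-(1 + 2 * z))‖ ≤ ((2 : ℕ) : ℝ) ^ (-1 : ℝ) := by
    rw [norm_natCast_cpow_of_pos (by norm_num)]
    apply Real.rpow_le_rpow_of_exponent_le (by norm_num)
    simp
    linarith
  have h2 : ((2 : ℕ) : ℝ) ^ (-2 : ℝ) ≤ ((2 : ℕ) : ℝ) ^ (-(1 + 7 / 20) : ℝ) :=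
    Real.rpow_le_rpow_of_exponent_le (by norm_num) (by norm_num)
  have h3 : ((2 : ℕ) : ℝ) ^ (-1 : ℝ) = 1 / 2 := by
    rw [Real.rpow_neg_one]
    norm_num
  have h4 : ((2 : ℕ) : ℝ) ^ (-2 : ℝ) = 1 / 4 := by
    rw [Real.rpow_neg (by norm_num), Real.rpow_two]
    norm_num
  have h5 := (abs_le.mp ((abs_re_le_norm (((2 : ℕ) : ℂ) ^ (-(1 + 2 * z)))).trans h1)).1
  rw [h3] at h5
  rw [h4] at h2
  generalize (((2 : ℕ) : ℂ) ^ (-(1 + 2 * z))).re = a at h5 ⊢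
  generalize ((2 : ℕ) : ℝ) ^ (-(1 + 7 / 20) : ℝ) = b at h2 ⊢
  linarith

end Pool.Agent.QM
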