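import Pool.Agent.P.MP_ea46f5_nt.QM.S1
import Pool.Agent.P.MP_ea46f5_nt.QM.FLOCa

namespace Pool.Agent.QM

open Complex MeasureTheory Finset
open scoped Real ComplexConjugate

theorem loc_sum (f : ℤ → ℂ) : ∑ y ∈ T3, f y = f 0 + f 1 + f (-1) := by
  unfold T3
  rw [sum_insert (by decide), sum_insert (by decide), sum_singleton]
  ring

theorem loc_zero (k : ℤ) (z s₁ s₂ : ℂ) (p : ℕ) : locv k z s₁ s₂ p 0 = (1 - ek k z p)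
    + (ek k z p + ok k z p) * ((1 - xs s₁ p) ^ 2 * (1 - xs s₂ p) ^ 2)⁻¹ / 2
    + (ek k z p - ok k z p) * ((1 + xs s₁ p) ^ 2 * (1 + xs s₂ p) ^ 2)⁻¹ / 2 := by
  unfold locv
  rw [loc_sum]
  simp [mu, Fy, sub_eq_add_neg]

theorem loc_jo {p : ℕ} (hp : p.Prime) (h2 : p ≠ 2) (k : ℤ) : jo k p = (jacobiSym k p : ℂ) := by
  unfold jo
  rw [if_pos (hp.odd_of_ne_two h2)]

theorem loc_j0 {p : ℕ} (hp : p.Prime) {k : ℤ} (h : (p : ℤ) ∣ k) : jacobiSym k p = 0 := by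
  have : NeZero p := ⟨hp.ne_zero⟩
  rw [jacobiSym.eq_zero_iff_not_coprime]
  intro hc
  have h1 : (p : ℤ) ∣ (Int.gcd k p : ℤ) := Int.dvd_coe_gcd h dvd_rfl
  rw [hc] at h1
  have : p ∣ 1 := by exact_mod_cast h1
  exact hp.one_lt.ne' (Nat.dvd_one.1 this)

theorem loc_j1 {p : ℕ} (hp : p.Prime) {k : ℤ} (h : ¬ (p : ℤ) ∣ k) :
    (jacobiSym k p : ℂ) * (jacobiSym k p : ℂ) = 1 := by
  have hc : Int.gcd k p = 1 := by
    have : Nat.Coprime p k.natAbs := (hp.coprime_iff_not_dvd).2 fun hd => h (Int.natCast_dvd.2 hd)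
    rw [Int.gcd_comm]
    simpa [Int.gcd] using this
  have := jacobiSym.sq_one hc
  rw [sq] at this
  exact_mod_cast this

theorem loc_jle (k : ℤ) (p : ℕ) : ‖(jacobiSym k p : ℂ)‖ ≤ 1 := by
  rcases jacobiSym.trichotomy k p with h | h | h <;> simp [h]

theorem loc_xs {p : ℕ} (hp : 0 < p) {s : ℂ} (hs : 0 ≤ s.re) {a : ℝ} (ha : a ≤ 1 / 2) :
    ‖xs s p‖ ≤ (p : ℝ) ^ (-a) := by
  unfold xs
  refine norm_cp_le hp ?_
  simp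
  linarith

theorem loc_mul_le {a b : ℂ} {t : ℝ} (ha : ‖a‖ ≤ 1) (hb : ‖b‖ ≤ t) : ‖a * b‖ ≤ t := by
  rw [norm_mul]
  calc ‖a‖ * ‖b‖ ≤ 1 * ‖b‖ := mul_le_mul_of_nonneg_right ha (norm_nonneg _)
    _ ≤ t := by rw [one_mul]; exact hb

theorem loc_fp_le {p : ℕ} (hp : p.Prime) (h2 : p ≠ 2) (k : ℤ) {z s₁ s₂ : ℂ}
    (a1 : -(11 / 20) < (s₁ - z).re) (a2 : -(11 / 20) < (s₂ - z).re) :
    ‖fp k z s₁ s₂ p‖ ≤ 2 ^ 4 * (10 / 3) ^ 10 := by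
  have h3 := three_le_of hp h2
  have q1 : (p : ℝ) ^ (-(9 / 20) : ℝ) ≤ 7 / 10 := rpow_neg_le h3 (by norm_num)
  have hq : (7 / 10 : ℝ) < 1 := by norm_num
  have e : (1 - 7 / 10 : ℝ)⁻¹ = 10 / 3 := by norm_num
  have b : ∀ s : ℂ, 9 / 20 ≤ s.re → ‖(p : ℂ) ^ (-s)‖ ≤ 7 / 10 := fun s hs =>
    (norm_cp_le hp.pos (by rw [neg_re]; linarith)).trans q1
  have n : ∀ s : ℂ, 9 / 20 ≤ s.re → ‖1 - jo k p * (p : ℂ) ^ (-s)‖ ≤ 2 := by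
    intro s hs
    have := loc_mul_le (loc_jle k p) (b s hs)
    rw [loc_jo hp h2]
    refine (norm_sub_le _ _).trans ?_
    rw [norm_one]
    linarith
  have d : ∀ s : ℂ, 9 / 20 ≤ s.re → ‖(1 - (p : ℂ) ^ (-s))⁻¹‖ ≤ 10 / 3 := fun s hs =>
    e ▸ norm_inv_one_sub_le hq (b s hs)
  simp only [sub_re] at a1 a2
  have n1 := n (1 + (s₁ - z)) (by simp; linarith)
  have n2 := n (1 + (s₂ - z)) (by simp; linarith)
  have d1 := d (2 + 2 * (s₁ - z)) (by simp; linarith)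
  have d2 := d (2 + (s₁ - z) + (s₂ - z)) (by simp; linarith)
  have d3 := d (2 + 2 * (s₂ - z)) (by simp; linarith)
  unfold fp
  rw [div_eq_mul_inv, mul_inv, mul_inv, ← inv_pow, ← inv_pow, ← inv_pow]
  simp only [norm_mul, norm_pow]
  calc _ ≤ (2 : ℝ) ^ 2 * 2 ^ 2 * ((10 / 3) ^ 3 * (10 / 3) ^ 4 * (10 / 3) ^ 3) := by gcongr
    _ = _ := by norm_num

theorem loc_Fy_le {p : ℕ} (hp : p.Prime) (h2 : p ≠ 2) {s₁ s₂ : ℂ} (h1 : 0 ≤ s₁.re)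
    (h2' : 0 ≤ s₂.re) {y : ℤ} (hy : ‖(y : ℂ)‖ ≤ 1) : ‖Fy s₁ s₂ p y‖ ≤ (10 / 3) ^ 4 := by
  have h3 := three_le_of hp h2
  have q1 : (p : ℝ) ^ (-(1 / 2) : ℝ) ≤ 7 / 10 := rpow_neg_le h3 (by norm_num)
  have hq : (7 / 10 : ℝ) < 1 := by norm_num
  have e : (1 - 7 / 10 : ℝ)⁻¹ = 10 / 3 := by norm_num
  have d : ∀ s : ℂ, 0 ≤ s.re → ‖(1 - xs s p * y)⁻¹‖ ≤ 10 / 3 := fun s hs =>
    e ▸ norm_inv_one_sub_le hq (by
      rw [mul_comm]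
      exact loc_mul_le hy ((loc_xs hp.pos hs le_rfl).trans q1))
  have d1 := d s₁ h1
  have d2 := d s₂ h2'
  unfold Fy
  rw [one_div, mul_inv, ← inv_pow, ← inv_pow]
  simp only [norm_mul, norm_pow]
  calc _ ≤ ((10 / 3 : ℝ)) ^ 2 * (10 / 3) ^ 2 := by gcongr
    _ = _ := by norm_num

theorem loc_mu_le {p : ℕ} (hp : p.Prime) (h2 : p ≠ 2) (k : ℤ) {z s₁ s₂ : ℂ} (h1 : 0 ≤ s₁.re)
    (h2' : 0 ≤ s₂.re) (z0 : 0 ≤ z.re) (z7 : z.re ≤ 7) {y : ℤ} (hy0 : y ≠ 0) (hy : ‖(y : ℂ)‖ ≤ 1) :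
    ‖mu k z s₁ s₂ p y‖ ≤ 2 * (p : ℝ) ^ 13 * (10 / 3) ^ 4 := by
  have h3 := three_le_of hp h2
  have p1 : (1 : ℝ) ≤ (p : ℝ) ^ 13 := one_le_pow₀ (by linarith)
  have b : ∀ s : ℂ, s.re ≤ 13 → ‖(p : ℂ) ^ s‖ ≤ (p : ℝ) ^ 13 := fun s hs => by
    have := norm_cp_le hp.pos (a := ((13 : ℕ) : ℝ)) (s := s) (by exact_mod_cast hs)
    rwa [Real.rpow_natCast] at this
  have he : ‖ek k z p‖ ≤ 2 * (p : ℝ) ^ 13 := by
    unfold ek
    split_ifs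
    · have := b (2 * z - 1) (by simp; linarith)
      refine (norm_sub_le _ _).trans ?_
      rw [norm_one]
      linarith
    · refine (norm_sub_le _ _).trans ?_
      rw [norm_one, norm_div, norm_one, Complex.norm_natCast]
      have : 1 / (p : ℝ) ≤ 1 := (div_le_one (by linarith)).2 (by linarith)
      linarith
  have ho : ‖ok k z p‖ ≤ 2 * (p : ℝ) ^ 13 := by
    unfold ok
    have t1 : ‖(p : ℂ) ^ (-(1 / 2 : ℂ))‖ ≤ 1 := by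
      have := norm_cp_le hp.pos (a := 0) (s := -(1 / 2 : ℂ)) (by simp)
      rwa [Real.rpow_zero] at this
    refine loc_mul_le (loc_mul_le (loc_jle k p) t1) ((norm_sub_le _ _).trans ?_)
    have := b z (by linarith)
    have := b (-z) (by rw [neg_re]; linarith)
    linarith
  have hF := loc_Fy_le hp h2 h1 h2' hy
  have hs : ‖ek k z p + y * ok k z p‖ ≤ 4 * (p : ℝ) ^ 13 := by
    have := loc_mul_le hy ho
    refine (norm_add_le _ _).trans ?_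
    linarith
  unfold mu
  rw [if_neg hy0, norm_div, norm_mul, Complex.norm_two]
  calc _ ≤ 4 * (p : ℝ) ^ 13 * (10 / 3) ^ 4 / 2 := by gcongr
    _ = _ := by ring

end Pool.Agent.QM
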