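import Pool.Agent.P.MP_ea46f5_nt.QM.S2
import Pool.Agent.P.MP_ea46f5_nt.QM.LoB

namespace Pool.Agent.QM

open Complex MeasureTheory Finset
open scoped Real ComplexConjugate

theorem pLOP (hKR : KR) (hPRI : PRI) : LOP := by
  have _ := And.intro hKR hPRI
  refine ⟨fun k s hk hs => ?_, fun k hk h1 => differentiable_Lo hk h1, fun s hs => ?_⟩
  · rw [Lo_eq_LSeries hk hs, LS, funext (jo_eq k)]
  · rw [Lo_one hs, riemannZeta_eq_inv_sub_mul hs]
    ring

end Pool.Agent.QM
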