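import Pool.Agent.P.MP_ea46f5_nt.QM.S2

/-! The cut-off `th`, the pieces of `1 / s`, and their far and near bounds. -/

namespace Pool.Agent.QM

open Complex

/-- `φ_0 = θ(sΔ) / s`. -/
noncomputable def phi_ph0 (A : ℕ) (D : ℝ) (s : ℂ) : ℂ := th A (s * D) / s

/-- `φ_j = (θ(sΔ) - θ(sΔ')) / s`. -/
noncomputable def phi_phJ (A : ℕ) (D D' : ℝ) (s : ℂ) : ℂ := (th A (s * D) - th A (s * D')) / s

lemma phi_one_le_norm_one_add {z : ℂ} (hz : 0 ≤ z.re) : 1 ≤ ‖1 + z‖ := by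
  have h := Complex.re_le_norm (1 + z)
  simp only [add_re, one_re] at h
  linarith

lemma phi_one_add_ne_zero {z : ℂ} (hz : 0 ≤ z.re) : (1 + z) ≠ 0 := by
  intro h
  have := phi_one_le_norm_one_add hz
  rw [h, norm_zero] at this
  linarith

lemma phi_re_mul_real (s : ℂ) (D : ℝ) : (s * D).re = s.re * D := by simp

lemma phi_im_mul_real (s : ℂ) (D : ℝ) : (s * D).im = s.im * D := by simp

lemma phi_norm_lin_le (A : ℕ) {z : ℂ} (hz : 0 ≤ z.re) :
    ‖1 + ((A : ℂ) + 1) * z‖ ≤ ((A : ℝ) + 1) * ‖1 + z‖ := by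
  have hA : (0 : ℝ) ≤ A := Nat.cast_nonneg A
  have h0 : 0 ≤ ((A : ℝ) + 1) * ‖1 + z‖ := by positivity
  rw [← sq_le_sq₀ (norm_nonneg _) h0, mul_pow, Complex.sq_norm, Complex.sq_norm,
    Complex.normSq_apply, Complex.normSq_apply]
  simp only [add_re, one_re, mul_re, natCast_re, add_im, natCast_im, one_im, add_zero, zero_mul,
    sub_zero, mul_im, zero_add]
  have h1 : 0 ≤ (A : ℝ) * z.re := mul_nonneg hA hz
  have h2 : 0 ≤ (A : ℝ) * ((A : ℝ) * z.re) := mul_nonneg hA h1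
  nlinarith [mul_nonneg hA hA]

/-- `|θ(z)| ≤ (C+2) e^{-Re z} |1+z|^{-C}` for `A = C + 1`. -/
lemma phi_th_le (C : ℕ) {z : ℂ} (hz : 0 ≤ z.re) :
    ‖th (C + 1) z‖ ≤ ((C : ℝ) + 2) * Real.exp (-z.re) / ‖1 + z‖ ^ C := by
  have h1 := phi_one_le_norm_one_add hz
  have hp : 0 < ‖1 + z‖ := by linarith
  have h2 := phi_norm_lin_le (C + 1) hz
  unfold th
  rw [norm_div, norm_mul, norm_pow, Complex.norm_exp, div_le_div_iff₀ (by positivity) (by positivity)]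
  simp only [neg_re]
  have h3 : ((C + 1 : ℕ) : ℝ) + 1 = (C : ℝ) + 2 := by push_cast; ring
  rw [h3] at h2
  have he := Real.exp_pos (-z.re)
  calc Real.exp (-z.re) * ‖1 + (((C + 1 : ℕ) : ℂ) + 1) * z‖ * ‖1 + z‖ ^ C
      ≤ Real.exp (-z.re) * (((C : ℝ) + 2) * ‖1 + z‖) * ‖1 + z‖ ^ C := by gcongr
    _ = ((C : ℝ) + 2) * Real.exp (-z.re) * ‖1 + z‖ ^ (C + 1) := by ring

lemma phi_th_le_exp (C : ℕ) {z : ℂ} (hz : 0 ≤ z.re) :
    ‖th (C + 1) z‖ ≤ ((C : ℝ) + 2) * Real.exp (-z.re) := by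
  refine (phi_th_le C hz).trans ?_
  have h1 : 1 ≤ ‖1 + z‖ ^ C := one_le_pow₀ (phi_one_le_norm_one_add hz)
  exact div_le_self (by positivity) h1

lemma phi_th_le_const (C : ℕ) {z : ℂ} (hz : 0 ≤ z.re) : ‖th (C + 1) z‖ ≤ (C : ℝ) + 2 := by
  refine (phi_th_le_exp C hz).trans ?_
  have : Real.exp (-z.re) ≤ 1 := Real.exp_le_one_iff.2 (by linarith)
  have h2 : (0 : ℝ) ≤ (C : ℝ) + 2 := by positivity
  nlinarith

lemma phi_pow_one_add_taylor (A : ℕ) {z : ℂ} (hz : ‖z‖ ≤ 1) :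
    ‖(1 + z) ^ A - 1 - (A : ℂ) * z‖ ≤ 3 ^ A * ‖z‖ ^ 2 := by
  induction A with
  | zero => simp
  | succ n ih =>
    have e : (1 + z) ^ (n + 1) - 1 - ((n + 1 : ℕ) : ℂ) * z
        = ((1 + z) ^ n - 1 - (n : ℂ) * z) * (1 + z) + (n : ℂ) * z ^ 2 := by
      push_cast; ring
    have h1 : ‖1 + z‖ ≤ 2 := by
      have := norm_add_le (1 : ℂ) z
      rw [norm_one] at this
      linarith
    have h2 : (n : ℝ) ≤ 3 ^ n := by
      have : n < 3 ^ n := Nat.lt_pow_self (by norm_num)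
      exact_mod_cast this.le
    rw [e]
    calc ‖((1 + z) ^ n - 1 - (n : ℂ) * z) * (1 + z) + (n : ℂ) * z ^ 2‖
        ≤ ‖(1 + z) ^ n - 1 - (n : ℂ) * z‖ * ‖1 + z‖ + (n : ℝ) * ‖z‖ ^ 2 := by
          refine (norm_add_le _ _).trans ?_
          rw [norm_mul, norm_mul, norm_pow, Complex.norm_natCast]
      _ ≤ 3 ^ n * ‖z‖ ^ 2 * 2 + 3 ^ n * ‖z‖ ^ 2 := by gcongr
      _ = 3 ^ (n + 1) * ‖z‖ ^ 2 := by ring

/-- The constant of `phi_th_sub_one`. -/
def phi_thC (C : ℕ) : ℝ := 2 * C + 5 + 3 ^ (C + 1)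

lemma phi_thC_ge (C : ℕ) : (C : ℝ) + 3 ≤ phi_thC C := by
  unfold phi_thC
  have : (0 : ℝ) ≤ 3 ^ (C + 1) := by positivity
  have : (0 : ℝ) ≤ C := Nat.cast_nonneg C
  linarith

lemma phi_thC_pos (C : ℕ) : 0 < phi_thC C := by
  have := phi_thC_ge C
  have : (0 : ℝ) ≤ C := Nat.cast_nonneg C
  linarith

/-- `|θ(z) - 1| ≤ C |z|^2` on the closed right half plane. -/
lemma phi_th_sub_one (C : ℕ) {z : ℂ} (hz : 0 ≤ z.re) :
    ‖th (C + 1) z - 1‖ ≤ phi_thC C * ‖z‖ ^ 2 := by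
  have hC : (0 : ℝ) ≤ C := Nat.cast_nonneg C
  rcases le_total ‖z‖ 1 with h | h
  · have hne : (1 + z) ^ (C + 1) ≠ 0 := pow_ne_zero _ (phi_one_add_ne_zero hz)
    have h1 : 1 ≤ ‖1 + z‖ ^ (C + 1) := one_le_pow₀ (phi_one_le_norm_one_add hz)
    have hr : ‖cexp (-z) - 1 - (-z)‖ ≤ ‖-z‖ ^ 2 :=
      Complex.norm_exp_sub_one_sub_id_le (by rwa [norm_neg])
    rw [norm_neg] at hr
    have hp := phi_pow_one_add_taylor (C + 1) h
    set r := cexp (-z) - 1 - (-z) with hrd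
    set q := (1 + z) ^ (C + 1) - 1 - ((C + 1 : ℕ) : ℂ) * z with hqd
    have e : th (C + 1) z - 1
        = (-(((C : ℂ) + 2) * z ^ 2) + r * (1 + ((C : ℂ) + 2) * z) - q) / (1 + z) ^ (C + 1) := by
      unfold th
      rw [eq_div_iff hne, sub_mul, div_mul_cancel₀ _ hne, hrd, hqd]
      push_cast; ring
    have hn : ‖(C : ℂ) + 2‖ ≤ (C : ℝ) + 2 := by
      refine (norm_add_le _ _).trans ?_
      simp
    have hl : ‖1 + ((C : ℂ) + 2) * z‖ ≤ (C : ℝ) + 3 := by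
      refine (norm_add_le _ _).trans ?_
      rw [norm_one, norm_mul]
      have : ‖(C : ℂ) + 2‖ * ‖z‖ ≤ ((C : ℝ) + 2) * 1 := by gcongr
      linarith
    rw [e, norm_div, norm_pow]
    refine (div_le_self (norm_nonneg _) h1).trans ?_
    calc ‖-(((C : ℂ) + 2) * z ^ 2) + r * (1 + ((C : ℂ) + 2) * z) - q‖
        ≤ ‖(C : ℂ) + 2‖ * ‖z‖ ^ 2 + ‖r‖ * ‖1 + ((C : ℂ) + 2) * z‖ + ‖q‖ := by
          refine (norm_sub_le _ _).trans ?_
          gcongr
          refine (norm_add_le _ _).trans ?_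
          rw [norm_neg, norm_mul, norm_mul, norm_pow]
      _ ≤ ((C : ℝ) + 2) * ‖z‖ ^ 2 + ‖z‖ ^ 2 * ((C : ℝ) + 3) + 3 ^ (C + 1) * ‖z‖ ^ 2 := by gcongr
      _ = phi_thC C * ‖z‖ ^ 2 := by unfold phi_thC; ring
  · have h1 : ‖th (C + 1) z - 1‖ ≤ (C : ℝ) + 3 := by
      refine (norm_sub_le _ _).trans ?_
      have := phi_th_le_const C hz
      rw [norm_one]; linarith
    have h2 : 1 ≤ ‖z‖ ^ 2 := one_le_pow₀ h
    have h3 := phi_thC_ge C
    have h4 := phi_thC_pos C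
    nlinarith

lemma phi_th_diffAt (A : ℕ) {z : ℂ} (hz : 0 ≤ z.re) : DifferentiableAt ℂ (th A) z := by
  unfold th
  refine DifferentiableAt.div (by fun_prop) (by fun_prop) (pow_ne_zero _ (phi_one_add_ne_zero hz))

lemma phi_ne_zero_of_re_pos {s : ℂ} (hs : 0 < s.re) : s ≠ 0 := by
  intro h; rw [h] at hs; simp at hs

lemma phi_th_mul_diffAt (A : ℕ) {D : ℝ} (hD : 0 ≤ D) {s : ℂ} (hs : 0 < s.re) :
    DifferentiableAt ℂ (fun s : ℂ => th A (s * D)) s := by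
  have h : 0 ≤ (s * D).re := by rw [phi_re_mul_real]; positivity
  exact DifferentiableAt.comp (f := fun s : ℂ => s * (D : ℂ)) s (phi_th_diffAt A h) (by fun_prop)

lemma phi_ph0_diffAt (A : ℕ) {D : ℝ} (hD : 0 ≤ D) {s : ℂ} (hs : 0 < s.re) :
    DifferentiableAt ℂ (phi_ph0 A D) s :=
  (phi_th_mul_diffAt A hD hs).div differentiableAt_id (phi_ne_zero_of_re_pos hs)

lemma phi_phJ_diffAt (A : ℕ) {D D' : ℝ} (hD : 0 ≤ D) (hD' : 0 ≤ D') {s : ℂ} (hs : 0 < s.re) :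
    DifferentiableAt ℂ (phi_phJ A D D') s :=
  ((phi_th_mul_diffAt A hD hs).sub (phi_th_mul_diffAt A hD' hs)).div differentiableAt_id
    (phi_ne_zero_of_re_pos hs)

lemma phi_phF_diffAt (A : ℕ) {D : ℝ} (hD : 0 ≤ D) {s : ℂ} (hs : 0 < s.re) :
    DifferentiableAt ℂ (phF A D) s :=
  ((differentiableAt_const _).sub (phi_th_mul_diffAt A hD hs)).div differentiableAt_id
    (phi_ne_zero_of_re_pos hs)

lemma phi_phS_diffAt (D : ℝ) {s : ℂ} (hs : 0 < s.re) : DifferentiableAt ℂ (phs D) s := by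
  unfold phs
  exact DifferentiableAt.div (by fun_prop) differentiableAt_id (phi_ne_zero_of_re_pos hs)

lemma phi_phM_diffAt (D : ℝ) {s : ℂ} (hs : 0 < s.re) : DifferentiableAt ℂ (phm D) s := by
  unfold phm
  exact DifferentiableAt.div (by fun_prop) differentiableAt_id (phi_ne_zero_of_re_pos hs)

/-- The pieces of section 9 add up to `1 / s`. -/
lemma phi_ph_sum (A : ℕ) (D : ℕ → ℝ) (J : ℕ) (s : ℂ) :
    phi_ph0 A (D 0) s + ∑ j ∈ Finset.range J, phi_phJ A (D (j + 1)) (D j) s + phF A (D J) s = 1 / s := by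
  induction J with
  | zero => simp only [phi_ph0, phF, Finset.range_zero, Finset.sum_empty]; ring
  | succ n ih =>
    rw [Finset.sum_range_succ, ← ih]
    simp only [phi_phJ, phF]; ring

/-- The pieces of section 6 add up to `1 / s`. -/
lemma phi_phS_add_phm (D : ℝ) (s : ℂ) : phs D s + phm D s = 1 / s := by
  simp only [phs, phm]; ring

/-! ### Far bounds -/

lemma phi_half_le_norm {e : ℝ} {s : ℂ} (hs : e / 2 ≤ s.re) : e / 2 ≤ ‖s‖ :=
  hs.trans (Complex.re_le_norm s)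

lemma phi_div_far {e : ℝ} (he : 0 < e) {s u : ℂ} (hs : e / 2 ≤ s.re) {M : ℝ} (hu : ‖u‖ ≤ M) :
    ‖u / s‖ ≤ 2 * M / e := by
  have h1 := phi_half_le_norm hs
  have hM : 0 ≤ M := (norm_nonneg _).trans hu
  rw [norm_div]
  calc ‖u‖ / ‖s‖ ≤ M / (e / 2) := by gcongr
    _ = 2 * M / e := by field_simp

lemma phi_ph0_far (C : ℕ) {e D : ℝ} (he : 0 < e) (hD : 0 ≤ D) {s : ℂ} (hs : e / 2 ≤ s.re) :
    ‖phi_ph0 (C + 1) D s‖ ≤ (2 * ((C : ℝ) + 2) / e) * Real.exp (-(D * s.re)) := by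
  have h0 : 0 ≤ (s * D).re := by
    rw [phi_re_mul_real]; exact mul_nonneg (by linarith) hD
  have h := phi_th_le_exp C h0
  rw [phi_re_mul_real, mul_comm s.re D] at h
  refine (phi_div_far he hs h).trans (le_of_eq ?_)
  ring

lemma phi_phJ_far (C : ℕ) {e D D' : ℝ} (he : 0 < e) (hD : 0 ≤ D) (hDD : D ≤ D') {s : ℂ}
    (hs : e / 2 ≤ s.re) :
    ‖phi_phJ (C + 1) D D' s‖ ≤ (4 * ((C : ℝ) + 2) / e) * Real.exp (-(D * s.re)) := by
  have hs0 : 0 ≤ s.re := by linarith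
  have h0 : 0 ≤ (s * D).re := by rw [phi_re_mul_real]; positivity
  have h0' : 0 ≤ (s * D').re := by
    rw [phi_re_mul_real]; exact mul_nonneg hs0 (hD.trans hDD)
  have h := phi_th_le_exp C h0
  have h' := phi_th_le_exp C h0'
  rw [phi_re_mul_real, mul_comm s.re D] at h
  rw [phi_re_mul_real, mul_comm s.re D'] at h'
  have h2 : Real.exp (-(D' * s.re)) ≤ Real.exp (-(D * s.re)) := by
    apply Real.exp_le_exp.2
    have := mul_le_mul_of_nonneg_right hDD hs0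
    linarith
  have h3 : ‖th (C + 1) (s * D) - th (C + 1) (s * D')‖
      ≤ 2 * (((C : ℝ) + 2) * Real.exp (-(D * s.re))) := by
    refine (norm_sub_le _ _).trans ?_
    have : ((C : ℝ) + 2) * Real.exp (-(D' * s.re)) ≤ ((C : ℝ) + 2) * Real.exp (-(D * s.re)) := by
      gcongr
    linarith
  refine (phi_div_far he hs h3).trans (le_of_eq ?_)
  ring

lemma phi_norm_mul_real (s : ℂ) {D : ℝ} (hD : 0 ≤ D) : ‖s * D‖ = ‖s‖ * D := by
  rw [norm_mul, Complex.norm_real, Real.norm_of_nonneg hD]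

/-- `|φ_F(s)| ≤ C |s| Δ^2`. -/
lemma phi_phF_le (C : ℕ) {D : ℝ} (hD : 0 ≤ D) {s : ℂ} (hs : 0 < s.re) :
    ‖phF (C + 1) D s‖ ≤ phi_thC C * D ^ 2 * ‖s‖ := by
  have h0 : 0 ≤ (s * D).re := by rw [phi_re_mul_real]; positivity
  have h := phi_th_sub_one C h0
  have hp : 0 < ‖s‖ := norm_pos_iff.2 (phi_ne_zero_of_re_pos hs)
  unfold phF
  rw [norm_div, norm_sub_rev, div_le_iff₀ hp]
  refine h.trans (le_of_eq ?_)
  rw [phi_norm_mul_real s hD]; ring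

/-- `|φ_F(s)| ≤ C Δ` on the right half plane. -/
lemma phi_phF_far (C : ℕ) {D : ℝ} (hD : 0 ≤ D) {s : ℂ} (hs : 0 < s.re) :
    ‖phF (C + 1) D s‖ ≤ phi_thC C * D := by
  have hp : 0 < ‖s‖ := norm_pos_iff.2 (phi_ne_zero_of_re_pos hs)
  have hc := phi_thC_pos C
  rcases le_total (‖s‖ * D) 1 with h | h
  · refine (phi_phF_le C hD hs).trans ?_
    calc phi_thC C * D ^ 2 * ‖s‖ = phi_thC C * D * (‖s‖ * D) := by ring
      _ ≤ phi_thC C * D * 1 := by gcongr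
      _ = phi_thC C * D := by ring
  · have h0 : 0 ≤ (s * D).re := by rw [phi_re_mul_real]; positivity
    have h1 : ‖1 - th (C + 1) (s * D)‖ ≤ phi_thC C := by
      refine (norm_sub_le _ _).trans ?_
      have := phi_th_le_const C h0
      have := phi_thC_ge C
      rw [norm_one]; linarith
    unfold phF
    rw [norm_div, div_le_iff₀ hp]
    calc ‖1 - th (C + 1) (s * D)‖ ≤ phi_thC C * 1 := by linarith
      _ ≤ phi_thC C * (‖s‖ * D) := by gcongr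
      _ = phi_thC C * D * ‖s‖ := by ring

lemma phi_phS_far {e : ℝ} (he : 0 < e) (D : ℝ) {s : ℂ} (hs : e / 2 ≤ s.re) :
    ‖phs D s‖ ≤ (2 / e) * Real.exp (-(D * s.re)) := by
  have h : ‖cexp (-(s * D))‖ ≤ Real.exp (-(D * s.re)) := by
    rw [Complex.norm_exp, neg_re, phi_re_mul_real, mul_comm]
  refine (phi_div_far he hs h).trans (le_of_eq ?_)
  ring

lemma phi_norm_one_sub_exp_le {z : ℂ} (hz : 0 ≤ z.re) : ‖1 - cexp (-z)‖ ≤ 2 * ‖z‖ := by
  rcases le_total ‖z‖ 1 with h | h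
  · rw [norm_sub_rev]
    have := Complex.norm_exp_sub_one_le (x := -z) (by rwa [norm_neg])
    rwa [norm_neg] at this
  · refine (norm_sub_le _ _).trans ?_
    rw [norm_one, Complex.norm_exp, neg_re]
    have : Real.exp (-z.re) ≤ 1 := Real.exp_le_one_iff.2 (by linarith)
    linarith

/-- `|φ_M(s)| ≤ 2 Δ` on the right half plane. -/
lemma phi_phM_far {D : ℝ} (hD : 0 ≤ D) {s : ℂ} (hs : 0 < s.re) : ‖phm D s‖ ≤ 2 * D := by
  have hp : 0 < ‖s‖ := norm_pos_iff.2 (phi_ne_zero_of_re_pos hs)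
  have h0 : 0 ≤ (s * D).re := by rw [phi_re_mul_real]; positivity
  have h := phi_norm_one_sub_exp_le h0
  unfold phm
  rw [norm_div, div_le_iff₀ hp]
  refine h.trans (le_of_eq ?_)
  rw [phi_norm_mul_real s hD]; ring

/-! ### Near bounds -/

lemma phi_near_re {e t : ℝ} {s : ℂ} (hs : ‖s - (e + t * I)‖ ≤ e / 2) :
    e / 2 ≤ s.re ∧ s.re ≤ 3 * e / 2 := by
  have h := (Complex.abs_re_le_norm (s - (e + t * I))).trans hs
  simp only [sub_re, add_re, ofReal_re, mul_re, I_re, mul_zero, ofReal_im, I_im, mul_one, sub_self,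
    add_zero] at h
  rw [abs_le] at h
  constructor <;> linarith [h.1, h.2]

lemma phi_near_im {e t : ℝ} {s : ℂ} (hs : ‖s - (e + t * I)‖ ≤ e / 2) : |s.im - t| ≤ e / 2 := by
  have h := (Complex.abs_im_le_norm (s - (e + t * I))).trans hs
  simpa using h

lemma phi_near_norm {e t : ℝ} {s : ℂ} (hs : ‖s - (e + t * I)‖ ≤ e / 2) :
    ‖s‖ ≤ 3 / 2 * ‖(e : ℂ) + t * I‖ := by
  have h1 : e ≤ ‖(e : ℂ) + t * I‖ := by
    have := Complex.re_le_norm ((e : ℂ) + t * I)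
    simpa using this
  have h2 : ‖s‖ ≤ ‖s - (e + t * I)‖ + ‖(e : ℂ) + t * I‖ := by
    have := norm_add_le (s - (e + t * I)) ((e : ℂ) + t * I)
    rwa [sub_add_cancel] at this
  linarith

lemma phi_near_lam {e t l D : ℝ} (he : 0 < e) (hl : 0 ≤ l) (hel : e * l ≤ 1) (hlD : l ≤ D) {s : ℂ}
    (hs : ‖s - (e + t * I)‖ ≤ e / 2) : 1 + l * |t| ≤ 3 * ‖1 + s * D‖ := by
  have hD : 0 ≤ D := hl.trans hlD
  have hre := (phi_near_re hs).1
  have h0 : 0 ≤ (s * D).re := by rw [phi_re_mul_real]; exact mul_nonneg (by linarith) hD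
  have h1 := phi_one_le_norm_one_add h0
  have h2 : |s.im| * D ≤ ‖1 + s * D‖ := by
    have := Complex.abs_im_le_norm (1 + s * D)
    rw [add_im, one_im, zero_add, phi_im_mul_real, abs_mul, abs_of_nonneg hD] at this
    exact this
  have h3 : |t| ≤ |s.im| + e / 2 := by
    have := phi_near_im hs
    have h4 := abs_sub_abs_le_abs_sub t s.im
    rw [abs_sub_comm] at this
    linarith
  have h5 : l * |t| ≤ l * (|s.im| + e / 2) := by gcongr
  have h6 : l * |s.im| ≤ D * |s.im| := by gcongr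
  nlinarith

lemma phi_th_near (C : ℕ) {e t l D : ℝ} (he : 0 < e) (hl : 0 ≤ l) (hel : e * l ≤ 1) (hlD : l ≤ D)
    {s : ℂ} (hs : ‖s - (e + t * I)‖ ≤ e / 2) :
    ‖th (C + 1) (s * D)‖ ≤ ((C : ℝ) + 2) * 3 ^ C / (1 + l * |t|) ^ C := by
  have hD : 0 ≤ D := hl.trans hlD
  have hre := (phi_near_re hs).1
  have h0 : 0 ≤ (s * D).re := by rw [phi_re_mul_real]; exact mul_nonneg (by linarith) hD
  have h1 := phi_one_le_norm_one_add h0
  have h2 := phi_near_lam he hl hel hlD hs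
  have hp : 0 < 1 + l * |t| := by positivity
  refine (phi_th_le C h0).trans ?_
  have h3 : Real.exp (-(s * D).re) ≤ 1 := Real.exp_le_one_iff.2 (by linarith)
  rw [div_le_div_iff₀ (by positivity) (by positivity)]
  calc ((C : ℝ) + 2) * Real.exp (-(s * D).re) * (1 + l * |t|) ^ C
      ≤ ((C : ℝ) + 2) * 1 * (3 * ‖1 + s * D‖) ^ C := by gcongr
    _ = ((C : ℝ) + 2) * 3 ^ C * ‖1 + s * D‖ ^ C := by rw [mul_pow]; ring

/-- Near bound of `φ_0` (exponent `α = 0`). -/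
lemma phi_ph0_near (C : ℕ) {e t l D : ℝ} (he : 0 < e) (hl : 0 ≤ l) (hel : e * l ≤ 1) (hlD : l ≤ D)
    {s : ℂ} (hs : ‖s - (e + t * I)‖ ≤ e / 2) :
    ‖phi_ph0 (C + 1) D s‖ ≤ (2 * ((C : ℝ) + 2) * 3 ^ C / e) / (1 + l * |t|) ^ C := by
  refine (phi_div_far he (phi_near_re hs).1 (phi_th_near C he hl hel hlD hs)).trans (le_of_eq ?_)
  ring

/-- Near bound of `φ_j` (exponent `α = 1`). -/
lemma phi_phJ_near (C : ℕ) {e t l D D' : ℝ} (he : 0 < e) (hl : 0 ≤ l) (hel : e * l ≤ 1) (hlD : l ≤ D)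
    (hDD : D ≤ D') (hD3 : D' ≤ 3 * D) {s : ℂ} (hs : ‖s - (e + t * I)‖ ≤ e / 2) :
    ‖phi_phJ (C + 1) D D' s‖
      ≤ (15 * phi_thC C * 3 ^ C * D ^ 2) * ‖(e : ℂ) + t * I‖ / (1 + l * |t|) ^ C := by
  have hD : 0 ≤ D := hl.trans hlD
  have hD' : 0 ≤ D' := hD.trans hDD
  have hre := (phi_near_re hs).1
  have hs0 : 0 < s.re := by linarith
  have hp : 0 < ‖s‖ := norm_pos_iff.2 (phi_ne_zero_of_re_pos hs0)
  have hq : 0 < 1 + l * |t| := by positivity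
  have hc := phi_thC_pos C
  have hn := phi_near_norm hs
  have key : ‖th (C + 1) (s * D) - th (C + 1) (s * D')‖
      ≤ 10 * phi_thC C * 3 ^ C * (‖s‖ * D) ^ 2 / (1 + l * |t|) ^ C := by
    rcases le_total (‖s‖ * D) 1 with h | h
    · have h0 : 0 ≤ (s * D).re := by rw [phi_re_mul_real]; positivity
      have h0' : 0 ≤ (s * D').re := by rw [phi_re_mul_real]; positivity
      have h1 := phi_th_sub_one C h0
      have h2 := phi_th_sub_one C h0'
      rw [phi_norm_mul_real s hD] at h1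
      rw [phi_norm_mul_real s hD'] at h2
      have h3 : (‖s‖ * D') ^ 2 ≤ (‖s‖ * (3 * D)) ^ 2 := by gcongr
      have h4 : ‖th (C + 1) (s * D) - th (C + 1) (s * D')‖ ≤ 10 * phi_thC C * (‖s‖ * D) ^ 2 := by
        have e1 : th (C + 1) (s * D) - th (C + 1) (s * D')
            = (th (C + 1) (s * D) - 1) - (th (C + 1) (s * D') - 1) := by ring
        rw [e1]
        refine (norm_sub_le _ _).trans ?_
        have h5 : phi_thC C * (‖s‖ * D') ^ 2 ≤ phi_thC C * (‖s‖ * (3 * D)) ^ 2 := by gcongr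
        have h6 : phi_thC C * (‖s‖ * (3 * D)) ^ 2 = 9 * (phi_thC C * (‖s‖ * D) ^ 2) := by ring
        linarith
      have h7 : 1 + l * |t| ≤ 3 := by
        have h8 : |t| ≤ |s.im| + e / 2 := by
          have := phi_near_im hs
          have h4 := abs_sub_abs_le_abs_sub t s.im
          rw [abs_sub_comm] at this
          linarith
        have h9 : |s.im| ≤ ‖s‖ := Complex.abs_im_le_norm s
        have h10 : l * |t| ≤ l * (‖s‖ + e / 2) := by gcongr; linarith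
        have h11 : l * ‖s‖ ≤ D * ‖s‖ := by gcongr
        nlinarith
      rw [le_div_iff₀ (by positivity)]
      calc ‖th (C + 1) (s * D) - th (C + 1) (s * D')‖ * (1 + l * |t|) ^ C
          ≤ 10 * phi_thC C * (‖s‖ * D) ^ 2 * 3 ^ C := by gcongr
        _ = 10 * phi_thC C * 3 ^ C * (‖s‖ * D) ^ 2 := by ring
    · have h1 := phi_th_near C he hl hel hlD hs
      have h2 := phi_th_near C he hl hel (hlD.trans hDD) hs
      have h3 : 1 ≤ (‖s‖ * D) ^ 2 := one_le_pow₀ h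
      have h4 := phi_thC_ge C
      have hC : (0 : ℝ) ≤ C := Nat.cast_nonneg C
      refine (norm_sub_le _ _).trans ?_
      calc ‖th (C + 1) (s * D)‖ + ‖th (C + 1) (s * D')‖
          ≤ ((C : ℝ) + 2) * 3 ^ C / (1 + l * |t|) ^ C
            + ((C : ℝ) + 2) * 3 ^ C / (1 + l * |t|) ^ C := add_le_add h1 h2
        _ = (2 * ((C : ℝ) + 2)) * 3 ^ C * 1 / (1 + l * |t|) ^ C := by ring
        _ ≤ 10 * phi_thC C * 3 ^ C * (‖s‖ * D) ^ 2 / (1 + l * |t|) ^ C := by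
          have h5 : 2 * ((C : ℝ) + 2) ≤ 10 * phi_thC C := by linarith
          gcongr
  unfold phi_phJ
  rw [norm_div, div_le_iff₀ hp]
  refine key.trans ?_
  calc 10 * phi_thC C * 3 ^ C * (‖s‖ * D) ^ 2 / (1 + l * |t|) ^ C
      = 10 * phi_thC C * 3 ^ C * D ^ 2 * ‖s‖ / (1 + l * |t|) ^ C * ‖s‖ := by ring
    _ ≤ 10 * phi_thC C * 3 ^ C * D ^ 2 * (3 / 2 * ‖(e : ℂ) + t * I‖) / (1 + l * |t|) ^ C * ‖s‖ := by
      gcongr
    _ = 15 * phi_thC C * 3 ^ C * D ^ 2 * ‖(e : ℂ) + t * I‖ / (1 + l * |t|) ^ C * ‖s‖ := by ring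

/-- Near bound of `φ_F` (exponent `α = 1`, `λ = 0`). -/
lemma phi_phF_near (C : ℕ) {e t D : ℝ} (he : 0 < e) (hD : 0 ≤ D) {s : ℂ}
    (hs : ‖s - (e + t * I)‖ ≤ e / 2) :
    ‖phF (C + 1) D s‖ ≤ (2 * phi_thC C * D ^ 2) * ‖(e : ℂ) + t * I‖ := by
  have hre := (phi_near_re hs).1
  have hc := phi_thC_pos C
  have hn := phi_near_norm hs
  refine (phi_phF_le C hD (by linarith)).trans ?_
  calc phi_thC C * D ^ 2 * ‖s‖ ≤ phi_thC C * D ^ 2 * (2 * ‖(e : ℂ) + t * I‖) := by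
        gcongr
        have := norm_nonneg ((e : ℂ) + t * I)
        linarith
    _ = 2 * phi_thC C * D ^ 2 * ‖(e : ℂ) + t * I‖ := by ring

end Pool.Agent.QM
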