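import Pool.Agent.P.MP_ea46f5_nt.QM.Gauss
import Pool.Agent.P.MP_ea46f5_nt.QM.S1

/-!
The Poisson step, first part: the dual sum and the bound P2.
-/

namespace Pool.Agent.QM.Po

open Real Finset NumberTheorySymbols MeasureTheory

/-- The primes dividing `n` to an odd exponent. -/
def PO (n : ℕ) : Finset ℕ := n.primeFactors.filter fun p => Odd (n.factorization p)

/-- The primes dividing `n` to an even exponent. -/
def PE (n : ℕ) : Finset ℕ := n.primeFactors.filter fun p => ¬ Odd (n.factorization p)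

/-- The squarefree part. -/
def sf (n : ℕ) : ℕ := ∏ p ∈ PO n, p

theorem PO_prime {n p : ℕ} (h : p ∈ PO n) : p.Prime :=
  Nat.prime_of_mem_primeFactors (mem_filter.1 h).1

theorem PE_prime {n p : ℕ} (h : p ∈ PE n) : p.Prime :=
  Nat.prime_of_mem_primeFactors (mem_filter.1 h).1

theorem prod_primes_pos {s : Finset ℕ} (hs : ∀ p ∈ s, p.Prime) : 0 < ∏ p ∈ s, p :=
  prod_pos fun p hp => (hs p hp).pos

theorem sf_pos (n : ℕ) : 0 < sf n := prod_primes_pos fun _ h => PO_prime h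

theorem sf_squarefree (n : ℕ) : Squarefree (sf n) := by
  unfold sf
  refine Finset.squarefree_prod_of_pairwise_isCoprime (fun p hp q hq hpq => ?_)
    (fun p hp => (PO_prime hp).prime.squarefree)
  exact Nat.coprime_iff_isRelPrime.1 ((Nat.coprime_primes (PO_prime hp) (PO_prime hq)).2 hpq)

theorem sf_dvd (n : ℕ) : sf n ∣ n :=
  (prod_dvd_prod_of_subset _ _ _ (filter_subset _ _)).trans (Nat.prod_primeFactors_dvd n)

theorem sf_odd {n : ℕ} (hn : Odd n) : Odd (sf n) := hn.of_dvd_nat (sf_dvd n)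

theorem jac_prod (m : ℤ) (s : Finset ℕ) (f : ℕ → ℕ) (hf : ∀ p ∈ s, f p ≠ 0) :
    J(m | ∏ p ∈ s, f p) = ∏ p ∈ s, J(m | f p) := by
  induction s using Finset.induction_on with
  | empty => simp
  | insert a s ha ih =>
    rw [prod_insert ha, prod_insert ha, jacobiSym.mul_right' m (hf a (mem_insert_self _ _))
      (prod_ne_zero_iff.2 fun p hp => hf p (mem_insert_of_mem hp)),
      ih fun p hp => hf p (mem_insert_of_mem hp)]

theorem jac_prime_eq_zero {p : ℕ} (hp : p.Prime) (m : ℤ) : J(m | p) = 0 ↔ (p : ℤ) ∣ m := by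
  have := Fact.mk hp
  rw [← jacobiSym.legendreSym.to_jacobiSym, legendreSym.eq_zero_iff,
    ZMod.intCast_zmod_eq_zero_iff_dvd]

theorem jac_split {n : ℕ} (hn : n ≠ 0) (m : ℤ) :
    (J(m | n) : ℝ) = J(m | sf n) * ∏ p ∈ PE n, ((if (p : ℤ) ∣ m then -1 else 0) + 1 : ℝ) := by
  have h1 : J(m | n) = ∏ p ∈ n.primeFactors, J(m | p) ^ n.factorization p := by
    conv_lhs => rw [← Nat.prod_factorization_pow_eq_self hn]
    rw [Finsupp.prod, Nat.support_factorization, jac_prod _ _ _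
      (fun p hp => pow_ne_zero _ (Nat.prime_of_mem_primeFactors hp).ne_zero)]
    exact prod_congr rfl fun p _ => jacobiSym.pow_right _ _ _
  rw [h1, ← prod_filter_mul_prod_filter_not n.primeFactors (fun p => Odd (n.factorization p)),
    sf, jac_prod m _ (fun p => p) (fun p hp => (PO_prime hp).ne_zero)]
  push_cast
  congr 1
  · refine prod_congr rfl fun p hp => ?_
    have ho := (mem_filter.1 hp).2
    rcases jacobiSym.trichotomy m p with h | h | h <;> rw [h]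
    · simp [ho.pos.ne']
    · simp
    · simp [ho.neg_one_pow]
  · refine prod_congr rfl fun p hp => ?_
    have he := Nat.not_odd_iff_even.1 (mem_filter.1 hp).2
    have hp' := PE_prime hp
    have hv : n.factorization p ≠ 0 := by
      have := (mem_filter.1 hp).1
      rwa [← Nat.support_factorization, Finsupp.mem_support_iff] at this
    by_cases hd : (p : ℤ) ∣ m
    · rw [if_pos hd, (jac_prime_eq_zero hp' m).2 hd]; simp [hv]
    · rw [if_neg hd]
      rcases jacobiSym.trichotomy m p with h | h | h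
      · exact absurd ((jac_prime_eq_zero hp' m).1 h) hd
      · simp [h]
      · simp [h, he.neg_one_pow]

theorem prod_ite_dvd {R : Type*} [CommRing R] {s : Finset ℕ} (hs : ∀ p ∈ s, p.Prime) (H : ℤ)
    (c : ℕ → R) : ∏ p ∈ s, (if (p : ℤ) ∣ H then c p else 0) =
      if ((∏ p ∈ s, p : ℕ) : ℤ) ∣ H then ∏ p ∈ s, c p else 0 := by
  by_cases h : ∀ p ∈ s, (p : ℤ) ∣ H
  · rw [if_pos, prod_congr rfl fun p hp => if_pos (h p hp)]
    rw [Int.natCast_dvd]
    exact Finset.prod_primes_dvd _ (fun p hp => (hs p hp).prime)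
      fun p hp => Int.natCast_dvd.1 (h p hp)
  · rw [if_neg]
    · push Not at h
      obtain ⟨p, hp, hd⟩ := h
      exact prod_eq_zero hp (if_neg hd)
    · intro hd
      exact h fun p hp => (Int.natCast_dvd_natCast.2 (dvd_prod_of_mem _ hp)).trans hd

theorem sieve_prod {R : Type*} [CommRing R] {Q : Finset ℕ} (hQ : ∀ p ∈ Q, p.Prime) (H : ℤ)
    (a c : ℕ → R) : ∏ p ∈ Q, ((if (p : ℤ) ∣ H then c p else 0) + a p) =
      ∑ s ∈ Q.powerset, (if ((∏ p ∈ s, p : ℕ) : ℤ) ∣ H then ∏ p ∈ s, c p else 0) *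
        ∏ p ∈ Q \ s, a p := by
  rw [prod_add]
  exact sum_congr rfl fun s hs => by
    rw [prod_ite_dvd fun p hp => hQ p (mem_powerset.1 hs hp)]

theorem hasSum_dvd {e : ℕ} (he : 0 < e) (n : ℕ) {u : ℝ} (hu : 0 < u) :
    HasSum (fun m : ℤ => if (e : ℤ) ∣ m then (J(m | n) : ℝ) * exp (-π * (m : ℝ) ^ 2 * u) else 0)
      (J(e | n) * ∑' m : ℤ, (J(m | n) : ℝ) * exp (-π * (m : ℝ) ^ 2 * ((e : ℝ) ^ 2 * u))) := by
  have he' : (0 : ℝ) < e := by exact_mod_cast he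
  have hinj : Function.Injective fun m : ℤ => (e : ℤ) * m :=
    mul_right_injective₀ (by exact_mod_cast he.ne')
  rw [← hinj.hasSum_iff]
  · refine ((summable_jac n (y := (e : ℝ) ^ 2 * u) (by positivity)).hasSum.mul_left
      (J(e | n) : ℝ)).congr_fun fun m => ?_
    simp only [Function.comp, dvd_mul_right, if_true, jacobiSym.mul_left]
    push_cast
    rw [mul_assoc]
    congr 3
    ring
  · intro m hm
    exact if_neg fun ⟨c, hc⟩ => hm ⟨c, hc.symm⟩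

theorem theta_jac_odd {n : ℕ} (ho : Odd n) (hs : Squarefree n) {y : ℝ} (hy : 0 < y) :
    ∑' m : ℤ, (J(m | n) : ℝ) * exp (-π * (m : ℝ) ^ 2 * y) =
      (√(n * y))⁻¹ * ∑' h : ℤ, (J(h | n) : ℝ) * exp (-π * (h : ℝ) ^ 2 * (1 / ((n : ℝ) ^ 2 * y))) := by
  by_cases h4 : n % 4 = 1
  · exact theta_jac h4 hs hy
  · have h3 : n % 4 = 3 := by have := Nat.odd_iff.1 ho; omega
    have h0 : ∀ u : ℝ, ∑' m : ℤ, (J(m | n) : ℝ) * exp (-π * (m : ℝ) ^ 2 * u) = 0 := by
      intro u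
      have h := (Equiv.neg ℤ).tsum_eq fun m : ℤ => (J(m | n) : ℝ) * exp (-π * (m : ℝ) ^ 2 * u)
      simp only [Equiv.neg_apply, jacobiSym.neg _ ho, ZMod.χ₄_nat_three_mod_four h3, Int.cast_neg,
        neg_mul, one_mul, even_two, Even.neg_pow, tsum_neg] at h
      simp only [neg_mul]
      linarith
    rw [h0, h0, mul_zero]

theorem gauss_tail {u : ℝ} (hu : 0 < u) (N : ℕ) :
    ∑ i ∈ range N, exp (-π * ((i : ℝ) + 1) ^ 2 * u) ≤ (√u)⁻¹ / 2 := by
  have hanti : AntitoneOn (fun x : ℝ => exp (-(π * u) * x ^ 2)) (Set.Icc 0 (0 + (N : ℝ))) := by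
    intro x hx y _ hxy
    have := hx.1
    simp only
    rw [exp_le_exp, neg_mul, neg_mul, neg_le_neg_iff]
    gcongr
  have h := hanti.sum_le_integral
  have hi : IntegrableOn (fun x : ℝ => exp (-(π * u) * x ^ 2)) (Set.Ioi 0) :=
    (integrable_exp_neg_mul_sq (by positivity)).integrableOn
  have h2 : ∫ x in (0 : ℝ)..0 + (N : ℝ), exp (-(π * u) * x ^ 2) ≤
      ∫ x in Set.Ioi (0 : ℝ), exp (-(π * u) * x ^ 2) := by
    rw [intervalIntegral.integral_of_le (by simp)]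
    exact setIntegral_mono_set hi (Filter.Eventually.of_forall fun x => (exp_pos _).le)
      (Set.Ioc_subset_Ioi_self.eventuallyLE)
  rw [integral_gaussian_Ioi, div_mul_cancel_left₀ pi_ne_zero, sqrt_inv] at h2
  refine le_trans (le_of_eq (sum_congr rfl fun i _ => ?_)) (h.trans h2)
  congr 1
  push_cast
  ring

theorem theta_sub_le (n : ℕ) {u : ℝ} (hu : 0 < u) :
    |∑' h : ℤ, (J(h | n) : ℝ) * exp (-π * (h : ℝ) ^ 2 * u) - J(0 | n)| ≤ (√u)⁻¹ := by
  have hg : Summable fun i : ℕ => exp (-π * ((i : ℝ) + 1) ^ 2 * u) :=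
    summable_of_sum_range_le (fun _ => (exp_pos _).le) (gauss_tail hu)
  have hg2 : ∑' i : ℕ, exp (-π * ((i : ℝ) + 1) ^ 2 * u) ≤ (√u)⁻¹ / 2 :=
    Real.tsum_le_of_sum_range_le (fun _ => (exp_pos _).le) (gauss_tail hu)
  have key : ∀ f : ℕ → ℤ, (∀ i, ((f i : ℤ) : ℝ) ^ 2 = ((i : ℝ) + 1) ^ 2) →
      (Summable fun i : ℕ => (J(f i | n) : ℝ) * exp (-π * ((f i : ℤ) : ℝ) ^ 2 * u)) ∧
      |∑' i : ℕ, (J(f i | n) : ℝ) * exp (-π * ((f i : ℤ) : ℝ) ^ 2 * u)| ≤ (√u)⁻¹ / 2 := by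
    intro f hf
    have hb : ∀ i, ‖(J(f i | n) : ℝ) * exp (-π * ((f i : ℤ) : ℝ) ^ 2 * u)‖ ≤
        exp (-π * ((i : ℝ) + 1) ^ 2 * u) := fun i => by
      rw [norm_mul, Real.norm_eq_abs, Real.norm_of_nonneg (exp_pos _).le, hf]
      exact mul_le_of_le_one_left (exp_pos _).le (abs_jac_le _ n)
    exact ⟨hg.of_norm_bounded hb, (tsum_of_norm_bounded hg.hasSum hb).trans hg2⟩
  obtain ⟨a1, a2⟩ := key (fun i => i + 1) (fun i => by push_cast; ring)
  obtain ⟨b1, b2⟩ := key (fun i => -(i + 1)) (fun i => by push_cast; ring)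
  rw [tsum_of_add_one_of_neg_add_one
    (f := fun h : ℤ => (J(h | n) : ℝ) * exp (-π * (h : ℝ) ^ 2 * u)) a1 b1]
  rw [abs_le] at a2 b2 ⊢
  simp only [Int.cast_zero, ne_eq, OfNat.ofNat_ne_zero, not_false_eq_true, zero_pow, mul_zero,
    zero_mul, exp_zero, mul_one]
  constructor <;> linarith [a2.1, a2.2, b2.1, b2.2]

/-- The terms of the dual sum. -/
noncomputable def WW (X : ℝ) (n : ℕ) (H : ℤ) : ℝ :=
  ∑ s ∈ (PE n).powerset, (√(sf n))⁻¹ * (∏ p ∈ s, (-1 / p : ℝ)) *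
    if ((∏ p ∈ s, p : ℕ) : ℤ) ∣ H then (J(H | sf n) : ℝ) *
      exp (-π * (H : ℝ) ^ 2 * (X ^ 2 / ((sf n : ℝ) ^ 2 * ((∏ p ∈ s, p : ℕ) : ℝ) ^ 4))) else 0

theorem SS_eq {X : ℝ} (hX : 0 < X) {n : ℕ} (hn : Odd n) :
    Sg X n / X = ∑ s ∈ (PE n).powerset, (√(sf n))⁻¹ * (∏ p ∈ s, (-1 / p : ℝ)) *
      (J((∏ p ∈ s, p : ℕ) | sf n) * ∑' h : ℤ, (J(h | sf n) : ℝ) * exp (-π * (h : ℝ) ^ 2 *
        (X ^ 2 / ((sf n : ℝ) ^ 2 * ((∏ p ∈ s, p : ℕ) : ℝ) ^ 2)))) := by
  have hn0 : (0 : ℝ) < sf n := by exact_mod_cast sf_pos n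
  have h1 := hasSum_sum (s := (PE n).powerset) fun s hs =>
    (hasSum_dvd (prod_primes_pos fun p hp => PE_prime (mem_powerset.1 hs hp)) (sf n)
      (u := 1 / X ^ 2) (by positivity)).mul_left (∏ _p ∈ s, (-1 : ℝ))
  have h2 : Sg X n = _ := (h1.congr_fun fun m => ?_).tsum_eq
  · rw [h2, sum_div]
    refine sum_congr rfl fun s hs => ?_
    have he : (0 : ℝ) < (∏ p ∈ s, p : ℕ) := by
      exact_mod_cast prod_primes_pos fun p hp => PE_prime (mem_powerset.1 hs hp)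
    rw [theta_jac_odd (sf_odd hn) (sf_squarefree n) (by positivity), prod_div_distrib,
      ← Nat.cast_prod (fun p => p) s]
    set e : ℝ := ((∏ p ∈ s, p : ℕ) : ℝ)
    have e1 : √(sf n * (e ^ 2 * (1 / X ^ 2))) = √(sf n) * (e / X) := by
      rw [sqrt_mul hn0.le, show e ^ 2 * (1 / X ^ 2) = (e / X) ^ 2 by field_simp,
        sqrt_sq (by positivity)]
    have e2 : 1 / ((sf n : ℝ) ^ 2 * (e ^ 2 * (1 / X ^ 2))) = X ^ 2 / ((sf n : ℝ) ^ 2 * e ^ 2) := by
      field_simp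
    have : 0 < √(sf n : ℝ) := sqrt_pos.2 hn0
    rw [e1, e2]
    field_simp
  · rw [jac_split hn.pos.ne', sieve_prod (fun p hp => PE_prime hp), mul_sum, mul_sum]
    refine sum_congr rfl fun s _ => ?_
    unfold GX
    split_ifs
    · rw [prod_const_one, mul_one_div]; ring
    · simp

theorem hasSum_WW {X : ℝ} (hX : 0 < X) {n : ℕ} (hn : Odd n) : HasSum (WW X n) (Sg X n / X) := by
  have hn0 : (0 : ℝ) < sf n := by exact_mod_cast sf_pos n
  rw [SS_eq hX hn]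
  refine hasSum_sum fun s hs => HasSum.mul_left _ ?_
  have he0 := prod_primes_pos fun p hp => PE_prime (mem_powerset.1 hs hp)
  have he : (0 : ℝ) < (∏ p ∈ s, p : ℕ) := by exact_mod_cast he0
  have h := hasSum_dvd he0 (sf n)
    (u := X ^ 2 / ((sf n : ℝ) ^ 2 * ((∏ p ∈ s, p : ℕ) : ℝ) ^ 4)) (by positivity)
  have e2 : ((∏ p ∈ s, p : ℕ) : ℝ) ^ 2 * (X ^ 2 / ((sf n : ℝ) ^ 2 * ((∏ p ∈ s, p : ℕ) : ℝ) ^ 4)) =
      X ^ 2 / ((sf n : ℝ) ^ 2 * ((∏ p ∈ s, p : ℕ) : ℝ) ^ 2) := by field_simp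
  rwa [e2] at h

theorem Tk_split (k : ℤ) (z : ℂ) (n : ℕ) :
    Tk k z n = (∏ p ∈ PO n, ok k z p) * ∏ p ∈ PE n, ek k z p := by
  rw [Tk, prod_ite]; rfl

theorem WW_zero_eq (X : ℝ) (n : ℕ) : WW X n 0 =
    ∑ s ∈ (PE n).powerset, (√(sf n))⁻¹ * (∏ p ∈ s, (-1 / p : ℝ)) * J(0 | sf n) := by
  simp [WW]

theorem WW_zero (X : ℝ) (n : ℕ) : (WW X n 0 : ℂ) = Tk 1 0 n := by
  rw [WW_zero_eq, Tk_split, ← sum_mul, ← mul_sum, ← prod_one_add]
  by_cases h : PO n = ∅
  · have h1 : sf n = 1 := by rw [sf, h, prod_empty]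
    rw [h, h1]
    simp only [Nat.cast_one, sqrt_one, inv_one, one_mul, jacobiSym.one_right, Int.cast_one,
      mul_one, prod_empty]
    push_cast
    refine prod_congr rfl fun p hp => ?_
    rw [ek, if_neg (by rw [Int.natCast_dvd]; simpa using (PE_prime hp).one_lt.ne')]
    ring
  · obtain ⟨p, hp⟩ := nonempty_iff_ne_empty.2 h
    have h1 : 1 < sf n :=
      lt_of_lt_of_le (PO_prime hp).one_lt (Nat.le_of_dvd (sf_pos n) (dvd_prod_of_mem _ hp))
    rw [jacobiSym.zero_left h1, prod_eq_zero hp (by simp [ok])]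
    simp

theorem sf_mul_le {n : ℕ} (hn : n ≠ 0) : sf n * (2 ^ (PE n).card) ^ 2 ≤ n := by
  conv_rhs => rw [← Nat.prod_factorization_pow_eq_self hn]
  rw [Finsupp.prod, Nat.support_factorization,
    ← prod_filter_mul_prod_filter_not n.primeFactors (fun p => Odd (n.factorization p)),
    ← prod_const, ← prod_pow]
  refine Nat.mul_le_mul (prod_le_prod' fun p hp => ?_) (prod_le_prod' fun p hp => ?_)
  · exact Nat.le_self_pow (mem_filter.1 hp).2.pos.ne' p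
  · have he := Nat.not_odd_iff_even.1 (mem_filter.1 hp).2
    have hv : n.factorization p ≠ 0 := by
      have := (mem_filter.1 hp).1
      rwa [← Nat.support_factorization, Finsupp.mem_support_iff] at this
    have h2 : 2 ≤ n.factorization p := by obtain ⟨c, hc⟩ := he; omega
    exact (Nat.pow_le_pow_left (PE_prime hp).two_le 2).trans
      (Nat.pow_le_pow_right (PE_prime hp).pos h2)

theorem P2_real {X : ℝ} (hX : 0 < X) {n : ℕ} (hn : Odd n) : |Sg X n - X * WW X n 0| ≤ √n := by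
  have hn0 : (0 : ℝ) < sf n := by exact_mod_cast sf_pos n
  have hs : 0 < √(sf n : ℝ) := sqrt_pos.2 hn0
  have h1 : |Sg X n / X - WW X n 0| ≤ ∑ _s ∈ (PE n).powerset, √(sf n : ℝ) / X := by
    rw [SS_eq hX hn, WW_zero_eq, ← sum_sub_distrib]
    refine (abs_sum_le_sum_abs _ _).trans (sum_le_sum fun s hs' => ?_)
    have he : (0 : ℝ) < (∏ p ∈ s, p : ℕ) := by
      exact_mod_cast prod_primes_pos fun p hp => PE_prime (mem_powerset.1 hs' hp)
    have h0 : (J(0 | sf n) : ℝ) = J((∏ p ∈ s, p : ℕ) | sf n) * J(0 | sf n) := by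
      rw [← Int.cast_mul, ← jacobiSym.mul_left, mul_zero]
    have h2 := theta_sub_le (sf n)
      (u := X ^ 2 / ((sf n : ℝ) ^ 2 * ((∏ p ∈ s, p : ℕ) : ℝ) ^ 2)) (by positivity)
    have h3 := abs_jac_le ((∏ p ∈ s, p : ℕ) : ℤ) (sf n)
    rw [h0, ← mul_sub, ← mul_sub, abs_mul, abs_mul, abs_mul, prod_div_distrib,
      ← Nat.cast_prod (fun p => p) s, abs_div, abs_prod]
    set e : ℝ := ((∏ p ∈ s, p : ℕ) : ℝ)
    rw [show X ^ 2 / ((sf n : ℝ) ^ 2 * e ^ 2) = (X / (sf n * e)) ^ 2 by field_simp,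
      sqrt_sq (by positivity)] at h2
    rw [show X ^ 2 / ((sf n : ℝ) ^ 2 * e ^ 2) = (X / (sf n * e)) ^ 2 by field_simp]
    simp only [abs_neg, abs_one, prod_const_one, abs_of_pos he, abs_of_pos (inv_pos.2 hs)]
    calc _ ≤ (√(sf n : ℝ))⁻¹ * (1 / e) * (1 * (X / (sf n * e))⁻¹) := by gcongr
      _ = √(sf n : ℝ) / X := by
        field_simp
        rw [sq_sqrt hn0.le]
  rw [sum_const, card_powerset, nsmul_eq_mul] at h1
  have h2 : ((2 ^ (PE n).card : ℕ) : ℝ) * √(sf n : ℝ) ≤ √n := by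
    apply le_sqrt_of_sq_le
    rw [mul_pow, sq_sqrt hn0.le, mul_comm]
    exact_mod_cast sf_mul_le hn.pos.ne'
  calc |Sg X n - X * WW X n 0| = X * |Sg X n / X - WW X n 0| := by
        rw [← abs_of_pos hX, ← abs_mul, abs_of_pos hX]; congr 1; field_simp
    _ ≤ X * (((2 ^ (PE n).card : ℕ) : ℝ) * (√(sf n : ℝ) / X)) := by gcongr
    _ = ((2 ^ (PE n).card : ℕ) : ℝ) * √(sf n : ℝ) := by field_simp
    _ ≤ √n := h2

end Pool.Agent.QM.Po
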