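import Pool.Agent.P.MP_ea46f5_nt.QM.S2

namespace Pool.Agent.QM

open Finset

theorem z0_mom {p : ℕ} (v : ℕ) : ∑ y ∈ T3, mu0 p y * (y : ℝ) ^ v =
    if v = 0 then 1 else if Odd v then 0 else 1 - 1 / (p : ℝ) := by
  unfold T3
  rw [sum_insert (by decide), sum_insert (by decide), sum_singleton]
  simp only [mu0]
  rcases Nat.eq_zero_or_pos v with h | h
  · subst h
    norm_num
    ring
  · rw [if_neg h.ne']
    rcases Nat.even_or_odd v with hv | hv
    · rw [if_neg (Nat.not_odd_iff_even.2 hv)]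
      simp [hv.neg_one_pow, h.ne']
    · rw [if_pos hv]
      simp [hv.neg_one_pow, h.ne']

theorem z0_mon (hE : EXL) {P : Finset ℕ} {l : ℕ} (h : l.primeFactors ⊆ P) :
    Ex P mu0 (fun x => (mon x l : ℝ)) = T0 l := by
  have e : (fun x : ℕ → ℤ => (mon x l : ℝ)) =
      fun x => ∏ p ∈ P, (fun p (y : ℤ) => (y : ℝ) ^ l.factorization p) p (x p) := by
    funext x
    rw [hE.2.2.1 P x l h]
    push_cast
    rfl
  rw [e, hE.2.1 P mu0 (fun p (y : ℤ) => (y : ℝ) ^ l.factorization p)]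
  simp only [z0_mom]
  unfold T0
  symm
  refine prod_subset_one_on_sdiff h (fun p hp => if_pos ?_) fun p hp => (if_neg ?_).symm
  · rw [← Finsupp.notMem_support_iff, Nat.support_factorization]
    exact (mem_sdiff.1 hp).2
  · rwa [← ne_eq, ← Finsupp.mem_support_iff, Nat.support_factorization]

theorem pZ0 (hP2 : P2) (hEXL : EXL) : Z0 := by
  intro P B R X Y F hP hB hR hR0 hX
  obtain ⟨ι, _, l, r, h1, h2, h3⟩ := hR
  have hodd : ∀ i, Odd (l i) := fun i => by
    rw [← Nat.not_even_iff_odd, even_iff_two_dvd]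
    intro h
    exact (hP 2 ((h1 i).2 (Nat.mem_primeFactors.2 ⟨Nat.prime_two, h, (h1 i).1⟩))).2 rfl
  have hG : ∀ m, 0 ≤ GX X m := fun m => (Real.exp_pos _).le
  have hs : ∀ i, Summable fun m : ℤ => GX X m * (jacobiSym m (l i) : ℝ) := fun i => by
    refine (hP2 X 1 hX odd_one).1.of_norm_bounded fun m => ?_
    rw [norm_mul, Real.norm_of_nonneg (hG m)]
    refine mul_le_of_le_one_right (hG m) ?_
    rcases jacobiSym.trichotomy m (l i) with h | h | h <;> simp [h]
  have e : ∀ m : ℤ, GX X m * R (jv m) = ∑ i, r i * (GX X m * (jacobiSym m (l i) : ℝ)) := by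
    intro m
    rw [h2, mul_sum]
    refine sum_congr rfl fun i _ => ?_
    rw [hEXL.2.2.2.1 m _ (h1 i).1 (hodd i)]
    ring
  have hH : HasSum (fun m : ℤ => GX X m * R (jv m)) (∑ i, r i * Sg X (l i)) := by
    simp only [e]
    exact hasSum_sum fun i _ => (hs i).hasSum.mul_left _
  refine (sum_le_hasSum F (fun m _ => mul_nonneg (hG m) (hR0 _)) hH).trans ?_
  have e2 : Ex P mu0 R = ∑ i, r i * T0 (l i) := by
    have : ∀ i, r i * T0 (l i) = ∑ x ∈ Fintype.piFinset (fun _ : P => T3),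
        (∏ p : P, mu0 p (x p)) * (r i * (mon (ext0 P x) (l i) : ℝ)) := fun i => by
      rw [← z0_mon hEXL (h1 i).2]
      unfold Ex
      rw [mul_sum]
      exact sum_congr rfl fun x _ => by ring
    simp only [this]
    rw [sum_comm]
    unfold Ex
    exact sum_congr rfl fun x _ => by rw [h2, mul_sum]
  rw [e2, mul_sum]
  refine le_trans ?_ (add_le_add le_rfl h3)
  rw [← sum_add_distrib]
  refine sum_le_sum fun i _ => ?_
  have h4 := (hP2 X (l i) hX (hodd i)).2.2
  have h5 : (1 : ℝ) ≤ l i := by exact_mod_cast Nat.one_le_iff_ne_zero.2 (h1 i).1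
  have h6 : √(l i : ℝ) ≤ (l i : ℝ) ^ B := by
    refine le_trans ?_ (le_self_pow₀ h5 (by omega))
    rw [Real.sqrt_le_left (by linarith)]
    nlinarith
  have h7 : r i * (Sg X (l i) - X * T0 (l i)) ≤ |r i| * (l i : ℝ) ^ B := by
    refine (le_abs_self _).trans ?_
    rw [abs_mul]
    exact mul_le_mul_of_nonneg_left (h4.trans h6) (abs_nonneg _)
  linarith

end Pool.Agent.QM
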