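import Pool.Agent.P.MP_ea46f5_nt.LRGauss
import Pool.Agent.P.MP_27a476_gt.Gauss

/-!
The Gauss sum of the Jacobi symbol to a squarefree odd modulus, with its sign.
-/

namespace Pool.Agent.QM

open Real Finset NumberTheorySymbols Pool.Agent.LRes

/-- The twisted Gauss sum of the Jacobi symbol. -/
noncomputable def gsum (n : ℕ) [NeZero n] (h : ℤ) : ℂ :=
  ∑ a : ZMod n, (J((a.val : ℤ) | n) : ℂ) * ZMod.stdAddChar (a * (h : ZMod n))

/-- The sign of the Gauss sum. -/
noncomputable def gsgn (n : ℕ) : ℂ := if n % 4 = 1 then 1 else Complex.I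

theorem jac_val {n : ℕ} [NeZero n] (m : ℤ) : J((((m : ZMod n)).val : ℤ) | n) = J(m | n) := by
  rw [ZMod.val_intCast]
  exact (jacobiSym.mod_left m n).symm

theorem gsum_mul {x y : ℕ} [NeZero x] [NeZero y] [NeZero (x * y)] (hxy : Nat.Coprime x y)
    (m : ℤ) : gsum (x * y) m = (J(y | x) * J(x | y) : ℂ) * (gsum x m * gsum y m) := by
  have hx0 : (x : ℂ) ≠ 0 := by exact_mod_cast NeZero.ne x
  have hy0 : (y : ℂ) ≠ 0 := by exact_mod_cast NeZero.ne y
  let e : ZMod x × ZMod y → ZMod (x * y) :=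
    fun ab => ((ab.1.val * y + ab.2.val * x : ℤ) : ZMod (x * y))
  have hyx : IsUnit (y : ZMod x) := (ZMod.isUnit_iff_coprime y x).2 hxy.symm
  have hxy' : IsUnit (x : ZMod y) := (ZMod.isUnit_iff_coprime x y).2 hxy
  have hinj : Function.Injective e := by
    rintro ⟨a, b⟩ ⟨a', b'⟩ h
    have h1 := congrArg (ZMod.castHom (dvd_mul_right x y) (ZMod x)) h
    have h2 := congrArg (ZMod.castHom (dvd_mul_left y x) (ZMod y)) h
    simp only [e, map_intCast] at h1 h2
    push_cast at h1 h2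
    simp only [ZMod.natCast_val, ZMod.cast_id', id_eq, ZMod.natCast_self, mul_zero, add_zero,
      zero_add] at h1 h2
    exact Prod.ext (hyx.mul_right_cancel h1) (hxy'.mul_right_cancel h2)
  have hbij : Function.Bijective e :=
    (Fintype.bijective_iff_injective_and_card e).2 ⟨hinj, by simp [ZMod.card]⟩
  unfold gsum
  rw [← hbij.sum_comp, Fintype.sum_prod_type, sum_mul_sum, mul_sum]
  refine sum_congr rfl fun a _ => ?_
  rw [mul_sum]
  refine sum_congr rfl fun b _ => ?_
  have e1 : e (a, b) * (m : ZMod (x * y)) =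
      (((a.val * y + b.val * x) * m : ℤ) : ZMod (x * y)) := by simp [e]
  have e2 : a * (m : ZMod x) = ((a.val * m : ℤ) : ZMod x) := by push_cast; simp
  have e3 : b * (m : ZMod y) = ((b.val * m : ℤ) : ZMod y) := by push_cast; simp
  have e4 : J(a.val * y + b.val * x | x) = J(a.val | x) * J(y | x) := by
    rw [← jacobiSym.mul_left]
    apply jacobiSym.mod_left'
    simp
  have e5 : J(a.val * y + b.val * x | y) = J(b.val | y) * J(x | y) := by
    rw [← jacobiSym.mul_left]
    apply jacobiSym.mod_left'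
    rw [add_comm]
    simp
  rw [e1, e2, e3, ZMod.stdAddChar_coe, ZMod.stdAddChar_coe, ZMod.stdAddChar_coe]
  simp only [e]
  rw [jac_val, jacobiSym.mul_right, e4, e5]
  have e6 : Complex.exp (2 * π * Complex.I * (((a.val * y + b.val * x) * m : ℤ) : ℂ) /
      ((x * y : ℕ) : ℂ)) =
      Complex.exp (2 * π * Complex.I * ((a.val * m : ℤ) : ℂ) / (x : ℂ)) *
        Complex.exp (2 * π * Complex.I * ((b.val * m : ℤ) : ℂ) / (y : ℂ)) := by
    rw [← Complex.exp_add]
    congr 1
    push_cast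
    field_simp
  rw [e6]
  push_cast
  ring

theorem sum_sq_eq_gs {p : ℕ} [Fact p.Prime] (hp : p ≠ 2) :
    ∑ x : ZMod p, ZMod.stdAddChar (x ^ 2) = gs p := by
  have hc : ringChar (ZMod p) ≠ 2 := by rw [ZMod.ringChar_zmod_n]; exact hp
  rw [← sum_fiberwise_of_maps_to (s := univ) (t := univ) (g := fun x : ZMod p => x ^ 2)
    (fun _ _ => mem_univ _)]
  have h1 : ∀ a : ZMod p, ∑ x ∈ univ.filter (fun x : ZMod p => x ^ 2 = a),
      ZMod.stdAddChar (x ^ 2) = (qc p a + 1) * ZMod.stdAddChar a := by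
    intro a
    rw [sum_congr rfl (g := fun _ => ZMod.stdAddChar a)
      (fun x hx => by rw [(mem_filter.1 hx).2]), sum_const, nsmul_eq_mul]
    congr 1
    have h := quadraticChar_card_sqrts hc a
    have h2 : (univ.filter fun x : ZMod p => x ^ 2 = a) = {x : ZMod p | x ^ 2 = a}.toFinset := by
      ext x; simp
    rw [h2]
    have h3 := congrArg (fun z : ℤ => (z : ℂ)) h
    simpa [qc] using h3
  simp_rw [h1, add_mul, one_mul]
  rw [sum_add_distrib, gs_eq, gaussSum]
  have h0 : ∑ a : ZMod p, ZMod.stdAddChar a = 0 := by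
    apply AddChar.sum_eq_zero_of_ne_one
    have := (ZMod.isPrimitive_stdAddChar p) (a := 1) one_ne_zero
    simpa using this
  rw [h0, add_zero]

theorem gs_prime {p : ℕ} [Fact p.Prime] (hp : p ≠ 2) : gs p = gsgn p * (√(p : ℝ) : ℝ) := by
  have hpp : p.Prime := Fact.out
  have hp0 : (0 : ℝ) < p := by exact_mod_cast hpp.pos
  have hs : 0 < √(p : ℝ) := sqrt_pos.2 hp0
  have hsC : ((√(p : ℝ) : ℝ) : ℂ) ≠ 0 := by exact_mod_cast hs.ne'
  have hsq : ((√(p : ℝ) : ℝ) : ℂ) ^ 2 = p := by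
    rw [← Complex.ofReal_pow, sq_sqrt hp0.le]; simp
  have h := Pool.Agent.P.MP_27a476_gt.gauss_reciprocity p hpp.pos 2 two_ne_zero 0
    (by simp)
  have h1 : ∑ j ∈ range p, Complex.exp (π * Complex.I * ((2 : ℤ) * (j : ℂ) ^ 2 + (0 : ℤ) * j) / p)
      = gs p := by
    rw [← sum_sq_eq_gs hp]
    refine sum_nbij' (fun j => (j : ZMod p)) (fun a => a.val) (fun _ _ => mem_univ _)
      (fun a _ => mem_range.2 (ZMod.val_lt a))
      (fun j hj => ZMod.val_cast_of_lt (mem_range.1 hj)) (fun a _ => by simp) fun j _ => ?_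
    have : (j : ZMod p) ^ 2 = (((j : ℤ) ^ 2 : ℤ) : ZMod p) := by push_cast; rfl
    rw [this, ZMod.stdAddChar_coe]
    congr 1
    push_cast
    ring
  rw [h1] at h
  have h2 : (-Complex.I * ((2 : ℤ) : ℂ) / p) ^ (1 / 2 : ℂ) =
      (1 - Complex.I) / (√(p : ℝ) : ℝ) := by
    have h3 : -Complex.I * ((2 : ℤ) : ℂ) / p = ((1 - Complex.I) / (√(p : ℝ) : ℝ)) ^ 2 := by
      rw [div_pow, hsq]
      congr 1
      push_cast
      linear_combination (-1 : ℂ) * Complex.I_sq
    rw [h3, one_div]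
    apply Complex.sq_cpow_two_inv
    rw [Complex.div_ofReal_re]
    simpa using hs
  rw [h2] at h
  have h4 : (2 : ℤ).natAbs = 2 := rfl
  rw [h4, sum_range_succ, sum_range_one] at h
  have hI : Complex.exp (-π * Complex.I / 2) = -Complex.I := by
    rw [show -π * Complex.I / 2 = -(π / 2 * Complex.I : ℂ) by ring, Complex.exp_neg,
      Complex.exp_pi_div_two_mul_I, Complex.inv_I]
  have h5 : Complex.exp (-π * Complex.I * ((p : ℂ) * ((1 : ℕ) : ℂ) ^ 2 - ((0 : ℤ) : ℂ) * (1 : ℕ)) /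
      ((2 : ℤ) : ℂ)) = (-Complex.I) ^ p := by
    rw [← hI, ← Complex.exp_nat_mul]
    congr 1
    push_cast
    ring
  rw [h5] at h
  simp only [Int.cast_zero, Nat.cast_zero, ne_eq, OfNat.ofNat_ne_zero, not_false_eq_true,
    zero_pow, mul_zero, zero_div, Complex.exp_zero, one_mul, sub_zero] at h
  have h6 : (-Complex.I) ^ p = (-Complex.I) ^ (p % 4) := by
    conv_lhs => rw [← Nat.div_add_mod p 4, pow_add, pow_mul]
    have : (-Complex.I) ^ 4 = 1 := by rw [neg_pow, Complex.I_pow_four]; norm_num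
    rw [this, one_pow, one_mul]
  rw [h6] at h
  have h7 : (1 - Complex.I) ≠ 0 := by
    intro h0
    have := congrArg Complex.re h0
    simp at this
  apply mul_left_cancel₀ h7
  have h8 : (1 - Complex.I) * gs p = (√(p : ℝ) : ℝ) * (1 + (-Complex.I) ^ (p % 4)) := by
    rw [← h]; field_simp
  rw [h8]
  unfold gsgn
  by_cases hm : p % 4 = 1
  · rw [if_pos hm, hm]; ring
  · have h3 : p % 4 = 3 := by have := Nat.odd_iff.1 (hpp.odd_of_ne_two hp); omega
    rw [if_neg hm, h3]
    linear_combination ((√(p : ℝ) : ℝ) : ℂ) * (1 - Complex.I) * Complex.I_sq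

theorem gsgn_mul {x y : ℕ} (hx : Odd x) (hy : Odd y) (hxy : Nat.Coprime x y) :
    (J(y | x) * J(x | y) : ℂ) * (gsgn x * gsgn y) = gsgn (x * y) := by
  have hsq : J(y | x) ^ 2 = 1 := jacobiSym.sq_one (by
    rw [Int.gcd_natCast_natCast]; exact hxy.symm)
  have hsqC : (J(y | x) : ℂ) * J(y | x) = 1 := by rw [← sq]; exact_mod_cast hsq
  have h1 := Nat.odd_iff.1 hx
  have h2 := Nat.odd_iff.1 hy
  unfold gsgn
  by_cases h4 : x % 4 = 1
  · rw [jacobiSym.quadratic_reciprocity_one_mod_four h4 hy, hsqC, if_pos h4, Nat.mul_mod, h4]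
    simp
  · have h3 : x % 4 = 3 := by omega
    by_cases h4' : y % 4 = 1
    · rw [← jacobiSym.quadratic_reciprocity_one_mod_four h4' hx, hsqC, if_pos h4', Nat.mul_mod, h4']
      simp
    · have h3' : y % 4 = 3 := by omega
      rw [jacobiSym.quadratic_reciprocity_three_mod_four h3 h3', if_neg h4, if_neg h4',
        Nat.mul_mod, h3, h3', if_pos (by norm_num)]
      push_cast
      linear_combination (-(Complex.I * Complex.I)) * hsqC - Complex.I_mul_I

/-- The Gauss sum to a squarefree odd modulus. -/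
theorem gsum_eq (n : ℕ) : ∀ [NeZero n], Odd n → Squarefree n → ∀ m : ℤ,
    gsum n m = (J(m | n) : ℂ) * (gsgn n * (√(n : ℝ) : ℝ)) := by
  induction n using induction_on_primes with
  | zero => intro _ ho; simp at ho
  | one =>
    intro _ _ _ m
    have : ∀ a : ZMod 1, ZMod.stdAddChar a = 1 := fun a => by
      rw [Subsingleton.elim a 0, AddChar.map_zero_eq_one]
    simp [gsum, gsgn, this]
  | prime_mul p a hp ih =>
    intro _ ho hs m
    have := Fact.mk hp
    have ha0 : a ≠ 0 := by rintro rfl; simp at ho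
    have : NeZero a := ⟨ha0⟩
    have hop : Odd p := (Nat.odd_mul.1 ho).1
    have hoa : Odd a := (Nat.odd_mul.1 ho).2
    have hco : Nat.Coprime p a := Nat.coprime_of_squarefree_mul hs
    have hp2 : p ≠ 2 := by rintro rfl; exact absurd hop (by decide)
    have h1 : gsum p m = (J(m | p) : ℂ) * gs p := by
      rw [← gs_shift hp2]
      exact sum_congr rfl fun b _ => by rw [qc_val]
    rw [gsum_mul hco, h1, gs_prime hp2, ih hoa hs.of_mul_right, ← gsgn_mul hop hoa hco,
      jacobiSym.mul_right, Nat.cast_mul, sqrt_mul (by positivity)]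
    push_cast
    ring

/-- The Jacobi symbol as a real function on residues. -/
noncomputable def jf (n : ℕ) (a : ZMod n) : ℝ := (J((a.val : ℤ) | n) : ℝ)

theorem jf_int {n : ℕ} [NeZero n] (m : ℤ) : jf n (m : ZMod n) = (J(m | n) : ℝ) := by
  rw [jf, jac_val]

theorem selfDual_jf {n : ℕ} [NeZero n] (h4 : n % 4 = 1) (hs : Squarefree n) :
    SelfDual (jf n) := by
  intro m
  have h := gsum_eq n (Nat.odd_iff.2 (by omega)) hs m
  rw [gsgn, if_pos h4, one_mul] at h
  rw [jf_int]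
  push_cast
  rw [mul_comm ((√(n : ℝ) : ℝ) : ℂ), ← h]
  refine sum_congr rfl fun a _ => ?_
  have : a * (m : ZMod n) = ((a.val * m : ℤ) : ZMod n) := by push_cast; simp
  rw [this, ZMod.stdAddChar_coe]
  simp only [jf]
  push_cast
  congr 2
  ring

/-- The theta transformation formula for the Jacobi symbol. -/
theorem theta_jac {n : ℕ} (h4 : n % 4 = 1) (hs : Squarefree n) {y : ℝ} (hy : 0 < y) :
    ∑' m : ℤ, (J(m | n) : ℝ) * exp (-π * (m : ℝ) ^ 2 * y) =
      (√(n * y))⁻¹ * ∑' h : ℤ, (J(h | n) : ℝ) * exp (-π * (h : ℝ) ^ 2 * (1 / ((n : ℝ) ^ 2 * y))) := by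
  have : NeZero n := ⟨by omega⟩
  have hn : (0 : ℝ) < n := q_pos
  have h1 := (hasSum_Th (jf n) hy).tsum_eq
  have h2 := (hasSum_Th (jf n) (τ := 1 / ((n : ℝ) ^ 2 * y)) (by positivity)).tsum_eq
  simp only [jf_int] at h1 h2
  rw [h1, h2, Th_feq (selfDual_jf h4 hs) hy]
  have : 0 < √(n * y) := sqrt_pos.2 (by positivity)
  field_simp

theorem summable_gauss {y : ℝ} (hy : 0 < y) :
    Summable fun m : ℤ => exp (-π * (m : ℝ) ^ 2 * y) := by
  simpa using (hasSum_Th (q := 1) (fun _ => 1) hy).summable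

theorem abs_jac_le (m : ℤ) (n : ℕ) : |(J(m | n) : ℝ)| ≤ 1 := by
  rcases jacobiSym.trichotomy m n with h | h | h <;> simp [h]

theorem summable_jac (n : ℕ) {y : ℝ} (hy : 0 < y) :
    Summable fun m : ℤ => (J(m | n) : ℝ) * exp (-π * (m : ℝ) ^ 2 * y) := by
  refine (summable_gauss hy).of_norm_bounded fun m => ?_
  rw [norm_mul, Real.norm_eq_abs, Real.norm_of_nonneg (exp_pos _).le]
  exact mul_le_of_le_one_left (exp_pos _).le (abs_jac_le m n)

end Pool.Agent.QM
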