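import Pool.Agent.P.MP_ea46f5_nt.QM.S2

/-! Helper facts for the fourth moment recursion. -/

namespace Pool.Agent.QM

open Complex MeasureTheory Finset
open scoped Real ComplexConjugate

theorem st_br (t : ℝ) : 1 ≤ br t := by
  unfold br
  linarith [abs_nonneg t]

theorem st_br_neg (t : ℝ) : br (-t) = br t := by
  unfold br
  rw [abs_neg]

theorem st_lg_mono {K X : ℝ} (hK : 0 ≤ K) (h : K ≤ X) : lg K ≤ lg X :=
  Real.log_le_log (by linarith) (by linarith)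

theorem st_lg_nonneg {K : ℝ} (hK : 0 ≤ K) : 0 ≤ lg K := Real.log_nonneg (by linarith)

theorem st_lg_one {X : ℝ} (hX : 1 ≤ X) : 1 ≤ lg X := by
  unfold lg
  rw [Real.le_log_iff_exp_le (by linarith)]
  linarith [Real.exp_one_lt_d9]

theorem st_log_le_lg {X : ℝ} (hX : 1 ≤ X) : Real.log X ≤ lg X :=
  Real.log_le_log (by linarith) (by linarith)

theorem st_big (a : ℝ) : ∃ Z₀ : ℝ, ∀ X : ℝ, Z₀ ≤ X →
    1 ≤ X ∧ 100 ≤ Real.log X ∧ a ≤ Real.log X ∧ Real.log X ^ 6 ≤ X := by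
  refine ⟨Real.exp (max 5040 a), fun X hX => ?_⟩
  have h0 : 0 < X := lt_of_lt_of_le (Real.exp_pos _) hX
  have h1 : max 5040 a ≤ Real.log X := (Real.le_log_iff_exp_le h0).2 hX
  have h2 : 5040 ≤ Real.log X := (le_max_left _ _).trans h1
  refine ⟨?_, by linarith, (le_max_right _ _).trans h1, ?_⟩
  · by_contra h
    have := Real.log_nonpos h0.le (not_le.1 h).le
    linarith
  · have h3 := Real.pow_div_factorial_le_exp (Real.log X) (by linarith) 7
    rw [Real.exp_log h0] at h3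
    have e : ((Nat.factorial 7 : ℕ) : ℝ) = 5040 := by norm_num [Nat.factorial]
    rw [e] at h3
    have h4 : 0 ≤ Real.log X ^ 6 := by positivity
    have h5 : Real.log X ^ 7 = Real.log X * Real.log X ^ 6 := by ring
    nlinarith

theorem st_delta (B : ℕ) {η : ℝ} (hη : 0 < η) : ∃ L₀ : ℝ, ∀ L b : ℝ, L₀ ≤ L → 1 ≤ L → 1 ≤ b →
    Real.log (L ^ 3 * b ^ B) ^ 3 ≤ η * L * b := by
  refine ⟨max (720 * (216 / η) ^ 2) (48 * B ^ 3 / η), fun L b hL h1 hb => ?_⟩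
  have a1 : 720 * (216 / η) ^ 2 ≤ L := (le_max_left _ _).trans hL
  have a2 : 48 * B ^ 3 / η ≤ L := (le_max_right _ _).trans hL
  have hx : 0 ≤ Real.log L := Real.log_nonneg h1
  have hy : 0 ≤ Real.log b := Real.log_nonneg hb
  rw [Real.log_mul (by positivity) (by positivity), Real.log_pow, Real.log_pow]
  have b1 := Real.pow_div_factorial_le_exp (Real.log L) hx 6
  have b2 := Real.pow_div_factorial_le_exp (Real.log b) hy 3
  rw [Real.exp_log (by linarith)] at b1 b2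
  have e1 : ((Nat.factorial 6 : ℕ) : ℝ) = 720 := by norm_num [Nat.factorial]
  have e2 : ((Nat.factorial 3 : ℕ) : ℝ) = 6 := by norm_num [Nat.factorial]
  rw [e1] at b1
  rw [e2] at b2
  have c1 : Real.log L ^ 3 ≤ η / 216 * L := by
    refine le_of_sq_le_sq ?_ (by positivity)
    have d1 : 720 ≤ (η / 216) ^ 2 * L := by
      calc (720 : ℝ) = (η / 216) ^ 2 * (720 * (216 / η) ^ 2) := by field_simp
        _ ≤ _ := by gcongr
    calc (Real.log L ^ 3) ^ 2 = Real.log L ^ 6 := by ring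
      _ ≤ 720 * L := by linarith
      _ ≤ ((η / 216) ^ 2 * L) * L := by gcongr
      _ = _ := by ring
  have c2 : 24 * (B : ℝ) ^ 3 ≤ η / 2 * L := by
    rw [div_le_iff₀ hη] at a2
    linarith
  have c3 : ∀ u v : ℝ, 0 ≤ u → 0 ≤ v → (u + v) ^ 3 ≤ 4 * u ^ 3 + 4 * v ^ 3 := by
    intro u v hu hv
    nlinarith [mul_nonneg (add_nonneg hu hv) (sq_nonneg (u - v))]
  have c4 := c3 (3 * Real.log L) (B * Real.log b) (by positivity) (by positivity)
  have c5 : 0 ≤ η * L := by positivity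
  push_cast
  calc _ ≤ 4 * (3 * Real.log L) ^ 3 + 4 * (B * Real.log b) ^ 3 := c4
    _ = 108 * Real.log L ^ 3 + 4 * B ^ 3 * Real.log b ^ 3 := by ring
    _ ≤ 108 * (η / 216 * L) + 4 * B ^ 3 * (6 * b) := by gcongr; linarith
    _ = η * L / 2 * 1 + (24 * B ^ 3) * b := by ring
    _ ≤ η * L / 2 * b + (η / 2 * L) * b := by gcongr
    _ = η * L * b := by ring

theorem st_phs_diff (Δ : ℝ) : DifferentiableOn ℂ (phs Δ) {s | 0 < s.re} := by
  intro s hs
  have h0 : s ≠ 0 := fun h => by simp [h] at hs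
  unfold phs
  exact DifferentiableAt.differentiableWithinAt (by fun_prop (disch := exact h0))

theorem st_phm_diff (Δ : ℝ) : DifferentiableOn ℂ (phm Δ) {s | 0 < s.re} := by
  intro s hs
  have h0 : s ≠ 0 := fun h => by simp [h] at hs
  unfold phm
  exact DifferentiableAt.differentiableWithinAt (by fun_prop (disch := exact h0))

theorem st_norm_exp (Δ : ℝ) (s : ℂ) : ‖cexp (-(s * Δ))‖ = Real.exp (-Δ * s.re) := by
  rw [Complex.norm_exp]
  congr 1
  simp [mul_comm]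

theorem st_phs_le {Δ ε : ℝ} {s : ℂ} (hε : 0 < ε) (hs : ε / 2 ≤ s.re) :
    ‖phs Δ s‖ ≤ 2 / ε * Real.exp (-Δ * s.re) := by
  unfold phs
  have h1 : ε / 2 ≤ ‖s‖ := hs.trans (re_le_norm s)
  rw [norm_div, st_norm_exp]
  calc Real.exp (-Δ * s.re) / ‖s‖ ≤ Real.exp (-Δ * s.re) / (ε / 2) := by gcongr
    _ = _ := by field_simp

theorem st_phm_le {Δ : ℝ} {s : ℂ} (hΔ : 0 ≤ Δ) (hs : 0 < s.re) : ‖phm Δ s‖ ≤ 2 * Δ := by
  unfold phm
  have h1 : 0 < ‖s‖ := hs.trans_le (re_le_norm s)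
  have h2 : ‖-(s * (Δ : ℂ))‖ = ‖s‖ * Δ := by
    rw [norm_neg, norm_mul, Complex.norm_real, Real.norm_of_nonneg hΔ]
  rw [norm_div, div_le_iff₀ h1, norm_sub_rev]
  rcases le_total ‖-(s * (Δ : ℂ))‖ 1 with h | h
  · have := Complex.norm_exp_sub_one_le h
    rw [h2] at this
    linarith
  · have h3 : ‖cexp (-(s * Δ))‖ ≤ 1 := by
      rw [st_norm_exp, Real.exp_le_one_iff]
      nlinarith
    have h4 := norm_sub_le (cexp (-(s * Δ))) 1
    rw [norm_one] at h4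
    rw [h2] at h
    linarith

theorem st_near_re {ε τ t : ℝ} {s : ℂ} (h : ‖s - (ε + τ * I)‖ ≤ ε / 2) :
    ε / 2 ≤ (s - t * I).re := by
  have h1 := (abs_re_le_norm (s - (ε + τ * I))).trans h
  have e1 : (s - (ε + τ * I)).re = s.re - ε := by simp
  have e2 : (s - t * I).re = s.re := by simp
  rw [e1] at h1
  rw [e2]
  linarith [(abs_le.1 h1).1]

theorem st_far_phs {Δ ε : ℝ} (hε : 0 < ε) : FarP (phs Δ) ε Δ (2 / ε) :=
  ⟨st_phs_diff Δ, fun _ h _ => st_phs_le hε h⟩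

theorem st_far_phs0 {Δ ε : ℝ} (hε : 0 < ε) (hΔ : 0 ≤ Δ) : FarP (phs Δ) ε 0 (2 / ε) := by
  refine ⟨st_phs_diff Δ, fun s h _ => (st_phs_le hε h).trans ?_⟩
  have : 0 ≤ s.re := by linarith
  gcongr

theorem st_far_phm {Δ ε : ℝ} (hε : 0 < ε) (hΔ : 0 ≤ Δ) : FarP (phm Δ) ε 0 (2 * Δ) := by
  refine ⟨st_phm_diff Δ, fun s h _ => (st_phm_le hΔ (by linarith)).trans ?_⟩
  simp

theorem st_near_phs {Δ ε t : ℝ} (C₀ : ℕ) (hε : 0 < ε) (hΔ : 0 ≤ Δ) :
    NearP (phs Δ) ε 0 t 0 C₀ (2 / ε) := by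
  intro s τ h
  have h1 := st_near_re (t := t) h
  refine (st_phs_le hε h1).trans ?_
  have h2 : Real.exp (-Δ * (s - t * I).re) ≤ 1 := by
    rw [Real.exp_le_one_iff]
    nlinarith
  have h3 : 0 ≤ 2 / ε := by positivity
  simp only [pow_zero, mul_one, zero_mul, add_zero, one_pow, div_one]
  nlinarith

theorem st_near_phm {Δ ε t : ℝ} (C₀ : ℕ) (hε : 0 < ε) (hΔ : 0 ≤ Δ) :
    NearP (phm Δ) ε 0 t 0 C₀ (2 * Δ) := by
  intro s τ h
  have h1 := st_near_re (t := t) h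
  refine (st_phm_le hΔ (by linarith)).trans ?_
  simp

/-- The dual bound at a smaller scale. -/
theorem st_dual_le {K X Y : ℝ} (hK : 0 ≤ K) (h : K ≤ X) (hY : 1 ≤ Y) :
    lg K ^ 10 * max 1 (K / Y) ^ 4 ≤ lg X ^ 10 * max 1 (X / Y) ^ 4 := by
  have h1 := st_lg_nonneg hK
  have h2 := st_lg_mono hK h
  have h3 : (0 : ℝ) ≤ max 1 (K / Y) := zero_le_one.trans (le_max_left _ _)
  have h4 : max 1 (K / Y) ≤ max 1 (X / Y) := by gcongr
  have h5 := st_lg_nonneg (hK.trans h)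
  gcongr

theorem st_sqrt {X L : ℝ} (hX : 0 ≤ X) (h : L ^ 6 ≤ X) : L ^ 3 * √X ≤ X := by
  have h1 : L ^ 3 ≤ √X := Real.le_sqrt_of_sq_le (by linarith [show (L ^ 3) ^ 2 = L ^ 6 by ring])
  calc L ^ 3 * √X ≤ √X * √X := by gcongr
    _ = X := Real.mul_self_sqrt hX

end Pool.Agent.QM
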